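import Pool.Graph.R_pool_sql_team_seeded_1e53cb71.Helper11K9.OD.Clif

/-!
Constant field extensions of function fields of curves: existence, and the places which are given by
embeddings of the function field into the field of constants.
-/

set_option autoImplicit false
set_option linter.overlappingInstances false
set_option linter.unusedSectionVars false

open FF IntermediateField

namespace Pool.Agent.H908.SA

open Pool.Agent.W603.LV Pool.Agent.W602.RG Pool.Agent.Helper11K9.PC Pool.Agent.Helper11K9.OD

/-- **Existence of constant field extensions.** -/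
theorem exists_bc (k F Ω : Type) [Field k] [CharZero k] [IsAlgClosed k] [Field F] [Algebra k F]
    [IsFF k F] [Field Ω] [CharZero Ω] [Algebra k Ω] :
    ∃ (E : Type) (_ : Field E) (_ : Algebra k E) (_ : Algebra F E) (_ : Algebra Ω E),
      IsScalarTower k F E ∧ IsScalarTower k Ω E ∧ IsFF Ω E ∧ BC k F Ω E ∧
      IntermediateField.adjoin Ω (Set.range (algebraMap F E)) = ⊤ := by
  classical
  obtain ⟨A, iA, iRA, hA⟩ : ∃ (A : Type) (_ : Field A) (_ : Algebra (RatFunc Ω) A), IsAlgClosed A :=
    ⟨AlgebraicClosure (RatFunc Ω), inferInstance, inferInstance, inferInstance⟩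
  let iΩA : Algebra Ω A := ((algebraMap (RatFunc Ω) A).comp (algebraMap Ω (RatFunc Ω))).toAlgebra
  let ikA : Algebra k A := ((algebraMap Ω A).comp (algebraMap k Ω)).toAlgebra
  have tk : IsScalarTower k Ω A := IsScalarTower.of_algebraMap_eq fun _ => rfl
  have tR : IsScalarTower Ω (RatFunc Ω) A := IsScalarTower.of_algebraMap_eq fun _ => rfl
  obtain ⟨x, hx⟩ := IsFF.exists_transcendental (k := k) (K := F)
  let t : A := algebraMap (RatFunc Ω) A RatFunc.X
  have htΩ : Transcendental Ω t := by
    rw [transcendental_algebraMap_iff (algebraMap (RatFunc Ω) A).injective]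
    exact RatFunc.transcendental_X
  have htk : Transcendental k t := fun h => htΩ (h.tower_top Ω)
  have halg : Algebra.IsAlgebraic k⟮x⟯ F := IsFF.isAlgebraic hx
  obtain ⟨φ, hφx⟩ : ∃ φ : F →ₐ[k] A, φ x = t := by
    let e1 := RatFunc.algEquivOfTranscendental x hx
    let e2 := RatFunc.algEquivOfTranscendental t htk
    let φ0 : k⟮x⟯ →ₐ[k] A := (k⟮t⟯.val.comp e2.toAlgHom).comp e1.symm.toAlgHom
    have hφ0 : φ0 ⟨x, mem_adjoin_simple_self k x⟩ = t := by
      have h1 : e1 RatFunc.X = ⟨x, mem_adjoin_simple_self k x⟩ := by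
        apply Subtype.ext
        exact RatFunc.algEquivOfTranscendental_X x hx
      have h2 : e1.symm ⟨x, mem_adjoin_simple_self k x⟩ = RatFunc.X := by
        rw [← h1, AlgEquiv.symm_apply_apply]
      change ((e2 (e1.symm ⟨x, mem_adjoin_simple_self k x⟩) : k⟮t⟯) : A) = t
      rw [h2]
      exact RatFunc.algEquivOfTranscendental_X t htk
    let i0 : Algebra k⟮x⟯ A := φ0.toRingHom.toAlgebra
    have t0 : IsScalarTower k k⟮x⟯ A := IsScalarTower.of_algebraMap_eq fun c => (φ0.commutes c).symm
    let φ1 : F →ₐ[k⟮x⟯] A := IsAlgClosed.lift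
    let φ : F →ₐ[k] A := φ1.restrictScalars k
    have hφx : φ x = t := by
      have h1 := φ1.commutes ⟨x, mem_adjoin_simple_self k x⟩
      have h2 : algebraMap k⟮x⟯ A ⟨x, mem_adjoin_simple_self k x⟩ = t := hφ0
      rw [h2] at h1
      exact h1
    exact ⟨φ, hφx⟩
  let E : IntermediateField Ω A := IntermediateField.adjoin Ω (Set.range φ)
  have hφE : ∀ f, φ f ∈ E := fun f => IntermediateField.subset_adjoin _ _ ⟨f, rfl⟩
  let iFE : Algebra F E := ((φ : F →+* A).codRestrict E.toSubring hφE).toAlgebra
  let ikE : Algebra k E := ((algebraMap Ω E).comp (algebraMap k Ω)).toAlgebra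
  have tO : IsScalarTower k Ω E := IsScalarTower.of_algebraMap_eq fun _ => rfl
  have tF : IsScalarTower k F E := IsScalarTower.of_algebraMap_eq fun c => by
    apply Subtype.ext
    change algebraMap Ω A (algebraMap k Ω c) = φ (algebraMap k F c)
    rw [φ.commutes]
    rfl
  have hgen : IntermediateField.adjoin Ω (Set.range (algebraMap F E)) = ⊤ := by
    rw [eq_top_iff]
    rintro ⟨z, hz⟩ -
    have h1 : (IntermediateField.adjoin Ω (Set.range (algebraMap F E))).map E.val = E := by
      rw [IntermediateField.adjoin_map]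
      have h2 : E.val '' Set.range (algebraMap F E) = Set.range φ := by
        ext y
        constructor
        · rintro ⟨_, ⟨f, rfl⟩, rfl⟩
          exact ⟨f, rfl⟩
        · rintro ⟨f, rfl⟩
          exact ⟨algebraMap F E f, ⟨f, rfl⟩, rfl⟩
      rw [h2]
    have h2 : z ∈ (IntermediateField.adjoin Ω (Set.range (algebraMap F E))).map E.val := by
      rw [h1]
      exact hz
    obtain ⟨y, hy, hyz⟩ := h2
    have h3 : y = ⟨z, hz⟩ := Subtype.ext hyz
    rwa [← h3]
  have htE : t ∈ E := by
    rw [← hφx]
    exact hφE x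
  have hff : IsFF Ω E := by
    have hessF : Algebra.EssFiniteType k F := IsFF.ess
    obtain ⟨s, hs⟩ := IntermediateField.fg_top k F
    have hfg : E.FG := by
      refine ⟨s.image φ, ?_⟩
      rw [Finset.coe_image]
      apply le_antisymm
      · exact IntermediateField.adjoin.mono _ _ _ (Set.image_subset_range _ _)
      · rw [IntermediateField.adjoin_le_iff]
        rintro _ ⟨f, rfl⟩
        have h1 : (⊤ : IntermediateField k F) ≤
            ((IntermediateField.adjoin Ω (φ '' s)).restrictScalars k).comap φ := by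
          rw [← hs, IntermediateField.adjoin_le_iff]
          intro f hf
          exact IntermediateField.subset_adjoin Ω (φ '' s) ⟨f, hf, rfl⟩
        exact h1 (x := f) trivial
    have hess : Algebra.EssFiniteType Ω E := IntermediateField.essFiniteType_iff.2 hfg
    let tE : E := ⟨t, htE⟩
    have htE' : Transcendental Ω tE := fun h => htΩ (h.algebraMap (A := A))
    refine IsFF.of_finite htE' ?_
    have hxt : algebraMap F E x = tE := Subtype.ext hφx
    have hmem : ∀ y : k⟮x⟯, algebraMap F E y ∈ Ω⟮tE⟯ := by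
      have h1 : k⟮x⟯ ≤ (Ω⟮tE⟯.restrictScalars k).comap (IsScalarTower.toAlgHom k F E) := by
        rw [IntermediateField.adjoin_simple_le_iff]
        change algebraMap F E x ∈ Ω⟮tE⟯
        rw [hxt]
        exact mem_adjoin_simple_self Ω tE
      exact fun y => h1 y.2
    let i1 : Algebra k⟮x⟯ Ω⟮tE⟯ :=
      (((algebraMap F E).comp (algebraMap k⟮x⟯ F)).codRestrict Ω⟮tE⟯.toSubring hmem).toAlgebra
    have t2 : IsScalarTower k⟮x⟯ Ω⟮tE⟯ E := IsScalarTower.of_algebraMap_eq fun _ => rfl
    have halgE : Algebra.IsAlgebraic Ω⟮tE⟯ E := by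
      have h1 : (IntermediateField.adjoin Ω (Set.range (algebraMap F E))) ≤
          (algebraicClosure Ω⟮tE⟯ E).restrictScalars Ω := by
        rw [IntermediateField.adjoin_le_iff]
        rintro _ ⟨f, rfl⟩
        change algebraMap F E f ∈ algebraicClosure Ω⟮tE⟯ E
        rw [mem_algebraicClosure_iff]
        have h2 : IsAlgebraic k⟮x⟯ (algebraMap F E f) := (halg.isAlgebraic f).algebraMap
        exact h2.tower_top Ω⟮tE⟯
      refine ⟨fun z => ?_⟩
      rw [hgen] at h1
      exact (mem_algebraicClosure_iff).1 (h1 (x := z) trivial)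
    have h3 : Algebra.EssFiniteType Ω⟮tE⟯ E := Algebra.EssFiniteType.of_comp Ω Ω⟮tE⟯ E
    obtain ⟨s', hs'⟩ := IntermediateField.fg_top Ω⟮tE⟯ E
    have h5 : FiniteDimensional Ω⟮tE⟯ (IntermediateField.adjoin Ω⟮tE⟯ (s' : Set E)) :=
      IntermediateField.finiteDimensional_adjoin
        (fun x _ => (halgE.isAlgebraic x).isIntegral)
    rw [hs'] at h5
    exact IntermediateField.topEquiv.toLinearEquiv.finiteDimensional
  have hxE : Transcendental Ω (algebraMap F E x) := by
    intro h
    apply htΩ
    rw [← hφx]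
    exact h.algebraMap (A := A)
  exact ⟨E, inferInstance, ikE, iFE, inferInstance, tF, tO, hff, bc_mk hxE hgen, hgen⟩

end Pool.Agent.H908.SA
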