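import Pool.Agent.H908.SA1

/-!
The places of a constant field extension which are given by embeddings of the function field into
the field of constants.
-/

set_option autoImplicit false
set_option linter.overlappingInstances false
set_option linter.unusedSectionVars false

open FF IntermediateField

namespace Pool.Agent.H908.SA

open Pool.Agent.W603.LV Pool.Agent.W602.RG Pool.Agent.Helper11K9.PC Pool.Agent.Helper11K9.OD

section

variable {k L Ω E : Type} [Field k] [Field L] [Field Ω] [Field E] [Algebra k L]
    [Algebra k Ω] [Algebra k E] [Algebra L E] [Algebra Ω E]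

/-- the function `f` has at `P` the value `x f`, for all `f` in `L` -/
def Ats (P : Place Ω E) (x : L →ₐ[k] Ω) : Prop :=
  ∀ f : L, Ge P 1 (algebraMap L E f - algebraMap Ω E (x f))

/-- values are unique -/
theorem val_unique {P : Place Ω E} {f : E} {a b : Ω} (ha : Ge P 1 (f - algebraMap Ω E a))
    (hb : Ge P 1 (f - algebraMap Ω E b)) : a = b := by
  by_contra hab
  have h1 := hb.sub ha
  have h2 : f - algebraMap Ω E b - (f - algebraMap Ω E a) = algebraMap Ω E (a - b) := by
    rw [map_sub]; ring
  rw [h2] at h1
  have h3 : a - b ≠ 0 := sub_ne_zero.2 hab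
  have h4 := h1.resolve_left ((_root_.map_ne_zero _).2 h3)
  rw [P.ord_const h3] at h4
  omega

theorem Ats.unique {P : Place Ω E} {x y : L →ₐ[k] Ω} (hx : Ats P x) (hy : Ats P y) : x = y :=
  AlgHom.ext fun f => val_unique (hx f) (hy f)

theorem Ats.ord {P : Place Ω E} {x : L →ₐ[k] Ω} (hx : Ats P x) (f : L) :
    P.ord (algebraMap L E f) = 0 := by
  by_cases hf : f = 0
  · rw [hf, map_zero, P.ord_zero]
  have hxf : x f ≠ 0 := (_root_.map_ne_zero x).2 hf
  have hfE : algebraMap L E f ≠ 0 := (_root_.map_ne_zero _).2 hf
  have h1 : algebraMap Ω E (x f) ≠ 0 := (_root_.map_ne_zero _).2 hxf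
  by_cases h2 : algebraMap L E f - algebraMap Ω E (x f) = 0
  · rw [sub_eq_zero.1 h2, P.ord_const hxf]
  · have h3 := (hx f).resolve_left h2
    have h4 := P.ord_add_eq (f := algebraMap Ω E (x f))
      (g := algebraMap L E f - algebraMap Ω E (x f)) h1 h2 (by rw [P.ord_const hxf]; omega)
    rw [add_sub_cancel, P.ord_const hxf] at h4
    exact h4.2

variable [IsAlgClosed k] [CharZero k] [IsFF k L] [IsAlgClosed Ω] [CharZero Ω] [IsFF Ω E]

/-- **The embedding which is given by a place.** -/
theorem emb_at (bc : BC k L Ω E) (P : Place Ω E) (hP : ∀ f : L, P.ord (algebraMap L E f) = 0) :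
    ∃ x : L →ₐ[k] Ω, Ats P x := by
  classical
  have _ := bc.towerL
  have _ := bc.towerO
  have h1 : ∀ f : L, ∃ c : Ω, Ge P 1 (algebraMap L E f - algebraMap Ω E c) := fun f =>
    exists_const P (Or.inr (hP f).ge)
  choose c hc using h1
  have h0 : ∀ f : L, Ge P 0 (algebraMap L E f) := fun f => Or.inr (hP f).ge
  refine ⟨{ toFun := c, map_one' := ?_, map_mul' := ?_, map_zero' := ?_, map_add' := ?_,
            commutes' := ?_ }, hc⟩
  · refine val_unique (hc 1) ?_
    rw [map_one, map_one, sub_self]
    exact Ge.zero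
  · intro f g
    refine val_unique (hc (f * g)) ?_
    have h2 := ((h0 f).mul (hc g)).add ((Ge.const (P := P) (c g)).mul (hc f))
    rw [map_mul, map_mul]
    have h3 : algebraMap L E f * algebraMap L E g - algebraMap Ω E (c f) * algebraMap Ω E (c g) =
        algebraMap L E f * (algebraMap L E g - algebraMap Ω E (c g)) +
          algebraMap Ω E (c g) * (algebraMap L E f - algebraMap Ω E (c f)) := by ring
    rw [h3]
    simpa using h2
  · refine val_unique (hc 0) ?_
    rw [map_zero, map_zero, sub_self]
    exact Ge.zero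
  · intro f g
    refine val_unique (hc (f + g)) ?_
    have h2 := (hc f).add (hc g)
    rw [map_add, map_add]
    have h3 : algebraMap L E f + algebraMap L E g -
        (algebraMap Ω E (c f) + algebraMap Ω E (c g)) =
        algebraMap L E f - algebraMap Ω E (c f) + (algebraMap L E g - algebraMap Ω E (c g)) := by
      ring
    rw [h3]
    exact h2
  · intro a
    refine val_unique (hc (algebraMap k L a)) ?_
    rw [← IsScalarTower.algebraMap_apply k L E, ← IsScalarTower.algebraMap_apply k Ω E, sub_self]
    exact Ge.zero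

/-- **The place which is given by an embedding.** -/
theorem exists_at (bc : BC k L Ω E) (x : L →ₐ[k] Ω) : ∃ P : Place Ω E, Ats P x := by
  classical
  have _ := bc.towerL
  have _ := bc.towerO
  -- the evaluation
  let b := Module.Basis.ofVectorSpace k L
  have hli := bc_li bc b.linearIndependent
  let bE := Module.Basis.span hli
  obtain ⟨ev, hev⟩ := LinearMap.exists_extend (bE.constr Ω fun i => x (b i))
  have hevb : ∀ i, ev (algebraMap L E (b i)) = x (b i) := by
    intro i
    have h1 := DFunLike.congr_fun hev (bE i)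
    rw [Module.Basis.constr_basis, LinearMap.comp_apply] at h1
    rw [← h1]
    congr 1
    exact (congrArg Subtype.val (Module.Basis.span_apply hli i)).symm
  have hevL : ∀ f : L, ev (algebraMap L E f) = x f := by
    intro f
    have h1 : f = ∑ i ∈ (b.repr f).support, (b.repr f) i • b i := by
      conv_lhs => rw [← b.linearCombination_repr f]
      rfl
    rw [h1, map_sum, map_sum, map_sum]
    refine Finset.sum_congr rfl fun i _ => ?_
    rw [Algebra.smul_def, map_mul, ← IsScalarTower.algebraMap_apply k L E,
      IsScalarTower.algebraMap_apply k Ω E, ← Algebra.smul_def, map_smul, hevb, map_mul,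
      AlgHom.commutes, smul_eq_mul]
  let S : Set E := Set.range (algebraMap L E)
  let A : Subalgebra Ω E := Algebra.adjoin Ω S
  have hA : ∀ a ∈ A, a ∈ Submodule.span Ω S := by
    intro a ha
    have hs := adjoin_span (Ω := Ω) (S := S) ⟨1, map_one _⟩ (by
      rintro _ ⟨a, rfl⟩ _ ⟨b, rfl⟩
      exact ⟨a * b, map_mul _ _ _⟩)
    rw [← hs]
    exact ha
  have hevm : ∀ a ∈ Submodule.span Ω S, ∀ f : L,
      ev (a * (algebraMap L E f - algebraMap Ω E (x f))) = 0 := by
    intro a ha f
    induction ha using Submodule.span_induction with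
    | mem a ha =>
      obtain ⟨g, rfl⟩ := ha
      rw [mul_sub, map_sub, ← map_mul, hevL, mul_comm (algebraMap L E g), ← Algebra.smul_def,
        map_smul, hevL, map_mul, smul_eq_mul]
      ring
    | zero => rw [zero_mul, map_zero]
    | add a b _ _ ha hb => rw [add_mul, map_add, ha, hb, add_zero]
    | smul c a _ ha => rw [smul_mul_assoc, map_smul, ha, smul_zero]
  let m : Set A := {a | ∃ f : L, (a : E) = algebraMap L E f - algebraMap Ω E (x f)}
  have hI : ∀ a ∈ Ideal.span m, ∀ c : A, ev ((c : E) * (a : E)) = 0 := by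
    intro a ha
    induction ha using Submodule.span_induction with
    | mem a ha =>
      obtain ⟨f, hf⟩ := ha
      intro c
      rw [hf]
      exact hevm _ (hA _ c.2) f
    | zero =>
      intro c
      rw [ZeroMemClass.coe_zero, mul_zero, map_zero]
    | add a b _ _ ha hb =>
      intro c
      rw [AddMemClass.coe_add, mul_add, map_add, ha, hb, add_zero]
    | smul d a _ ha =>
      intro c
      have h1 := ha (c * d)
      rw [← h1]
      congr 1
      rw [MulMemClass.coe_mul, smul_eq_mul, MulMemClass.coe_mul, mul_assoc]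
  have hLA : ∀ f : L, algebraMap L E f ∈ A := fun f => Algebra.subset_adjoin ⟨f, rfl⟩
  have hmA : ∀ f : L, algebraMap L E f - algebraMap Ω E (x f) ∈ A := fun f =>
    A.sub_mem (hLA f) (A.algebraMap_mem _)
  obtain ⟨V, hV1, hV2⟩ := Ideal.image_subset_nonunits_valuationSubring (A := A.toSubring)
    (Ideal.span m) (by
      intro htop
      rw [Ideal.eq_top_iff_one] at htop
      have h2 := hI 1 htop 1
      have h3 := hevL 1
      rw [map_one (algebraMap L E), map_one x] at h3
      rw [OneMemClass.coe_one, mul_one, h3] at h2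
      exact one_ne_zero h2)
  have hVm : ∀ f : L, algebraMap L E f - algebraMap Ω E (x f) ∈ V.nonunits := fun f =>
    hV2 ⟨⟨_, hmA f⟩, Ideal.subset_span ⟨f, rfl⟩, rfl⟩
  obtain ⟨u, hu⟩ := IsFF.exists_transcendental (k := k) (K := L)
  have huE := bc_transc bc hu
  have ht0 : algebraMap L E u - algebraMap Ω E (x u) ≠ 0 := by
    intro h
    apply huE
    rw [sub_eq_zero.1 h]
    exact isAlgebraic_algebraMap _
  have hnot : (algebraMap L E u - algebraMap Ω E (x u))⁻¹ ∉ V := by
    intro h
    have ht1 := hVm u
    rw [ValuationSubring.mem_nonunits_iff] at ht1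
    have h2 := (V.valuation_le_one_iff _).2 h
    rw [map_inv₀] at h2
    have h3 : V.valuation (algebraMap L E u - algebraMap Ω E (x u)) ≠ 0 := by
      rw [Valuation.ne_zero_iff]
      exact ht0
    exact absurd h2 (not_le.2 ((one_lt_inv₀ (zero_lt_iff.2 h3)).2 ht1))
  obtain ⟨P, hP⟩ := Pool.Agent.TH145.GF.place_of_val V (fun c => hV1 (A.algebraMap_mem c))
    (hV1 (hmA u)) hnot
  refine ⟨P, fun f => ?_⟩
  by_cases h0 : algebraMap L E f - algebraMap Ω E (x f) = 0
  · exact Or.inl h0
  right
  by_contra hcon
  push Not at hcon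
  have h1 : P.Reg (algebraMap L E f - algebraMap Ω E (x f))⁻¹ := by
    right
    rw [P.ord_inv]
    omega
  have h2 := (hP _).1 h1
  have h3 := hVm f
  rw [ValuationSubring.mem_nonunits_iff] at h3
  have h4 := (V.valuation_le_one_iff _).2 h2
  rw [map_inv₀] at h4
  have h5 : V.valuation (algebraMap L E f - algebraMap Ω E (x f)) ≠ 0 := by
    rw [Valuation.ne_zero_iff]
    exact h0
  exact absurd h4 (not_le.2 ((one_lt_inv₀ (zero_lt_iff.2 h5)).2 h3))

end

end Pool.Agent.H908.SA
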