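import Pool.Agent.H908.SA2

/-!
Descent of spaces of functions with given poles; the genus of a constant field extension.
-/

set_option autoImplicit false
set_option linter.overlappingInstances false
set_option linter.unusedSectionVars false

open FF IntermediateField

namespace Pool.Agent.H908.SA

open Pool.Agent.W603.LV Pool.Agent.W602.RG Pool.Agent.Helper11K9.PC Pool.Agent.Helper11K9.OD

section

variable {k L Ω E : Type} [Field k] [Field L] [Field Ω] [Field E] [Algebra k L]
    [Algebra k Ω] [Algebra k E] [Algebra L E] [Algebra Ω E]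
variable [IsAlgClosed k] [CharZero k] [IsFF k L] [IsAlgClosed Ω] [CharZero Ω] [IsFF Ω E]

/-- **Descent** of finite dimensional spaces which are stable under derivations; from the proof of
`Helper11K9.PC.reg_bc`. -/
theorem descent_stable (bc : BC k L Ω E) (V : Submodule Ω E) (hVfin : Module.Finite Ω V)
    (hstab : ∀ (D1 : Derivation L E E) (D2 : Derivation k Ω Ω),
      (∀ w, D1 (algebraMap Ω E w) = algebraMap Ω E (D2 w)) → ∀ f ∈ V, D1 f ∈ V) :
    V ≤ Submodule.span Ω {f | ∃ l, algebraMap L E l = f ∧ f ∈ V} := by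
  classical
  have _ := bc.towerL
  have _ := bc.towerO
  obtain ⟨U, hU⟩ : ∃ U : Submodule Ω E, U = Submodule.span Ω (Set.range (algebraMap L E)) :=
    ⟨_, rfl⟩
  -- the denominators
  let I : Submodule Ω E :=
    { carrier := {u | u ∈ U ∧ ∀ v ∈ V, u * v ∈ U}
      add_mem' := fun {a b} ha hb => ⟨U.add_mem ha.1 hb.1, fun v hv => by
        rw [add_mul]
        exact U.add_mem (ha.2 v hv) (hb.2 v hv)⟩
      zero_mem' := ⟨U.zero_mem, fun v _ => by
        rw [zero_mul]
        exact U.zero_mem⟩
      smul_mem' := fun c a ha => ⟨U.smul_mem c ha.1, fun v hv => by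
        rw [smul_mul_assoc]
        exact U.smul_mem c (ha.2 v hv)⟩ }
  have hIstab : ∀ (D1 : Derivation L E E) (D2 : Derivation k Ω Ω),
      (∀ w, D1 (algebraMap Ω E w) = algebraMap Ω E (D2 w)) → ∀ f ∈ I, D1 f ∈ I := by
    intro D1 D2 hD1 u hu
    have h1 : D1 u ∈ U := by
      have := hu.1
      rw [hU] at this ⊢
      exact U_der hD1 this
    refine ⟨h1, fun v hv => ?_⟩
    have h2 : D1 u * v = D1 (u * v) - u * D1 v := by
      rw [D1.leibniz, smul_eq_mul, smul_eq_mul]
      ring
    rw [h2]
    refine U.sub_mem ?_ (hu.2 _ (hstab D1 D2 hD1 v hv))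
    have := hu.2 v hv
    rw [hU] at this ⊢
    exact U_der hD1 this
  have hIspan := descentU bc I (fun u hu => by
    have := hu.1
    rwa [hU] at this) hIstab
  -- there is a nonzero denominator
  obtain ⟨b, hb0, hbI⟩ : ∃ b : E, b ≠ 0 ∧ b ∈ I := by
    obtain ⟨S, hS⟩ := (Module.Finite.iff_fg.1 hVfin : V.FG)
    have hgen : ∀ s : E, ∃ b ∈ U, b ≠ 0 ∧ b * s ∈ U := by
      intro s
      obtain ⟨a, ha, b, hb, hb0, hab⟩ := bc.gen s
      rw [← hU] at ha hb
      refine ⟨b, hb, hb0, ?_⟩
      rw [hab, mul_div_cancel₀ _ hb0]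
      exact ha
    choose d hd1 hd2 hd3 using hgen
    have hone : (1 : E) ∈ U := by
      rw [hU]
      exact Submodule.subset_span ⟨1, map_one _⟩
    have hmulU : ∀ a ∈ U, ∀ b ∈ U, a * b ∈ U := by
      intro a ha b hb
      rw [hU] at ha hb ⊢
      exact U_mul ha hb
    have hprod : ∀ T : Finset E, ∏ s ∈ T, d s ∈ U := by
      intro T
      induction T using Finset.induction_on with
      | empty => rw [Finset.prod_empty]; exact hone
      | insert a T ha ih =>
        rw [Finset.prod_insert ha]
        exact hmulU _ (hd1 a) _ ih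
    refine ⟨∏ s ∈ S, d s, Finset.prod_ne_zero_iff.2 fun s _ => hd2 s, hprod S, fun v hv => ?_⟩
    rw [← hS] at hv
    induction hv using Submodule.span_induction with
    | mem v hv =>
      rw [← Finset.prod_erase_mul S d hv, mul_assoc]
      exact hmulU _ (hprod _) _ (hd3 v)
    | zero => rw [mul_zero]; exact U.zero_mem
    | add a b _ _ ha hb => rw [mul_add]; exact U.add_mem ha hb
    | smul c a _ ha => rw [mul_smul_comm]; exact U.smul_mem _ ha
  obtain ⟨l, hl0, hlI⟩ : ∃ l : L, l ≠ 0 ∧ algebraMap L E l ∈ I := by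
    by_contra hcon
    push Not at hcon
    have h1 : Submodule.span Ω {f | ∃ l, algebraMap L E l = f ∧ f ∈ I} ≤ ⊥ := by
      rw [Submodule.span_le]
      rintro _ ⟨l, rfl, hl⟩
      by_cases hl0 : l = 0
      · rw [hl0, map_zero]
        exact Submodule.zero_mem _
      · exact absurd hl (hcon l hl0)
    exact hb0 ((Submodule.mem_bot Ω).1 (h1 (hIspan hbI)))
  have hVU : V ≤ U := by
    intro v hv
    have h1 := hlI.2 v hv
    have hlE : algebraMap L E l ≠ 0 := (_root_.map_ne_zero _).2 hl0
    have h2 : v = algebraMap L E l⁻¹ * (algebraMap L E l * v) := by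
      rw [map_inv₀, inv_mul_cancel_left₀ hlE]
    rw [h2]
    rw [hU] at h1 ⊢
    exact U_mul (Submodule.subset_span ⟨_, rfl⟩) h1
  exact descentU bc V (by rwa [hU] at hVU) hstab

/-- **Descent of Riemann-Roch spaces.** -/
theorem descent_LL (bc : BC k L Ω E) (Z : Place Ω E →₀ ℤ)
    (hZ : ∀ P, Z P ≠ 0 → ∃ l : L, P.ord (algebraMap L E l) ≠ 0) :
    LL Z ≤ Submodule.span Ω {f | ∃ l, algebraMap L E l = f ∧ f ∈ LL Z} := by
  classical
  refine descent_stable bc (LL Z) (finDim_LL _) fun D1 D2 hD1 f hf => ?_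
  rw [mem_LL] at hf ⊢
  rcases hf with hf | hf
  · left
    rw [hf, map_zero]
  · by_cases h0 : D1 f = 0
    · exact Or.inl h0
    right
    intro P
    by_cases hP : ∃ l : L, P.ord (algebraMap L E l) ≠ 0
    · exact (hf P).trans (Pool.Agent.W215.RG.RGC.main k L Ω E bc D1 D2 hD1 P hP f h0)
    · have hZP : Z P = 0 := by
        by_contra h
        exact hP (hZ P h)
      push Not at hP
      have h2 := hf P
      rw [hZP, neg_zero] at h2 ⊢
      rcases Pool.Agent.W440.RG.RGM.main k L Ω E bc D1 D2 hD1 P hP with h3 | h3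
      · exact h2.trans (h3 f h0)
      · exact h3.2.1 f h2 h0

/-- the genus does not increase -/
theorem genus_bc (bc : BC k L Ω E) {D0 : Derivation k L L} (hD0 : D0 ≠ 0) {D : Derivation Ω E E}
    (hDne : D ≠ 0) (hD : ∀ l, D (algebraMap L E l) = algebraMap L E (D0 l)) :
    Module.finrank Ω (RR D hDne) ≤ Module.finrank k (RR D0 hD0) := by
  classical
  have _ := bc.towerL
  have _ := bc.towerO
  have hfin : Module.Finite k (RR D0 hD0) := finDim_LL _
  let b := Module.finBasis k (RR D0 hD0)
  have h1 : RR D hDne ≤ Submodule.span Ω (Set.range fun i => algebraMap L E (b i : L)) := by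
    intro f hf
    rw [mem_RR] at hf
    rcases hf with hf | hf
    · rw [hf]
      exact Submodule.zero_mem _
    · refine Submodule.span_le.2 ?_ (reg_bc bc hD0 hDne hD hf)
      rintro _ ⟨l, rfl, hl⟩
      have hl' : l ∈ RR D0 hD0 := mem_RR.2 hl
      have h2 := congrArg (RR D0 hD0).subtype (b.sum_repr ⟨l, hl'⟩)
      rw [map_sum] at h2
      simp only [map_smul, Submodule.subtype_apply] at h2
      rw [← h2, map_sum]
      refine Submodule.sum_mem _ fun i _ => ?_
      rw [Algebra.smul_def, map_mul, ← IsScalarTower.algebraMap_apply k L E,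
        IsScalarTower.algebraMap_apply k Ω E, ← Algebra.smul_def]
      exact Submodule.smul_mem _ _ (Submodule.subset_span ⟨i, rfl⟩)
  have hf : Module.Finite Ω (Submodule.span Ω (Set.range fun i => algebraMap L E (b i : L))) :=
    Module.Finite.span_of_finite Ω (Set.finite_range _)
  have h2 := Submodule.finrank_mono h1
  refine h2.trans ?_
  have h3 := finrank_range_le_card (R := Ω) (fun i => algebraMap L E (b i : L))
  rw [Fintype.card_fin] at h3
  exact h3

end

end Pool.Agent.H908.SA
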