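import Pool.Agent.H908.SA3
import Pool.Graph.R_pool_sql_team_seeded_1e53cb71.Helper11K9.PC.Fib

/-!
A pencil on a curve over a large field, which has simple poles at a set of generic points.
-/

set_option autoImplicit false
set_option linter.overlappingInstances false
set_option linter.unusedSectionVars false

open FF IntermediateField

namespace Pool.Agent.H908.SA

open Pool.Agent.W603.LV Pool.Agent.W602.RG Pool.Agent.Helper11K9.PC Pool.Agent.Helper11K9.OD

section

variable {k L Ω E : Type} [Field k] [Field L] [Field Ω] [Field E] [Algebra k L]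
    [Algebra k Ω] [Algebra k E] [Algebra L E] [Algebra Ω E]
variable [IsAlgClosed k] [CharZero k] [IsFF k L] [IsAlgClosed Ω] [CharZero Ω] [IsFF Ω E]

/-- a space of dimension at most one which contains `1` -/
theorem const_of_finrank {V : Submodule Ω E} [FiniteDimensional Ω V] (h1 : (1 : E) ∈ V)
    (hV : Module.finrank Ω V ≤ 1) {g : E} (hg : g ∈ V) : ∃ a : Ω, g = algebraMap Ω E a := by
  have h2 : Submodule.span Ω {(1 : E)} ≤ V := by
    rw [Submodule.span_singleton_le_iff_mem]
    exact h1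
  have h3 : Submodule.span Ω {(1 : E)} = V := by
    refine Submodule.eq_of_le_of_finrank_le h2 ?_
    rw [finrank_span_singleton one_ne_zero]
    exact hV
  rw [← h3, Submodule.mem_span_singleton] at hg
  obtain ⟨a, ha⟩ := hg
  exact ⟨a, by rw [← ha, Algebra.smul_def, mul_one]⟩

theorem exists_nonconst {V : Submodule Ω E} (hV : 2 ≤ Module.finrank Ω V) :
    ∃ h ∈ V, ∀ a : Ω, h ≠ algebraMap Ω E a := by
  by_contra hcon
  push Not at hcon
  have h1 : V ≤ Submodule.span Ω {(1 : E)} := by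
    intro h hh
    obtain ⟨a, ha⟩ := hcon h hh
    rw [Submodule.mem_span_singleton]
    exact ⟨a, by rw [ha, Algebra.smul_def, mul_one]⟩
  have hf : Module.Finite Ω (Submodule.span Ω {(1 : E)}) :=
    Module.Finite.span_of_finite Ω (Set.finite_singleton _)
  have h2 := Submodule.finrank_mono h1
  rw [finrank_span_singleton one_ne_zero] at h2
  omega

theorem transc_of_nonconst {h : E} (hh : ∀ a : Ω, h ≠ algebraMap Ω E a) : Transcendental Ω h := by
  intro h1
  obtain ⟨c, hc⟩ := alg_const h1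
  exact hh c hc.symm

/-- **A minimal pencil.** -/
theorem exists_pencil (bc : BC k L Ω E) {D0 : Derivation k L L} (hD0 : D0 ≠ 0) {ι : Type}
    [Fintype ι] (x : ι → (L →ₐ[k] Ω)) (hx : Function.Injective x) (P : ι → Place Ω E)
    (hP : ∀ i, Ats (P i) (x i)) (hg : Module.finrank k (RR D0 hD0) < Fintype.card ι) :
    ∃ (S : Finset ι) (h : E), (∀ a : Ω, h ≠ algebraMap Ω E a) ∧ (∀ i ∈ S, (P i).ord h = -1) ∧
      (∀ Q : Place Ω E, Q.ord h < 0 → ∃ i ∈ S, Q = P i) ∧
      ∀ g : E, (∀ Q : Place Ω E, (∀ i ∈ S, Q ≠ P i) → Ge Q 0 g) → (∀ i ∈ S, Ge (P i) (-1) g) →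
        ∃ a b : Ω, g = algebraMap Ω E a + algebraMap Ω E b * h := by
  classical
  have hPinj : Function.Injective P := by
    intro i j hij
    apply hx
    exact (hP i).unique (by rw [hij]; exact hP j)
  let V : Finset ι → Submodule Ω E := fun S => LLS (k := Ω) (S.image P)
  have hVmem : ∀ (S : Finset ι) (g : E), g ∈ V S ↔
      ((∀ Q : Place Ω E, (∀ i ∈ S, Q ≠ P i) → Ge Q 0 g) ∧ (∀ i ∈ S, Ge (P i) (-1) g)) := by
    intro S g
    change g ∈ LLS (k := Ω) (S.image P) ↔ _
    rw [mem_LLS]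
    constructor
    · intro h
      refine ⟨fun Q hQ => ?_, fun i hi => ?_⟩
      · have h1 := h Q
        rw [ES_not_mem (by
          rw [Finset.mem_image]
          rintro ⟨i, hi, hi'⟩
          exact hQ i hi hi'.symm)] at h1
        simpa using h1
      · have h1 := h (P i)
        rwa [ES_mem (Finset.mem_image_of_mem P hi)] at h1
    · rintro ⟨h1, h2⟩ Q
      by_cases hQ : Q ∈ S.image P
      · obtain ⟨i, hi, rfl⟩ := Finset.mem_image.1 hQ
        rw [ES_mem hQ]
        exact h2 i hi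
      · rw [ES_not_mem hQ]
        have h3 := h1 Q (fun i hi h => hQ (by rw [h]; exact Finset.mem_image_of_mem P hi))
        simpa using h3
  have hcard : ∀ S : Finset ι, (S.image P).card = S.card := fun S =>
    Finset.card_image_of_injective S hPinj
  have huniv : 2 ≤ Module.finrank Ω (V Finset.univ) := by
    obtain ⟨D, hDne, hD⟩ := exists_der_ext bc hD0
    have h1 := genus_bc bc hD0 hDne hD
    have hne : (Finset.univ.image P).Nonempty := by
      rw [← Finset.card_pos, hcard, Finset.card_univ]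
      omega
    have h2 := rr_ineq (D := D) (hD := hDne) (Finset.univ.image P) hne
    rw [hcard, Finset.card_univ] at h2
    change 2 ≤ Module.finrank Ω (LLS (k := Ω) (Finset.univ.image P))
    omega
  obtain ⟨S, hS, hmin⟩ := Finset.exists_min_image
    (Finset.univ.filter fun S : Finset ι => 2 ≤ Module.finrank Ω (V S)) Finset.card
    ⟨Finset.univ, by rw [Finset.mem_filter]; exact ⟨Finset.mem_univ _, huniv⟩⟩
  rw [Finset.mem_filter] at hS
  have hless : ∀ i ∈ S, ∀ g ∈ V (S.erase i), ∃ a : Ω, g = algebraMap Ω E a := by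
    intro i hi g hg
    have h1 : ¬ 2 ≤ Module.finrank Ω (V (S.erase i)) := by
      intro h
      have h2 := hmin (S.erase i) (by rw [Finset.mem_filter]; exact ⟨Finset.mem_univ _, h⟩)
      have h3 := Finset.card_erase_lt_of_mem hi
      omega
    have hf : FiniteDimensional Ω (V (S.erase i)) := LLS_fin _
    exact const_of_finrank (V := V (S.erase i)) (one_mem_LLS _) (by omega) hg
  obtain ⟨h, hhV, hh⟩ := exists_nonconst hS.2
  have hh0 : h ≠ 0 := fun h0 => hh 0 (by rw [h0, map_zero])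
  have hhS := (hVmem S h).1 hhV
  -- removing a pole
  have hrem : ∀ (i : ι) (g : E), i ∈ S → g ∈ V S → Ge (P i) 0 g → ∃ a : Ω, g = algebraMap Ω E a := by
    intro i g hi hg hgi
    refine hless i hi g ?_
    rw [hVmem] at hg ⊢
    refine ⟨fun Q hQ => ?_, fun j hj => hg.2 j (Finset.mem_of_mem_erase hj)⟩
    by_cases hQi : Q = P i
    · rw [hQi]; exact hgi
    · refine hg.1 Q fun j hj => ?_
      by_cases hji : j = i
      · rw [hji]; exact hQi
      · exact hQ j (Finset.mem_erase.2 ⟨hji, hj⟩)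
  have hord : ∀ i ∈ S, (P i).ord h = -1 := by
    intro i hi
    have h1 := (hhS.2 i hi).resolve_left hh0
    by_contra hne
    obtain ⟨a, ha⟩ := hrem i h hi hhV (Or.inr (by omega))
    exact hh a ha
  have hpol : ∀ Q : Place Ω E, Q.ord h < 0 → ∃ i ∈ S, Q = P i := by
    intro Q hQ
    by_contra hcon
    push Not at hcon
    have h1 := (hhS.1 Q hcon).resolve_left hh0
    omega
  refine ⟨S, h, hh, hord, hpol, fun g hg1 hg2 => ?_⟩
  have hgV : g ∈ V S := (hVmem S g).2 ⟨hg1, hg2⟩
  have hSne : S.Nonempty := by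
    by_contra hcon
    rw [Finset.not_nonempty_iff_eq_empty] at hcon
    obtain ⟨Z, hZ, hZ2⟩ := poles (k := Ω) (K := E) (transc_of_nonconst hh)
    have hfin := IsFF.finite (transc_of_nonconst hh)
    have h3 : Z = ∅ := by
      rw [Finset.eq_empty_iff_forall_notMem]
      intro Q hQ
      obtain ⟨i, hi, -⟩ := hpol Q ((hZ Q).1 hQ)
      rw [hcon] at hi
      exact absurd hi (Finset.notMem_empty i)
    rw [h3, Finset.sum_empty] at hZ2
    exact Module.finrank_pos.ne hZ2
  obtain ⟨i, hi⟩ := hSne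
  have h1 : Ge (P i) 0 (g / h) := by
    by_cases hg0 : g = 0
    · left; rw [hg0, zero_div]
    · right
      rw [(P i).ord_div hg0 hh0, hord i hi]
      have := (hg2 i hi).resolve_left hg0
      omega
  obtain ⟨c, hc⟩ := exists_const (P i) h1
  have h2 : Ge (P i) 0 (g - algebraMap Ω E c * h) := by
    have h3 : Ge (P i) (-1) h := Or.inr (hord i hi).ge
    have h4 := hc.mul h3
    have h5 : (g / h - algebraMap Ω E c) * h = g - algebraMap Ω E c * h := by
      field_simp
    rw [h5] at h4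
    simpa using h4
  have h3 : g - algebraMap Ω E c * h ∈ V S := by
    refine (V S).sub_mem hgV ?_
    rw [← Algebra.smul_def]
    exact (V S).smul_mem c hhV
  obtain ⟨a, ha⟩ := hrem i _ hi h3 h2
  exact ⟨a, c, by rw [← ha]; ring⟩

/-- **A minimal pencil, normalised**: one of the zeros is a constant point. -/
theorem exists_pencil' (bc : BC k L Ω E) {D0 : Derivation k L L} (hD0 : D0 ≠ 0) {ι : Type}
    [Fintype ι] (x : ι → (L →ₐ[k] Ω)) (hx : Function.Injective x) (P : ι → Place Ω E)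
    (hP : ∀ i, Ats (P i) (x i)) (hg : Module.finrank k (RR D0 hD0) < Fintype.card ι) :
    ∃ (S : Finset ι) (h : E), (∀ a : Ω, h ≠ algebraMap Ω E a) ∧ (∀ i ∈ S, (P i).ord h = -1) ∧
      (∀ Q : Place Ω E, Q.ord h < 0 → ∃ i ∈ S, Q = P i) ∧
      (∀ g : E, (∀ Q : Place Ω E, (∀ i ∈ S, Q ≠ P i) → Ge Q 0 g) → (∀ i ∈ S, Ge (P i) (-1) g) →
        ∃ a b : Ω, g = algebraMap Ω E a + algebraMap Ω E b * h) ∧
      ∃ (r : ℕ) (z : Fin r → (L →ₐ[k] Ω)), r + 1 ≤ S.card ∧ ∀ Q : Place Ω E, 0 < Q.ord h →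
        (∃ l : L, Q.ord (algebraMap L E l) ≠ 0) ∨ ∃ j, Ats Q (z j) := by
  classical
  have _ := bc.towerL
  have _ := bc.towerO
  have hPinj : Function.Injective P := by
    intro i j hij
    apply hx
    exact (hP i).unique (by rw [hij]; exact hP j)
  obtain ⟨S, h, hh, hord, hpol, hsp⟩ := exists_pencil bc hD0 x hx P hP hg
  -- a constant point
  obtain ⟨u, hu⟩ := IsFF.exists_transcendental (k := k) (K := L)
  obtain ⟨Z0, hZ0, hZ02⟩ := poles (k := k) (K := L) hu
  have hfin0 := IsFF.finite hu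
  have hZ0ne : Z0.Nonempty := by
    by_contra hcon
    rw [Finset.not_nonempty_iff_eq_empty] at hcon
    rw [hcon, Finset.sum_empty] at hZ02
    exact Module.finrank_pos.ne hZ02
  obtain ⟨p0, hp0⟩ := hZ0ne
  rw [hZ0] at hp0
  obtain ⟨P0, e0, he0, hPe0⟩ := exists_place_over bc p0
  have hP0u : P0.ord (algebraMap L E u) ≠ 0 := by
    rw [hPe0]
    have h1 : (0 : ℤ) < e0 := by exact_mod_cast he0
    have h2 : (e0 : ℤ) * p0.ord u < 0 := mul_neg_of_pos_of_neg h1 hp0
    exact h2.ne
  have hP0h : Ge P0 0 h := by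
    by_contra hcon
    have h1 : P0.ord h < 0 := by
      by_contra h2
      exact hcon (Or.inr (not_lt.1 h2))
    obtain ⟨i, hi, hPi⟩ := hpol P0 h1
    apply hP0u
    rw [hPi]
    exact (hP i).ord u
  obtain ⟨c, hc⟩ := exists_const P0 hP0h
  obtain ⟨g, hg'⟩ : ∃ g : E, g = h - algebraMap Ω E c := ⟨_, rfl⟩
  have hgc : ∀ a : Ω, g ≠ algebraMap Ω E a := by
    intro a ha
    refine hh (a + c) ?_
    rw [map_add, ← ha, hg']
    ring
  have hg0 : g ≠ 0 := fun h0 => hgc 0 (by rw [h0, map_zero])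
  have hh0 : h ≠ 0 := fun h0 => hh 0 (by rw [h0, map_zero])
  have hgh : ∀ Q : Place Ω E, Q.ord h < 0 → Q.ord g = Q.ord h := by
    intro Q hQ
    by_cases hc0 : c = 0
    · rw [hg', hc0, map_zero, sub_zero]
    · have h1 : -algebraMap Ω E c ≠ 0 := neg_ne_zero.2 ((_root_.map_ne_zero _).2 hc0)
      have h2 := Q.ord_add_eq (f := h) (g := -algebraMap Ω E c) hh0 h1 (by
        rw [Q.ord_neg, Q.ord_const hc0]; exact hQ)
      rw [hg', sub_eq_add_neg]
      exact h2.2
  have hhg : ∀ Q : Place Ω E, Q.ord g < 0 → Q.ord h < 0 := by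
    intro Q hQ
    by_contra hcon
    have h1 : Ge Q 0 h := Or.inr (not_lt.1 hcon)
    have h2 : Ge Q 0 g := by
      rw [hg']
      exact h1.sub (Ge.const c)
    have := h2.resolve_left hg0
    omega
  refine ⟨S, g, hgc, fun i hi => ?_, fun Q hQ => hpol Q (hhg Q hQ), fun f hf1 hf2 => ?_, ?_⟩
  · rw [hgh _ (by rw [hord i hi]; omega), hord i hi]
  · obtain ⟨a, b, hab⟩ := hsp f hf1 hf2
    refine ⟨a + b * c, b, ?_⟩
    rw [hab, hg', map_add, map_mul]
    ring
  -- the zeros
  have hgt := transc_of_nonconst hgc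
  obtain ⟨Z, hZ, hZ1, hZ2⟩ := zeros (k := Ω) (K := E) hgt
  obtain ⟨Y, hY, hY2⟩ := poles (k := Ω) (K := E) hgt
  have hYS : Y = S.image P := by
    ext Q
    rw [hY, Finset.mem_image]
    constructor
    · intro hQ
      obtain ⟨i, hi, hQi⟩ := hpol Q (hhg Q hQ)
      exact ⟨i, hi, hQi.symm⟩
    · rintro ⟨i, hi, rfl⟩
      rw [hgh _ (by rw [hord i hi]; omega), hord i hi]
      omega
  have hYc : ∑ w ∈ Y, (- w.ord g).toNat * w.deg = S.card := by
    rw [hYS, Finset.sum_image (fun i _ j _ hij => hPinj hij)]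
    have h1 : ∀ i ∈ S, (-(P i).ord g).toNat * (P i).deg = 1 := by
      intro i hi
      rw [hgh _ (by rw [hord i hi]; omega), hord i hi, Pool.Agent.W603.LV.deg_one]
      rfl
    rw [Finset.sum_congr rfl h1, Finset.sum_const, smul_eq_mul, mul_one]
  have hZc : Z.card ≤ S.card := by
    rw [← hYc, hY2, ← hZ2, Finset.card_eq_sum_ones]
    refine Finset.sum_le_sum fun w hw => ?_
    have h1 := (hZ w).1 hw
    have h2 : 1 ≤ (w.ord g).toNat := by omega
    exact Nat.mul_le_mul h2 (hZ1 w hw)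
  let T : Finset (Place Ω E) := Z.filter fun Q => ∀ l : L, Q.ord (algebraMap L E l) = 0
  have hP0Z : P0 ∈ Z := by
    rw [hZ]
    have := hc.resolve_left (by rw [← hg']; exact hg0)
    rw [hg']
    omega
  have hTc : T.card + 1 ≤ S.card := by
    have h1 : T ⊆ Z.erase P0 := by
      intro Q hQ
      rw [Finset.mem_filter] at hQ
      rw [Finset.mem_erase]
      refine ⟨?_, hQ.1⟩
      rintro rfl
      exact hP0u (hQ.2 u)
    have h2 := Finset.card_le_card h1
    have h3 := Finset.card_erase_lt_of_mem hP0Z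
    omega
  have hT : ∀ Q : T, ∃ y : L →ₐ[k] Ω, Ats (Q : Place Ω E) y := by
    rintro ⟨Q, hQ⟩
    rw [Finset.mem_filter] at hQ
    exact emb_at bc Q hQ.2
  choose y hy using hT
  refine ⟨T.card, fun j => y (T.equivFin.symm j), hTc, fun Q hQ => ?_⟩
  by_cases hQL : ∃ l : L, Q.ord (algebraMap L E l) ≠ 0
  · exact Or.inl hQL
  · right
    push Not at hQL
    have hQT : Q ∈ T := by
      rw [Finset.mem_filter, hZ]
      exact ⟨hQ, hQL⟩
    refine ⟨T.equivFin ⟨Q, hQT⟩, ?_⟩
    beta_reduce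
    rw [Equiv.symm_apply_apply]
    exact hy ⟨Q, hQT⟩

end

end Pool.Agent.H908.SA
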