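import Pool.Agent.H908.SA4

/-!
The pencil is defined over a small field.
-/

set_option autoImplicit false
set_option linter.overlappingInstances false
set_option linter.unusedSectionVars false

open FF IntermediateField

namespace Pool.Agent.H908.SA

open Pool.Agent.W603.LV Pool.Agent.W602.RG Pool.Agent.Helper11K9.PC Pool.Agent.Helper11K9.OD

/-- fields generated by a function field of a curve over a field of constants -/
theorem isFF_of_gen {k F Ω E : Type} [Field k] [Field F] [Algebra k F]
    [IsFF k F] [Field Ω] [CharZero Ω] [Algebra k Ω] [Field E] [Algebra k E] [Algebra F E]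
    [Algebra Ω E] [IsScalarTower k F E] [IsScalarTower k Ω E] {x : F}
    (hxE : Transcendental Ω (algebraMap F E x))
    (hgen : IntermediateField.adjoin Ω (Set.range (algebraMap F E)) = ⊤) : IsFF Ω E := by
  classical
  have hx : Transcendental k x := by
    intro h
    apply hxE
    have h1 : IsAlgebraic k (algebraMap F E x) := h.algebraMap
    exact h1.tower_top Ω
  have halg : Algebra.IsAlgebraic k⟮x⟯ F := IsFF.isAlgebraic hx
  have hessF : Algebra.EssFiniteType k F := IsFF.ess
  obtain ⟨s, hs⟩ := IntermediateField.fg_top k F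
  have hess : Algebra.EssFiniteType Ω E := by
    have hfg : (⊤ : IntermediateField Ω E).FG := by
      refine ⟨s.image (algebraMap F E), ?_⟩
      rw [Finset.coe_image, ← hgen]
      apply le_antisymm
      · exact IntermediateField.adjoin.mono _ _ _ (Set.image_subset_range _ _)
      · rw [IntermediateField.adjoin_le_iff]
        rintro _ ⟨f, rfl⟩
        have h1 : (⊤ : IntermediateField k F) ≤
            ((IntermediateField.adjoin Ω (algebraMap F E '' s)).restrictScalars k).comap
              (IsScalarTower.toAlgHom k F E) := by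
          rw [← hs, IntermediateField.adjoin_le_iff]
          intro f hf
          exact IntermediateField.subset_adjoin Ω (algebraMap F E '' s) ⟨f, hf, rfl⟩
        exact h1 (x := f) trivial
    have h2 := IntermediateField.essFiniteType_iff.2 hfg
    exact (Algebra.EssFiniteType.iff_of_algEquiv (IntermediateField.topEquiv (F := Ω) (E := E))).1 h2
  obtain ⟨tE, htE⟩ : ∃ tE : E, tE = algebraMap F E x := ⟨_, rfl⟩
  rw [← htE] at hxE
  refine IsFF.of_finite hxE ?_
  have hmem : ∀ y : k⟮x⟯, algebraMap F E y ∈ Ω⟮tE⟯ := by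
    have h1 : k⟮x⟯ ≤ (Ω⟮tE⟯.restrictScalars k).comap (IsScalarTower.toAlgHom k F E) := by
      rw [IntermediateField.adjoin_simple_le_iff]
      change algebraMap F E x ∈ Ω⟮tE⟯
      rw [← htE]
      exact mem_adjoin_simple_self Ω tE
    exact fun y => h1 y.2
  let i1 : Algebra k⟮x⟯ Ω⟮tE⟯ :=
    (((algebraMap F E).comp (algebraMap k⟮x⟯ F)).codRestrict Ω⟮tE⟯.toSubring hmem).toAlgebra
  have t2 : IsScalarTower k⟮x⟯ Ω⟮tE⟯ E := IsScalarTower.of_algebraMap_eq fun _ => rfl
  have halgE : Algebra.IsAlgebraic Ω⟮tE⟯ E := by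
    have h1 : (IntermediateField.adjoin Ω (Set.range (algebraMap F E))) ≤
        (algebraicClosure Ω⟮tE⟯ E).restrictScalars Ω := by
      rw [IntermediateField.adjoin_le_iff]
      rintro _ ⟨f, rfl⟩
      change algebraMap F E f ∈ algebraicClosure Ω⟮tE⟯ E
      rw [mem_algebraicClosure_iff]
      have h2 : IsAlgebraic k⟮x⟯ (algebraMap F E f) := (halg.isAlgebraic f).algebraMap
      exact h2.tower_top Ω⟮tE⟯
    refine ⟨fun z => ?_⟩
    rw [hgen] at h1
    exact (mem_algebraicClosure_iff).1 (h1 (x := z) trivial)
  have h3 : Algebra.EssFiniteType Ω⟮tE⟯ E := Algebra.EssFiniteType.of_comp Ω Ω⟮tE⟯ E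
  obtain ⟨s', hs'⟩ := IntermediateField.fg_top Ω⟮tE⟯ E
  have h5 : FiniteDimensional Ω⟮tE⟯ (IntermediateField.adjoin Ω⟮tE⟯ (s' : Set E)) :=
    IntermediateField.finiteDimensional_adjoin
      (fun x _ => (halgE.isAlgebraic x).isIntegral)
  rw [hs'] at h5
  exact IntermediateField.topEquiv.toLinearEquiv.finiteDimensional

section

variable {k L Ω E M : Type} [Field k] [Field L] [Field Ω] [Field E] [Field M] [Algebra k L]
    [Algebra k Ω] [Algebra k E] [Algebra L E] [Algebra Ω E] [Algebra k M] [Algebra M Ω]
    [Algebra M E] [IsScalarTower k M Ω] [IsScalarTower k M E] [IsScalarTower M Ω E]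
variable [IsAlgClosed k] [CharZero k] [IsFF k L] [IsAlgClosed Ω] [CharZero Ω] [IsFF Ω E]
variable [IsAlgClosed M] [CharZero M]

/-- the curve over `M` -/
theorem bc_M (bc : BC k L Ω E)
    (hgen : IntermediateField.adjoin Ω (Set.range (algebraMap L E)) = ⊤) :
    IsFF M (IntermediateField.adjoin M (Set.range (algebraMap L E))) ∧
      BC M (IntermediateField.adjoin M (Set.range (algebraMap L E))) Ω E := by
  classical
  have _ := bc.towerL
  have _ := bc.towerO
  obtain ⟨u, hu⟩ := IsFF.exists_transcendental (k := k) (K := L)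
  have huE := bc_transc bc hu
  have huM : Transcendental M (algebraMap L E u) := fun h => huE (h.tower_top Ω)
  obtain ⟨N, hN⟩ : ∃ N : IntermediateField M E,
    N = IntermediateField.adjoin M (Set.range (algebraMap L E)) := ⟨_, rfl⟩
  rw [← hN]
  have hLN : ∀ f, algebraMap L E f ∈ N := fun f => by
    rw [hN]
    exact IntermediateField.subset_adjoin _ _ ⟨f, rfl⟩
  let iL : Algebra L N := ((algebraMap L E).codRestrict N.toSubring hLN).toAlgebra
  have tL : IsScalarTower k L N := IsScalarTower.of_algebraMap_eq fun c => by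
    apply Subtype.ext
    change algebraMap k E c = algebraMap L E (algebraMap k L c)
    rw [← IsScalarTower.algebraMap_apply k L E]
  have hff : IsFF M N := by
    refine isFF_of_gen (k := k) (F := L) (x := u) ?_ ?_
    · intro h
      exact huM (h.algebraMap (A := E))
    · rw [eq_top_iff]
      rintro ⟨z, hz⟩ -
      have h1 : (IntermediateField.adjoin M (Set.range (algebraMap L N))).map N.val = N := by
        rw [IntermediateField.adjoin_map]
        have h2 : N.val '' Set.range (algebraMap L N) = Set.range (algebraMap L E) := by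
          ext y
          constructor
          · rintro ⟨_, ⟨f, rfl⟩, rfl⟩
            exact ⟨f, rfl⟩
          · rintro ⟨f, rfl⟩
            exact ⟨algebraMap L N f, ⟨f, rfl⟩, rfl⟩
        rw [h2, hN]
      have h2 : z ∈ (IntermediateField.adjoin M (Set.range (algebraMap L N))).map N.val := by
        rw [h1]
        exact hz
      obtain ⟨y, hy, hyz⟩ := h2
      have h3 : y = ⟨z, hz⟩ := Subtype.ext hyz
      rwa [← h3]
  refine ⟨hff, ?_⟩
  refine bc_mk (x := algebraMap L N u) huE ?_
  rw [eq_top_iff, ← hgen]
  refine IntermediateField.adjoin.mono _ _ _ ?_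
  rintro _ ⟨f, rfl⟩
  exact ⟨algebraMap L N f, rfl⟩

end

end Pool.Agent.H908.SA
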