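import Pool.Agent.H908.SA5

/-!
The pencil is defined over a small field: the conjugates of its members.
-/

set_option autoImplicit false
set_option linter.overlappingInstances false
set_option linter.unusedSectionVars false

open FF IntermediateField

namespace Pool.Agent.H908.SA

open Pool.Agent.W603.LV Pool.Agent.W602.RG Pool.Agent.Helper11K9.PC Pool.Agent.Helper11K9.OD

section

variable {k L Ω E : Type} [Field k] [Field L] [Field Ω] [Field E] [Algebra k L]
    [Algebra k Ω] [Algebra k E] [Algebra L E] [Algebra Ω E]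
variable [IsAlgClosed k] [CharZero k] [IsFF k L] [IsAlgClosed Ω] [CharZero Ω] [IsFF Ω E]

/-- the value of a function from below at a place which is not trivial -/
theorem const_below (bc : BC k L Ω E) {P : Place Ω E} (hP : ∃ l : L, P.ord (algebraMap L E l) ≠ 0)
    {f : L} (hf : Ge P 0 (algebraMap L E f)) :
    ∃ c : k, Ge P 1 (algebraMap L E f - algebraMap Ω E (algebraMap k Ω c)) := by
  have _ := bc.towerL
  have _ := bc.towerO
  obtain ⟨p, e, he, hpe⟩ := restr' (k := k) (L := L) P hP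
  have h1 : Ge p 0 f := by
    rcases hf with h | h
    · exact Or.inl ((_root_.map_eq_zero _).1 h)
    · right
      rw [hpe] at h
      have : (0 : ℤ) < e := by exact_mod_cast he
      by_contra hcon
      push Not at hcon
      have := mul_neg_of_pos_of_neg this hcon
      omega
  obtain ⟨c, hc⟩ := exists_const p h1
  refine ⟨c, ?_⟩
  rw [← IsScalarTower.algebraMap_apply k Ω E, IsScalarTower.algebraMap_apply k L E, ← map_sub]
  rcases hc with h | h
  · left
    rw [h, map_zero]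
  · right
    rw [hpe]
    have : (1 : ℤ) ≤ e := by exact_mod_cast he
    nlinarith

/-- **The pencil is defined over a small field.** The function `h` is the pencil; the generic points
among its zeros are defined over `k`, and some of the points `x i`, `i ∈ S`, is not. -/
theorem pencil_core (bc : BC k L Ω E) {ι : Type} (P : ι → Place Ω E) (S : Finset ι)
    (hSne : S.Nonempty) {h : E}
    (hh : ∀ a : Ω, h ≠ algebraMap Ω E a) (hord : ∀ i ∈ S, (P i).ord h = -1)
    (hpol : ∀ Q : Place Ω E, Q.ord h < 0 → ∃ i ∈ S, Q = P i)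
    (hsp : ∀ g : E, (∀ Q : Place Ω E, (∀ i ∈ S, Q ≠ P i) → Ge Q 0 g) →
      (∀ i ∈ S, Ge (P i) (-1) g) → ∃ a b : Ω, g = algebraMap Ω E a + algebraMap Ω E b * h)
    (hz : ∀ Q : Place Ω E, 0 < Q.ord h → ∃ l : L, Q.ord (algebraMap L E l) ≠ 0)
    (hxM : ∃ i ∈ S, ∃ f : L, Ge (P i) 0 (algebraMap L E f) ∧
      ∀ m : k, ¬ Ge (P i) 1 (algebraMap L E f - algebraMap Ω E (algebraMap k Ω m))) :
    ∃ t0 : Ω, Transcendental k t0 ∧ ∀ i ∈ S, ∃ ρ : L →ₐ[k] Ω, Ats (P i) ρ ∧
      (∀ f, IsAlgebraic k⟮t0⟯ (ρ f)) ∧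
      ∀ τ : Ω ≃ₐ[k] Ω, τ t0 = t0 → ∃ j ∈ S, Ats (P j) ((τ : Ω →ₐ[k] Ω).comp ρ) := by
  classical
  have _ := bc.towerL
  have _ := bc.towerO
  have hh0 : h ≠ 0 := fun h0 => hh 0 (by rw [h0, map_zero])
  obtain ⟨Z0, hZ0, hZ1, hZ2⟩ := zeros (k := Ω) (K := E) (transc_of_nonconst hh)
  let Z : Place Ω E →₀ ℤ := Finsupp.onFinset Z0 (fun Q => max 0 (Q.ord h)) (by
    intro Q hQ
    rw [hZ0]
    by_contra hcon
    exact hQ (max_eq_left (not_lt.1 hcon)))
  have hZa : ∀ Q, Z Q = max 0 (Q.ord h) := fun Q => rfl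
  -- the space
  have hspan : ∀ g ∈ LL Z, ∃ a b : Ω, g = algebraMap Ω E a + algebraMap Ω E b * h⁻¹ := by
    intro g hg
    rw [mem_LL] at hg
    by_cases hg0 : g = 0
    · exact ⟨0, 0, by rw [hg0, map_zero, zero_mul, add_zero]⟩
    have hg' := hg.resolve_left hg0
    obtain ⟨a, b, hab⟩ := hsp (g * h) (fun Q hQ => by
      right
      rw [Q.ord_mul hg0 hh0]
      have h1 := hg' Q
      rw [hZa] at h1
      have h2 : 0 ≤ Q.ord h := by
        by_contra hcon
        obtain ⟨i, hi, hQi⟩ := hpol Q (not_le.1 hcon)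
        exact hQ i hi hQi
      rw [max_eq_right h2] at h1
      omega) (fun i hi => by
      right
      rw [(P i).ord_mul hg0 hh0, hord i hi]
      have h1 := hg' (P i)
      rw [hZa, hord i hi] at h1
      have h2 : max 0 (-1 : ℤ) = 0 := rfl
      rw [h2] at h1
      omega)
    refine ⟨b, a, ?_⟩
    have h3 : g = g * h * h⁻¹ := by rw [mul_assoc, mul_inv_cancel₀ hh0, mul_one]
    rw [h3, hab, add_mul, mul_assoc, mul_inv_cancel₀ hh0, mul_one]
    ring
  have hinv : h⁻¹ ∈ LL Z := by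
    rw [mem_LL]
    right
    intro Q
    rw [hZa, Q.ord_inv]
    have := le_max_right 0 (Q.ord h)
    omega
  have hdesc := descent_LL bc Z (fun Q hQ => by
    refine hz Q ?_
    by_contra hcon
    exact hQ (by rw [hZa]; exact max_eq_left (not_lt.1 hcon)))
  -- a member of the space which is defined over the small field
  obtain ⟨l, hlZ, hlc⟩ : ∃ l : L, algebraMap L E l ∈ LL Z ∧ ∀ a : Ω, algebraMap L E l ≠ algebraMap Ω E a := by
    by_contra hcon
    push Not at hcon
    have h1 : Submodule.span Ω {f | ∃ l, algebraMap L E l = f ∧ f ∈ LL Z} ≤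
        Submodule.span Ω {(1 : E)} := by
      rw [Submodule.span_le]
      rintro _ ⟨l, rfl, hl⟩
      obtain ⟨a, ha⟩ := hcon l hl
      refine Submodule.mem_span_singleton.2 ⟨a, ?_⟩
      rw [ha, Algebra.smul_def, mul_one]
    obtain ⟨a, ha⟩ := Submodule.mem_span_singleton.1 (h1 (hdesc hinv))
    rw [Algebra.smul_def, mul_one] at ha
    refine hh a⁻¹ ?_
    rw [map_inv₀, ha, inv_inv]
  obtain ⟨b, a, hab⟩ := hspan _ hlZ
  have ha0 : a ≠ 0 := by
    rintro rfl
    rw [map_zero, zero_mul, add_zero] at hab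
    exact hlc b hab
  have hsub : algebraMap L E l - algebraMap Ω E b = algebraMap Ω E a * h⁻¹ := by
    rw [hab]; ring
  have hone : ∀ Q : Place Ω E, Q.ord h < 0 → Ge Q 1 (algebraMap L E l - algebraMap Ω E b) := by
    intro Q hQ
    rw [hsub]
    right
    rw [Q.ord_mul ((_root_.map_ne_zero _).2 ha0) (inv_ne_zero hh0), Q.ord_const ha0, Q.ord_inv]
    omega
  have hone' : ∀ Q : Place Ω E, Ge Q 1 (algebraMap L E l - algebraMap Ω E b) → Q.ord h < 0 := by
    intro Q hQ
    rw [hsub] at hQ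
    have h1 := hQ.resolve_left (mul_ne_zero ((_root_.map_ne_zero _).2 ha0) (inv_ne_zero hh0))
    rw [Q.ord_mul ((_root_.map_ne_zero _).2 ha0) (inv_ne_zero hh0), Q.ord_const ha0, Q.ord_inv] at h1
    omega
  have hval : ∀ i ∈ S, Ge (P i) 1 (algebraMap L E l - algebraMap Ω E b) := fun i hi =>
    hone _ (by rw [hord i hi]; omega)
  have hreg : ∀ i ∈ S, Ge (P i) 0 (algebraMap L E l) := by
    intro i hi
    have h1 := ((hval i hi).mono (show (0 : ℤ) ≤ 1 by omega)).add (Ge.const (P := P i) b)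
    rwa [sub_add_cancel] at h1
  -- the value is transcendental
  have hbM : ∀ m : k, algebraMap k Ω m ≠ b := by
    intro m hm
    obtain ⟨i, hi, f, hf, hfm⟩ := hxM
    have h1 : algebraMap L E (l - algebraMap k L m) = algebraMap L E l - algebraMap Ω E b := by
      rw [map_sub, ← IsScalarTower.algebraMap_apply k L E, IsScalarTower.algebraMap_apply k Ω E, hm]
    have h2 : ∃ l : L, (P i).ord (algebraMap L E l) ≠ 0 := by
      refine ⟨l - algebraMap k L m, ?_⟩
      rw [h1]
      have h3 := (hval i hi).resolve_left (fun h0 => hlc b (sub_eq_zero.1 h0))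
      omega
    obtain ⟨c, hc⟩ := const_below bc h2 hf
    exact hfm c hc
  have hbt : Transcendental k b := by
    intro hb
    obtain ⟨m, hm⟩ := alg_const hb
    exact hbM m hm
  refine ⟨b, hbt, fun i hi => ?_⟩
  have htriv : ∀ g : L, (P i).ord (algebraMap L E g) = 0 := by
    by_contra hcon
    push Not at hcon
    obtain ⟨c, hc⟩ := const_below bc hcon (hreg i hi)
    exact hbM c (val_unique hc (hval i hi))
  obtain ⟨ρ, hρ⟩ := emb_at bc (P i) htriv
  have hρl : ρ l = b := val_unique (hρ l) (hval i hi)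
  refine ⟨ρ, hρ, ?_, ?_⟩
  · intro f
    have hlt : Transcendental k l := by
      intro hl
      obtain ⟨m, hm⟩ := alg_const hl
      refine hlc (algebraMap k Ω m) ?_
      rw [← hm, ← IsScalarTower.algebraMap_apply k L E, IsScalarTower.algebraMap_apply k Ω E]
    have halg : Algebra.IsAlgebraic k⟮l⟯ L := IsFF.isAlgebraic hlt
    have hmem : ∀ y : k⟮l⟯, ρ y ∈ k⟮b⟯ := by
      have h1 : k⟮l⟯ ≤ (k⟮b⟯).comap ρ := by
        rw [IntermediateField.adjoin_simple_le_iff]
        change ρ l ∈ k⟮b⟯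
        rw [hρl]
        exact mem_adjoin_simple_self k b
      exact fun y => h1 y.2
    let i1 : Algebra k⟮l⟯ k⟮b⟯ :=
      (((ρ : L →+* Ω).comp (algebraMap k⟮l⟯ L)).codRestrict k⟮b⟯.toSubring hmem).toAlgebra
    let i2 : Algebra L Ω := (ρ : L →+* Ω).toAlgebra
    have t2 : IsScalarTower k⟮l⟯ k⟮b⟯ Ω := IsScalarTower.of_algebraMap_eq fun _ => rfl
    have h2 : IsAlgebraic k⟮l⟯ (algebraMap L Ω f) := (halg.isAlgebraic f).algebraMap
    exact h2.tower_top k⟮b⟯
  · intro τ hτ
    obtain ⟨P', hP'⟩ := exists_at bc ((τ : Ω →ₐ[k] Ω).comp ρ)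
    have h1 := hP' l
    have h2 : ((τ : Ω →ₐ[k] Ω).comp ρ) l = b := by
      change τ (ρ l) = b
      rw [hρl, hτ]
    rw [h2] at h1
    obtain ⟨j, hj, hPj⟩ := hpol P' (hone' P' h1)
    refine ⟨j, hj, ?_⟩
    rw [← hPj]
    exact hP'

end

end Pool.Agent.H908.SA
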