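import Pool.Agent.H908.SA6
import Pool.Graph.R_seed8.R882.GLb

/-!
Algebraically closed subfields of small transcendence degree; products of transpositions.
-/

set_option autoImplicit false
set_option linter.overlappingInstances false
set_option linter.unusedSectionVars false

open FF IntermediateField Cardinal

namespace Pool.Agent.H908.SA

open Pool.Agent.W603.LV Pool.Agent.W602.RG Pool.Agent.Helper11K9.PC Pool.Agent.Helper11K9.OD

section

variable {Ω : Type} [Field Ω] [Algebra ℂ Ω]

/-- the algebraic closure in `Ω` of the field generated by `s` -/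
noncomputable def clo (s : Set Ω) : IntermediateField ℂ Ω :=
  (algebraicClosure (IntermediateField.adjoin ℂ s) Ω).restrictScalars ℂ

theorem mem_clo {s : Set Ω} {z : Ω} : z ∈ clo s ↔ IsAlgebraic (IntermediateField.adjoin ℂ s) z := by
  unfold clo
  rw [mem_restrictScalars, mem_algebraicClosure_iff]

theorem subset_clo {s : Set Ω} {z : Ω} (hz : z ∈ s) : z ∈ clo s := by
  rw [mem_clo]
  exact isAlgebraic_algebraMap (⟨z, subset_adjoin ℂ s hz⟩ : IntermediateField.adjoin ℂ s)

instance clo_closed [IsAlgClosed Ω] (s : Set Ω) : IsAlgClosed (clo s) :=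
  (algebraicClosure.isAlgClosure (IntermediateField.adjoin ℂ s) Ω).isAlgClosed

theorem clo_trdeg (s : Finset Ω) : Algebra.trdeg ℂ (clo (s : Set Ω)) ≤ s.card := by
  classical
  obtain ⟨M, hM⟩ : ∃ M : IntermediateField ℂ Ω, M = clo (s : Set Ω) := ⟨_, rfl⟩
  rw [← hM]
  have hsM : ∀ z ∈ s, z ∈ M := fun z hz => by rw [hM]; exact subset_clo hz
  let s' : Set M := {m | (m : Ω) ∈ s}
  have hle : IntermediateField.adjoin ℂ (s : Set Ω) ≤ (IntermediateField.adjoin ℂ s').map M.val := by
    rw [IntermediateField.adjoin_le_iff]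
    intro z hz
    exact ⟨⟨z, hsM z hz⟩, subset_adjoin ℂ s' hz, rfl⟩
  have hMalg : ∀ z : Ω, z ∈ M → IsAlgebraic (IntermediateField.adjoin ℂ (s : Set Ω)) z := by
    intro z hz
    rw [hM] at hz
    exact mem_clo.1 hz
  have halg : ∀ m : M, IsAlgebraic (IntermediateField.adjoin ℂ s') m := by
    intro m
    have h1 := hMalg m m.2
    have h2 : ∀ y : IntermediateField.adjoin ℂ (s : Set Ω), ∃ y' : IntermediateField.adjoin ℂ s',
        ((y' : M) : Ω) = y := by
      intro y
      obtain ⟨y', hy', hyy⟩ := hle y.2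
      exact ⟨⟨y', hy'⟩, hyy⟩
    choose g hg using h2
    have hinj : ∀ a b : IntermediateField.adjoin ℂ s', ((a : M) : Ω) = ((b : M) : Ω) → a = b :=
      fun a b hab => Subtype.ext (Subtype.ext hab)
    let f : IntermediateField.adjoin ℂ (s : Set Ω) →+* IntermediateField.adjoin ℂ s' :=
      { toFun := g
        map_one' := hinj _ _ (by rw [hg]; rfl)
        map_mul' := fun a b => hinj _ _ (by
          rw [hg]
          change (a : Ω) * b = ((g a : M) : Ω) * ((g b : M) : Ω)
          rw [hg, hg])
        map_zero' := hinj _ _ (by rw [hg]; rfl)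
        map_add' := fun a b => hinj _ _ (by
          rw [hg]
          change (a : Ω) + b = ((g a : M) : Ω) + ((g b : M) : Ω)
          rw [hg, hg]) }
    have h3 : IsAlgebraic (IntermediateField.adjoin ℂ s') (m : Ω) :=
      h1.ringHom_of_comp_eq f (RingHom.id Ω) f.injective (by
        ext y
        exact hg y)
    exact (isAlgebraic_algebraMap_iff (algebraMap M Ω).injective).1 h3
  have h4 := Pool.Agent.W619.PQ.alg_adjoin halg
  have h5 := Algebra.IsAlgebraic.trdeg_le_cardinalMk ℂ s'
  refine h5.trans ?_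
  let q : s' → s := fun m => ⟨((m : M) : Ω), m.2⟩
  have hq : Function.Injective q := by
    intro a b hab
    exact Subtype.ext (Subtype.ext (congrArg (fun w : s => (w : Ω)) hab))
  have h6 := Cardinal.mk_le_of_injective hq
  rwa [Cardinal.mk_coe_finset] at h6

/-- an algebraic function field is in the closure -/
theorem range_clo {L : Type} [Field L] [Algebra ℂ L] [IsFF ℂ L] {u : L} (hu : Transcendental ℂ u)
    (z : L →ₐ[ℂ] Ω) {s : Set Ω} (hs : z u ∈ clo s) (f : L) : z f ∈ clo s := by
  rw [mem_clo] at hs ⊢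
  have h1 : IsAlgebraic ℂ⟮u⟯ f := (IsFF.isAlgebraic hu).isAlgebraic f
  let S := algebraicClosure (IntermediateField.adjoin ℂ s) Ω
  have hle : ℂ⟮u⟯ ≤ (S.restrictScalars ℂ).comap z := by
    rw [adjoin_simple_le_iff]
    change z u ∈ S.restrictScalars ℂ
    rw [mem_restrictScalars, mem_algebraicClosure_iff]
    exact hs
  let g : ℂ⟮u⟯ →+* S := ((z : L →+* Ω).comp (algebraMap ℂ⟮u⟯ L)).codRestrict S fun y => hle y.2
  have h2 : IsAlgebraic S (z f) := h1.ringHom_of_comp_eq g (z : L →+* Ω) g.injective (by
    ext y; rfl)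
  have h3 : Algebra.IsAlgebraic (IntermediateField.adjoin ℂ s) S := inferInstance
  exact h2.restrictScalars (IntermediateField.adjoin ℂ s)

end

end Pool.Agent.H908.SA
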