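import Pool.Agent.H908.SA7
import Pool.Graph.R_seed8.Y184.NT.Main2

/-!
**Uniruledness**: quotients of products of curves by groups which contain the transpositions of more
curves than the genus.
-/

set_option autoImplicit false
set_option linter.overlappingInstances false
set_option linter.unusedSectionVars false

open FF IntermediateField Cardinal

namespace Pool.Agent.H908.SA

open Pool.Agent.W603.LV Pool.Agent.W602.RG Pool.Agent.Helper11K9.PC Pool.Agent.Helper11K9.OD
open Pool.Agent.W619.PQ (IsUniruled)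

/-- the field where two homomorphisms agree -/
def eqF {A B : Type} [Field A] [Field B] [Algebra ℂ A] [Algebra ℂ B] (f g : A →ₐ[ℂ] B) :
    IntermediateField ℂ A :=
  { AlgHom.equalizer f g with
    inv_mem' := fun x hx => by
      have h1 : f x = g x := hx
      change f x⁻¹ = g x⁻¹
      rw [map_inv₀, map_inv₀, h1] }

theorem mem_eqF {A B : Type} [Field A] [Field B] [Algebra ℂ A] [Algebra ℂ B] {f g : A →ₐ[ℂ] B}
    {x : A} : x ∈ eqF f g ↔ f x = g x := Iff.rfl

/-- elements which are fixed by all automorphisms -/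
theorem fixed_mem {R Ω : Type} [Field R] [CharZero R] [Field Ω] [Algebra R Ω] [IsAlgClosed Ω]
    [hΩ : Algebra.IsAlgebraic R Ω] {w : Ω} (h : ∀ τ : Ω ≃ₐ[R] Ω, τ w = w) :
    ∃ y : R, algebraMap R Ω y = w := by
  have hc : IsAlgClosure R Ω := ⟨inferInstance, hΩ⟩
  have hnor : Normal R Ω := inferInstance
  have hgal : IsGalois R Ω := {}
  have h1 := (InfiniteGalois.mem_bot_iff_fixed (k := R) (K := Ω) w).2 h
  rw [mem_bot] at h1
  exact h1

section

variable {K : Type} [Field K] [Algebra ℂ K] {n : ℕ} (F : Fin n → IntermediateField ℂ K)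

/-- products of transpositions -/
theorem exists_perm (G : Subgroup (K ≃ₐ[ℂ] K)) {L : Type} [Field L] [Algebra ℂ L]
    (B : Finset (Fin n)) (φ : Fin n → (L →ₐ[ℂ] K)) (hφ : ∀ i ∈ B, ∀ f, φ i f ∈ F i)
    (hsw : ∀ i ∈ B, ∀ j ∈ B, i ≠ j → ∃ g ∈ G, (∀ f, g (φ i f) = φ j f) ∧
      (∀ f, g (φ j f) = φ i f) ∧ ∀ l, l ≠ i → l ≠ j → ∀ z ∈ F l, g z = z)
    (S : Finset B) (π : Equiv.Perm S) :
    ∃ g ∈ G, (∀ (i : S) (f : L), g (φ ((i : B) : Fin n) f) = φ ((π i : B) : Fin n) f) ∧
      ∀ l : Fin n, (∀ i : S, ((i : B) : Fin n) ≠ l) → ∀ z ∈ F l, g z = z := by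
  classical
  induction π using Equiv.Perm.swap_induction_on with
  | one =>
    exact ⟨1, G.one_mem, fun i f => rfl, fun l _ z _ => rfl⟩
  | swap_mul π x y hxy ih =>
    obtain ⟨g, hg, hg1, hg2⟩ := ih
    have hxy' : ((x : B) : Fin n) ≠ ((y : B) : Fin n) := fun h =>
      hxy (Subtype.ext (Subtype.ext h))
    obtain ⟨g', hg', h1, h2, h3⟩ := hsw _ x.1.2 _ y.1.2 hxy'
    refine ⟨g' * g, G.mul_mem hg' hg, fun i f => ?_, fun l hl z hz => ?_⟩
    · rw [AlgEquiv.mul_apply, hg1, Equiv.Perm.mul_apply]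
      by_cases hx : π i = x
      · rw [hx, Equiv.swap_apply_left]
        exact h1 f
      by_cases hy : π i = y
      · rw [hy, Equiv.swap_apply_right]
        exact h2 f
      rw [Equiv.swap_apply_of_ne_of_ne hx hy]
      refine h3 _ (fun h => hx (Subtype.ext (Subtype.ext h)))
        (fun h => hy (Subtype.ext (Subtype.ext h))) _ (hφ _ (π i).1.2 f)
    · rw [AlgEquiv.mul_apply, hg2 l hl z hz]
      exact h3 l (fun h => hl x h.symm) (fun h => hl y h.symm) z hz

/-- **Blocks larger than the genus give uniruled quotients.** -/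
theorem uniruled_of_block [∀ i, IsFF ℂ (F i)] (hsup : ⨆ i, F i = ⊤) (hn : Algebra.trdeg ℂ K = n)
    (G : Subgroup (K ≃ₐ[ℂ] K)) [Finite G] (i0 : Fin n) (B : Finset (Fin n))
    (φ : Fin n → (F i0 →ₐ[ℂ] K)) (hφ : ∀ i ∈ B, ∀ z, z ∈ F i ↔ ∃ f, φ i f = z)
    (hsw : ∀ i ∈ B, ∀ j ∈ B, i ≠ j → ∃ g ∈ G, (∀ f, g (φ i f) = φ j f) ∧
      (∀ f, g (φ j f) = φ i f) ∧ ∀ l, l ≠ i → l ≠ j → ∀ z ∈ F l, g z = z)
    {D0 : Derivation ℂ (F i0) (F i0)} (hD0 : D0 ≠ 0)
    (hg : Module.finrank ℂ (RR D0 hD0) < B.card) : IsUniruled ℂ (fixedField G) n := by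
  classical
  let Ω := AlgebraicClosure K
  have hΩ0 : CharZero Ω := charZero_of_injective_algebraMap (algebraMap ℂ Ω).injective
  let ι : K →ₐ[ℂ] Ω := IsScalarTower.toAlgHom ℂ K Ω
  -- the generic points
  choose ξ hξ using fun i => IsFF.exists_transcendental (k := ℂ) (K := F i)
  have hind := Pool.Agent.W619.PQ.basis_of_iSup F hsup hn ξ hξ
  have hdisj : ∀ i j : Fin n, i ≠ j → ∀ z ∈ F i, z ∈ F j → IsAlgebraic ℂ z := by
    intro i j hij z hzi hzj
    by_contra hz
    have hz' : ∀ l (h : z ∈ F l), Transcendental ℂ (⟨z, h⟩ : F l) := fun l h h1 =>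
      hz (h1.algebraMap (A := K))
    let ξ' : ∀ l, F l := fun l => if h : z ∈ F l then ⟨z, h⟩ else ξ l
    have hξ' : ∀ l, Transcendental ℂ (ξ' l) := by
      intro l
      by_cases h : z ∈ F l
      · simp only [ξ', dif_pos h]
        exact hz' l h
      · simp only [ξ', dif_neg h]
        exact hξ l
    have h1 := (Pool.Agent.W619.PQ.basis_of_iSup F hsup hn ξ' hξ').1.injective
    apply hij
    apply h1
    simp only [ξ', dif_pos hzi, dif_pos hzj]
  let x : B → (F i0 →ₐ[ℂ] Ω) := fun i => ι.comp (φ i)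
  have hx : Function.Injective x := by
    intro i j hij
    by_contra hne
    have hne' : (i : Fin n) ≠ j := fun h => hne (Subtype.ext h)
    have h1 : φ i (ξ i0) = φ j (ξ i0) := by
      have := DFunLike.congr_fun hij (ξ i0)
      exact ι.injective this
    have h2 := hdisj i j hne' (φ i (ξ i0)) ((hφ i i.2 _).2 ⟨_, rfl⟩)
      ((hφ j j.2 _).2 ⟨ξ i0, h1.symm⟩)
    exact hξ i0 ((isAlgebraic_algHom_iff (φ i) (φ i).injective).1 h2)
  obtain ⟨E, iE, ikE, iLE, iΩE, tL, tΩ, hff, bc, hgen⟩ := exists_bc ℂ (F i0) Ω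
  choose P hP using fun i : B => exists_at bc (x i)
  obtain ⟨S, h, hh, hord, hpol, hsp, r, z, hr, hz⟩ := exists_pencil' bc hD0 x hx P hP (by
    rw [Fintype.card_coe]; exact hg)
  -- the small field
  let A0 : Finset Ω := (Finset.univ.image fun j : Fin r => z j (ξ i0)) ∪
    ((Finset.univ.filter fun l : Fin n => ∀ i ∈ S, (i : Fin n) ≠ l).image fun l => ι (ξ l : K))
  have hA0 : A0.card < n := by
    have h1 : (Finset.univ.filter fun l : Fin n => ∀ i ∈ S, (i : Fin n) ≠ l) =
        (S.map ⟨Subtype.val, Subtype.val_injective⟩)ᶜ := by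
      ext l
      rw [Finset.mem_filter, Finset.mem_compl, Finset.mem_map]
      constructor
      · rintro ⟨-, h2⟩ ⟨i, hi, hil⟩
        exact h2 i hi hil
      · intro h2
        exact ⟨Finset.mem_univ _, fun i hi hil => h2 ⟨i, hi, hil⟩⟩
    have h2 := Finset.card_union_le (Finset.univ.image fun j : Fin r => z j (ξ i0))
      ((Finset.univ.filter fun l : Fin n => ∀ i ∈ S, (i : Fin n) ≠ l).image fun l => ι (ξ l : K))
    have h3 : (Finset.univ.image fun j : Fin r => z j (ξ i0)).card ≤ r := by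
      refine Finset.card_image_le.trans ?_
      rw [Finset.card_univ, Fintype.card_fin]
    have h4 : ((Finset.univ.filter fun l : Fin n => ∀ i ∈ S, (i : Fin n) ≠ l).image
        fun l => ι (ξ l : K)).card ≤ n - S.card := by
      refine Finset.card_image_le.trans ?_
      rw [h1, Finset.card_compl, Finset.card_map, Fintype.card_fin]
    have h5 : S.card ≤ n := by
      have := Finset.card_le_univ (S.map ⟨Subtype.val, Subtype.val_injective⟩ : Finset (Fin n))
      rwa [Finset.card_map, Fintype.card_fin] at this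
    change (_ ∪ _ : Finset Ω).card < n
    omega
  let M : IntermediateField ℂ Ω := clo (A0 : Set Ω)
  have hMtr : Algebra.trdeg ℂ M < n := by
    refine lt_of_le_of_lt (clo_trdeg A0) ?_
    exact_mod_cast hA0
  have hzM : ∀ j f, z j f ∈ M := fun j f => range_clo (hξ i0) (z j) (subset_clo (by
    rw [Finset.mem_coe, Finset.mem_union]
    left
    exact Finset.mem_image_of_mem _ (Finset.mem_univ j))) f
  have hFM : ∀ l : Fin n, (∀ i ∈ S, (i : Fin n) ≠ l) → ∀ y ∈ F l, ι y ∈ M := by
    intro l hl y hy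
    exact range_clo (hξ l) (ι.comp (F l).val) (subset_clo (by
      rw [Finset.mem_coe, Finset.mem_union]
      right
      exact Finset.mem_image_of_mem (fun l => ι (ξ l : K)) (Finset.mem_filter.2 ⟨Finset.mem_univ l, hl⟩))) ⟨y, hy⟩
  have hMc : IsAlgClosed M := clo_closed _
  have hM0 : CharZero M := charZero_of_injective_algebraMap (algebraMap ℂ M).injective
  have tM1 : IsScalarTower M Ω E := inferInstance
  have tM2 : IsScalarTower ℂ M E := IsScalarTower.of_algebraMap_eq fun c => by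
    rw [IsScalarTower.algebraMap_apply ℂ Ω E]; rfl
  obtain ⟨hffM, bcM⟩ := bc_M (M := M) bc hgen
  -- not all points are defined over the small field
  have hnot : ∃ i ∈ S, ∃ f : F i0, x i f ∉ M := by
    by_contra hcon
    push Not at hcon
    have h1 : (⊤ : IntermediateField ℂ K) ≤ M.comap ι := by
      rw [← hsup, iSup_le_iff]
      intro l y hy
      change ι y ∈ M
      by_cases hl : ∀ i ∈ S, (i : Fin n) ≠ l
      · exact hFM l hl y hy
      · push Not at hl
        obtain ⟨i, hi, rfl⟩ := hl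
        obtain ⟨f, hf⟩ := (hφ i i.2 y).1 hy
        rw [← hf]
        exact hcon i hi f
    let ι' : K →ₐ[ℂ] M := ι.codRestrict M.toSubalgebra fun y => h1 (x := y) trivial
    have h2 := trdeg_le_of_injective ι' ι'.injective
    rw [hn] at h2
    exact absurd h2 (not_le.2 hMtr)
  let N : IntermediateField M E := IntermediateField.adjoin M (Set.range (algebraMap (F i0) E))
  let inc : F i0 → N := fun f => ⟨algebraMap (F i0) E f, subset_adjoin _ _ ⟨f, rfl⟩⟩
  have hinc : ∀ f, algebraMap N E (inc f) = algebraMap (F i0) E f := fun f => rfl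
  obtain ⟨t0, ht0, hcore⟩ := pencil_core bcM P S (by
      obtain ⟨i, hi, -⟩ := hnot
      exact ⟨i, hi⟩) hh hord hpol hsp (fun Q hQ => by
      rcases hz Q hQ with ⟨l, hl⟩ | ⟨j, hj⟩
      · exact ⟨inc l, hl⟩
      · refine ⟨inc (ξ i0) - algebraMap M N ⟨z j (ξ i0), hzM j _⟩, ?_⟩
        have h1 : algebraMap N E (inc (ξ i0) - algebraMap M N ⟨z j (ξ i0), hzM j _⟩) =
            algebraMap (F i0) E (ξ i0) - algebraMap Ω E (z j (ξ i0)) := by
          rw [map_sub, hinc]
          rfl
        rw [h1]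
        have h2 := (hj (ξ i0)).resolve_left (fun h0 => by
          apply bc_transc bc (hξ i0)
          rw [sub_eq_zero.1 h0]
          exact isAlgebraic_algebraMap _)
        omega) (by
      obtain ⟨i, hi, f, hf⟩ := hnot
      refine ⟨i, hi, inc f, Or.inr (Ats.ord (hP i) f).ge, fun m hm => hf ?_⟩
      have h1 := val_unique (hP i f) hm
      rw [h1]
      exact m.2)
  have hρx : ∀ (i : B) (ρ : N →ₐ[M] Ω), Ats (P i) ρ → ∀ f, ρ (inc f) = x i f := fun i ρ hρ f =>
    val_unique (hρ (inc f)) (hP i f)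
  -- algebraicity
  have hKalg : ∀ y : K, IsAlgebraic M⟮t0⟯ (ι y) := by
    have h1 : (⊤ : IntermediateField ℂ K) ≤
        (((algebraicClosure M⟮t0⟯ Ω).restrictScalars M).restrictScalars ℂ).comap ι := by
      rw [← hsup, iSup_le_iff]
      intro l y hy
      change ι y ∈ algebraicClosure M⟮t0⟯ Ω
      rw [mem_algebraicClosure_iff]
      by_cases hl : ∀ i ∈ S, (i : Fin n) ≠ l
      · exact isAlgebraic_algebraMap
          (⟨ι y, (M⟮t0⟯).algebraMap_mem ⟨ι y, hFM l hl y hy⟩⟩ : M⟮t0⟯)
      · push Not at hl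
        obtain ⟨i, hi, rfl⟩ := hl
        obtain ⟨f, hf⟩ := (hφ i i.2 y).1 hy
        obtain ⟨ρ, hρ, hρalg, -⟩ := hcore i hi
        have h2 := hρalg (inc f)
        rw [hρx i ρ hρ f] at h2
        rw [← hf]
        exact h2
    intro y
    exact mem_algebraicClosure_iff.1 (h1 (x := y) trivial)
  have hΩalg : Algebra.IsAlgebraic M⟮t0⟯ Ω := by
    refine ⟨fun w => ?_⟩
    have h1 : IsAlgebraic K w := Algebra.IsAlgebraic.isAlgebraic w
    let N' := algebraicClosure M⟮t0⟯ Ω
    let g : K →+* N' := (ι : K →+* Ω).codRestrict N' fun y => mem_algebraicClosure_iff.2 (hKalg y)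
    have h2 : IsAlgebraic N' w := h1.ringHom_of_comp_eq g (RingHom.id Ω) g.injective (by
      ext y; rfl)
    have h3 : Algebra.IsAlgebraic M⟮t0⟯ N' := inferInstance
    exact h2.restrictScalars M⟮t0⟯
  -- transcendence degrees
  have hnΩ : Algebra.trdeg ℂ Ω = n := by
    have h1 := trdeg_add_eq ℂ K (A := Ω)
    have h2 : Algebra.trdeg K Ω = 0 := by
      rw [trdeg_eq_zero_iff]
      infer_instance
    rw [h2, add_zero, hn] at h1
    exact h1.symm
  have hMΩ : Algebra.trdeg M Ω = 1 := by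
    have h1 : AlgebraicIndependent M (fun _ : Unit => t0) := by
      rw [algebraicIndependent_unique_type_iff]
      exact ht0
    have h3 : Set.range (fun _ : Unit => t0) = {t0} := by simp
    have h2 : IsTranscendenceBasis M (fun _ : Unit => t0) := by
      rw [isTranscendenceBasis_iff_algebraicIndependent_isAlgebraic]
      refine ⟨h1, ?_⟩
      rw [h3]
      exact Pool.Agent.W619.PQ.alg_adjoin (k := M) fun z => hΩalg.isAlgebraic z
    have := h2.lift_cardinalMk_eq_trdeg
    simpa using this.symm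
  obtain ⟨m, hm⟩ := Cardinal.lt_aleph0.1 (hMtr.trans (Cardinal.natCast_lt_aleph0 (n := n)))
  have hmn : n = m + 1 := by
    have h3 := trdeg_add_eq ℂ M (A := Ω)
    rw [hMΩ, hnΩ, hm] at h3
    exact_mod_cast h3.symm
  -- the fixed field is contained in `M (t0)`
  have hmem : ∀ e : fixedField G, ι (e : K) ∈ M⟮t0⟯ := by
    intro e
    obtain ⟨y, hy⟩ := fixed_mem (R := M⟮t0⟯) (Ω := Ω) (w := ι (e : K)) (by
      intro τ'
      let τ : Ω ≃ₐ[M] Ω := τ'.restrictScalars M
      have hτ0 : τ t0 = t0 := τ'.commutes ⟨t0, mem_adjoin_simple_self M t0⟩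
      choose ρ hρ _ hρτ using hcore
      have hσ : ∀ i : S, ∃ j : S, Ats (P j) ((τ : Ω →ₐ[M] Ω).comp (ρ i.1 i.2)) := by
        intro i
        obtain ⟨j, hj, hj'⟩ := hρτ i.1 i.2 τ hτ0
        exact ⟨⟨j, hj⟩, hj'⟩
      choose σ hσ using hσ
      have hσx : ∀ (i : S) (f : F i0), τ (x i f) = x (σ i) f := by
        intro i f
        have h2 := hρx (σ i) _ (hσ i) f
        rw [← h2, ← hρx i _ (hρ i.1 i.2) f]
        rfl
      have hσi : Function.Injective σ := by
        intro i j hij
        have h2 : x i = x j := by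
          ext f
          apply τ.injective
          rw [hσx, hσx, hij]
        exact Subtype.ext (hx h2)
      let π : Equiv.Perm S := Equiv.ofBijective σ (Finite.injective_iff_bijective.1 hσi)
      obtain ⟨g, hgG, hg1, hg2⟩ := exists_perm F G B φ (fun i hi f => (hφ i hi _).2 ⟨f, rfl⟩)
        hsw S π
      have hall : ∀ y : K, τ (ι y) = ι (g y) := by
        have h2 : (⊤ : IntermediateField ℂ K) ≤
            eqF (((τ : Ω →ₐ[M] Ω).restrictScalars ℂ).comp ι) (ι.comp (g : K →ₐ[ℂ] K)) := by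
          rw [← hsup, iSup_le_iff]
          intro l y hy
          rw [mem_eqF]
          change τ (ι y) = ι (g y)
          by_cases hl : ∀ i ∈ S, (i : Fin n) ≠ l
          · rw [hg2 l (fun i => hl i.1 i.2) y hy]
            exact τ.commutes ⟨ι y, hFM l hl y hy⟩
          · push Not at hl
            obtain ⟨i, hi, rfl⟩ := hl
            obtain ⟨f, hf⟩ := (hφ i i.2 y).1 hy
            rw [← hf]
            have h3 := hg1 ⟨i, hi⟩ f
            change g (φ i f) = φ (σ ⟨i, hi⟩) f at h3
            rw [h3]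
            exact hσx ⟨i, hi⟩ f
        exact fun y => h2 (x := y) trivial
      have h2 := hall e
      have h3 : g (e : K) = e := e.2 ⟨g, hgG⟩
      rw [h3] at h2
      exact h2)
    rw [← hy]
    exact y.2
  have hfin : FiniteDimensional (fixedField G) K := Pool.Agent.W619.PQ.fixed_finite G
  have hessK : Algebra.EssFiniteType ℂ K := ess_top F hsup
  have hessG : Algebra.EssFiniteType ℂ (fixedField G) := Pool.Agent.TH466.QG.ess_below (K := K)
  have hnG : Algebra.trdeg ℂ (fixedField G) = n := Pool.Agent.Y184.NT.trdeg_below (K := K) hn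
  exact Pool.Agent.R882.GL.uniruled_geo (Λ := M) (F := Ω) hnG hm hmn
    (ι.comp (fixedField G).val) t0 ht0 hmem

end

end Pool.Agent.H908.SA
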