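import Pool.Graph.R_pool_sql_team_seeded_efc1946e.K1H17.IS.Ds2

/-! Descent of pluricanonical forms to the fixed field: an adaptation of
`Pool.Agent.K1H17.IS.desc2`, in which only the values on the lifts of vector fields are used. -/

set_option autoImplicit false
set_option linter.overlappingInstances false
set_option linter.unusedSectionVars false
set_option linter.unusedVariables false

open FF IntermediateField Pool.Agent.W619.PQ Pool.Agent.W619.PL Pool.Agent.W619.TW
  Pool.Agent.W603.LV Pool.Agent.W619.Y Pool.Agent.W672.PG Pool.Agent.W824.PG Pool.Agent.Y174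

namespace Pool.Agent.H908.SB

open Pool.Agent.K1H17.IS

section

variable {k : Type} {L : Type} [Field k] [CharZero k] [Field L] [Algebra k L]

/-- Forms on `L` which take the lifts of regular vector fields to regular functions give forms on
the fixed field. -/
theorem desc3 {n A m : ℕ} (hm : 1 ≤ m) (hn : Algebra.trdeg k L = n)
    (hessL : Algebra.EssFiniteType k L) (G : Subgroup (L ≃ₐ[k] L)) [Finite G]
    (ω : Fin (A + 1) → (Fin n → Derivation k L L) → L) (hω : ∀ l, IsPluriForm k L n m (ω l))
    (DL : Fin n → Derivation k L L) (hDL0 : ∀ l, ω l DL ≠ 0)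
    (hDLi : AlgebraicIndependent k (fun l : Fin A => ω l.succ DL / ω 0 DL))
    (hloc : ∀ v : Place k (fixedField G), IsDivisorial v n → ∀ w e, Over w v e →
      (2 ≤ e → ∃ h ∈ G, h ≠ 1 ∧ orderOf h = e ∧ Inert w h) →
      ∀ (D : Fin n → Derivation k (fixedField G) (fixedField G)) (D' : Fin n → Derivation k L L),
      (∀ j, Pres v (D j)) →
      (∀ j f, D' j (algebraMap (fixedField G) L f) = algebraMap (fixedField G) L (D j f)) →
      ∀ l, Ge w 0 (ω l D')) :
    KodTr k (fixedField G) n A := by
  classical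
  have halgK := Pool.Agent.W721.PG.EFF2.alg_fixed G
  have hfin := fixed_finite G
  have := Fintype.ofFinite G
  obtain ⟨hnK, z, hz⟩ := Pool.Agent.W721.PG.EFF2.exists_basis (fixedField G) n hn
  have hessK : Algebra.EssFiniteType k (fixedField G) := ess_down hessL z hz
  choose ext hext hext2 hext3 using Pool.Agent.Y174.pEXT k (fixedField G) L n hnK
  have hfix : ∀ (g : G) (f : fixedField G), (g : L ≃ₐ[k] L) (algebraMap (fixedField G) L f) =
      algebraMap (fixedField G) L f := fun g f => f.2 g
  -- the frame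
  obtain ⟨E, hE⟩ := Pool.Agent.W636.PG.exists_duals k (fixedField G) n z hz
  have hzL : IsTranscendenceBasis k (algebraMap (fixedField G) L ∘ z) := hz.algebraMap_comp
  have hE' : ∀ i j, ext (E i) ((algebraMap (fixedField G) L ∘ z) j) = if i = j then 1 else 0 := by
    intro i j
    rw [Function.comp_apply, hext, hE]
    split_ifs <;> simp
  have hval : ∀ l, ω l DL = (Matrix.of fun i j => DL i ((algebraMap (fixedField G) L ∘ z) j)).det ^ m
      * ω l (fun j => ext (E j)) := fun l =>
    Pool.Agent.W636.PG.form_eq k L n m _ hzL _ hE' (ω l) (hω l) DL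
  have hdet0 : (Matrix.of fun i j => DL i ((algebraMap (fixedField G) L ∘ z) j)).det ^ m ≠ 0 := by
    intro h0
    apply hDL0 0
    rw [hval, h0, zero_mul]
  have hωE0 : ∀ l, ω l (fun j => ext (E j)) ≠ 0 := by
    intro l h0
    apply hDL0 l
    rw [hval, h0, mul_zero]
  -- the functions
  let V : (Fin n → Derivation k (fixedField G) (fixedField G)) → Fin (A + 1) → L :=
    fun D l => ω l (fun j => ext (D j))
  have hV0 : ∀ l, V E l ≠ 0 := fun l => hωE0 l
  have hVi : AlgebraicIndependent k (fun l : Fin A => V E l.succ / V E 0) := by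
    have e1 : (fun l : Fin A => V E l.succ / V E 0) = fun l : Fin A => ω l.succ DL / ω 0 DL := by
      funext l
      rw [hval, hval]
      change ω l.succ _ / ω 0 _ = _
      rw [mul_div_mul_left _ _ hdet0]
    rw [e1]
    exact hDLi
  have hVlin : ∀ (X : Matrix (Fin n) (Fin n) (fixedField G))
      (D : Fin n → Derivation k (fixedField G) (fixedField G)) l,
      V (fun i => ∑ j, X i j • D j) l =
        V D l * (algebraMap (fixedField G) L X.det) ^ m := by
    intro X D l
    have e1 : (fun j => ext (∑ l, X j l • D l)) = fun j => ∑ l,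
        (X.map (algebraMap (fixedField G) L)) j l • ext (D l) := by
      funext j
      symm
      apply hext2
      intro f
      rw [Pool.Agent.W721.PG.EFF2.der_sum, Pool.Agent.W721.PG.EFF2.der_sum, map_sum]
      refine Finset.sum_congr rfl fun l _ => ?_
      rw [hext, map_mul]
      rfl
    have e3 : (X.map (algebraMap (fixedField G) L)).det = algebraMap (fixedField G) L X.det := by
      rw [RingHom.map_det]
      rfl
    change ω l (fun j => ext (∑ l, X j l • D l)) = ω l (fun j => ext (D j)) * _
    rw [e1, (hω l), e3]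
    ring
  -- symmetric functions
  obtain ⟨R, t, r, q, hR, hrq, hs0, hsi⟩ := Pool.Agent.W513.PG.main k L G 1 A
    (fun g l => (g : L ≃ₐ[k] L) (V E l)) (fun l => by
      change V E l ≠ 0
      exact hV0 l) (by
      have e1 : (fun l : Fin A => ((1 : G) : L ≃ₐ[k] L) (V E l.succ) /
          ((1 : G) : L ≃ₐ[k] L) (V E 0)) = fun l : Fin A => V E l.succ / V E 0 := rfl
      rw [e1]
      exact hVi)
  let s : (Fin n → Derivation k (fixedField G) (fixedField G)) → Fin (A + 1) → L :=
    fun D j => esy (fun g : G => (g : L ≃ₐ[k] L) (V D (t j))) (r j) ^ q j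
  have hsG : ∀ D j (g : G), (g : L ≃ₐ[k] L) (s D j) = s D j := by
    intro D j g
    change (g : L ≃ₐ[k] L) (esy (fun g : G => (g : L ≃ₐ[k] L) (V D (t j))) (r j) ^ q j) = _
    rw [map_pow]
    congr 1
    exact esy_inv _ (g : L ≃ₐ[k] L) (Equiv.mulLeft g) (fun i => rfl) _
  have hsA : ∀ (X : Matrix (Fin n) (Fin n) (fixedField G))
      (D : Fin n → Derivation k (fixedField G) (fixedField G)) j,
      s (fun i => ∑ j, X i j • D j) j =
        (algebraMap (fixedField G) L X.det) ^ (m * R) * s D j := by
    intro X D j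
    have e1 : (fun g : G => (g : L ≃ₐ[k] L) (V (fun i => ∑ j, X i j • D j) (t j))) =
        fun g : G => (g : L ≃ₐ[k] L) (V D (t j)) *
          (algebraMap (fixedField G) L X.det) ^ m := by
      funext g
      rw [hVlin, map_mul, map_pow, hfix]
    change esy (fun g : G => (g : L ≃ₐ[k] L) (V (fun i => ∑ j, X i j • D j) (t j))) (r j) ^ q j =
      (algebraMap (fixedField G) L X.det) ^ (m * R) *
        esy (fun g : G => (g : L ≃ₐ[k] L) (V D (t j))) (r j) ^ q j
    rw [e1, esy_mul, mul_pow, ← pow_mul, ← pow_mul, hrq j]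
  refine ⟨m * R, Nat.mul_pos hm hR, fun j D => ⟨s D j, fun g => hsG D j g⟩,
    fun l => ⟨?_, ?_, ?_⟩, E, fun l h0 => ?_, ?_⟩
  · intro X D
    apply Subtype.ext
    change s (fun i => ∑ j, X i j • D j) l =
      algebraMap (fixedField G) L (X.det ^ (m * R) * ⟨s D l, fun g => hsG D l g⟩)
    rw [hsA, map_mul, map_pow]
    rfl
  · intro v hv _ D hD
    obtain ⟨w, e, I, hwv, hcard, hI⟩ := exists_inertia G v
    have he0 : 0 < e := hwv.1
    have hVreg : ∀ l (g : G), Ge w 0 ((g : L ≃ₐ[k] L) (V D l)) := by
      intro l g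
      rw [← ge_comp]
      have hov := over_comp hwv (g : L ≃ₐ[k] L) (fun z => z.2 g)
      have hdv := divisorial_up hov hv
      have hin : 2 ≤ e → ∃ h ∈ G, h ≠ 1 ∧ orderOf h = e ∧
          Inert (w.comp (g : L ≃ₐ[k] L)) h := by
        intro he2
        obtain ⟨h, hh, hord, -⟩ := exists_generator w I hI
        have hord' : orderOf ((g : L ≃ₐ[k] L)⁻¹ * (h : L ≃ₐ[k] L) * (g : L ≃ₐ[k] L)) = e := by
          have h3 := orderOf_injective (MulAut.conj (g : L ≃ₐ[k] L)⁻¹).toMonoidHom
            (MulAut.conj (g : L ≃ₐ[k] L)⁻¹).injective (h : L ≃ₐ[k] L)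
          rw [← hcard, ← hord, ← h3]
          congr 1
        refine ⟨(g : L ≃ₐ[k] L)⁻¹ * (h : L ≃ₐ[k] L) * (g : L ≃ₐ[k] L),
          G.mul_mem (G.mul_mem (G.inv_mem g.2) h.2) g.2, ?_, hord', ?_⟩
        · intro h1
          rw [h1, orderOf_one] at hord'
          omega
        · intro z hz
          rw [ge_comp] at hz ⊢
          have h1 := hI h hh _ hz
          have h2 : (g : L ≃ₐ[k] L) (((g : L ≃ₐ[k] L)⁻¹ * (h : L ≃ₐ[k] L) * (g : L ≃ₐ[k] L)) z - z)
              = (h : L ≃ₐ[k] L) ((g : L ≃ₐ[k] L) z) - (g : L ≃ₐ[k] L) z := by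
            rw [map_sub]
            congr 1
            change (g : L ≃ₐ[k] L) ((g : L ≃ₐ[k] L).symm _) = _
            rw [AlgEquiv.apply_symm_apply]
            rfl
          rw [h2]
          exact h1
      exact hloc v hv _ e hov hin D (fun j => ext (D j)) hD (fun j f => hext _ f) l
    -- elementary symmetric functions
    have h2 : Ge w 0 (s D l) := ge_pow0 (ge_esy _ (fun g => hVreg (t l) g) _) _
    apply Pool.Agent.W721.PG.EFF2.dom_of_reg
    rw [← hwv.reg]
    exact h2
  · intro v _ hv
    exact hv.elim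
  · exact pow_ne_zero _ (hs0 l) (congrArg Subtype.val h0)
  · have hsi' : AlgebraicIndependent k fun l : Fin A =>
        ((⟨s E l.succ, fun g => hsG E l.succ g⟩ / ⟨s E 0, fun g => hsG E 0 g⟩ :
          fixedField G) : L) := hsi
    exact (AlgHom.algebraicIndependent_iff (fixedField G).val (Subtype.val_injective)).1 hsi'

end

end Pool.Agent.H908.SB
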