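import Pool.Agent.H908.SB1
import Pool.Graph.R_pool_sql_team_seeded_efc1946e.K1H6.PQ.Fin

/-! Products of pluricanonical forms on the factors of a product: local estimates. -/

set_option autoImplicit false
set_option linter.overlappingInstances false
set_option linter.unusedSectionVars false
set_option linter.unusedVariables false

open FF IntermediateField Pool.Agent.W619.PQ Pool.Agent.W619.PL Pool.Agent.W619.TW
  Pool.Agent.W603.LV Pool.Agent.W619.Y Pool.Agent.W672.PG Pool.Agent.W824.PG Pool.Agent.Y174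
  Pool.Agent.K1H17.IS Pool.Agent.K1H6.PQ

namespace Pool.Agent.H908.SB

section

variable {k : Type} {K : Type} [Field k] [CharZero k] [Field K] [Algebra k K]

/-- The pluricanonical form `f (dy) ^ μ`. -/
def PF {a : ℕ} (y : Fin a → K) (μ : ℕ) (f : K) (D : Fin a → Derivation k K K) : K :=
  (Matrix.of fun p q => D p (y q)).det ^ μ * f

theorem pf_pluri {a : ℕ} (y : Fin a → K) (μ : ℕ) (f : K) : IsPluriForm k K a μ (PF y μ f) := by
  intro A D
  have e : (Matrix.of fun p q => (∑ j, A p j • D j) (y q)) = A * Matrix.of fun p q => D p (y q) := by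
    ext p q
    rw [Matrix.of_apply, Matrix.mul_apply, Pool.Agent.W73.PG.PULL.sum_app]
    rfl
  change (Matrix.of fun p q => (∑ j, A p j • D j) (y q)).det ^ μ * f = A.det ^ μ *
    ((Matrix.of fun p q => D p (y q)).det ^ μ * f)
  rw [e, Matrix.det_mul, mul_pow, mul_assoc]

theorem pf_eval {a : ℕ} {y : Fin a → K} {E : Fin a → Derivation k K K}
    (hE : ∀ p q, E p (y q) = if p = q then 1 else 0) (μ : ℕ) (f : K) : PF y μ f E = f := by
  have h1 : (Matrix.of fun p q => E p (y q)) = 1 := by
    ext p q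
    rw [Matrix.of_apply, Matrix.one_apply, hE]
  unfold PF
  rw [h1, Matrix.det_one, one_pow, one_mul]

/-- `f (dy) ^ μ` is regular. -/
def RegF {a : ℕ} (y : Fin a → K) (μ : ℕ) (f : K) : Prop :=
  ∀ u : Place k K, IsDivisorial u a → RegularAt u a (PF (k := k) y μ f)

theorem RegF.mul {a : ℕ} {y : Fin a → K} {μ ν : ℕ} {f g : K} (h1 : RegF (k := k) y μ f)
    (h2 : RegF (k := k) y ν g) : RegF (k := k) y (μ + ν) (f * g) := by
  intro u hu D hD
  have h3 : Ge u 0 (PF y μ f D) := h1 u hu D hD
  have h4 : Ge u 0 (PF y ν g D) := h2 u hu D hD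
  have h5 : PF y (μ + ν) (f * g) D = PF y μ f D * PF y ν g D := by
    unfold PF
    ring
  change Ge u 0 _
  rw [h5]
  simpa using h3.mul h4

theorem RegF.one {a : ℕ} {y : Fin a → K} : RegF (k := k) y 0 1 := by
  intro u _ D _
  unfold PF
  rw [pow_zero, one_mul]
  exact u.reg_one

theorem RegF.prod {a : ℕ} {y : Fin a → K} {ι : Type} (s : Finset ι) {f : ι → K}
    (h : ∀ i ∈ s, RegF (k := k) y 1 (f i)) : RegF (k := k) y s.card (∏ i ∈ s, f i) := by
  classical
  induction s using Finset.induction_on with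
  | empty => rw [Finset.card_empty, Finset.prod_empty]; exact RegF.one
  | insert j s hj ih =>
    rw [Finset.card_insert_of_notMem hj, Finset.prod_insert hj, add_comm]
    exact (h j (Finset.mem_insert_self _ _)).mul (ih fun i hi => h i (Finset.mem_insert_of_mem hi))

theorem RegF.pow {a : ℕ} {y : Fin a → K} {μ : ℕ} {f : K} (h : RegF (k := k) y μ f) (N : ℕ) :
    RegF (k := k) y (μ * N) (f ^ N) := by
  induction N with
  | zero => rw [mul_zero, pow_zero]; exact RegF.one
  | succ N ih => rw [pow_succ, mul_add, mul_one]; exact ih.mul h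

end

section

variable {k : Type} {L : Type} [Field k] [CharZero k] [Field L] [Algebra k L]

/-- The value of a regular form on the lifts of regular vector fields. -/
theorem ge_lift {K : IntermediateField k L} [FiniteDimensional K L] {n m : ℕ}
    (hn : Algebra.trdeg k L = n) (hess : Algebra.EssFiniteType k L)
    (hnK : Algebra.trdeg k K = n) (hessK : Algebra.EssFiniteType k K) {w : Place k L}
    {v : Place k K} {e : ℕ} (hwv : Over w v e) (hv : IsDivisorial v n)
    (s : (Fin n → Derivation k L L) → L) (hs : IsPluriForm k L n m s) {c : ℝ}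
    (hr : ∀ D : Fin n → Derivation k L L, (∀ j, Pres w (D j)) → GeR w c (s D))
    (D : Fin n → Derivation k K K) (hD : ∀ j, Pres v (D j)) (D' : Fin n → Derivation k L L)
    (hD' : ∀ j f, D' j (algebraMap K L f) = algebraMap K L (D j f)) :
    GeR w (m * (1 - e) + c) (s D') := by
  choose ext hext hext2 hext3 using Pool.Agent.Y174.pEXT k K L n hnK
  have h1 := ge_formR hn hess hnK hessK hwv hv s hs hr ext hext hext2 D hD
  have h2 : D' = fun j => ext (D j) := funext fun j => hext2 _ _ (hD' j)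
  rw [h2]
  exact h1

/-- Good coordinates for regular forms. -/
theorem good_frame {w : Place k L} {N : ℕ} (hw : IsDivisorial w N) (hn : Algebra.trdeg k L = N)
    (M : IntermediateField k L) {a : ℕ} (ha : Algebra.trdeg k M = a)
    (hess : Algebra.EssFiniteType k M) :
    ∃ (X : Fin a → M) (E : Fin a → Derivation k M M), IsTranscendenceBasis k X ∧
      (∀ p q, E p (X q) = if p = q then 1 else 0) ∧ (∀ q, Ge w 0 (X q : L)) ∧
      ∀ s : (Fin a → Derivation k M M) → M,
        (∀ u : Place k M, IsDivisorial u a → RegularAt u a s) → Ge w 0 (s E : L) := by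
  classical
  by_cases hT : ∃ f : M, w.ord (algebraMap M L f) ≠ 0
  · obtain ⟨c, u, hu⟩ := exists_over (K := M) w hT
    have hdiv : IsDivisorial u a := Pool.Agent.Y174.pDIVR k M L a N u w c ha hn hu hw
    obtain ⟨y, F, i0, hy, hF, ht, hyr, hpres⟩ := Pool.Agent.Y174.pFRAME k M a ha
      (fun y hy => fin_adj hess y hy) u hdiv
    refine ⟨y, F, hy, hF, fun q => hu.reg.2 (hyr q), fun s hs => ?_⟩
    exact hu.reg.2 (hs u hdiv F hpres)
  · push Not at hT
    obtain ⟨X, hX⟩ := Pool.Agent.W636.PG.exists_basis k M a ha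
    obtain ⟨E, hE⟩ := Pool.Agent.W636.PG.exists_duals k M a X hX
    have h0 : ∀ f : M, w.ord (f : L) = 0 := hT
    exact ⟨X, E, hX, hE, fun q => Or.inr (h0 _).ge, fun s _ => Or.inr (h0 _).ge⟩

end

section

variable {k : Type} {L : Type} [Field k] [CharZero k] [IsAlgClosed k] [Field L] [Algebra k L]

/-- The logarithmic order of a regular form along an inert place. -/
theorem wlog_reg (M : IntermediateField k L) {a : ℕ} (hM : Algebra.trdeg k M = a)
    (hessM : Algebra.EssFiniteType k M) {N : ℕ} {w : Place k L} (hn : Algebra.trdeg k L = N)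
    (hw : IsDivisorial w N) {g : L ≃ₐ[k] L} (hgM : ∀ z ∈ M, g z ∈ M) (hfin : IsOfFinOrder g)
    (hI : Inert w g) {μ : ℕ} {y : Fin a → M} {f : M} (hf : RegF (k := k) y μ f) :
    WLog w M a (PF y μ f) (μ * (orderOf g * wgt M g 0)) := by
  refine ⟨fun u c hu => ?_, fun h0 => ?_⟩
  · have hdiv : IsDivisorial u a := Pool.Agent.Y174.pDIVR k M L a N u w c hM hn hu hw
    have h1 : LogGe a u (PF (k := k) y μ f) (μ + 0) := by
      refine logGe_of_reg hM hessM hdiv _ (pf_pluri y μ f) fun D hD => ?_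
      have h3 : Ge u 0 (PF y μ f D) := hf u hdiv D hD
      simpa using Ge.toR h3
    refine h1.mono ?_
    have hc1 : 0 < c := hu.1
    have hc : (0 : ℝ) < c := by exact_mod_cast hc1
    have hidx := index_ge M hI hfin hu
    rw [div_le_iff₀ hc, add_zero]
    exact mul_le_mul_of_nonneg_left hidx (Nat.cast_nonneg μ)
  · rw [triv_of_place M hI hgM h0]
    simp

variable {r : ℕ} {M : Fin r → IntermediateField k L} {a : Fin r → ℕ}
  {G : Subgroup (L ≃ₐ[k] L)} {σ : G →* Equiv.Perm (Fin r)}

/-- The order of a product of regular forms along an inert place. -/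
theorem prod_ram [Finite G] (h : IsPermuted M a G σ) {w : Place k L}
    (hw : IsDivisorial w (∑ i, a i)) (g : G) (hI : Inert w (g : L ≃ₐ[k] L)) {μ : ℕ}
    {y : ∀ i, Fin (a i) → M i} (hy : ∀ i, IsTranscendenceBasis k (y i)) {f : ∀ i, M i}
    (hf : ∀ i, RegF (k := k) (y i) μ (f i))
    (D : (Σ i, Fin (a i)) → Derivation k L L) (hD : ∀ j, Pres w (D j))
    (hlD : ∀ j z, w.Reg (D j z / z)) :
    GeR w (μ * (orderOf (g : L ≃ₐ[k] L) * age M a (σ g) (fun _ _ => 0) (g : L ≃ₐ[k] L)))
      ((Matrix.of fun i j : (Σ i, Fin (a i)) => D i (y j.1 j.2 : L)).det ^ μ *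
        ∏ i, ((f i : M i) : L)) := by
  classical
  have halg : Algebra.IsAlgebraic ↥(⨆ i, M i) L := by
    rw [h.sup]
    exact ⟨fun z => isAlgebraic_algebraMap (⟨z, trivial⟩ : (⊤ : IntermediateField k L))⟩
  choose E hE using fun i => Pool.Agent.W636.PG.exists_duals k (M i) (a i) (y i) (hy i)
  have hfin : IsOfFinOrder (g : L ≃ₐ[k] L) := by
    have h3 : IsOfFinOrder g := isOfFinOrder_of_finite _
    exact (Submonoid.isOfFinOrder_coe (H := G.toSubmonoid) (x := g)).2 h3
  set e := orderOf (g : L ≃ₐ[k] L) with he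
  set π : Equiv.Perm (Fin r) := σ g with hπ
  have hge : g ^ e = 1 := by
    apply Subtype.ext
    have : ((g ^ e : G) : L ≃ₐ[k] L) = (g : L ≃ₐ[k] L) ^ e := rfl
    rw [this, he, pow_orderOf_eq_one]
    rfl
  have hπe : π ^ e = 1 := by rw [hπ, ← map_pow, hge, map_one]
  let l : Fin r → ℕ := fun i => Function.minimalPeriod π i
  have hl0 : ∀ i, 0 < l i := fun i => mp_pos π i
  have hordl : ∀ i, (orderOf ((g : L ≃ₐ[k] L) ^ l i) : ℝ) = e * (1 / (l i : ℝ)) := by
    intro i
    have h2 : orderOf ((g : L ≃ₐ[k] L) ^ l i) = e / l i :=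
      orderOf_pow_of_dvd (hl0 i).ne' (mp_dvd π i hπe)
    have h3 : e = e / l i * l i := (Nat.div_mul_cancel (mp_dvd π i hπe)).symm
    have h4 : (l i : ℝ) ≠ 0 := by exact_mod_cast (hl0 i).ne'
    rw [h2, mul_one_div, eq_div_iff h4]
    exact_mod_cast h3.symm
  have hst : ∀ i, ∀ z ∈ M i, ((g : L ≃ₐ[k] L) ^ l i) z ∈ M i := by
    intro i z hz
    have h1 := h.perm (g ^ l i) i z hz
    rw [map_pow] at h1
    rwa [show (σ g ^ l i) i = i from pow_mp π i] at h1
  have h3 := ram M halg h.total h.trdeg h.ess σ h.perm hw g hI (μ := μ) y hy E hE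
    (fun i => PF (y i) μ (f i)) (fun i => pf_pluri _ _ _) _
    (fun i => wlog_reg (M i) (h.trdeg i) (h.ess i) h.total hw (hst i) hfin.pow (inert_pow hI _)
      (hf i)) D hD hlD
  have h5 : ∀ i, PF (y i) μ (f i) (E i) = f i := fun i => pf_eval (hE i) μ (f i)
  simp only [h5] at h3
  refine h3.mono ?_
  apply le_of_eq
  rw [age_eq]
  simp only [hordl]
  rw [mul_add, mul_add, Finset.mul_sum, Finset.mul_sum, add_comm]
  congr 1
  refine Finset.sum_congr rfl fun i _ => ?_
  ring

/-- The product of regular forms is regular. -/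
theorem prod_reg (h : IsPermuted M a G σ) {w : Place k L}
    (hw : IsDivisorial w (∑ i, a i)) {μ : ℕ}
    {y : ∀ i, Fin (a i) → M i} (hy : ∀ i, IsTranscendenceBasis k (y i)) {f : ∀ i, M i}
    (hf : ∀ i, RegF (k := k) (y i) μ (f i))
    (D : (Σ i, Fin (a i)) → Derivation k L L) (hD : ∀ j, Pres w (D j)) :
    Ge w 0 ((Matrix.of fun i j : (Σ i, Fin (a i)) => D i (y j.1 j.2 : L)).det ^ μ *
        ∏ i, ((f i : M i) : L)) := by
  classical
  choose E hE using fun i => Pool.Agent.W636.PG.exists_duals k (M i) (a i) (y i) (hy i)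
  have hYL := Pool.Agent.W308.PG.YLOC.main Pool.Agent.Y174.pFRAME Pool.Agent.Y174.pDIVR
  have g1 : ∀ i, YGood (a i) μ w (fun p => (y i p : L)) ((f i : M i) : L) := fun i => by
    have h1 := hYL k L (M i) (a i) (∑ i, a i) μ (h.trdeg i) h.total
      (fun y hy => fin_adj (h.ess i) y hy) _ (pf_pluri (y i) μ (f i)) (hf i) (y i) (E i) (hy i)
      (hE i) w hw
    rwa [pf_eval (hE i)] at h1
  exact yg_sigma g1 D hD

end

end Pool.Agent.H908.SB
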