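import Pool.Agent.H908.SB2

/-! Antisymmetric pluricanonical forms on products: the order at the divisors where two curves are
exchanged, and at the other ramification divisors. -/

set_option autoImplicit false
set_option linter.overlappingInstances false
set_option linter.unusedSectionVars false
set_option linter.unusedVariables false

open FF IntermediateField Pool.Agent.W619.PQ Pool.Agent.W619.PL Pool.Agent.W619.TW
  Pool.Agent.W603.LV Pool.Agent.W619.Y Pool.Agent.W672.PG Pool.Agent.W824.PG Pool.Agent.Y174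
  Pool.Agent.K1H17.IS Pool.Agent.K1H6.PQ

namespace Pool.Agent.H908.SB

/-- the factors which are curves -/
abbrev Cur {r : ℕ} (a : Fin r → ℕ) : Type := {i : Fin r // a i = 1}

section

variable {k : Type} {L : Type} [Field k] [CharZero k] [Field L] [Algebra k L]
variable {r : ℕ} {M : Fin r → IntermediateField k L} {a : Fin r → ℕ}

/-- Change of coordinates on the factors. -/
theorem det_change (y X : ∀ i, Fin (a i) → M i) (hX : ∀ i, IsTranscendenceBasis k (X i))
    (E' : ∀ i, Fin (a i) → Derivation k (M i) (M i))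
    (hE' : ∀ i p q, E' i p (X i q) = if p = q then 1 else 0)
    (D : (Σ i, Fin (a i)) → Derivation k L L) :
    (Matrix.of fun i j : (Σ i, Fin (a i)) => D i (y j.1 j.2 : L)).det =
      (Matrix.of fun i j : (Σ i, Fin (a i)) => D i (X j.1 j.2 : L)).det *
        ∏ i, (((Matrix.of fun p q => E' i p (y i q)).det : M i) : L) := by
  classical
  let A : ∀ i, Matrix (Fin (a i)) (Fin (a i)) L := fun i =>
    Matrix.of fun p q => ((E' i q (y i p) : M i) : L)
  let P : Matrix (Σ i, Fin (a i)) (Σ i, Fin (a i)) L := Matrix.of fun i j => D i (X j.1 j.2 : L)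
  have hmat : (Matrix.of fun i j : (Σ i, Fin (a i)) => D i (y j.1 j.2 : L)) =
      P * (Matrix.blockDiagonal' A).transpose := by
    ext i ⟨b1, b2⟩
    rw [Matrix.of_apply, Matrix.mul_apply]
    refine (Pool.Agent.W308.PG.YLOC.expand (X b1) (E' b1) (hX b1) (hE' b1) (D i)
      (y b1 b2)).trans ?_
    rw [Fintype.sum_sigma, Finset.sum_eq_single b1]
    · refine Finset.sum_congr rfl fun q _ => ?_
      rw [Matrix.transpose_apply, Matrix.blockDiagonal'_apply_eq, mul_comm]
      rfl
    · intro l _ hl'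
      refine Finset.sum_eq_zero fun q _ => ?_
      rw [Matrix.transpose_apply, Matrix.blockDiagonal'_apply_ne A _ _ (Ne.symm hl'), mul_zero]
    · intro h
      exact absurd (Finset.mem_univ b1) h
  have hA : ∀ i, (A i).det = (((Matrix.of fun p q => E' i p (y i q)).det : M i) : L) := by
    intro i
    have h1 : (A i) = ((algebraMap (M i) L).mapMatrix
        (Matrix.of fun p q => E' i p (y i q))).transpose := by
      ext p q
      rfl
    rw [h1, Matrix.det_transpose, ← RingHom.map_det]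
    rfl
  rw [hmat, Matrix.det_mul, Matrix.det_transpose, det_blk']
  simp only [hA]
  rfl

/-- The form `(det C) ^ μ ∏ f i (dy) ^ μ`. -/
noncomputable def SF (y : ∀ i, Fin (a i) → M i) (μ : ℕ) (C : ∀ i : Cur a, Cur a → M i.1)
    (f : ∀ i, M i) (D : (Σ i, Fin (a i)) → Derivation k L L) : L :=
  (Matrix.of fun i j : (Σ i, Fin (a i)) => D i (y j.1 j.2 : L)).det ^ μ *
    ((Matrix.of fun i c : Cur a => (C i c : L)).det ^ μ * ∏ i, (f i : L))

/-- Expansion of the determinant. -/
theorem det_expand (C : ∀ i : Cur a, Cur a → M i.1) :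
    (Matrix.of fun i c : Cur a => (C i c : L)).det =
      ∑ π : Equiv.Perm (Cur a), ((Equiv.Perm.sign π : ℤ) : L) * ∏ i : Cur a, (C i (π i) : L) := by
  rw [← Matrix.det_transpose, Matrix.det_apply']
  rfl

/-- the coefficients -/
noncomputable def cf {μ : ℕ} (C : ∀ i : Cur a, Cur a → M i.1) (f : ∀ i, M i)
    (p : Fin μ → Equiv.Perm (Cur a)) (i : Fin r) : M i :=
  if h : a i = 1 then ∏ t, C ⟨i, h⟩ (p t ⟨i, h⟩) else f i

theorem sf_expand (y : ∀ i, Fin (a i) → M i) (μ : ℕ) (C : ∀ i : Cur a, Cur a → M i.1)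
    (f : ∀ i, M i) (hf1 : ∀ i, a i = 1 → f i = 1) (D : (Σ i, Fin (a i)) → Derivation k L L) :
    SF y μ C f D = ∑ p : Fin μ → Equiv.Perm (Cur a), (∏ t, ((Equiv.Perm.sign (p t) : ℤ) : L)) *
      ((Matrix.of fun i j : (Σ i, Fin (a i)) => D i (y j.1 j.2 : L)).det ^ μ *
        ∏ i, ((cf C f p i : M i) : L)) := by
  classical
  have h1 : ∀ p : Fin μ → Equiv.Perm (Cur a), ∏ i, ((cf C f p i : M i) : L) =
      (∏ t, ∏ i : Cur a, (C i (p t i) : L)) * ∏ i, (f i : L) := by
    intro p
    rw [← Fintype.prod_subtype_mul_prod_subtype (fun i : Fin r => a i = 1)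
      (fun i => ((cf C f p i : M i) : L)),
      ← Fintype.prod_subtype_mul_prod_subtype (fun i : Fin r => a i = 1)
      (fun i => ((f i : M i) : L))]
    have h2 : ∏ i : {i : Fin r // a i = 1}, ((f i : M i) : L) = 1 := by
      refine Finset.prod_eq_one fun i _ => ?_
      rw [hf1 i i.2]
      rfl
    have h3 : ∏ i : {i : Fin r // ¬ a i = 1}, ((cf C f p i : M i) : L) =
        ∏ i : {i : Fin r // ¬ a i = 1}, ((f i : M i) : L) := by
      refine Finset.prod_congr rfl fun i _ => ?_
      unfold cf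
      rw [dif_neg i.2]
    have h4 : ∏ i : {i : Fin r // a i = 1}, ((cf C f p i : M i) : L) =
        ∏ t, ∏ i : Cur a, (C i (p t i) : L) := by
      rw [Finset.prod_comm]
      refine Finset.prod_congr rfl fun i _ => ?_
      unfold cf
      rw [dif_pos i.2]
      change algebraMap (M i.1) L (∏ t, C ⟨i.1, i.2⟩ (p t ⟨i.1, i.2⟩)) = _
      rw [map_prod]
      rfl
    rw [h2, h3, h4, one_mul]
  unfold SF
  rw [det_expand, Fintype.sum_pow, Finset.sum_mul, Finset.mul_sum]
  refine Finset.sum_congr rfl fun p _ => ?_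
  rw [h1, Finset.prod_mul_distrib]
  ring

theorem cf_reg {μ : ℕ} {y : ∀ i, Fin (a i) → M i} {C : ∀ i : Cur a, Cur a → M i.1}
    (hC : ∀ i c, RegF (k := k) (y i.1) 1 (C i c)) {f : ∀ i, M i}
    (hf : ∀ i, a i ≠ 1 → RegF (k := k) (y i) μ (f i))
    (p : Fin μ → Equiv.Perm (Cur a)) (i : Fin r) : RegF (k := k) (y i) μ (cf C f p i) := by
  unfold cf
  split_ifs with h
  · have h1 := RegF.prod (k := k) (y := y i) (Finset.univ : Finset (Fin μ))
      (f := fun t => C ⟨i, h⟩ (p t ⟨i, h⟩)) fun t _ => hC ⟨i, h⟩ _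
    rwa [Finset.card_univ, Fintype.card_fin] at h1
  · exact hf i h

theorem ge_sign (w : Place k L) {ι : Type} [Fintype ι] (p : ι → ℤˣ) :
    Ge w 0 (∏ t, ((p t : ℤ) : L)) := by
  classical
  have h1 : ∀ s : Finset ι, Ge w 0 (∏ t ∈ s, ((p t : ℤ) : L)) := by
    intro s
    induction s using Finset.induction_on with
    | empty => rw [Finset.prod_empty]; exact Ge.one
    | insert t s ht ih =>
      rw [Finset.prod_insert ht]
      have h2 : Ge w 0 ((p t : ℤ) : L) := by
        have h3 := Ge.const (P := w) (((p t : ℤ) : k))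
        rwa [map_intCast] at h3
      simpa using h2.mul ih
  exact h1 Finset.univ

end

section

variable {k : Type} {L : Type} [Field k] [CharZero k] [IsAlgClosed k] [Field L] [Algebra k L]
variable {r : ℕ} {M : Fin r → IntermediateField k L} {a : Fin r → ℕ}
  {G : Subgroup (L ≃ₐ[k] L)} {σ : G →* Equiv.Perm (Fin r)}

/-- The order at the ramification divisors of elements of age at least one. -/
theorem sf_ram [Finite G] (h : IsPermuted M a G σ) {w : Place k L}
    (hw : IsDivisorial w (∑ i, a i)) (g : G) (hI : Inert w (g : L ≃ₐ[k] L))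
    (hage : 1 ≤ age M a (σ g) (fun _ _ => 0) (g : L ≃ₐ[k] L)) {μ : ℕ}
    {y : ∀ i, Fin (a i) → M i} (hy : ∀ i, IsTranscendenceBasis k (y i))
    {C : ∀ i : Cur a, Cur a → M i.1} (hC : ∀ i c, RegF (k := k) (y i.1) 1 (C i c))
    {f : ∀ i, M i} (hf1 : ∀ i, a i = 1 → f i = 1)
    (hf : ∀ i, a i ≠ 1 → RegF (k := k) (y i) μ (f i))
    (D : (Σ i, Fin (a i)) → Derivation k L L) (hD : ∀ j, Pres w (D j))
    (hlD : ∀ j z, w.Reg (D j z / z)) :
    GeR w (μ * orderOf (g : L ≃ₐ[k] L)) (SF y μ C f D) := by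
  rw [sf_expand y μ C f hf1 D]
  refine GeR.sum _ _ _ fun p _ => ?_
  have h1 := prod_ram h hw g hI hy (μ := μ) (fun i => cf_reg hC hf p i) D hD hlD
  have h2 := (Ge.toR (ge_sign w fun t => Equiv.Perm.sign (p t))).mul h1
  refine h2.mono ?_
  have h3 : (0 : ℝ) ≤ (μ : ℝ) * orderOf (g : L ≃ₐ[k] L) := by positivity
  have h4 := mul_le_mul_of_nonneg_left hage h3
  push_cast
  rw [zero_add, ← mul_assoc]
  linarith

/-- The order at the places which are not ramified. -/
theorem sf_reg (h : IsPermuted M a G σ) {w : Place k L}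
    (hw : IsDivisorial w (∑ i, a i)) {μ : ℕ}
    {y : ∀ i, Fin (a i) → M i} (hy : ∀ i, IsTranscendenceBasis k (y i))
    {C : ∀ i : Cur a, Cur a → M i.1} (hC : ∀ i c, RegF (k := k) (y i.1) 1 (C i c))
    {f : ∀ i, M i} (hf1 : ∀ i, a i = 1 → f i = 1)
    (hf : ∀ i, a i ≠ 1 → RegF (k := k) (y i) μ (f i))
    (D : (Σ i, Fin (a i)) → Derivation k L L) (hD : ∀ j, Pres w (D j)) :
    Ge w 0 (SF y μ C f D) := by
  have h0 : GeR w ((0 : ℤ) : ℝ) (SF y μ C f D) := by
    rw [sf_expand y μ C f hf1 D]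
    refine GeR.sum _ _ _ fun p _ => ?_
    have h1 := prod_reg h hw hy (μ := μ) (fun i => cf_reg hC hf p i) D hD
    have h2 := (ge_sign w fun t => Equiv.Perm.sign (p t)).mul h1
    rw [zero_add] at h2
    exact Ge.toR h2
  exact h0.toInt

end

end Pool.Agent.H908.SB
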