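import Pool.Agent.H908.SB3

/-! Antisymmetric pluricanonical forms on products: the order at the divisors where two curves are
exchanged. -/

set_option autoImplicit false
set_option linter.overlappingInstances false
set_option linter.unusedSectionVars false
set_option linter.unusedVariables false

open FF IntermediateField Pool.Agent.W619.PQ Pool.Agent.W619.PL Pool.Agent.W619.TW
  Pool.Agent.W603.LV Pool.Agent.W619.Y Pool.Agent.W672.PG Pool.Agent.W824.PG Pool.Agent.Y174
  Pool.Agent.K1H17.IS Pool.Agent.K1H6.PQ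

namespace Pool.Agent.H908.SB

section

variable {k : Type} {L : Type} [Field k] [CharZero k] [IsAlgClosed k] [Field L] [Algebra k L]
variable {r : ℕ} {M : Fin r → IntermediateField k L} {a : Fin r → ℕ}
  {G : Subgroup (L ≃ₐ[k] L)} {σ : G →* Equiv.Perm (Fin r)}

/-- The lifts of vector fields commute with the group. -/
theorem lift_comm [Finite G] {n : ℕ} (hn : Algebra.trdeg k L = n) (g : L ≃ₐ[k] L) (hg : g ∈ G)
    (D : Derivation k (fixedField G) (fixedField G)) (D' : Derivation k L L)
    (hD' : ∀ f, D' (algebraMap (fixedField G) L f) = algebraMap (fixedField G) L (D f)) (z : L) :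
    g (D' z) = D' (g z) := by
  have halgK := Pool.Agent.W721.PG.EFF2.alg_fixed G
  have hfin := fixed_finite G
  obtain ⟨hnK, z0, hz0⟩ := Pool.Agent.W721.PG.EFF2.exists_basis (fixedField G) n hn
  choose ext hext hext2 hext3 using Pool.Agent.Y174.pEXT k (fixedField G) L n hnK
  rw [hext2 D D' hD']
  exact hext3 D g (fun f => f.2 ⟨g, hg⟩) z

/-- **The order at the divisors where two curves are exchanged.** -/
theorem sf_trans [Finite G] (h : IsPermuted M a G σ) {v : Place k (fixedField G)}
    (hv : IsDivisorial v (∑ i, a i)) {w : Place k L} (hwv : Over w v 2)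
    (g : L ≃ₐ[k] L) (hgG : g ∈ G) (hord : orderOf g = 2) (hI : Inert w g) {i0 j0 : Fin r}
    (hij : i0 ≠ j0) (hi : a i0 = 1) (hj : a j0 = 1) {μ : ℕ}
    {y : ∀ i, Fin (a i) → M i} (hy : ∀ i, IsTranscendenceBasis k (y i))
    {C : ∀ i : Cur a, Cur a → M i.1} (hC : ∀ i c, RegF (k := k) (y i.1) 1 (C i c))
    {f : ∀ i, M i} (hf1 : ∀ i, a i = 1 → f i = 1)
    (hf : ∀ i, a i ≠ 1 → RegF (k := k) (y i) μ (f i))
    (hg1 : ∀ q q', g (y i0 q : L) = y j0 q') (hg2 : ∀ q q', g (y j0 q : L) = y i0 q')
    (hC1 : ∀ c, g (C ⟨i0, hi⟩ c : L) = C ⟨j0, hj⟩ c)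
    (hC2 : ∀ c, g (C ⟨j0, hj⟩ c : L) = C ⟨i0, hi⟩ c)
    (htr : ∀ l, l ≠ i0 → l ≠ j0 → ∀ z ∈ M l, g z = z)
    (τ : (Σ i, Fin (a i)) ≃ Fin (∑ i, a i))
    (D : Fin (∑ i, a i) → Derivation k (fixedField G) (fixedField G)) (hD : ∀ j, Pres v (D j))
    (D' : Fin (∑ i, a i) → Derivation k L L)
    (hD' : ∀ j f, D' j (algebraMap (fixedField G) L f) = algebraMap (fixedField G) L (D j f)) :
    Ge w 0 (SF y μ C f (fun i => D' (τ i))) := by
  classical
  obtain ⟨n, hn⟩ : ∃ n, n = ∑ i, a i := ⟨_, rfl⟩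
  have halgK := Pool.Agent.W721.PG.EFF2.alg_fixed G
  have hfin := fixed_finite G
  have hessL := h.essL
  obtain ⟨hnK, z0, hz0⟩ := Pool.Agent.W721.PG.EFF2.exists_basis (fixedField G) (∑ i, a i) h.total
  have hessK : Algebra.EssFiniteType k (fixedField G) := ess_down hessL z0 hz0
  have hw : IsDivisorial w (∑ i, a i) := divisorial_up hwv hv
  have hfing : IsOfFinOrder g := by
    rw [← orderOf_pos_iff, hord]
    exact two_pos
  -- the coordinates
  choose E hE using fun i => Pool.Agent.W636.PG.exists_duals k (M i) (a i) (y i) (hy i)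
  choose X0 E0 hX0 hE0 hX0r hE0r using fun i => good_frame hw h.total (M i) (h.trdeg i) (h.ess i)
  let X : ∀ i, Fin (a i) → M i := fun i => if a i = 1 then y i else X0 i
  let E' : ∀ i, Fin (a i) → Derivation k (M i) (M i) := fun i => if a i = 1 then E i else E0 i
  have hX1 : ∀ i, a i = 1 → X i = y i := fun i h1 => by simp only [X, if_pos h1]
  have hX2 : ∀ i, a i ≠ 1 → X i = X0 i := fun i h1 => by simp only [X, if_neg h1]
  have hE1 : ∀ i, a i = 1 → E' i = E i := fun i h1 => by simp only [E', if_pos h1]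
  have hE2 : ∀ i, a i ≠ 1 → E' i = E0 i := fun i h1 => by simp only [E', if_neg h1]
  have hX : ∀ i, IsTranscendenceBasis k (X i) := by
    intro i
    by_cases h1 : a i = 1
    · rw [hX1 i h1]; exact hy i
    · rw [hX2 i h1]; exact hX0 i
  have hE' : ∀ i p q, E' i p (X i q) = if p = q then 1 else 0 := by
    intro i
    by_cases h1 : a i = 1
    · rw [hX1 i h1, hE1 i h1]; exact hE i
    · rw [hX2 i h1, hE2 i h1]; exact hE0 i
  -- the weight one form
  let dC : L := (Matrix.of fun i c : Cur a => (C i c : L)).det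
  let η : (Fin (∑ i, a i) → Derivation k L L) → L := fun D =>
    (Matrix.of fun i j : (Σ i, Fin (a i)) => D (τ i) (X j.1 j.2 : L)).det ^ 1 * dC
  have hη : IsPluriForm k L (∑ i, a i) 1 η := pluri_sigma τ (fun j => (X j.1 j.2 : L)) 1 dC
  have hYL := Pool.Agent.W308.PG.YLOC.main Pool.Agent.Y174.pFRAME Pool.Agent.Y174.pDIVR
  let F : Equiv.Perm (Cur a) → ∀ i, M i := fun π i =>
    if h : a i = 1 then C ⟨i, h⟩ (π ⟨i, h⟩) else 1
  have hF : ∀ π, ∏ i, ((F π i : M i) : L) = ∏ i : Cur a, (C i (π i) : L) := by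
    intro π
    rw [← Fintype.prod_subtype_mul_prod_subtype (fun i : Fin r => a i = 1)
      (fun i => ((F π i : M i) : L))]
    have h3 : ∏ i : {i : Fin r // ¬ a i = 1}, ((F π i : M i) : L) = 1 := by
      refine Finset.prod_eq_one fun i _ => ?_
      simp only [F, dif_neg i.2]
      rfl
    have h4 : ∏ i : {i : Fin r // a i = 1}, ((F π i : M i) : L) =
        ∏ i : Cur a, (C i (π i) : L) := by
      refine Finset.prod_congr rfl fun i _ => ?_
      simp only [F, dif_pos i.2]
    rw [h3, h4, mul_one]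
  have hηreg : ∀ D : Fin (∑ i, a i) → Derivation k L L, (∀ j, Pres w (D j)) →
      GeR w ((0 : ℤ) : ℝ) (η D) := by
    intro D hD
    have h1 : η D = ∑ π : Equiv.Perm (Cur a), ((Equiv.Perm.sign π : ℤ) : L) *
        ((Matrix.of fun i j : (Σ i, Fin (a i)) => D (τ i) (X j.1 j.2 : L)).det ^ 1 *
          ∏ i, ((F π i : M i) : L)) := by
      change (Matrix.of fun i j : (Σ i, Fin (a i)) => D (τ i) (X j.1 j.2 : L)).det ^ 1 * dC = _
      simp only [dC]
      rw [det_expand, Finset.mul_sum]
      refine Finset.sum_congr rfl fun π _ => ?_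
      rw [hF]
      ring
    rw [h1]
    refine GeR.sum _ _ _ fun π _ => ?_
    have hY : ∀ i, YGood (a i) 1 w (fun p => (X i p : L)) ((F π i : M i) : L) := by
      intro i
      by_cases h2 : a i = 1
      · have h3 := hYL k L (M i) (a i) (∑ i, a i) 1 (h.trdeg i) h.total
          (fun y hy => fin_adj (h.ess i) y hy) _ (pf_pluri (y i) 1 (C ⟨i, h2⟩ (π ⟨i, h2⟩)))
          (hC ⟨i, h2⟩ _) (y i) (E i) (hy i) (hE i) w hw
        rw [pf_eval (hE i)] at h3
        rw [hX1 i h2]
        simp only [F, dif_pos h2]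
        exact h3
      · refine ⟨1, fun p => (X i p : L), fun c => ?_, fun D l => ?_, ?_⟩
        · rw [hX2 i h2]; exact hX0r i c
        · rw [Finset.sum_eq_single l]
          · rw [Matrix.one_apply_eq, one_mul]
          · intro b _ hb
            rw [Matrix.one_apply_ne (Ne.symm hb), zero_mul]
          · intro h; exact absurd (Finset.mem_univ l) h
        · simp only [F, dif_neg h2]
          rw [Matrix.det_one, one_pow, mul_one]
          exact Ge.one
    have h2 := yg_sigma hY (fun i => D (τ i)) (fun j => hD (τ j))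
    have h3 := (ge_sign w fun _ : Unit => Equiv.Perm.sign π).mul h2
    rw [zero_add, Finset.prod_const, Finset.card_univ, Fintype.card_unit, pow_one] at h3
    exact Ge.toR h3
  have hη1 : GeR w ((-1 : ℤ) : ℝ) (η D') := by
    have h1 := ge_lift h.total hessL hnK hessK hwv hv η hη hηreg D hD D' hD'
    refine h1.mono ?_
    push_cast
    norm_num
  have hη2 : Ge w (-1) (η D') := hη1.toInt
  -- invariance
  have hcomm : ∀ b z, g (D' b z) = D' b (g z) := fun b z =>
    lift_comm h.total g hgG (D b) (D' b) (hD' b) z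
  have hinv : g (η D') = η D' := by
    have hq0 : ∀ {l : Fin r}, a l = 1 → ∀ q q' : Fin (a l), q = q' := by
      intro l hl q q'
      apply Fin.ext
      have h1 := q.2
      have h2 := q'.2
      omega
    let qi : Fin (a i0) := ⟨0, by omega⟩
    let qj : Fin (a j0) := ⟨0, by omega⟩
    let s1 : Equiv.Perm (Σ i, Fin (a i)) := Equiv.swap ⟨i0, qi⟩ ⟨j0, qj⟩
    let s2 : Equiv.Perm (Cur a) := Equiv.swap ⟨i0, hi⟩ ⟨j0, hj⟩
    have hs1 : (⟨i0, qi⟩ : Σ i, Fin (a i)) ≠ ⟨j0, qj⟩ := fun h => hij (congrArg Sigma.fst h)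
    have hs2 : (⟨i0, hi⟩ : Cur a) ≠ ⟨j0, hj⟩ := fun h => hij (congrArg Subtype.val h)
    have hgX : ∀ b : (Σ i, Fin (a i)), g (X b.1 b.2 : L) = (X (s1 b).1 (s1 b).2 : L) := by
      rintro ⟨l, q⟩
      by_cases h1 : l = i0
      · subst h1
        have h2 : (⟨l, q⟩ : Σ i, Fin (a i)) = ⟨l, qi⟩ := by rw [hq0 hi q qi]
        have h3 : s1 ⟨l, q⟩ = ⟨j0, qj⟩ := by
          rw [h2]
          exact Equiv.swap_apply_left _ _
        rw [h3]
        change g (X l q : L) = (X j0 qj : L)
        rw [hX1 l hi, hX1 j0 hj]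
        exact hg1 q qj
      by_cases h1' : l = j0
      · subst h1'
        have h2 : (⟨l, q⟩ : Σ i, Fin (a i)) = ⟨l, qj⟩ := by rw [hq0 hj q qj]
        have h3 : s1 ⟨l, q⟩ = ⟨i0, qi⟩ := by
          rw [h2]
          exact Equiv.swap_apply_right _ _
        rw [h3]
        change g (X l q : L) = (X i0 qi : L)
        rw [hX1 l hj, hX1 i0 hi]
        exact hg2 q qi
      · have h3 : s1 ⟨l, q⟩ = ⟨l, q⟩ := Equiv.swap_apply_of_ne_of_ne
          (fun h => h1 (congrArg Sigma.fst h)) (fun h => h1' (congrArg Sigma.fst h))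
        rw [h3]
        exact htr l h1 h1' _ (X l q).2
    have hgC : ∀ (b : Cur a) c, g (C b c : L) = (C (s2 b) c : L) := by
      rintro ⟨l, hl⟩ c
      by_cases h1 : l = i0
      · subst h1
        have h3 : s2 ⟨l, hl⟩ = ⟨j0, hj⟩ := Equiv.swap_apply_left _ _
        rw [h3]
        exact hC1 c
      by_cases h1' : l = j0
      · subst h1'
        have h3 : s2 ⟨l, hl⟩ = ⟨i0, hi⟩ := Equiv.swap_apply_right _ _
        rw [h3]
        exact hC2 c
      · have h3 : s2 ⟨l, hl⟩ = ⟨l, hl⟩ := Equiv.swap_apply_of_ne_of_ne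
          (fun h => h1 (congrArg Subtype.val h)) (fun h => h1' (congrArg Subtype.val h))
        rw [h3]
        exact htr l h1 h1' _ (C ⟨l, hl⟩ c).2
    have e1 : g (Matrix.of fun i j : (Σ i, Fin (a i)) => D' (τ i) (X j.1 j.2 : L)).det =
        -(Matrix.of fun i j : (Σ i, Fin (a i)) => D' (τ i) (X j.1 j.2 : L)).det := by
      have h1 := AlgEquiv.map_det g
        (Matrix.of fun i j : (Σ i, Fin (a i)) => D' (τ i) (X j.1 j.2 : L))
      have h2 : (g.mapMatrix (Matrix.of fun i j : (Σ i, Fin (a i)) => D' (τ i) (X j.1 j.2 : L))) =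
          (Matrix.of fun i j : (Σ i, Fin (a i)) => D' (τ i) (X j.1 j.2 : L)).submatrix id s1 := by
        ext i j
        change g (D' (τ i) (X j.1 j.2 : L)) = D' (τ i) (X (s1 j).1 (s1 j).2 : L)
        rw [hcomm, hgX]
      rw [h1, h2, Matrix.det_permute', Equiv.Perm.sign_swap hs1]
      simp
    have e2 : g dC = -dC := by
      have h1 := AlgEquiv.map_det g (Matrix.of fun i c : Cur a => (C i c : L))
      have h2 : (g.mapMatrix (Matrix.of fun i c : Cur a => (C i c : L))) =
          (Matrix.of fun i c : Cur a => (C i c : L)).submatrix s2 id := by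
        ext i j
        change g (C i j : L) = (C (s2 i) j : L)
        rw [hgC]
      change g (Matrix.of fun i c : Cur a => (C i c : L)).det = _
      rw [h1, h2, Matrix.det_permute, Equiv.Perm.sign_swap hs2]
      simp [dC]
    change g ((Matrix.of fun i j : (Σ i, Fin (a i)) => D' (τ i) (X j.1 j.2 : L)).det ^ 1 * dC) =
      (Matrix.of fun i j : (Σ i, Fin (a i)) => D' (τ i) (X j.1 j.2 : L)).det ^ 1 * dC
    rw [map_mul, pow_one, e1, e2]
    ring
  have hη3 : Ge w 0 (η D') := by
    by_cases h0 : η D' = 0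
    · exact Or.inl h0
    right
    have h1 := hη2.resolve_left h0
    have h2 := dvd_ord hI hfing h0 hinv
    rw [hord] at h2
    obtain ⟨c, hc⟩ := h2
    push_cast at hc
    omega
  -- the form
  have hfinal : SF y μ C f (fun i => D' (τ i)) = (η D') ^ μ *
      ∏ i, (((Matrix.of fun p q => E' i p (y i q)).det ^ μ * f i : M i) : L) := by
    unfold SF
    rw [det_change y X hX E' hE']
    have e1 : ∀ i, ((((Matrix.of fun p q => E' i p (y i q)).det ^ μ * f i : M i) : L)) =
        (((Matrix.of fun p q => E' i p (y i q)).det : M i) : L) ^ μ * (f i : L) := by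
      intro i
      push_cast
      rfl
    simp only [e1]
    rw [Finset.prod_mul_distrib, Finset.prod_pow]
    change (_ * _) ^ μ * (dC ^ μ * _) = ((_ ^ 1) * dC) ^ μ * (_ * _)
    rw [pow_one]
    ring
  rw [hfinal]
  have hlast : Ge w 0 (∏ i, (((Matrix.of fun p q => E' i p (y i q)).det ^ μ * f i : M i) : L)) := by
    have h1 : ∀ s : Finset (Fin r), Ge w 0
        (∏ i ∈ s, (((Matrix.of fun p q => E' i p (y i q)).det ^ μ * f i : M i) : L)) := by
      intro s
      induction s using Finset.induction_on with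
      | empty => rw [Finset.prod_empty]; exact Ge.one
      | insert i s hi ih =>
        rw [Finset.prod_insert hi]
        have h2 : Ge w 0 (((Matrix.of fun p q => E' i p (y i q)).det ^ μ * f i : M i) : L) := by
          by_cases h3 : a i = 1
          · rw [hE1 i h3, hf1 i h3]
            have h4 : (Matrix.of fun p q => E i p (y i q)) = 1 := by
              ext p q
              rw [Matrix.of_apply, Matrix.one_apply, hE]
            rw [h4, Matrix.det_one, one_pow, mul_one]
            exact Ge.one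
          · rw [hE2 i h3]
            exact hE0r i (PF (y i) μ (f i)) (hf i h3)
        simpa using h2.mul ih
    exact h1 Finset.univ
  simpa using (hη3.pow μ).mul hlast

end

end Pool.Agent.H908.SB
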