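import Pool.Agent.H908.SB4

/-! Linear disjointness and generic determinants. -/

set_option autoImplicit false
set_option linter.overlappingInstances false
set_option linter.unusedSectionVars false
set_option linter.unusedVariables false

open FF IntermediateField Pool.Agent.W619.PQ Pool.Agent.W619.PL Pool.Agent.W619.TW
  Pool.Agent.W603.LV Pool.Agent.W619.Y Pool.Agent.W672.PG Pool.Agent.W824.PG Pool.Agent.Y174
  Pool.Agent.K1H17.IS Pool.Agent.K1H6.PQ

namespace Pool.Agent.H908.SB

section

variable {k F L : Type} [Field k] [Field F] [Field L] [Algebra k F] [Algebra k L]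

/-- **Generic determinants.** -/
theorem det_ne {n : ℕ} (φ : Fin n → (F →ₐ[k] L)) (N : Fin n → IntermediateField k L)
    (hN : ∀ i j, j < i → ∀ x, φ j x ∈ N i)
    (hLD : ∀ (i : Fin n) (m : ℕ) (β : Fin m → F), LinearIndependent k β →
      LinearIndependent (N i) (fun c => φ i (β c)))
    (f : Fin n → F) (hf : LinearIndependent k f) :
    (Matrix.of fun i j => φ i (f j)).det ≠ 0 := by
  induction n with
  | zero =>
    rw [Matrix.det_fin_zero]
    exact one_ne_zero
  | succ n ih =>
    have h1 := ih (fun i => φ i.castSucc) (fun i => N i.castSucc)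
      (fun i j hij x => hN _ _ (Fin.castSucc_lt_castSucc_iff.2 hij) x)
      (fun i m β hβ => hLD _ m β hβ) (fun i => f i.castSucc)
      (hf.comp _ (Fin.castSucc_injective n))
    intro h0
    rw [Matrix.det_succ_row _ (Fin.last n)] at h0
    -- the minors are in `N`
    let d : Fin (n + 1) → N (Fin.last n) := fun j =>
      (-1) ^ ((Fin.last n : ℕ) + (j : ℕ)) * (Matrix.of fun (i : Fin n) (l : Fin n) =>
        (⟨φ i.castSucc (f (j.succAbove l)), hN _ _ (Fin.castSucc_lt_last i) _⟩ :
          N (Fin.last n))).det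
    have hd : ∀ j, (d j : L) = (-1) ^ ((Fin.last n : ℕ) + (j : ℕ)) *
        ((Matrix.of fun i j => φ i (f j)).submatrix (Fin.last n).succAbove j.succAbove).det := by
      intro j
      change algebraMap (N (Fin.last n)) L ((-1) ^ ((Fin.last n : ℕ) + (j : ℕ)) *
        (Matrix.of _).det) = _
      rw [map_mul, map_pow, map_neg, map_one, RingHom.map_det]
      congr 2
      ext i l
      rw [Matrix.submatrix_apply, Fin.succAbove_last]
      rfl
    have h2 : ∑ j, d j • φ (Fin.last n) (f j) = 0 := by
      rw [← h0]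
      refine Finset.sum_congr rfl fun j _ => ?_
      rw [Algebra.smul_def]
      change (d j : L) * φ (Fin.last n) (f j) = _
      rw [hd, Matrix.of_apply]
      ring
    have h3 := Fintype.linearIndependent_iff.1 (hLD (Fin.last n) (n + 1) f hf) d h2 (Fin.last n)
    have h4 := hd (Fin.last n)
    rw [h3] at h4
    have h5 : ((-1 : L)) ^ ((Fin.last n : ℕ) + ((Fin.last n : Fin (n + 1)) : ℕ)) ≠ 0 :=
      pow_ne_zero _ (neg_ne_zero.2 one_ne_zero)
    have h6 := (mul_eq_zero.1 h4.symm).resolve_left h5
    apply h1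
    rw [← h6]
    congr 1
    ext i l
    rw [Matrix.submatrix_apply, Fin.succAbove_last]
    rfl

theorem det_ne' {S : Type} [Fintype S] [DecidableEq S] (φ : S → (F →ₐ[k] L))
    (N : S → IntermediateField k L) (hN : ∀ i j, j ≠ i → ∀ x, φ j x ∈ N i)
    (hLD : ∀ (i : S) (m : ℕ) (β : Fin m → F), LinearIndependent k β →
      LinearIndependent (N i) (fun c => φ i (β c)))
    (f : S → F) (hf : LinearIndependent k f) :
    (Matrix.of fun i j => φ i (f j)).det ≠ 0 := by
  obtain ⟨e⟩ : Nonempty (Fin (Fintype.card S) ≃ S) := ⟨(Fintype.equivFin S).symm⟩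
  have h1 := det_ne (fun i => φ (e i)) (fun i => N (e i))
    (fun i j hij x => hN _ _ (fun h => hij.ne (e.injective h)) x)
    (fun i m β hβ => hLD _ m β hβ) (fun i => f (e i)) (hf.comp _ e.injective)
  rw [← Matrix.det_submatrix_equiv_self e]
  exact h1

end

section

variable {k : Type} {L : Type} [Field k] [CharZero k] [IsAlgClosed k] [Field L] [Algebra k L]
variable {r : ℕ} {M : Fin r → IntermediateField k L} {a : Fin r → ℕ}
  {G : Subgroup (L ≃ₐ[k] L)} {σ : G →* Equiv.Perm (Fin r)}

/-- the compositum of the other factors -/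
def oth (M : Fin r → IntermediateField k L) (i : Fin r) : IntermediateField k L :=
  ⨆ j, if j = i then ⊥ else M j

theorem le_oth (M : Fin r → IntermediateField k L) {i j : Fin r} (hij : j ≠ i) :
    M j ≤ oth M i := by
  have h1 := le_iSup (fun j => if j = i then (⊥ : IntermediateField k L) else M j) j
  simp only [if_neg hij] at h1
  exact h1

theorem oth_trdeg (hM : ∀ i, Algebra.trdeg k (M i) = a i)
    (hn : Algebra.trdeg k L = (∑ i, a i : ℕ)) (hsup : (⨆ i, M i) = ⊤) (i : Fin r) :
    Algebra.trdeg k (oth M i) = (∑ j ∈ Finset.univ.erase i, a j : ℕ) ∧ oth M i ⊔ M i = ⊤ := by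
  classical
  obtain ⟨N, hN⟩ : ∃ N, N = oth M i := ⟨_, rfl⟩
  rw [← hN]
  have hsupN : N ⊔ M i = ⊤ := by
    rw [eq_top_iff, ← hsup]
    refine iSup_le fun j => ?_
    by_cases hj : j = i
    · rw [hj]; exact le_sup_right
    · rw [hN]; exact (le_oth M hj).trans le_sup_left
  refine ⟨?_, hsupN⟩
  let M1 : Fin r → IntermediateField k L := fun j => if j = i then ⊥ else M j
  have hM1N : ∀ j, M1 j ≤ N := fun j => by rw [hN]; exact le_iSup M1 j
  let a1 : Fin r → ℕ := fun j => if j = i then 0 else a j
  let M0 : Fin r → IntermediateField k N := fun j => restrict (hM1N j)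
  have hM1 : ∀ j, Algebra.trdeg k (M1 j) = a1 j := by
    intro j
    by_cases hj : j = i
    · have e1 : M1 j = ⊥ := by simp only [M1, if_pos hj]
      have e2 : a1 j = 0 := by simp only [a1, if_pos hj]
      rw [e1, e2, Nat.cast_zero, trdeg_eq_zero_iff]
      exact ⟨fun z => by
        obtain ⟨c, hc⟩ := IntermediateField.mem_bot.1 z.2
        have h1 : z = algebraMap k _ c := Subtype.ext hc.symm
        rw [h1]
        exact isAlgebraic_algebraMap c⟩
    · have e1 : M1 j = M j := by simp only [M1, if_neg hj]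
      have e2 : a1 j = a j := by simp only [a1, if_neg hj]
      rw [e1, e2]
      exact hM j
  have hM0 : ∀ j, Algebra.trdeg k (M0 j) = a1 j := fun j => by
    rw [← hM1]; exact (restrictAlgEquiv (hM1N j)).symm.trdeg_eq
  have hsup0 : (⨆ j, M0 j) = ⊤ := by
    apply lift_injective N
    rw [lift_top, IntermediateField.lift, IntermediateField.map_iSup]
    have e1 : (⨆ j, IntermediateField.map N.val (M0 j)) = ⨆ j, M1 j :=
      iSup_congr fun j => lift_restrict (hM1N j)
    rw [e1]
    exact hN.symm
  have hN1 : Algebra.trdeg k N ≤ (∑ j, a1 j : ℕ) := trdeg_le_iSup M0 hM0 hsup0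
  obtain ⟨c, hc⟩ : ∃ c : ℕ, Algebra.trdeg k N = c :=
    Cardinal.lt_aleph0.1 (hN1.trans_lt (Cardinal.natCast_lt_aleph0))
  have hL1 : Algebra.trdeg k L ≤ (c + a i : ℕ) := by
    have h1 := trdeg_le_iSup (a := ![c, a i]) ![N, M i] (fun i => by
      fin_cases i
      · exact hc
      · exact hM _) (by
      rw [← hsupN]
      apply le_antisymm
      · refine iSup_le fun i => ?_
        fin_cases i
        · exact le_sup_left
        · exact le_sup_right
      · exact sup_le (le_iSup (fun j => ![N, M i] j) 0)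
          (le_iSup (fun j => ![N, M i] j) 1))
    simpa using h1
  have hs1 : ∑ j, a1 j = ∑ j ∈ Finset.univ.erase i, a j := by
    rw [← Finset.sum_erase (f := a1) Finset.univ (a := i) (by simp [a1])]
    refine Finset.sum_congr rfl fun j hj => ?_
    simp only [a1, if_neg (Finset.ne_of_mem_erase hj)]
  have hs2 : ∑ j, a j = ∑ j ∈ Finset.univ.erase i, a j + a i :=
    (Finset.sum_erase_add _ _ (Finset.mem_univ i)).symm
  rw [hc] at hN1 ⊢
  rw [hn] at hL1
  have h5 : ∑ j, a j ≤ c + a i := by exact_mod_cast hL1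
  have h6 : c ≤ ∑ j, a1 j := by exact_mod_cast hN1
  have h7 : c = ∑ j ∈ Finset.univ.erase i, a j := by omega
  rw [h7]

/-- **Linear disjointness of a factor and the product of the other factors.** -/
theorem ld_oth (hM : ∀ i, Algebra.trdeg k (M i) = a i)
    (hn : Algebra.trdeg k L = (∑ i, a i : ℕ)) (hsup : (⨆ i, M i) = ⊤) (i : Fin r) {ι : Type}
    (β : ι → M i) (hβ : LinearIndependent k β) :
    LinearIndependent (oth M i) (fun c => (β c : L)) := by
  classical
  obtain ⟨h1, h2⟩ := oth_trdeg hM hn hsup i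
  have halg : Algebra.IsAlgebraic ↥(oth M i ⊔ M i) L := by
    rw [h2]
    exact ⟨fun z => isAlgebraic_algebraMap (⟨z, trivial⟩ : (⊤ : IntermediateField k L))⟩
  refine Pool.Agent.K1H17.IS.linDisj (oth M i) (M i) halg ?_ h1 (hM i) β hβ
  rw [hn]
  congr 1
  exact (Finset.sum_erase_add _ _ (Finset.mem_univ i)).symm

end

end Pool.Agent.H908.SB
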