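import Pool.Agent.H908.SB5

/-! Antisymmetric pluricanonical forms descend to the quotient. -/

set_option autoImplicit false
set_option linter.overlappingInstances false
set_option linter.unusedSectionVars false
set_option linter.unusedVariables false

open FF IntermediateField Pool.Agent.W619.PQ Pool.Agent.W619.PL Pool.Agent.W619.TW
  Pool.Agent.W603.LV Pool.Agent.W619.Y Pool.Agent.W672.PG Pool.Agent.W824.PG Pool.Agent.Y174
  Pool.Agent.K1H17.IS Pool.Agent.K1H6.PQ

namespace Pool.Agent.H908.SB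

/-- `g` exchanges the curves `i` and `j` and is trivial on the other factors. -/
def Tr {k L : Type} [Field k] [Field L] [Algebra k L] {r : ℕ} (M : Fin r → IntermediateField k L)
    (a : Fin r → ℕ) (g : L ≃ₐ[k] L) (i j : Fin r) : Prop :=
  i ≠ j ∧ a i = 1 ∧ a j = 1 ∧ (∀ z ∈ M i, g z ∈ M j) ∧ (∀ z ∈ M j, g z ∈ M i) ∧
    ∀ l, l ≠ i → l ≠ j → ∀ z ∈ M l, g z = z

section

variable {k : Type} {L : Type} [Field k] [CharZero k] [IsAlgClosed k] [Field L] [Algebra k L]
variable {r : ℕ} {M : Fin r → IntermediateField k L} {a : Fin r → ℕ}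
  {G : Subgroup (L ≃ₐ[k] L)} {σ : G →* Equiv.Perm (Fin r)}

theorem kod_form [Finite G] (h : IsPermuted M a G σ) {μ : ℕ} (hμ : 1 ≤ μ)
    {y : ∀ i, Fin (a i) → M i} (hy : ∀ i, IsTranscendenceBasis k (y i))
    {C : ∀ i : Cur a, Cur a → M i.1} (hC : ∀ i c, RegF (k := k) (y i.1) 1 (C i c))
    {f : ∀ i, M i} (hf1 : ∀ i, a i = 1 → f i = 1)
    (hf : ∀ i, a i ≠ 1 → RegF (k := k) (y i) μ (f i)) (hf0 : ∀ i, f i ≠ 0)
    (hdet : (Matrix.of fun i c : Cur a => (C i c : L)).det ≠ 0)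
    (hG : ∀ g : G, g ≠ 1 → (∃ w : Place k L, IsDivisorial w (∑ i, a i) ∧
      Inert w (g : L ≃ₐ[k] L)) → 1 ≤ age M a (σ g) (fun _ _ => 0) (g : L ≃ₐ[k] L) ∨
      (orderOf (g : L ≃ₐ[k] L) = 2 ∧ ∃ i j, ∃ (hi : a i = 1) (hj : a j = 1),
        Tr M a (g : L ≃ₐ[k] L) i j ∧
        (∀ q q', (g : L ≃ₐ[k] L) (y i q : L) = y j q') ∧
        (∀ q q', (g : L ≃ₐ[k] L) (y j q : L) = y i q') ∧
        (∀ c, (g : L ≃ₐ[k] L) (C ⟨i, hi⟩ c : L) = C ⟨j, hj⟩ c) ∧
        (∀ c, (g : L ≃ₐ[k] L) (C ⟨j, hj⟩ c : L) = C ⟨i, hi⟩ c))) :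
    KodTr k (fixedField G) (∑ i, a i) 0 := by
  classical
  obtain ⟨τ⟩ : Nonempty ((Σ i, Fin (a i)) ≃ Fin (∑ i, a i)) := ⟨finSigmaFinEquiv⟩
  have halg : Algebra.IsAlgebraic ↥(⨆ i, M i) L := by
    rw [h.sup]
    exact ⟨fun z => isAlgebraic_algebraMap (⟨z, trivial⟩ : (⊤ : IntermediateField k L))⟩
  have hbasis := basis_sigma (ι := fun i => Fin (a i)) M halg h.total
    (fun i => (Fintype.card_fin _).trans rfl) y hy
  set Y : (Σ i, Fin (a i)) → L := fun p => (y p.1 p.2 : L) with hY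
  have hbasis' : IsTranscendenceBasis k (Y ∘ τ.symm) :=
    (isTranscendenceBasis_equiv (R := k) (f := Y) τ.symm).2 hbasis
  obtain ⟨D0, hD0⟩ := Pool.Agent.W636.PG.exists_duals k L (∑ i, a i) (Y ∘ τ.symm) hbasis'
  have hdet1 : (Matrix.of fun i j => D0 (τ i) (Y j)).det = 1 := by
    have h1 : (Matrix.of fun i j => D0 (τ i) (Y j)) = 1 := by
      ext i j
      have h2 := hD0 (τ i) (τ j)
      rw [Function.comp_apply, τ.symm_apply_apply] at h2
      rw [Matrix.of_apply, Matrix.one_apply, h2]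
      simp only [τ.injective.eq_iff]
    rw [h1, Matrix.det_one]
  have halgK := Pool.Agent.W721.PG.EFF2.alg_fixed G
  have hfin := fixed_finite G
  have hessL := h.essL
  obtain ⟨hnK, z0, hz0⟩ := Pool.Agent.W721.PG.EFF2.exists_basis (fixedField G) (∑ i, a i) h.total
  have hessK : Algebra.EssFiniteType k (fixedField G) := ess_down hessL z0 hz0
  let c0 : L := (Matrix.of fun i c : Cur a => (C i c : L)).det ^ μ * ∏ i, (f i : L)
  let s : (Fin (∑ i, a i) → Derivation k L L) → L := fun D => SF y μ C f (fun i => D (τ i))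
  have hs : IsPluriForm k L (∑ i, a i) μ s := pluri_sigma τ Y μ c0
  have hs0 : s D0 ≠ 0 := by
    change (Matrix.of fun i j => D0 (τ i) (Y j)).det ^ μ * c0 ≠ 0
    rw [hdet1, one_pow, one_mul]
    exact mul_ne_zero (pow_ne_zero _ hdet) (Finset.prod_ne_zero_iff.2 fun i _ h0 =>
      hf0 i (Subtype.ext h0))
  refine desc3 (n := ∑ i, a i) (A := 0) (m := μ) hμ h.total hessL G (fun _ => s) (fun _ => hs) D0
    (fun _ => hs0) (algebraicIndependent_empty_type_iff.2 (algebraMap k L).injective) ?_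
  intro v hv w e hwv hin D D' hD hD' _
  have hw := divisorial_up hwv hv
  have hregs : ∀ D : Fin (∑ i, a i) → Derivation k L L, (∀ j, Pres w (D j)) →
      GeR w ((0 : ℤ) : ℝ) (s D) := fun D hD =>
    Ge.toR (sf_reg h hw hy hC hf1 hf (fun i => D (τ i)) (fun j => hD (τ j)))
  rcases Nat.lt_or_ge e 2 with he | he
  · have he1 : e = 1 := by have := hwv.1; omega
    have h1 := ge_lift h.total hessL hnK hessK hwv hv s hs hregs D hD D' hD'
    have h2 : GeR w ((0 : ℤ) : ℝ) (s D') := by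
      refine h1.mono ?_
      rw [he1]
      push_cast
      norm_num
    exact h2.toInt
  · obtain ⟨g, hgG, hg1, hord, hI⟩ := hin he
    rcases hG ⟨g, hgG⟩ (fun h0 => hg1 (congrArg Subtype.val h0)) ⟨w, hw, hI⟩ with h1 | ⟨h2, i, j,
      hi, hj, h3, h4, h5, h6, h7⟩
    · have hlog : LogGe (∑ i, a i) w s (μ * e) := by
        intro D hD hl
        have h2 := sf_ram h hw ⟨g, hgG⟩ hI h1 hy hC hf1 hf (fun i => D (τ i)) (fun j => hD (τ j))
          (fun j => hl (τ j))
        change GeR w _ (SF y μ C f (fun i => D (τ i)))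
        rw [← hord]
        exact h2
      have h2 := reg_of_log h.total hessL hw s hs hlog
      have h3 := ge_lift h.total hessL hnK hessK hwv hv s hs h2 D hD D' hD'
      have h4 : GeR w ((0 : ℤ) : ℝ) (s D') := by
        refine h3.mono ?_
        push_cast
        apply le_of_eq
        ring
      exact h4.toInt
    · have he2 : e = 2 := by rw [← hord]; exact h2
      subst he2
      exact sf_trans h hv hwv g hgG h2 hI h3.1 hi hj hy hC hf1 hf h4 h5 h6 h7 h3.2.2.2.2.2 τ D hD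
        D' hD'

end

end Pool.Agent.H908.SB
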