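import Pool.Agent.H908.SB6

/-! The blocks of curves which are exchanged by a group. -/

set_option autoImplicit false
set_option linter.overlappingInstances false
set_option linter.unusedSectionVars false
set_option linter.unusedVariables false

open FF IntermediateField Pool.Agent.W619.PQ Pool.Agent.W619.PL Pool.Agent.W619.TW
  Pool.Agent.W603.LV Pool.Agent.W619.Y Pool.Agent.W672.PG Pool.Agent.W824.PG Pool.Agent.Y174
  Pool.Agent.K1H17.IS Pool.Agent.K1H6.PQ

namespace Pool.Agent.H908.SB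

section

variable {k : Type} {L : Type} [Field k] [Field L] [Algebra k L]
variable {r : ℕ} {M : Fin r → IntermediateField k L} {a : Fin r → ℕ}

theorem Tr.symm {g : L ≃ₐ[k] L} {i j : Fin r} (h : Tr M a g i j) : Tr M a g j i :=
  ⟨h.1.symm, h.2.2.1, h.2.1, h.2.2.2.2.1, h.2.2.2.1, fun l h1 h2 => h.2.2.2.2.2 l h2 h1⟩

theorem Tr.inv {g : L ≃ₐ[k] L} {i j : Fin r} (h : Tr M a g i j) (hfin : IsOfFinOrder g) :
    Tr M a g⁻¹ i j := by
  have hodd : ∀ n : ℕ, (∀ z ∈ M i, (g ^ (2 * n + 1)) z ∈ M j) ∧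
      (∀ z ∈ M j, (g ^ (2 * n + 1)) z ∈ M i) := by
    intro n
    induction n with
    | zero =>
      rw [mul_zero, zero_add, pow_one]
      exact ⟨h.2.2.2.1, h.2.2.2.2.1⟩
    | succ n ih =>
      have e : ∀ z, (g ^ (2 * (n + 1) + 1)) z = (g ^ (2 * n + 1)) (g (g z)) := by
        intro z
        have : 2 * (n + 1) + 1 = (2 * n + 1) + 1 + 1 := by ring
        rw [this, pow_succ, pow_succ]
        rfl
      refine ⟨fun z hz => ?_, fun z hz => ?_⟩
      · rw [e]
        exact ih.1 _ (h.2.2.2.2.1 _ (h.2.2.2.1 _ hz))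
      · rw [e]
        exact ih.2 _ (h.2.2.2.1 _ (h.2.2.2.2.1 _ hz))
  obtain ⟨n, hn, h1⟩ := isOfFinOrder_iff_pow_eq_one.1 hfin
  have hinv : g⁻¹ = g ^ (2 * (n - 1) + 1) := by
    rw [inv_eq_iff_mul_eq_one, ← pow_succ']
    have : 2 * (n - 1) + 1 + 1 = n * 2 := by omega
    rw [this, pow_mul, h1, one_pow]
  refine ⟨h.1, h.2.1, h.2.2.1, ?_, ?_, fun l h1 h2 z hz => ?_⟩
  · rw [hinv]; exact (hodd _).1
  · rw [hinv]; exact (hodd _).2
  · change g.symm z = z
    rw [AlgEquiv.symm_apply_eq]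
    exact (h.2.2.2.2.2 l h1 h2 z hz).symm

theorem Tr.conj {g g' : L ≃ₐ[k] L} {i j l : Fin r} (h : Tr M a g i j) (h' : Tr M a g' j l)
    (hil : i ≠ l) (hfin : IsOfFinOrder g) : Tr M a (g * g' * g⁻¹) i l := by
  have hi := h.inv hfin
  refine ⟨hil, h.2.1, h'.2.2.1, fun z hz => ?_, fun z hz => ?_, fun m h1 h2 z hz => ?_⟩
  · change g (g' (g⁻¹ z)) ∈ M l
    have e1 := hi.2.2.2.1 z hz
    have e2 := h'.2.2.2.1 _ e1
    rw [h.2.2.2.2.2 l hil.symm h'.1.symm _ e2]
    exact e2
  · change g (g' (g⁻¹ z)) ∈ M i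
    rw [hi.2.2.2.2.2 l hil.symm h'.1.symm z hz]
    exact h.2.2.2.2.1 _ (h'.2.2.2.2.1 z hz)
  · change g (g' (g⁻¹ z)) = z
    have key : g (g⁻¹ z) = z := by
      change g (g.symm z) = z
      exact AlgEquiv.apply_symm_apply g z
    by_cases hmj : m = j
    · subst hmj
      have e1 := hi.2.2.2.2.1 z hz
      rw [h'.2.2.2.2.2 i h.1 hil _ e1]
      exact key
    · rw [hi.2.2.2.2.2 m h1 hmj z hz, h'.2.2.2.2.2 m hmj h2 z hz, h.2.2.2.2.2 m h1 hmj z hz]

/-- for `i ≠ j` at most one element of `G` exchanges the curves `i` and `j` and is trivial on the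
other factors -/
def UniqTr (M : Fin r → IntermediateField k L) (a : Fin r → ℕ) (G : Subgroup (L ≃ₐ[k] L)) : Prop :=
  ∀ g ∈ G, ∀ g' ∈ G, ∀ i j, Tr M a g i j → Tr M a g' i j → g = g'

/-- **Representatives of the blocks.** -/
theorem exists_t {G : Subgroup (L ≃ₐ[k] L)} [Finite G] (hU : UniqTr M a G)
    (hne : ∀ i, a i = 1 → ∀ j, i ≠ j → ∃ z ∈ M i, z ∉ M j) :
    ∃ (ρ : Fin r → Fin r) (t : Fin r → (L ≃ₐ[k] L)), (∀ i, t i ∈ G) ∧ (∀ i, ρ (ρ i) = ρ i) ∧
      (∀ i, (ρ i = i ∧ t i = 1) ∨ Tr M a (t i) (ρ i) i) ∧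
      (∀ i j, ρ i = ρ j ↔ (i = j ∨ ∃ g ∈ G, Tr M a g i j)) ∧
      ∀ g ∈ G, ∀ i j, Tr M a g i j → orderOf g = 2 ∧ ∀ z ∈ M (ρ i), g (t i z) = t j z := by
  classical
  have hfin : ∀ g ∈ G, IsOfFinOrder g := by
    intro g hg
    have h3 : IsOfFinOrder (⟨g, hg⟩ : G) := isOfFinOrder_of_finite _
    exact (Submonoid.isOfFinOrder_coe (H := G.toSubmonoid) (x := (⟨g, hg⟩ : G))).2 h3
  let S : Setoid (Fin r) :=
    { r := fun i j => i = j ∨ ∃ g ∈ G, Tr M a g i j
      iseqv :=
        { refl := fun i => Or.inl rfl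
          symm := fun {i j} h => by
            rcases h with h | ⟨g, hg, h⟩
            · exact Or.inl h.symm
            · exact Or.inr ⟨g, hg, h.symm⟩
          trans := fun {i j l} h h' => by
            rcases h with h | ⟨g, hg, h⟩
            · subst h; exact h'
            rcases h' with h' | ⟨g', hg', h'⟩
            · subst h'; exact Or.inr ⟨g, hg, h⟩
            by_cases hil : i = l
            · exact Or.inl hil
            · exact Or.inr ⟨g * g' * g⁻¹, G.mul_mem (G.mul_mem hg hg') (G.inv_mem hg),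
                h.conj h' hil (hfin g hg)⟩ } }
  let ρ : Fin r → Fin r := fun i => (Quotient.mk S i).out
  have hρ : ∀ i, S (ρ i) i := fun i => Quotient.mk_out i
  have hρρ : ∀ i j, ρ i = ρ j ↔ S i j := by
    intro i j
    constructor
    · intro h
      have h1 := S.symm (hρ i)
      rw [h] at h1
      exact S.trans h1 (hρ j)
    · intro h
      have h1 : Quotient.mk S i = Quotient.mk S j := Quotient.sound h
      change (Quotient.mk S i).out = (Quotient.mk S j).out
      rw [h1]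
  have hex : ∀ i, ∃ t ∈ G, (ρ i = i ∧ t = 1) ∨ Tr M a t (ρ i) i := by
    intro i
    by_cases h1 : ρ i = i
    · exact ⟨1, G.one_mem, Or.inl ⟨h1, rfl⟩⟩
    · obtain ⟨g, hg, h2⟩ := (hρ i : ρ i = i ∨ ∃ g ∈ G, Tr M a g (ρ i) i).resolve_left h1
      exact ⟨g, hg, Or.inr h2⟩
  choose t ht1 ht2 using hex
  refine ⟨ρ, t, ht1, fun i => ?_, ht2, fun i j => hρρ i j, fun g hg i j hij => ?_⟩
  · rw [hρρ]
    exact hρ i
  · have hginv : g⁻¹ = g := hU _ (G.inv_mem hg) g hg i j (hij.inv (hfin g hg)) hij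
    have hg2 : g * g = 1 := by
      have h1 : g * g⁻¹ = 1 := mul_inv_cancel g
      rwa [hginv] at h1
    have hg1 : g ≠ 1 := by
      intro h1
      obtain ⟨z, hz, hz'⟩ := hne i hij.2.1 j hij.1
      have h2 := hij.2.2.2.1 z hz
      rw [h1] at h2
      exact hz' h2
    refine ⟨?_, fun z hz => ?_⟩
    · exact orderOf_eq_prime (by rw [pow_two]; exact hg2) hg1
    · have hρij : ρ i = ρ j := (hρρ i j).2 (Or.inr ⟨g, hg, hij⟩)
      rcases ht2 i with ⟨h1, h2⟩ | h1
      · -- `i` is the representative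
        rw [h2]
        change g z = t j z
        rcases ht2 j with ⟨h3, h4⟩ | h3
        · exact absurd (h1.symm.trans (hρij.trans h3)) hij.1
        · rw [← hρij, h1] at h3
          rw [hU g hg (t j) (ht1 j) i j hij h3]
      · rcases ht2 j with ⟨h3, h4⟩ | h3
        · -- `j` is the representative
          rw [h4]
          change g (t i z) = z
          rw [hρij, h3] at h1
          have h5 : t i = g := hU _ (ht1 i) g hg j i h1 hij.symm
          rw [h5]
          change (g * g) z = z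
          rw [hg2]
          rfl
        · rw [← hρij] at h3
          have h4 : Tr M a (g * t i * g⁻¹) j (ρ i) := hij.symm.conj h1.symm h3.1.symm (hfin g hg)
          have h5 : t j = g * t i * g⁻¹ := hU _ (ht1 j) _
            (G.mul_mem (G.mul_mem hg (ht1 i)) (G.inv_mem hg)) (ρ i) j h3 h4.symm
          rw [h5]
          change g (t i z) = g (t i (g⁻¹ z))
          rw [(hij.inv (hfin g hg)).2.2.2.2.2 (ρ i) h1.1 h3.1 z hz]

end

end Pool.Agent.H908.SB
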