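import Pool.Agent.H908.SB7
import Pool.Graph.R_pool_sql_team_seeded_1e53cb71.Helper11K9.OD.Main

/-! Antisymmetric pluricanonical forms: existence. -/

set_option autoImplicit false
set_option linter.overlappingInstances false
set_option linter.unusedSectionVars false
set_option linter.unusedVariables false

open FF IntermediateField Pool.Agent.W619.PQ Pool.Agent.W619.PL Pool.Agent.W619.TW
  Pool.Agent.W603.LV Pool.Agent.W619.Y Pool.Agent.W672.PG Pool.Agent.W824.PG Pool.Agent.Y174
  Pool.Agent.K1H17.IS Pool.Agent.K1H6.PQ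

namespace Pool.Agent.H908.SB

open Pool.Agent.Helper11K9.OD (regularForms)

section

variable {k : Type} {L : Type} [Field k] [CharZero k] [Field L] [Algebra k L]

/-- Transport of a regular form. -/
theorem RegF.push {F F' : IntermediateField k L} (e : F ≃ₐ[k] F') {n μ : ℕ} {y : Fin n → F} {f : F}
    (h : RegF (k := k) y μ f) : RegF (k := k) (fun q => e (y q)) μ (e f) := by
  intro u hu D hD
  have h1 := h (pullPlace e u) (divisorial_pull e hu) (fun p => pushDer e.symm (D p))
    (fun p z hz => by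
      have h2 : u.Reg (e z) := by
        rcases hz with hz | hz
        · left; rw [hz, map_zero]
        · right; exact hz
      have h3 := hD p _ h2
      have h4 : (pushDer e.symm (D p)) z = e.symm (D p (e z)) := rfl
      rw [h4]
      rcases h3 with h3 | h3
      · left; rw [h3, map_zero]
      · right
        change 0 ≤ u.ord (e (e.symm _))
        rwa [AlgEquiv.apply_symm_apply])
  have h2 : e (PF y μ f fun p => pushDer e.symm (D p)) = PF (fun q => e (y q)) μ (e f) D := by
    unfold PF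
    rw [map_mul, map_pow, AlgEquiv.map_det]
    have h4 : e.mapMatrix (Matrix.of fun p q => (pushDer e.symm (D p)) (y q)) =
        Matrix.of fun p q => D p (e (y q)) := by
      refine Matrix.ext fun p q => ?_
      change e (e.symm (D p (e (y q)))) = D p (e (y q))
      rw [AlgEquiv.apply_symm_apply]
    rw [h4]
  rw [← h2]
  rcases h1 with h1 | h1
  · left; rw [h1, map_zero]
  · right; exact h1

theorem RegF.zero {K : Type} [Field K] [Algebra k K] {n : ℕ} (y : Fin n → K) (μ : ℕ) :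
    RegF (k := k) y μ 0 := by
  intro u _ D _
  unfold PF
  rw [mul_zero]
  exact u.reg_zero

end

section

variable {F : Type} [Field F] [Algebra ℂ F]

theorem der_eq {w : F} (hw : IsTranscendenceBasis ℂ (fun _ : Fin 1 => w)) {E : Derivation ℂ F F}
    (hE : E w = 1) (D : Derivation ℂ F F) : D = D w • E := by
  ext z
  have h1 := der_zero (D - D w • E) (fun _ : Fin 1 => w) hw (fun _ => by
    rw [Derivation.sub_apply, Derivation.smul_apply, hE, smul_eq_mul, mul_one, sub_self]) z
  rw [Derivation.sub_apply] at h1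
  exact sub_eq_zero.1 h1

/-- Regular differential forms of a curve. -/
theorem regF_of_form {w : F} (hw : IsTranscendenceBasis ℂ (fun _ : Fin 1 => w))
    {E : Derivation ℂ F F} (hE : E w = 1) {ω : Derivation ℂ F F →ₗ[F] F}
    (hω : ω ∈ regularForms F) {n : ℕ} (hn : n = 1) :
    RegF (k := ℂ) (fun _ : Fin n => w) 1 (ω E) := by
  subst hn
  intro u _ D hD
  have h1 : PF (fun _ : Fin 1 => w) 1 (ω E) D = ω (D 0) := by
    conv_rhs => rw [der_eq hw hE (D 0), map_smul, smul_eq_mul]
    unfold PF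
    rw [Matrix.det_fin_one, pow_one]
    rfl
  rw [h1]
  exact hω u (D 0) (hD 0)

theorem exists_indep {V : Type} [AddCommGroup V] [Module ℂ V] {S : Type} [Fintype S]
    (h : Fintype.card S ≤ Module.finrank ℂ V) : ∃ f : S → V, LinearIndependent ℂ f := by
  rcases isEmpty_or_nonempty S with hS | hS
  · exact ⟨fun s => isEmptyElim s, linearIndependent_empty_type⟩
  · have h1 : 0 < Module.finrank ℂ V := lt_of_lt_of_le Fintype.card_pos h
    have h2 : Module.Finite ℂ V := Module.finite_of_finrank_pos h1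
    obtain ⟨e⟩ := Function.Embedding.nonempty_of_card_le (α := S)
      (β := Fin (Module.finrank ℂ V)) (by rwa [Fintype.card_fin])
    exact ⟨_, (Module.finBasis ℂ V).linearIndependent.comp e e.injective⟩

theorem indep_forms {w : F} (hw : IsTranscendenceBasis ℂ (fun _ : Fin 1 => w))
    {E : Derivation ℂ F F} (hE : E w = 1) {S : Type} {ω : S → regularForms F}
    (hω : LinearIndependent ℂ ω) :
    LinearIndependent ℂ (fun s => (ω s : Derivation ℂ F F →ₗ[F] F) E) := by
  let Φ : regularForms F →ₗ[ℂ] F :=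
    { toFun := fun ω => (ω : Derivation ℂ F F →ₗ[F] F) E
      map_add' := fun a b => rfl
      map_smul' := fun c a => rfl }
  have hinj : Function.Injective Φ := by
    intro ω ω' h
    have h1 : (ω : Derivation ℂ F F →ₗ[F] F) E = (ω' : Derivation ℂ F F →ₗ[F] F) E := h
    refine Subtype.ext (LinearMap.ext fun δ => ?_)
    rw [der_eq hw hE δ, map_smul, map_smul, h1]
  exact LinearIndependent.map_injOn hω Φ hinj.injOn

end

section

variable {L : Type} [Field L] [Algebra ℂ L]
variable {r : ℕ} {M : Fin r → IntermediateField ℂ L} {a : Fin r → ℕ}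
  {G : Subgroup (L ≃ₐ[ℂ] L)} {σ : G →* Equiv.Perm (Fin r)}

/-- the block of `i` -/
def blk (M : Fin r → IntermediateField ℂ L) (a : Fin r → ℕ) (G : Subgroup (L ≃ₐ[ℂ] L))
    (i : Fin r) : Set (Fin r) :=
  {j | j = i ∨ ∃ g ∈ G, Tr M a g i j}

theorem two_not (h : IsPermuted M a G σ) {i j : Fin r} (hi : a i = 1) (hij : i ≠ j) :
    ∃ z ∈ M i, z ∉ M j := by
  obtain ⟨x, hx⟩ := Pool.Agent.W636.PG.exists_basis ℂ (M i) (a i) (h.trdeg i)
  let q : Fin (a i) := ⟨0, by omega⟩
  refine ⟨(x q : L), (x q).2, fun hz => ?_⟩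
  have halg : Algebra.IsAlgebraic ↥(⨆ i, M i) L := by
    rw [h.sup]
    exact ⟨fun z => isAlgebraic_algebraMap (⟨z, trivial⟩ : (⊤ : IntermediateField ℂ L))⟩
  have h1 : Transcendental ℂ (x q) := by
    have h2 := hx.1.transcendental q
    exact h2
  have h3 : Transcendental ℂ (⟨(x q : L), hz⟩ : M j) := by
    intro h4
    apply h1
    have h5 : IsAlgebraic ℂ ((x q : M i) : L) := h4.algebraMap (A := L)
    exact (isAlgebraic_algebraMap_iff (algebraMap (M i) L).injective).1 h5
  exact not_mem_two M halg h.total h.trdeg hij (x q) ⟨(x q : L), hz⟩ h1 h3 rfl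

/-- **Nonvanishing.** -/
theorem nonneg [Finite G] (h : IsPermuted M a G σ) (hU : UniqTr M a G)
    (hage : ∀ g : G, g ≠ 1 → (∃ w : Place ℂ L, IsDivisorial w (∑ i, a i) ∧
      Inert w (g : L ≃ₐ[ℂ] L)) → (∃ i j, Tr M a (g : L ≃ₐ[ℂ] L) i j) ∨
      1 ≤ age M a (σ g) (fun _ _ => 0) (g : L ≃ₐ[ℂ] L))
    (hbig : ∀ i, a i ≠ 1 → ¬ KodairaNeg ℂ (M i) (a i))
    (hcur : ∀ i, a i = 1 → (blk M a G i).ncard ≤ Module.finrank ℂ (regularForms (M i))) :
    KodTr ℂ (fixedField G) (∑ i, a i) 0 := by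
  classical
  obtain ⟨ρ, t, ht, hρρ, hρt, hblk, htr⟩ := exists_t hU (fun i hi j hij => two_not h hi hij)
  have haρ : ∀ i, a i = 1 → a (ρ i) = 1 := by
    intro i hi
    rcases hρt i with ⟨h1, -⟩ | h1
    · rw [h1]; exact hi
    · exact h1.2.1
  have haρ' : ∀ i, a (ρ i) = 1 → a i = 1 := by
    intro i hi
    rcases hρt i with ⟨h1, -⟩ | h1
    · rwa [h1] at hi
    · exact h1.2.2.1
  have hfint : ∀ i, IsOfFinOrder (t i) := by
    intro i
    have h3 : IsOfFinOrder (⟨t i, ht i⟩ : G) := isOfFinOrder_of_finite _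
    exact (Submonoid.isOfFinOrder_coe (H := G.toSubmonoid) (x := (⟨t i, ht i⟩ : G))).2 h3
  have hT1 : ∀ i, ∀ z ∈ M (ρ i), t i z ∈ M i := by
    intro i z hz
    rcases hρt i with ⟨h1, h2⟩ | h1
    · rw [h2]
      rw [h1] at hz
      exact hz
    · exact h1.2.2.2.1 z hz
  have hT2 : ∀ i, ∀ z ∈ M i, (t i).symm z ∈ M (ρ i) := by
    intro i z hz
    rcases hρt i with ⟨h1, h2⟩ | h1
    · rw [h2, h1]
      exact hz
    · exact (h1.inv (hfint i)).2.2.2.2.1 z hz
  let T : ∀ i, M (ρ i) ≃ₐ[ℂ] M i := fun i => resEquiv (t i) (hT1 i) (hT2 i)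
  have hTc : ∀ i (z : M (ρ i)), (T i z : L) = t i (z : L) := fun i z => rfl
  -- coordinates
  choose y0 hy0 using fun i => Pool.Agent.W636.PG.exists_basis ℂ (M i) (a i) (h.trdeg i)
  let W : ∀ i, M i := fun i => if h : a i = 1 then y0 i ⟨0, by omega⟩ else 0
  have hWc : ∀ i, a i = 1 → ∀ n, n = 1 → IsTranscendenceBasis ℂ (fun _ : Fin n => W i) := by
    intro i hi n hn
    have h1 : y0 i = fun _ : Fin (a i) => W i := by
      funext q
      simp only [W, dif_pos hi]
      congr 1
      apply Fin.ext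
      have := q.2
      simp only
      omega
    have h2 := hy0 i
    rw [h1] at h2
    have h3 : a i = n := by omega
    subst h3
    exact h2
  -- forms on the representatives
  have hforms : ∀ i, ∃ (E : Derivation ℂ (M i) (M i)) (F : Fin r → M i), a i = 1 → E (W i) = 1 ∧
      (∀ c, RegF (k := ℂ) (fun _ : Fin (a i) => W i) 1 (F c)) ∧
      LinearIndependent ℂ (fun c : {c : Fin r // ρ c = i} => F c) := by
    intro i
    by_cases hi : a i = 1
    swap
    · exact ⟨0, 0, fun h => absurd h hi⟩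
    obtain ⟨E0, hE0⟩ := Pool.Agent.W636.PG.exists_duals ℂ (M i) 1 _ (hWc i hi 1 rfl)
    have hE : E0 0 (W i) = 1 := by
      have := hE0 0 0
      rwa [if_pos rfl] at this
    have hcard : Fintype.card {c : Fin r // ρ c = i} ≤ Module.finrank ℂ (regularForms (M i)) := by
      refine le_trans ?_ (hcur i hi)
      rw [← Nat.card_eq_fintype_card]
      change Nat.card ↥{c : Fin r | ρ c = i} ≤ _
      rw [Nat.card_coe_set_eq]
      refine Set.ncard_le_ncard (fun c hc => ?_) (Set.toFinite _)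
      have hc' : ρ c = i := hc
      have h1 : ρ i = ρ c := by rw [← hc', hρρ]
      rcases (hblk i c).1 h1 with h2 | ⟨g, hg, h2⟩
      · exact Or.inl h2.symm
      · exact Or.inr ⟨g, hg, h2⟩
    obtain ⟨ω, hω⟩ := exists_indep (V := regularForms (M i)) hcard
    refine ⟨E0 0, fun c => if h : ρ c = i then (ω ⟨c, h⟩ : Derivation ℂ (M i) (M i) →ₗ[M i] M i)
      (E0 0) else 0, fun _ => ⟨hE, fun c => ?_, ?_⟩⟩
    · by_cases hc : ρ c = i
      · simp only [dif_pos hc]
        exact regF_of_form (hWc i hi 1 rfl) hE (ω ⟨c, hc⟩).2 hi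
      · simp only [dif_neg hc]
        exact RegF.zero _ _
    · have h1 := indep_forms (hWc i hi 1 rfl) hE hω
      have h2 : (fun c : {c : Fin r // ρ c = i} => if h : ρ (c : Fin r) = i then
          (ω ⟨c, h⟩ : Derivation ℂ (M i) (M i) →ₗ[M i] M i) (E0 0) else 0) =
          fun s => (ω s : Derivation ℂ (M i) (M i) →ₗ[M i] M i) (E0 0) := by
        funext c
        simp only [dif_pos c.2]
      rw [h2]
      exact h1
  choose E F hEF using hforms
  -- coordinates and coefficients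
  let y : ∀ i, Fin (a i) → M i := fun i => if a i = 1 then fun _ => T i (W (ρ i)) else y0 i
  have hy1 : ∀ i, a i = 1 → y i = fun _ => T i (W (ρ i)) := fun i hi => by simp only [y, if_pos hi]
  have hy2 : ∀ i, a i ≠ 1 → y i = y0 i := fun i hi => by simp only [y, if_neg hi]
  have hy : ∀ i, IsTranscendenceBasis ℂ (y i) := by
    intro i
    by_cases hi : a i = 1
    · rw [hy1 i hi]
      exact (T i).isTranscendenceBasis (hWc (ρ i) (haρ i hi) (a i) hi)
    · rw [hy2 i hi]
      exact hy0 i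
  let C : ∀ i : Cur a, Cur a → M i.1 := fun i c =>
    if ρ c.1 = ρ i.1 then T i.1 (F (ρ i.1) c.1) else 0
  have hC : ∀ i c, RegF (k := ℂ) (y i.1) 1 (C i c) := by
    intro i c
    rw [hy1 i.1 i.2]
    by_cases hc : ρ c.1 = ρ i.1
    · simp only [C, if_pos hc]
      have h1 := (hEF (ρ i.1) (haρ i.1 i.2)).2.1 c.1
      have h2 : RegF (k := ℂ) (fun _ : Fin (a i.1) => W (ρ i.1)) 1 (F (ρ i.1) c.1) := by
        have h3 : a (ρ i.1) = a i.1 := by rw [haρ i.1 i.2, i.2]
        rw [← h3]
        exact h1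
      exact h2.push (T i.1)
    · simp only [C, if_neg hc]
      exact RegF.zero _ _
  -- the other factors
  have hfex : ∀ i, ∃ (m : ℕ) (f : M i), 1 ≤ m ∧ f ≠ 0 ∧ (a i ≠ 1 → RegF (k := ℂ) (y i) m f) := by
    intro i
    by_cases hi : a i = 1
    · exact ⟨1, 1, le_rfl, one_ne_zero, fun h => absurd hi h⟩
    · have h1 := hbig i hi
      unfold KodairaNeg at h1
      push Not at h1
      obtain ⟨m, hm, ω, hω, hreg, D, hD⟩ := h1
      obtain ⟨E1, hE1⟩ := Pool.Agent.W636.PG.exists_duals ℂ (M i) (a i) (y i) (hy i)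
      have hform := fun D => Pool.Agent.W636.PG.form_eq ℂ (M i) (a i) m (y i) (hy i) E1 hE1 ω hω D
      refine ⟨m, ω E1, hm, fun h0 => hD (by rw [hform, h0, mul_zero]), fun _ u hu D hD => ?_⟩
      have h2 : PF (y i) m (ω E1) D = ω D := (hform D).symm
      rw [h2]
      exact hreg u hu D hD
  choose m f0 hm hf0 hfreg using hfex
  let μ : ℕ := ∏ i, m i
  have hμ : 1 ≤ μ := Nat.one_le_iff_ne_zero.2 (Finset.prod_ne_zero_iff.2 fun i _ => by
    have := hm i
    omega)
  have hμi : ∀ i, ∃ N, μ = m i * N := fun i => Finset.dvd_prod_of_mem _ (Finset.mem_univ i)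
  choose N hN using hμi
  let f : ∀ i, M i := fun i => if a i = 1 then 1 else f0 i ^ N i
  have hf1 : ∀ i, a i = 1 → f i = 1 := fun i hi => by simp only [f, if_pos hi]
  have hf : ∀ i, a i ≠ 1 → RegF (k := ℂ) (y i) μ (f i) := by
    intro i hi
    simp only [f, if_neg hi]
    rw [hN i]
    exact (hfreg i hi).pow (N i)
  have hfne : ∀ i, f i ≠ 0 := by
    intro i
    by_cases hi : a i = 1
    · rw [hf1 i hi]; exact one_ne_zero
    · simp only [f, if_neg hi]
      exact pow_ne_zero _ (hf0 i)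
  -- the determinant
  have hdet : (Matrix.of fun i c : Cur a => (C i c : L)).det ≠ 0 := by
    have htri : (Matrix.of fun i c : Cur a => (C i c : L)).BlockTriangular
        (fun i : Cur a => ρ i.1) := by
      intro i c hlt
      rw [Matrix.of_apply]
      simp only [C, if_neg (ne_of_lt hlt)]
      rfl
    rw [htri.det_fintype]
    refine Finset.prod_ne_zero_iff.2 fun b _ => ?_
    let S : Type := {i : Cur a // ρ i.1 = b}
    rcases isEmpty_or_nonempty S with hS | ⟨⟨s0, hs0⟩⟩
    · rw [Matrix.det_isEmpty]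
      exact one_ne_zero
    have hb1 : a b = 1 := by rw [← hs0]; exact haρ _ s0.2
    let φ : S → (M b →ₐ[ℂ] L) := fun s => ((t s.1.1 : L ≃ₐ[ℂ] L) : L →ₐ[ℂ] L).comp (M b).val
    have hφ : ∀ (s : S) x, φ s x ∈ M s.1.1 := by
      intro s x
      apply hT1 s.1.1
      rw [s.2]
      exact x.2
    have h1 := det_ne' φ (fun s => oth M s.1.1) (fun i j hij x => le_oth M (fun h0 => hij
      (Subtype.ext (Subtype.ext h0))) (hφ j x)) (fun s p β hβ => by
        have h2 := ld_oth h.trdeg h.total h.sup s.1.1 (fun c => (⟨φ s (β c), hφ s _⟩ : M s.1.1))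
          (by
            let ψ : M b →ₐ[ℂ] M s.1.1 := (φ s).codRestrict (M s.1.1).toSubalgebra (hφ s)
            have h3 := hβ.map' ψ.toLinearMap (LinearMap.ker_eq_bot.2 ψ.injective)
            exact h3)
        exact h2) (fun s => F b s.1.1) (by
        have h2 := (hEF b hb1).2.2
        exact h2.comp (fun s : S => (⟨s.1.1, s.2⟩ : {c : Fin r // ρ c = b})) (fun s s' hss => by
          have h3 : s.1.1 = s'.1.1 :=
            congrArg (fun z : {c : Fin r // ρ c = b} => (z : Fin r)) hss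
          exact Subtype.ext (Subtype.ext h3)))
    have h2 : (Matrix.of fun i c : Cur a => (C i c : L)).toSquareBlock (fun i : Cur a => ρ i.1) b =
        Matrix.of fun (i : S) (j : S) => φ i (F b j.1.1) := by
      ext i j
      change ((C i.1 j.1 : M i.1.1) : L) = t i.1.1 (F b j.1.1 : L)
      have hi : ρ i.1.1 = b := i.2
      have hj : ρ j.1.1 = b := j.2
      have h3 : C i.1 j.1 = T i.1.1 (F (ρ i.1.1) j.1.1) := by
        simp only [C]
        rw [if_pos (hj.trans hi.symm)]
      rw [h3, hTc, hi]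
    rw [h2]
    exact h1
  -- the group
  refine kod_form h hμ hy hC hf1 hf hfne hdet ?_
  intro g hg1 hgw
  rcases hage g hg1 hgw with ⟨i, j, hij⟩ | h1
  swap
  · exact Or.inl h1
  right
  obtain ⟨hord, hact⟩ := htr g g.2 i j hij
  have hρij : ρ i = ρ j := (hblk i j).2 (Or.inr ⟨g, g.2, hij⟩)
  have hij' := hij.symm
  obtain ⟨-, hact'⟩ := htr g g.2 j i hij'
  have hW : ∀ i j, ρ i = ρ j → ((W (ρ i) : M (ρ i)) : L) = W (ρ j) := by
    intro i j h
    rw [h]
  have hFc : ∀ i j c, ρ i = ρ j → ((F (ρ i) c : M (ρ i)) : L) = F (ρ j) c := by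
    intro i j c h
    rw [h]
  have key : ∀ i j, Tr M a (g : L ≃ₐ[ℂ] L) i j → ∀ q q', (g : L ≃ₐ[ℂ] L) (y i q : L) = y j q' := by
    intro i j hij q q'
    obtain ⟨-, hact⟩ := htr g g.2 i j hij
    have hρij : ρ i = ρ j := (hblk i j).2 (Or.inr ⟨g, g.2, hij⟩)
    rw [hy1 i hij.2.1, hy1 j hij.2.2.1]
    change (g : L ≃ₐ[ℂ] L) (t i (W (ρ i) : L)) = t j (W (ρ j) : L)
    rw [hact _ (W (ρ i)).2, hW i j hρij]
  have key2 : ∀ i j (hij : Tr M a (g : L ≃ₐ[ℂ] L) i j) c,
      (g : L ≃ₐ[ℂ] L) (C ⟨i, hij.2.1⟩ c : L) = C ⟨j, hij.2.2.1⟩ c := by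
    intro i j hij c
    obtain ⟨-, hact⟩ := htr g g.2 i j hij
    have hρij : ρ i = ρ j := (hblk i j).2 (Or.inr ⟨g, g.2, hij⟩)
    by_cases hc : ρ c.1 = ρ i
    · have hc' : ρ c.1 = ρ j := hc.trans hρij
      simp only [C, if_pos hc, if_pos hc']
      change (g : L ≃ₐ[ℂ] L) (t i (F (ρ i) c.1 : L)) = t j (F (ρ j) c.1 : L)
      rw [hact _ (F (ρ i) c.1).2, hFc i j c.1 hρij]
    · have hc' : ¬ ρ c.1 = ρ j := fun h => hc (h.trans hρij.symm)
      simp only [C, if_neg hc, if_neg hc']
      change (g : L ≃ₐ[ℂ] L) 0 = 0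
      rw [map_zero]
  exact ⟨hord, i, j, hij.2.1, hij.2.2.1, hij, key i j hij, key j i hij', key2 i j hij,
    key2 j i hij'⟩

end

end Pool.Agent.H908.SB
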