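import Pool.Agent.H908.SA8
import Pool.Agent.H908.SB8

/-!
**Uniruledness**: quotients of products by groups which contain the transpositions of more curves
than the genus.
-/

set_option autoImplicit false
set_option linter.overlappingInstances false
set_option linter.unusedSectionVars false

open FF IntermediateField Cardinal

namespace Pool.Agent.H908.SA

open Pool.Agent.W603.LV Pool.Agent.W602.RG Pool.Agent.Helper11K9.PC Pool.Agent.Helper11K9.OD
open Pool.Agent.W619.PQ (IsUniruled)
open Pool.Agent.K1H6.PQ (IsPermuted not_mem_two)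

/-- a field of functions is in the closure if coordinates are -/
theorem range_clo' {Ω : Type} [Field Ω] [Algebra ℂ Ω] {L : Type} [Field L] [Algebra ℂ L] {a : ℕ}
    {y : Fin a → L} (hy : IsTranscendenceBasis ℂ y)
    (z : L →ₐ[ℂ] Ω) {s : Set Ω} (hs : ∀ q, z (y q) ∈ clo s) (f : L) : z f ∈ clo s := by
  rw [mem_clo]
  have h1 : IsAlgebraic (IntermediateField.adjoin ℂ (Set.range y)) f := by
    have h2 := hy.isAlgebraic
    have h3 : IsAlgebraic (Algebra.adjoin ℂ (Set.range y)) f := h2.isAlgebraic f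
    let g : Algebra.adjoin ℂ (Set.range y) →+* IntermediateField.adjoin ℂ (Set.range y) :=
      Subring.inclusion (S := (Algebra.adjoin ℂ (Set.range y)).toSubring)
        (T := (IntermediateField.adjoin ℂ (Set.range y)).toSubring)
        (IntermediateField.algebra_adjoin_le_adjoin ℂ (Set.range y))
    exact h3.ringHom_of_comp_eq g (RingHom.id L) (Subring.inclusion_injective _) (by
      ext y; rfl)
  let S := algebraicClosure (IntermediateField.adjoin ℂ s) Ω
  have hle : IntermediateField.adjoin ℂ (Set.range y) ≤ (S.restrictScalars ℂ).comap z := by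
    rw [adjoin_le_iff]
    rintro _ ⟨q, rfl⟩
    change z (y q) ∈ S.restrictScalars ℂ
    rw [mem_restrictScalars, mem_algebraicClosure_iff]
    exact mem_clo.1 (hs q)
  let g : IntermediateField.adjoin ℂ (Set.range y) →+* S :=
    ((z : L →+* Ω).comp (algebraMap _ L)).codRestrict S fun y => hle y.2
  have h2 : IsAlgebraic S (z f) := h1.ringHom_of_comp_eq g (z : L →+* Ω) g.injective (by
    ext y; rfl)
  have h3 : Algebra.IsAlgebraic (IntermediateField.adjoin ℂ s) S := inferInstance
  exact h2.restrictScalars (IntermediateField.adjoin ℂ s)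

section

/-- **Blocks larger than the genus give uniruled quotients.** -/
theorem uniruled_of_block' {K : Type} [Field K] [Algebra ℂ K] {r n : ℕ}
    (F : Fin r → IntermediateField ℂ K) {a : Fin r → ℕ}
    {G : Subgroup (K ≃ₐ[ℂ] K)} [Finite G] {σ : G →* Equiv.Perm (Fin r)} (hPm : IsPermuted F a G σ)
    (hna : n = ∑ i, a i) (i0 : Fin r) [IsFF ℂ (F i0)] (B : Finset (Fin r))
    (hB : ∀ i ∈ B, a i = 1)
    (φ : Fin r → (F i0 →ₐ[ℂ] K)) (hφ : ∀ i ∈ B, ∀ z, z ∈ F i ↔ ∃ f, φ i f = z)
    (hsw : ∀ i ∈ B, ∀ j ∈ B, i ≠ j → ∃ g ∈ G, (∀ f, g (φ i f) = φ j f) ∧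
      (∀ f, g (φ j f) = φ i f) ∧ ∀ l, l ≠ i → l ≠ j → ∀ z ∈ F l, g z = z)
    {D0 : Derivation ℂ (F i0) (F i0)} (hD0 : D0 ≠ 0)
    (hg : Module.finrank ℂ (RR D0 hD0) < B.card) : IsUniruled ℂ (fixedField G) n := by
  classical
  have hsup := hPm.sup
  have hn : Algebra.trdeg ℂ K = n := by rw [hna]; exact hPm.total
  have halg0 : Algebra.IsAlgebraic ↥(⨆ i, F i) K := by
    rw [hsup]
    exact ⟨fun z => isAlgebraic_algebraMap (⟨z, trivial⟩ : (⊤ : IntermediateField ℂ K))⟩
  let Ω := AlgebraicClosure K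
  have hΩ0 : CharZero Ω := charZero_of_injective_algebraMap (algebraMap ℂ Ω).injective
  let ι : K →ₐ[ℂ] Ω := IsScalarTower.toAlgHom ℂ K Ω
  -- the generic points
  obtain ⟨ξ, hξ⟩ := IsFF.exists_transcendental (k := ℂ) (K := F i0)
  choose Y hY using fun i => Pool.Agent.W636.PG.exists_basis ℂ (F i) (a i) (hPm.trdeg i)
  let x : B → (F i0 →ₐ[ℂ] Ω) := fun i => ι.comp (φ i)
  have hx : Function.Injective x := by
    intro i j hij
    by_contra hne
    have hne' : (i : Fin r) ≠ j := fun h => hne (Subtype.ext h)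
    have h1 : φ i ξ = φ j ξ := by
      have := DFunLike.congr_fun hij ξ
      exact ι.injective this
    have hi' : φ i ξ ∈ F i := (hφ i i.2 _).2 ⟨_, rfl⟩
    have hj' : φ j ξ ∈ F j := (hφ j j.2 _).2 ⟨_, rfl⟩
    have htr : ∀ (l : Fin r) (h : φ i ξ ∈ F l), Transcendental ℂ (⟨φ i ξ, h⟩ : F l) := by
      intro l h h2
      have h3 : IsAlgebraic ℂ (φ i ξ) := h2.algebraMap (A := K)
      exact hξ ((isAlgebraic_algHom_iff (φ i) (φ i).injective).1 h3)
    exact not_mem_two F halg0 hPm.total hPm.trdeg hne' ⟨φ i ξ, hi'⟩ ⟨φ i ξ, h1.symm ▸ hj'⟩ (htr _ _)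
      (htr _ _) rfl
  obtain ⟨E, iE, ikE, iLE, iΩE, tL, tΩ, hff, bc, hgen⟩ := exists_bc ℂ (F i0) Ω
  choose P hP using fun i : B => exists_at bc (x i)
  obtain ⟨S, h, hh, hord, hpol, hsp, r', z, hr, hz⟩ := exists_pencil' bc hD0 x hx P hP (by
    rw [Fintype.card_coe]; exact hg)
  -- the small field
  let A1 : Finset Ω := (Finset.univ.filter fun p : (Σ l, Fin (a l)) =>
    ∀ i ∈ S, (i : Fin r) ≠ p.1).image fun p => ι (Y p.1 p.2 : K)
  let A0 : Finset Ω := (Finset.univ.image fun j : Fin r' => z j ξ) ∪ A1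
  have hA0 : A0.card < n := by
    have h3 : (Finset.univ.image fun j : Fin r' => z j ξ).card ≤ r' := by
      refine Finset.card_image_le.trans ?_
      rw [Finset.card_univ, Fintype.card_fin]
    have h4 : A1.card + S.card ≤ n := by
      have h5 : A1.card ≤ (Finset.univ.filter fun p : (Σ l, Fin (a l)) =>
        ∀ i ∈ S, (i : Fin r) ≠ p.1).card := Finset.card_image_le
      have h6 : (Finset.univ.filter fun p : (Σ l, Fin (a l)) =>
          ∀ i ∈ S, (i : Fin r) ≠ p.1).card + S.card ≤ Fintype.card (Σ l, Fin (a l)) := by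
        let e : B → (Σ l, Fin (a l)) := fun i => ⟨i, ⟨0, by rw [hB i i.2]; exact one_pos⟩⟩
        have he : Function.Injective e := fun i j hij => Subtype.ext (congrArg Sigma.fst hij)
        have h7 : S.card = (S.image e).card := (Finset.card_image_of_injective S he).symm
        rw [h7, ← Finset.card_union_of_disjoint, ← Finset.card_univ]
        · exact Finset.card_le_card (Finset.subset_univ _)
        · rw [Finset.disjoint_left]
          intro p hp hp'
          rw [Finset.mem_filter] at hp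
          obtain ⟨i, hi, rfl⟩ := Finset.mem_image.1 hp'
          exact hp.2 i hi rfl
      have h8 : Fintype.card (Σ l, Fin (a l)) = n := by
        rw [Fintype.card_sigma, hna]
        simp
      omega
    have h2 := Finset.card_union_le (Finset.univ.image fun j : Fin r' => z j ξ) A1
    change (_ ∪ _ : Finset Ω).card < n
    omega
  let M : IntermediateField ℂ Ω := clo (A0 : Set Ω)
  have hMtr : Algebra.trdeg ℂ M < n := by
    refine lt_of_le_of_lt (clo_trdeg A0) ?_
    exact_mod_cast hA0
  have hzM : ∀ j f, z j f ∈ M := fun j f => range_clo hξ (z j) (subset_clo (by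
    rw [Finset.mem_coe, Finset.mem_union]
    left
    exact Finset.mem_image_of_mem _ (Finset.mem_univ j))) f
  have hFM : ∀ l : Fin r, (∀ i ∈ S, (i : Fin r) ≠ l) → ∀ y ∈ F l, ι y ∈ M := by
    intro l hl y hy
    exact range_clo' (hY l) (ι.comp (F l).val) (fun q => subset_clo (by
      rw [Finset.mem_coe, Finset.mem_union]
      right
      refine Finset.mem_image.2 ⟨(⟨l, q⟩ : Σ l, Fin (a l)), ?_, rfl⟩
      exact Finset.mem_filter.2 ⟨Finset.mem_univ _, hl⟩)) ⟨y, hy⟩
  have hMc : IsAlgClosed M := clo_closed _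
  have hM0 : CharZero M := charZero_of_injective_algebraMap (algebraMap ℂ M).injective
  have tM1 : IsScalarTower M Ω E := inferInstance
  have tM2 : IsScalarTower ℂ M E := IsScalarTower.of_algebraMap_eq fun c => by
    rw [IsScalarTower.algebraMap_apply ℂ Ω E]; rfl
  obtain ⟨hffM, bcM⟩ := bc_M (M := M) bc hgen
  -- not all points are defined over the small field
  have hnot : ∃ i ∈ S, ∃ f : F i0, x i f ∉ M := by
    by_contra hcon
    push Not at hcon
    have h1 : (⊤ : IntermediateField ℂ K) ≤ M.comap ι := by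
      rw [← hsup, iSup_le_iff]
      intro l y hy
      change ι y ∈ M
      by_cases hl : ∀ i ∈ S, (i : Fin r) ≠ l
      · exact hFM l hl y hy
      · push Not at hl
        obtain ⟨i, hi, rfl⟩ := hl
        obtain ⟨f, hf⟩ := (hφ i i.2 y).1 hy
        rw [← hf]
        exact hcon i hi f
    let ι' : K →ₐ[ℂ] M := ι.codRestrict M.toSubalgebra fun y => h1 (x := y) trivial
    have h2 := trdeg_le_of_injective ι' ι'.injective
    rw [hn] at h2
    exact absurd h2 (not_le.2 hMtr)
  let N : IntermediateField M E := IntermediateField.adjoin M (Set.range (algebraMap (F i0) E))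
  let inc : F i0 → N := fun f => ⟨algebraMap (F i0) E f, subset_adjoin _ _ ⟨f, rfl⟩⟩
  have hinc : ∀ f, algebraMap N E (inc f) = algebraMap (F i0) E f := fun f => rfl
  obtain ⟨t0, ht0, hcore⟩ := pencil_core bcM P S (by
      obtain ⟨i, hi, -⟩ := hnot
      exact ⟨i, hi⟩) hh hord hpol hsp (fun Q hQ => by
      rcases hz Q hQ with ⟨l, hl⟩ | ⟨j, hj⟩
      · exact ⟨inc l, hl⟩
      · refine ⟨inc ξ - algebraMap M N ⟨z j ξ, hzM j _⟩, ?_⟩
        have h1 : algebraMap N E (inc ξ - algebraMap M N ⟨z j ξ, hzM j _⟩) =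
            algebraMap (F i0) E ξ - algebraMap Ω E (z j ξ) := by
          rw [map_sub, hinc]
          rfl
        rw [h1]
        have h2 := (hj ξ).resolve_left (fun h0 => by
          apply bc_transc bc hξ
          rw [sub_eq_zero.1 h0]
          exact isAlgebraic_algebraMap _)
        omega) (by
      obtain ⟨i, hi, f, hf⟩ := hnot
      refine ⟨i, hi, inc f, Or.inr (Ats.ord (hP i) f).ge, fun m hm => hf ?_⟩
      have h1 := val_unique (hP i f) hm
      rw [h1]
      exact m.2)
  have hρx : ∀ (i : B) (ρ : N →ₐ[M] Ω), Ats (P i) ρ → ∀ f, ρ (inc f) = x i f := fun i ρ hρ f =>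
    val_unique (hρ (inc f)) (hP i f)
  -- algebraicity
  have hKalg : ∀ y : K, IsAlgebraic M⟮t0⟯ (ι y) := by
    have h1 : (⊤ : IntermediateField ℂ K) ≤
        (((algebraicClosure M⟮t0⟯ Ω).restrictScalars M).restrictScalars ℂ).comap ι := by
      rw [← hsup, iSup_le_iff]
      intro l y hy
      change ι y ∈ algebraicClosure M⟮t0⟯ Ω
      rw [mem_algebraicClosure_iff]
      by_cases hl : ∀ i ∈ S, (i : Fin r) ≠ l
      · exact isAlgebraic_algebraMap
          (⟨ι y, (M⟮t0⟯).algebraMap_mem ⟨ι y, hFM l hl y hy⟩⟩ : M⟮t0⟯)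
      · push Not at hl
        obtain ⟨i, hi, rfl⟩ := hl
        obtain ⟨f, hf⟩ := (hφ i i.2 y).1 hy
        obtain ⟨ρ, hρ, hρalg, -⟩ := hcore i hi
        have h2 := hρalg (inc f)
        rw [hρx i ρ hρ f] at h2
        rw [← hf]
        exact h2
    intro y
    exact mem_algebraicClosure_iff.1 (h1 (x := y) trivial)
  have hΩalg : Algebra.IsAlgebraic M⟮t0⟯ Ω := by
    refine ⟨fun w => ?_⟩
    have h1 : IsAlgebraic K w := Algebra.IsAlgebraic.isAlgebraic w
    let N' := algebraicClosure M⟮t0⟯ Ω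
    let g : K →+* N' := (ι : K →+* Ω).codRestrict N' fun y => mem_algebraicClosure_iff.2 (hKalg y)
    have h2 : IsAlgebraic N' w := h1.ringHom_of_comp_eq g (RingHom.id Ω) g.injective (by
      ext y; rfl)
    have h3 : Algebra.IsAlgebraic M⟮t0⟯ N' := inferInstance
    exact h2.restrictScalars M⟮t0⟯
  -- transcendence degrees
  have hnΩ : Algebra.trdeg ℂ Ω = n := by
    have h1 := trdeg_add_eq ℂ K (A := Ω)
    have h2 : Algebra.trdeg K Ω = 0 := by
      rw [trdeg_eq_zero_iff]
      infer_instance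
    rw [h2, add_zero, hn] at h1
    exact h1.symm
  have hMΩ : Algebra.trdeg M Ω = 1 := by
    have h1 : AlgebraicIndependent M (fun _ : Unit => t0) := by
      rw [algebraicIndependent_unique_type_iff]
      exact ht0
    have h3 : Set.range (fun _ : Unit => t0) = {t0} := by simp
    have h2 : IsTranscendenceBasis M (fun _ : Unit => t0) := by
      rw [isTranscendenceBasis_iff_algebraicIndependent_isAlgebraic]
      refine ⟨h1, ?_⟩
      rw [h3]
      exact Pool.Agent.W619.PQ.alg_adjoin (k := M) fun z => hΩalg.isAlgebraic z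
    have := h2.lift_cardinalMk_eq_trdeg
    simpa using this.symm
  obtain ⟨m, hm⟩ := Cardinal.lt_aleph0.1 (hMtr.trans (Cardinal.natCast_lt_aleph0 (n := n)))
  have hmn : n = m + 1 := by
    have h3 := trdeg_add_eq ℂ M (A := Ω)
    rw [hMΩ, hnΩ, hm] at h3
    exact_mod_cast h3.symm
  -- the fixed field is contained in `M (t0)`
  have hmem : ∀ e : fixedField G, ι (e : K) ∈ M⟮t0⟯ := by
    intro e
    obtain ⟨y, hy⟩ := fixed_mem (R := M⟮t0⟯) (Ω := Ω) (w := ι (e : K)) (by
      intro τ'
      let τ : Ω ≃ₐ[M] Ω := τ'.restrictScalars M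
      have hτ0 : τ t0 = t0 := τ'.commutes ⟨t0, mem_adjoin_simple_self M t0⟩
      choose ρ hρ _ hρτ using hcore
      have hσ : ∀ i : S, ∃ j : S, Ats (P j) ((τ : Ω →ₐ[M] Ω).comp (ρ i.1 i.2)) := by
        intro i
        obtain ⟨j, hj, hj'⟩ := hρτ i.1 i.2 τ hτ0
        exact ⟨⟨j, hj⟩, hj'⟩
      choose σ hσ using hσ
      have hσx : ∀ (i : S) (f : F i0), τ (x i f) = x (σ i) f := by
        intro i f
        have h2 := hρx (σ i) _ (hσ i) f
        rw [← h2, ← hρx i _ (hρ i.1 i.2) f]
        rfl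
      have hσi : Function.Injective σ := by
        intro i j hij
        have h2 : x i = x j := by
          ext f
          apply τ.injective
          rw [hσx, hσx, hij]
        exact Subtype.ext (hx h2)
      let π : Equiv.Perm S := Equiv.ofBijective σ (Finite.injective_iff_bijective.1 hσi)
      obtain ⟨g, hgG, hg1, hg2⟩ := exists_perm F G B φ (fun i hi f => (hφ i hi _).2 ⟨f, rfl⟩)
        hsw S π
      have hall : ∀ y : K, τ (ι y) = ι (g y) := by
        have h2 : (⊤ : IntermediateField ℂ K) ≤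
            eqF (((τ : Ω →ₐ[M] Ω).restrictScalars ℂ).comp ι) (ι.comp (g : K →ₐ[ℂ] K)) := by
          rw [← hsup, iSup_le_iff]
          intro l y hy
          rw [mem_eqF]
          change τ (ι y) = ι (g y)
          by_cases hl : ∀ i ∈ S, (i : Fin r) ≠ l
          · rw [hg2 l (fun i => hl i.1 i.2) y hy]
            exact τ.commutes ⟨ι y, hFM l hl y hy⟩
          · push Not at hl
            obtain ⟨i, hi, rfl⟩ := hl
            obtain ⟨f, hf⟩ := (hφ i i.2 y).1 hy
            rw [← hf]
            have h3 := hg1 ⟨i, hi⟩ f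
            change g (φ i f) = φ (σ ⟨i, hi⟩) f at h3
            rw [h3]
            exact hσx ⟨i, hi⟩ f
        exact fun y => h2 (x := y) trivial
      have h2 := hall e
      have h3 : g (e : K) = e := e.2 ⟨g, hgG⟩
      rw [h3] at h2
      exact h2)
    rw [← hy]
    exact y.2
  have hfin : FiniteDimensional (fixedField G) K := Pool.Agent.W619.PQ.fixed_finite G
  have hessK : Algebra.EssFiniteType ℂ K := hPm.essL
  have hessG : Algebra.EssFiniteType ℂ (fixedField G) := Pool.Agent.TH466.QG.ess_below (K := K)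
  have hnG : Algebra.trdeg ℂ (fixedField G) = n := Pool.Agent.Y184.NT.trdeg_below (K := K) hn
  exact Pool.Agent.R882.GL.uniruled_geo (Λ := M) (F := Ω) hnG hm hmn
    (ι.comp (fixedField G).val) t0 ht0 hmem

end

end Pool.Agent.H908.SA
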