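import Pool.Agent.H908.SC1
import Pool.Graph.R_pool_sql_team_seeded_efc1946e.K1H97.PU.Z0

/-! The final theorem on quotients of products by groups which permute the factors. -/

set_option autoImplicit false
set_option linter.overlappingInstances false
set_option linter.unusedSectionVars false
set_option linter.unusedVariables false

open FF IntermediateField Pool.Agent.W619.PQ Pool.Agent.W619.PL Pool.Agent.W619.TW
  Pool.Agent.W603.LV Pool.Agent.W619.Y Pool.Agent.W672.PG Pool.Agent.W824.PG Pool.Agent.Y174
  Pool.Agent.K1H17.IS Pool.Agent.K1H6.PQ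

namespace Pool.Agent.H908.SB

open Pool.Agent.Helper11K9.OD (regularForms derReg_of_vo)
open Pool.Agent.Helper11K9.PC (RR mem_RR)

section

variable {F : Type} [Field F] [Algebra ℂ F]

/-- The genus. -/
theorem rr_le [IsFF ℂ F] {D : Derivation ℂ F F} (hD : D ≠ 0) :
    Module.finrank ℂ (RR D hD) ≤ Module.finrank ℂ (regularForms F) := by
  classical
  obtain ⟨w, hw⟩ := IsFF.exists_transcendental (k := ℂ) (K := F)
  have hDw : D w ≠ 0 := der_ne_zero hD hw
  have hval : ∀ δ : Derivation ℂ F F, δ = (δ w / D w) • D := by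
    intro δ
    obtain ⟨h, hh⟩ := der_smul (D' := δ) hD
    have h1 : δ w / D w = h := by
      rw [hh, Derivation.smul_apply, smul_eq_mul, mul_div_assoc, div_self hDw, mul_one]
    rw [h1]
    exact hh
  let ψ : F → (Derivation ℂ F F →ₗ[F] F) := fun f =>
    { toFun := fun δ => (f / D w) * δ w
      map_add' := fun a b => by rw [Derivation.add_apply]; ring
      map_smul' := fun c a => by
        rw [Derivation.smul_apply, smul_eq_mul, RingHom.id_apply, smul_eq_mul]; ring }
  have hψ : ∀ f ∈ RR D hD, ψ f ∈ regularForms F := by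
    intro f hf P δ hδ
    change P.Reg ((f / D w) * δ w)
    rw [mem_RR] at hf
    rcases hf with hf | hf
    · left; rw [hf, zero_div, zero_mul]
    by_cases hf0 : f = 0
    · left; rw [hf0, zero_div, zero_mul]
    by_cases hδ0 : δ w = 0
    · left; rw [hδ0, mul_zero]
    have hδ1 : δ ≠ 0 := fun h => hδ0 (by rw [h]; rfl)
    right
    have h1 : (f / D w) * δ w = f * (δ w / D w) := by ring
    have h2 : δ w / D w ≠ 0 := div_ne_zero hδ0 hDw
    rw [h1, P.ord_mul hf0 h2]
    have h3 : vo P δ = P.ord (δ w / D w) + vo P D := by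
      conv_lhs => rw [hval δ]
      exact vo_smul P hD h2
    have h4 : 0 ≤ vo P δ := by
      have h5 := hδ (unif P) (Or.inr (by rw [ord_unif]; norm_num))
      rcases h5 with h5 | h5
      · exact absurd h5 (der_pi_ne_zero hδ1 P (ord_unif P))
      · exact h5
    have h5 := hf P
    omega
  let Ψ : RR D hD →ₗ[ℂ] regularForms F :=
    { toFun := fun f => ⟨ψ f, hψ f f.2⟩
      map_add' := fun a b => Subtype.ext (LinearMap.ext fun δ => by
        change (((a : F) + b) / D w) * δ w = ((a : F) / D w) * δ w + ((b : F) / D w) * δ w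
        ring)
      map_smul' := fun c a => Subtype.ext (LinearMap.ext fun δ => by
        change ((c • (a : F)) / D w) * δ w = c • (((a : F) / D w) * δ w)
        rw [Algebra.smul_def, Algebra.smul_def]
        ring) }
  have hfin : FiniteDimensional ℂ (RR D hD) := FF.finDim_LL _
  have hfin2 : Module.Finite ℂ (regularForms F) := by
    have hmem : ∀ ω ∈ regularForms F, ω D ∈ RR D hD := by
      intro ω hω
      rw [Pool.Agent.Helper11K9.OD.mem_RR_ge]
      intro P
      obtain ⟨δ, hδ⟩ : ∃ δ : Derivation ℂ F F, δ = (unif P) ^ (-vo P D) • D := ⟨_, rfl⟩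
      have hu : unif P ≠ 0 := by
        intro h
        have h1 := ord_unif P
        rw [h, P.ord_zero] at h1
        omega
      have hu2 : (unif P) ^ (-vo P D) ≠ 0 := zpow_ne_zero _ hu
      have hord : P.ord ((unif P) ^ (-vo P D)) = -vo P D := by
        rw [P.ord_zpow, ord_unif, mul_one]
      have h1 : vo P δ = 0 := by
        rw [hδ, vo_smul P hD hu2, hord]
        ring
      have hδ0 : δ ≠ 0 := by
        rw [hδ]
        exact smul_ne_zero hu2 hD
      have h2 : Ge P 0 (ω δ) := hω P δ (derReg_of_vo hδ0 h1.ge)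
      rw [hδ, map_smul, smul_eq_mul] at h2
      have h3 := h2.of_mul hu2
      rw [hord] at h3
      exact h3.mono (by omega)
    let Φ : regularForms F →ₗ[ℂ] RR D hD :=
      { toFun := fun ω => ⟨(ω : Derivation ℂ F F →ₗ[F] F) D, hmem _ ω.2⟩
        map_add' := fun a b => Subtype.ext rfl
        map_smul' := fun c a => Subtype.ext rfl }
    refine Module.Finite.of_injective Φ ?_
    intro ω ω' hω
    have h1 : (ω : Derivation ℂ F F →ₗ[F] F) D = (ω' : Derivation ℂ F F →ₗ[F] F) D :=
      congrArg Subtype.val hω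
    refine Subtype.ext (LinearMap.ext fun δ => ?_)
    obtain ⟨h, hh⟩ := der_smul (D' := δ) hD
    rw [hh, map_smul, map_smul, h1]
  refine LinearMap.finrank_le_finrank_of_injective (f := Ψ) ?_
  intro f f' hf
  have h1 : (ψ f : Derivation ℂ F F →ₗ[F] F) D = ψ f' D :=
    congrArg (fun z : regularForms F => (z : Derivation ℂ F F →ₗ[F] F) D) hf
  change ((f : F) / D w) * D w = ((f' : F) / D w) * D w at h1
  rw [div_mul_cancel₀ _ hDw, div_mul_cancel₀ _ hDw] at h1
  exact Subtype.ext h1

end

end Pool.Agent.H908.SB
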