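import Pool.Agent.H908.SC2

/-! Groups of permutations of the factors. -/

set_option autoImplicit false
set_option linter.overlappingInstances false
set_option linter.unusedSectionVars false
set_option linter.unusedVariables false

open FF IntermediateField Pool.Agent.W619.PQ Pool.Agent.W619.PL Pool.Agent.W619.TW
  Pool.Agent.W603.LV Pool.Agent.W619.Y Pool.Agent.W672.PG Pool.Agent.W824.PG Pool.Agent.Y174
  Pool.Agent.K1H17.IS Pool.Agent.K1H6.PQ

namespace Pool.Agent.H908.SB

section

/-- The contribution of one cycle. -/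
theorem permAge_cyc {r : ℕ} (a : Fin r → ℕ) (π : Equiv.Perm (Fin r)) (ha : ∀ i, a (π i) = a i)
    (i : Fin r) :
    (a i : ℝ) * ((Function.minimalPeriod π i : ℝ) - 1) / 2 ≤ permAge a π := by
  classical
  have ha' : ∀ n : ℕ, a ((π ^ n) i) = a i := by
    intro n
    induction n with
    | zero => rfl
    | succ n ih => rw [pow_succ']; exact (ha _).trans ih
  set l := Function.minimalPeriod π i with hl
  have hl0 : (0 : ℝ) < l := by
    have : 0 < l := mp_pos π i
    exact_mod_cast this
  let S : Finset (Fin r) := (Finset.range l).image fun n => (π ^ n) i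
  have hcard : S.card = l := by
    rw [Finset.card_image_of_injOn, Finset.card_range]
    intro m hm n hn hmn
    rw [Finset.coe_range] at hm hn
    exact mp_inj π i hm hn hmn
  unfold permAge
  refine le_trans ?_ (Finset.sum_le_sum_of_subset_of_nonneg (Finset.subset_univ S)
    fun j _ _ => perm_term_nonneg a π j)
  have h3 : ∀ j ∈ S, (1 / (l : ℝ)) * (a i * ((l : ℝ) - 1) / 2) =
      (1 / (Function.minimalPeriod π j : ℝ)) *
      (a j * ((Function.minimalPeriod π j : ℝ) - 1) / 2) := by
    intro j hj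
    obtain ⟨n, -, rfl⟩ := Finset.mem_image.1 hj
    rw [mp_pow, ha', ← hl]
  rw [← Finset.sum_congr rfl h3]
  rw [Finset.sum_const, hcard, nsmul_eq_mul, ← mul_assoc, mul_one_div_cancel hl0.ne', one_mul]

/-- The condition fails only for transpositions of curves. -/
theorem perm_cases {r : ℕ} (a : Fin r → ℕ) (π : Equiv.Perm (Fin r)) (ha : ∀ i, a (π i) = a i)
    (hlt : permAge a π < 1) {i : Fin r} (hi : π i ≠ i) (hai : 1 ≤ a i) :
    a i = 1 ∧ π (π i) = i ∧ ∀ m, m ≠ i → m ≠ π i → 1 ≤ a m → π m = m := by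
  classical
  have h2 : ∀ j, π j ≠ j → 2 ≤ Function.minimalPeriod π j := by
    intro j hj
    have h0 := mp_pos π j
    by_contra hcon
    have h1 : Function.minimalPeriod π j = 1 := by omega
    have h3 := pow_mp π j
    rw [h1, pow_one] at h3
    exact hj h3
  have key : ∀ j, π j ≠ j → 1 ≤ a j → Function.minimalPeriod π j = 2 ∧ a j = 1 := by
    intro j hj haj
    have h3 := permAge_cyc a π ha j
    have h4 := h2 j hj
    obtain ⟨l, hl⟩ : ∃ l, l = Function.minimalPeriod π j := ⟨_, rfl⟩
    rw [← hl] at h3 h4 ⊢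
    have h5 : (a j : ℝ) * ((l : ℝ) - 1) < 2 := by linarith
    have h6 : (a j) * (l - 1) < 2 := by
      have : ((a j * (l - 1) : ℕ) : ℝ) < 2 := by
        push_cast [Nat.cast_sub (show 1 ≤ l by omega)]
        exact h5
      exact_mod_cast this
    constructor
    · by_contra hcon
      have h7 : 3 ≤ l := by omega
      have : 2 ≤ a j * (l - 1) := by nlinarith [Nat.sub_le_sub_right h7 1]
      omega
    · by_contra hcon
      have h7 : 2 ≤ a j := by omega
      have h8 : 1 ≤ l - 1 := by omega
      have : 2 ≤ a j * (l - 1) := by nlinarith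
      omega
  obtain ⟨hli, hai1⟩ := key i hi hai
  have hππ : π (π i) = i := by
    have := pow_mp π i
    rw [hli, pow_two] at this
    exact this
  refine ⟨hai1, hππ, fun m hmi hmπ ham => ?_⟩
  by_contra hm
  obtain ⟨hlm, ham1⟩ := key m hm ham
  have hππm : π (π m) = m := by
    have := pow_mp π m
    rw [hlm, pow_two] at this
    exact this
  have hπi : π (π i) ≠ π i := fun h => hi (π.injective h)
  have hπm : π (π m) ≠ π m := fun h => hm (π.injective h)
  obtain ⟨hlπi, -⟩ := key (π i) hπi (by rw [ha]; exact hai)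
  obtain ⟨hlπm, -⟩ := key (π m) hπm (by rw [ha]; exact ham)
  have h4 : ({i, π i, m, π m} : Finset (Fin r)).card = 4 := by
    rw [Finset.card_insert_of_notMem, Finset.card_insert_of_notMem, Finset.card_insert_of_notMem,
      Finset.card_singleton]
    · simp only [Finset.mem_singleton]
      exact fun h => hm h.symm
    · simp only [Finset.mem_insert, Finset.mem_singleton, not_or]
      exact ⟨fun h => hmπ h.symm, fun h => hmi (π.injective h).symm⟩
    · simp only [Finset.mem_insert, Finset.mem_singleton, not_or]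
      refine ⟨fun h => hi h.symm, fun h => hmi h.symm, fun h => hmπ ?_⟩
      rw [h, hππm]
  have hval : ∀ j ∈ ({i, π i, m, π m} : Finset (Fin r)), (1 / 4 : ℝ) =
      (1 / (Function.minimalPeriod π j : ℝ)) *
      (a j * ((Function.minimalPeriod π j : ℝ) - 1) / 2) := by
    intro j hj
    simp only [Finset.mem_insert, Finset.mem_singleton] at hj
    rcases hj with rfl | rfl | rfl | rfl
    · rw [hli, hai1]; norm_num
    · rw [hlπi, ha, hai1]; norm_num
    · rw [hlm, ham1]; norm_num
    · rw [hlπm, ha, ham1]; norm_num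
  have h5 : (1 : ℝ) ≤ permAge a π := by
    unfold permAge
    refine le_trans ?_ (Finset.sum_le_sum_of_subset_of_nonneg
      (Finset.subset_univ ({i, π i, m, π m} : Finset (Fin r)))
      fun j _ _ => perm_term_nonneg a π j)
    rw [← Finset.sum_congr rfl hval, Finset.sum_const, h4]
    norm_num
  linarith

end

section

variable {k : Type} {L : Type} [Field k] [CharZero k] [IsAlgClosed k] [Field L] [Algebra k L]
variable {r : ℕ} {M : Fin r → IntermediateField k L} {a : Fin r → ℕ}
  {G : Subgroup (L ≃ₐ[k] L)} {σ : G →* Equiv.Perm (Fin r)}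

/-- `G` is a group of permutations of the factors: an element which maps a factor to itself is
trivial on it. -/
def IsPure (M : Fin r → IntermediateField k L) (G : Subgroup (L ≃ₐ[k] L))
    (σ : G →* Equiv.Perm (Fin r)) : Prop :=
  ∀ (g : G) i, σ g i = i → ∀ z ∈ M i, (g : L ≃ₐ[k] L) z = z

/-- The condition on the group. -/
structure Admissible (M : Fin r → IntermediateField k L) (a : Fin r → ℕ)
    (G : Subgroup (L ≃ₐ[k] L)) (σ : G →* Equiv.Perm (Fin r)) : Prop where
  uniq : UniqTr M a G
  age : ∀ g : G, g ≠ 1 → (∃ w : Place k L, IsDivisorial w (∑ i, a i) ∧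
      Inert w (g : L ≃ₐ[k] L)) →
    (∃ i j, Tr M a (g : L ≃ₐ[k] L) i j) ∨ (∃ i, σ g i ≠ i ∧ 2 ≤ a i) ∨
    1 ≤ Pool.Agent.K1H6.PQ.age M a (σ g) (fun _ _ => 0) (g : L ≃ₐ[k] L)

theorem sigma_eq (h : IsPermuted M a G σ) (g : G) {i j : Fin r} (hi : 1 ≤ a i)
    (hij : ∀ z ∈ M i, (g : L ≃ₐ[k] L) z ∈ M j) : σ g i = j := by
  by_contra hne
  obtain ⟨x, hx⟩ := Pool.Agent.W636.PG.exists_basis k (M i) (a i) (h.trdeg i)
  let q : Fin (a i) := ⟨0, by omega⟩
  have halg : Algebra.IsAlgebraic ↥(⨆ i, M i) L := by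
    rw [h.sup]
    exact ⟨fun z => isAlgebraic_algebraMap (⟨z, trivial⟩ : (⊤ : IntermediateField k L))⟩
  have h1 : Transcendental k (x q) := hx.1.transcendental q
  have h2 : ∀ (l : Fin r) (hl : (g : L ≃ₐ[k] L) (x q : L) ∈ M l),
      Transcendental k (⟨(g : L ≃ₐ[k] L) (x q : L), hl⟩ : M l) := by
    intro l hl h3
    have h4 : IsAlgebraic k ((g : L ≃ₐ[k] L) (x q : L)) := h3.algebraMap (A := L)
    have h5 : IsAlgebraic k (x q : L) :=
      (isAlgebraic_algHom_iff ((g : L ≃ₐ[k] L) : L →ₐ[k] L) (AlgEquiv.injective _)).1 h4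
    exact h1 ((isAlgebraic_algebraMap_iff (algebraMap (M i) L).injective).1 h5)
  exact not_mem_two M halg h.total h.trdeg hne ⟨_, h.perm g i _ (x q).2⟩ ⟨_, hij _ (x q).2⟩
    (h2 _ _) (h2 _ _) rfl

theorem const_of_zero (h : IsPermuted M a G σ) {i : Fin r} (hi : a i = 0) (g : L ≃ₐ[k] L) :
    ∀ z ∈ M i, g z = z := by
  intro z hz
  have h1 := h.trdeg i
  rw [hi, Nat.cast_zero, trdeg_eq_zero_iff] at h1
  obtain ⟨c, hc⟩ := mem_const (⟨z, hz⟩ : M i) (h1.isAlgebraic _)
  have h2 : z = algebraMap k L c := (congrArg Subtype.val hc).symm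
  rw [h2, AlgEquiv.commutes]

theorem eq_one (h : IsPermuted M a G σ) {g : L ≃ₐ[k] L} (hg : ∀ i, ∀ z ∈ M i, g z = z) :
    g = 1 := by
  ext z
  let E : IntermediateField k L :=
    { AlgHom.equalizer (g : L →ₐ[k] L) (AlgHom.id k L) with
      inv_mem' := fun x hx => by
        have h1 : g x = x := hx
        change g x⁻¹ = x⁻¹
        rw [map_inv₀, h1] }
  have h1 : (⊤ : IntermediateField k L) ≤ E := by
    rw [← h.sup, iSup_le_iff]
    intro i y hy
    exact hg i y hy
  have h2 : g z = z := h1 (x := z) trivial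
  exact h2

theorem pure_admissible (h : IsPermuted M a G σ) (hp : IsPure M G σ) : Admissible M a G σ := by
  classical
  refine ⟨?_, ?_⟩
  · intro g hg g' hg' i j h1 h2
    have h3 : (⟨g, hg⟩ : G)⁻¹ * ⟨g', hg'⟩ = 1 := by
      apply Subtype.ext
      refine eq_one h fun l z hz => ?_
      rcases Nat.eq_zero_or_pos (a l) with hal | hal
      · exact const_of_zero h hal _ z hz
      refine hp _ l ?_ z hz
      rw [map_mul, map_inv, Equiv.Perm.mul_apply, Equiv.Perm.inv_eq_iff_eq]
      by_cases hli : l = i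
      · subst hli
        rw [sigma_eq h ⟨g', hg'⟩ hal h2.2.2.2.1, sigma_eq h ⟨g, hg⟩ hal h1.2.2.2.1]
      by_cases hlj : l = j
      · subst hlj
        rw [sigma_eq h ⟨g', hg'⟩ hal h2.2.2.2.2.1, sigma_eq h ⟨g, hg⟩ hal h1.2.2.2.2.1]
      rw [sigma_eq h ⟨g', hg'⟩ hal (fun z hz => by rw [h2.2.2.2.2.2 l hli hlj z hz]; exact hz),
        sigma_eq h ⟨g, hg⟩ hal (fun z hz => by rw [h1.2.2.2.2.2 l hli hlj z hz]; exact hz)]
    have h4 := inv_mul_eq_one.1 h3
    exact congrArg Subtype.val h4
  · intro g hg _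
    by_cases hex : ∃ i, σ g i ≠ i ∧ 1 ≤ a i
    · obtain ⟨i, hi, hai⟩ := hex
      by_cases hlt : permAge a (σ g) < 1
      · left
        obtain ⟨h1, h2, h3⟩ := perm_cases a (σ g) (h.dim g) hlt hi hai
        refine ⟨i, σ g i, Ne.symm hi, h1, ?_, h.perm g i, ?_, ?_⟩
        · rw [h.dim]; exact h1
        · intro z hz
          have := h.perm g _ z hz
          rwa [h2] at this
        · intro l hl1 hl2 z hz
          rcases Nat.eq_zero_or_pos (a l) with hal | hal
          · exact const_of_zero h hal _ z hz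
          · exact hp g l (h3 l hl1 hl2 hal) z hz
      · right; right
        rw [age_eq]
        have := wsum_nonneg M (σ g) (fun _ _ => 0) (g : L ≃ₐ[k] L)
        push Not at hlt
        linarith
    · push Not at hex
      exfalso
      apply hg
      apply Subtype.ext
      refine eq_one h fun l z hz => ?_
      by_cases hl : σ g l = l
      · exact hp g l hl z hz
      · have := hex l hl
        exact const_of_zero h (by omega) _ z hz

end

end Pool.Agent.H908.SB
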