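import Pool.Agent.H908.SC3
import Pool.Graph.R_seed8.W602.GT.KPsef

/-! The main theorem on quotients of products by groups which permute the factors. -/

set_option autoImplicit false
set_option linter.overlappingInstances false
set_option linter.unusedSectionVars false
set_option linter.unusedVariables false

open FF IntermediateField Pool.Agent.W619.PQ Pool.Agent.W619.PL Pool.Agent.W619.TW
  Pool.Agent.W603.LV Pool.Agent.W619.Y Pool.Agent.W672.PG Pool.Agent.W824.PG Pool.Agent.Y174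
  Pool.Agent.K1H17.IS Pool.Agent.K1H6.PQ

namespace Pool.Agent.H908.SB

open Pool.Agent.Helper11K9.OD (regularForms)
open Pool.Agent.Helper11K9.PC (RR)

section

variable {L : Type} [Field L] [Algebra ℂ L]
variable {r : ℕ} {M : Fin r → IntermediateField ℂ L} {a : Fin r → ℕ}
  {G : Subgroup (L ≃ₐ[ℂ] L)} {σ : G →* Equiv.Perm (Fin r)}

theorem finord [Finite G] {g : L ≃ₐ[ℂ] L} (hg : g ∈ G) : IsOfFinOrder g := by
  have h3 : IsOfFinOrder (⟨g, hg⟩ : G) := isOfFinOrder_of_finite _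
  exact (Submonoid.isOfFinOrder_coe (H := G.toSubmonoid) (x := (⟨g, hg⟩ : G))).2 h3

theorem Tr.sq [Finite G] (hU : UniqTr M a G) {g : L ≃ₐ[ℂ] L} (hg : g ∈ G) {i j : Fin r}
    (hij : Tr M a g i j) (z : L) : g (g z) = z := by
  have hginv : g⁻¹ = g := hU _ (G.inv_mem hg) g hg i j (hij.inv (finord hg)) hij
  have h1 : g⁻¹ (g z) = z := g.symm_apply_apply z
  rwa [hginv] at h1

/-- Blocks of curves which are larger than the genus. -/
theorem uniruled_blk [Finite G] (h : IsPermuted M a G σ) (hU : UniqTr M a G) {i : Fin r}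
    (hi : a i = 1) (hg : Module.finrank ℂ (regularForms (M i)) < (blk M a G i).ncard) :
    IsUniruled ℂ (fixedField G) (∑ i, a i) := by
  classical
  have hff : IsFF ℂ (M i) := ⟨h.ess i, by rw [h.trdeg, hi, Nat.cast_one]⟩
  obtain ⟨D, hD⟩ : ∃ D : Derivation ℂ (M i) (M i), D ≠ 0 := by
    obtain ⟨x, hx⟩ := Pool.Agent.W636.PG.exists_basis ℂ (M i) (a i) (h.trdeg i)
    obtain ⟨E, hE⟩ := Pool.Agent.W636.PG.exists_duals ℂ (M i) (a i) x hx
    let q : Fin (a i) := ⟨0, by omega⟩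
    refine ⟨E q, fun h0 => ?_⟩
    have := hE q q
    rw [h0, if_pos rfl] at this
    exact zero_ne_one this
  have hex : ∀ j, ∃ t ∈ G, j ∈ blk M a G i → (j = i ∧ t = 1) ∨ Tr M a t i j := by
    intro j
    by_cases hj : j ∈ blk M a G i
    · rcases hj with hj | ⟨g, hg, hj⟩
      · exact ⟨1, G.one_mem, fun _ => Or.inl ⟨hj, rfl⟩⟩
      · exact ⟨g, hg, fun _ => Or.inr hj⟩
    · exact ⟨1, G.one_mem, fun h => absurd h hj⟩
  choose t ht ht2 using hex
  let B : Finset (Fin r) := (blk M a G i).toFinset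
  have hBm : ∀ j, j ∈ B ↔ j ∈ blk M a G i := fun j => Set.mem_toFinset
  refine Pool.Agent.H908.SA.uniruled_of_block' (F := M) h rfl i B (fun j hj => ?_)
    (fun j => ((t j : L ≃ₐ[ℂ] L) : L →ₐ[ℂ] L).comp (M i).val) (fun j hj z => ?_)
    (fun j hj l hl hjl => ?_) hD ?_
  · rcases (hBm j).1 hj with h1 | ⟨g, -, h1⟩
    · rw [h1]; exact hi
    · exact h1.2.2.1
  · rcases ht2 j ((hBm j).1 hj) with ⟨h1, h2⟩ | h1
    · subst h1
      constructor
      · intro hz
        refine ⟨⟨z, hz⟩, ?_⟩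
        change t j z = z
        rw [h2]; rfl
      · rintro ⟨f, rfl⟩
        change t j (f : L) ∈ M j
        rw [h2]; exact f.2
    · constructor
      · intro hz
        refine ⟨⟨t j z, h1.2.2.2.2.1 z hz⟩, ?_⟩
        change t j (t j z) = z
        exact h1.sq hU (ht j) z
      · rintro ⟨f, rfl⟩
        exact h1.2.2.2.1 _ f.2
  · have key : ∀ (z : L), ∀ j l, Tr M a (t j) i j → Tr M a (t l) i l → j ≠ l → z ∈ M i →
        (t j * t l * (t j)⁻¹) (t j z) = t l z := by
      intro z j l h1 h2 hjl hz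
      change t j (t l ((t j)⁻¹ (t j z))) = t l z
      have e1 : (t j)⁻¹ (t j z) = z := (t j).symm_apply_apply z
      rw [e1, h1.2.2.2.2.2 l h2.1.symm hjl.symm _ (h2.2.2.2.1 z hz)]
    have key2 : ∀ (z : L), ∀ j l, Tr M a (t j) i j → Tr M a (t l) i l → j ≠ l → z ∈ M i →
        (t j * t l * (t j)⁻¹) (t l z) = t j z := by
      intro z j l h1 h2 hjl hz
      change t j (t l ((t j)⁻¹ (t l z))) = t j z
      have e1 : (t j)⁻¹ (t l z) = t l z :=
        (h1.inv (finord (ht j))).2.2.2.2.2 l h2.1.symm hjl.symm _ (h2.2.2.2.1 z hz)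
      rw [e1, h2.sq hU (ht l)]
    rcases ht2 j ((hBm j).1 hj) with ⟨h1, h2⟩ | h1
    · rcases ht2 l ((hBm l).1 hl) with ⟨h3, h4⟩ | h3
      · exact absurd (h1.trans h3.symm) hjl
      · refine ⟨t l, ht l, fun f => ?_, fun f => ?_, fun m hm1 hm2 z hz => ?_⟩
        · change t l (t j (f : L)) = t l (f : L)
          rw [h2]; rfl
        · change t l (t l (f : L)) = t j (f : L)
          rw [h2, h3.sq hU (ht l)]; rfl
        · exact h3.2.2.2.2.2 m (by rw [← h1]; exact hm1) hm2 z hz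
    · rcases ht2 l ((hBm l).1 hl) with ⟨h3, h4⟩ | h3
      · refine ⟨t j, ht j, fun f => ?_, fun f => ?_, fun m hm1 hm2 z hz => ?_⟩
        · change t j (t j (f : L)) = t l (f : L)
          rw [h4, h1.sq hU (ht j)]; rfl
        · change t j (t l (f : L)) = t j (f : L)
          rw [h4]; rfl
        · exact h1.2.2.2.2.2 m (by rw [← h3]; exact hm2) hm1 z hz
      · refine ⟨t j * t l * (t j)⁻¹, G.mul_mem (G.mul_mem (ht j) (ht l)) (G.inv_mem (ht j)),
          fun f => key _ j l h1 h3 hjl f.2, fun f => key2 _ j l h1 h3 hjl f.2,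
          fun m hm1 hm2 z hz => ?_⟩
        have h5 := h1.symm.conj h3 hjl (finord (ht j))
        exact h5.2.2.2.2.2 m hm1 hm2 z hz
  · refine lt_of_le_of_lt (rr_le hD) ?_
    have h1 : B.card = (blk M a G i).ncard := (Set.ncard_eq_toFinset_card' _).symm
    rw [h1]
    exact hg

theorem not_neg_zero {K : Type} [Field K] [Algebra ℂ K] : ¬ KodairaNeg ℂ K 0 := by
  intro h
  have h1 := h 1 le_rfl (fun _ => 1) (fun A D => by
    rw [Matrix.det_fin_zero, one_pow, one_mul]) (fun v _ D _ => v.reg_one) (fun i => i.elim0)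
  exact one_ne_zero h1

/-- **The main theorem.** -/
theorem main [Finite G] (h : IsPermuted M a G σ) (hG : Admissible M a G σ)
    (hQ : ∀ i, 2 ≤ a i → KodairaNeg ℂ (M i) (a i) → IsUniruled ℂ (M i) (a i)) :
    [KodairaNeg ℂ (fixedField G) (∑ i, a i),
      ¬ IsPsef ℂ (fixedField G) (∑ i, a i) (fun _ => False),
      IsUniruled ℂ (fixedField G) (∑ i, a i),
      (∃ i, 2 ≤ a i ∧ IsUniruled ℂ (M i) (a i)) ∨
        ∃ i, a i = 1 ∧ Module.finrank ℂ (regularForms (M i)) < (blk M a G i).ncard].TFAE := by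
  classical
  obtain ⟨hnK, hessK⟩ := Pool.Agent.K1H97.PU.quot h
  have h43 : ((∃ i, 2 ≤ a i ∧ IsUniruled ℂ (M i) (a i)) ∨
      ∃ i, a i = 1 ∧ Module.finrank ℂ (regularForms (M i)) < (blk M a G i).ncard) →
      IsUniruled ℂ (fixedField G) (∑ i, a i) := by
    rintro (⟨i, -, hi⟩ | ⟨i, hi, hlt⟩)
    · exact Pool.Agent.K1H97.PU.uniruledP h i hi
    · exact uniruled_blk h hG.uniq hi hlt
  have h32 : IsUniruled ℂ (fixedField G) (∑ i, a i) →
      ¬ IsPsef ℂ (fixedField G) (∑ i, a i) (fun _ => False) := fun h1 =>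
    (uniruled_neg (∑ i, a i) hnK h1).1
  have h21 : ¬ IsPsef ℂ (fixedField G) (∑ i, a i) (fun _ => False) →
      KodairaNeg ℂ (fixedField G) (∑ i, a i) := fun h1 =>
    kodairaNeg_of_not_eff.1 fun h3 => h1 (psef_of_eff h3)
  have h14 : KodairaNeg ℂ (fixedField G) (∑ i, a i) →
      ((∃ i, 2 ≤ a i ∧ IsUniruled ℂ (M i) (a i)) ∨
      ∃ i, a i = 1 ∧ Module.finrank ℂ (regularForms (M i)) < (blk M a G i).ncard) := by
    intro h1
    by_contra hcon
    rw [not_or] at hcon
    obtain ⟨hc1, hc2⟩ := hcon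
    push Not at hc1 hc2
    rw [← kod0_iff] at h1
    refine h1 (nonneg h hG.uniq (fun g hg hgw => ?_) (fun i hi => ?_) (fun i hi => hc2 i hi))
    · rcases hG.age g hg hgw with h2 | ⟨i, h2, h3⟩ | h2
      · exact Or.inl h2
      · right
        rw [age_eq]
        have h4 := permAge_ge a (σ g) (h.dim g) h2 h3
        have h5 := wsum_nonneg M (σ g) (fun _ _ => 0) (g : L ≃ₐ[ℂ] L)
        linarith
      · exact Or.inr h2
    · intro h2
      rcases Nat.lt_or_ge (a i) 2 with h3 | h3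
      · have h4 : a i = 0 := by omega
        rw [h4] at h2
        exact not_neg_zero h2
      · exact hc1 i h3 (hQ i h3 h2)
  tfae_have 1 → 4 := h14
  tfae_have 4 → 3 := h43
  tfae_have 3 → 2 := h32
  tfae_have 2 → 1 := h21
  tfae_finish

end

end Pool.Agent.H908.SB
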