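import Pool.Agent.H908.SC4

/-! Families of antisymmetric pluricanonical forms. -/

set_option autoImplicit false
set_option linter.overlappingInstances false
set_option linter.unusedSectionVars false
set_option linter.unusedVariables false

open FF IntermediateField Pool.Agent.W619.PQ Pool.Agent.W619.PL Pool.Agent.W619.TW
  Pool.Agent.W603.LV Pool.Agent.W619.Y Pool.Agent.W672.PG Pool.Agent.W824.PG Pool.Agent.Y174
  Pool.Agent.K1H17.IS Pool.Agent.K1H6.PQ

namespace Pool.Agent.H908.SB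

section

variable {k : Type} {L : Type} [Field k] [CharZero k] [IsAlgClosed k] [Field L] [Algebra k L]
variable {r : ℕ} {M : Fin r → IntermediateField k L} {a : Fin r → ℕ}
  {G : Subgroup (L ≃ₐ[k] L)} {σ : G →* Equiv.Perm (Fin r)}

/-- the coefficient -/
noncomputable def cst (μ : ℕ) (C : ∀ i : Cur a, Cur a → M i.1) (f : ∀ i, M i) : L :=
  (Matrix.of fun i c : Cur a => (C i c : L)).det ^ μ * ∏ i, (f i : L)

theorem kod_forms [Finite G] (h : IsPermuted M a G σ) {μ A : ℕ} (hμ : 1 ≤ μ)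
    {y : ∀ i, Fin (a i) → M i} (hy : ∀ i, IsTranscendenceBasis k (y i))
    {C : Fin (A + 1) → ∀ i : Cur a, Cur a → M i.1}
    (hC : ∀ l i c, RegF (k := k) (y i.1) 1 (C l i c))
    {f : Fin (A + 1) → ∀ i, M i} (hf1 : ∀ l i, a i = 1 → f l i = 1)
    (hf : ∀ l i, a i ≠ 1 → RegF (k := k) (y i) μ (f l i)) (hf0 : ∀ l i, f l i ≠ 0)
    (hdet : ∀ l, (Matrix.of fun i c : Cur a => (C l i c : L)).det ≠ 0)
    (hind : AlgebraicIndependent k (fun l : Fin A => cst μ (C l.succ) (f l.succ) /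
      cst μ (C 0) (f 0)))
    (hG : ∀ g : G, g ≠ 1 → (∃ w : Place k L, IsDivisorial w (∑ i, a i) ∧
      Inert w (g : L ≃ₐ[k] L)) → 1 ≤ age M a (σ g) (fun _ _ => 0) (g : L ≃ₐ[k] L) ∨
      (orderOf (g : L ≃ₐ[k] L) = 2 ∧ ∃ i j, ∃ (hi : a i = 1) (hj : a j = 1),
        Tr M a (g : L ≃ₐ[k] L) i j ∧
        (∀ q q', (g : L ≃ₐ[k] L) (y i q : L) = y j q') ∧
        (∀ q q', (g : L ≃ₐ[k] L) (y j q : L) = y i q') ∧
        (∀ l c, (g : L ≃ₐ[k] L) (C l ⟨i, hi⟩ c : L) = C l ⟨j, hj⟩ c) ∧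
        (∀ l c, (g : L ≃ₐ[k] L) (C l ⟨j, hj⟩ c : L) = C l ⟨i, hi⟩ c))) :
    KodTr k (fixedField G) (∑ i, a i) A := by
  classical
  obtain ⟨τ⟩ : Nonempty ((Σ i, Fin (a i)) ≃ Fin (∑ i, a i)) := ⟨finSigmaFinEquiv⟩
  have halg : Algebra.IsAlgebraic ↥(⨆ i, M i) L := by
    rw [h.sup]
    exact ⟨fun z => isAlgebraic_algebraMap (⟨z, trivial⟩ : (⊤ : IntermediateField k L))⟩
  have hbasis := basis_sigma (ι := fun i => Fin (a i)) M halg h.total
    (fun i => (Fintype.card_fin _).trans rfl) y hy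
  set Y : (Σ i, Fin (a i)) → L := fun p => (y p.1 p.2 : L) with hY
  have hbasis' : IsTranscendenceBasis k (Y ∘ τ.symm) :=
    (isTranscendenceBasis_equiv (R := k) (f := Y) τ.symm).2 hbasis
  obtain ⟨D0, hD0⟩ := Pool.Agent.W636.PG.exists_duals k L (∑ i, a i) (Y ∘ τ.symm) hbasis'
  have hdet1 : (Matrix.of fun i j => D0 (τ i) (Y j)).det = 1 := by
    have h1 : (Matrix.of fun i j => D0 (τ i) (Y j)) = 1 := by
      ext i j
      have h2 := hD0 (τ i) (τ j)
      rw [Function.comp_apply, τ.symm_apply_apply] at h2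
      rw [Matrix.of_apply, Matrix.one_apply, h2]
      simp only [τ.injective.eq_iff]
    rw [h1, Matrix.det_one]
  have halgK := Pool.Agent.W721.PG.EFF2.alg_fixed G
  have hfin := fixed_finite G
  have hessL := h.essL
  obtain ⟨hnK, z0, hz0⟩ := Pool.Agent.W721.PG.EFF2.exists_basis (fixedField G) (∑ i, a i) h.total
  have hessK : Algebra.EssFiniteType k (fixedField G) := ess_down hessL z0 hz0
  let s : Fin (A + 1) → (Fin (∑ i, a i) → Derivation k L L) → L := fun l D =>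
    SF y μ (C l) (f l) (fun i => D (τ i))
  have hs : ∀ l, IsPluriForm k L (∑ i, a i) μ (s l) := fun l =>
    pluri_sigma τ Y μ (cst μ (C l) (f l))
  have hval : ∀ l, s l D0 = cst μ (C l) (f l) := by
    intro l
    change (Matrix.of fun i j => D0 (τ i) (Y j)).det ^ μ * cst μ (C l) (f l) = _
    rw [hdet1, one_pow, one_mul]
  have hs0 : ∀ l, s l D0 ≠ 0 := by
    intro l
    rw [hval]
    exact mul_ne_zero (pow_ne_zero _ (hdet l)) (Finset.prod_ne_zero_iff.2 fun i _ h0 =>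
      hf0 l i (Subtype.ext h0))
  refine desc3 (n := ∑ i, a i) (A := A) (m := μ) hμ h.total hessL G s hs D0 hs0
    (by simp only [hval]; exact hind) ?_
  intro v hv w e hwv hin D D' hD hD' l
  have hw := divisorial_up hwv hv
  have hregs : ∀ D : Fin (∑ i, a i) → Derivation k L L, (∀ j, Pres w (D j)) →
      GeR w ((0 : ℤ) : ℝ) (s l D) := fun D hD =>
    Ge.toR (sf_reg h hw hy (hC l) (hf1 l) (hf l) (fun i => D (τ i)) (fun j => hD (τ j)))
  rcases Nat.lt_or_ge e 2 with he | he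
  · have he1 : e = 1 := by have := hwv.1; omega
    have h1 := ge_lift h.total hessL hnK hessK hwv hv (s l) (hs l) hregs D hD D' hD'
    have h2 : GeR w ((0 : ℤ) : ℝ) (s l D') := by
      refine h1.mono ?_
      rw [he1]
      push_cast
      norm_num
    exact h2.toInt
  · obtain ⟨g, hgG, hg1, hord, hI⟩ := hin he
    rcases hG ⟨g, hgG⟩ (fun h0 => hg1 (congrArg Subtype.val h0)) ⟨w, hw, hI⟩ with h1 | ⟨h2, i, j,
      hi, hj, h3, h4, h5, h6, h7⟩
    · have hlog : LogGe (∑ i, a i) w (s l) (μ * e) := by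
        intro D hD hl
        have h2 := sf_ram h hw ⟨g, hgG⟩ hI h1 hy (hC l) (hf1 l) (hf l) (fun i => D (τ i))
          (fun j => hD (τ j)) (fun j => hl (τ j))
        change GeR w _ (SF y μ (C l) (f l) (fun i => D (τ i)))
        rw [← hord]
        exact h2
      have h2 := reg_of_log h.total hessL hw (s l) (hs l) hlog
      have h3 := ge_lift h.total hessL hnK hessK hwv hv (s l) (hs l) h2 D hD D' hD'
      have h4 : GeR w ((0 : ℤ) : ℝ) (s l D') := by
        refine h3.mono ?_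
        push_cast
        apply le_of_eq
        ring
      exact h4.toInt
    · have he2 : e = 2 := by rw [← hord]; exact h2
      subst he2
      exact sf_trans h hv hwv g hgG h2 hI h3.1 hi hj hy (hC l) (hf1 l) (hf l) h4 h5 (h6 l) (h7 l)
        h3.2.2.2.2.2 τ D hD D' hD'

end

section

variable {L : Type} [Field L] [Algebra ℂ L]
variable {r : ℕ} {M : Fin r → IntermediateField ℂ L} {a : Fin r → ℕ}
  {G : Subgroup (L ≃ₐ[ℂ] L)} {σ : G →* Equiv.Perm (Fin r)}

/-- The blocks, with representatives `ρ i` and elements `t i` of `G` from the representative. -/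
structure BD (M : Fin r → IntermediateField ℂ L) (a : Fin r → ℕ) (G : Subgroup (L ≃ₐ[ℂ] L))
    (ρ : Fin r → Fin r) (t : Fin r → (L ≃ₐ[ℂ] L)) : Prop where
  mem : ∀ i, t i ∈ G
  idem : ∀ i, ρ (ρ i) = ρ i
  rep : ∀ i, (ρ i = i ∧ t i = 1) ∨ Tr M a (t i) (ρ i) i
  blk : ∀ i j, ρ i = ρ j ↔ (i = j ∨ ∃ g ∈ G, Tr M a g i j)
  act : ∀ g ∈ G, ∀ i j, Tr M a g i j → orderOf g = 2 ∧ ∀ z ∈ M (ρ i), g (t i z) = t j z

theorem exists_bd [Finite G] (h : IsPermuted M a G σ) (hU : UniqTr M a G) :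
    ∃ ρ t, BD M a G ρ t := by
  obtain ⟨ρ, t, h1, h2, h3, h4, h5⟩ := exists_t hU (fun i hi j hij => two_not h hi hij)
  exact ⟨ρ, t, h1, h2, h3, h4, h5⟩

variable {ρ : Fin r → Fin r} {t : Fin r → (L ≃ₐ[ℂ] L)}

theorem BD.one (hb : BD M a G ρ t) {i : Fin r} (hi : a i = 1) : a (ρ i) = 1 := by
  rcases hb.rep i with ⟨h1, -⟩ | h1
  · rw [h1]; exact hi
  · exact h1.2.1

theorem BD.map (hb : BD M a G ρ t) (i : Fin r) : ∀ z ∈ M (ρ i), t i z ∈ M i := by
  intro z hz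
  rcases hb.rep i with ⟨h1, h2⟩ | h1
  · rw [h2]
    rw [h1] at hz
    exact hz
  · exact h1.2.2.2.1 z hz

theorem BD.map' [Finite G] (hb : BD M a G ρ t) (i : Fin r) : ∀ z ∈ M i, (t i).symm z ∈ M (ρ i) := by
  intro z hz
  rcases hb.rep i with ⟨h1, h2⟩ | h1
  · rw [h2, h1]
    exact hz
  · exact (h1.inv (finord (hb.mem i))).2.2.2.2.1 z hz

/-- the isomorphism with the representative -/
noncomputable def BD.T [Finite G] (hb : BD M a G ρ t) (i : Fin r) : M (ρ i) ≃ₐ[ℂ] M i :=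
  resEquiv (t i) (hb.map i) (hb.map' i)

theorem BD.T_coe [Finite G] (hb : BD M a G ρ t) (i : Fin r) (z : M (ρ i)) :
    (hb.T i z : L) = t i (z : L) := rfl

theorem BD.mem_blk (hb : BD M a G ρ t) (i : Fin r) : ρ i ∈ SB.blk M a G i := by
  have h1 : ρ i = ρ (ρ i) := (hb.idem i).symm
  rcases (hb.blk i (ρ i)).1 h1 with h2 | h2
  · exact Or.inl h2.symm
  · exact Or.inr h2

open Classical in
/-- the matrix with the functions `F` on the representatives -/
noncomputable def Cm [Finite G] (hb : BD M a G ρ t) (F : ∀ b, Fin r → M b) (i : Cur a)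
    (c : Cur a) : M i.1 :=
  if ρ c.1 = ρ i.1 then hb.T i.1 (F (ρ i.1) c.1) else 0

theorem cm_same [Finite G] (hb : BD M a G ρ t) (F : ∀ b, Fin r → M b) {i c : Cur a}
    (h : ρ c.1 = ρ i.1) : (Cm hb F i c : L) = t i.1 (F (ρ i.1) c.1 : L) := by
  unfold Cm
  rw [if_pos h]
  rfl

theorem cm_diff [Finite G] (hb : BD M a G ρ t) (F : ∀ b, Fin r → M b) {i c : Cur a}
    (h : ρ c.1 ≠ ρ i.1) : Cm hb F i c = 0 := by
  unfold Cm
  rw [if_neg h]

theorem cm_reg [Finite G] (hb : BD M a G ρ t) {F : ∀ b, Fin r → M b} {W : ∀ b, M b}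
    (hF : ∀ b, a b = 1 → ∀ c, RegF (k := ℂ) (fun _ : Fin (a b) => W b) 1 (F b c)) (i c : Cur a) :
    RegF (k := ℂ) (fun _ : Fin (a i.1) => hb.T i.1 (W (ρ i.1))) 1 (Cm hb F i c) := by
  unfold Cm
  split_ifs with hc
  · have h1 := hF (ρ i.1) (hb.one i.2) c.1
    have h2 : RegF (k := ℂ) (fun _ : Fin (a i.1) => W (ρ i.1)) 1 (F (ρ i.1) c.1) := by
      have h3 : a (ρ i.1) = a i.1 := by rw [hb.one i.2, i.2]
      rw [← h3]
      exact h1
    exact h2.push (hb.T i.1)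
  · exact RegF.zero _ _

theorem cm_det [Finite G] (h : IsPermuted M a G σ) (hb : BD M a G ρ t) {F : ∀ b, Fin r → M b}
    (hF : ∀ b, a b = 1 → LinearIndependent ℂ (fun c : {c : Fin r // ρ c = b} => F b c)) :
    (Matrix.of fun i c : Cur a => (Cm hb F i c : L)).det ≠ 0 := by
  classical
  have htri : (Matrix.of fun i c : Cur a => (Cm hb F i c : L)).BlockTriangular
      (fun i : Cur a => ρ i.1) := by
    intro i c hlt
    rw [Matrix.of_apply, cm_diff hb F (ne_of_lt hlt)]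
    rfl
  rw [htri.det_fintype]
  refine Finset.prod_ne_zero_iff.2 fun b _ => ?_
  let S : Type := {i : Cur a // ρ i.1 = b}
  rcases isEmpty_or_nonempty S with hS | ⟨⟨s0, hs0⟩⟩
  · rw [Matrix.det_isEmpty]
    exact one_ne_zero
  have hb1 : a b = 1 := by rw [← hs0]; exact hb.one s0.2
  let φ : S → (M b →ₐ[ℂ] L) := fun s => ((t s.1.1 : L ≃ₐ[ℂ] L) : L →ₐ[ℂ] L).comp (M b).val
  have hφ : ∀ (s : S) x, φ s x ∈ M s.1.1 := by
    intro s x
    apply hb.map s.1.1
    rw [s.2]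
    exact x.2
  have h1 := det_ne' φ (fun s => oth M s.1.1) (fun i j hij x => le_oth M (fun h0 => hij
    (Subtype.ext (Subtype.ext h0))) (hφ j x)) (fun s p β hβ => by
      have h2 := ld_oth h.trdeg h.total h.sup s.1.1 (fun c => (⟨φ s (β c), hφ s _⟩ : M s.1.1))
        (by
          let ψ : M b →ₐ[ℂ] M s.1.1 := (φ s).codRestrict (M s.1.1).toSubalgebra (hφ s)
          have h3 := hβ.map' ψ.toLinearMap (LinearMap.ker_eq_bot.2 ψ.injective)
          exact h3)
      exact h2) (fun s => F b s.1.1) (by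
      have h2 := hF b hb1
      exact h2.comp (fun s : S => (⟨s.1.1, s.2⟩ : {c : Fin r // ρ c = b})) (fun s s' hss => by
        have h3 : s.1.1 = s'.1.1 :=
          congrArg (fun z : {c : Fin r // ρ c = b} => (z : Fin r)) hss
        exact Subtype.ext (Subtype.ext h3)))
  have h2 : (Matrix.of fun i c : Cur a => (Cm hb F i c : L)).toSquareBlock
      (fun i : Cur a => ρ i.1) b = Matrix.of fun (i : S) (j : S) => φ i (F b j.1.1) := by
    ext i j
    change (Cm hb F i.1 j.1 : L) = t i.1.1 (F b j.1.1 : L)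
    have hi : ρ i.1.1 = b := i.2
    have hj : ρ j.1.1 = b := j.2
    rw [cm_same hb F (hj.trans hi.symm), hi]
  rw [h2]
  exact h1

theorem cm_act [Finite G] (hb : BD M a G ρ t) (F : ∀ b, Fin r → M b) {g : L ≃ₐ[ℂ] L} (hg : g ∈ G)
    {i j : Fin r} (hij : Tr M a g i j) (c : Cur a) :
    g (Cm hb F ⟨i, hij.2.1⟩ c : L) = Cm hb F ⟨j, hij.2.2.1⟩ c := by
  obtain ⟨-, hact⟩ := hb.act g hg i j hij
  have hρij : ρ i = ρ j := (hb.blk i j).2 (Or.inr ⟨g, hg, hij⟩)
  by_cases hc : ρ c.1 = ρ i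
  · have hc' : ρ c.1 = ρ j := hc.trans hρij
    rw [cm_same hb F (i := ⟨i, hij.2.1⟩) hc, cm_same hb F (i := ⟨j, hij.2.2.1⟩) hc']
    change g (t i (F (ρ i) c.1 : L)) = t j (F (ρ j) c.1 : L)
    rw [hact _ (F (ρ i) c.1).2]
    congr 1
    rw [hρij]
  · have hc' : ¬ ρ c.1 = ρ j := fun h => hc (h.trans hρij.symm)
    rw [cm_diff hb F (i := ⟨i, hij.2.1⟩) hc, cm_diff hb F (i := ⟨j, hij.2.2.1⟩) hc']
    change g 0 = 0
    rw [map_zero]

theorem T_act [Finite G] (hb : BD M a G ρ t) (W : ∀ b, M b) {g : L ≃ₐ[ℂ] L} (hg : g ∈ G)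
    {i j : Fin r} (hij : Tr M a g i j) : g (hb.T i (W (ρ i)) : L) = hb.T j (W (ρ j)) := by
  obtain ⟨-, hact⟩ := hb.act g hg i j hij
  have hρij : ρ i = ρ j := (hb.blk i j).2 (Or.inr ⟨g, hg, hij⟩)
  rw [hb.T_coe, hb.T_coe, hact _ (W (ρ i)).2]
  congr 1
  rw [hρij]

end

end Pool.Agent.H908.SB
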