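import Pool.Agent.H908.SD1

/-! Linear disjointness of a curve and a field over which it is not algebraic; transcendence degrees
of composita. -/

set_option autoImplicit false
set_option linter.overlappingInstances false
set_option linter.unusedSectionVars false
set_option linter.unusedVariables false

open FF IntermediateField Pool.Agent.W619.PQ Pool.Agent.W619.PL Pool.Agent.W619.TW
  Pool.Agent.W603.LV Pool.Agent.W619.Y Pool.Agent.W672.PG Pool.Agent.W824.PG Pool.Agent.Y174
  Pool.Agent.K1H17.IS Pool.Agent.K1H6.PQ

namespace Pool.Agent.H908.SB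

section

variable {k : Type} {L : Type} [Field k] [CharZero k] [IsAlgClosed k] [Field L] [Algebra k L]

/-- Linear disjointness. -/
theorem ld_transc (V N : IntermediateField k L) [hff : IsFF k N] {w : N}
    (hw : Transcendental k w) (hwV : ¬ IsAlgebraic V (w : L)) {ι : Type} (β : ι → N)
    (hβ : LinearIndependent k β) : LinearIndependent V (fun i => (β i : L)) := by
  classical
  let S : IntermediateField k L := V ⊔ N
  have hVS : V ≤ S := le_sup_left
  have hNS : N ≤ S := le_sup_right
  let V1 : IntermediateField k S := restrict hVS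
  let N1 : IntermediateField k S := restrict hNS
  let eV := restrictAlgEquiv hVS
  let eN := restrictAlgEquiv hNS
  have hffN : IsFF k N1 := ⟨(Algebra.EssFiniteType.iff_of_algEquiv eN).1 hff.ess, by
    rw [← hff.trdeg]; exact eN.symm.trdeg_eq⟩
  have hsup : V1 ⊔ N1 = ⊤ := by
    apply lift_injective S
    rw [lift_top, IntermediateField.lift, IntermediateField.map_sup]
    exact congrArg₂ _ (lift_restrict hVS) (lift_restrict hNS)
  have hcur : Pool.Agent.W619.TW.Cur V1 N1 := by
    refine ⟨hffN, fun x hx halg => ?_, hsup⟩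
    apply hwV
    -- `w` is algebraic over `V (x)`, hence over `V`
    have h1 : IsAlgebraic V ((x : S) : L) := by
      have h2 : IsAlgebraic V1 (x : S) := halg
      let g : V1 →+* V := (eV.symm : V1 →ₐ[k] V)
      have hg : ∀ z : V1, ((g z : V) : L) = ((z : S) : L) := by
        intro z
        have h3 := eV.apply_symm_apply z
        conv_rhs => rw [← h3]
        rfl
      exact h2.ringHom_of_comp_eq g (algebraMap S L) g.injective (by
        ext z
        exact hg z)
    let x' : N := eN.symm x
    have hx'c : ((x' : N) : L) = ((x : S) : L) := by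
      have h3 := eN.apply_symm_apply x
      conv_rhs => rw [← h3]
      rfl
    have hx' : Transcendental k x' := by
      intro h3
      apply hx
      have h4 := h3.algHom (eN : N →ₐ[k] N1)
      have h5 : (eN : N →ₐ[k] N1) x' = x := eN.apply_symm_apply x
      rwa [h5] at h4
    have h3 := alg_of_mem N hx' ((algebraicClosure V L).restrictScalars k) (by
      rw [mem_restrictScalars, mem_algebraicClosure_iff, hx'c]
      exact h1) w
    have h4 : IsAlgebraic (algebraicClosure V L) (w : L) := h3
    exact h4.restrictScalars V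
  have hβ1 : LinearIndependent k (fun i => eN (β i)) :=
    hβ.map' eN.toLinearMap (LinearMap.ker_eq_bot.2 eN.injective)
  have h1 := Pool.Agent.W381.PG.linDisj' hcur _ hβ1
  rw [linearIndependent_iff'] at h1 ⊢
  intro s g hg i hi
  have h2 := h1 s (fun i => eV (g i)) (by
    apply Subtype.ext
    rw [AddSubmonoidClass.coe_finsetSum]
    change _ = (0 : L)
    rw [← hg]
    refine Finset.sum_congr rfl fun i _ => ?_
    rw [Algebra.smul_def, Algebra.smul_def]
    rfl) i hi
  have h3 : eV (g i) = eV 0 := by rw [h2, map_zero]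
  exact eV.injective h3

/-- The transcendence degree of a field which is algebraic over a compositum. -/
theorem trdeg_le_alg {r : ℕ} {d : Fin r → ℕ} (M : Fin r → IntermediateField k L)
    (hM : ∀ i, Algebra.trdeg k (M i) = d i) (halg : Algebra.IsAlgebraic ↥(⨆ i, M i) L) :
    Algebra.trdeg k L ≤ (∑ i, d i : ℕ) := by
  obtain ⟨N, hN⟩ : ∃ N, N = ⨆ i, M i := ⟨_, rfl⟩
  rw [← hN] at halg
  have hMN : ∀ i, M i ≤ N := fun i => by rw [hN]; exact le_iSup M i
  let M0 : Fin r → IntermediateField k N := fun j => restrict (hMN j)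
  have hM0 : ∀ j, Algebra.trdeg k (M0 j) = d j := fun j => by
    rw [← hM]; exact (restrictAlgEquiv (hMN j)).symm.trdeg_eq
  have hsup0 : (⨆ j, M0 j) = ⊤ := by
    apply lift_injective N
    rw [lift_top, IntermediateField.lift, IntermediateField.map_iSup]
    have e1 : (⨆ j, IntermediateField.map N.val (M0 j)) = ⨆ j, M j :=
      iSup_congr fun j => lift_restrict (hMN j)
    rw [e1]
    exact hN.symm
  have h1 := trdeg_le_iSup M0 hM0 hsup0
  have h2 := trdeg_add_eq k N (A := L)
  rw [trdeg_eq_zero_iff.2 halg, add_zero] at h2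
  rw [← h2]
  exact h1

/-- the field generated by one element -/
theorem trdeg_simple (v : L) : ∃ d : ℕ, d ≤ 1 ∧ Algebra.trdeg k k⟮v⟯ = d ∧
    (d = 1 → Transcendental k (⟨v, mem_adjoin_simple_self k v⟩ : k⟮v⟯)) := by
  by_cases hv : IsAlgebraic k v
  · refine ⟨0, by omega, ?_, fun h => absurd h (by omega)⟩
    rw [Nat.cast_zero, trdeg_eq_zero_iff]
    exact IntermediateField.isAlgebraic_adjoin_simple hv.isIntegral
  · have hv' : Transcendental k (⟨v, mem_adjoin_simple_self k v⟩ : k⟮v⟯) := by
      intro h
      exact hv (h.algebraMap (A := L))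
    refine ⟨1, le_rfl, ?_, fun _ => hv'⟩
    have hff : IsFF k k⟮v⟯ := by
      refine IsFF.of_finite hv' ?_
      have h1 : IntermediateField.adjoin k {(⟨v, mem_adjoin_simple_self k v⟩ : k⟮v⟯)} = ⊤ := by
        apply lift_injective k⟮v⟯
        rw [lift_top, lift_adjoin_simple]
      rw [h1]
      exact Module.Finite.of_surjective
        (Algebra.linearMap (⊤ : IntermediateField k k⟮v⟯) k⟮v⟯) fun z => ⟨⟨z, trivial⟩, rfl⟩
    rw [hff.trdeg, Nat.cast_one]

end

end Pool.Agent.H908.SB
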