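import Pool.Agent.H908.SD2

/-! Kodaira dimension of quotients of products with reflections. -/

set_option autoImplicit false
set_option linter.overlappingInstances false
set_option linter.unusedSectionVars false
set_option linter.unusedVariables false
set_option maxHeartbeats 4000000
set_option synthInstance.maxHeartbeats 400000

open FF IntermediateField Pool.Agent.W619.PQ Pool.Agent.W619.PL Pool.Agent.W619.TW
  Pool.Agent.W603.LV Pool.Agent.W619.Y Pool.Agent.W672.PG Pool.Agent.W824.PG Pool.Agent.Y174
  Pool.Agent.K1H17.IS Pool.Agent.K1H6.PQ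

namespace Pool.Agent.H908.SB

open Pool.Agent.Helper11K9.OD (regularForms)

section

variable {L : Type} [Field L] [Algebra ℂ L]
variable {r : ℕ} {M : Fin r → IntermediateField ℂ L} {a : Fin r → ℕ}
  {G : Subgroup (L ≃ₐ[ℂ] L)} {σ : G →* Equiv.Perm (Fin r)}

open Classical in
/-- the functions, with one of them replaced -/
noncomputable def Fx (F : ∀ b, Fin r → M b) (X : ∀ b, M b) (c : Fin r) (b : Fin r) (c' : Fin r) :
    M b :=
  if c' = c then X b else F b c'

open Classical in
/-- **Kodaira dimension.** -/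
theorem kod_main [Finite G] (h : IsPermuted M a G σ) (hU : UniqTr M a G)
    (hage : ∀ g : G, g ≠ 1 → (∃ w : Place ℂ L, IsDivisorial w (∑ i, a i) ∧
      Inert w (g : L ≃ₐ[ℂ] L)) → (∃ i j, Tr M a (g : L ≃ₐ[ℂ] L) i j) ∨
      1 ≤ age M a (σ g) (fun _ _ => 0) (g : L ≃ₐ[ℂ] L))
    {A : Fin r → ℕ} (hbig : ∀ i, a i ≠ 1 → KodTr ℂ (M i) (a i) (A i))
    (hcur : ∀ i, a i = 1 → (blk M a G i).ncard ≤ Module.finrank ℂ (regularForms (M i)))
    (hA : ∀ i, a i = 1 → A i = 0 ∨ (A i = 1 ∧ ∀ j ∈ blk M a G i,
      (blk M a G j).ncard < Module.finrank ℂ (regularForms (M j)))) :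
    KodTr ℂ (fixedField G) (∑ i, a i) (∑ i, A i) := by
  obtain ⟨ρ, t, hb⟩ := exists_bd h hU
  -- coordinates
  choose y0 hy0 using fun i => Pool.Agent.W636.PG.exists_basis ℂ (M i) (a i) (h.trdeg i)
  let W : ∀ i, M i := fun i => if h : a i = 1 then y0 i ⟨0, by omega⟩ else 0
  have hWc : ∀ i, a i = 1 → ∀ n, n = 1 → IsTranscendenceBasis ℂ (fun _ : Fin n => W i) := by
    intro i hi n hn
    have h1 : y0 i = fun _ : Fin (a i) => W i := by
      funext q
      simp only [W, dif_pos hi]
      congr 1
      apply Fin.ext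
      have := q.2
      simp only
      omega
    have h2 := hy0 i
    rw [h1] at h2
    have h3 : a i = n := by omega
    subst h3
    exact h2
  -- forms on the representatives
  have hforms : ∀ i, ∃ (E : Derivation ℂ (M i) (M i)) (F : Fin r → M i) (X : M i),
      a i = 1 → (∀ c, RegF (k := ℂ) (fun _ : Fin (a i) => W i) 1 (F c)) ∧
      RegF (k := ℂ) (fun _ : Fin (a i) => W i) 1 X ∧
      LinearIndependent ℂ (fun c : {c : Fin r // ρ c = i} => F c) ∧
      ((blk M a G i).ncard < Module.finrank ℂ (regularForms (M i)) →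
        LinearIndependent ℂ (fun o : Option {c : Fin r // ρ c = i} => o.elim X fun c => F c)) := by
    intro i
    by_cases hi : a i = 1
    swap
    · exact ⟨0, 0, 0, fun h => absurd h hi⟩
    obtain ⟨E0, hE0⟩ := Pool.Agent.W636.PG.exists_duals ℂ (M i) 1 _ (hWc i hi 1 rfl)
    have hE : E0 0 (W i) = 1 := by
      have := hE0 0 0
      rwa [if_pos rfl] at this
    have hcard0 : Fintype.card {c : Fin r // ρ c = i} ≤ (blk M a G i).ncard := by
      rw [← Nat.card_eq_fintype_card]
      change Nat.card ↥{c : Fin r | ρ c = i} ≤ _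
      rw [Nat.card_coe_set_eq]
      refine Set.ncard_le_ncard (fun c hc => ?_) (Set.toFinite _)
      have hc' : ρ c = i := hc
      have h1 : ρ i = ρ c := by rw [← hc', hb.idem]
      rcases (hb.blk i c).1 h1 with h2 | ⟨g, hg, h2⟩
      · exact Or.inl h2.symm
      · exact Or.inr ⟨g, hg, h2⟩
    by_cases hlt : (blk M a G i).ncard < Module.finrank ℂ (regularForms (M i))
    · have hcard : Fintype.card (Option {c : Fin r // ρ c = i}) ≤
          Module.finrank ℂ (regularForms (M i)) := by
        rw [Fintype.card_option]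
        omega
      obtain ⟨ω, hω⟩ := exists_indep (V := regularForms (M i)) hcard
      have h1 := indep_forms (hWc i hi 1 rfl) hE hω
      refine ⟨E0 0, fun c => if h : ρ c = i then (ω (some ⟨c, h⟩) :
        Derivation ℂ (M i) (M i) →ₗ[M i] M i) (E0 0) else 0,
        (ω none : Derivation ℂ (M i) (M i) →ₗ[M i] M i) (E0 0), fun _ =>
        ⟨fun c => ?_, regF_of_form (hWc i hi 1 rfl) hE (ω none).2 hi, ?_, fun _ => ?_⟩⟩
      · by_cases hc : ρ c = i
        · simp only [dif_pos hc]
          exact regF_of_form (hWc i hi 1 rfl) hE (ω (some ⟨c, hc⟩)).2 hi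
        · simp only [dif_neg hc]
          exact RegF.zero _ _
      · have h2 := h1.comp some (Option.some_injective _)
        have h3 : (fun c : {c : Fin r // ρ c = i} => if h : ρ (c : Fin r) = i then
            (ω (some ⟨c, h⟩) : Derivation ℂ (M i) (M i) →ₗ[M i] M i) (E0 0) else 0) =
            (fun s => (ω s : Derivation ℂ (M i) (M i) →ₗ[M i] M i) (E0 0)) ∘ some := by
          funext c
          simp only [dif_pos c.2]
          rfl
        rw [h3]
        exact h2
      · have h3 : (fun o : Option {c : Fin r // ρ c = i} => o.elim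
            ((ω none : Derivation ℂ (M i) (M i) →ₗ[M i] M i) (E0 0)) fun c =>
              if h : ρ (c : Fin r) = i then
              (ω (some ⟨c, h⟩) : Derivation ℂ (M i) (M i) →ₗ[M i] M i) (E0 0) else 0) =
            (fun s => (ω s : Derivation ℂ (M i) (M i) →ₗ[M i] M i) (E0 0)) := by
          funext o
          rcases o with - | c
          · rfl
          · change (if h : ρ (c : Fin r) = i then _ else _) = _
            rw [dif_pos c.2]
        rw [h3]
        exact h1
    · obtain ⟨ω, hω⟩ := exists_indep (V := regularForms (M i)) (hcard0.trans (hcur i hi))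
      refine ⟨E0 0, fun c => if h : ρ c = i then (ω ⟨c, h⟩ :
        Derivation ℂ (M i) (M i) →ₗ[M i] M i) (E0 0) else 0, 0, fun _ =>
        ⟨fun c => ?_, RegF.zero _ _, ?_, fun h => absurd h hlt⟩⟩
      · by_cases hc : ρ c = i
        · simp only [dif_pos hc]
          exact regF_of_form (hWc i hi 1 rfl) hE (ω ⟨c, hc⟩).2 hi
        · simp only [dif_neg hc]
          exact RegF.zero _ _
      · have h1 := indep_forms (hWc i hi 1 rfl) hE hω
        have h2 : (fun c : {c : Fin r // ρ c = i} => if h : ρ (c : Fin r) = i then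
            (ω ⟨c, h⟩ : Derivation ℂ (M i) (M i) →ₗ[M i] M i) (E0 0) else 0) =
            fun s => (ω s : Derivation ℂ (M i) (M i) →ₗ[M i] M i) (E0 0) := by
          funext c
          simp only [dif_pos c.2]
        rw [h2]
        exact h1
  choose E F X hEF using hforms
  -- coordinates
  let y : ∀ i, Fin (a i) → M i := fun i => if a i = 1 then fun _ => hb.T i (W (ρ i)) else y0 i
  have hy1 : ∀ i, a i = 1 → y i = fun _ => hb.T i (W (ρ i)) := fun i hi => by
    simp only [y, if_pos hi]
  have hy2 : ∀ i, a i ≠ 1 → y i = y0 i := fun i hi => by simp only [y, if_neg hi]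
  have hy : ∀ i, IsTranscendenceBasis ℂ (y i) := by
    intro i
    by_cases hi : a i = 1
    · rw [hy1 i hi]
      exact (hb.T i).isTranscendenceBasis (hWc (ρ i) (hb.one hi) (a i) hi)
    · rw [hy2 i hi]
      exact hy0 i
  -- the matrices
  have hCreg : ∀ i c, RegF (k := ℂ) (y i.1) 1 (Cm hb F i c) := by
    intro i c
    rw [hy1 i.1 i.2]
    exact cm_reg hb (fun b hb1 c => (hEF b hb1).1 c) i c
  have hCxreg : ∀ c0 i c, RegF (k := ℂ) (y i.1) 1 (Cm hb (Fx F X c0) i c) := by
    intro c0 i c
    rw [hy1 i.1 i.2]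
    refine cm_reg hb (fun b hb1 c => ?_) i c
    unfold Fx
    split_ifs
    · exact (hEF b hb1).2.1
    · exact (hEF b hb1).1 c
  let P : Fin r → Prop := fun i => a i = 1 ∧ ∀ j ∈ blk M a G i,
    (blk M a G j).ncard < Module.finrank ℂ (regularForms (M j))
  let d0 : L := (Matrix.of fun i c : Cur a => (Cm hb F i c : L)).det
  let dx : Fin r → L := fun c0 => (Matrix.of fun i c : Cur a => (Cm hb (Fx F X c0) i c : L)).det
  have hd0 : d0 ≠ 0 := cm_det h hb fun b hb1 => (hEF b hb1).2.2.1
  have hdx : ∀ c0, P c0 → dx c0 ≠ 0 := by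
    intro c0 hc0
    refine cm_det h hb fun b hb1 => ?_
    by_cases hbc : ρ c0 = b
    · have h1 := (hEF b hb1).2.2.2 (hc0.2 b (by rw [← hbc]; exact hb.mem_blk c0))
      let e : {c : Fin r // ρ c = b} → Option {c : Fin r // ρ c = b} := fun c =>
        if (c : Fin r) = c0 then none else some c
      have he : Function.Injective e := by
        intro c c' hcc
        by_cases h2 : (c : Fin r) = c0
        · by_cases h3 : (c' : Fin r) = c0
          · exact Subtype.ext (h2.trans h3.symm)
          · simp only [e, if_pos h2, if_neg h3] at hcc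
            exact absurd hcc (by simp)
        · by_cases h3 : (c' : Fin r) = c0
          · simp only [e, if_neg h2, if_pos h3] at hcc
            exact absurd hcc (by simp)
          · simp only [e, if_neg h2, if_neg h3] at hcc
            exact Option.some_injective _ hcc
      have h2 := h1.comp e he
      have h3 : (fun c : {c : Fin r // ρ c = b} => Fx F X c0 b c) =
          (fun o : Option {c : Fin r // ρ c = b} => o.elim (X b) fun c => F b c) ∘ e := by
        funext c
        rw [Function.comp_apply]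
        by_cases h4 : (c : Fin r) = c0
        · simp only [e, if_pos h4, Fx]
          rfl
        · simp only [e, if_neg h4, Fx]
          rfl
      rw [h3]
      exact h2
    · have h3 : (fun c : {c : Fin r // ρ c = b} => Fx F X c0 b c) =
          fun c : {c : Fin r // ρ c = b} => F b c := by
        funext c
        have h4 : (c : Fin r) ≠ c0 := fun h => hbc (by rw [← h]; exact c.2)
        simp only [Fx, if_neg h4]
      rw [h3]
      exact (hEF b hb1).2.2.1
  let v : Fin r → L := fun c => dx c / d0
  -- the rule of Cramer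
  have hcramer : ∀ i : Cur a, (hb.T i.1 (X (ρ i.1)) : L) =
      ∑ c : Cur a, if ρ c.1 = ρ i.1 then v c.1 * (hb.T i.1 (F (ρ i.1) c.1) : L) else 0 := by
    intro i
    let Mt : Matrix (Cur a) (Cur a) L := Matrix.of fun i c : Cur a => (Cm hb F i c : L)
    let bv : Cur a → L := fun j => if ρ j.1 = ρ i.1 then (hb.T j.1 (X (ρ j.1)) : L) else 0
    have h1 := congrFun (Matrix.mulVec_cramer Mt bv) i
    have h2 : (Mt.det • bv) i = d0 * (hb.T i.1 (X (ρ i.1)) : L) := by
      rw [Pi.smul_apply, smul_eq_mul]
      simp only [bv, if_true]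
      rfl
    rw [h2] at h1
    have h3 : (hb.T i.1 (X (ρ i.1)) : L) = (Mt.mulVec (Mt.cramer bv)) i / d0 := by
      rw [h1, mul_div_cancel_left₀ _ hd0]
    rw [h3, Matrix.mulVec_eq_sum, Finset.sum_apply, Finset.sum_div]
    refine Finset.sum_congr rfl fun c _ => ?_
    change Mt i c * Mt.cramer bv c / d0 = _
    rw [mul_comm, Matrix.cramer_apply]
    by_cases hc : ρ c.1 = ρ i.1
    · rw [if_pos hc]
      have h4 : (Mt.updateCol c bv) = Matrix.of fun j c' : Cur a =>
          (Cm hb (Fx F X c.1) j c' : L) := by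
        ext j c'
        rw [Matrix.updateCol_apply]
        by_cases hcc : c' = c
        · subst hcc
          rw [if_pos rfl, Matrix.of_apply]
          by_cases hj : ρ j.1 = ρ i.1
          · simp only [bv, if_pos hj]
            rw [cm_same hb _ (hc.trans hj.symm), BD.T_coe]
            simp only [Fx, if_true]
          · simp only [bv, if_neg hj]
            rw [cm_diff hb _ (fun h => hj (h.symm.trans hc))]
            rfl
        · rw [if_neg hcc]
          have hcc' : c'.1 ≠ c.1 := fun h => hcc (Subtype.ext h)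
          change (Cm hb F j c' : L) = Cm hb (Fx F X c.1) j c'
          by_cases hj : ρ c'.1 = ρ j.1
          · rw [cm_same hb _ hj, cm_same hb _ hj]
            simp only [Fx, if_neg hcc']
          · rw [cm_diff hb _ hj, cm_diff hb _ hj]
      rw [h4]
      change dx c.1 * (Cm hb F i c : L) / d0 = dx c.1 / d0 * _
      rw [cm_same hb _ hc, BD.T_coe]
      ring
    · rw [if_neg hc]
      change _ * (Cm hb F i c : L) / d0 = 0
      rw [cm_diff hb _ hc]
      change _ * (0 : L) / d0 = 0
      rw [mul_zero, zero_div]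
  -- the fields
  let M' : Fin r → IntermediateField ℂ L := fun i => if P i then ℂ⟮v i⟯ else M i
  have hM'1 : ∀ i, P i → M' i = ℂ⟮v i⟯ := fun i hi => by simp only [M', if_pos hi]
  have hM'2 : ∀ i, ¬ P i → M' i = M i := fun i hi => by simp only [M', if_neg hi]
  obtain ⟨V, hV⟩ : ∃ V, V = ⨆ i, M' i := ⟨_, rfl⟩
  have hM'V : ∀ i, M' i ≤ V := fun i => by rw [hV]; exact le_iSup M' i
  have hPblk : ∀ i c, P i → ρ c = ρ i → P c := by
    intro i c hi hc
    have hac : a c = 1 := by
      rcases (hb.blk c i).1 hc with h1 | ⟨g, -, h1⟩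
      · rw [h1]; exact hi.1
      · exact h1.2.1
    refine ⟨hac, fun j hj => hi.2 j ?_⟩
    have h1 : ρ c = ρ j := (hb.blk c j).2 (by
      rcases hj with h2 | h2
      · exact Or.inl h2.symm
      · exact Or.inr h2)
    rcases (hb.blk i j).1 (hc.symm.trans h1) with h2 | h2
    · exact Or.inl h2.symm
    · exact Or.inr h2
  have hMV : ∀ i, ∀ z ∈ M i, IsAlgebraic V z := by
    intro i z hz
    by_cases hi : P i
    swap
    · have h1 : z ∈ V := hM'V i (by rw [hM'2 i hi]; exact hz)
      exact isAlgebraic_algebraMap (⟨z, h1⟩ : V)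
    have hff : IsFF ℂ (M i) := ⟨h.ess i, by rw [h.trdeg, hi.1, Nat.cast_one]⟩
    let w : M i := hb.T i (W (ρ i))
    have hw : Transcendental ℂ w := by
      have h1 := (hb.T i).isTranscendenceBasis (hWc (ρ i) (hb.one hi.1) 1 rfl)
      exact h1.1.transcendental 0
    have hwV : IsAlgebraic V (w : L) := by
      by_contra hcon
      have hsm := (hEF (ρ i) (hb.one hi.1)).2.2.2 (hi.2 _ (hb.mem_blk i))
      have h1 : LinearIndependent ℂ (fun o : Option {c : Cur a // ρ c.1 = ρ i} =>
          hb.T i (o.elim (X (ρ i)) fun c => F (ρ i) c.1.1)) := by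
        let e : Option {c : Cur a // ρ c.1 = ρ i} → Option {c : Fin r // ρ c = ρ i} :=
          Option.map fun c => ⟨c.1.1, c.2⟩
        have he : Function.Injective e := Option.map_injective fun c c' hcc => by
          have h2 : c.1.1 = c'.1.1 :=
            congrArg (fun z : {c : Fin r // ρ c = ρ i} => (z : Fin r)) hcc
          exact Subtype.ext (Subtype.ext h2)
        have h2 := hsm.comp e he
        have h3 := h2.map' (hb.T i).toLinearMap (LinearMap.ker_eq_bot.2 (hb.T i).injective)
        have h4 : (fun o : Option {c : Cur a // ρ c.1 = ρ i} =>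
            hb.T i (o.elim (X (ρ i)) fun c => F (ρ i) c.1.1)) = (hb.T i).toLinearMap ∘
            ((fun o : Option {c : Fin r // ρ c = ρ i} =>
              o.elim (X (ρ i)) fun c => F (ρ i) c) ∘ e) := by
          funext o
          rcases o with - | c <;> rfl
        rw [h4]
        exact h3
      have h2 := ld_transc V (M i) hw hcon _ h1
      rw [Fintype.linearIndependent_iff] at h2
      have hvV : ∀ c : {c : Cur a // ρ c.1 = ρ i}, v c.1.1 ∈ V := fun c => hM'V c.1.1 (by
        rw [hM'1 _ (hPblk i c.1.1 hi c.2)]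
        exact mem_adjoin_simple_self ℂ _)
      have h3 := h2 (fun o => o.elim (-1) fun c => ⟨v c.1.1, hvV c⟩) (by
        rw [Fintype.sum_option]
        have h4 := hcramer ⟨i, hi.1⟩
        rw [← Finset.sum_filter, ← Finset.sum_subtype_eq_sum_filter] at h4
        change (-1 : V) • (hb.T i (X (ρ i)) : L) + _ = 0
        rw [neg_smul, one_smul]
        rw [h4, neg_add_eq_zero]
        refine Finset.sum_bij' (fun c hc => (⟨c.1, c.2⟩ : {c : Cur a // ρ c.1 = ρ i}))
          (fun c hc => ⟨c.1, c.2⟩) ?_ ?_ ?_ ?_ ?_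
        · intro c hc; exact Finset.mem_univ _
        · intro c hc; simp
        · intro c hc; rfl
        · intro c hc; rfl
        · intro c hc; rfl) none
      have h4 : (-1 : V) = 0 := h3
      exact neg_ne_zero.2 one_ne_zero h4
    have h2 := alg_of_mem (M i) hw ((algebraicClosure V L).restrictScalars ℂ) (by
      rw [mem_restrictScalars, mem_algebraicClosure_iff]
      exact hwV) ⟨z, hz⟩
    have h3 : IsAlgebraic (algebraicClosure V L) z := h2
    exact h3.restrictScalars V
  have halg' : Algebra.IsAlgebraic ↥(⨆ i, M' i) L := by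
    rw [← hV]
    refine ⟨fun z => ?_⟩
    have h1 : (⊤ : IntermediateField ℂ L) ≤ (algebraicClosure V L).restrictScalars ℂ := by
      rw [← h.sup, iSup_le_iff]
      intro i z hz
      rw [mem_restrictScalars, mem_algebraicClosure_iff]
      exact hMV i z hz
    exact mem_algebraicClosure_iff.1 (h1 (x := z) trivial)
  have hdeg : ∀ i, ∃ d : ℕ, d ≤ a i ∧ Algebra.trdeg ℂ (M' i) = d := by
    intro i
    by_cases hi : P i
    · rw [hM'1 i hi, hi.1]
      obtain ⟨d, h1, h2, -⟩ := trdeg_simple (k := ℂ) (v i)
      exact ⟨d, h1, h2⟩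
    · rw [hM'2 i hi]
      exact ⟨a i, le_rfl, h.trdeg i⟩
  choose d hda hd using hdeg
  have hsum : ∀ i, d i = a i := by
    have h1 := trdeg_le_alg M' hd halg'
    rw [h.total] at h1
    have h2 : ∑ i, a i ≤ ∑ i, d i := by exact_mod_cast h1
    have h3 : ∑ i, d i ≤ ∑ i, a i := Finset.sum_le_sum fun i _ => hda i
    intro i
    exact (Finset.sum_eq_sum_iff_of_le (fun i _ => hda i)).1 (le_antisymm h3 h2) i
      (Finset.mem_univ i)
  have hM'deg : ∀ i, Algebra.trdeg ℂ (M' i) = a i := fun i => by rw [hd, hsum]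
  -- the other factors
  have hfex : ∀ i, ∃ (m : ℕ) (f : Fin (A i + 1) → M i), 1 ≤ m ∧ (∀ l, f l ≠ 0) ∧
      (a i ≠ 1 → (∀ l, RegF (k := ℂ) (y i) m (f l)) ∧
        AlgebraicIndependent ℂ (fun l : Fin (A i) => f l.succ / f 0)) := by
    intro i
    by_cases hi : a i = 1
    · exact ⟨1, fun _ => 1, le_rfl, fun _ => one_ne_zero, fun h => absurd hi h⟩
    · obtain ⟨E1, hE1⟩ := Pool.Agent.W636.PG.exists_duals ℂ (M i) (a i) (y i) (hy i)
      obtain ⟨m, hm, ω, hω1, hω2, hω3, hω4⟩ :=
        pairKod_form (pairKod_zero.2 (hbig i hi)) (y i) (hy i) E1 hE1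
      refine ⟨m, fun l => ω l E1, hm, hω3, fun _ => ⟨fun l u hu D hD => ?_, hω4⟩⟩
      have h2 : PF (y i) m (ω l E1) D = ω l D :=
        (Pool.Agent.W636.PG.form_eq ℂ (M i) (a i) m (y i) (hy i) E1 hE1 (ω l) (hω1 l) D).symm
      rw [h2]
      have h3 : GeR u ((0 : ℤ) : ℝ) (ω l D) := by simpa using hω2 l u hu D hD
      exact h3.toInt
  choose m f0 hm hf0 hfreg using hfex
  let μ : ℕ := ∏ i, m i
  have hμ : 1 ≤ μ := Nat.one_le_iff_ne_zero.2 (Finset.prod_ne_zero_iff.2 fun i _ => by
    have := hm i
    omega)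
  have hμi : ∀ i, ∃ N, μ = m i * N := fun i => Finset.dvd_prod_of_mem _ (Finset.mem_univ i)
  choose N hN using hμi
  have hN1 : ∀ i, 1 ≤ N i := by
    intro i
    by_contra hcon
    have h1 : N i = 0 := by omega
    have h2 := hN i
    rw [h1, mul_zero] at h2
    omega
  let fq : ∀ i, Fin (A i + 1) → M i := fun i l => if a i = 1 then 1 else f0 i l ^ N i
  have hfq1 : ∀ i l, a i = 1 → fq i l = 1 := fun i l hi => by simp only [fq, if_pos hi]
  have hfq2 : ∀ i l, a i ≠ 1 → fq i l = f0 i l ^ N i := fun i l hi => by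
    simp only [fq, if_neg hi]
  have hfq : ∀ i l, a i ≠ 1 → RegF (k := ℂ) (y i) μ (fq i l) := by
    intro i l hi
    rw [hfq2 i l hi, hN i]
    exact ((hfreg i hi).1 l).pow (N i)
  have hfqne : ∀ i l, fq i l ≠ 0 := by
    intro i l
    by_cases hi : a i = 1
    · rw [hfq1 i l hi]; exact one_ne_zero
    · rw [hfq2 i l hi]
      exact pow_ne_zero _ (hf0 i l)
  -- the family
  obtain ⟨τ⟩ : Nonempty (Fin (∑ i, A i) ≃ (Σ i, Fin (A i))) := ⟨finSigmaFinEquiv.symm⟩
  let Cl : Fin (∑ i, A i + 1) → ∀ i : Cur a, Cur a → M i.1 :=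
    Fin.cases (Cm hb F) fun p => if a (τ p).1 = 1 then Cm hb (Fx F X (τ p).1) else Cm hb F
  let fl : Fin (∑ i, A i + 1) → ∀ i, M i :=
    Fin.cases (fun i => fq i 0) fun p => if a (τ p).1 = 1 then (fun i => fq i 0) else
      Function.update (fun i => fq i 0) (τ p).1 (fq (τ p).1 (τ p).2.succ)
  have hP1 : ∀ p, a (τ p).1 = 1 → P (τ p).1 := by
    intro p hp
    refine ⟨hp, ?_⟩
    rcases hA _ hp with h1 | h1
    · have := (τ p).2.2
      omega
    · exact h1.2
  have hClreg : ∀ l i c, RegF (k := ℂ) (y i.1) 1 (Cl l i c) := by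
    intro l
    refine Fin.cases ?_ (fun p => ?_) l
    · exact hCreg
    · by_cases hp : a (τ p).1 = 1
      · simp only [Cl, Fin.cases_succ, if_pos hp]
        exact hCxreg _
      · simp only [Cl, Fin.cases_succ, if_neg hp]
        exact hCreg
  have hcstd : ∀ (C' : ∀ i : Cur a, Cur a → M i.1) (f' : ∀ i, M i), cst μ C' f' =
      (Matrix.of fun i c : Cur a => (C' i c : L)).det ^ μ * ∏ i, (f' i : L) := fun _ _ => rfl
  have hprod : ∏ i, ((fq i 0 : M i) : L) ≠ 0 := Finset.prod_ne_zero_iff.2 fun i _ h0 =>
    hfqne i 0 (Subtype.ext h0)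
  have hratio : ∀ p, cst μ (Cl p.succ) (fl p.succ) / cst μ (Cl 0) (fl 0) =
      if a (τ p).1 = 1 then v (τ p).1 ^ μ else
        ((fq (τ p).1 (τ p).2.succ / fq (τ p).1 0 : M (τ p).1) : L) := by
    intro p
    by_cases hp : a (τ p).1 = 1
    · rw [if_pos hp, hcstd, hcstd]
      simp only [Cl, fl, Fin.cases_succ, Fin.cases_zero, if_pos hp]
      rw [mul_div_mul_right _ _ hprod, ← div_pow]
    · rw [if_neg hp, hcstd, hcstd]
      simp only [Cl, fl, Fin.cases_succ, Fin.cases_zero, if_neg hp]
      rw [mul_div_mul_left _ _ (pow_ne_zero μ hd0), ← Finset.prod_div_distrib,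
        Finset.prod_eq_single (τ p).1]
      · rw [Function.update_self]
        rfl
      · intro i _ hi
        rw [Function.update_of_ne hi, div_self fun h0 => hfqne i 0 (Subtype.ext h0)]
      · intro h
        exact absurd (Finset.mem_univ _) h
  have hindep : AlgebraicIndependent ℂ (fun p : Fin (∑ i, A i) =>
      cst μ (Cl p.succ) (fl p.succ) / cst μ (Cl 0) (fl 0)) := by
    have hex : ∀ i, ∃ s : Fin (A i) → M' i, AlgebraicIndependent ℂ s ∧ ∀ q, (s q : L) =
        if a i = 1 then v i ^ μ else ((fq i q.succ / fq i 0 : M i) : L) := by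
      intro i
      by_cases hi : a i = 1
      · rcases hA i hi with h1 | ⟨h1, h2⟩
        · have hemp : IsEmpty (Fin (A i)) := by rw [h1]; infer_instance
          exact ⟨fun q => isEmptyElim q, (algebraicIndependent_empty_type_iff.2
            (algebraMap ℂ (M' i)).injective), fun q => isEmptyElim q⟩
        · have hPi : P i := ⟨hi, h2⟩
          obtain ⟨d', hd1, hd2, hd3⟩ := trdeg_simple (k := ℂ) (v i)
          have hd4 : d' = 1 := by
            have h3 := hM'deg i
            rw [hM'1 i hPi, hd2, hi] at h3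
            exact_mod_cast h3
          have htr := hd3 hd4
          have hvM : v i ∈ M' i := by
            rw [hM'1 i hPi]
            exact mem_adjoin_simple_self ℂ _
          have hvt : Transcendental ℂ (⟨v i, hvM⟩ : M' i) := by
            intro h3
            apply htr
            have h4 : IsAlgebraic ℂ (v i) := h3.algebraMap (A := L)
            exact (isAlgebraic_algebraMap_iff (algebraMap ℂ⟮v i⟯ L).injective).1 h4
          have hu : Unique (Fin (A i)) := by rw [h1]; infer_instance
          have h5 : AlgebraicIndependent ℂ (fun _ : Fin (A i) => (⟨v i, hvM⟩ : M' i)) :=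
            algebraicIndependent_unique_type_iff.2 hvt
          refine ⟨fun _ => (⟨v i, hvM⟩ : M' i) ^ μ, indep_pow _ h5 μ hμ, fun q => ?_⟩
          rw [if_pos hi]
          rfl
      · have hPi : ¬ P i := fun h => hi h.1
        have h1 := (hfreg i hi).2
        have h2 := indep_pow _ h1 (N i) (hN1 i)
        have hle : M i ≤ M' i := by rw [hM'2 i hPi]
        refine ⟨fun q => inclusion hle (fq i q.succ / fq i 0), ?_, fun q => ?_⟩
        · have h3 : AlgebraicIndependent ℂ (fun q : Fin (A i) => fq i q.succ / fq i 0) := by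
            have h4 : (fun q : Fin (A i) => fq i q.succ / fq i 0) =
                fun q : Fin (A i) => (f0 i q.succ / f0 i 0) ^ N i := by
              funext q
              rw [hfq2 i _ hi, hfq2 i _ hi, div_pow]
            rw [h4]
            exact h2
          exact h3.map' (inclusion hle).injective
        · rw [if_neg hi]
          rfl
    choose s hs1 hs2 using hex
    have h1 := indep_sigma M' halg' h.total hM'deg s hs1
    have h2 := h1.comp τ τ.injective
    have h3 : (fun p : Fin (∑ i, A i) =>
        cst μ (Cl p.succ) (fl p.succ) / cst μ (Cl 0) (fl 0)) =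
        (fun p : Σ i, Fin (A i) => (s p.1 p.2 : L)) ∘ τ := by
      funext p
      rw [hratio, Function.comp_apply, hs2]
    rw [h3]
    exact h2
  refine kod_forms h hμ hy (C := Cl) hClreg (f := fl) (fun l i hi => ?_) (fun l i hi => ?_)
    (fun l i => ?_) (fun l => ?_) hindep ?_
  · refine Fin.cases ?_ (fun p => ?_) l
    · exact hfq1 i 0 hi
    · by_cases hp : a (τ p).1 = 1
      · simp only [fl, Fin.cases_succ, if_pos hp]
        exact hfq1 i 0 hi
      · simp only [fl, Fin.cases_succ, if_neg hp]
        rw [Function.update_of_ne (fun h => hp (by rw [← h]; exact hi))]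
        exact hfq1 i 0 hi
  · refine Fin.cases ?_ (fun p => ?_) l
    · exact hfq i 0 hi
    · by_cases hp : a (τ p).1 = 1
      · simp only [fl, Fin.cases_succ, if_pos hp]
        exact hfq i 0 hi
      · simp only [fl, Fin.cases_succ, if_neg hp]
        by_cases hip : i = (τ p).1
        · subst hip
          rw [Function.update_self]
          exact hfq _ _ hi
        · rw [Function.update_of_ne hip]
          exact hfq i 0 hi
  · refine Fin.cases ?_ (fun p => ?_) l
    · exact hfqne i 0
    · by_cases hp : a (τ p).1 = 1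
      · simp only [fl, Fin.cases_succ, if_pos hp]
        exact hfqne i 0
      · simp only [fl, Fin.cases_succ, if_neg hp]
        by_cases hip : i = (τ p).1
        · subst hip
          rw [Function.update_self]
          exact hfqne _ _
        · rw [Function.update_of_ne hip]
          exact hfqne i 0
  · refine Fin.cases ?_ (fun p => ?_) l
    · exact hd0
    · by_cases hp : a (τ p).1 = 1
      · simp only [Cl, Fin.cases_succ, if_pos hp]
        exact hdx _ (hP1 p hp)
      · simp only [Cl, Fin.cases_succ, if_neg hp]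
        exact hd0
  · intro g hg1 hgw
    rcases hage g hg1 hgw with ⟨i, j, hij⟩ | h1
    swap
    · exact Or.inl h1
    right
    have key : ∀ i j, Tr M a (g : L ≃ₐ[ℂ] L) i j → ∀ q q',
        (g : L ≃ₐ[ℂ] L) (y i q : L) = y j q' := by
      intro i j hij q q'
      rw [hy1 i hij.2.1, hy1 j hij.2.2.1]
      exact T_act hb W g.2 hij
    have key2 : ∀ i j (hij : Tr M a (g : L ≃ₐ[ℂ] L) i j) l c,
        (g : L ≃ₐ[ℂ] L) (Cl l ⟨i, hij.2.1⟩ c : L) = Cl l ⟨j, hij.2.2.1⟩ c := by
      intro i j hij l
      refine Fin.cases ?_ (fun p => ?_) l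
      · exact fun c => cm_act hb F g.2 hij c
      · by_cases hp : a (τ p).1 = 1
        · simp only [Cl, Fin.cases_succ, if_pos hp]
          exact fun c => cm_act hb _ g.2 hij c
        · simp only [Cl, Fin.cases_succ, if_neg hp]
          exact fun c => cm_act hb F g.2 hij c
    exact ⟨(hb.act g g.2 i j hij).1, i, j, hij.2.1, hij.2.2.1, hij, key i j hij,
      key j i hij.symm, key2 i j hij, key2 j i hij.symm⟩

end

end Pool.Agent.H908.SB
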