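import Pool.Agent.H908.SD3
import Pool.Graph.R_seed8.W619.Y.Final
import Pool.Graph.R_pool_sql_team_seeded_3997aac3.Q36.PT.Pt

/-! Numerical dimension of curves. -/

set_option autoImplicit false
set_option linter.overlappingInstances false
set_option linter.unusedSectionVars false
set_option linter.unusedVariables false

open FF IntermediateField Pool.Agent.W603.LV Pool.Agent.W619.TW Pool.Agent.W619.PQ
  Pool.Agent.W824.PG Pool.Agent.Y174

namespace Pool.Agent.H908.SB

open Pool.Agent.Helper11K9.OD (regularForms derReg_of_vo RRS clifford mem_RRS RRS_le mem_RR_ge)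
open Pool.Agent.Helper11K9.PC (RR mem_RR)

section

variable {F : Type} [Field F] [Algebra ℂ F] [IsFF ℂ F]

theorem form_mem {D : Derivation ℂ F F} (hD : D ≠ 0) {ω : Derivation ℂ F F →ₗ[F] F}
    (hω : ω ∈ regularForms F) : ω D ∈ RR D hD := by
  rw [mem_RR_ge]
  intro P
  obtain ⟨δ, hδ⟩ : ∃ δ : Derivation ℂ F F, δ = (unif P) ^ (-vo P D) • D := ⟨_, rfl⟩
  have hu : unif P ≠ 0 := by
    intro h
    have h1 := ord_unif P
    rw [h, P.ord_zero] at h1
    omega
  have hu2 : (unif P) ^ (-vo P D) ≠ 0 := zpow_ne_zero _ hu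
  have hord : P.ord ((unif P) ^ (-vo P D)) = -vo P D := by
    rw [P.ord_zpow, ord_unif, mul_one]
  have h1 : vo P δ = 0 := by
    rw [hδ, vo_smul P hD hu2, hord]
    ring
  have hδ0 : δ ≠ 0 := by
    rw [hδ]
    exact smul_ne_zero hu2 hD
  have h2 : Ge P 0 (ω δ) := hω P δ (derReg_of_vo hδ0 h1.ge)
  rw [hδ, map_smul, smul_eq_mul] at h2
  have h3 := h2.of_mul hu2
  rw [hord] at h3
  exact h3.mono (by omega)

theorem exists_rr {D : Derivation ℂ F F} (hD : D ≠ 0)
    (h : 1 ≤ Module.finrank ℂ (regularForms F)) : ∃ f ∈ RR D hD, f ≠ 0 := by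
  have h1 : 0 < Module.finrank ℂ (regularForms F) := h
  have hnt : Nontrivial (regularForms F) := Module.nontrivial_of_finrank_pos h1
  obtain ⟨ω, hω⟩ := exists_ne (0 : regularForms F)
  refine ⟨(ω : Derivation ℂ F F →ₗ[F] F) D, form_mem hD ω.2, fun h0 => hω ?_⟩
  refine Subtype.ext (LinearMap.ext fun δ => ?_)
  obtain ⟨h, hh⟩ := der_smul (D' := δ) hD
  rw [hh, map_smul, h0, smul_zero]
  rfl

theorem canDeg_ge_zero (h : 1 ≤ Module.finrank ℂ (regularForms F)) : 0 ≤ canDeg ℂ F := by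
  have hD := der_ne (k := ℂ) (K := F)
  obtain ⟨f, hf, hf0⟩ := exists_rr hD h
  have hf' := (mem_RR.1 hf).resolve_left hf0
  have h1 := sum_ord (k := ℂ) f
  have h2 : (∑ᶠ P : Place ℂ F, vo P (der ℂ F)) ≤ ∑ᶠ P : Place ℂ F, P.ord f := by
    classical
    let T : Finset (Place ℂ F) := (vo_finite hD).toFinset ∪ (finite_support (k := ℂ) f).toFinset
    rw [finsum_eq_sum_of_support_subset (s := T), finsum_eq_sum_of_support_subset (s := T)]
    · exact Finset.sum_le_sum fun P _ => hf' P
    · intro P hP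
      rw [Finset.mem_coe, Finset.mem_union, Set.Finite.mem_toFinset, Set.Finite.mem_toFinset]
      exact Or.inr hP
    · intro P hP
      rw [Finset.mem_coe, Finset.mem_union, Set.Finite.mem_toFinset, Set.Finite.mem_toFinset]
      exact Or.inl hP
  unfold canDeg
  linarith

theorem canDeg_eq_zero (h : Module.finrank ℂ (regularForms F) = 1) : canDeg ℂ F = 0 := by
  have hD := der_ne (k := ℂ) (K := F)
  obtain ⟨f, hf, hf0⟩ := exists_rr hD h.ge
  have hf' := (mem_RR.1 hf).resolve_left hf0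
  have hle : Module.finrank ℂ (RR (der ℂ F) hD) ≤ 1 := h ▸ rr_le hD
  have hkey : ∀ P : Place ℂ F, vo P (der ℂ F) = P.ord f := by
    intro P
    by_contra hne
    have h1 : f ∈ RRS (der ℂ F) hD {P} := by
      rw [mem_RRS]
      refine ⟨fun Q => Or.inr (hf' Q), fun Q hQ => ?_⟩
      rw [Finset.mem_singleton] at hQ
      subst hQ
      have h2 := hf' Q
      exact Or.inr (by omega)
    have h2 : RRS (der ℂ F) hD {P} ≠ ⊥ := by
      intro h3
      rw [h3, Submodule.mem_bot] at h1
      exact hf0 h1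
    have h3 := clifford (D := der ℂ F) (hD := hD) {P} h2
    have h4 : 0 < Module.finrank ℂ (RRS (der ℂ F) hD {P}) := by
      rw [Nat.pos_iff_ne_zero, Ne, Submodule.finrank_eq_zero]
      exact h2
    rw [Finset.card_singleton] at h3
    omega
  have h1 := sum_ord (k := ℂ) f
  unfold canDeg
  simp only [hkey]
  rw [h1, neg_zero]

/-- The numerical dimension of a curve. -/
theorem numLe_curve (h : 1 ≤ Module.finrank ℂ (regularForms F)) :
    NumLe ℂ F 1 (fun _ => False) (if 2 ≤ Module.finrank ℂ (regularForms F) then 1 else 0) := by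
  classical
  have htop : IsFF ℂ (⊤ : IntermediateField ℂ F) := isFF_equiv
    (IntermediateField.topEquiv (F := ℂ) (E := F)).symm inferInstance
  have hess := Q36.PT.ess_bot ℂ F
  obtain ⟨-, -, h3⟩ := Pool.Agent.W619.Y.pMANY ℂ F 0 1 ⊥ (fun _ => ⊤)
    (Q36.PT.trdeg_bot ℂ F) (by
      rw [IsFF.trdeg (k := ℂ) (K := F)]; norm_num) (by rw [bot_sup_eq, iSup_const])
  have hcan : canDeg ℂ (⊤ : IntermediateField ℂ F) = canDeg ℂ F :=
    canDeg_equiv (IntermediateField.topEquiv (F := ℂ) (E := F))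
  have h4 := h3 0 (fun _ => by rw [hcan]; exact canDeg_ge_zero h) (Q36.PT.numLe_bot ℂ F)
  rw [zero_add, zero_add] at h4
  by_cases h2 : 2 ≤ Module.finrank ℂ (regularForms F)
  · rw [if_pos h2]
    intro S
    obtain ⟨c, hc⟩ := h4 S
    refine ⟨c, fun m N hm hN => (hc m N hm hN).trans ?_⟩
    refine Nat.mul_le_mul_left c (Nat.pow_le_pow_right hm ?_)
    refine (Set.ncard_le_ncard (Set.subset_univ _) (Set.toFinite _)).trans ?_
    rw [Set.ncard_univ, Nat.card_eq_fintype_card, Fintype.card_fin]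
  · rw [if_neg h2]
    have h5 : canDeg ℂ F = 0 := canDeg_eq_zero (by omega)
    have h6 : {i : Fin 1 | canDeg ℂ (⊤ : IntermediateField ℂ F) ≠ 0} = ∅ := by
      ext i
      simp only [Set.mem_setOf_eq, hcan, h5, ne_eq, not_true_eq_false, Set.mem_empty_iff_false]
    rw [h6, Set.ncard_empty] at h4
    exact h4

end

end Pool.Agent.H908.SB
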