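import Pool.Agent.H908.SD4

/-! Abundance for quotients of products by groups which permute the factors. -/

set_option autoImplicit false
set_option linter.overlappingInstances false
set_option linter.unusedSectionVars false
set_option linter.unusedVariables false

open FF IntermediateField Pool.Agent.W619.PQ Pool.Agent.W619.PL Pool.Agent.W619.TW
  Pool.Agent.W603.LV Pool.Agent.W619.Y Pool.Agent.W672.PG Pool.Agent.W824.PG Pool.Agent.Y174
  Pool.Agent.K1H17.IS Pool.Agent.K1H6.PQ

namespace Pool.Agent.H908.SB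

open Pool.Agent.Helper11K9.OD (regularForms)
open Pool.Agent.Helper11K9.PC (RR)

section

theorem point_top {L : Type} [Field L] [Algebra ℂ L] (h : Algebra.trdeg ℂ L = ((0 : ℕ) : Cardinal)) :
    (⊥ : IntermediateField ℂ L) = ⊤ := by
  have halg : Algebra.IsAlgebraic ℂ L := by
    rw [← _root_.trdeg_eq_zero_iff, h, Nat.cast_zero]
  rw [eq_top_iff]
  intro z _
  rw [IntermediateField.mem_bot]
  have h1 : IsAlgebraic ℂ z := halg.isAlgebraic z
  have h2 := IsAlgClosed.degree_eq_one_of_irreducible ℂ (minpoly.irreducible h1.isIntegral)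
  exact minpoly.mem_range_of_degree_eq_one ℂ z h2

variable {L : Type} [Field L] [Algebra ℂ L]
variable {r : ℕ} {M : Fin r → IntermediateField ℂ L} {a : Fin r → ℕ}
  {G : Subgroup (L ≃ₐ[ℂ] L)} {σ : G →* Equiv.Perm (Fin r)}

open Classical in
/-- The value of the Kodaira dimension. -/
noncomputable def kval (M : Fin r → IntermediateField ℂ L) (a A : Fin r → ℕ) (i : Fin r) : ℕ :=
  if a i = 0 then 0 else if a i = 1 then
    (if 2 ≤ Module.finrank ℂ (regularForms (M i)) then 1 else 0) else A i

theorem ff (h : IsPermuted M a G σ) {i : Fin r} (hi : a i = 1) : IsFF ℂ (M i) :=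
  ⟨h.ess i, by rw [h.trdeg, hi, Nat.cast_one]⟩

theorem blk_symm {i j : Fin r} (hj : j ∈ blk M a G i) : i ∈ blk M a G j := by
  rcases hj with hj | ⟨g, hg, hj⟩
  · exact Or.inl hj.symm
  · exact Or.inr ⟨g, hg, hj.symm⟩

/-- The values. -/
theorem values [Finite G] (h : IsPermuted M a G σ) (hG : Admissible M a G σ) (A : Fin r → ℕ)
    (hA : ∀ i, 2 ≤ a i → KodTr ℂ (M i) (a i) (A i) ∧ NumLe ℂ (M i) (a i) (fun _ => False) (A i))
    (hle : ∀ i, a i = 1 → (blk M a G i).ncard ≤ Module.finrank ℂ (regularForms (M i)))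
    (hlt : ∀ i, a i = 1 → 2 ≤ Module.finrank ℂ (regularForms (M i)) →
      (blk M a G i).ncard ≠ Module.finrank ℂ (regularForms (M i))) :
    KodTr ℂ (fixedField G) (∑ i, a i) (∑ i, kval M a A i) ∧
      NumLe ℂ (fixedField G) (∑ i, a i) (fun _ => False) (∑ i, kval M a A i) := by
  classical
  have hblk1 : ∀ i, 1 ≤ (blk M a G i).ncard := fun i => by
    rw [Nat.succ_le_iff, Set.ncard_pos (Set.toFinite _)]
    exact ⟨i, Or.inl rfl⟩
  constructor
  · refine kod_main h hG.uniq (fun g hg hgw => ?_) (fun i hi => ?_) hle (fun i hi => ?_)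
    · rcases hG.age g hg hgw with h2 | ⟨i, h2, h3⟩ | h2
      · exact Or.inl h2
      · right
        rw [age_eq]
        have h4 := permAge_ge a (σ g) (h.dim g) h2 h3
        have h5 := wsum_nonneg M (σ g) (fun _ _ => 0) (g : L ≃ₐ[ℂ] L)
        linarith
      · exact Or.inr h2
    · rcases Nat.lt_or_ge (a i) 2 with h3 | h3
      · have h4 : a i = 0 := by omega
        have h5 : kval M a A i = 0 := by simp only [kval, if_pos h4]
        rw [h5, h4]
        exact not_not.1 fun h6 => not_neg_zero (kod0_iff.1 h6)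
      · have h5 : kval M a A i = A i := by
          simp only [kval, if_neg hi, if_neg (show a i ≠ 0 by omega)]
        rw [h5]
        exact (hA i h3).1
    · by_cases h2 : 2 ≤ Module.finrank ℂ (regularForms (M i))
      · right
        refine ⟨by simp only [kval, if_pos h2, hi]; norm_num, fun j hj => ?_⟩
        have hj1 : a j = 1 := by
          rcases hj with hj | ⟨g, -, hj⟩
          · rw [hj]; exact hi
          · exact hj.2.2.1
        by_cases h3 : 2 ≤ Module.finrank ℂ (regularForms (M j))
        · exact lt_of_le_of_ne (hle j hj1) (hlt j hj1 h3)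
        · have h4 := hle j hj1
          have h5 : (blk M a G j).ncard ≤ 1 := by omega
          have h6 : i = j := (Set.ncard_le_one (Set.toFinite _)).1 h5 i (blk_symm hj) j
            (Or.inl rfl)
          subst h6
          exact absurd h2 h3
      · left
        simp only [kval, if_pos hi, if_neg h2, ite_self]
  · refine h.num.2.2 _ fun i => ?_
    rcases Nat.lt_or_ge (a i) 2 with h3 | h3
    · by_cases hi : a i = 1
      · have hff := ff h hi
        have h4 : kval M a A i = if 2 ≤ Module.finrank ℂ (regularForms (M i)) then 1 else 0 := by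
          simp only [kval, if_pos hi, if_neg (show a i ≠ 0 by omega)]
        rw [h4, hi]
        exact numLe_curve ((hblk1 i).trans (hle i hi))
      · have h4 : a i = 0 := by omega
        rw [h4]
        exact numLe_point (point_top (by rw [h.trdeg, h4])) _
    · have h5 : kval M a A i = A i := by
        simp only [kval, if_neg (show a i ≠ 1 by omega), if_neg (show a i ≠ 0 by omega)]
      rw [h5]
      exact (hA i h3).2

/-- Numerical dimension `-∞`. -/
theorem num_neg [Finite G] (h : IsPermuted M a G σ) (hG : Admissible M a G σ)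
    (hneg : (∃ i, 2 ≤ a i ∧ NumNeg ℂ (M i) (a i) (fun _ => False)) ∨
      ∃ i, a i = 1 ∧ Module.finrank ℂ (regularForms (M i)) < (blk M a G i).ncard) :
    NumNeg ℂ (fixedField G) (∑ i, a i) (fun _ => False) := by
  obtain ⟨hnK, hessK⟩ := Pool.Agent.K1H97.PU.quot h
  rcases hneg with ⟨i, -, hi⟩ | ⟨i, hi, hlt⟩
  · exact h.num.2.1 i hi
  · exact (uniruled_neg (∑ i, a i) hnK (uniruled_blk h hG.uniq hi hlt)).2

/-- **Abundance.** -/
theorem abundance [Finite G] (h : IsPermuted M a G σ) (hG : Admissible M a G σ)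
    (hQ : ∀ i, 2 ≤ a i → Abundance ℂ (M i) (a i))
    (hlt : ∀ i, a i = 1 → 2 ≤ Module.finrank ℂ (regularForms (M i)) →
      (blk M a G i).ncard ≠ Module.finrank ℂ (regularForms (M i))) :
    Abundance ℂ (fixedField G) (∑ i, a i) := by
  classical
  by_cases hneg : (∃ i, 2 ≤ a i ∧ NumNeg ℂ (M i) (a i) (fun _ => False)) ∨
      ∃ i, a i = 1 ∧ Module.finrank ℂ (regularForms (M i)) < (blk M a G i).ncard
  · exact Or.inl (num_neg h hG hneg)
  · rw [not_or] at hneg
    obtain ⟨hn1, hn2⟩ := hneg
    push Not at hn1 hn2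
    have hex : ∀ i, ∃ A : ℕ, 2 ≤ a i → KodTr ℂ (M i) (a i) A ∧
        NumLe ℂ (M i) (a i) (fun _ => False) A := by
      intro i
      by_cases hi : 2 ≤ a i
      · obtain ⟨A, hA⟩ := (hQ i hi).resolve_left (hn1 i hi)
        exact ⟨A, fun _ => hA⟩
      · exact ⟨0, fun h => absurd h hi⟩
    choose A hA using hex
    exact Or.inr ⟨_, values h hG A hA (fun i hi => hn2 i hi) hlt⟩

end

end Pool.Agent.H908.SB
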