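import Pool.Agent.H908.SB8
import Pool.Graph.R_pool_sql_team_seeded_efc1946e.K1H17.IS.Mn

/-! The Kuenneth decomposition of the sections on a product of several varieties. -/

set_option autoImplicit false
set_option linter.overlappingInstances false
set_option linter.unusedSectionVars false
set_option linter.unusedVariables false

open FF IntermediateField Pool.Agent.W619.PQ Pool.Agent.W619.PL Pool.Agent.W619.TW
  Pool.Agent.W603.LV Pool.Agent.W619.Y Pool.Agent.W672.PG Pool.Agent.W824.PG Pool.Agent.Y174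
  Pool.Agent.K1H17.IS Pool.Agent.K1H6.PQ Pool.Agent.W460.PG.ONE

namespace Pool.Agent.H908.SE

open Pool.Agent.H908.SB (PF pf_pluri pf_eval)

section

variable {k : Type} {K : Type} [Field k] [CharZero k] [Field K] [Algebra k K]

theorem mem_vv {n : ℕ} {S : Finset K} {m j : ℕ} {y : Fin n → K} {f : K} :
    f ∈ VV k (fun _ => False) S m j y ↔ IsSec k K n (fun _ => False) S m j (PF y m f) := by
  have e : PF (k := k) y m f = fun D : Fin n → Derivation k K K =>
      f * (Matrix.of fun a b => D a (y b)).det ^ m := by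
    funext D
    exact mul_comm _ _
  rw [e]
  rfl

/-- Permutation of the vector fields. -/
theorem pluri_perm {n m : ℕ} {ω : (Fin n → Derivation k K K) → K} (hω : IsPluriForm k K n m ω)
    (π : Equiv.Perm (Fin n)) (D : Fin n → Derivation k K K) :
    ω (fun i => D (π i)) = (((Equiv.Perm.sign π : ℤ) : K)) ^ m * ω D := by
  have h1 := hω (Equiv.Perm.permMatrix K π) D
  have h2 : (fun i => ∑ j, (Equiv.Perm.permMatrix K π) i j • D j) = fun i => D (π i) := by
    funext i
    rw [Finset.sum_eq_single (π i)]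
    · simp [Equiv.Perm.permMatrix, PEquiv.toMatrix_apply]
    · intro j _ hj
      have : (Equiv.Perm.permMatrix K π) i j = 0 := by
        simp only [Equiv.Perm.permMatrix, PEquiv.toMatrix_apply]
        rw [if_neg]
        simpa using fun h => hj h.symm
      rw [this, zero_smul]
    · intro h
      exact absurd (Finset.mem_univ _) h
  rw [← h2, h1, Matrix.det_permutation]

/-- Pull-back of the spaces of sections. -/
theorem vv_map {L : Type} [Field L] [Algebra k L] [Algebra K L] [IsScalarTower k K L]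
    [FiniteDimensional K L] [dec : DecidableEq L] (hess : Algebra.EssFiniteType k K) {n : ℕ}
    (hn : Algebra.trdeg k K = n) {S : Finset K} {m j : ℕ} {y : Fin n → K}
    (hy : IsTranscendenceBasis k y) {f : K} (h : f ∈ VV k (fun _ => False) S m j y) :
    algebraMap K L f ∈ VV k (fun _ => False) (S.image (algebraMap K L)) m j
      (fun q => algebraMap K L (y q)) := by
  have hdec : dec = Classical.decEq L := Subsingleton.elim _ _
  subst hdec
  obtain ⟨E, hE⟩ := Pool.Agent.W636.PG.exists_duals k K n y hy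
  rw [mem_vv] at h ⊢
  have h1 := Pool.Agent.Y174.pPULL k K L n hn (fun y hy => fin_adj hess y hy) (fun _ => False) S m j
    y E hy hE _ h
  rw [Pool.Agent.W824.PG.bdUp_false, pf_eval hE] at h1
  exact h1

theorem vv_equiv {K' : Type} [Field K'] [Algebra k K'] (e : K ≃ₐ[k] K') [DecidableEq K']
    (hess : Algebra.EssFiniteType k K) {n : ℕ} (hn : Algebra.trdeg k K = n)
    {S : Finset K} {m j : ℕ} {y : Fin n → K} (hy : IsTranscendenceBasis k y) {f : K}
    (h : f ∈ VV k (fun _ => False) S m j y) :
    e f ∈ VV k (fun _ => False) (S.image e) m j (fun q => e (y q)) := by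
  let iA : Algebra K K' := e.toRingEquiv.toRingHom.toAlgebra
  have t1 : IsScalarTower k K K' := IsScalarTower.of_algebraMap_eq fun c => (e.commutes c).symm
  have f1 : FiniteDimensional K K' :=
    Module.Finite.of_surjective (Algebra.linearMap K K') e.surjective
  exact vv_map hess hn hy h

end

section

variable {k : Type} {L : Type} [Field k] [CharZero k] [IsAlgClosed k] [Field L] [Algebra k L]

/-- Two factors. -/
theorem two_expand {M F : IntermediateField k L} {a b : ℕ} (h : Dj M F)
    (halg : Algebra.trdeg k L = (a + b : ℕ))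
    (hM : Algebra.trdeg k M = a) (hF : Algebra.trdeg k F = b)
    (hess : Algebra.EssFiniteType k L) {y : Fin a → M} {x : Fin b → F}
    (hy : IsTranscendenceBasis k y) (hx : IsTranscendenceBasis k x)
    {E : Fin (a + b) → Derivation k L L} (hE : ∀ i j, E i (app y x j) = if i = j then 1 else 0)
    (S : Finset L) :
    ∃ (b0 : L) (S1 : Finset M) (S2 : Finset F), b0 ≠ 0 ∧
      ∀ (m j : ℕ) (ω : (Fin (a + b) → Derivation k L L) → L),
        IsSec k L (a + b) (fun _ => False) S m j ω → ∃ (R : ℕ) (p : Fin R → M) (q : Fin R → F),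
          (∀ l, p l ∈ VV k (fun _ => False) S1 m j y) ∧
          (∀ l, q l ∈ VV k (fun _ => False) S2 m j x) ∧
          b0 ^ j * ω E = ∑ l, ((p l : M) : L) * ((q l : F) : L) := by
  classical
  obtain ⟨b0, hb0, hRR⟩ := sec_RR h halg hM hF hess hy hx hE S
  obtain ⟨S1, hS1⟩ := descJ h hM hy hx hE S b0 hb0
  obtain ⟨S2, hS2⟩ := descJ h.symm hF hx hy (dual_flip hE) S b0 hb0
  refine ⟨b0, S1, S2, hb0, fun m j ω hω => ?_⟩
  obtain ⟨r, β, p, hβ, hz⟩ := Pool.Agent.W735.PG.DESCJ.expandFin (RR_comm (hRR m j ω hω))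
  have hp := hS1 m j ω hω r β p hβ hz
  let V0 : Submodule k M := Submodule.span k (Set.range p)
  have hV0 : FiniteDimensional k V0 := FiniteDimensional.span_of_finite k (Set.finite_range p)
  have hV0le : V0 ≤ VV k (fun _ => False) S1 m j y := Submodule.span_le.2 (by
    rintro _ ⟨i, rfl⟩
    exact hp i)
  have hpV0 : ∀ i, p i ∈ V0 := fun i => Submodule.subset_span ⟨i, rfl⟩
  let e := Module.finBasis k V0
  let β' : Fin (Module.finrank k V0) → F := fun l => ∑ i, (e.repr ⟨p i, hpV0 i⟩ l) • β i
  have hpi : ∀ i, ((p i : M) : L) = ∑ l, (e.repr ⟨p i, hpV0 i⟩ l) • (((e l : V0) : M) : L) := by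
    intro i
    have h3 := congrArg (fun z : V0 => ((z : M) : L)) (e.sum_repr ⟨p i, hpV0 i⟩)
    change (((∑ l, e.repr ⟨p i, hpV0 i⟩ l • e l : V0) : M) : L) = ((p i : M) : L) at h3
    rw [← h3, AddSubmonoidClass.coe_finsetSum, AddSubmonoidClass.coe_finsetSum]
    rfl
  have hz' : b0 ^ j * ω E = ∑ l, (((e l : V0) : M) : L) * ((β' l : F) : L) := by
    rw [hz]
    have h4 : ∀ l, ((β' l : F) : L) = ∑ i, (e.repr ⟨p i, hpV0 i⟩ l) • ((β i : F) : L) := by
      intro l
      rw [AddSubmonoidClass.coe_finsetSum]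
      rfl
    simp only [h4, hpi, Finset.mul_sum]
    rw [Finset.sum_comm]
    refine Finset.sum_congr rfl fun l _ => Finset.sum_congr rfl fun i _ => ?_
    rw [mul_smul_comm, mul_smul_comm, mul_comm]
  have hq := hS2 m j _ (sec_flip hω) _ (fun l => ((e l : V0) : M)) β'
    (e.linearIndependent.map' V0.subtype (Submodule.ker_subtype V0)) (by
      rw [← hz']
      simp only [Pool.Agent.K1H17.IS.flip_flip])
  exact ⟨_, fun l => ((e l : V0) : M), β', fun l => hV0le (e l).2, hq, hz'⟩

end

end Pool.Agent.H908.SE
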