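import Pool.Agent.H908.SE1

/-! The Kuenneth decomposition of the sections on a product of several varieties. -/

set_option autoImplicit false
set_option linter.overlappingInstances false
set_option linter.unusedSectionVars false
set_option linter.unusedVariables false

open FF IntermediateField Pool.Agent.W619.PQ Pool.Agent.W619.PL Pool.Agent.W619.TW
  Pool.Agent.W603.LV Pool.Agent.W619.Y Pool.Agent.W672.PG Pool.Agent.W824.PG Pool.Agent.Y174
  Pool.Agent.K1H17.IS Pool.Agent.K1H6.PQ Pool.Agent.W460.PG.ONE

namespace Pool.Agent.H908.SE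

open Pool.Agent.H908.SB (PF pf_pluri pf_eval)

section

variable {k : Type} {K : Type} [Field k] [CharZero k] [Field K] [Algebra k K]

theorem pf_perm {n m : ℕ} {Y : Fin n → K} {E : Fin n → Derivation k K K}
    (hE : ∀ i j, E i (Y j) = if i = j then 1 else 0) (π : Equiv.Perm (Fin n)) (f : K) :
    PF (k := k) (fun q => Y (π q)) m f E = ((Equiv.Perm.sign π : ℤ) : K) ^ m * f := by
  have h1 : (Matrix.of fun p q => E p (Y (π q))) = (1 : Matrix (Fin n) (Fin n) K).submatrix id π := by
    ext p q
    rw [Matrix.of_apply, Matrix.submatrix_apply, Matrix.one_apply, hE]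
    rfl
  unfold PF
  rw [h1, Matrix.det_permute', Matrix.det_one, mul_one]


end

section

variable {k : Type} [Field k] [CharZero k] [IsAlgClosed k]

/-- The set of coordinates on a product. -/
def YY {L : Type} [Field L] [Algebra k L] {r : ℕ} {M : Fin r → IntermediateField k L} {a : Fin r → ℕ}
    (y : ∀ i, Fin (a i) → M i) {n : ℕ} (τ : (Σ i, Fin (a i)) ≃ Fin n) (q : Fin n) : L :=
  (y (τ.symm q).1 (τ.symm q).2 : L)

theorem yy_basis {L : Type} [Field L] [Algebra k L] {r : ℕ} {M : Fin r → IntermediateField k L}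
    {a : Fin r → ℕ} (hsup : (⨆ i, M i) = ⊤) (hn : Algebra.trdeg k L = (∑ i, a i : ℕ))
    {y : ∀ i, Fin (a i) → M i} (hy : ∀ i, IsTranscendenceBasis k (y i)) {n : ℕ}
    (τ : (Σ i, Fin (a i)) ≃ Fin n) : IsTranscendenceBasis k (YY y τ) := by
  have halg : Algebra.IsAlgebraic ↥(⨆ i, M i) L := by
    rw [hsup]
    exact ⟨fun z => isAlgebraic_algebraMap (⟨z, trivial⟩ : (⊤ : IntermediateField k L))⟩
  have hbasis := basis_sigma (ι := fun i => Fin (a i)) M halg hn
    (fun i => (Fintype.card_fin _).trans rfl) y hy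
  exact (isTranscendenceBasis_equiv (R := k)
    (f := fun p : (Σ i, Fin (a i)) => (y p.1 p.2 : L)) τ.symm).2 hbasis

/-- **Kuenneth.** -/
theorem kun (r : ℕ) : ∀ (L : Type) [Field L] [Algebra k L] (M : Fin r → IntermediateField k L)
    (a : Fin r → ℕ), (∀ i, Algebra.EssFiniteType k (M i)) → (∀ i, Algebra.trdeg k (M i) = a i) →
    Algebra.trdeg k L = (∑ i, a i : ℕ) → (⨆ i, M i) = ⊤ →
    ∀ (y : ∀ i, Fin (a i) → M i), (∀ i, IsTranscendenceBasis k (y i)) →
    ∀ (n : ℕ) (τ : (Σ i, Fin (a i)) ≃ Fin n) (S : Finset L),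
      ∃ (b0 : L) (T : ∀ i, Finset (M i)), b0 ≠ 0 ∧ ∀ (m j : ℕ) (f : L),
        f ∈ VV k (fun _ => False) S m j (YY y τ) →
        ∃ (ι : Type) (_ : Fintype ι) (c : ι → k) (p : ι → ∀ i, M i),
          (∀ l i, p l i ∈ VV k (fun _ => False) (T i) m j (y i)) ∧
          b0 ^ j * f = ∑ l, algebraMap k L (c l) * ∏ i, ((p l i : M i) : L) := by
  classical
  induction r with
  | zero =>
    intro L _ _ M a hess hM hL hsup y hy n τ S
    refine ⟨1, fun i => i.elim0, one_ne_zero, fun m j f hf => ?_⟩
    have h1 : f ∈ (⊤ : IntermediateField k L) := trivial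
    rw [← hsup, iSup_of_empty] at h1
    obtain ⟨c, hc⟩ := IntermediateField.mem_bot.1 h1
    refine ⟨Unit, inferInstance, fun _ => c, fun _ i => i.elim0, fun _ i => i.elim0, ?_⟩
    rw [one_pow, one_mul, Fintype.sum_unique, Finset.univ_eq_empty, Finset.prod_empty, mul_one, hc]
  | succ r ih =>
    intro L _ _ M a hess hM hL hsup y hy n τ S
    let N : IntermediateField k L := ⨆ i : Fin r, M i.castSucc
    have hMN : ∀ i : Fin r, M i.castSucc ≤ N := fun i =>
      le_iSup (fun i : Fin r => M i.castSucc) i
    let M0 : Fin r → IntermediateField k N := fun i => restrict (hMN i)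
    have hess0 : ∀ i, Algebra.EssFiniteType k (M0 i) := fun i =>
      (Algebra.EssFiniteType.iff_of_algEquiv (restrictAlgEquiv (hMN i))).1 (hess _)
    have hM0 : ∀ i, Algebra.trdeg k (M0 i) = a i.castSucc := fun i => by
      rw [← hM]; exact (restrictAlgEquiv (hMN i)).symm.trdeg_eq
    have hsup0 : (⨆ i, M0 i) = ⊤ := by
      apply lift_injective N
      rw [lift_top]
      rw [IntermediateField.lift, IntermediateField.map_iSup]
      exact iSup_congr fun i => lift_restrict (hMN i)
    have hN1 : Algebra.trdeg k N ≤ (∑ i : Fin r, a i.castSucc : ℕ) := trdeg_le_iSup M0 hM0 hsup0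
    have hsupN : N ⊔ M (Fin.last r) = ⊤ := by
      rw [eq_top_iff, ← hsup]
      refine iSup_le fun i => ?_
      refine Fin.lastCases ?_ (fun j => ?_) i
      · exact le_sup_right
      · exact (hMN j).trans le_sup_left
    obtain ⟨c, hc⟩ : ∃ c : ℕ, Algebra.trdeg k N = c :=
      Cardinal.lt_aleph0.1 (hN1.trans_lt (Cardinal.natCast_lt_aleph0))
    have hL1 : Algebra.trdeg k L ≤ (c + a (Fin.last r) : ℕ) := by
      have h1 := trdeg_le_iSup (a := ![c, a (Fin.last r)]) ![N, M (Fin.last r)] (fun i => by
        fin_cases i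
        · exact hc
        · exact hM _) (by
        rw [← hsupN]
        apply le_antisymm
        · refine iSup_le fun i => ?_
          fin_cases i
          · exact le_sup_left
          · exact le_sup_right
        · exact sup_le (le_iSup (fun i => ![N, M (Fin.last r)] i) 0)
            (le_iSup (fun i => ![N, M (Fin.last r)] i) 1))
      simpa using h1
    have hcN : c = ∑ i : Fin r, a i.castSucc := by
      rw [hL, Fin.sum_univ_castSucc] at hL1
      rw [hc] at hN1
      have h5 : ∑ i : Fin r, a i.castSucc + a (Fin.last r) ≤ c + a (Fin.last r) := by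
        exact_mod_cast hL1
      have h6 : c ≤ ∑ i : Fin r, a i.castSucc := by exact_mod_cast hN1
      omega
    rw [hcN] at hc
    have hessN : Algebra.EssFiniteType k N :=
      essFiniteType_iff.2 (fg_iSup fun j : Fin r => essFiniteType_iff.1 (hess j.castSucc))
    have hessL : Algebra.EssFiniteType k L := by
      have h1 : Algebra.EssFiniteType k ↥(N ⊔ M (Fin.last r)) :=
        essFiniteType_iff.2 (fg_sup (essFiniteType_iff.1 hessN)
          (essFiniteType_iff.1 (hess (Fin.last r))))
      rw [hsupN] at h1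
      exact (Algebra.EssFiniteType.iff_of_algEquiv
        (IntermediateField.topEquiv (F := k) (E := L))).1 h1
    have hLs : Algebra.trdeg k L = (∑ i : Fin r, a i.castSucc + a (Fin.last r) : ℕ) := by
      rw [hL, Fin.sum_univ_castSucc]
    -- the coordinates of `N`
    let τ' : (Σ i : Fin r, Fin (a i.castSucc)) ≃ Fin (∑ i : Fin r, a i.castSucc) := finSigmaFinEquiv
    let e : ∀ i : Fin r, M i.castSucc ≃ₐ[k] M0 i := fun i => restrictAlgEquiv (hMN i)
    let y0 : ∀ i : Fin r, Fin (a i.castSucc) → M0 i := fun i q => e i (y i.castSucc q)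
    have hy0 : ∀ i, IsTranscendenceBasis k (y0 i) := fun i => (e i).isTranscendenceBasis (hy _)
    let y' : Fin (∑ i : Fin r, a i.castSucc) → N := YY y0 τ'
    have hy' : IsTranscendenceBasis k y' := yy_basis hsup0 hc hy0 τ'
    -- the coordinates of `L`
    let g : Fin (∑ i : Fin r, a i.castSucc + a (Fin.last r)) → Σ i, Fin (a i) :=
      Fin.addCases (fun q => ⟨(τ'.symm q).1.castSucc, (τ'.symm q).2⟩) (fun q => ⟨Fin.last r, q⟩)
    have hg : Function.Bijective g := by
      rw [Fintype.bijective_iff_surjective_and_card]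
      constructor
      · rintro ⟨i, q⟩
        revert q
        refine Fin.lastCases (fun q => ?_) (fun i q => ?_) i
        · exact ⟨Fin.natAdd _ q, by simp only [g, Fin.addCases_right]⟩
        · refine ⟨Fin.castAdd _ (τ' ⟨i, q⟩), ?_⟩
          simp only [g, Fin.addCases_left]
          rw [τ'.symm_apply_apply]
      · rw [Fintype.card_fin, Fintype.card_sigma]
        simp only [Fintype.card_fin]
        rw [Fin.sum_univ_castSucc]
    let ψ : Fin (∑ i : Fin r, a i.castSucc + a (Fin.last r)) ≃ Σ i, Fin (a i) :=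
      Equiv.ofBijective g hg
    have hn : n = ∑ i : Fin r, a i.castSucc + a (Fin.last r) := by
      have h1 := Fintype.card_congr τ
      have h2 := Fintype.card_congr ψ
      rw [Fintype.card_fin] at h1 h2
      omega
    subst hn
    let π : Equiv.Perm (Fin (∑ i : Fin r, a i.castSucc + a (Fin.last r))) := τ.symm.trans ψ.symm
    have happ : ∀ q, (y (ψ q).1 (ψ q).2 : L) = app y' (y (Fin.last r)) q := by
      intro q
      refine Fin.addCases (fun q => ?_) (fun q => ?_) q
      · rw [app_left]
        have h1 : ψ (Fin.castAdd _ q) = ⟨(τ'.symm q).1.castSucc, (τ'.symm q).2⟩ := by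
          change g _ = _
          simp only [g, Fin.addCases_left]
        rw [h1]
        rfl
      · rw [app_right]
        have h1 : ψ (Fin.natAdd _ q) = ⟨Fin.last r, q⟩ := by
          change g _ = _
          simp only [g, Fin.addCases_right]
        rw [h1]
    have hYY : YY y τ = fun q => app y' (y (Fin.last r)) (π q) := by
      funext q
      rw [← happ]
      change _ = (y (ψ (ψ.symm (τ.symm q))).1 (ψ (ψ.symm (τ.symm q))).2 : L)
      rw [ψ.apply_symm_apply]
      rfl
    have halg : Algebra.IsAlgebraic ↥(⨆ i, M i) L := by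
      rw [hsup]
      exact ⟨fun z => isAlgebraic_algebraMap (⟨z, trivial⟩ : (⊤ : IntermediateField k L))⟩
    have hbasis : IsTranscendenceBasis k (app y' (y (Fin.last r))) := by
      have h1 := basis_sigma (ι := fun i => Fin (a i)) M halg hL
        (fun i => (Fintype.card_fin _).trans rfl) y hy
      have h2 := (isTranscendenceBasis_equiv (R := k) ψ).2 h1
      convert h2 using 1
      funext q
      exact (happ q).symm
    obtain ⟨E, hE⟩ := Pool.Agent.W636.PG.exists_duals k L _ _ hbasis
    obtain ⟨b0, S1, S2, hb0, hexp⟩ := two_expand (dj_of hsupN hLs hc (hM _)) hLs hc (hM _) hessL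
      hy' (hy _) hE S
    obtain ⟨b1, T0, hb1, hih⟩ := ih N M0 (fun i => a i.castSucc) hess0 hM0 hc hsup0 y0 hy0 _ τ' S1
    let T : ∀ i : Fin (r + 1), Finset (M i) := fun i =>
      Fin.lastCases (motive := fun i => Finset (M i)) S2 (fun i => (T0 i).image (e i).symm) i
    have hTl : T (Fin.last r) = S2 := Fin.lastCases_last
    have hTc : ∀ i : Fin r, T i.castSucc = (T0 i).image (e i).symm := fun i =>
      Fin.lastCases_castSucc _
    refine ⟨b0 * (b1 : L), T, mul_ne_zero hb0 (fun h => hb1 (Subtype.ext h)), fun m j f hf => ?_⟩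
    rw [hYY, mem_vv] at hf
    obtain ⟨R, p, q, hp, hq, hpq⟩ := hexp m j _ hf
    rw [pf_perm hE π f] at hpq
    choose ι hι c p0 hp0 hsum using fun l => hih m j (p l) (hp l)
    have hsgn : (((Equiv.Perm.sign π : ℤ) : L)) ^ m * ((Equiv.Perm.sign π : ℤ) : L) ^ m = 1 := by
      rw [← mul_pow]
      have h1 : (((Equiv.Perm.sign π : ℤ) : L)) * ((Equiv.Perm.sign π : ℤ) : L) = 1 := by
        have h2 : ((Equiv.Perm.sign π : ℤ)) * (Equiv.Perm.sign π : ℤ) = 1 := by
          rw [← Units.val_mul, Int.units_mul_self, Units.val_one]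
        have h3 := congrArg (Int.cast : ℤ → L) h2
        push_cast at h3
        exact_mod_cast h3
      rw [h1, one_pow]
    let P : (Σ l, ι l) → ∀ i : Fin (r + 1), M i := fun s i =>
      Fin.lastCases (motive := fun i => M i) (q s.1) (fun i => (e i).symm (p0 s.1 s.2 i)) i
    have hPl : ∀ s, P s (Fin.last r) = q s.1 := fun s => Fin.lastCases_last
    have hPc : ∀ s (i : Fin r), P s i.castSucc = (e i).symm (p0 s.1 s.2 i) := fun s i =>
      Fin.lastCases_castSucc _
    refine ⟨Σ l, ι l, inferInstance, fun s => ((Equiv.Perm.sign π : ℤ) : k) ^ m * c s.1 s.2, P,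
      fun s i => ?_, ?_⟩
    · refine Fin.lastCases ?_ (fun i => ?_) i
      · rw [hPl, hTl]
        exact hq _
      · rw [hPc, hTc]
        have h1 := vv_equiv (e i).symm (hess0 i) (hM0 i) (hy0 i) (hp0 s.1 s.2 i)
        have h2 : (fun q => (e i).symm (y0 i q)) = y i.castSucc := by
          funext q
          exact (e i).symm_apply_apply _
        rw [h2] at h1
        exact h1
    · have h1 : (b0 * (b1 : L)) ^ j * f = ((Equiv.Perm.sign π : ℤ) : L) ^ m *
          ((b1 : L) ^ j * (b0 ^ j * (((Equiv.Perm.sign π : ℤ) : L) ^ m * f))) := by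
        rw [mul_pow]
        linear_combination (-(b0 ^ j * (b1 : L) ^ j * f)) * hsgn
      rw [h1, hpq, Finset.mul_sum, Finset.mul_sum, Fintype.sum_sigma]
      refine Finset.sum_congr rfl fun l _ => ?_
      have h2 : (b1 : L) ^ j * ((p l : N) : L) =
          ∑ s, algebraMap k L (c l s) * ∏ i, (((p0 l s i : M0 i) : N) : L) := by
        have h3 := congrArg (algebraMap N L) (hsum l)
        rw [map_mul, map_pow, map_sum] at h3
        change (b1 : L) ^ j * ((p l : N) : L) = _ at h3
        rw [h3]
        refine Finset.sum_congr rfl fun s _ => ?_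
        rw [map_mul, map_prod]
        rfl
      rw [← mul_assoc ((b1 : L) ^ j), h2, Finset.sum_mul, Finset.mul_sum]
      refine Finset.sum_congr rfl fun s _ => ?_
      rw [Fin.prod_univ_castSucc, hPl]
      have h4 : ∀ i : Fin r, ((P ⟨l, s⟩ i.castSucc : M i.castSucc) : L) =
          (((p0 l s i : M0 i) : N) : L) := by
        intro i
        rw [hPc]
        have h5 : ∀ z : M i.castSucc, (((e i z : M0 i) : N) : L) = (z : L) := fun z => rfl
        rw [← h5, AlgEquiv.apply_symm_apply]
      simp only [h4]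
      rw [map_mul, map_pow, map_intCast]
      ring

end

end Pool.Agent.H908.SE
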