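import Pool.Agent.H908.SE2

/-! The order of the sections on a product along the divisors which are fixed by an automorphism of
age at least one. -/

set_option autoImplicit false
set_option linter.overlappingInstances false
set_option linter.unusedSectionVars false
set_option linter.unusedVariables false

open FF IntermediateField Pool.Agent.W619.PQ Pool.Agent.W619.PL Pool.Agent.W619.TW
  Pool.Agent.W603.LV Pool.Agent.W619.Y Pool.Agent.W672.PG Pool.Agent.W824.PG Pool.Agent.Y174
  Pool.Agent.K1H17.IS Pool.Agent.K1H6.PQ Pool.Agent.W460.PG.ONE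

namespace Pool.Agent.H908.SE

open Pool.Agent.H908.SB (PF pf_pluri pf_eval ge_lift)

section

variable {k : Type} {K : Type} [Field k] [CharZero k] [Field K] [Algebra k K]

theorem dom_mono {v : Place k K} {S S' : Finset K} (h : S ⊆ S') {j : ℕ} {f : K} (hf : Dom v S j f) :
    Dom v S' j f := by
  rcases hf with hf | ⟨s, hs, hs0, hf⟩
  · exact Or.inl hf
  · exact Or.inr ⟨s, h hs, hs0, hf⟩

theorem vv_mono {n : ℕ} {S S' : Finset K} (h : S ⊆ S') {m j : ℕ} {y : Fin n → K} {f : K}
    (hf : f ∈ VV k (fun _ => False) S m j y) : f ∈ VV k (fun _ => False) S' m j y := by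
  rw [mem_vv] at hf ⊢
  exact ⟨hf.1, fun v h1 h2 D hD => dom_mono h (hf.2.1 v h1 h2 D hD), fun v _ h => h.elim⟩

/-- the element of smallest order -/
theorem exists_min (v : K → ℤ) {S : Finset K} (h1 : (1 : K) ∈ S) :
    ∃ s ∈ S, s ≠ 0 ∧ ∀ t ∈ S, t ≠ 0 → v s ≤ v t := by
  classical
  obtain ⟨s, hs, hmin⟩ := (S.filter (fun t => t ≠ 0)).exists_min_image v
    ⟨1, Finset.mem_filter.2 ⟨h1, one_ne_zero⟩⟩
  rw [Finset.mem_filter] at hs
  exact ⟨s, hs.1, hs.2, fun t ht ht0 => hmin t (Finset.mem_filter.2 ⟨ht, ht0⟩)⟩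

end

section

variable {k : Type} {L : Type} [Field k] [CharZero k] [IsAlgClosed k] [Field L] [Algebra k L]

open Classical in
/-- The index of the place `w` over the subfield `M`: the smallest positive order along `w` of a
function in `M`, and `0` if all orders are zero. -/
noncomputable def idx (w : Place k L) (M : IntermediateField k L) : ℕ :=
  sInf {c : ℕ | 0 < c ∧ ∃ f ∈ M, w.ord f = c}

theorem idx_over {w : Place k L} {M : IntermediateField k L} {u : Place k M} {c : ℕ}
    (hu : Over w u c) : idx w M = c := by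
  obtain ⟨s, hs0, hs⟩ := u.surj
  have h1 : c ∈ {c : ℕ | 0 < c ∧ ∃ f ∈ M, w.ord f = c} := by
    refine ⟨hu.1, s, s.2, ?_⟩
    have := hu.2 s
    rw [hs, mul_one] at this
    exact this
  refine le_antisymm (Nat.sInf_le h1) ?_
  obtain ⟨h2, f, hf, h3⟩ := Nat.sInf_mem ⟨c, h1⟩
  have h4 : w.ord f = c * u.ord ⟨f, hf⟩ := hu.2 ⟨f, hf⟩
  rw [h3] at h4
  exact Nat.le_of_dvd h2 (Int.natCast_dvd_natCast.1 ⟨_, h4⟩)

theorem idx_triv {w : Place k L} {M : IntermediateField k L} (h : ∀ f : M, w.ord (f : L) = 0) :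
    idx w M = 0 := by
  have h1 : {c : ℕ | 0 < c ∧ ∃ f ∈ M, w.ord f = c} = ∅ := by
    ext c
    simp only [Set.mem_ofPred_eq, Set.mem_empty_iff_false, iff_false]
    rintro ⟨h2, f, hf, h3⟩
    have := h ⟨f, hf⟩
    simp only at this
    rw [this] at h3
    omega
  unfold idx
  rw [h1, Nat.sInf_empty]

/-- The logarithmic order of a section along a place. -/
theorem wlog_dom (M : IntermediateField k L) {a : ℕ} (hM : Algebra.trdeg k M = a)
    (hessM : Algebra.EssFiniteType k M) {N : ℕ} {w : Place k L} (hn : Algebra.trdeg k L = N)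
    (hw : IsDivisorial w N) {μ j : ℕ} {y : Fin a → M} {f : M} {T : Finset M}
    (hf : f ∈ VV k (fun _ => False) T μ j y) {s : M}
    (hmin : ∀ t ∈ T, t ≠ 0 → w.ord (s : L) ≤ w.ord (t : L)) :
    WLog w M a (PF y μ f) (μ * idx w M + j * w.ord (s : L)) := by
  rw [mem_vv] at hf
  refine ⟨fun u c hu => ?_, fun h0 => ?_⟩
  · have hdiv : IsDivisorial u a := Pool.Agent.Y174.pDIVR k M L a N u w c hM hn hu hw
    have hc1 : 0 < c := hu.1
    have hcz : (0 : ℤ) < c := by exact_mod_cast hc1
    have hc : (0 : ℝ) < c := by exact_mod_cast hc1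
    have hs : ∀ t : M, w.ord (t : L) = c * u.ord t := fun t => hu.2 t
    have h1 : LogGe a u (PF (k := k) y μ f) (μ + j * u.ord s) := by
      refine logGe_of_reg hM hessM hdiv _ (pf_pluri y μ f) fun D hD => ?_
      rcases hf.2.1 u hdiv (fun h => h) D hD with h3 | ⟨t, ht, ht0, h3⟩
      · exact Or.inl h3
      · right
        have h4 := hmin t ht ht0
        rw [hs, hs] at h4
        have h5 : u.ord s ≤ u.ord t := le_of_mul_le_mul_left h4 hcz
        have h6 : (j : ℤ) * u.ord s ≤ u.ord (PF y μ f D) :=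
          le_trans (mul_le_mul_of_nonneg_left h5 (Int.natCast_nonneg j)) h3
        exact_mod_cast h6
    refine h1.mono ?_
    rw [div_le_iff₀ hc, hs s, idx_over hu]
    push_cast
    nlinarith
  · rw [idx_triv h0, h0 s]
    simp

variable {r : ℕ} {M : Fin r → IntermediateField k L} {a : Fin r → ℕ}
  {G : Subgroup (L ≃ₐ[k] L)} {σ : G →* Equiv.Perm (Fin r)}

/-- The order of a product of sections along an inert place. -/
theorem prod_dom [Finite G] (h : IsPermuted M a G σ) {w : Place k L}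
    (hw : IsDivisorial w (∑ i, a i)) (g : G) (hI : Inert w (g : L ≃ₐ[k] L)) {μ j : ℕ}
    {y : ∀ i, Fin (a i) → M i} (hy : ∀ i, IsTranscendenceBasis k (y i)) {T : ∀ i, Finset (M i)}
    {f : ∀ i, M i} (hf : ∀ i, f i ∈ VV k (fun _ => False) (T i) μ j (y i)) {s : ∀ i, M i}
    (hmin : ∀ i, ∀ t ∈ T i, t ≠ 0 → w.ord (s i : L) ≤ w.ord (t : L))
    (D : (Σ i, Fin (a i)) → Derivation k L L) (hD : ∀ j, Pres w (D j))
    (hlD : ∀ j z, w.Reg (D j z / z)) :
    GeR w (μ * (∑ i, (idx w (M i) : ℝ) + orderOf (g : L ≃ₐ[k] L) * permAge a (σ g)) +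
        j * ∑ i, (w.ord (s i : L) : ℝ))
      ((Matrix.of fun i j : (Σ i, Fin (a i)) => D i (y j.1 j.2 : L)).det ^ μ *
        ∏ i, ((f i : M i) : L)) := by
  classical
  have halg : Algebra.IsAlgebraic ↥(⨆ i, M i) L := by
    rw [h.sup]
    exact ⟨fun z => isAlgebraic_algebraMap (⟨z, trivial⟩ : (⊤ : IntermediateField k L))⟩
  choose E hE using fun i => Pool.Agent.W636.PG.exists_duals k (M i) (a i) (y i) (hy i)
  have h3 := ram M halg h.total h.trdeg h.ess σ h.perm hw g hI (μ := μ) y hy E hE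
    (fun i => PF (y i) μ (f i)) (fun i => pf_pluri _ _ _) _
    (fun i => wlog_dom (M i) (h.trdeg i) (h.ess i) h.total hw (hf i) (hmin i)) D hD hlD
  have h5 : ∀ i, PF (y i) μ (f i) (E i) = f i := fun i => pf_eval (hE i) μ (f i)
  simp only [h5] at h3
  refine h3.mono (le_of_eq ?_)
  rw [Finset.sum_add_distrib, ← Finset.mul_sum, ← Finset.mul_sum]
  ring

theorem pf_sigma {y : ∀ i, Fin (a i) → M i} {n : ℕ} (τ : (Σ i, Fin (a i)) ≃ Fin n) (μ : ℕ) (f : L)
    (D : Fin n → Derivation k L L) : PF (YY y τ) μ f D =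
      (Matrix.of fun i j : (Σ i, Fin (a i)) => D (τ i) (y j.1 j.2 : L)).det ^ μ * f := by
  classical
  unfold PF
  rw [← Matrix.det_submatrix_equiv_self τ]
  congr 3
  ext i j
  rw [Matrix.submatrix_apply, Matrix.of_apply, Matrix.of_apply]
  unfold YY
  rw [τ.symm_apply_apply]

/-- **The order of the sections along the divisors fixed by automorphisms of age at least one.** -/
theorem kl [Finite G] (h : IsPermuted M a G σ) {y : ∀ i, Fin (a i) → M i}
    (hy : ∀ i, IsTranscendenceBasis k (y i)) (τ : (Σ i, Fin (a i)) ≃ Fin (∑ i, a i))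
    (S : Finset L) : ∃ S' : Finset L, ∀ (m j : ℕ) (f : L),
      f ∈ VV k (fun _ => False) S m j (YY y τ) →
      ∀ v : Place k (fixedField G), IsDivisorial v (∑ i, a i) → ∀ (w : Place k L) (e : ℕ),
      Over w v e → ∀ g : G, orderOf (g : L ≃ₐ[k] L) = e → Inert w (g : L ≃ₐ[k] L) →
      (e : ℝ) ≤ ∑ i, (idx w (M i) : ℝ) + e * permAge a (σ g) →
      ∀ (D : Fin (∑ i, a i) → Derivation k (fixedField G) (fixedField G))
        (D' : Fin (∑ i, a i) → Derivation k L L), (∀ j, Pres v (D j)) →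
        (∀ j f, D' j (algebraMap (fixedField G) L f) = algebraMap (fixedField G) L (D j f)) →
        Dom w S' j (PF (YY y τ) m f D') := by
  classical
  obtain ⟨b0, T0, hb0, hkun⟩ := kun (k := k) r L M a h.ess h.trdeg h.total h.sup y hy _ τ S
  let T : ∀ i, Finset (M i) := fun i => insert 1 (T0 i)
  refine ⟨(Fintype.piFinset T).image (fun s => (∏ i, (s i : L)) / b0), ?_⟩
  intro m j f hf v hv w e hwv g hord hI hage D D' hD hD'
  obtain ⟨ι, _, c, p, hp, hsum⟩ := hkun m j f hf
  have halgK := Pool.Agent.W721.PG.EFF2.alg_fixed G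
  have hfin := fixed_finite G
  have hessL := h.essL
  obtain ⟨hnK, z0, hz0⟩ := Pool.Agent.W721.PG.EFF2.exists_basis (fixedField G) (∑ i, a i) h.total
  have hessK : Algebra.EssFiniteType k (fixedField G) := ess_down hessL z0 hz0
  have hw := divisorial_up hwv hv
  choose s hsT hs0 hmin using fun i => exists_min (fun t : M i => w.ord (t : L))
    (S := T i) (Finset.mem_insert_self _ _)
  have hp' : ∀ l i, p l i ∈ VV k (fun _ => False) (T i) m j (y i) := fun l i =>
    vv_mono (Finset.subset_insert _ _) (hp l i)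
  let φ : (Fin (∑ i, a i) → Derivation k L L) → L := fun D => b0 ^ j * PF (YY y τ) m f D
  have hφ : IsPluriForm k L (∑ i, a i) m φ := by
    intro A D
    change b0 ^ j * PF (YY y τ) m f _ = _ * (b0 ^ j * _)
    rw [pf_pluri (YY y τ) m f A D]
    ring
  have hlog : LogGe (∑ i, a i) w φ (m * e + j * ∑ i, (w.ord (s i : L) : ℝ)) := by
    intro D hD hl
    have h1 : φ D = ∑ l, algebraMap k L (c l) *
        ((Matrix.of fun i j : (Σ i, Fin (a i)) => D (τ i) (y j.1 j.2 : L)).det ^ m *
          ∏ i, ((p l i : M i) : L)) := by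
      change b0 ^ j * PF (YY y τ) m f D = _
      rw [pf_sigma, mul_left_comm, hsum, Finset.mul_sum]
      exact Finset.sum_congr rfl fun l _ => by ring
    rw [h1]
    refine GeR.sum _ _ _ fun l _ => ?_
    have h2 := prod_dom h hw g hI hy (hp' l) hmin (fun i => D (τ i)) (fun j => hD (τ j))
      (fun j => hl (τ j))
    have h3 := (Ge.toR (Ge.const (P := w) (c l))).mul h2
    refine h3.mono ?_
    have h5 := mul_le_mul_of_nonneg_left hage (Nat.cast_nonneg (α := ℝ) m)
    rw [hord]
    push_cast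
    linarith
  have h2 := reg_of_log h.total hessL hw φ hφ hlog
  have h3 := ge_lift h.total hessL hnK hessK hwv hv φ hφ h2 D hD D' hD'
  have h4 : GeR w (j * ∑ i, (w.ord (s i : L) : ℝ)) (φ D') := by
    refine h3.mono (le_of_eq ?_)
    ring
  have h5 := h4.of_mul (pow_ne_zero j hb0)
  rcases h5 with h5 | h5
  · exact Or.inl h5
  right
  have hsne : ∀ i, (s i : L) ≠ 0 := fun i h0 => hs0 i (Subtype.ext h0)
  have hprod0 : (∏ i, (s i : L)) ≠ 0 := Finset.prod_ne_zero_iff.2 fun i _ => hsne i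
  refine ⟨(∏ i, (s i : L)) / b0, Finset.mem_image.2 ⟨s, Fintype.mem_piFinset.2 hsT, rfl⟩,
    div_ne_zero hprod0 hb0, ?_⟩
  have h6 : ∀ t : Finset (Fin r), w.ord (∏ i ∈ t, (s i : L)) = ∑ i ∈ t, w.ord (s i : L) := by
    intro t
    induction t using Finset.induction_on with
    | empty => simp [w.ord_one]
    | insert b t hb ih =>
      rw [Finset.prod_insert hb, Finset.sum_insert hb,
        w.ord_mul (hsne b) (Finset.prod_ne_zero_iff.2 fun q _ => hsne q), ih]
  have h7 : w.ord ((∏ i, (s i : L)) / b0) = ∑ i, w.ord (s i : L) - w.ord b0 := by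
    have h8 : ((∏ i, (s i : L)) / b0) * b0 = ∏ i, (s i : L) := div_mul_cancel₀ _ hb0
    have h9 := congrArg w.ord h8
    rw [w.ord_mul (div_ne_zero hprod0 hb0) hb0, h6] at h9
    omega
  rw [h7]
  rw [w.ord_pow] at h5
  have h10 : ((j : ℤ) * (∑ i, w.ord (s i : L) - w.ord b0) : ℝ) ≤ w.ord (PF (YY y τ) m f D') := by
    refine le_trans (le_of_eq ?_) h5
    push_cast
    ring
  exact_mod_cast h10

end

end Pool.Agent.H908.SE
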