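import Pool.Agent.H908.SE4

/-! Traces of sections. -/

set_option autoImplicit false
set_option linter.overlappingInstances false
set_option linter.unusedSectionVars false
set_option linter.unusedVariables false

open FF IntermediateField Pool.Agent.W619.PQ Pool.Agent.W619.PL Pool.Agent.W619.TW
  Pool.Agent.W603.LV Pool.Agent.W619.Y Pool.Agent.W672.PG Pool.Agent.W824.PG Pool.Agent.Y174
  Pool.Agent.K1H17.IS Pool.Agent.K1H6.PQ Pool.Agent.W460.PG.ONE

namespace Pool.Agent.H908.SE

open Pool.Agent.H908.SB (PF pf_pluri pf_eval ge_lift)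

section

variable {k : Type} {L : Type} [Field k] [CharZero k] [Field L] [Algebra k L]

/-- A divisor given by functions on `L` is dominated by one given by functions on `K`. -/
theorem exists_coeff {K : IntermediateField k L} [FiniteDimensional K L] {w : Place k L} {s : L}
    (hs : s ≠ 0) : ∃ c ∈ (minpoly K s).coeffs, w.ord (c : L) ≤ w.ord s := by
  classical
  have hint : IsIntegral K s := Algebra.IsIntegral.isIntegral s
  have hmon := minpoly.monic hint
  have hdeg : 0 < (minpoly K s).natDegree := minpoly.natDegree_pos hint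
  by_contra hcon
  push Not at hcon
  have h1 : (1 : K) ∈ (minpoly K s).coeffs := by
    rw [Polynomial.mem_coeffs_iff]
    exact ⟨(minpoly K s).natDegree, Polynomial.natDegree_mem_support_of_nonzero hmon.ne_zero,
      hmon.coeff_natDegree.symm⟩
  have h2 : w.ord s < 0 := by
    have h3 := hcon 1 h1
    have h4 : w.ord ((1 : K) : L) = 0 := by
      have : ((1 : K) : L) = 1 := rfl
      rw [this, w.ord_one]
    rwa [h4] at h3
  have h3 := minpoly.aeval K s
  rw [Polynomial.aeval_eq_sum_range, Finset.sum_range_succ, hmon.coeff_natDegree, one_smul] at h3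
  have h4 : s ^ (minpoly K s).natDegree =
      -∑ i ∈ Finset.range (minpoly K s).natDegree, (minpoly K s).coeff i • s ^ i :=
    eq_neg_of_add_eq_zero_right h3
  have h5 : Ge w ((minpoly K s).natDegree * w.ord s + 1)
      (-∑ i ∈ Finset.range (minpoly K s).natDegree, (minpoly K s).coeff i • s ^ i) := by
    refine (Ge.sum _ _ fun i hi => ?_).neg
    have hi' := Finset.mem_range.1 hi
    by_cases hc : (minpoly K s).coeff i = 0
    · rw [hc, zero_smul]
      exact Or.inl rfl
    · right
      have h6 : (minpoly K s).coeff i ∈ (minpoly K s).coeffs := by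
        rw [Polynomial.mem_coeffs_iff]
        exact ⟨i, Polynomial.mem_support_iff.2 hc, rfl⟩
      have h7 := hcon _ h6
      have h8 : ((minpoly K s).coeff i : L) ≠ 0 := fun h0 => hc (Subtype.ext h0)
      rw [Algebra.smul_def]
      change _ ≤ w.ord (((minpoly K s).coeff i : L) * s ^ i)
      rw [w.ord_mul h8 (pow_ne_zero _ hs), w.ord_pow]
      have h9 : ((i : ℤ) + 1) ≤ (minpoly K s).natDegree := by exact_mod_cast hi'
      nlinarith
  rw [← h4] at h5
  rcases h5 with h5 | h5
  · exact pow_ne_zero _ hs h5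
  · rw [w.ord_pow] at h5
    omega

/-- descent of the domination -/
theorem exists_desc (K : IntermediateField k L) [FiniteDimensional K L] (S : Finset L) :
    ∃ T : Finset K, ∀ (w : Place k L) (v : Place k K) (e : ℕ), Over w v e → ∀ (j : ℕ) (x : K),
      Dom w S j (x : L) → Dom v T j x := by
  classical
  refine ⟨S.biUnion fun s => (minpoly K s).coeffs, fun w v e hwv j x hx => ?_⟩
  rcases hx with hx | ⟨s, hs, hs0, hx⟩
  · exact Or.inl (Subtype.ext hx)
  · obtain ⟨c, hc, hcs⟩ := exists_coeff (K := K) (w := w) hs0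
    right
    refine ⟨c, Finset.mem_biUnion.2 ⟨s, hs, hc⟩, ?_, ?_⟩
    · rw [Polynomial.mem_coeffs_iff] at hc
      obtain ⟨i, hi, rfl⟩ := hc
      exact Polynomial.mem_support_iff.1 hi
    · have h1 : w.ord (c : L) = e * v.ord c := hwv.2 c
      have h2 : w.ord (x : L) = e * v.ord x := hwv.2 x
      have he : (0 : ℤ) < e := by exact_mod_cast hwv.1
      rw [h2] at hx
      rw [h1] at hcs
      have h3 : (j : ℤ) * (e * v.ord c) ≤ e * v.ord x :=
        le_trans (mul_le_mul_of_nonneg_left hcs (Int.natCast_nonneg j)) hx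
      have h4 : (e : ℤ) * (j * v.ord c) ≤ e * v.ord x := by
        rw [mul_left_comm]
        exact h3
      exact le_of_mul_le_mul_left h4 he

theorem dom_mul [DecidableEq L] {w : Place k L} {S : Finset L} {j : ℕ} (hj : 1 ≤ j) {h x : L}
    (hh : h ≠ 0) (hx : Dom w S j x) : Dom w (S ∪ S.image (fun s => s * h)) j (h * x) := by
  rcases hx with hx | ⟨s, hs, hs0, hx⟩
  · left; rw [hx, mul_zero]
  by_cases hx0 : x = 0
  · left; rw [hx0, mul_zero]
  right
  rcases le_or_gt 0 (w.ord h) with h1 | h1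
  · refine ⟨s, Finset.mem_union_left _ hs, hs0, ?_⟩
    rw [w.ord_mul hh hx0]
    omega
  · refine ⟨s * h, Finset.mem_union_right _ (Finset.mem_image_of_mem _ hs), mul_ne_zero hs0 hh, ?_⟩
    rw [w.ord_mul hh hx0, w.ord_mul hs0 hh]
    have h2 : (1 : ℤ) ≤ j := by exact_mod_cast hj
    nlinarith

theorem dom_comp [DecidableEq L] {w : Place k L} {g : L ≃ₐ[k] L} {S : Finset L} {j : ℕ} {x : L}
    (hx : Dom (w.comp g) S j x) : Dom w (S.image g) j (g x) := by
  rcases hx with hx | ⟨s, hs, hs0, hx⟩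
  · left; rw [hx, map_zero]
  · right
    refine ⟨g s, Finset.mem_image_of_mem _ hs, (map_ne_zero_iff _ g.injective).2 hs0, ?_⟩
    rw [Place.comp_ord, Place.comp_ord] at hx
    exact hx

theorem dom_sum {w : Place k L} {S : Finset L} {j : ℕ} {ι : Type} (t : Finset ι) {x : ι → L}
    (hx : ∀ i ∈ t, Dom w S j (x i)) : Dom w S j (∑ i ∈ t, x i) := by
  classical
  induction t using Finset.induction_on with
  | empty => left; rw [Finset.sum_empty]
  | insert i t hi ih =>
    rw [Finset.sum_insert hi]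
    exact dom_add _ _ _ (hx i (Finset.mem_insert_self _ _))
      (ih fun i hi => hx i (Finset.mem_insert_of_mem hi))

/-- The generators of the conjugate inertia groups. -/
theorem hin_comp {G : Subgroup (L ≃ₐ[k] L)} [Finite G] {w : Place k L} {e : ℕ} {I : Subgroup G}
    (hcard : Nat.card I = e) (hI : ∀ g ∈ I, Inert w (g : L ≃ₐ[k] L)) (g : G) :
    2 ≤ e → ∃ h ∈ G, h ≠ 1 ∧ orderOf h = e ∧ Inert (w.comp (g : L ≃ₐ[k] L)) h := by
  intro he2
  obtain ⟨h, hh, hord, -⟩ := exists_generator w I hI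
  have hord' : orderOf ((g : L ≃ₐ[k] L)⁻¹ * (h : L ≃ₐ[k] L) * (g : L ≃ₐ[k] L)) = e := by
    have h3 := orderOf_injective (MulAut.conj (g : L ≃ₐ[k] L)⁻¹).toMonoidHom
      (MulAut.conj (g : L ≃ₐ[k] L)⁻¹).injective (h : L ≃ₐ[k] L)
    rw [← hcard, ← hord, ← h3]
    congr 1
  refine ⟨(g : L ≃ₐ[k] L)⁻¹ * (h : L ≃ₐ[k] L) * (g : L ≃ₐ[k] L),
    G.mul_mem (G.mul_mem (G.inv_mem g.2) h.2) g.2, ?_, hord', ?_⟩
  · intro h1
    rw [h1, orderOf_one] at hord'
    omega
  · intro z hz
    rw [ge_comp] at hz ⊢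
    have h1 := hI h hh _ hz
    have h2 : (g : L ≃ₐ[k] L) (((g : L ≃ₐ[k] L)⁻¹ * (h : L ≃ₐ[k] L) * (g : L ≃ₐ[k] L)) z - z)
        = (h : L ≃ₐ[k] L) ((g : L ≃ₐ[k] L) z) - (g : L ≃ₐ[k] L) z := by
      rw [map_sub]
      congr 1
      change (g : L ≃ₐ[k] L) ((g : L ≃ₐ[k] L).symm _) = _
      rw [AlgEquiv.apply_symm_apply]
      rfl
    rw [h2]
    exact h1

/-- the trace -/
noncomputable def trG (G : Subgroup (L ≃ₐ[k] L)) [Fintype G] : L →ₗ[k] fixedField G where
  toFun x := ⟨∑ g : G, (g : L ≃ₐ[k] L) x, fun h => by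
    change (h : L ≃ₐ[k] L) (∑ g : G, (g : L ≃ₐ[k] L) x) = _
    rw [map_sum]
    exact Equiv.sum_comp (Equiv.mulLeft h) (fun g : G => (g : L ≃ₐ[k] L) x)⟩
  map_add' x y := by
    apply Subtype.ext
    change ∑ g : G, (g : L ≃ₐ[k] L) (x + y) = ∑ g : G, (g : L ≃ₐ[k] L) x + ∑ g : G, (g : L ≃ₐ[k] L) y
    rw [← Finset.sum_add_distrib]
    exact Finset.sum_congr rfl fun g _ => map_add _ _ _
  map_smul' c x := by
    apply Subtype.ext
    change ∑ g : G, (g : L ≃ₐ[k] L) (c • x) = c • ∑ g : G, (g : L ≃ₐ[k] L) x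
    rw [Finset.smul_sum]
    exact Finset.sum_congr rfl fun g _ => map_smul _ _ _

theorem trG_coe (G : Subgroup (L ≃ₐ[k] L)) [Fintype G] (x : L) :
    (trG G x : L) = ∑ g : G, (g : L ≃ₐ[k] L) x := rfl

theorem trG_mul (G : Subgroup (L ≃ₐ[k] L)) [Fintype G] (c : fixedField G) (x : L) :
    trG G ((c : L) * x) = c * trG G x := by
  apply Subtype.ext
  change ∑ g : G, (g : L ≃ₐ[k] L) ((c : L) * x) = (c : L) * ∑ g : G, (g : L ≃ₐ[k] L) x
  rw [Finset.mul_sum]
  refine Finset.sum_congr rfl fun g _ => ?_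
  rw [map_mul]
  congr 1
  exact c.2 g

/-- The trace form is not degenerate. -/
theorem exists_tr (G : Subgroup (L ≃ₐ[k] L)) [Fintype G] {ι : Type} [Fintype ι]
    (b : Module.Basis ι (fixedField G) L) {x : L} (hx : x ≠ 0) : ∃ i, trG G (b i * x) ≠ 0 := by
  classical
  by_contra hcon
  push Not at hcon
  have h1 : ∀ y : L, trG G (y * x) = 0 := by
    intro y
    have h2 : y * x = ∑ i, ((b.repr y i : fixedField G) : L) * (b i * x) := by
      conv_lhs => rw [← b.sum_repr y, Finset.sum_mul]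
      refine Finset.sum_congr rfl fun i _ => ?_
      rw [Algebra.smul_def, mul_assoc]
      rfl
    rw [h2, map_sum]
    refine Finset.sum_eq_zero fun i _ => ?_
    rw [trG_mul, hcon i, mul_zero]
  have h2 := h1 x⁻¹
  rw [inv_mul_cancel₀ hx] at h2
  have h3 := congrArg (fun z : fixedField G => (z : L)) h2
  change ∑ g : G, (g : L ≃ₐ[k] L) 1 = 0 at h3
  simp only [map_one, Finset.sum_const, Finset.card_univ, nsmul_eq_mul, mul_one] at h3
  have hCL : CharZero L := charZero_of_injective_algebraMap (algebraMap k L).injective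
  have h4 : Fintype.card G ≠ 0 := Fintype.card_ne_zero
  exact h4 (by exact_mod_cast h3)

end

section

variable {k : Type} {L : Type} [Field k] [CharZero k] [IsAlgClosed k] [Field L] [Algebra k L]
variable {r : ℕ} {M : Fin r → IntermediateField k L} {a : Fin r → ℕ}
  {G : Subgroup (L ≃ₐ[k] L)} {σ : G →* Equiv.Perm (Fin r)}

/-- **Traces of sections are sections.** -/
theorem tr_vv [Fintype G] (h : IsPermuted M a G σ) {H : Subgroup (L ≃ₐ[k] L)} (hHG : H ≤ G)
    (hage : Senior M a G σ H) {z : Fin (∑ i, a i) → fixedField G} (hz : IsTranscendenceBasis k z)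
    (S : Finset (fixedField H)) {c : L} (hc : c ≠ 0) : ∃ T : Finset (fixedField G), ∀ (m j : ℕ),
      1 ≤ j → ∀ f : fixedField H,
      f ∈ VV k (fun _ => False) S m j (fun q => inclusion (fixed_mono hHG) (z q)) →
      trG G (c * (f : L)) ∈ VV k (fun _ => False) T m j z := by
  classical
  have halgK := Pool.Agent.W721.PG.EFF2.alg_fixed G
  have hfin := fixed_finite G
  have hessL := h.essL
  obtain ⟨hnK, z0, hz0⟩ := Pool.Agent.W721.PG.EFF2.exists_basis (fixedField G) (∑ i, a i) h.total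
  obtain ⟨S1, hS1⟩ := loc h hHG hage hz S
  let S2 : Finset L := (Finset.univ : Finset G).biUnion fun g =>
    (S1 ∪ S1.image (fun s => s * c)).image (g : L ≃ₐ[k] L)
  obtain ⟨T, hT⟩ := exists_desc (fixedField G) S2
  refine ⟨T, fun m j hj f hf => ?_⟩
  rw [mem_vv]
  refine ⟨pf_pluri _ _ _, fun v hv _ D hD => ?_, fun v _ h => h.elim⟩
  obtain ⟨w, e, I, hwv, hcard, hI⟩ := exists_inertia G v
  choose ext hext hext2 hext3 using Pool.Agent.Y174.pEXT k (fixedField G) L (∑ i, a i) hnK
  have hval : ((PF z m (trG G (c * (f : L))) D : fixedField G) : L) =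
      ∑ g : G, (g : L ≃ₐ[k] L) (c * PF (fun q => (z q : L)) m (f : L) (fun b => ext (D b))) := by
    have h1 : ((PF z m (trG G (c * (f : L))) D : fixedField G) : L) =
        ((Matrix.of fun p q => D p (z q)).det : L) ^ m * ∑ g : G, (g : L ≃ₐ[k] L) (c * (f : L)) := rfl
    rw [h1, Finset.mul_sum]
    refine Finset.sum_congr rfl fun g _ => ?_
    have h2 : PF (fun q => (z q : L)) m (f : L) (fun b => ext (D b)) =
        ((Matrix.of fun p q => D p (z q)).det : L) ^ m * (f : L) := by
      unfold PF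
      congr 2
      change _ = algebraMap (fixedField G) L _
      rw [RingHom.map_det]
      congr 1
      ext p q
      exact hext (D p) (z q)
    rw [h2, map_mul, map_mul, map_mul, map_pow]
    have h3 : (g : L ≃ₐ[k] L) (((Matrix.of fun p q => D p (z q)).det : fixedField G) : L) =
        ((Matrix.of fun p q => D p (z q)).det : fixedField G) :=
      ((Matrix.of fun p q => D p (z q)).det : fixedField G).2 g
    rw [h3]
    ring
  refine hT w v e hwv j _ ?_
  rw [hval]
  refine dom_sum _ fun g _ => ?_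
  have hov := over_comp hwv (g : L ≃ₐ[k] L) (fun z => z.2 g)
  have h1 := hS1 m j f hf v hv (w.comp (g : L ≃ₐ[k] L)) e hov (hin_comp hcard hI g) D
    (fun b => ext (D b)) hD (fun j f => hext _ f)
  have h2 := dom_comp (dom_mul hj hc h1)
  exact dom_mono (fun s hs => Finset.mem_biUnion.2 ⟨g, Finset.mem_univ _, hs⟩) h2

end

end Pool.Agent.H908.SE
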