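import Pool.Agent.H908.SE6
import Pool.Graph.R_pool_sql_team_seeded_efc1946e.K1H17.IS.Uf

/-! The regular pluricanonical forms on the quotients by `G` and by a subgroup which contains the
elements of age less than one. -/

set_option autoImplicit false
set_option linter.overlappingInstances false
set_option linter.unusedSectionVars false
set_option linter.unusedVariables false
set_option linter.style.haveILetI false

open FF IntermediateField Pool.Agent.W619.PQ Pool.Agent.W619.PL Pool.Agent.W619.TW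
  Pool.Agent.W603.LV Pool.Agent.W619.Y Pool.Agent.W672.PG Pool.Agent.W824.PG Pool.Agent.Y174
  Pool.Agent.K1H17.IS Pool.Agent.K1H6.PQ Pool.Agent.W460.PG.ONE

namespace Pool.Agent.H908.SE

open Pool.Agent.H908.SB (PF pf_pluri pf_eval ge_lift desc3)

section

variable {k : Type} {K : Type} [Field k] [CharZero k] [Field K] [Algebra k K]

theorem dom_one {v : Place k K} {f : K} : Dom v {1} 0 f ↔ v.Reg f := by
  constructor
  · intro h
    exact dom_ge h
  · rintro (h | h)
    · exact Or.inl h
    · right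
      exact ⟨1, Finset.mem_singleton_self _, one_ne_zero, by simpa using h⟩

theorem sec_iff_reg {n m : ℕ} {ω : (Fin n → Derivation k K K) → K} (hω : IsPluriForm k K n m ω) :
    IsSec k K n (fun _ => False) {1} m 0 ω ↔
      ∀ v : Place k K, IsDivisorial v n → RegularAt v n ω := by
  constructor
  · intro h v hv D hD
    exact dom_one.1 (h.2.1 v hv (fun h => h) D hD)
  · intro h
    exact ⟨hω, fun v hv _ D hD => dom_one.2 (h v hv D hD), fun v _ h => h.elim⟩

end

section

variable {k : Type} {L : Type} [Field k] [CharZero k] [IsAlgClosed k] [Field L] [Algebra k L]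

/-- `ω'` is the pull-back of `ω`: the values of `ω` and of `ω'` on vector fields `D` and `D'` such
that `D'` extends `D` are the same. -/
def IsPullback {G H : Subgroup (L ≃ₐ[k] L)} (hHG : H ≤ G) {n : ℕ}
    (ω : (Fin n → Derivation k (fixedField G) (fixedField G)) → fixedField G)
    (ω' : (Fin n → Derivation k (fixedField H) (fixedField H)) → fixedField H) : Prop :=
  ∀ (D : Fin n → Derivation k (fixedField G) (fixedField G))
    (D' : Fin n → Derivation k (fixedField H) (fixedField H)),
    (∀ j f, D' j (inclusion (fixed_mono hHG) f) = inclusion (fixed_mono hHG) (D j f)) →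
    ω' D' = inclusion (fixed_mono hHG) (ω D)

variable {r : ℕ} {M : Fin r → IntermediateField k L} {a : Fin r → ℕ}
  {G : Subgroup (L ≃ₐ[k] L)} {σ : G →* Equiv.Perm (Fin r)}

/-- **Regular pluricanonical forms.** -/
theorem regular_iff [Finite G] (h : IsPermuted M a G σ) {H : Subgroup (L ≃ₐ[k] L)} (hHG : H ≤ G)
    (hage : Senior M a G σ H) {m : ℕ}
    {ω : (Fin (∑ i, a i) → Derivation k (fixedField G) (fixedField G)) → fixedField G}
    {ω' : (Fin (∑ i, a i) → Derivation k (fixedField H) (fixedField H)) → fixedField H}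
    (hω : IsPluriForm k (fixedField G) (∑ i, a i) m ω)
    (hω' : IsPluriForm k (fixedField H) (∑ i, a i) m ω') (hpull : IsPullback hHG ω ω') :
    (∀ v : Place k (fixedField G), IsDivisorial v (∑ i, a i) → RegularAt v (∑ i, a i) ω) ↔
      ∀ v : Place k (fixedField H), IsDivisorial v (∑ i, a i) → RegularAt v (∑ i, a i) ω' := by
  classical
  have halgK := Pool.Agent.W721.PG.EFF2.alg_fixed G
  have hfin := fixed_finite G
  have hessL := h.essL
  obtain ⟨hnK, z, hz⟩ := Pool.Agent.W721.PG.EFF2.exists_basis (fixedField G) (∑ i, a i) h.total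
  have hessK : Algebra.EssFiniteType k (fixedField G) := ess_down hessL z hz
  letI := algGH hHG
  haveI := tower1 hHG
  haveI := tower2 hHG
  have f1 : FiniteDimensional (fixedField G) (fixedField H) :=
    FiniteDimensional.left (fixedField G) (fixedField H) L
  obtain ⟨EK, hEK⟩ := Pool.Agent.W636.PG.exists_duals k (fixedField G) _ _ hz
  choose extF hextF hextF2 hextF3 using
    Pool.Agent.Y174.pEXT k (fixedField G) (fixedField H) (∑ i, a i) hnK
  have hzF := basis_incl hHG hz
  have hEF : ∀ i j, extF (EK i) (inclusion (fixed_mono hHG) (z j)) = if i = j then 1 else 0 := by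
    intro i j
    have h1 := hextF (EK i) (z j)
    rw [hEK] at h1
    rw [show inclusion (fixed_mono hHG) (z j) = algebraMap (fixedField G) (fixedField H) (z j)
      from rfl, h1]
    split_ifs <;> simp
  have hf' : ω' (fun j => extF (EK j)) = inclusion (fixed_mono hHG) (ω EK) :=
    hpull EK _ fun j f => hextF (EK j) f
  rw [← sec_iff_reg hω, ← sec_iff_reg hω']
  constructor
  · intro hs
    obtain ⟨h1, h2⟩ := sec_coeff hz hEK hs
    have h3 := vv_map (L := fixedField H) hessK hnK hz h1
    rw [Finset.image_singleton, map_one, mem_vv] at h3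
    have h4 : ω' = PF (fun q => algebraMap (fixedField G) (fixedField H) (z q)) m
        (algebraMap (fixedField G) (fixedField H) (ω EK)) := by
      funext D
      rw [Pool.Agent.W636.PG.form_eq k (fixedField H) _ m _ hzF _ hEF ω' hω' D, hf']
      rfl
    rw [h4]
    exact h3
  · intro hs
    obtain ⟨h1, h2⟩ := sec_coeff hzF hEF hs
    rw [hf'] at h1
    obtain ⟨S', hS'⟩ := loc h hHG hage hz {1}
    refine ⟨hω, fun v hv _ D hD => ?_, fun v _ h => h.elim⟩
    obtain ⟨w, e, I, hwv, hcard, hI⟩ := exists_inertia G v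
    choose ext hext hext2 hext3 using Pool.Agent.Y174.pEXT k (fixedField G) L (∑ i, a i) hnK
    have hin : 2 ≤ e → ∃ g ∈ G, g ≠ 1 ∧ orderOf g = e ∧ Inert w g := by
      intro he
      obtain ⟨g, hg, hord, -⟩ := exists_generator w I hI
      refine ⟨g, g.2, fun h0 => ?_, hord.trans hcard, hI g hg⟩
      rw [h0, orderOf_one, hcard] at hord
      omega
    have h6 := hS' m 0 _ h1 v hv w e hwv hin D (fun j => ext (D j)) hD (fun j f => hext _ f)
    have h7 := dom_ge h6
    have h8 : PF (fun q => (z q : L)) m ((inclusion (fixed_mono hHG) (ω EK) : fixedField H) : L)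
        (fun j => ext (D j)) = ((ω D : fixedField G) : L) := by
      rw [Pool.Agent.W636.PG.form_eq k (fixedField G) _ m z hz EK hEK ω hω D]
      unfold PF
      change _ = algebraMap (fixedField G) L ((Matrix.of fun p q => D p (z q)).det ^ m * ω EK)
      rw [map_mul, map_pow, RingHom.map_det]
      refine congrArg₂ (· * ·) (congrArg (fun X : Matrix _ _ L => X.det ^ m) ?_) rfl
      ext p q
      exact hext (D p) (z q)
    rw [h8] at h7
    rw [dom_one, ← hwv.reg]
    exact h7

theorem uniruled_down {n : ℕ} {G H : Subgroup (L ≃ₐ[k] L)} (hHG : H ≤ G)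
    (h : IsUniruled k (fixedField H) n) : IsUniruled k (fixedField G) n := by
  obtain ⟨M, i1, i2, h1, h2, ⟨φ⟩⟩ := h
  exact ⟨M, i1, i2, h1, h2, ⟨φ.comp (inclusion (fixed_mono hHG))⟩⟩

theorem neg_iff [Finite G] (h : IsPermuted M a G σ) {H : Subgroup (L ≃ₐ[k] L)} (hHG : H ≤ G)
    (hage : Senior M a G σ H) :
    KodairaNeg k (fixedField G) (∑ i, a i) ↔ KodairaNeg k (fixedField H) (∑ i, a i) := by
  rw [← kod0_iff, ← kod0_iff, (main_iff h hHG hage).1]

/-- moving a factor of dimension at least two -/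
theorem senior_of (h : IsPermuted M a G σ) {H : Subgroup (L ≃ₐ[k] L)}
    (hH : ∀ g : G, (g : L ≃ₐ[k] L) ∉ H → ∀ w : Place k L, IsDivisorial w (∑ i, a i) →
      Inert w (g : L ≃ₐ[k] L) → orderOf (g : L ≃ₐ[k] L) = idx w (fixedField G) →
      (∃ i, σ g i ≠ i ∧ 2 ≤ a i) ∨ (orderOf (g : L ≃ₐ[k] L) : ℝ) ≤ ∑ i, (idx w (M i) : ℝ) +
        orderOf (g : L ≃ₐ[k] L) * permAge a (σ g)) : Senior M a G σ H := by
  intro g hg w hw hI hord
  rcases hH g hg w hw hI hord with ⟨i, h2, h3⟩ | h1
  · have h4 := permAge_ge a (σ g) (h.dim g) h2 h3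
    have h5 : (0 : ℝ) ≤ ∑ i, (idx w (M i) : ℝ) := Finset.sum_nonneg fun i _ => Nat.cast_nonneg _
    have h6 := mul_le_mul_of_nonneg_left h4 (Nat.cast_nonneg (α := ℝ) (orderOf (g : L ≃ₐ[k] L)))
    linarith
  · exact h1

/-- The age is a lower bound. -/
theorem index_of_age [Finite G] (h : IsPermuted M a G σ) (g : G) {w : Place k L}
    (hI : Inert w (g : L ≃ₐ[k] L)) (hage : 1 ≤ age M a (σ g) (fun _ _ => 0) (g : L ≃ₐ[k] L)) :
    (orderOf (g : L ≃ₐ[k] L) : ℝ) ≤ ∑ i, (idx w (M i) : ℝ) +
      orderOf (g : L ≃ₐ[k] L) * permAge a (σ g) := by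
  classical
  have hfin : IsOfFinOrder (g : L ≃ₐ[k] L) := by
    have h3 : IsOfFinOrder g := isOfFinOrder_of_finite _
    exact (Submonoid.isOfFinOrder_coe (H := G.toSubmonoid) (x := g)).2 h3
  set e := orderOf (g : L ≃ₐ[k] L) with he
  set π : Equiv.Perm (Fin r) := σ g with hπ
  have hge : g ^ e = 1 := by
    apply Subtype.ext
    have : ((g ^ e : G) : L ≃ₐ[k] L) = (g : L ≃ₐ[k] L) ^ e := rfl
    rw [this, he, pow_orderOf_eq_one]
    rfl
  have hπe : π ^ e = 1 := by rw [hπ, ← map_pow, hge, map_one]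
  let l : Fin r → ℕ := fun i => Function.minimalPeriod π i
  have hl0 : ∀ i, 0 < l i := fun i => mp_pos π i
  have hordl : ∀ i, (orderOf ((g : L ≃ₐ[k] L) ^ l i) : ℝ) = e * (1 / (l i : ℝ)) := by
    intro i
    have h2 : orderOf ((g : L ≃ₐ[k] L) ^ l i) = e / l i :=
      orderOf_pow_of_dvd (hl0 i).ne' (mp_dvd π i hπe)
    have h3 : e = e / l i * l i := (Nat.div_mul_cancel (mp_dvd π i hπe)).symm
    have h4 : (l i : ℝ) ≠ 0 := by exact_mod_cast (hl0 i).ne'
    rw [h2, mul_one_div, eq_div_iff h4]
    exact_mod_cast h3.symm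
  have hst : ∀ i, ∀ z ∈ M i, ((g : L ≃ₐ[k] L) ^ l i) z ∈ M i := by
    intro i z hz
    have h1 := h.perm (g ^ l i) i z hz
    rw [map_pow] at h1
    rwa [show (σ g ^ l i) i = i from pow_mp π i] at h1
  have hterm : ∀ i, (e : ℝ) * (1 / (l i : ℝ) * wgt (M i) ((g : L ≃ₐ[k] L) ^ l i) 0) ≤
      idx w (M i) := by
    intro i
    rw [← mul_assoc, ← hordl i]
    by_cases h0 : ∀ f : M i, w.ord (f : L) = 0
    · rw [triv_of_place (M i) (inert_pow hI _) (hst i) h0, mul_zero]
      exact Nat.cast_nonneg _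
    · push Not at h0
      obtain ⟨c, u, hu⟩ := exists_over (K := M i) w h0
      rw [idx_over hu]
      exact index_ge (M i) (inert_pow hI _) hfin.pow hu
  rw [age_eq] at hage
  have h7 := mul_le_mul_of_nonneg_left hage (Nat.cast_nonneg (α := ℝ) e)
  rw [mul_add, Finset.mul_sum, mul_one] at h7
  have h8 := Finset.sum_le_sum fun i (_ : i ∈ Finset.univ) => hterm i
  linarith

end

end Pool.Agent.H908.SE
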