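import Pool.Agent.H908.SE7

/-! Products of sections on the factors of a product. -/

set_option autoImplicit false
set_option linter.overlappingInstances false
set_option linter.unusedSectionVars false
set_option linter.unusedVariables false

open FF IntermediateField Pool.Agent.W619.PQ Pool.Agent.W619.PL Pool.Agent.W619.TW
  Pool.Agent.W603.LV Pool.Agent.W619.Y Pool.Agent.W672.PG Pool.Agent.W824.PG Pool.Agent.Y174
  Pool.Agent.K1H17.IS Pool.Agent.K1H6.PQ Pool.Agent.W460.PG.ONE

namespace Pool.Agent.H908.SE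

open Pool.Agent.H908.SB (PF pf_pluri pf_eval ge_lift desc3 det_change)

section

variable {k : Type} {L : Type} [Field k] [CharZero k] [IsAlgClosed k] [Field L] [Algebra k L]

/-- Good coordinates for sections. -/
theorem good_frame2 {w : Place k L} {N : ℕ} (hw : IsDivisorial w N) (hn : Algebra.trdeg k L = N)
    (M : IntermediateField k L) {a : ℕ} (ha : Algebra.trdeg k M = a)
    (hess : Algebra.EssFiniteType k M) :
    ∃ (X : Fin a → M) (E : Fin a → Derivation k M M), IsTranscendenceBasis k X ∧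
      (∀ p q, E p (X q) = if p = q then 1 else 0) ∧ (∀ q, Ge w 0 (X q : L)) ∧
      ∀ (T : Finset M) (m j : ℕ) (y : Fin a → M) (f : M), (1 : M) ∈ T →
        f ∈ VV k (fun _ => False) T m j y → PF y m f E = 0 ∨
          ∃ t ∈ T, t ≠ 0 ∧ (j : ℤ) * w.ord (t : L) ≤ w.ord ((PF y m f E : M) : L) := by
  classical
  by_cases hT : ∃ f : M, w.ord (algebraMap M L f) ≠ 0
  · obtain ⟨c, u, hu⟩ := exists_over (K := M) w hT
    have hdiv : IsDivisorial u a := Pool.Agent.Y174.pDIVR k M L a N u w c ha hn hu hw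
    obtain ⟨y, F, i0, hy, hF, ht, hyr, hpres⟩ := Pool.Agent.Y174.pFRAME k M a ha
      (fun y hy => fin_adj hess y hy) u hdiv
    refine ⟨y, F, hy, hF, fun q => hu.reg.2 (hyr q), fun T m j y' f h1 hf => ?_⟩
    rw [mem_vv] at hf
    rcases hf.2.1 u hdiv (fun h => h) F hpres with h2 | ⟨t, ht, ht0, h2⟩
    · exact Or.inl h2
    · right
      refine ⟨t, ht, ht0, ?_⟩
      have e1 : w.ord (t : L) = c * u.ord t := hu.2 t
      have e2 : w.ord ((PF y' m f F : M) : L) = c * u.ord (PF y' m f F) :=
        hu.2 (PF y' m f F)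
      rw [e1, e2, mul_left_comm]
      exact mul_le_mul_of_nonneg_left h2 (Int.natCast_nonneg c)
  · push Not at hT
    obtain ⟨X, hX⟩ := Pool.Agent.W636.PG.exists_basis k M a ha
    obtain ⟨E, hE⟩ := Pool.Agent.W636.PG.exists_duals k M a X hX
    have h0 : ∀ f : M, w.ord (f : L) = 0 := hT
    refine ⟨X, E, hX, hE, fun q => Or.inr (h0 _).ge, fun T m j y f h1 hf => Or.inr ?_⟩
    exact ⟨1, h1, one_ne_zero, by rw [h0, h0, mul_zero]⟩

variable {r : ℕ} {M : Fin r → IntermediateField k L} {a : Fin r → ℕ}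

theorem ord_prod {w : Place k L} {x : Fin r → L} (hx : ∀ i, x i ≠ 0) :
    w.ord (∏ i, x i) = ∑ i, w.ord (x i) := by
  classical
  have h6 : ∀ t : Finset (Fin r), w.ord (∏ i ∈ t, x i) = ∑ i ∈ t, w.ord (x i) := by
    intro t
    induction t using Finset.induction_on with
    | empty => simp [w.ord_one]
    | insert b t hb ih =>
      rw [Finset.prod_insert hb, Finset.sum_insert hb,
        w.ord_mul (hx b) (Finset.prod_ne_zero_iff.2 fun q _ => hx q), ih]
  exact h6 _

/-- **Products of sections.** -/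
theorem prod_sec (hess : ∀ i, Algebra.EssFiniteType k (M i)) (hM : ∀ i, Algebra.trdeg k (M i) = a i)
    (hn : Algebra.trdeg k L = (∑ i, a i : ℕ)) {y : ∀ i, Fin (a i) → M i}
    (τ : (Σ i, Fin (a i)) ≃ Fin (∑ i, a i))
    {T : ∀ i, Finset (M i)} (h1 : ∀ i, (1 : M i) ∈ T i) : ∃ T' : Finset L, ∀ (m j : ℕ)
      (f : ∀ i, M i), (∀ i, f i ∈ VV k (fun _ => False) (T i) m j (y i)) →
      (∏ i, (f i : L)) ∈ VV k (fun _ => False) T' m j (YY y τ) := by
  classical
  refine ⟨(Fintype.piFinset T).image (fun s => ∏ i, (s i : L)), fun m j f hf => ?_⟩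
  rw [mem_vv]
  refine ⟨pf_pluri _ _ _, fun w hw _ D hD => ?_, fun v _ h => h.elim⟩
  choose X E' hX hE' hXr hgood using fun i => good_frame2 hw hn (M i) (hM i) (hess i)
  have e1 : PF (YY y τ) m (∏ i, (f i : L)) D =
      (Matrix.of fun i j : (Σ i, Fin (a i)) => D (τ i) (X j.1 j.2 : L)).det ^ m *
        ∏ i, ((PF (y i) m (f i) (E' i) : M i) : L) := by
    rw [pf_sigma, det_change y X hX E' hE' (fun i => D (τ i)), mul_pow, mul_assoc,
      ← Finset.prod_pow, ← Finset.prod_mul_distrib]
    congr 1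
  rw [e1]
  have h2 : Ge w 0 ((Matrix.of fun i j : (Σ i, Fin (a i)) => D (τ i) (X j.1 j.2 : L)).det ^ m) := by
    have h3 : Ge w 0 (Matrix.of fun i j : (Σ i, Fin (a i)) => D (τ i) (X j.1 j.2 : L)).det :=
      ge_det w _ fun i j => hD _ _ (hXr j.1 j.2)
    have h4 := h3.pow m
    simpa using h4
  by_cases h0 : ∃ i, PF (y i) m (f i) (E' i) = 0
  · obtain ⟨i, hi⟩ := h0
    left
    rw [Finset.prod_eq_zero (Finset.mem_univ i) (by rw [hi]; rfl), mul_zero]
  push Not at h0
  have h0' : ∀ i, ((PF (y i) m (f i) (E' i) : M i) : L) ≠ 0 := fun i h => h0 i (Subtype.ext h)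
  choose t ht ht0 hle using fun i => (hgood i (T i) m j (y i) (f i) (h1 i) (hf i)).resolve_left (h0 i)
  have ht0' : ∀ i, (t i : L) ≠ 0 := fun i h => ht0 i (Subtype.ext h)
  rcases h2 with h2 | h2
  · left; rw [h2, zero_mul]
  by_cases hd : (Matrix.of fun i j : (Σ i, Fin (a i)) => D (τ i) (X j.1 j.2 : L)).det ^ m = 0
  · left; rw [hd, zero_mul]
  right
  refine ⟨∏ i, (t i : L), Finset.mem_image.2 ⟨t, Fintype.mem_piFinset.2 ht, rfl⟩,
    Finset.prod_ne_zero_iff.2 fun i _ => ht0' i, ?_⟩
  rw [w.ord_mul hd (Finset.prod_ne_zero_iff.2 fun i _ => h0' i), ord_prod ht0', ord_prod h0',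
    Finset.mul_sum]
  have h5 := Finset.sum_le_sum fun i (_ : i ∈ Finset.univ) => hle i
  omega

end

section

variable {k : Type} [Field k] [CharZero k] [IsAlgClosed k]

/-- **Products of independent functions are independent.** -/
theorem tens_indep (r : ℕ) : ∀ (L : Type) [Field L] [Algebra k L] (M : Fin r → IntermediateField k L)
    (a : Fin r → ℕ), (∀ i, Algebra.trdeg k (M i) = a i) →
    Algebra.trdeg k L = (∑ i, a i : ℕ) → (⨆ i, M i) = ⊤ → ∀ (N : Fin r → ℕ)
    (f : ∀ i, Fin (N i) → M i), (∀ i, LinearIndependent k (f i)) →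
    LinearIndependent k (fun l : ∀ i, Fin (N i) => ∏ i, ((f i (l i) : M i) : L)) := by
  classical
  induction r with
  | zero =>
    intro L _ _ M a hM hL hsup N f hf
    refine LinearIndependent.of_subsingleton (fun i => i.elim0) ?_
    rw [Finset.univ_eq_empty, Finset.prod_empty]
    exact one_ne_zero
  | succ r ih =>
    intro L _ _ M a hM hL hsup N f hf
    let P : IntermediateField k L := ⨆ i : Fin r, M i.castSucc
    have hMN : ∀ i : Fin r, M i.castSucc ≤ P := fun i =>
      le_iSup (fun i : Fin r => M i.castSucc) i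
    let M0 : Fin r → IntermediateField k P := fun i => restrict (hMN i)
    have hM0 : ∀ i, Algebra.trdeg k (M0 i) = a i.castSucc := fun i => by
      rw [← hM]; exact (restrictAlgEquiv (hMN i)).symm.trdeg_eq
    have hsup0 : (⨆ i, M0 i) = ⊤ := by
      apply lift_injective P
      rw [lift_top]
      rw [IntermediateField.lift, IntermediateField.map_iSup]
      exact iSup_congr fun i => lift_restrict (hMN i)
    have hN1 : Algebra.trdeg k P ≤ (∑ i : Fin r, a i.castSucc : ℕ) := trdeg_le_iSup M0 hM0 hsup0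
    have hsupN : P ⊔ M (Fin.last r) = ⊤ := by
      rw [eq_top_iff, ← hsup]
      refine iSup_le fun i => ?_
      refine Fin.lastCases ?_ (fun j => ?_) i
      · exact le_sup_right
      · exact (hMN j).trans le_sup_left
    obtain ⟨c, hc⟩ : ∃ c : ℕ, Algebra.trdeg k P = c :=
      Cardinal.lt_aleph0.1 (hN1.trans_lt (Cardinal.natCast_lt_aleph0))
    have hL1 : Algebra.trdeg k L ≤ (c + a (Fin.last r) : ℕ) := by
      have h1 := trdeg_le_iSup (a := ![c, a (Fin.last r)]) ![P, M (Fin.last r)] (fun i => by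
        fin_cases i
        · exact hc
        · exact hM _) (by
        rw [← hsupN]
        apply le_antisymm
        · refine iSup_le fun i => ?_
          fin_cases i
          · exact le_sup_left
          · exact le_sup_right
        · exact sup_le (le_iSup (fun i => ![P, M (Fin.last r)] i) 0)
            (le_iSup (fun i => ![P, M (Fin.last r)] i) 1))
      simpa using h1
    have hcN : c = ∑ i : Fin r, a i.castSucc := by
      rw [hL, Fin.sum_univ_castSucc] at hL1
      rw [hc] at hN1
      have h5 : ∑ i : Fin r, a i.castSucc + a (Fin.last r) ≤ c + a (Fin.last r) := by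
        exact_mod_cast hL1
      have h6 : c ≤ ∑ i : Fin r, a i.castSucc := by exact_mod_cast hN1
      omega
    rw [hcN] at hc
    have hLs : Algebra.trdeg k L = (∑ i : Fin r, a i.castSucc + a (Fin.last r) : ℕ) := by
      rw [hL, Fin.sum_univ_castSucc]
    have halg : Algebra.IsAlgebraic ↥(P ⊔ M (Fin.last r)) L := by
      rw [hsupN]
      exact ⟨fun z => isAlgebraic_algebraMap (⟨z, trivial⟩ : (⊤ : IntermediateField k L))⟩
    let e : ∀ i : Fin r, M i.castSucc ≃ₐ[k] M0 i := fun i => restrictAlgEquiv (hMN i)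
    have h1 := ih P M0 (fun i => a i.castSucc) hM0 hc hsup0 (fun i => N i.castSucc)
      (fun i l => e i (f i.castSucc l))
      (fun i => (hf i.castSucc).map' (e i).toLinearMap (LinearMap.ker_eq_bot.2 (e i).injective))
    have h2 : LinearIndependent P (fun l => ((f (Fin.last r) l : M (Fin.last r)) : L)) :=
      Pool.Agent.K1H17.IS.linDisj P (M (Fin.last r)) halg hLs hc (hM _) _ (hf _)
    have h3 := linearIndependent_smul h1 h2
    -- reindexing
    let ψ : (∀ i : Fin (r + 1), Fin (N i)) →
        (∀ i : Fin r, Fin (N i.castSucc)) × Fin (N (Fin.last r)) := fun l =>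
      (fun i => l i.castSucc, l (Fin.last r))
    have hψ : Function.Injective ψ := by
      intro l l' h
      funext i
      refine Fin.lastCases ?_ (fun j => ?_) i
      · exact congrArg Prod.snd h
      · exact congrFun (congrArg Prod.fst h) j
    have h4 := h3.comp ψ hψ
    convert h4 using 1
    funext l
    rw [Fin.prod_univ_castSucc]
    change _ = (∏ i : Fin r, (((e i (f i.castSucc (l i.castSucc)) : M0 i) : P))) •
      ((f (Fin.last r) (l (Fin.last r)) : M (Fin.last r)) : L)
    rw [Algebra.smul_def, map_prod]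
    rfl

end

end Pool.Agent.H908.SE
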