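import Pool.Agent.H908.SF1

/-! The Kodaira dimension of a product is at most the sum of those of the factors. -/

set_option autoImplicit false
set_option linter.overlappingInstances false
set_option linter.unusedSectionVars false
set_option linter.unusedVariables false

open FF IntermediateField Pool.Agent.W619.PQ Pool.Agent.W619.PL Pool.Agent.W619.TW
  Pool.Agent.W603.LV Pool.Agent.W619.Y Pool.Agent.W672.PG Pool.Agent.W824.PG Pool.Agent.Y174
  Pool.Agent.K1H17.IS Pool.Agent.K1H6.PQ Pool.Agent.W460.PG.ONE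

namespace Pool.Agent.H908.SE

open Pool.Agent.H908.SB (PF pf_pluri pf_eval ge_lift desc3 det_change)

section

variable {k : Type} {L : Type} [Field k] [Field L] [Algebra k L]

theorem indep_le {h : ℕ} {x : Fin h → L} (hx : AlgebraicIndependent k x) {U : Finset L}
    (hU : ∀ l, IsAlgebraic (Algebra.adjoin k (U : Set L)) (x l)) : h ≤ U.card := by
  have h1 : (AlgebraicIndependent.matroid k L).Indep (Set.range x) := by
    rw [AlgebraicIndependent.matroid_indep_iff]
    exact hx.coe_range
  have h2 : Set.range x ⊆ (AlgebraicIndependent.matroid k L).closure (U : Set L) := by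
    rw [AlgebraicIndependent.matroid_closure_eq]
    rintro _ ⟨l, rfl⟩
    exact hU l
  have h3 := h1.encard_le_eRk_of_subset h2
  rw [Matroid.eRk_closure_eq] at h3
  have h4 := h3.trans ((AlgebraicIndependent.matroid k L).eRk_le_encard (U : Set L))
  rw [Set.encard_coe_eq_coe_finsetCard, ← Set.image_univ, hx.injective.injOn.encard_image,
    Set.encard_univ, ENat.card_eq_coe_fintype_card, Fintype.card_fin] at h4
  exact_mod_cast h4

theorem exists_sub (G : Set L) : ∃ t : Set L, t ⊆ G ∧ AlgebraicIndepOn k id t ∧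
    ∀ a ∈ G, IsAlgebraic (Algebra.adjoin k t) a := by
  obtain ⟨t, ht⟩ := (AlgebraicIndependent.matroid k L).exists_isBasis G
  rw [AlgebraicIndependent.matroid_isBasis_iff] at ht
  exact ⟨t, ht.2.1, ht.1, ht.2.2⟩

end

section

variable {k : Type} {L : Type} [Field k] [CharZero k] [IsAlgClosed k] [Field L] [Algebra k L]
variable {r : ℕ} {M : Fin r → IntermediateField k L} {a : Fin r → ℕ}

/-- **Upper bound of the Kodaira dimension of a product.** -/
theorem kod_le (hess : ∀ i, Algebra.EssFiniteType k (M i)) (hM : ∀ i, Algebra.trdeg k (M i) = a i)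
    (hn : Algebra.trdeg k L = (∑ i, a i : ℕ)) (hsup : (⨆ i, M i) = ⊤) {h : ℕ}
    (hk : KodTr k L (∑ i, a i) h) :
    ∃ α : Fin r → ℕ, (∀ i, KodTr k (M i) (a i) (α i)) ∧ h ≤ ∑ i, α i := by
  classical
  obtain ⟨τ⟩ : Nonempty ((Σ i, Fin (a i)) ≃ Fin (∑ i, a i)) := ⟨finSigmaFinEquiv⟩
  choose y hy using fun i => Pool.Agent.W636.PG.exists_basis k (M i) (a i) (hM i)
  choose Ei hEi using fun i => Pool.Agent.W636.PG.exists_duals k (M i) (a i) (y i) (hy i)
  have hYY := yy_basis hsup hn hy τ
  obtain ⟨E, hE⟩ := Pool.Agent.W636.PG.exists_duals k L _ _ hYY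
  obtain ⟨m, hm, ω, hω, D, hD0, hDi⟩ := hk
  have hc := fun l => sec_coeff hYY hE (hω l)
  have hval : ∀ l, ω l D = (Matrix.of fun p q => D p (YY y τ q)).det ^ m * ω l E := fun l => by
    conv_lhs => rw [(hc l).2]
    rfl
  have hdet0 : (Matrix.of fun p q => D p (YY y τ q)).det ^ m ≠ 0 := by
    intro h0
    apply hD0 0
    rw [hval, h0, zero_mul]
  have hE0 : ∀ l, ω l E ≠ 0 := by
    intro l h0
    apply hD0 l
    rw [hval, h0, mul_zero]
  have hind : AlgebraicIndependent k (fun l : Fin h => ω l.succ E / ω 0 E) := by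
    have e1 : (fun l : Fin h => ω l.succ E / ω 0 E) = fun l : Fin h => ω l.succ D / ω 0 D := by
      funext l
      rw [hval, hval, mul_div_mul_left _ _ hdet0]
    rw [e1]
    exact hDi
  obtain ⟨b0, T, hb0, hkun⟩ := kun (k := k) r L M a hess hM hn hsup y hy _ τ {1}
  choose ι hι c p hp hsum using fun l => hkun m 0 (ω l E) (hc l).1
  simp only [pow_zero, one_mul] at hsum
  -- a nonzero product
  obtain ⟨s0, hs0⟩ : ∃ s0 : ι 0, ∀ i, p 0 s0 i ≠ 0 := by
    obtain ⟨s0, -, hs0⟩ := Finset.exists_ne_zero_of_sum_ne_zero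
      (by rw [← hsum 0]; exact hE0 0 :
        ∑ l, algebraMap k L (c 0 l) * ∏ i, ((p 0 l i : M i) : L) ≠ 0)
    refine ⟨s0, fun i hi => hs0 ?_⟩
    rw [Finset.prod_eq_zero (Finset.mem_univ i) (by rw [hi]; rfl), mul_zero]
  let q : ∀ i, M i := fun i => p 0 s0 i
  have hq0 : ∀ i, (q i : L) ≠ 0 := fun i h0 => hs0 i (Subtype.ext h0)
  let G : ∀ i, Set (M i) := fun i => Set.range fun x : (Σ l, ι l) => p x.1 x.2 i / q i
  have hGfin : ∀ i, (G i).Finite := fun i => Set.finite_range _
  choose t htG htind htalg using fun i => exists_sub (k := k) (G i)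
  have htfin : ∀ i, (t i).Finite := fun i => (hGfin i).subset (htG i)
  -- the forms on the factors
  have hreg : ∀ (i : Fin r) (f : M i), f ∈ VV k (fun _ => False) (T i) m 0 (y i) →
      IsSec k (M i) (a i) (fun _ => False) {1} m 0 (PF (y i) m f) := by
    intro i f hf
    rw [mem_vv] at hf
    exact ⟨pf_pluri _ _ _, fun v hv h1 D hD => dom_one.2 (dom_ge (hf.2.1 v hv h1 D hD)),
      fun v _ h => h.elim⟩
  refine ⟨fun i => (t i).ncard, fun i => ?_, ?_⟩
  · obtain ⟨e⟩ : Nonempty (Fin (t i).ncard ≃ t i) := by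
      have := (htfin i).to_subtype
      exact ⟨(Finite.equivFinOfCardEq (Nat.card_coe_set_eq _)).symm⟩
    choose x hx using fun z : t i => htG i z.2
    refine ⟨m, hm, Fin.cons (PF (y i) m (q i)) (fun l => PF (y i) m (p (x (e l)).1 (x (e l)).2 i)),
      fun l => ?_, Ei i, fun l => ?_, ?_⟩
    · refine Fin.cases ?_ (fun l => ?_) l
      · exact hreg i _ (hp _ _ _)
      · exact hreg i _ (hp _ _ _)
    · refine Fin.cases ?_ (fun l => ?_) l
      · change PF (y i) m (q i) (Ei i) ≠ 0
        rw [pf_eval (hEi i)]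
        exact hs0 i
      · change PF (y i) m (p (x (e l)).1 (x (e l)).2 i) (Ei i) ≠ 0
        rw [pf_eval (hEi i)]
        intro h0
        have h1 := hx (e l)
        simp only [h0, zero_div] at h1
        exact (htind i).ne_zero (e l) h1.symm
    · have e1 : (fun l : Fin (t i).ncard =>
          (Fin.cons (PF (y i) m (q i)) (fun l => PF (y i) m (p (x (e l)).1 (x (e l)).2 i)) :
            Fin ((t i).ncard + 1) → (Fin (a i) → Derivation k (M i) (M i)) → M i) l.succ (Ei i) /
          (Fin.cons (PF (y i) m (q i)) (fun l => PF (y i) m (p (x (e l)).1 (x (e l)).2 i)) :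
            Fin ((t i).ncard + 1) → (Fin (a i) → Derivation k (M i) (M i)) → M i) 0 (Ei i)) =
          (fun z : t i => (z : M i)) ∘ e := by
        funext l
        rw [Fin.cons_succ, Fin.cons_zero, pf_eval (hEi i), pf_eval (hEi i)]
        exact hx (e l)
      rw [e1]
      exact (htind i).comp e e.injective
  · -- the upper bound
    let U : Finset L := Finset.univ.biUnion fun i => (htfin i).toFinset.image (algebraMap (M i) L)
    have hUsub : ∀ i, ∀ z ∈ t i, (z : L) ∈ U := fun i z hz =>
      Finset.mem_biUnion.2 ⟨i, Finset.mem_univ _,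
        Finset.mem_image_of_mem _ ((htfin i).mem_toFinset.2 hz)⟩
    have hcard : U.card ≤ ∑ i, (t i).ncard := by
      refine Finset.card_biUnion_le.trans (Finset.sum_le_sum fun i _ => ?_)
      refine Finset.card_image_le.trans (le_of_eq ?_)
      exact (Set.ncard_eq_toFinset_card _ (htfin i)).symm
    refine le_trans (indep_le hind (U := U) fun l => ?_) hcard
    -- the algebraic closure
    let A : IntermediateField k L := adjoin k (U : Set L)
    have hA : ∀ z : L, IsAlgebraic A z ↔ IsAlgebraic (Algebra.adjoin k (U : Set L)) z := by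
      intro z
      exact isAlgebraic_adjoin_iff
    rw [← hA]
    have hG : ∀ i, ∀ z ∈ G i, IsAlgebraic A (z : L) := by
      intro i z hz
      rw [hA]
      have h1 := htalg i z hz
      let φ : Algebra.adjoin k (t i) →ₐ[k] Algebra.adjoin k (U : Set L) :=
        ((M i).val.comp (Algebra.adjoin k (t i)).val).codRestrict _ (fun x => by
          have h2 : (Algebra.adjoin k (t i)).map (M i).val ≤ Algebra.adjoin k (U : Set L) := by
            rw [AlgHom.map_adjoin]
            refine Algebra.adjoin_mono ?_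
            rintro _ ⟨z, hz, rfl⟩
            exact hUsub i z hz
          exact h2 ⟨x, x.2, rfl⟩)
      have hφinj : Function.Injective φ := by
        intro x x' hxx
        have h3 := congrArg (fun w : Algebra.adjoin k (U : Set L) => (w : L)) hxx
        exact Subtype.ext (Subtype.ext h3)
      obtain ⟨P, hP0, hP⟩ := h1
      refine ⟨P.map φ.toRingHom, (Polynomial.map_ne_zero_iff hφinj).2 hP0, ?_⟩
      rw [Polynomial.aeval_def, Polynomial.eval₂_map]
      have h4 := congrArg (algebraMap (M i) L) hP
      rw [map_zero, Polynomial.aeval_def, Polynomial.hom_eval₂] at h4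
      exact h4
    let C := algebraicClosure A L
    have memC : ∀ z : L, z ∈ C ↔ IsAlgebraic A z := fun z => mem_algebraicClosure_iff
    have hk : ∀ l (s : ι l), (algebraMap k L (c l s) *
        ∏ i, ((p l s i : M i) : L) / (q i : L)) ∈ C := by
      intro l s
      refine mul_mem ?_ (prod_mem fun i _ => ?_)
      · rw [memC]
        exact isAlgebraic_algebraMap (algebraMap k A (c l s))
      · rw [memC]
        have h1 := hG i (p l s i / q i) ⟨⟨l, s⟩, rfl⟩
        exact h1
    have hf : ∀ l, ω l E / ∏ i, (q i : L) ∈ C := by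
      intro l
      rw [hsum l, Finset.sum_div]
      refine sum_mem fun s _ => ?_
      have h1 := hk l s
      rwa [Finset.prod_div_distrib, ← mul_div_assoc] at h1
    have h5 : ω l.succ E / ω 0 E = (ω l.succ E / ∏ i, (q i : L)) * (ω 0 E / ∏ i, (q i : L))⁻¹ := by
      rw [inv_div, div_mul_div_cancel₀ (Finset.prod_ne_zero_iff.2 fun i _ => hq0 i)]
    rw [h5, ← memC]
    exact mul_mem (hf _) (inv_mem (hf _))

end

end Pool.Agent.H908.SE
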