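import Pool.Agent.H908.SF2
import Pool.Graph.R_pool_sql_team_seeded_843ab51a.V11168.Abund.Dim

/-! Quotients by groups without junior elements: the Kodaira dimension, and abundance for powers. -/

set_option autoImplicit false
set_option linter.overlappingInstances false
set_option linter.unusedSectionVars false
set_option linter.unusedVariables false

open FF IntermediateField Pool.Agent.W619.PQ Pool.Agent.W619.PL Pool.Agent.W619.TW
  Pool.Agent.W603.LV Pool.Agent.W619.Y Pool.Agent.W672.PG Pool.Agent.W824.PG Pool.Agent.Y174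
  Pool.Agent.K1H17.IS Pool.Agent.K1H6.PQ Pool.Agent.W460.PG.ONE

namespace Pool.Agent.H908.SE

open Pool.Agent.H908.SB (PF pf_pluri pf_eval ge_lift desc3 det_change)

section

variable {k : Type} {K : Type} [Field k] [CharZero k] [Field K] [Algebra k K]

theorem indep_coeff {n : ℕ} {y : Fin n → K} (hy : IsTranscendenceBasis k y) {N : ℕ} {S : Finset K}
    {m j : ℕ} (h : HasIndep k K n N (IsSec k K n (fun _ => False) S m j)) :
    ∃ f : Fin N → K, LinearIndependent k f ∧ ∀ l, f l ∈ VV k (fun _ => False) S m j y := by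
  obtain ⟨E, hE⟩ := Pool.Agent.W636.PG.exists_duals k K n y hy
  obtain ⟨ω, hω, hsec⟩ := h
  have hc := fun l => sec_coeff hy hE (hsec l)
  refine ⟨fun l => ω l E, ?_, fun l => (hc l).1⟩
  rw [Fintype.linearIndependent_iff] at hω ⊢
  intro g hg
  refine hω g ?_
  funext D
  rw [Finset.sum_apply]
  simp only [Pi.smul_apply, Pi.zero_apply]
  have h1 : ∀ l, ω l D = (Matrix.of fun p q => D p (y q)).det ^ m * ω l E := fun l => by
    conv_lhs => rw [(hc l).2]
    rfl
  simp only [h1]
  have h2 : ∀ l, g l • ((Matrix.of fun p q => D p (y q)).det ^ m * ω l E) =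
      (Matrix.of fun p q => D p (y q)).det ^ m * (g l • ω l E) := fun l =>
    (mul_smul_comm _ _ _).symm
  simp only [h2]
  rw [← Finset.mul_sum, hg, mul_zero]

theorem indep_of_coeff {n : ℕ} {y : Fin n → K} (hy : IsTranscendenceBasis k y) {N : ℕ}
    {S : Finset K} {m j : ℕ} {f : Fin N → K} (hf : LinearIndependent k f)
    (hsec : ∀ l, f l ∈ VV k (fun _ => False) S m j y) :
    HasIndep k K n N (IsSec k K n (fun _ => False) S m j) := by
  obtain ⟨E, hE⟩ := Pool.Agent.W636.PG.exists_duals k K n y hy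
  refine ⟨fun l => PF y m (f l), ?_, fun l => mem_vv.1 (hsec l)⟩
  rw [Fintype.linearIndependent_iff] at hf ⊢
  intro g hg
  refine hf g ?_
  have h1 := congrFun hg E
  rw [Finset.sum_apply] at h1
  simp only [Pi.smul_apply, Pi.zero_apply, pf_eval hE] at h1
  exact h1

theorem hasIndep_equiv {K' : Type} [Field K'] [Algebra k K'] [DecidableEq K'] (e : K ≃ₐ[k] K')
    (hess : Algebra.EssFiniteType k K) {n : ℕ} (hn : Algebra.trdeg k K = n) {N : ℕ} {S : Finset K}
    {m j : ℕ} (h : HasIndep k K n N (IsSec k K n (fun _ => False) S m j)) :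
    HasIndep k K' n N (IsSec k K' n (fun _ => False) (S.image e) m j) := by
  obtain ⟨y, hy⟩ := Pool.Agent.W636.PG.exists_basis k K n hn
  obtain ⟨f, hf, hsec⟩ := indep_coeff hy h
  exact indep_of_coeff (e.isTranscendenceBasis hy)
    (hf.map' e.toLinearMap (LinearMap.ker_eq_bot.2 e.injective))
    (fun l => vv_equiv e hess hn hy (hsec l))

end

section

variable {k : Type} {L : Type} [Field k] [CharZero k] [IsAlgClosed k] [Field L] [Algebra k L]
variable {r : ℕ} {M : Fin r → IntermediateField k L} {a : Fin r → ℕ}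
  {G : Subgroup (L ≃ₐ[k] L)} {σ : G →* Equiv.Perm (Fin r)}

/-- Products of independent sections. -/
theorem hasIndep_prod (hess : ∀ i, Algebra.EssFiniteType k (M i))
    (hM : ∀ i, Algebra.trdeg k (M i) = a i) (hn : Algebra.trdeg k L = (∑ i, a i : ℕ))
    (hsup : (⨆ i, M i) = ⊤) {T : ∀ i, Finset (M i)} (h1 : ∀ i, (1 : M i) ∈ T i) :
    ∃ T' : Finset L, ∀ (m j : ℕ) (N : Fin r → ℕ),
      (∀ i, HasIndep k (M i) (a i) (N i) (IsSec k (M i) (a i) (fun _ => False) (T i) m j)) →
      HasIndep k L (∑ i, a i) (∏ i, N i) (IsSec k L (∑ i, a i) (fun _ => False) T' m j) := by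
  classical
  obtain ⟨τ⟩ : Nonempty ((Σ i, Fin (a i)) ≃ Fin (∑ i, a i)) := ⟨finSigmaFinEquiv⟩
  choose y hy using fun i => Pool.Agent.W636.PG.exists_basis k (M i) (a i) (hM i)
  have hYY := yy_basis hsup hn hy τ
  obtain ⟨T', hT'⟩ := prod_sec hess hM hn (y := y) τ h1
  refine ⟨T', fun m j N hN => ?_⟩
  choose f hf hsec using fun i => indep_coeff (hy i) (hN i)
  have h2 := tens_indep r L M a hM hn hsup N f hf
  obtain ⟨e⟩ : Nonempty (Fin (∏ i, N i) ≃ (∀ i, Fin (N i))) := ⟨finPiFinEquiv.symm⟩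
  exact indep_of_coeff hYY (h2.comp e e.injective) fun l =>
    hT' m j (fun i => f i (e l i)) fun i => hsec i _

/-- the field of the product -/
noncomputable def botEquiv : fixedField (⊥ : Subgroup (L ≃ₐ[k] L)) ≃ₐ[k] L :=
  (IntermediateField.equivOfEq (by
    rw [eq_top_iff]
    intro z _
    rintro ⟨g, hg⟩
    rw [Subgroup.mem_bot] at hg
    subst hg
    rfl : fixedField (⊥ : Subgroup (L ≃ₐ[k] L)) = ⊤)).trans IntermediateField.topEquiv

/-- the action of the trivial group -/
theorem triv_perm (h : IsPermuted M a G σ) :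
    IsPermuted M a (⊥ : Subgroup (L ≃ₐ[k] L)) 1 := by
  refine ⟨h.ess, h.trdeg, h.total, h.sup, fun g i z hz => ?_⟩
  obtain ⟨g, hg⟩ := g
  rw [Subgroup.mem_bot] at hg
  subst hg
  exact hz

theorem age_triv : AgeCond M a (⊥ : Subgroup (L ≃ₐ[k] L)) 1 (fun _ _ => 0) := by
  rintro ⟨g, hg⟩ h1
  rw [Subgroup.mem_bot] at hg
  subst hg
  exact absurd rfl h1

/-- **The Kodaira dimension of the quotient by a group without junior elements.** -/
theorem kod_iff [Finite G] (h : IsPermuted M a G σ) (hS : Senior M a G σ ⊥) (b : ℕ) :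
    KodTr k (fixedField G) (∑ i, a i) b ↔
      ∃ α : Fin r → ℕ, (∀ i, KodTr k (M i) (a i) (α i)) ∧ b ≤ ∑ i, α i := by
  have hb := triv_perm h
  have hbn : Algebra.trdeg k (fixedField (⊥ : Subgroup (L ≃ₐ[k] L))) = (∑ i, a i : ℕ) := by
    rw [← h.total]; exact botEquiv.trdeg_eq
  have hbess : Algebra.EssFiniteType k (fixedField (⊥ : Subgroup (L ≃ₐ[k] L))) :=
    (Algebra.EssFiniteType.iff_of_algEquiv botEquiv).2 h.essL
  rw [(main_iff h bot_le hS).1 b]
  constructor
  · intro h1
    exact kod_le h.ess h.trdeg h.total h.sup (Pool.Agent.Y174.kod_equiv botEquiv hbess hbn h1)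
  · rintro ⟨α, h1, h2⟩
    have h3 := (hb.kod (fun _ _ => 0) (fun i => Or.inl fun g _ => le_rfl) age_triv h1).1
    obtain ⟨m, hm, ω, hω, D, hD0, hDi⟩ := h3
    have h2' : b + 1 ≤ (∑ i, α i) + 1 := Nat.succ_le_succ h2
    refine ⟨m, hm, fun l => ω (Fin.castLE h2' l), fun l => hω _, D, fun l => hD0 _, ?_⟩
    have e1 : (fun l : Fin b => ω (Fin.castLE h2' l.succ) D /
        ω (Fin.castLE h2' 0) D) =
        (fun l : Fin (∑ i, α i) => ω l.succ D / ω 0 D) ∘ Fin.castLE h2 := by
      funext l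
      rfl
    rw [e1]
    exact hDi.comp _ (Fin.castLE_injective h2)

/-- Transport of abundance. -/
theorem abundance_equiv {K K' : Type} [Field K] [Field K'] [Algebra k K] [Algebra k K']
    (e : K ≃ₐ[k] K') (hess : Algebra.EssFiniteType k K) {n : ℕ} (hn : Algebra.trdeg k K = n)
    (h : Abundance k K n) : Abundance k K' n := by
  obtain ⟨-, h1, h2⟩ := Pool.Agent.W824.PG.transport Pool.Agent.Y174.pTRANS e hess hn
  rcases h with h | ⟨b, h3, h4⟩
  · exact Or.inl (h1.1 h)
  · exact Or.inr ⟨b, Pool.Agent.Y174.kod_equiv e hess hn h3, (h2 b).1 h4⟩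

theorem le_of_kod_num {K : Type} [Field K] [Algebra k K] {n : ℕ} (hn : Algebra.trdeg k K = n)
    {b c : ℕ} (h1 : KodTr k K n b) (h2 : NumLe k K n (fun _ => False) c) : b ≤ c :=
  Pool.Agent.V11168.Abund.le_of_kod_num hn h1 h2

/-- **Abundance for the quotient and for the factors.** -/
theorem powers [Finite G] (h : IsPermuted M a G σ) (hS : Senior M a G σ ⊥)
    (htr : ∀ i j, ∃ g : G, σ g i = j) (i0 : Fin r) :
    Abundance k (fixedField G) (∑ i, a i) ↔ Abundance k (M i0) (a i0) := by
  classical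
  have hb := triv_perm h
  obtain ⟨t1, -, t2, t3⟩ := main_iff h bot_le hS
  have hbn : Algebra.trdeg k (fixedField (⊥ : Subgroup (L ≃ₐ[k] L))) = (∑ i, a i : ℕ) := by
    rw [← h.total]; exact botEquiv.trdeg_eq
  have hbess : Algebra.EssFiniteType k (fixedField (⊥ : Subgroup (L ≃ₐ[k] L))) :=
    (Algebra.EssFiniteType.iff_of_algEquiv botEquiv).2 h.essL
  obtain ⟨-, u1, u2⟩ := Pool.Agent.W824.PG.transport Pool.Agent.Y174.pTRANS (botEquiv (k := k) (L := L)) hbess hbn
  choose g hg using htr i0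
  have hdim : ∀ i, a i = a i0 := fun i => by rw [← hg i]; exact h.dim (g i) i0
  let e : ∀ i, M i0 ≃ₐ[k] M i := fun i => resEquiv (g i : L ≃ₐ[k] L) (M := M i0) (M' := M i)
    (fun z hz => by
      have h1 := h.perm (g i) i0 z hz
      rwa [hg] at h1)
    (fun z hz => by
      rw [mem_F_iff h.perm (g i) i0, AlgEquiv.apply_symm_apply, hg]
      exact hz)
  -- products of sections
  have hprod : ∀ S0 : Finset (M i0), ∃ T' : Finset L, ∀ m N : ℕ,
      HasIndep k (M i0) (a i0) N (IsSec k (M i0) (a i0) (fun _ => False) S0 m 1) →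
      HasIndep k L (∑ i, a i) (N ^ r) (IsSec k L (∑ i, a i) (fun _ => False) T' m 1) := by
    intro S0
    let T : ∀ i, Finset (M i) := fun i => insert 1 (S0.image (e i))
    obtain ⟨T', hT'⟩ := hasIndep_prod h.ess h.trdeg h.total h.sup (T := T)
      (fun i => Finset.mem_insert_self _ _)
    refine ⟨T', fun m N hN => ?_⟩
    have h0 := hT' m 1 (fun _ => N) fun i => ?_
    · rwa [Finset.prod_const, Finset.card_univ, Fintype.card_fin] at h0
    have h1 := hasIndep_equiv (e i) (h.ess i0) (h.trdeg i0) hN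
    rw [hdim i]
    obtain ⟨ω, h2, h3⟩ := h1
    refine ⟨ω, h2, fun l => ⟨(h3 l).1, fun v hv hv' D hD => ?_, fun v _ h => h.elim⟩⟩
    exact dom_mono (Finset.subset_insert _ _) ((h3 l).2.1 v hv hv' D hD)
  constructor
  · rintro (h1 | ⟨b, h1, h2⟩)
    · left
      have h3 : NumNeg k L (∑ i, a i) (fun _ => False) := u1.1 (t2.1 h1)
      intro S0
      obtain ⟨T', hT'⟩ := hprod S0
      obtain ⟨m0, hm0⟩ := h3 T'
      refine ⟨m0, fun m hm hcon => hm0 m hm ?_⟩
      have h4 := hT' m 1 hcon
      rwa [one_pow] at h4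
    · right
      obtain ⟨α, hα, hb1⟩ := (kod_iff h hS b).1 h1
      -- the largest
      have hα0 : ∀ i, KodTr k (M i0) (a i0) (α i) := by
        intro i
        have h3 := hα i
        have h4 : Algebra.trdeg k (M i) = (a i : ℕ) := h.trdeg i
        rw [hdim i] at h3 h4
        exact Pool.Agent.Y174.kod_equiv (e i).symm (h.ess i) h4 h3
      obtain ⟨i1, -, hmax⟩ := Finset.exists_max_image Finset.univ α ⟨i0, Finset.mem_univ _⟩
      have hA := hα0 i1
      have hAall : ∀ i, KodTr k (M i) (a i) (α i1) := by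
        intro i
        rw [hdim i]
        exact Pool.Agent.Y174.kod_equiv (e i) (h.ess i0) (h.trdeg i0) hA
      have h5 : KodTr k (fixedField G) (∑ i, a i) (∑ _i : Fin r, α i1) :=
        (kod_iff h hS _).2 ⟨fun _ => α i1, hAall, le_rfl⟩
      have hnG : Algebra.trdeg k (fixedField G) = (∑ i, a i : ℕ) := by
        have halgK := Pool.Agent.W721.PG.EFF2.alg_fixed G
        exact (Pool.Agent.W721.PG.EFF2.exists_basis (fixedField G) (∑ i, a i) h.total).1
      have h6 := le_of_kod_num hnG h5 h2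
      rw [Finset.sum_const, Finset.card_univ, Fintype.card_fin, smul_eq_mul] at h6
      have h7 : b ≤ r * α i1 := by
        refine hb1.trans ?_
        calc ∑ i, α i ≤ ∑ _i : Fin r, α i1 := Finset.sum_le_sum fun i hi => hmax i hi
          _ = r * α i1 := by
            rw [Finset.sum_const, Finset.card_univ, Fintype.card_fin, smul_eq_mul]
      have hbeq : b = r * α i1 := le_antisymm h7 h6
      refine ⟨α i1, hA, ?_⟩
      have h8 : NumLe k L (∑ i, a i) (fun _ => False) b := (u2 b).1 ((t3 b).1 h2)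
      intro S0
      obtain ⟨T', hT'⟩ := hprod S0
      obtain ⟨C, hC⟩ := h8 T'
      refine ⟨C, fun m N hm hN => ?_⟩
      have h9 := hC m (N ^ r) hm (hT' m N hN)
      have hr : r ≠ 0 := by
        intro h0
        have := i0.2
        omega
      rcases Nat.eq_zero_or_pos C with hC0 | hC0
      · rw [hC0, zero_mul, Nat.le_zero] at h9
        have h10 : N = 0 := (pow_eq_zero_iff hr).1 h9
        rw [h10]
        exact Nat.zero_le _
      · have h10 : N ^ r ≤ (C * m ^ α i1) ^ r := by
          refine h9.trans ?_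
          rw [hbeq, mul_pow, ← pow_mul, mul_comm (α i1) r]
          exact Nat.mul_le_mul_right _ (Nat.le_self_pow hr C)
        exact (Nat.pow_le_pow_iff_left hr).1 h10
  · intro h1
    have h2 : ∀ i, Abundance k (M i) (a i) := by
      intro i
      rw [hdim i]
      exact abundance_equiv (e i) (h.ess i0) (h.trdeg i0) h1
    have h3 := hb.abundance (fun _ _ => 0) (fun i => Or.inl fun g _ => le_rfl) age_triv h2
    rcases h3 with h3 | ⟨b, h3, h4⟩
    · exact Or.inl (t2.2 h3)
    · exact Or.inr ⟨b, (t1 b).2 h3, (t3 b).2 h4⟩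

end

end Pool.Agent.H908.SE
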