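import Pool.Agent.H908.SF3

/-! Quotients by groups without junior elements: pseudo-effectivity and the numerical dimension, in
terms of the factors. -/

set_option autoImplicit false
set_option linter.overlappingInstances false
set_option linter.unusedSectionVars false
set_option linter.unusedVariables false

open FF IntermediateField Pool.Agent.W619.PQ Pool.Agent.W619.PL Pool.Agent.W619.TW
  Pool.Agent.W603.LV Pool.Agent.W619.Y Pool.Agent.W672.PG Pool.Agent.W824.PG Pool.Agent.Y174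
  Pool.Agent.K1H17.IS Pool.Agent.K1H6.PQ Pool.Agent.W460.PG.ONE

namespace Pool.Agent.H908.SE

open Pool.Agent.H908.SB (PF pf_pluri pf_eval ge_lift desc3 det_change)

section

variable {k : Type} {K : Type} [Field k] [CharZero k] [Field K] [Algebra k K]

/-- The pole of a derivative. -/
theorem der_pole {v : Place k K} {D : Derivation k K K} (hD : ∀ f, v.Reg f → v.Reg (D f)) {y : K}
    (hv : v.ord y < 0) : v.Reg (D y / y ^ 2) := by
  have h1 : v.Reg (y⁻¹) := by
    right
    rw [v.ord_inv]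
    omega
  have h2 := hD _ h1
  rw [Derivation.leibniz_inv] at h2
  have h3 : D y / y ^ 2 = -(-y⁻¹ ^ 2 • D y) := by
    rw [smul_eq_mul]
    field_simp
  rw [h3]
  rcases h2 with h2 | h2
  · left
    rw [h2, neg_zero]
  · right
    rw [v.ord_neg]
    exact h2

/-- The poles of `dy 1 ∧ ... ∧ dy n`. -/
theorem exists_one {n : ℕ} (y : Fin n → K) (hy : ∀ q, y q ≠ 0) : ∃ S : Finset K, (1 : K) ∈ S ∧
    (1 : K) ∈ VV k (fun _ => False) S 1 1 y := by
  classical
  let c : Finset (Fin n) → K := fun J => ∏ q ∈ J, y q ^ 2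
  have hc : ∀ J, c J ≠ 0 := fun J => Finset.prod_ne_zero_iff.2 fun q _ => pow_ne_zero _ (hy q)
  refine ⟨Finset.univ.image c, Finset.mem_image.2 ⟨∅, Finset.mem_univ _, Finset.prod_empty⟩, ?_⟩
  rw [mem_vv]
  refine ⟨pf_pluri _ _ _, fun v hv _ D hD => ?_, fun v _ h => h.elim⟩
  let J : Finset (Fin n) := Finset.univ.filter fun q => v.ord (y q) < 0
  let u : Fin n → K := fun q => if q ∈ J then y q ^ 2 else 1
  have hu : ∏ q, u q = c J := by
    change ∏ q, (if q ∈ J then y q ^ 2 else 1) = ∏ q ∈ J, y q ^ 2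
    rw [Finset.prod_ite_mem, Finset.univ_inter]
  have hu0 : ∀ q, u q ≠ 0 := fun q => by
    change (if q ∈ J then y q ^ 2 else 1) ≠ 0
    split_ifs
    · exact pow_ne_zero _ (hy q)
    · exact one_ne_zero
  have h1 : (Matrix.of fun p q => D p (y q)).det =
      c J * (Matrix.of fun p q => D p (y q) / u q).det := by
    rw [← hu, ← Matrix.det_mul_row]
    congr 1
    ext p q
    rw [Matrix.of_apply, Matrix.of_apply, Matrix.of_apply, mul_div_cancel₀ _ (hu0 q)]
  have h2 : Ge v 0 (Matrix.of fun p q => D p (y q) / u q).det := by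
    refine ge_det v _ fun p q => ?_
    rw [Matrix.of_apply]
    by_cases hq : q ∈ J
    · have e1 : u q = y q ^ 2 := if_pos hq
      rw [e1]
      exact der_pole (hD p) (Finset.mem_filter.1 hq).2
    · have e1 : u q = 1 := if_neg hq
      rw [e1, div_one]
      refine hD p _ ?_
      right
      by_contra hcon
      exact hq (Finset.mem_filter.2 ⟨Finset.mem_univ _, not_le.1 hcon⟩)
  have h3 : PF y 1 1 D = c J * (Matrix.of fun p q => D p (y q) / u q).det := by
    unfold PF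
    rw [pow_one, mul_one, h1]
  rw [h3]
  rcases h2 with h2 | h2
  · left
    rw [h2, mul_zero]
  · by_cases h0 : (Matrix.of fun p q => D p (y q) / u q).det = 0
    · left
      rw [h0, mul_zero]
    · right
      refine ⟨c J, Finset.mem_image.2 ⟨J, Finset.mem_univ _, rfl⟩, hc J, ?_⟩
      rw [v.ord_mul (hc J) h0]
      push_cast
      omega

/-- Powers of sections. -/
theorem vv_pow [DecidableEq K] {n : ℕ} {y : Fin n → K} {S : Finset K} {m j : ℕ} {f : K}
    (hf : f ∈ VV k (fun _ => False) S m j y) (p : ℕ) :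
    f ^ p ∈ VV k (fun _ => False) (insert 1 S) (m * p) (j * p) y := by
  rw [mem_vv] at hf ⊢
  refine ⟨pf_pluri _ _ _, fun v hv hv' D hD => ?_, fun v _ h => h.elim⟩
  have h1 : PF y (m * p) (f ^ p) D = PF y m f D ^ p := by
    unfold PF
    rw [mul_pow, pow_mul]
  rw [h1]
  rcases Nat.eq_zero_or_pos p with hp | hp
  · right
    refine ⟨1, Finset.mem_insert_self _ _, one_ne_zero, ?_⟩
    rw [hp, pow_zero, v.ord_one, mul_zero]
  rcases hf.2.1 v hv hv' D hD with h2 | ⟨s, hs, hs0, h2⟩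
  · left
    rw [h2, zero_pow hp.ne']
  · right
    refine ⟨s, Finset.mem_insert_of_mem hs, hs0, ?_⟩
    rw [v.ord_pow]
    push_cast
    have h3 : (0 : ℤ) ≤ p := Int.natCast_nonneg p
    nlinarith

/-- Products of sections of multiples of the canonical divisor. -/
theorem vv_mul {n : ℕ} {y : Fin n → K} {S S' : Finset K} {m m' j' : ℕ} {f f' : K}
    (hf : f ∈ VV k (fun _ => False) S m 0 y) (hf' : f' ∈ VV k (fun _ => False) S' m' j' y) :
    f * f' ∈ VV k (fun _ => False) S' (m + m') j' y := by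
  rw [mem_vv] at hf hf' ⊢
  refine ⟨pf_pluri _ _ _, fun v hv hv' D hD => ?_, fun v _ h => h.elim⟩
  have h1 : PF y (m + m') (f * f') D = PF y m f D * PF y m' f' D := by
    unfold PF
    rw [pow_add]
    ring
  rw [h1]
  by_cases h0 : PF y m f D = 0
  · left
    rw [h0, zero_mul]
  by_cases h0' : PF y m' f' D = 0
  · left
    rw [h0', mul_zero]
  obtain ⟨s, hs, hs0, h2⟩ := (hf.2.1 v hv hv' D hD).resolve_left h0
  obtain ⟨s', hs', hs0', h2'⟩ := (hf'.2.1 v hv hv' D hD).resolve_left h0'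
  right
  refine ⟨s', hs', hs0', ?_⟩
  rw [v.ord_mul h0 h0']
  push_cast at h2
  omega

/-- The number of sections of `m K + A`, for a suitable divisor `A`. -/
theorem growth {n α : ℕ} (hn : Algebra.trdeg k K = n) (hk : KodTr k K n α) :
    ∃ (S : Finset K) (C : ℕ), (1 : K) ∈ S ∧ 1 ≤ C ∧ ∀ m : ℕ, 1 ≤ m → ∃ N : ℕ, m ^ α ≤ C * N ∧
      HasIndep k K n N (IsSec k K n (fun _ => False) S m 1) := by
  classical
  obtain ⟨y, hy⟩ := Pool.Agent.W636.PG.exists_basis k K n hn
  obtain ⟨m0, hm0, hj⟩ := Pool.Agent.W300.PG.TRGE.main k K n α hn hk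
  have hy0 : ∀ q, y q ≠ 0 := fun q h0 => by
    have h1 := hy.1.transcendental q
    rw [h0] at h1
    exact h1 isAlgebraic_zero
  obtain ⟨S1, hS1, h1⟩ := exists_one (k := k) y hy0
  -- the divisors of the powers
  have hpow : ∀ s : ℕ, (1 : K) ∈ VV k (fun _ => False) (S1.image (· ^ s)) s 1 y := by
    intro s
    have h2 := vv_pow h1 s
    rw [one_pow, one_mul, Finset.insert_eq_of_mem hS1, mem_vv] at h2
    rw [mem_vv]
    refine ⟨h2.1, fun v hv hv' D hD => ?_, fun v _ h => h.elim⟩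
    rcases h2.2.1 v hv hv' D hD with h3 | ⟨t, ht, ht0, h3⟩
    · exact Or.inl h3
    · right
      refine ⟨t ^ s, Finset.mem_image_of_mem _ ht, pow_ne_zero _ ht0, ?_⟩
      rw [v.ord_pow]
      push_cast
      omega
  let S : Finset K := insert 1 ((Finset.range m0).biUnion fun s => S1.image (· ^ s))
  have hS : ∀ s, s < m0 → (1 : K) ∈ VV k (fun _ => False) S s 1 y := fun s hs =>
    vv_mono (fun z hz => Finset.mem_insert_of_mem
      (Finset.mem_biUnion.2 ⟨s, Finset.mem_range.2 hs, hz⟩)) (hpow s)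
  refine ⟨S, (2 * m0) ^ α, Finset.mem_insert_self _ _, Nat.one_le_pow _ _ (by omega),
    fun m hm => ?_⟩
  have hs : m % m0 < m0 := Nat.mod_lt _ hm0
  rcases Nat.eq_zero_or_pos (m / m0) with h0 | h0
  · -- small multiples
    have hmm : m < m0 := by
      rcases Nat.lt_or_ge m m0 with h | h
      · exact h
      · exact absurd h0 (Nat.div_pos h hm0).ne'
    refine ⟨1, ?_, ?_⟩
    · rw [mul_one]
      exact Nat.pow_le_pow_left (by omega) _
    · exact indep_of_coeff hy (f := fun _ => (1 : K))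
        (LinearIndependent.of_subsingleton 0 one_ne_zero) (fun _ => hS m hmm)
  · refine ⟨(m / m0) ^ α, ?_, ?_⟩
    · rw [← mul_pow]
      refine Nat.pow_le_pow_left ?_ _
      have h2 := Nat.div_add_mod m m0
      nlinarith
    · obtain ⟨f, hf, hsec⟩ := indep_coeff hy (hj (m / m0) h0)
      refine indep_of_coeff hy hf fun l => ?_
      have h3 := vv_mul (hsec l) (hS (m % m0) hs)
      rw [mul_one] at h3
      have h4 : m / m0 * m0 + m % m0 = m := Nat.div_add_mod' m m0
      rwa [h4] at h3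

/-- `κ ≥ 0` implies that `K` is not numerically negative. -/
theorem not_numNeg {n : ℕ} {h : ℕ} (hn : Algebra.trdeg k K = n) (hk : KodTr k K n h) :
    ¬ NumNeg k K n (fun _ => False) := by
  intro hneg
  obtain ⟨S, C, -, hC, h1⟩ := growth hn hk
  obtain ⟨m0, hm0⟩ := hneg S
  obtain ⟨N, hN, h2⟩ := h1 (m0 + 1) (by omega)
  have hN0 : 1 ≤ N := by
    by_contra h0
    have h3 : N = 0 := by omega
    rw [h3, mul_zero] at hN
    have := Nat.one_le_pow h (m0 + 1) (by omega)
    omega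
  obtain ⟨ω, hω, hsec⟩ := h2
  refine hm0 (m0 + 1) (by omega) ⟨fun l => ω (Fin.castLE hN0 l),
    hω.comp _ (Fin.castLE_injective hN0), fun l => hsec _⟩

theorem psef_iff_vv {n : ℕ} {y : Fin n → K} (hy : IsTranscendenceBasis k y) :
    IsPsef k K n (fun _ => False) ↔ ∃ S : Finset K, ∀ N : ℕ, ∃ j : ℕ, 1 ≤ j ∧
      ∃ f : K, f ≠ 0 ∧ f ∈ VV k (fun _ => False) S (j * N) j y := by
  obtain ⟨E, hE⟩ := Pool.Agent.W636.PG.exists_duals k K n y hy
  constructor
  · rintro ⟨S, h⟩
    refine ⟨S, fun N => ?_⟩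
    obtain ⟨j, hj, ω, hω, D, hD⟩ := h N
    obtain ⟨h1, h2⟩ := sec_coeff hy hE hω
    refine ⟨j, hj, ω E, fun h0 => hD ?_, h1⟩
    rw [h2]
    unfold PF
    rw [h0, mul_zero]
  · rintro ⟨S, h⟩
    refine ⟨S, fun N => ?_⟩
    obtain ⟨j, hj, f, hf0, hf⟩ := h N
    refine ⟨j, hj, PF y (j * N) f, mem_vv.1 hf, E, ?_⟩
    rw [pf_eval hE]
    exact hf0

end

section

variable {k : Type} {L : Type} [Field k] [CharZero k] [IsAlgClosed k] [Field L] [Algebra k L]
variable {r : ℕ} {M : Fin r → IntermediateField k L} {a : Fin r → ℕ}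
  {G : Subgroup (L ≃ₐ[k] L)} {σ : G →* Equiv.Perm (Fin r)}

/-- **Pseudo-effectivity of products.** -/
theorem psef_prod (hess : ∀ i, Algebra.EssFiniteType k (M i))
    (hM : ∀ i, Algebra.trdeg k (M i) = a i) (hn : Algebra.trdeg k L = (∑ i, a i : ℕ))
    (hsup : (⨆ i, M i) = ⊤) : IsPsef k L (∑ i, a i) (fun _ => False) ↔
      ∀ i, IsPsef k (M i) (a i) (fun _ => False) := by
  classical
  obtain ⟨τ⟩ : Nonempty ((Σ i, Fin (a i)) ≃ Fin (∑ i, a i)) := ⟨finSigmaFinEquiv⟩
  choose y hy using fun i => Pool.Agent.W636.PG.exists_basis k (M i) (a i) (hM i)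
  have hYY := yy_basis hsup hn hy τ
  rw [psef_iff_vv hYY]
  constructor
  · rintro ⟨S, hS⟩ i
    rw [psef_iff_vv (hy i)]
    obtain ⟨b0, T, hb0, hT⟩ := kun r L M a hess hM hn hsup y hy _ τ S
    refine ⟨T i, fun N => ?_⟩
    obtain ⟨j, hj, f, hf0, hf⟩ := hS N
    obtain ⟨ι, _, c, p, hp, hsum⟩ := hT (j * N) j f hf
    have h1 : ∑ l, algebraMap k L (c l) * ∏ i, ((p l i : M i) : L) ≠ 0 := by
      rw [← hsum]
      exact mul_ne_zero (pow_ne_zero _ hb0) hf0
    obtain ⟨l, -, hl⟩ := Finset.exists_ne_zero_of_sum_ne_zero h1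
    refine ⟨j, hj, p l i, fun h0 => hl ?_, hp l i⟩
    rw [Finset.prod_eq_zero (Finset.mem_univ i) (by rw [h0]; rfl), mul_zero]
  · intro h
    have h' := fun i => (psef_iff_vv (hy i)).1 (h i)
    choose S hS using h'
    obtain ⟨T', hT'⟩ := prod_sec hess hM hn (y := y) τ (T := fun i => insert 1 (S i))
      (fun i => Finset.mem_insert_self _ _)
    refine ⟨T', fun N => ?_⟩
    choose j hj f hf0 hf using fun i => hS i N
    refine ⟨∏ i, j i, Finset.one_le_prod' fun i _ => hj i,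
      ∏ i, ((f i ^ (∏ q ∈ Finset.univ.erase i, j q) : M i) : L),
      Finset.prod_ne_zero_iff.2 fun i _ h0 => ?_, hT' _ _ _ fun i => ?_⟩
    · exact pow_ne_zero _ (hf0 i) (Subtype.ext h0)
    · have h1 := vv_pow (hf i) (∏ q ∈ Finset.univ.erase i, j q)
      have h2 : j i * ∏ q ∈ Finset.univ.erase i, j q = ∏ q, j q :=
        Finset.mul_prod_erase _ _ (Finset.mem_univ i)
      have h3 : j i * N * ∏ q ∈ Finset.univ.erase i, j q = (∏ q, j q) * N := by
        rw [← h2]
        ring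
      rwa [h2, h3] at h1

/-- **The numerical dimension of the factors.** -/
theorem num_factor (hess : ∀ i, Algebra.EssFiniteType k (M i))
    (hM : ∀ i, Algebra.trdeg k (M i) = a i) (hn : Algebra.trdeg k L = (∑ i, a i : ℕ))
    (hsup : (⨆ i, M i) = ⊤) {α : Fin r → ℕ} (hα : ∀ i, KodTr k (M i) (a i) (α i))
    (hL : NumLe k L (∑ i, a i) (fun _ => False) (∑ i, α i)) (i0 : Fin r) :
    NumLe k (M i0) (a i0) (fun _ => False) (α i0) := by
  classical
  choose S C hS1 hC1 hgr using fun i => growth (hM i) (hα i)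
  intro S0
  let T : ∀ i, Finset (M i) := Function.update S i0 (insert 1 S0)
  have hT0 : T i0 = insert 1 S0 := Function.update_self _ _ _
  have hT1 : ∀ i, i ≠ i0 → T i = S i := fun i hi => Function.update_of_ne hi _ _
  obtain ⟨T', hT'⟩ := hasIndep_prod hess hM hn hsup (T := T) (fun i => by
    by_cases hi : i = i0
    · subst hi
      rw [hT0]
      exact Finset.mem_insert_self _ _
    · rw [hT1 i hi]
      exact hS1 i)
  obtain ⟨C', hC'⟩ := hL T'
  refine ⟨C' * ∏ i ∈ Finset.univ.erase i0, C i, fun m N hm hN => ?_⟩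
  choose N1 hN1 hind using fun i => hgr i m hm
  let N2 : Fin r → ℕ := Function.update N1 i0 N
  have hN20 : N2 i0 = N := Function.update_self _ _ _
  have hN21 : ∀ i, i ≠ i0 → N2 i = N1 i := fun i hi => Function.update_of_ne hi _ _
  have h1 := hC' m (∏ i, N2 i) hm (hT' m 1 N2 fun i => by
    by_cases hi : i = i0
    · subst hi
      rw [hN20, hT0]
      obtain ⟨ω, h2, h3⟩ := hN
      refine ⟨ω, h2, fun l => ⟨(h3 l).1, fun v hv hv' D hD => ?_, fun v _ h => h.elim⟩⟩
      exact dom_mono (Finset.subset_insert _ _) ((h3 l).2.1 v hv hv' D hD)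
    · rw [hN21 i hi, hT1 i hi]
      exact hind i)
  rw [← Finset.mul_prod_erase _ N2 (Finset.mem_univ i0), hN20,
    ← Finset.add_sum_erase _ α (Finset.mem_univ i0), pow_add] at h1
  have h2 : ∏ i ∈ Finset.univ.erase i0, N2 i = ∏ i ∈ Finset.univ.erase i0, N1 i :=
    Finset.prod_congr rfl fun i hi => hN21 i (Finset.ne_of_mem_erase hi)
  rw [h2] at h1
  have h3 : m ^ (∑ i ∈ Finset.univ.erase i0, α i) ≤
      (∏ i ∈ Finset.univ.erase i0, C i) * ∏ i ∈ Finset.univ.erase i0, N1 i := by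
    rw [← Finset.prod_pow_eq_pow_sum, ← Finset.prod_mul_distrib]
    exact Finset.prod_le_prod' fun i _ => hN1 i
  have h4 : 0 < m ^ (∑ i ∈ Finset.univ.erase i0, α i) := Nat.pow_pos hm
  refine Nat.le_of_mul_le_mul_right (c := m ^ (∑ i ∈ Finset.univ.erase i0, α i)) ?_ h4
  calc N * m ^ (∑ i ∈ Finset.univ.erase i0, α i)
      ≤ N * ((∏ i ∈ Finset.univ.erase i0, C i) * ∏ i ∈ Finset.univ.erase i0, N1 i) :=
        Nat.mul_le_mul_left _ h3
    _ = (∏ i ∈ Finset.univ.erase i0, C i) * (N * ∏ i ∈ Finset.univ.erase i0, N1 i) := by ring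
    _ ≤ (∏ i ∈ Finset.univ.erase i0, C i) *
        (C' * (m ^ α i0 * m ^ (∑ i ∈ Finset.univ.erase i0, α i))) := Nat.mul_le_mul_left _ h1
    _ = C' * (∏ i ∈ Finset.univ.erase i0, C i) * m ^ α i0 *
        m ^ (∑ i ∈ Finset.univ.erase i0, α i) := by ring

/-- **Abundance for the quotient and for the factors**, if the Kodaira dimension is not negative. -/
theorem nonneg_iff [Finite G] (h : IsPermuted M a G σ) (hS : Senior M a G σ ⊥) :
    (∃ b, KodTr k (fixedField G) (∑ i, a i) b ∧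
        NumLe k (fixedField G) (∑ i, a i) (fun _ => False) b) ↔
      ∀ i, ∃ b, KodTr k (M i) (a i) b ∧ NumLe k (M i) (a i) (fun _ => False) b := by
  classical
  have hb := triv_perm h
  obtain ⟨t1, -, t2, t3⟩ := main_iff h bot_le hS
  have hbn : Algebra.trdeg k (fixedField (⊥ : Subgroup (L ≃ₐ[k] L))) = (∑ i, a i : ℕ) := by
    rw [← h.total]; exact botEquiv.trdeg_eq
  have hbess : Algebra.EssFiniteType k (fixedField (⊥ : Subgroup (L ≃ₐ[k] L))) :=
    (Algebra.EssFiniteType.iff_of_algEquiv botEquiv).2 h.essL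
  obtain ⟨-, u1, u2⟩ := Pool.Agent.W824.PG.transport Pool.Agent.Y174.pTRANS
    (botEquiv (k := k) (L := L)) hbess hbn
  have halgK := Pool.Agent.W721.PG.EFF2.alg_fixed G
  have hnG : Algebra.trdeg k (fixedField G) = (∑ i, a i : ℕ) :=
    (Pool.Agent.W721.PG.EFF2.exists_basis (fixedField G) (∑ i, a i) h.total).1
  constructor
  · rintro ⟨b, h1, h2⟩
    obtain ⟨α, hα, hb1⟩ := (kod_iff h hS b).1 h1
    have h3 : ∑ i, α i ≤ b := le_of_kod_num hnG ((kod_iff h hS _).2 ⟨α, hα, le_rfl⟩) h2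
    have h4 : b = ∑ i, α i := le_antisymm hb1 h3
    have h5 : NumLe k L (∑ i, a i) (fun _ => False) (∑ i, α i) := by
      rw [← h4]
      exact (u2 b).1 ((t3 b).1 h2)
    exact fun i => ⟨α i, hα i, num_factor h.ess h.trdeg h.total h.sup hα h5 i⟩
  · intro h1
    choose α hα hnum using h1
    have h2 := hb.abundance (fun _ _ => 0) (fun i => Or.inl fun g _ => le_rfl) age_triv
      (fun i => Or.inr ⟨α i, hα i, hnum i⟩)
    have h0 : KodTr k (fixedField (⊥ : Subgroup (L ≃ₐ[k] L))) (∑ i, a i) (∑ i, α i) :=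
      (t1 _).1 ((kod_iff h hS _).2 ⟨α, hα, le_rfl⟩)
    rcases h2 with h2 | ⟨b, h3, h4⟩
    · exact absurd h2 (not_numNeg hbn h0)
    · exact ⟨b, (t1 b).2 h3, (t3 b).2 h4⟩

/-- **Pseudo-effectivity for the quotient and for the factors.** -/
theorem psef_iff [Finite G] (h : IsPermuted M a G σ) (hS : Senior M a G σ ⊥) :
    IsPsef k (fixedField G) (∑ i, a i) (fun _ => False) ↔
      ∀ i, IsPsef k (M i) (a i) (fun _ => False) := by
  have hbn : Algebra.trdeg k (fixedField (⊥ : Subgroup (L ≃ₐ[k] L))) = (∑ i, a i : ℕ) := by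
    rw [← h.total]; exact botEquiv.trdeg_eq
  have hbess : Algebra.EssFiniteType k (fixedField (⊥ : Subgroup (L ≃ₐ[k] L))) :=
    (Algebra.EssFiniteType.iff_of_algEquiv botEquiv).2 h.essL
  rw [← psef_prod h.ess h.trdeg h.total h.sup, (main_iff h bot_le hS).2.1]
  exact (Pool.Agent.W824.PG.transport Pool.Agent.Y174.pTRANS
    (botEquiv (k := k) (L := L)) hbess hbn).1

/-- Transport to another factor. -/
theorem factor_equiv (h : IsPermuted M a G σ) {i j : Fin r} (hg : ∃ g : G, σ g i = j) :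
    a j = a i ∧ Nonempty (M i ≃ₐ[k] M j) := by
  obtain ⟨g, hg⟩ := hg
  refine ⟨by rw [← hg]; exact h.dim g i, ⟨resEquiv (g : L ≃ₐ[k] L) (M := M i) (M' := M j)
    (fun z hz => by
      have h1 := h.perm g i z hz
      rwa [hg] at h1)
    (fun z hz => by
      rw [mem_F_iff h.perm g i, AlgEquiv.apply_symm_apply, hg]
      exact hz)⟩⟩

theorem psef_factor (h : IsPermuted M a G σ) {i j : Fin r} (hg : ∃ g : G, σ g i = j)
    (h1 : IsPsef k (M i) (a i) (fun _ => False)) : IsPsef k (M j) (a j) (fun _ => False) := by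
  obtain ⟨h2, ⟨e⟩⟩ := factor_equiv h hg
  rw [h2]
  exact (Pool.Agent.W824.PG.transport Pool.Agent.Y174.pTRANS e (h.ess i) (h.trdeg i)).1.1 h1

theorem good_factor (h : IsPermuted M a G σ) {i j : Fin r} (hg : ∃ g : G, σ g i = j)
    (h1 : ∃ b, KodTr k (M i) (a i) b ∧ NumLe k (M i) (a i) (fun _ => False) b) :
    ∃ b, KodTr k (M j) (a j) b ∧ NumLe k (M j) (a j) (fun _ => False) b := by
  obtain ⟨h2, ⟨e⟩⟩ := factor_equiv h hg
  obtain ⟨b, h3, h4⟩ := h1
  rw [h2]
  exact ⟨b, Pool.Agent.Y174.kod_equiv e (h.ess i) (h.trdeg i) h3,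
    ((Pool.Agent.W824.PG.transport Pool.Agent.Y174.pTRANS e (h.ess i) (h.trdeg i)).2.2 b).1 h4⟩

end

end Pool.Agent.H908.SE
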