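import Pool.Agent.H908.SF1

/-! Regular one-forms on products of curves. -/

set_option autoImplicit false
set_option linter.overlappingInstances false
set_option linter.unusedSectionVars false
set_option linter.unusedVariables false

open FF IntermediateField Pool.Agent.W619.PQ Pool.Agent.W619.PL Pool.Agent.W619.TW
  Pool.Agent.W603.LV Pool.Agent.W619.Y Pool.Agent.W672.PG Pool.Agent.W824.PG Pool.Agent.Y174
  Pool.Agent.K1H17.IS Pool.Agent.K1H6.PQ

namespace Pool.Agent.H908.TA

open Pool.Agent.H908.SB (PF pf_pluri pf_eval ge_lift RegF good_frame oth le_oth oth_trdeg)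
open Pool.Agent.H908.SE (kun YY yy_basis mem_vv dom_ge)

section

variable {k : Type} {L : Type} [Field k] [CharZero k] [IsAlgClosed k] [Field L] [Algebra k L]

/-- A factor is algebraically closed in the product. -/
theorem closed_factor {a b : ℕ} (M F : IntermediateField k L) (hsup : M ⊔ F = ⊤)
    (hn : Algebra.trdeg k L = (a + b : ℕ)) (hM : Algebra.trdeg k M = a)
    (hF : Algebra.trdeg k F = b) {z : L} (hz : IsAlgebraic M z) : z ∈ M := by
  classical
  let E : IntermediateField k L := (IntermediateField.adjoin M {z}).restrictScalars k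
  have hME : M ≤ E := by
    intro x hx
    exact (IntermediateField.adjoin M {z}).algebraMap_mem ⟨x, hx⟩
  have hzE : z ∈ E := IntermediateField.mem_adjoin_simple_self M z
  have halgM : Algebra.IsAlgebraic M (IntermediateField.adjoin M {z}) :=
    IntermediateField.isAlgebraic_adjoin_simple hz.isIntegral
  have hE : Algebra.trdeg k E = a := by
    have h1 : Algebra.trdeg k (IntermediateField.adjoin M {z}) = a := by
      have h2 := trdeg_add_eq k M (A := IntermediateField.adjoin M {z})
      have h3 : Algebra.trdeg M (IntermediateField.adjoin M {z}) = 0 := trdeg_eq_zero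
      rw [h3, add_zero, hM] at h2
      exact h2.symm
    exact h1
  have hsupE : E ⊔ F = ⊤ := top_le_iff.1 (hsup ▸ sup_le_sup_right hME F)
  have halg : Algebra.IsAlgebraic ↥(E ⊔ F) L := by
    rw [hsupE]
    exact ⟨fun z => isAlgebraic_algebraMap (⟨z, trivial⟩ : (⊤ : IntermediateField k L))⟩
  have hli := linDisj E F halg hn hE hF _ (Module.Basis.ofVectorSpace k F).linearIndependent
  obtain ⟨p, hp, q, hq, hq0, hpq⟩ := Pool.Agent.W735.PG.DESCJ.frac (M := M) (F := F) hsup z
  obtain ⟨s1, c1, h1⟩ := RR.expand hp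
  obtain ⟨s2, c2, h2⟩ := RR.expand hq
  let β : Module.Basis.ofVectorSpaceIndex k F → F := fun i => Module.Basis.ofVectorSpace k F i
  let c1' : Module.Basis.ofVectorSpaceIndex k F → M := fun i => if i ∈ s1 then c1 i else 0
  let c2' : Module.Basis.ofVectorSpaceIndex k F → M := fun i => if i ∈ s2 then c2 i else 0
  have e1 : p = ∑ i ∈ s1 ∪ s2, (β i : L) * (c1' i : L) := by
    rw [h1]
    symm
    have h3 : ∑ i ∈ s1, (β i : L) * (c1 i : L) = ∑ i ∈ s1, (β i : L) * (c1' i : L) := by
      refine Finset.sum_congr rfl fun i hi => ?_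
      simp only [c1', if_pos hi]
    change _ = ∑ i ∈ s1, (β i : L) * (c1 i : L)
    rw [h3]
    refine (Finset.sum_subset Finset.subset_union_left fun i _ hi => ?_).symm
    simp only [c1', if_neg hi]
    exact mul_zero _
  have e2 : q = ∑ i ∈ s1 ∪ s2, (β i : L) * (c2' i : L) := by
    rw [h2]
    symm
    have h3 : ∑ i ∈ s2, (β i : L) * (c2 i : L) = ∑ i ∈ s2, (β i : L) * (c2' i : L) := by
      refine Finset.sum_congr rfl fun i hi => ?_
      simp only [c2', if_pos hi]
    change _ = ∑ i ∈ s2, (β i : L) * (c2 i : L)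
    rw [h3]
    refine (Finset.sum_subset Finset.subset_union_right fun i _ hi => ?_).symm
    simp only [c2', if_neg hi]
    exact mul_zero _
  have e3 : ∑ i ∈ s1 ∪ s2, ((⟨z, hzE⟩ : E) * ⟨c2' i, hME (c2' i).2⟩ - ⟨c1' i, hME (c1' i).2⟩) •
      (β i : L) = 0 := by
    have h3 : z * q - p = 0 := by rw [hpq]; field_simp; ring
    rw [← h3, e1, e2, Finset.mul_sum, ← Finset.sum_sub_distrib]
    refine Finset.sum_congr rfl fun i _ => ?_
    rw [Algebra.smul_def]
    change (z * (c2' i : L) - (c1' i : L)) * (β i : L) = _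
    ring
  have e4 := linearIndependent_iff'.1 hli (s1 ∪ s2) _ e3
  obtain ⟨i, hi, hi0⟩ : ∃ i ∈ s1 ∪ s2, (c2' i : L) ≠ 0 := by
    by_contra hcon
    push Not at hcon
    apply hq0
    rw [e2]
    exact Finset.sum_eq_zero fun i hi => by rw [hcon i hi, mul_zero]
  have e5 : z * (c2' i : L) - (c1' i : L) = 0 := congrArg (fun x : E => (x : L)) (e4 i hi)
  have e6 : z = (c1' i : L) / (c2' i : L) := by
    rw [eq_div_iff hi0]
    exact sub_eq_zero.1 e5
  rw [e6]
  exact M.div_mem (c1' i).2 (c2' i).2

/-- A regular form on a curve pulls back to a regular form. -/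
theorem pull_reg {w : Place k L} {N : ℕ} (hw : IsDivisorial w N) (hn : Algebra.trdeg k L = N)
    (F : IntermediateField k L) (hF : Algebra.trdeg k F = 1) (hess : Algebra.EssFiniteType k F)
    {y f : F} (hf : RegF (k := k) (fun _ : Fin 1 => y) 1 f) {D : Derivation k L L}
    (hD : Pres w D) : Ge w 0 ((f : L) * D (y : L)) := by
  obtain ⟨X, E, hX, hE, hXr, hgood⟩ := good_frame hw hn F (a := 1)
    (by rw [hF, Nat.cast_one]) hess
  have h1 := Pool.Agent.W308.PG.YLOC.expand X E hX hE D y
  rw [Fin.sum_univ_one] at h1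
  change D (y : L) = ((E 0 y : F) : L) * D (X 0 : L) at h1
  have h2 : Ge w 0 ((PF (fun _ : Fin 1 => y) 1 f E : F) : L) := hgood _ hf
  have h3 : PF (fun _ : Fin 1 => y) 1 f E = E 0 y * f := by
    unfold PF
    rw [pow_one, Matrix.det_fin_one]
    rfl
  rw [h3] at h2
  have h4 : (f : L) * D (y : L) = ((E 0 y * f : F) : L) * D (X 0 : L) := by
    have h5 : ((E 0 y * f : F) : L) = ((E 0 y : F) : L) * (f : L) := rfl
    rw [h5, h1]
    ring
  rw [h4]
  simpa using h2.mul (hD _ (hXr 0))

/-- The determinant of a diagonal matrix with one column replaced. -/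
theorem det_col {R : Type} [CommRing R] {n : ℕ} (d v : Fin n → R) (q0 : Fin n) :
    (Matrix.of fun q q' : Fin n => if q' = q0 then v q else if q = q' then d q' else 0).det =
      v q0 * ∏ q ∈ Finset.univ.erase q0, d q := by
  classical
  rw [Matrix.det_apply, Finset.sum_eq_single 1]
  · rw [Equiv.Perm.sign_one, one_smul, ← Finset.mul_prod_erase _ _ (Finset.mem_univ q0)]
    congr 1
    · simp
    · refine Finset.prod_congr rfl fun q hq => ?_
      simp [Finset.ne_of_mem_erase hq]
  · intro σ _ hσ
    obtain ⟨q, hq, hq'⟩ : ∃ q, q ≠ q0 ∧ σ q ≠ q := by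
      by_contra hcon
      push Not at hcon
      apply hσ
      ext q
      by_cases h : q = q0
      · have h1 : σ.symm q0 = q0 := by
          by_contra h2
          have h3 := hcon _ h2
          rw [Equiv.apply_symm_apply] at h3
          exact h2 h3.symm
        rw [h]
        have h4 : σ q0 = q0 := by
          conv_lhs => rw [← h1]
          exact Equiv.apply_symm_apply _ _
        rw [h4]; rfl
      · rw [hcon q h]; rfl
    rw [Finset.prod_eq_zero (Finset.mem_univ q), smul_zero]
    simp [hq, hq']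
  · intro h
    exact absurd (Finset.mem_univ _) h

/-- Expansion of a derivation of the product. -/
theorem expandL {n : ℕ} {Y : Fin n → L} (hY : IsTranscendenceBasis k Y)
    {E : Fin n → Derivation k L L} (hE : ∀ i j, E i (Y j) = if i = j then 1 else 0)
    (D : Derivation k L L) (z : L) : D z = ∑ q, E q z * D (Y q) := by
  have h := Pool.Agent.W308.PG.YLOC.expand (L := L) Y E hY hE D z
  simpa only [Algebra.algebraMap_self, RingHom.id_apply] using h

/-- The product of a regular one-form with regular forms on the other curves. -/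
theorem top_reg {r : ℕ} (M : Fin r → IntermediateField k L)
    (hess : ∀ i, Algebra.EssFiniteType k (M i)) (htr : ∀ i, Algebra.trdeg k (M i) = 1)
    {n : ℕ} (hL : Algebra.trdeg k L = n) (y : ∀ i, M i)
    (τ : (Σ i : Fin r, Fin 1) ≃ Fin n)
    (hY : IsTranscendenceBasis k (YY (a := fun _ => 1) (fun i _ => y i) τ))
    {E : Fin n → Derivation k L L}
    (hE : ∀ p q, E p (YY (a := fun _ => 1) (fun i _ => y i) τ q) = if p = q then 1 else 0)
    (h z : L) (hreg : ∀ w : Place k L, IsDivisorial w n → ∀ D : Derivation k L L, Pres w D →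
      Ge w 0 (h * D z))
    (i : Fin r) (f : ∀ l, M l) (hf : ∀ l, RegF (k := k) (fun _ : Fin 1 => y l) 1 (f l)) :
    RegF (k := k) (YY (a := fun _ => 1) (fun i _ => y i) τ) 1
      (h * E (τ ⟨i, 0⟩) z * ∏ l ∈ Finset.univ.erase i, (f l : L)) := by
  classical
  obtain ⟨Y, hYdef⟩ : ∃ Y, Y = YY (a := fun _ => 1) (fun i _ => y i) τ := ⟨_, rfl⟩
  rw [← hYdef] at hY hE ⊢
  have hYq : ∀ q, Y q = (y (τ.symm q).1 : L) := fun q => by rw [hYdef]; rfl
  let q0 : Fin n := τ ⟨i, 0⟩
  intro u hu D hD
  let d : Fin n → L := fun q => (f (τ.symm q).1 : L)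
  let v : Fin n → L := fun q => h * E q z
  let C : Matrix (Fin n) (Fin n) L :=
    Matrix.of fun q q' => if q' = q0 then v q else if q = q' then d q' else 0
  have hdet : C.det = h * E q0 z * ∏ l ∈ Finset.univ.erase i, (f l : L) := by
    have h1 : C.det = v q0 * ∏ q ∈ Finset.univ.erase q0, d q := det_col d v q0
    rw [h1]
    congr 1
    refine Finset.prod_bij (fun q _ => (τ.symm q).1) (fun q hq => ?_) (fun q hq q' hq' hqq => ?_)
      (fun l hl => ?_) (fun q hq => rfl)
    · rw [Finset.mem_erase] at hq ⊢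
      refine ⟨fun h2 => hq.1 ?_, Finset.mem_univ _⟩
      have h3 : τ.symm q = ⟨i, 0⟩ := Sigma.ext h2 (heq_of_eq (Subsingleton.elim _ _))
      rw [Equiv.symm_apply_eq] at h3
      exact h3
    · apply τ.symm.injective
      exact Sigma.ext hqq (heq_of_eq (Subsingleton.elim _ _))
    · refine ⟨τ ⟨l, 0⟩, ?_, ?_⟩
      · rw [Finset.mem_erase] at hl ⊢
        refine ⟨fun h2 => hl.1 ?_, Finset.mem_univ _⟩
        have h3 := τ.injective h2
        exact congrArg Sigma.fst h3
      · rw [Equiv.symm_apply_apply]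
  have hmul : (Matrix.of fun p q => D p (Y q)) * C =
      Matrix.of fun p q' => if q' = q0 then h * D p z else d q' * D p (Y q') := by
    ext p q'
    rw [Matrix.mul_apply]
    by_cases hq : q' = q0
    · simp only [C, Matrix.of_apply, if_pos hq, v]
      rw [expandL hY hE (D p) z, Finset.mul_sum]
      refine Finset.sum_congr rfl fun q _ => ?_
      ring
    · simp only [C, Matrix.of_apply, if_neg hq]
      rw [Finset.sum_eq_single q']
      · rw [if_pos rfl, mul_comm]
      · intro b _ hb
        rw [if_neg hb, mul_zero]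
      · intro h2
        exact absurd (Finset.mem_univ _) h2
  have hPF : PF (k := k) Y 1 (h * E q0 z * ∏ l ∈ Finset.univ.erase i, (f l : L)) D =
      (Matrix.of fun p q' => if q' = q0 then h * D p z else d q' * D p (Y q')).det := by
    unfold PF
    rw [← hmul, Matrix.det_mul, hdet, pow_one]
  change Ge u 0 _
  rw [hPF]
  refine ge_det u _ fun p q' => ?_
  rw [Matrix.of_apply]
  split_ifs with hq
  · exact hreg u hu (D p) (hD p)
  · rw [hYq]
    exact pull_reg hu hL (M (τ.symm q').1) (htr _) (hess _) (hf _) (hD p)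

end

end Pool.Agent.H908.TA
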