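import Pool.Agent.H908.TA1

/-! Regular one-forms on products of curves: the components. -/

set_option autoImplicit false
set_option linter.overlappingInstances false
set_option linter.unusedSectionVars false
set_option linter.unusedVariables false

open FF IntermediateField Pool.Agent.W619.PQ Pool.Agent.W619.PL Pool.Agent.W619.TW
  Pool.Agent.W603.LV Pool.Agent.W619.Y Pool.Agent.W672.PG Pool.Agent.W824.PG Pool.Agent.Y174
  Pool.Agent.K1H17.IS Pool.Agent.K1H6.PQ Pool.Agent.W460.PG.ONE

namespace Pool.Agent.H908.TA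

open scoped Pointwise
open Pool.Agent.H908.SB (PF pf_pluri pf_eval ge_lift RegF good_frame oth le_oth oth_trdeg ld_oth)
open Pool.Agent.H908.SE (kun YY yy_basis mem_vv dom_ge sec_iff_reg)

section

variable {k : Type} {L : Type} [Field k] [CharZero k] [IsAlgClosed k] [Field L] [Algebra k L]

/-- An element which maps a product of a finite-dimensional space of functions on a curve with a
finite-dimensional space of functions on the other factors into ... -/
theorem mem_of_mul {N M : IntermediateField k L} {ι : Type} [Fintype ι] (e : ι → M)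
    (he : LinearIndependent N (fun a => (e a : L))) (T : Submodule k L) (hTN : ∀ t ∈ T, t ∈ N)
    (hT0 : T ≠ ⊥) (hTfg : T.FG) (x : L)
    (hx : ∀ t ∈ T, ∃ q : ι → L, (∀ a, q a ∈ T) ∧ x * t = ∑ a, (e a : L) * q a) : x ∈ M := by
  classical
  obtain ⟨t0, ht0, h0⟩ := T.exists_mem_ne_zero_of_ne_bot hT0
  obtain ⟨q0, hq0, hx0⟩ := hx t0 ht0
  let u : ι → L := fun a => q0 a / t0
  have huN : ∀ a, u a ∈ N := fun a => N.div_mem (hTN _ (hq0 a)) (hTN _ ht0)
  have hxu : x = ∑ a, (e a : L) * u a := by
    have h1 : x = (x * t0) / t0 := by field_simp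
    rw [h1, hx0, Finset.sum_div]
    refine Finset.sum_congr rfl fun a _ => ?_
    rw [mul_div_assoc]
  have hu : ∀ a, ∀ t ∈ T, u a * t ∈ T := by
    intro a t ht
    obtain ⟨q, hq, hxt⟩ := hx t ht
    have h1 : ∑ a, (⟨u a * t - q a, N.sub_mem (N.mul_mem (huN a) (hTN t ht)) (hTN _ (hq a))⟩ : N) •
        (e a : L) = 0 := by
      have h2 : ∑ a, ((e a : L) * (u a * t) - (e a : L) * q a) = 0 := by
        rw [Finset.sum_sub_distrib, ← hxt, hxu, Finset.sum_mul, sub_eq_zero]
        refine Finset.sum_congr rfl fun a _ => ?_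
        ring
      rw [← h2]
      refine Finset.sum_congr rfl fun a _ => ?_
      rw [Algebra.smul_def]
      change (u a * t - q a) * (e a : L) = _
      ring
    have h2 := Fintype.linearIndependent_iff.1 he _ h1 a
    have h3 : u a * t - q a = 0 := congrArg Subtype.val h2
    rw [sub_eq_zero.1 h3]
    exact hq a
  have hint : ∀ a, ∃ c : k, algebraMap k L c = u a := by
    intro a
    have h1 : IsIntegral k (u a) := isIntegral_of_smul_mem_submodule (M := L) T hT0 hTfg (u a)
      (fun t ht => by rw [smul_eq_mul]; exact hu a t ht)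
    exact mem_const (u a) h1.isAlgebraic
  choose c hc using hint
  rw [hxu]
  refine sum_mem fun a _ => ?_
  rw [← hc a]
  exact M.mul_mem (e a).2 (M.algebraMap_mem _)

theorem prod_le {ι : Type} [DecidableEq ι] (s : Finset ι) (R : ι → Submodule k L)
    (N : IntermediateField k L) (h : ∀ l ∈ s, ∀ x ∈ R l, x ∈ N) : ∀ t ∈ ∏ l ∈ s, R l, t ∈ N := by
  induction s using Finset.induction_on with
  | empty =>
    intro t ht
    rw [Finset.prod_empty, Submodule.mem_one] at ht
    obtain ⟨c, rfl⟩ := ht
    exact N.algebraMap_mem c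
  | insert l s hl ih =>
    intro t ht
    rw [Finset.prod_insert hl] at ht
    induction ht using Submodule.mul_induction_on' with
    | mem_mul_mem m hm n hn =>
      exact N.mul_mem (h l (Finset.mem_insert_self _ _) m hm)
        (ih (fun l' hl' => h l' (Finset.mem_insert_of_mem hl')) n hn)
    | add x _ y _ hx hy => exact N.add_mem hx hy

theorem prod_mem {ι : Type} [DecidableEq ι] (s : Finset ι) (R : ι → Submodule k L)
    (g : ι → L) (h : ∀ l ∈ s, g l ∈ R l) : ∏ l ∈ s, g l ∈ ∏ l ∈ s, R l := by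
  induction s using Finset.induction_on with
  | empty =>
    rw [Finset.prod_empty, Finset.prod_empty, Submodule.mem_one]
    exact ⟨1, map_one _⟩
  | insert l s hl ih =>
    rw [Finset.prod_insert hl, Finset.prod_insert hl]
    exact Submodule.mul_mem_mul (h l (Finset.mem_insert_self _ _))
      (ih fun l' hl' => h l' (Finset.mem_insert_of_mem hl'))

theorem prod_fg {ι : Type} [DecidableEq ι] (s : Finset ι) (R : ι → Submodule k L)
    (h : ∀ l ∈ s, (R l).FG) : (∏ l ∈ s, R l).FG := by
  induction s using Finset.induction_on with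
  | empty =>
    rw [Finset.prod_empty, Submodule.one_eq_span]
    exact Submodule.fg_span_singleton 1
  | insert l s hl ih =>
    rw [Finset.prod_insert hl]
    exact (h l (Finset.mem_insert_self _ _)).mul
      (ih fun l' hl' => h l' (Finset.mem_insert_of_mem hl'))

/-- **The components of a regular one-form on a product of curves of positive genus.** -/
theorem comp_mem {r : ℕ} (M : Fin r → IntermediateField k L)
    (hess : ∀ i, Algebra.EssFiniteType k (M i)) (htr : ∀ i, Algebra.trdeg k (M i) = 1)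
    (hL : Algebra.trdeg k L = r) (hsup : (⨆ i, M i) = ⊤) (y : ∀ i, M i)
    (hy : ∀ i, IsTranscendenceBasis k (fun _ : Fin 1 => y i))
    (R : ∀ i, Submodule k (M i)) (hR : ∀ i f, f ∈ R i ↔ RegF (k := k) (fun _ : Fin 1 => y i) 1 f)
    (hRfg : ∀ i, (R i).FG) (hR0 : ∀ i, ∃ f ∈ R i, f ≠ 0)
    {n : ℕ} (hn : Algebra.trdeg k L = n) (τ : (Σ i : Fin r, Fin 1) ≃ Fin n)
    {E : Fin n → Derivation k L L}
    (hE : ∀ p q, E p (YY (a := fun _ => 1) (fun i _ => y i) τ q) = if p = q then 1 else 0)
    (h z : L) (hreg : ∀ w : Place k L, IsDivisorial w n → ∀ D : Derivation k L L, Pres w D →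
      Ge w 0 (h * D z)) (i : Fin r) : h * E (τ ⟨i, 0⟩) z ∈ M i := by
  classical
  have htr' : ∀ i, Algebra.trdeg k (M i) = ((fun _ => 1 : Fin r → ℕ) i : ℕ) := fun i => by
    rw [htr, Nat.cast_one]
  have hL' : Algebra.trdeg k L = (∑ i, (fun _ => 1 : Fin r → ℕ) i : ℕ) := by
    rw [hL]; simp
  have hY := yy_basis (a := fun _ => 1) hsup hL' (y := fun i _ => y i) hy τ
  let R' : Fin r → Submodule k L := fun l => (R l).map (M l).val.toLinearMap
  have hR' : ∀ l x, x ∈ R' l → ∃ f : M l, f ∈ R l ∧ (f : L) = x := by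
    rintro l x ⟨f, hf, rfl⟩
    exact ⟨f, hf, rfl⟩
  let T : Submodule k L := ∏ l ∈ Finset.univ.erase i, R' l
  have hTN : ∀ t ∈ T, t ∈ oth M i := prod_le _ _ _ fun l hl x hx => by
    obtain ⟨f, -, rfl⟩ := hR' l x hx
    exact le_oth M (Finset.ne_of_mem_erase hl) f.2
  have hTfg : T.FG := prod_fg _ _ fun l _ => (hRfg l).map _
  have hT0 : T ≠ ⊥ := by
    choose f hf hf0 using hR0
    intro h0
    have h1 := prod_mem (Finset.univ.erase i) R' (fun l => (f l : L)) fun l _ => ⟨f l, hf l, rfl⟩
    have h2 : (∏ l ∈ Finset.univ.erase i, R' l) = ⊥ := h0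
    rw [h2, Submodule.mem_bot] at h1
    obtain ⟨l, -, hl⟩ := Finset.prod_eq_zero_iff.1 h1
    exact hf0 l (Subtype.ext hl)
  have hfin : Module.Finite k (R i) := Module.Finite.iff_fg.2 (hRfg i)
  let bs := Module.finBasis k (R i)
  let e : Fin (Module.finrank k (R i)) → M i := fun a => (bs a : M i)
  have heli : LinearIndependent k e := bs.linearIndependent.map' (R i).subtype
    (Submodule.ker_subtype _)
  have heN := ld_oth (a := fun _ => 1) htr' hL' hsup i e heli
  obtain ⟨b0, T0, -, hkun⟩ := kun r L M (fun _ => 1) hess htr' hL' hsup (fun i _ => y i) hy n τ {1}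
  -- the representation
  have hrep : ∀ w ∈ R' i * T, ∃ q : Fin (Module.finrank k (R i)) → L, (∀ a, q a ∈ T) ∧
      w = ∑ a, (e a : L) * q a := by
    intro w hw
    induction hw using Submodule.mul_induction_on' with
    | mem_mul_mem m hm t ht =>
      obtain ⟨f, hf, rfl⟩ := hR' i m hm
      refine ⟨fun a => bs.repr ⟨f, hf⟩ a • t, fun a => T.smul_mem _ ht, ?_⟩
      have h1 : (f : L) = ∑ a, bs.repr ⟨f, hf⟩ a • (e a : L) := by
        have h2 := congrArg (fun x : R i => ((x : M i) : L)) (bs.sum_repr ⟨f, hf⟩)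
        change (((∑ a, bs.repr ⟨f, hf⟩ a • bs a : R i) : M i) : L) = (f : L) at h2
        rw [← h2, AddSubmonoidClass.coe_finsetSum, AddSubmonoidClass.coe_finsetSum]
        rfl
      conv_lhs => rw [h1]
      rw [Finset.sum_mul]
      refine Finset.sum_congr rfl fun a _ => ?_
      rw [smul_mul_assoc, mul_smul_comm]
    | add x _ x' _ hx hx' =>
      obtain ⟨q, hq, h1⟩ := hx
      obtain ⟨q', hq', h1'⟩ := hx'
      refine ⟨fun a => q a + q' a, fun a => T.add_mem (hq a) (hq' a), ?_⟩
      rw [h1, h1', ← Finset.sum_add_distrib]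
      refine Finset.sum_congr rfl fun a _ => ?_
      ring
  refine mem_of_mul e heN T hTN hT0 hTfg _ fun t ht => hrep _ ?_
  -- products
  have hspan : T = Submodule.span k (∏ l ∈ Finset.univ.erase i, (R' l : Set L)) := by
    have h1 := Submodule.prod_span (R := k) (Finset.univ.erase i) (fun l => (R' l : Set L))
    simp only [Submodule.span_eq] at h1
    exact h1
  rw [hspan] at ht
  induction ht using Submodule.span_induction with
  | mem t ht =>
    rw [Set.mem_finsetProd] at ht
    obtain ⟨g, hg, rfl⟩ := ht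
    have hex : ∀ l, ∃ f : M l, f ∈ R l ∧ (l ≠ i → (f : L) = g l) := by
      intro l
      by_cases hl : l = i
      · exact ⟨0, (R l).zero_mem, fun h => absurd hl h⟩
      · obtain ⟨f, hf, h1⟩ := hR' l (g l) (hg (Finset.mem_erase.2 ⟨hl, Finset.mem_univ _⟩))
        exact ⟨f, hf, fun _ => h1⟩
    choose f hf hfg using hex
    have h1 : ∏ l ∈ Finset.univ.erase i, g l = ∏ l ∈ Finset.univ.erase i, (f l : L) :=
      Finset.prod_congr rfl fun l hl => (hfg l (Finset.ne_of_mem_erase hl)).symm
    rw [h1]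
    have h2 := top_reg M hess htr hn y τ hY hE h z hreg i f fun l => (hR l _).1 (hf l)
    have h3 : h * E (τ ⟨i, 0⟩) z * ∏ l ∈ Finset.univ.erase i, (f l : L) ∈
        VV k (fun _ => False) {1} 1 0 (YY (a := fun _ => 1) (fun i _ => y i) τ) := by
      rw [mem_vv, sec_iff_reg (pf_pluri _ _ _)]
      exact h2
    obtain ⟨ι, _, c, p, hp, hsum⟩ := hkun 1 0 _ h3
    rw [pow_zero, one_mul] at hsum
    rw [hsum]
    refine sum_mem fun l _ => ?_
    rw [← Finset.mul_prod_erase _ _ (Finset.mem_univ i), ← Algebra.smul_def]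
    refine Submodule.smul_mem _ _ ?_
    have hpR : ∀ i', ((p l i' : M i') : L) ∈ R' i' := by
      intro i'
      refine ⟨p l i', (hR _ _).2 ?_, rfl⟩
      have h4 := hp l i'
      rw [mem_vv] at h4
      intro u hu D hD
      exact dom_ge (h4.2.1 u hu (fun h => h) D hD)
    exact Submodule.mul_mem_mul (hpR i) (prod_mem _ _ _ fun l' _ => hpR l')
  | zero => rw [mul_zero]; exact zero_mem _
  | add x y _ _ hx hy => rw [mul_add]; exact add_mem hx hy
  | smul c x _ hx => rw [mul_smul_comm]; exact Submodule.smul_mem _ _ hx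

end

end Pool.Agent.H908.TA
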