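import Pool.Agent.H908.TA2

/-! Automorphisms of the field of functions of a product of curves of genus at least two permute the
factors. -/

set_option autoImplicit false
set_option linter.overlappingInstances false
set_option linter.unusedSectionVars false
set_option linter.unusedVariables false
set_option linter.style.haveILetI false

open FF IntermediateField Pool.Agent.W619.PQ Pool.Agent.W619.PL Pool.Agent.W619.TW
  Pool.Agent.W603.LV Pool.Agent.W619.Y Pool.Agent.W672.PG Pool.Agent.W824.PG Pool.Agent.Y174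
  Pool.Agent.K1H17.IS Pool.Agent.K1H6.PQ Pool.Agent.W460.PG.ONE

namespace Pool.Agent.H908.TA

open Pool.Agent.H908.SB (PF pf_pluri pf_eval ge_lift RegF good_frame oth le_oth oth_trdeg ld_oth)
open Pool.Agent.H908.SE (kun YY yy_basis mem_vv dom_ge sec_iff_reg)

section

variable {k : Type} {L : Type} [Field k] [CharZero k] [IsAlgClosed k] [Field L] [Algebra k L]

/-- The image of a regular form on a factor under an automorphism is regular. -/
theorem push_reg {w : Place k L} {N : ℕ} (hw : IsDivisorial w N) (hn : Algebra.trdeg k L = N)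
    (F : IntermediateField k L) (hF : Algebra.trdeg k F = 1) (hess : Algebra.EssFiniteType k F)
    {y f : F} (hf : RegF (k := k) (fun _ : Fin 1 => y) 1 f) (g : L ≃ₐ[k] L) {D : Derivation k L L}
    (hD : Pres w D) : Ge w 0 (g (f : L) * D (g (y : L))) := by
  let e : F ≃ₐ[k] F.map (g : L →ₐ[k] L) := F.equivMap (g : L →ₐ[k] L)
  have hF' : Algebra.trdeg k (F.map (g : L →ₐ[k] L)) = 1 := by
    rw [← hF]; exact e.symm.trdeg_eq
  have hess' : Algebra.EssFiniteType k (F.map (g : L →ₐ[k] L)) :=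
    (Algebra.EssFiniteType.iff_of_algEquiv e).1 hess
  have h1 := hf.push e
  exact pull_reg hw hn (F.map (g : L →ₐ[k] L)) hF' hess' h1 hD

/-- **Automorphisms permute the factors.** -/
theorem perm_factor {r : ℕ} (M : Fin r → IntermediateField k L)
    (hess : ∀ i, Algebra.EssFiniteType k (M i)) (htr : ∀ i, Algebra.trdeg k (M i) = 1)
    (hL : Algebra.trdeg k L = r) (hsup : (⨆ i, M i) = ⊤) (y : ∀ i, M i)
    (hy : ∀ i, IsTranscendenceBasis k (fun _ : Fin 1 => y i))
    (R : ∀ i, Submodule k (M i)) (hR : ∀ i f, f ∈ R i ↔ RegF (k := k) (fun _ : Fin 1 => y i) 1 f)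
    (hRfg : ∀ i, (R i).FG)
    (hR2 : ∀ i, ∃ f ∈ R i, ∃ f' ∈ R i, f' ≠ 0 ∧ ∀ c : k, f ≠ c • f')
    (g : L ≃ₐ[k] L) (i : Fin r) : ∃ j, ∀ z ∈ M i, g z ∈ M j := by
  classical
  have htr' : ∀ i, Algebra.trdeg k (M i) = ((fun _ => 1 : Fin r → ℕ) i : ℕ) := fun i => by
    rw [htr, Nat.cast_one]
  have hL' : Algebra.trdeg k L = (∑ i, (fun _ => 1 : Fin r → ℕ) i : ℕ) := by
    rw [hL]; simp
  obtain ⟨n, hn, τ⟩ : ∃ n : ℕ, Algebra.trdeg k L = n ∧ Nonempty ((Σ i : Fin r, Fin 1) ≃ Fin n) :=
    ⟨_, hL', ⟨finSigmaFinEquiv⟩⟩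
  obtain ⟨τ⟩ := τ
  have hY := yy_basis (a := fun _ => 1) hsup hL' (y := fun i _ => y i) hy τ
  obtain ⟨E, hE⟩ := Pool.Agent.W636.PG.exists_duals k L _ _ hY
  obtain ⟨f, hf, f', hf', hf0, hff⟩ := hR2 i
  have hcomp : ∀ φ ∈ R i, ∀ j, g (φ : L) * E (τ ⟨j, 0⟩) (g (y i : L)) ∈ M j := by
    intro φ hφ j
    exact comp_mem M hess htr hL hsup y hy R hR hRfg (fun i => by
      obtain ⟨f, hf, f', hf', hf0, -⟩ := hR2 i
      exact ⟨f', hf', hf0⟩) hn τ hE _ _ (fun w hw D hD =>
      push_reg hw hn (M i) (htr i) (hess i) ((hR i φ).1 hφ) g hD) j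
  -- the factor
  have hyt : ∀ j, Transcendental k (y j) := fun j => (hy j).1.transcendental 0
  obtain ⟨j, hj⟩ : ∃ j, E (τ ⟨j, 0⟩) (g (y i : L)) ≠ 0 := by
    by_contra hcon
    push Not at hcon
    obtain ⟨c, hc⟩ := const_of_der _ hY E hE (g (y i : L)) fun q => by
      have h1 := hcon (τ.symm q).1
      have h2 : τ ⟨(τ.symm q).1, 0⟩ = q := by
        rw [← Equiv.eq_symm_apply]
        exact Sigma.ext rfl (heq_of_eq (Subsingleton.elim _ _))
      rwa [h2] at h1
    apply hyt i
    have h2 : (y i : L) = algebraMap k L c := by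
      apply g.injective
      rw [← hc, AlgEquiv.commutes]
    have h3 : y i = algebraMap k (M i) c := Subtype.ext h2
    rw [h3]
    exact isAlgebraic_algebraMap c
  have hf0' : (f' : L) ≠ 0 := fun h => hf0 (Subtype.ext h)
  let t : M i := f / f'
  have htM : g (t : L) ∈ M j := by
    have h1 : g (t : L) = (g (f : L) * E (τ ⟨j, 0⟩) (g (y i : L))) /
        (g (f' : L) * E (τ ⟨j, 0⟩) (g (y i : L))) := by
      have h2 : (t : L) = (f : L) / (f' : L) := rfl
      have h3 : g (f' : L) ≠ 0 := fun h => hf0' ((map_eq_zero_iff g g.injective).1 h)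
      rw [h2, map_div₀]
      field_simp
    rw [h1]
    exact (M j).div_mem (hcomp f hf j) (hcomp f' hf' j)
  have htt : Transcendental k t := by
    intro h1
    obtain ⟨c, hc⟩ := mem_const t h1
    apply hff c
    rw [Algebra.smul_def, hc]
    change f = f / f' * f'
    rw [div_mul_cancel₀ _ hf0]
  have htb : IsTranscendenceBasis k (fun _ : Fin 1 => t) := by
    have h1 : AlgebraicIndependent k (fun _ : Fin 1 => t) := by
      rw [algebraicIndependent_unique_type_iff]
      exact htt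
    refine h1.isTranscendenceBasis_of_trdeg_le ?_ ?_
    · rw [htr]; exact Cardinal.one_lt_aleph0
    · rw [htr, Cardinal.mk_fin, Nat.cast_one]
  refine ⟨j, fun z hz => ?_⟩
  let S : IntermediateField k L := (M j).map (g.symm : L →ₐ[k] L)
  let F : IntermediateField k L := (oth M j).map (g.symm : L →ₐ[k] L)
  have hmem : ∀ x, x ∈ S ↔ g x ∈ M j := by
    intro x
    constructor
    · rintro ⟨x', hx', rfl⟩
      change g (g.symm x') ∈ M j
      rwa [g.apply_symm_apply]
    · intro hx
      exact ⟨g x, hx, g.symm_apply_apply x⟩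
  rw [← hmem]
  obtain ⟨hoth, hothsup⟩ := oth_trdeg (a := fun _ => 1) htr' hL' hsup j
  have hS1 : Algebra.trdeg k S = (1 : ℕ) := by
    rw [Nat.cast_one, ← htr j]
    exact ((M j).equivMap (g.symm : L →ₐ[k] L)).symm.trdeg_eq
  have hF1 : Algebra.trdeg k F = (∑ l ∈ Finset.univ.erase j, 1 : ℕ) := by
    rw [← hoth]
    exact ((oth M j).equivMap (g.symm : L →ₐ[k] L)).symm.trdeg_eq
  have hSF : S ⊔ F = ⊤ := by
    rw [eq_top_iff]
    intro x _
    have h1 : g x ∈ M j ⊔ oth M j := by rw [sup_comm, hothsup]; trivial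
    have h2 : (g.symm : L →ₐ[k] L) (g x) ∈ (M j ⊔ oth M j).map (g.symm : L →ₐ[k] L) := ⟨g x, h1, rfl⟩
    rw [IntermediateField.map_sup] at h2
    have h3 : (g.symm : L →ₐ[k] L) (g x) = x := g.symm_apply_apply x
    rwa [h3] at h2
  refine closed_factor S F hSF (a := 1) (b := ∑ l ∈ Finset.univ.erase j, 1) ?_ hS1 hF1 ?_
  · rw [hL', ← Finset.add_sum_erase _ _ (Finset.mem_univ j)]
  · -- algebraic
    have h1 := htb.isAlgebraic
    have h2 : IsAlgebraic (Algebra.adjoin k (Set.range fun _ : Fin 1 => t)) (⟨z, hz⟩ : M i) :=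
      h1.isAlgebraic _
    have hle : ∀ x : M i, x ∈ Algebra.adjoin k (Set.range fun _ : Fin 1 => t) → (x : L) ∈ S := by
      intro x hx
      induction hx using Algebra.adjoin_induction with
      | mem x hx =>
        obtain ⟨_, rfl⟩ := hx
        exact (hmem _).2 htM
      | algebraMap c => exact S.algebraMap_mem c
      | add x y _ _ hx hy => exact S.add_mem hx hy
      | mul x y _ _ hx hy => exact S.mul_mem hx hy
    let φ : Algebra.adjoin k (Set.range fun _ : Fin 1 => t) →+* S :=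
      { toFun := fun x => ⟨(x : M i), hle x x.2⟩
        map_one' := rfl
        map_mul' := fun _ _ => rfl
        map_zero' := rfl
        map_add' := fun _ _ => rfl }
    letI : Algebra (Algebra.adjoin k (Set.range fun _ : Fin 1 => t)) S := φ.toAlgebra
    haveI : IsScalarTower (Algebra.adjoin k (Set.range fun _ : Fin 1 => t)) S L :=
      IsScalarTower.of_algebraMap_eq fun _ => rfl
    have h3 : IsAlgebraic (Algebra.adjoin k (Set.range fun _ : Fin 1 => t)) (z : L) :=
      h2.algebraMap (A := L)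
    refine h3.extendScalars ?_
    intro x x' hxx
    have h4 : ((x : M i) : L) = ((x' : M i) : L) := congrArg (fun s : S => (s : L)) hxx
    exact Subtype.ext (Subtype.ext h4)

/-- The factors are different. -/
theorem factor_inj {r : ℕ} (M : Fin r → IntermediateField k L)
    (htr : ∀ i, Algebra.trdeg k (M i) = 1) (hL : Algebra.trdeg k L = r) (hsup : (⨆ i, M i) = ⊤)
    {t : L} (ht : Transcendental k t) {i j : Fin r} (hi : t ∈ M i) (hj : t ∈ M j) : i = j := by
  by_contra hij
  have htr' : ∀ i, Algebra.trdeg k (M i) = ((fun _ => 1 : Fin r → ℕ) i : ℕ) := fun i => by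
    rw [htr, Nat.cast_one]
  have hL' : Algebra.trdeg k L = (∑ i, (fun _ => 1 : Fin r → ℕ) i : ℕ) := by
    rw [hL]; simp
  have halg : Algebra.IsAlgebraic ↥(⨆ i, M i) L := by
    rw [hsup]
    exact ⟨fun z => isAlgebraic_algebraMap (⟨z, trivial⟩ : (⊤ : IntermediateField k L))⟩
  refine not_mem_two M halg hL' htr' hij ⟨t, hi⟩ ⟨t, hj⟩ ?_ ?_ rfl
  · intro h
    exact ht (h.algebraMap (A := L))
  · intro h
    exact ht (h.algebraMap (A := L))

/-- The permutation of the factors. -/
theorem exists_sigma {r : ℕ} (M : Fin r → IntermediateField k L)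
    (hess : ∀ i, Algebra.EssFiniteType k (M i)) (htr : ∀ i, Algebra.trdeg k (M i) = 1)
    (hL : Algebra.trdeg k L = r) (hsup : (⨆ i, M i) = ⊤)
    (hperm : ∀ (g : L ≃ₐ[k] L) i, ∃ j, ∀ z ∈ M i, g z ∈ M j) (G : Subgroup (L ≃ₐ[k] L)) :
    ∃ σ : G →* Equiv.Perm (Fin r), IsPermuted M (fun _ => 1) G σ := by
  classical
  choose p hp using hperm
  have htrans : ∀ i, ∃ t : M i, Transcendental k (t : L) := by
    intro i
    obtain ⟨x, hx⟩ := Pool.Agent.W636.PG.exists_basis k (M i) 1 (by rw [htr, Nat.cast_one])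
    refine ⟨x 0, fun h => hx.1.transcendental 0 ?_⟩
    exact (isAlgebraic_algebraMap_iff (algebraMap (M i) L).injective).1 h
  have huniq : ∀ (g : L ≃ₐ[k] L) i j, (∀ z ∈ M i, g z ∈ M j) → p g i = j := by
    intro g i j hj
    obtain ⟨t, ht⟩ := htrans i
    refine factor_inj M htr hL hsup (t := g t) ?_ (hp g i t t.2) (hj t t.2)
    intro h
    exact ht ((isAlgebraic_algHom_iff (g : L →ₐ[k] L) g.injective).1 h)
  let act : MulAction G (Fin r) :=
    { smul := fun g i => p g i
      one_smul := fun i => huniq _ _ _ fun z hz => hz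
      mul_smul := fun g g' i => huniq _ _ _ fun z hz => hp g _ _ (hp g' i z hz) }
  refine ⟨MulAction.toPermHom G (Fin r), hess, fun i => by rw [htr, Nat.cast_one], ?_, hsup,
    fun g i z hz => hp g i z hz⟩
  rw [hL]; simp

end

end Pool.Agent.H908.TA
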