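import Pool.Agent.H908.TA3

/-! Hyperelliptic involutions. -/

set_option autoImplicit false
set_option linter.overlappingInstances false
set_option linter.unusedSectionVars false
set_option linter.unusedVariables false
set_option linter.style.haveILetI false

open FF IntermediateField Pool.Agent.W619.PQ Pool.Agent.W619.PL Pool.Agent.W619.TW
  Pool.Agent.W603.LV Pool.Agent.W619.Y Pool.Agent.W672.PG Pool.Agent.W824.PG Pool.Agent.Y174
  Pool.Agent.K1H17.IS Pool.Agent.K1H6.PQ Pool.Agent.W460.PG.ONE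

namespace Pool.Agent.H908.TA

open Pool.Agent.H908.SB (PF pf_pluri pf_eval ge_lift RegF good_frame oth le_oth oth_trdeg ld_oth)
open Pool.Agent.H908.SE (kun YY yy_basis mem_vv dom_ge sec_iff_reg)

section

variable {F : Type} [Field F] [Algebra ℂ F]

theorem div_one (u : Place ℂ F) : IsDivisorial u 1 := by
  refine ⟨fun i => i.elim0, fun p hp => ?_⟩
  have h1 : p = MvPolynomial.C (MvPolynomial.coeff 0 p) := by
    haveI : IsEmpty (Fin (1 - 1)) := inferInstanceAs (IsEmpty (Fin 0))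
    exact MvPolynomial.eq_C_of_isEmpty p
  have h3 : MvPolynomial.coeff 0 p ≠ 0 := by
    intro h4
    rw [h4, map_zero] at h1
    exact hp h1
  rw [h1, MvPolynomial.aeval_C]
  refine ⟨by simpa using h3, u.ord_const h3⟩

theorem regF_add {y f f' : F} (h : RegF (k := ℂ) (fun _ : Fin 1 => y) 1 f)
    (h' : RegF (k := ℂ) (fun _ : Fin 1 => y) 1 f') :
    RegF (k := ℂ) (fun _ : Fin 1 => y) 1 (f + f') := by
  intro u hu D hD
  have h1 := h u hu D hD
  have h2 := h' u hu D hD
  have e : PF (k := ℂ) (fun _ : Fin 1 => y) 1 (f + f') D = PF (fun _ : Fin 1 => y) 1 f D +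
      PF (fun _ : Fin 1 => y) 1 f' D := by
    unfold PF; ring
  rw [e]
  exact Ge.add h1 h2

/-- A hyperelliptic involution acts on the regular differential forms by the sign. -/
theorem hyp_sign [hess : Algebra.EssFiniteType ℂ F] (htr : Algebra.trdeg ℂ F = (1 : ℕ))
    (s : F ≃ₐ[ℂ] F) (hs2 : ∀ z, s (s z) = z) (t : F) (hfix : ∀ z, s z = z ↔ z ∈ ℂ⟮t⟯)
    {f : F} (hf : RegF (k := ℂ) (fun _ : Fin 1 => t) 1 f)
    (hsf : RegF (k := ℂ) (fun _ : Fin 1 => t) 1 (s f)) : s f = -f := by
  classical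
  have hs : s ^ 2 = 1 := by
    ext z
    exact hs2 z
  have hfin : IsOfFinOrder s := isOfFinOrder_iff_pow_eq_one.2 ⟨2, two_pos, hs⟩
  let G : Subgroup (F ≃ₐ[ℂ] F) := Subgroup.zpowers s
  have hG : Finite G := by
    have h1 := hfin.finite_zpowers
    exact h1
  have hmemK : ∀ z, z ∈ fixedField G ↔ s z = z := by
    intro z
    constructor
    · intro hz
      exact hz ⟨s, Subgroup.mem_zpowers s⟩
    · rintro hz ⟨g, hg⟩
      change g z = z
      have h1 : Subgroup.zpowers s ≤ MulAction.stabilizer (F ≃ₐ[ℂ] F) z :=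
        (Subgroup.zpowers_le).2 hz
      exact h1 hg
  have hKt : (fixedField G : IntermediateField ℂ F) = ℂ⟮t⟯ := by
    ext z
    rw [hmemK, hfix]
  have halgK := Pool.Agent.W721.PG.EFF2.alg_fixed G
  have hfinK := fixed_finite G
  obtain ⟨hnK, x0, hx0⟩ := Pool.Agent.W721.PG.EFF2.exists_basis (fixedField G) 1 htr
  have hessK : Algebra.EssFiniteType ℂ (fixedField G) := ess_down hess x0 hx0
  have htt : Transcendental ℂ t := by
    intro h1
    have h2 : (x0 0 : F) ∈ ℂ⟮t⟯ := by rw [← hKt]; exact (x0 0).2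
    have h3 : Algebra.IsAlgebraic ℂ ℂ⟮t⟯ := isAlgebraic_adjoin_simple h1.isIntegral
    have h4 : IsAlgebraic ℂ (x0 0 : F) := (h3.isAlgebraic ⟨_, h2⟩).algebraMap (A := F)
    exact hx0.1.transcendental 0
      ((isAlgebraic_algebraMap_iff (algebraMap (fixedField G) F).injective).1 h4)
  have hU : IsUniruled ℂ (fixedField G) 1 := by
    refine ⟨ℂ, inferInstance, inferInstance, inferInstance, ?_, ⟨?_⟩⟩
    · rw [trdeg_eq_zero (R := ℂ) (A := ℂ), zero_add, Nat.cast_one]
    · exact ((RatFunc.algEquivOfTranscendental t htt).symm : ℂ⟮t⟯ →ₐ[ℂ] RatFunc ℂ).comp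
        (inclusion hKt.le)
  have hKN : KodairaNeg ℂ (fixedField G) 1 :=
    kodairaNeg_of_not_eff.1 fun h3 => (uniruled_neg 1 hnK hU).1 (psef_of_eff h3)
  have htK : t ∈ fixedField G := by rw [hKt]; exact mem_adjoin_simple_self ℂ t
  obtain ⟨φ, hφ⟩ : ∃ φ, φ = f + s f := ⟨_, rfl⟩
  have hφK : φ ∈ fixedField G := by
    rw [hmemK, hφ, map_add, hs2, add_comm]
  have hφr : RegF (k := ℂ) (fun _ : Fin 1 => t) 1 φ := hφ ▸ regF_add hf hsf
  let t0 : fixedField G := ⟨t, htK⟩
  let φ0 : fixedField G := ⟨φ, hφK⟩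
  have hreg : ∀ u : Place ℂ (fixedField G), IsDivisorial u 1 →
      RegularAt u 1 (PF (k := ℂ) (fun _ : Fin 1 => t0) 1 φ0) := by
    intro u hu D hD
    obtain ⟨w, e, I, hwu, -, -⟩ := exists_inertia G u
    choose ext hext hext2 hext3 using Pool.Agent.Y174.pEXT ℂ (fixedField G) F 1 hnK
    have h1 := ge_lift htr hess hnK hessK hwu hu (PF (k := ℂ) (fun _ : Fin 1 => t) 1 φ)
      (pf_pluri _ _ _) (c := ((0 : ℤ) : ℝ)) (fun D hD => Ge.toR (hφr w (div_one w) D hD)) D hD
      (fun j => ext (D j)) (fun j f => hext _ f)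
    have h2 : PF (k := ℂ) (fun _ : Fin 1 => t) 1 φ (fun j => ext (D j)) =
        algebraMap (fixedField G) F (PF (k := ℂ) (fun _ : Fin 1 => t0) 1 φ0 D) := by
      unfold PF
      rw [Matrix.det_fin_one, Matrix.det_fin_one, pow_one, pow_one, map_mul]
      change ext (D 0) (algebraMap (fixedField G) F t0) * φ = _
      rw [hext]
      rfl
    rw [h2] at h1
    rcases h1 with h1 | h1
    · left
      exact (map_eq_zero_iff _ (algebraMap (fixedField G) F).injective).1 h1
    · right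
      rw [hwu.2] at h1
      have h3 : (1 : ℤ) * (1 - e) + 0 ≤ e * u.ord (PF (k := ℂ) (fun _ : Fin 1 => t0) 1 φ0 D) := by
        have h4 : (((1 : ℤ) * (1 - e) + 0 : ℤ) : ℝ) ≤
            ((e * u.ord (PF (k := ℂ) (fun _ : Fin 1 => t0) 1 φ0 D) : ℤ) : ℝ) := by
          push_cast
          push_cast at h1
          linarith
        exact_mod_cast h4
      have he : (0 : ℤ) < e := by exact_mod_cast hwu.1
      by_contra hneg
      have h5 : u.ord (PF (k := ℂ) (fun _ : Fin 1 => t0) 1 φ0 D) ≤ -1 := by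
        change ¬ (0 ≤ _) at hneg
        omega
      nlinarith
  have htb : IsTranscendenceBasis ℂ (fun _ : Fin 1 => t0) := by
    have h1 : Transcendental ℂ t0 := fun h => htt (h.algebraMap (A := F))
    have h2 : AlgebraicIndependent ℂ (fun _ : Fin 1 => t0) := by
      rw [algebraicIndependent_unique_type_iff]
      exact h1
    refine h2.isTranscendenceBasis_of_trdeg_le ?_ ?_
    · rw [hnK]; exact Cardinal.natCast_lt_aleph0
    · rw [hnK, Cardinal.mk_fin]
  obtain ⟨E, hE⟩ := Pool.Agent.W636.PG.exists_duals ℂ (fixedField G) 1 _ htb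
  have h6 := hKN 1 le_rfl _ (pf_pluri _ _ _) hreg E
  rw [pf_eval hE] at h6
  have h7 : φ = 0 := congrArg (fun z : fixedField G => (z : F)) h6
  rw [hφ] at h7
  linear_combination h7

end

end Pool.Agent.H908.TA
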