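import Pool.Agent.H908.TA4

/-! Curves whose automorphisms are hyperelliptic involutions. -/

set_option autoImplicit false
set_option linter.overlappingInstances false
set_option linter.unusedSectionVars false
set_option linter.unusedVariables false
set_option linter.style.haveILetI false

open FF IntermediateField Pool.Agent.W619.PQ Pool.Agent.W619.PL Pool.Agent.W619.TW
  Pool.Agent.W603.LV Pool.Agent.W619.Y Pool.Agent.W672.PG Pool.Agent.W824.PG Pool.Agent.Y174
  Pool.Agent.K1H17.IS Pool.Agent.K1H6.PQ Pool.Agent.W460.PG.ONE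

namespace Pool.Agent.H908.TA

open Pool.Agent.H908.SB (PF pf_pluri pf_eval ge_lift RegF good_frame oth le_oth oth_trdeg ld_oth
  der_eq regF_of_form)
open Pool.Agent.H908.SE (kun YY yy_basis mem_vv dom_ge sec_iff_reg)
open Pool.Agent.Helper11K9.OD (regularForms)

section

variable {F : Type} [Field F] [Algebra ℂ F]

/-- The space of the coefficients of the regular forms. -/
def Rs (w : F) : Submodule ℂ F where
  carrier := {f | RegF (k := ℂ) (fun _ : Fin 1 => w) 1 f}
  add_mem' := fun h h' => regF_add h h'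
  zero_mem' := by
    intro u _ D _
    unfold PF
    rw [mul_zero]
    exact u.reg_zero
  smul_mem' := by
    intro c f hf u hu D hD
    have h1 : Ge u 0 _ := hf u hu D hD
    have e : PF (k := ℂ) (fun _ : Fin 1 => w) 1 (c • f) D = algebraMap ℂ F c *
        PF (fun _ : Fin 1 => w) 1 f D := by
      unfold PF
      rw [Algebra.smul_def]; ring
    rw [e]
    have h2 : Ge u 0 (algebraMap ℂ F c) := Ge.const c
    change Ge u 0 _
    simpa using h2.mul h1

theorem mem_Rs {w f : F} : f ∈ Rs w ↔ RegF (k := ℂ) (fun _ : Fin 1 => w) 1 f := Iff.rfl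

/-- The form `f dw`. -/
def frm (w f : F) : Derivation ℂ F F →ₗ[F] F where
  toFun D := D w * f
  map_add' D D' := by rw [Derivation.add_apply, add_mul]
  map_smul' c D := by
    rw [Derivation.smul_apply, smul_eq_mul, RingHom.id_apply, smul_eq_mul, mul_assoc]

theorem frm_mem {w f : F} (hf : RegF (k := ℂ) (fun _ : Fin 1 => w) 1 f) :
    frm w f ∈ regularForms F := by
  intro P δ hδ
  have h1 := hf P (div_one P) (fun _ => δ) (fun _ => hδ)
  have h2 : PF (k := ℂ) (fun _ : Fin 1 => w) 1 f (fun _ => δ) = frm w f δ := by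
    unfold PF
    rw [Matrix.det_fin_one, pow_one]
    rfl
  rwa [h2] at h1

/-- The regular forms and their coefficients. -/
noncomputable def eqR {w : F} (hw : IsTranscendenceBasis ℂ (fun _ : Fin 1 => w))
    {E : Derivation ℂ F F} (hE : E w = 1) : regularForms F ≃ₗ[ℂ] Rs w where
  toFun ω := ⟨(ω : Derivation ℂ F F →ₗ[F] F) E, regF_of_form hw hE ω.2 rfl⟩
  map_add' ω ω' := rfl
  map_smul' c ω := rfl
  invFun f := ⟨frm w (f : F), frm_mem f.2⟩
  left_inv ω := by
    apply Subtype.ext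
    ext D
    change D w * (ω : Derivation ℂ F F →ₗ[F] F) E = (ω : Derivation ℂ F F →ₗ[F] F) D
    conv_rhs => rw [der_eq hw hE D, map_smul, smul_eq_mul]
  right_inv f := by
    apply Subtype.ext
    change E w * (f : F) = f
    rw [hE, one_mul]

theorem exists_E {w : F} (hw : IsTranscendenceBasis ℂ (fun _ : Fin 1 => w)) :
    ∃ E : Derivation ℂ F F, E w = 1 := by
  obtain ⟨E, hE⟩ := Pool.Agent.W636.PG.exists_duals ℂ F 1 _ hw
  have := hE 0 0
  rw [if_pos rfl] at this
  exact ⟨E 0, this⟩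

theorem finrank_Rs {w : F} (hw : IsTranscendenceBasis ℂ (fun _ : Fin 1 => w)) :
    Module.finrank ℂ (Rs w) = Module.finrank ℂ (regularForms F) := by
  obtain ⟨E, hE⟩ := exists_E hw
  exact (eqR hw hE).finrank_eq.symm

theorem fg_Rs {w : F} (hw : IsTranscendenceBasis ℂ (fun _ : Fin 1 => w))
    (h : 1 ≤ Module.finrank ℂ (regularForms F)) : (Rs w).FG := by
  rw [← finrank_Rs hw] at h
  have h1 : Module.Finite ℂ (Rs w) := Module.finite_of_finrank_pos h
  exact Module.Finite.iff_fg.1 h1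

theorem two_Rs {w : F} (hw : IsTranscendenceBasis ℂ (fun _ : Fin 1 => w))
    (h : 2 ≤ Module.finrank ℂ (regularForms F)) :
    ∃ f ∈ Rs w, ∃ f' ∈ Rs w, f' ≠ 0 ∧ ∀ c : ℂ, f ≠ c • f' := by
  rw [← finrank_Rs hw] at h
  obtain ⟨v, hv⟩ := Pool.Agent.H908.SB.exists_indep (V := Rs w) (S := Fin 2) (by
    rw [Fintype.card_fin]; exact h)
  refine ⟨v 0, (v 0).2, v 1, (v 1).2, fun h0 => hv.ne_zero 1 (Subtype.ext h0), fun c hc => ?_⟩
  have h1 : v 0 = c • v 1 := Subtype.ext hc
  have h2 := (LinearIndependent.pair_iff (x := v 0) (y := v 1)).1 (by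
    have : ![v 0, v 1] = v := by
      ext i; fin_cases i <;> rfl
    rw [this]; exact hv) 1 (-c) (by rw [h1, one_smul, neg_smul, add_neg_cancel])
  exact one_ne_zero h2.1

end

section

variable {L : Type} [Field L] [Algebra ℂ L] {F : IntermediateField ℂ L}

/-- `s` is a hyperelliptic involution: it is an involution and its fixed field is a field of
rational functions. -/
def IsHyp {K : Type} [Field K] [Algebra ℂ K] (s : K ≃ₐ[ℂ] K) : Prop :=
  s ≠ 1 ∧ (∀ z, s (s z) = z) ∧ ∃ t : K, ∀ z, s z = z ↔ z ∈ ℂ⟮t⟯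

theorem hyp_fix {s : F ≃ₐ[ℂ] F} {t : F} (h : ∀ z, s z = z ↔ z ∈ ℂ⟮t⟯) : s t = t :=
  (h t).2 (mem_adjoin_simple_self ℂ t)

theorem hyp_basis (htr : Algebra.trdeg ℂ F = 1) {s : F ≃ₐ[ℂ] F} (hs2 : ∀ z, s (s z) = z)
    {t : F} (h : ∀ z, s z = z ↔ z ∈ ℂ⟮t⟯) : IsTranscendenceBasis ℂ (fun _ : Fin 1 => t) := by
  have htt : Transcendental ℂ t := by
    intro h1
    have h3 : Algebra.IsAlgebraic ℂ ℂ⟮t⟯ := isAlgebraic_adjoin_simple h1.isIntegral
    have hfix : ∀ z ∈ ℂ⟮t⟯, IsAlgebraic ℂ z := fun z hz =>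
      (h3.isAlgebraic ⟨z, hz⟩).algebraMap (A := F)
    have hall : ∀ z : F, IsAlgebraic ℂ z := by
      intro z
      have h4 : IsAlgebraic ℂ (z + s z) := hfix _ ((h _).1 (by rw [map_add, hs2, add_comm]))
      have h5 : IsAlgebraic ℂ ((z - s z) * (z - s z)) := hfix _ ((h _).1 (by
        rw [map_mul, map_sub, hs2]; ring))
      have h6 : IsAlgebraic ℂ (z - s z) := by
        rw [← sq] at h5
        exact IsAlgebraic.of_pow two_pos h5
      have h7 : z = (z + s z + (z - s z)) * algebraMap ℂ F 2⁻¹ := by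
        have h8 : (algebraMap ℂ F 2⁻¹) * 2 = 1 := by
          rw [← map_ofNat (algebraMap ℂ F) 2, ← map_mul]; norm_num
        linear_combination (-z) * h8
      rw [h7]
      exact (h4.add h6).mul (isAlgebraic_algebraMap _)
    have h9 : Algebra.trdeg ℂ F = 0 := trdeg_eq_zero_iff.2 ⟨hall⟩
    rw [h9] at htr
    exact zero_ne_one htr
  have h1 : AlgebraicIndependent ℂ (fun _ : Fin 1 => t) := by
    rw [algebraicIndependent_unique_type_iff]
    exact htt
  refine h1.isTranscendenceBasis_of_trdeg_le ?_ ?_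
  · rw [htr]; exact Cardinal.one_lt_aleph0
  · rw [htr, Cardinal.mk_fin, Nat.cast_one]

/-- The coordinate form. -/
theorem hyp_coord [hess : Algebra.EssFiniteType ℂ F] (htr : Algebra.trdeg ℂ F = 1)
    {s : F ≃ₐ[ℂ] F} (hs2 : ∀ z, s (s z) = z) {t : F} (h : ∀ z, s z = z ↔ z ∈ ℂ⟮t⟯) {f : F}
    (hf : f ∈ Rs t) : s f = -f := by
  refine hyp_sign (by rw [htr, Nat.cast_one]) s hs2 t h hf ?_
  have h1 := RegF.push s hf
  have h2 : (fun _ : Fin 1 => s t) = fun _ => t := by
    rw [hyp_fix h]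
  rw [h2] at h1
  exact h1

/-- The coordinate-free form. -/
theorem hyp_neg [hess : Algebra.EssFiniteType ℂ F] (htr : Algebra.trdeg ℂ F = 1)
    {s : F ≃ₐ[ℂ] F} (hs : IsHyp s) {ω : Derivation ℂ F F →ₗ[F] F} (hω : ω ∈ regularForms F)
    {δ δ' : Derivation ℂ F F} (hδ : ∀ z, δ' (s z) = s (δ z)) : s (ω δ) = -ω δ' := by
  obtain ⟨-, hs2, t, ht⟩ := hs
  have hw := hyp_basis htr hs2 ht
  obtain ⟨E, hE⟩ := exists_E hw
  have h1 := hyp_coord htr hs2 ht (regF_of_form hw hE hω rfl)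
  have h2 : δ' t = s (δ t) := by
    rw [← hδ, hyp_fix ht]
  rw [der_eq hw hE δ, der_eq hw hE δ', ω.map_smul, ω.map_smul, smul_eq_mul, smul_eq_mul, map_mul,
    h1, h2]
  ring

/-- conjugation of a derivation -/
def cj {K : Type} [Field K] [Algebra ℂ K] (s : K ≃ₐ[ℂ] K) (D : Derivation ℂ K K) :
    Derivation ℂ K K :=
  Derivation.mk' ((s.toLinearMap.comp (D : K →ₗ[ℂ] K)).comp s.symm.toLinearMap) (by
    intro a b
    change s (D (s.symm (a * b))) = a • s (D (s.symm b)) + b • s (D (s.symm a))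
    rw [map_mul, D.leibniz, map_add, smul_eq_mul, smul_eq_mul, map_mul, map_mul,
      AlgEquiv.apply_symm_apply, AlgEquiv.apply_symm_apply, smul_eq_mul, smul_eq_mul])

theorem cj_apply {K : Type} [Field K] [Algebra ℂ K] (s : K ≃ₐ[ℂ] K) (D : Derivation ℂ K K)
    (z : K) : cj s D (s z) = s (D z) := by
  change s (D (s.symm (s z))) = _
  rw [AlgEquiv.symm_apply_apply]

/-- The hyperelliptic involution is unique. -/
theorem hyp_unique [hess : Algebra.EssFiniteType ℂ F] (htr : Algebra.trdeg ℂ F = 1)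
    (hg : 1 ≤ Module.finrank ℂ (regularForms F)) (haut : ∀ s : F ≃ₐ[ℂ] F, s ≠ 1 → IsHyp s)
    {s s' : F ≃ₐ[ℂ] F} (hs : s ≠ 1) (hs' : s' ≠ 1) : s = s' := by
  by_contra hne
  have h1 : s * s' ≠ 1 := by
    intro h2
    apply hne
    ext z
    have h3 : s (s' (s' z)) = s' z := by
      have h4 := congrArg (fun g : F ≃ₐ[ℂ] F => g (s' z)) h2
      exact h4
    rw [(haut s' hs').2.1] at h3
    exact congrArg _ h3
  obtain ⟨f, hf⟩ : ∃ f : regularForms F, f ≠ 0 := by
    by_contra hcon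
    push Not at hcon
    have h2 : Subsingleton (regularForms F) := ⟨fun a b => by rw [hcon a, hcon b]⟩
    have h3 : Module.finrank ℂ (regularForms F) = 0 := Module.finrank_zero_of_subsingleton
    omega
  apply hf
  refine Subtype.ext (LinearMap.ext fun δ => ?_)
  let δ0 := cj (s * s').symm δ
  have e1 := hyp_neg htr (haut s' hs') f.2 (δ := δ0) (δ' := cj s' δ0) (cj_apply s' δ0)
  have e2 := hyp_neg htr (haut s hs) f.2 (δ := cj s' δ0) (δ' := cj s (cj s' δ0))
    (cj_apply s (cj s' δ0))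
  have e3 := hyp_neg htr (haut _ h1) f.2 (δ := δ0) (δ' := cj s (cj s' δ0)) (fun z => by
    change cj s (cj s' δ0) (s (s' z)) = s (s' (δ0 z))
    rw [cj_apply, cj_apply])
  have e4 : cj s (cj s' δ0) = δ := by
    refine Derivation.ext fun z => ?_
    obtain ⟨x, rfl⟩ := (s * s').surjective z
    change cj s (cj s' δ0) (s (s' x)) = _
    rw [cj_apply, cj_apply]
    have h5 : δ0 x = (s * s').symm (δ ((s * s') x)) := by
      have h6 := cj_apply (s * s').symm δ ((s * s') x)
      rw [AlgEquiv.symm_apply_apply] at h6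
      exact h6
    rw [h5]
    exact (s * s').apply_symm_apply _
  rw [e4] at e2 e3
  have e5 : (s * s') ((f : Derivation ℂ F F →ₗ[F] F) δ0) = s (s' ((f : Derivation ℂ F F →ₗ[F] F) δ0)) :=
    rfl
  rw [e5, e1, map_neg, e2, neg_neg] at e3
  have e6 : (2 : F) * (f : Derivation ℂ F F →ₗ[F] F) δ = 0 := by
    linear_combination e3
  rcases mul_eq_zero.1 e6 with h7 | h7
  · exact absurd h7 two_ne_zero
  · exact h7

/-- Coordinates on which the automorphisms act by the sign. -/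
theorem exists_W [hess : Algebra.EssFiniteType ℂ F] (htr : Algebra.trdeg ℂ F = 1)
    (hg : 1 ≤ Module.finrank ℂ (regularForms F)) (haut : ∀ s : F ≃ₐ[ℂ] F, s ≠ 1 → IsHyp s) :
    ∃ W : F, IsTranscendenceBasis ℂ (fun _ : Fin 1 => W) ∧ ∀ s : F ≃ₐ[ℂ] F, s W = W ∧
      ∃ ε : ℂ, (ε = 1 ∨ ε = -1) ∧ ∀ f ∈ Rs W, s f = ε • f := by
  by_cases h : ∃ s : F ≃ₐ[ℂ] F, s ≠ 1
  · obtain ⟨s, hs⟩ := h
    obtain ⟨-, hs2, t, ht⟩ := haut s hs
    refine ⟨t, hyp_basis htr hs2 ht, fun s' => ?_⟩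
    by_cases h' : s' = 1
    · subst h'
      exact ⟨rfl, 1, Or.inl rfl, fun f _ => by rw [one_smul]; rfl⟩
    · have h1 := hyp_unique htr hg haut hs h'
      subst h1
      exact ⟨hyp_fix ht, -1, Or.inr rfl, fun f hf => by
        rw [hyp_coord htr hs2 ht hf, neg_smul, one_smul]⟩
  · push Not at h
    obtain ⟨x, hx⟩ := Pool.Agent.W636.PG.exists_basis ℂ F 1 (by rw [htr, Nat.cast_one])
    have h1 : x = fun _ : Fin 1 => x 0 := by
      funext i; rw [Subsingleton.elim i 0]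
    refine ⟨x 0, h1 ▸ hx, fun s' => ?_⟩
    rw [h s']
    exact ⟨rfl, 1, Or.inl rfl, fun f _ => by rw [one_smul]; rfl⟩

end

end Pool.Agent.H908.TA
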