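import Pool.Agent.H908.TA5

/-! Antisymmetric pluricanonical forms: transpositions which are twisted by a sign. -/

set_option autoImplicit false
set_option linter.overlappingInstances false
set_option linter.unusedSectionVars false
set_option linter.unusedVariables false
set_option linter.style.haveILetI false

open FF IntermediateField Pool.Agent.W619.PQ Pool.Agent.W619.PL Pool.Agent.W619.TW
  Pool.Agent.W603.LV Pool.Agent.W619.Y Pool.Agent.W672.PG Pool.Agent.W824.PG Pool.Agent.Y174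
  Pool.Agent.K1H17.IS Pool.Agent.K1H6.PQ

namespace Pool.Agent.H908.TA

open Pool.Agent.H908.SB
open Pool.Agent.Helper11K9.OD (regularForms)

section

variable {L : Type} [Field L] [Algebra ℂ L]
variable {r : ℕ} {M : Fin r → IntermediateField ℂ L} {a : Fin r → ℕ}
  {G : Subgroup (L ≃ₐ[ℂ] L)} {σ : G →* Equiv.Perm (Fin r)}

/-- The order at the divisors where two curves are exchanged, with a sign. -/
theorem sf_trans' [Finite G] (h : IsPermuted M a G σ) {v : Place ℂ (fixedField G)}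
    (hv : IsDivisorial v (∑ i, a i)) {w : Place ℂ L} (hwv : Over w v 2)
    (g : L ≃ₐ[ℂ] L) (hgG : g ∈ G) (hord : orderOf g = 2) (hI : Inert w g) {i0 j0 : Fin r}
    (hij : i0 ≠ j0) (hi : a i0 = 1) (hj : a j0 = 1) {μ : ℕ}
    {y : ∀ i, Fin (a i) → M i} (hy : ∀ i, IsTranscendenceBasis ℂ (y i))
    {C : ∀ i : Cur a, Cur a → M i.1} (hC : ∀ i c, RegF (k := ℂ) (y i.1) 1 (C i c))
    {f : ∀ i, M i} (hf1 : ∀ i, a i = 1 → f i = 1)
    (hf : ∀ i, a i ≠ 1 → RegF (k := ℂ) (y i) μ (f i))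
    (hg1 : ∀ q q', g (y i0 q : L) = y j0 q') (hg2 : ∀ q q', g (y j0 q : L) = y i0 q')
    {ε : ℂ} (hε : ε = 1 ∨ ε = -1)
    (hC1 : ∀ c, g (C ⟨i0, hi⟩ c : L) = algebraMap ℂ L ε * C ⟨j0, hj⟩ c)
    (hC2 : ∀ c, g (C ⟨j0, hj⟩ c : L) = algebraMap ℂ L ε * C ⟨i0, hi⟩ c)
    (htr : ∀ l, l ≠ i0 → l ≠ j0 → ∀ z ∈ M l, g z = z)
    (τ : (Σ i, Fin (a i)) ≃ Fin (∑ i, a i))
    (D : Fin (∑ i, a i) → Derivation ℂ (fixedField G) (fixedField G)) (hD : ∀ j, Pres v (D j))
    (D' : Fin (∑ i, a i) → Derivation ℂ L L)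
    (hD' : ∀ j f, D' j (algebraMap (fixedField G) L f) = algebraMap (fixedField G) L (D j f)) :
    Ge w 0 (SF y μ C f (fun i => D' (τ i))) := by
  classical
  have hε2 : (algebraMap ℂ L ε) * algebraMap ℂ L ε = 1 := by
    rw [← map_mul]
    rcases hε with h | h <;> rw [h] <;> norm_num
  let j1 : Cur a := ⟨j0, hj⟩
  let i1 : Cur a := ⟨i0, hi⟩
  have hij1 : i1 ≠ j1 := fun h => hij (congrArg Subtype.val h)
  let C' : ∀ i : Cur a, Cur a → M i.1 := fun l c =>
    if l = j1 then algebraMap ℂ (M l.1) ε * C l c else C l c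
  have hC'j : ∀ c, C' j1 c = algebraMap ℂ (M j1.1) ε * C j1 c := fun c => by
    simp only [C', if_pos rfl]
  have hC'n : ∀ l, l ≠ j1 → ∀ c, C' l c = C l c := fun l hl c => by
    simp only [C', if_neg hl]
  have hC' : ∀ i c, RegF (k := ℂ) (y i.1) 1 (C' i c) := by
    intro i c
    by_cases hi : i = j1
    · subst hi
      rw [hC'j]
      intro u hu D hD
      have h1 : Ge u 0 _ := hC j1 c u hu D hD
      have e : PF (k := ℂ) (y j1.1) 1 (algebraMap ℂ (M j1.1) ε * C j1 c) D =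
          algebraMap ℂ (M j1.1) ε * PF (y j1.1) 1 (C j1 c) D := by
        unfold PF; ring
      rw [e]
      have h2 : Ge u 0 (algebraMap ℂ (M j1.1) ε) := Ge.const ε
      change Ge u 0 _
      simpa using h2.mul h1
    · rw [hC'n i hi]
      exact hC i c
  have key := sf_trans h hv hwv g hgG hord hI hij hi hj hy hC' hf1 hf hg1 hg2
    (fun c => by
      have h1 : ((C' ⟨j0, hj⟩ c : M j0) : L) = algebraMap ℂ L ε * C ⟨j0, hj⟩ c :=
        congrArg (fun z : M j0 => (z : L)) (hC'j c)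
      have h2 : ((C' ⟨i0, hi⟩ c : M i0) : L) = C ⟨i0, hi⟩ c :=
        congrArg (fun z : M i0 => (z : L)) (hC'n _ hij1 c)
      rw [h1, h2, hC1])
    (fun c => by
      have h1 : ((C' ⟨j0, hj⟩ c : M j0) : L) = algebraMap ℂ L ε * C ⟨j0, hj⟩ c :=
        congrArg (fun z : M j0 => (z : L)) (hC'j c)
      have h2 : ((C' ⟨i0, hi⟩ c : M i0) : L) = C ⟨i0, hi⟩ c :=
        congrArg (fun z : M i0 => (z : L)) (hC'n _ hij1 c)
      rw [h1, h2, map_mul, hC2, AlgEquiv.commutes, ← mul_assoc, hε2, one_mul])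
    htr τ D hD D' hD'
  have hdet : (Matrix.of fun i c : Cur a => ((C' i c : M i.1) : L)).det =
      algebraMap ℂ L ε * (Matrix.of fun i c : Cur a => ((C i c : M i.1) : L)).det := by
    have h1 : (Matrix.of fun i c : Cur a => ((C' i c : M i.1) : L)) =
        Matrix.updateRow (Matrix.of fun i c : Cur a => ((C i c : M i.1) : L)) j1
          (algebraMap ℂ L ε • (Matrix.of fun i c : Cur a => ((C i c : M i.1) : L)) j1) := by
      ext i c
      by_cases hi : i = j1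
      · subst hi
        rw [Matrix.updateRow_self, Matrix.of_apply, hC'j]
        rfl
      · rw [Matrix.updateRow_ne hi, Matrix.of_apply, Matrix.of_apply, hC'n i hi]
    rw [h1, Matrix.det_updateRow_smul, Matrix.updateRow_eq_self]
  have hSF : SF y μ C' f (fun i => D' (τ i)) =
      (algebraMap ℂ L ε) ^ μ * SF y μ C f (fun i => D' (τ i)) := by
    unfold SF
    rw [hdet]
    ring
  have hSF2 : SF y μ C f (fun i => D' (τ i)) =
      algebraMap ℂ L (ε ^ μ) * SF y μ C' f (fun i => D' (τ i)) := by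
    rw [hSF, map_pow, ← mul_assoc, ← mul_pow, hε2, one_pow, one_mul]
  rw [hSF2]
  have h2 : Ge w 0 (algebraMap ℂ L (ε ^ μ)) := Ge.const _
  simpa using h2.mul key

theorem kod_form' [Finite G] (h : IsPermuted M a G σ) {μ : ℕ} (hμ : 1 ≤ μ)
    {y : ∀ i, Fin (a i) → M i} (hy : ∀ i, IsTranscendenceBasis ℂ (y i))
    {C : ∀ i : Cur a, Cur a → M i.1} (hC : ∀ i c, RegF (k := ℂ) (y i.1) 1 (C i c))
    {f : ∀ i, M i} (hf1 : ∀ i, a i = 1 → f i = 1)
    (hf : ∀ i, a i ≠ 1 → RegF (k := ℂ) (y i) μ (f i)) (hf0 : ∀ i, f i ≠ 0)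
    (hdet : (Matrix.of fun i c : Cur a => (C i c : L)).det ≠ 0)
    (hG : ∀ g : G, g ≠ 1 → (∃ w : Place ℂ L, IsDivisorial w (∑ i, a i) ∧
      Inert w (g : L ≃ₐ[ℂ] L)) → 1 ≤ age M a (σ g) (fun _ _ => 0) (g : L ≃ₐ[ℂ] L) ∨
      (orderOf (g : L ≃ₐ[ℂ] L) = 2 ∧ ∃ i j, ∃ (hi : a i = 1) (hj : a j = 1),
        Tr M a (g : L ≃ₐ[ℂ] L) i j ∧
        (∀ q q', (g : L ≃ₐ[ℂ] L) (y i q : L) = y j q') ∧
        (∀ q q', (g : L ≃ₐ[ℂ] L) (y j q : L) = y i q') ∧
        ∃ ε : ℂ, (ε = 1 ∨ ε = -1) ∧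
        (∀ c, (g : L ≃ₐ[ℂ] L) (C ⟨i, hi⟩ c : L) = algebraMap ℂ L ε * C ⟨j, hj⟩ c) ∧
        (∀ c, (g : L ≃ₐ[ℂ] L) (C ⟨j, hj⟩ c : L) = algebraMap ℂ L ε * C ⟨i, hi⟩ c))) :
    KodTr ℂ (fixedField G) (∑ i, a i) 0 := by
  classical
  obtain ⟨τ⟩ : Nonempty ((Σ i, Fin (a i)) ≃ Fin (∑ i, a i)) := ⟨finSigmaFinEquiv⟩
  have halg : Algebra.IsAlgebraic ↥(⨆ i, M i) L := by
    rw [h.sup]
    exact ⟨fun z => isAlgebraic_algebraMap (⟨z, trivial⟩ : (⊤ : IntermediateField ℂ L))⟩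
  have hbasis := basis_sigma (ι := fun i => Fin (a i)) M halg h.total
    (fun i => (Fintype.card_fin _).trans rfl) y hy
  set Y : (Σ i, Fin (a i)) → L := fun p => (y p.1 p.2 : L) with hY
  have hbasis' : IsTranscendenceBasis ℂ (Y ∘ τ.symm) :=
    (isTranscendenceBasis_equiv (R := ℂ) (f := Y) τ.symm).2 hbasis
  obtain ⟨D0, hD0⟩ := Pool.Agent.W636.PG.exists_duals ℂ L (∑ i, a i) (Y ∘ τ.symm) hbasis'
  have hdet1 : (Matrix.of fun i j => D0 (τ i) (Y j)).det = 1 := by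
    have h1 : (Matrix.of fun i j => D0 (τ i) (Y j)) = 1 := by
      ext i j
      have h2 := hD0 (τ i) (τ j)
      rw [Function.comp_apply, τ.symm_apply_apply] at h2
      rw [Matrix.of_apply, Matrix.one_apply, h2]
      simp only [τ.injective.eq_iff]
    rw [h1, Matrix.det_one]
  have halgK := Pool.Agent.W721.PG.EFF2.alg_fixed G
  have hfin := fixed_finite G
  have hessL := h.essL
  obtain ⟨hnK, z0, hz0⟩ := Pool.Agent.W721.PG.EFF2.exists_basis (fixedField G) (∑ i, a i) h.total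
  have hessK : Algebra.EssFiniteType ℂ (fixedField G) := ess_down hessL z0 hz0
  let c0 : L := (Matrix.of fun i c : Cur a => (C i c : L)).det ^ μ * ∏ i, (f i : L)
  let s : (Fin (∑ i, a i) → Derivation ℂ L L) → L := fun D => SF y μ C f (fun i => D (τ i))
  have hs : IsPluriForm ℂ L (∑ i, a i) μ s := pluri_sigma τ Y μ c0
  have hs0 : s D0 ≠ 0 := by
    change (Matrix.of fun i j => D0 (τ i) (Y j)).det ^ μ * c0 ≠ 0
    rw [hdet1, one_pow, one_mul]
    exact mul_ne_zero (pow_ne_zero _ hdet) (Finset.prod_ne_zero_iff.2 fun i _ h0 =>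
      hf0 i (Subtype.ext h0))
  refine desc3 (n := ∑ i, a i) (A := 0) (m := μ) hμ h.total hessL G (fun _ => s) (fun _ => hs) D0
    (fun _ => hs0) (algebraicIndependent_empty_type_iff.2 (algebraMap ℂ L).injective) ?_
  intro v hv w e hwv hin D D' hD hD' _
  have hw := divisorial_up hwv hv
  have hregs : ∀ D : Fin (∑ i, a i) → Derivation ℂ L L, (∀ j, Pres w (D j)) →
      GeR w ((0 : ℤ) : ℝ) (s D) := fun D hD =>
    Ge.toR (sf_reg h hw hy hC hf1 hf (fun i => D (τ i)) (fun j => hD (τ j)))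
  rcases Nat.lt_or_ge e 2 with he | he
  · have he1 : e = 1 := by have := hwv.1; omega
    have h1 := ge_lift h.total hessL hnK hessK hwv hv s hs hregs D hD D' hD'
    have h2 : GeR w ((0 : ℤ) : ℝ) (s D') := by
      refine h1.mono ?_
      rw [he1]
      push_cast
      norm_num
    exact h2.toInt
  · obtain ⟨g, hgG, hg1, hord, hI⟩ := hin he
    rcases hG ⟨g, hgG⟩ (fun h0 => hg1 (congrArg Subtype.val h0)) ⟨w, hw, hI⟩ with h1 | ⟨h2, i, j,
      hi, hj, h3, h4, h5, ε, hε, h6, h7⟩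
    · have hlog : LogGe (∑ i, a i) w s (μ * e) := by
        intro D hD hl
        have h2 := sf_ram h hw ⟨g, hgG⟩ hI h1 hy hC hf1 hf (fun i => D (τ i)) (fun j => hD (τ j))
          (fun j => hl (τ j))
        change GeR w _ (SF y μ C f (fun i => D (τ i)))
        rw [← hord]
        exact h2
      have h2 := reg_of_log h.total hessL hw s hs hlog
      have h3 := ge_lift h.total hessL hnK hessK hwv hv s hs h2 D hD D' hD'
      have h4 : GeR w ((0 : ℤ) : ℝ) (s D') := by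
        refine h3.mono ?_
        push_cast
        apply le_of_eq
        ring
      exact h4.toInt
    · have he2 : e = 2 := by rw [← hord]; exact h2
      subst he2
      exact sf_trans' h hv hwv g hgG h2 hI h3.1 hi hj hy hC hf1 hf h4 h5 hε h6 h7 h3.2.2.2.2.2 τ D hD
        D' hD'

end

end Pool.Agent.H908.TA
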