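import Pool.Agent.H908.TA6

/-! Nonvanishing for groups with twisted transpositions. -/

set_option autoImplicit false
set_option linter.overlappingInstances false
set_option linter.unusedSectionVars false
set_option linter.unusedVariables false
set_option linter.style.haveILetI false

open FF IntermediateField Pool.Agent.W619.PQ Pool.Agent.W619.PL Pool.Agent.W619.TW
  Pool.Agent.W603.LV Pool.Agent.W619.Y Pool.Agent.W672.PG Pool.Agent.W824.PG Pool.Agent.Y174
  Pool.Agent.K1H17.IS Pool.Agent.K1H6.PQ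

namespace Pool.Agent.H908.TA

open Pool.Agent.H908.SB
open Pool.Agent.Helper11K9.OD (regularForms)

section

variable {L : Type} [Field L] [Algebra ℂ L]
variable {r : ℕ} {M : Fin r → IntermediateField ℂ L} {a : Fin r → ℕ}
  {G : Subgroup (L ≃ₐ[ℂ] L)} {σ : G →* Equiv.Perm (Fin r)}

/-- `g` is an involution which exchanges the curves `i` and `j` and is trivial on the others. -/
def TI (M : Fin r → IntermediateField ℂ L) (a : Fin r → ℕ) (g : L ≃ₐ[ℂ] L) (i j : Fin r) : Prop :=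
  Tr M a g i j ∧ ∀ z, g (g z) = z

theorem TI.symm {g : L ≃ₐ[ℂ] L} {i j : Fin r} (h : TI M a g i j) : TI M a g j i :=
  ⟨Tr.symm h.1, h.2⟩

theorem TI.inv {g : L ≃ₐ[ℂ] L} {i j : Fin r} (h : TI M a g i j) : g⁻¹ = g := by
  rw [inv_eq_iff_mul_eq_one]
  ext z
  exact h.2 z

theorem TI.fin {g : L ≃ₐ[ℂ] L} {i j : Fin r} (h : TI M a g i j) : IsOfFinOrder g :=
  isOfFinOrder_iff_pow_eq_one.2 ⟨2, two_pos, by ext z; exact h.2 z⟩

theorem TI.conj {g g' : L ≃ₐ[ℂ] L} {i j l : Fin r} (h : TI M a g i j) (h' : TI M a g' j l)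
    (hil : i ≠ l) : TI M a (g * g' * g⁻¹) i l := by
  refine ⟨Tr.conj h.1 h'.1 hil h.fin, fun z => ?_⟩
  change g (g' (g⁻¹ (g (g' (g⁻¹ z))))) = z
  rw [h.inv, h.2, h'.2, h.2]

/-- the block of `i` -/
def bl (M : Fin r → IntermediateField ℂ L) (a : Fin r → ℕ) (G : Subgroup (L ≃ₐ[ℂ] L))
    (i : Fin r) : Set (Fin r) :=
  {j | j = i ∨ ∃ g ∈ G, TI M a g i j}

/-- **Representatives of the blocks.** -/
theorem exists_t' {G : Subgroup (L ≃ₐ[ℂ] L)} :
    ∃ (ρ : Fin r → Fin r) (t : Fin r → (L ≃ₐ[ℂ] L)), (∀ i, t i ∈ G) ∧ (∀ i, ρ (ρ i) = ρ i) ∧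
      (∀ i, (ρ i = i ∧ t i = 1) ∨ TI M a (t i) (ρ i) i) ∧
      (∀ i j, ρ i = ρ j ↔ (i = j ∨ ∃ g ∈ G, TI M a g i j)) := by
  classical
  let S : Setoid (Fin r) :=
    { r := fun i j => i = j ∨ ∃ g ∈ G, TI M a g i j
      iseqv :=
        { refl := fun i => Or.inl rfl
          symm := fun {i j} h => by
            rcases h with h | ⟨g, hg, h⟩
            · exact Or.inl h.symm
            · exact Or.inr ⟨g, hg, h.symm⟩
          trans := fun {i j l} h h' => by
            rcases h with h | ⟨g, hg, h⟩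
            · subst h; exact h'
            rcases h' with h' | ⟨g', hg', h'⟩
            · subst h'; exact Or.inr ⟨g, hg, h⟩
            by_cases hil : i = l
            · exact Or.inl hil
            · exact Or.inr ⟨g * g' * g⁻¹, G.mul_mem (G.mul_mem hg hg') (G.inv_mem hg),
                h.conj h' hil⟩ } }
  let ρ : Fin r → Fin r := fun i => (Quotient.mk S i).out
  have hρ : ∀ i, S (ρ i) i := fun i => Quotient.mk_out i
  have hρρ : ∀ i j, ρ i = ρ j ↔ S i j := by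
    intro i j
    constructor
    · intro h
      have h1 := S.symm (hρ i)
      rw [h] at h1
      exact S.trans h1 (hρ j)
    · intro h
      have h1 : Quotient.mk S i = Quotient.mk S j := Quotient.sound h
      change (Quotient.mk S i).out = (Quotient.mk S j).out
      rw [h1]
  have hex : ∀ i, ∃ t ∈ G, (ρ i = i ∧ t = 1) ∨ TI M a t (ρ i) i := by
    intro i
    by_cases h1 : ρ i = i
    · exact ⟨1, G.one_mem, Or.inl ⟨h1, rfl⟩⟩
    · obtain ⟨g, hg, h2⟩ := (hρ i : ρ i = i ∨ ∃ g ∈ G, TI M a g (ρ i) i).resolve_left h1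
      exact ⟨g, hg, Or.inr h2⟩
  choose t ht1 ht2 using hex
  refine ⟨ρ, t, ht1, fun i => ?_, ht2, fun i j => hρρ i j⟩
  rw [hρρ]
  exact hρ i

/-- **Nonvanishing.** -/
theorem nonneg' [Finite G] (h : IsPermuted M a G σ)
    (hS : ∀ i, a i = 1 → ∃ W : M i, IsTranscendenceBasis ℂ (fun _ : Fin 1 => W) ∧
      ∀ g ∈ G, (∀ z ∈ M i, g z ∈ M i) → g (W : L) = W ∧ ∃ ε : ℂ, (ε = 1 ∨ ε = -1) ∧
        ∀ f ∈ Rs W, g (f : L) = algebraMap ℂ L ε * f)
    (hage : ∀ g : G, g ≠ 1 → (∃ w : Place ℂ L, IsDivisorial w (∑ i, a i) ∧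
      Inert w (g : L ≃ₐ[ℂ] L)) → (∃ i j, TI M a (g : L ≃ₐ[ℂ] L) i j) ∨
      1 ≤ age M a (σ g) (fun _ _ => 0) (g : L ≃ₐ[ℂ] L))
    (hbig : ∀ i, a i ≠ 1 → ¬ KodairaNeg ℂ (M i) (a i))
    (hcur : ∀ i, a i = 1 → (bl M a G i).ncard ≤ Module.finrank ℂ (regularForms (M i))) :
    KodTr ℂ (fixedField G) (∑ i, a i) 0 := by
  classical
  obtain ⟨ρ, t, ht, hρρ, hρt, hblk⟩ := exists_t' (M := M) (a := a) (G := G)
  have haρ : ∀ i, a i = 1 → a (ρ i) = 1 := by
    intro i hi
    rcases hρt i with ⟨h1, -⟩ | h1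
    · rw [h1]; exact hi
    · exact h1.1.2.1
  have haρ' : ∀ i, a (ρ i) = 1 → a i = 1 := by
    intro i hi
    rcases hρt i with ⟨h1, -⟩ | h1
    · rwa [h1] at hi
    · exact h1.1.2.2.1
  have hfint : ∀ i, IsOfFinOrder (t i) := by
    intro i
    have h3 : IsOfFinOrder (⟨t i, ht i⟩ : G) := isOfFinOrder_of_finite _
    exact (Submonoid.isOfFinOrder_coe (H := G.toSubmonoid) (x := (⟨t i, ht i⟩ : G))).2 h3
  have hT1 : ∀ i, ∀ z ∈ M (ρ i), t i z ∈ M i := by
    intro i z hz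
    rcases hρt i with ⟨h1, h2⟩ | h1
    · rw [h2]
      rw [h1] at hz
      exact hz
    · exact h1.1.2.2.2.1 z hz
  have hT2 : ∀ i, ∀ z ∈ M i, (t i).symm z ∈ M (ρ i) := by
    intro i z hz
    rcases hρt i with ⟨h1, h2⟩ | h1
    · rw [h2, h1]
      exact hz
    · exact (h1.1.inv (hfint i)).2.2.2.2.1 z hz
  let T : ∀ i, M (ρ i) ≃ₐ[ℂ] M i := fun i => resEquiv (t i) (hT1 i) (hT2 i)
  have hTc : ∀ i (z : M (ρ i)), (T i z : L) = t i (z : L) := fun i z => rfl
  -- coordinates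
  choose y0 hy0 using fun i => Pool.Agent.W636.PG.exists_basis ℂ (M i) (a i) (h.trdeg i)
  have hWex : ∀ i, ∃ W : M i, a i = 1 → IsTranscendenceBasis ℂ (fun _ : Fin 1 => W) ∧
      ∀ g ∈ G, (∀ z ∈ M i, g z ∈ M i) → g (W : L) = W ∧ ∃ ε : ℂ, (ε = 1 ∨ ε = -1) ∧
        ∀ f ∈ Rs W, g (f : L) = algebraMap ℂ L ε * f := by
    intro i
    by_cases hi : a i = 1
    · obtain ⟨W, hW⟩ := hS i hi
      exact ⟨W, fun _ => hW⟩
    · exact ⟨0, fun h => absurd h hi⟩
  choose W hW using hWex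
  have hWc : ∀ i, a i = 1 → ∀ n, n = 1 → IsTranscendenceBasis ℂ (fun _ : Fin n => W i) := by
    intro i hi n hn
    subst hn
    exact (hW i hi).1
  -- forms on the representatives
  have hforms : ∀ i, ∃ (E : Derivation ℂ (M i) (M i)) (F : Fin r → M i), a i = 1 → E (W i) = 1 ∧
      (∀ c, RegF (k := ℂ) (fun _ : Fin (a i) => W i) 1 (F c)) ∧
      LinearIndependent ℂ (fun c : {c : Fin r // ρ c = i} => F c) := by
    intro i
    by_cases hi : a i = 1
    swap
    · exact ⟨0, 0, fun h => absurd h hi⟩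
    obtain ⟨E0, hE0⟩ := Pool.Agent.W636.PG.exists_duals ℂ (M i) 1 _ (hWc i hi 1 rfl)
    have hE : E0 0 (W i) = 1 := by
      have := hE0 0 0
      rwa [if_pos rfl] at this
    have hcard : Fintype.card {c : Fin r // ρ c = i} ≤ Module.finrank ℂ (regularForms (M i)) := by
      refine le_trans ?_ (hcur i hi)
      rw [← Nat.card_eq_fintype_card]
      change Nat.card ↥{c : Fin r | ρ c = i} ≤ _
      rw [Nat.card_coe_set_eq]
      refine Set.ncard_le_ncard (fun c hc => ?_) (Set.toFinite _)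
      have hc' : ρ c = i := hc
      have h1 : ρ i = ρ c := by rw [← hc', hρρ]
      rcases (hblk i c).1 h1 with h2 | ⟨g, hg, h2⟩
      · exact Or.inl h2.symm
      · exact Or.inr ⟨g, hg, h2⟩
    obtain ⟨ω, hω⟩ := exists_indep (V := regularForms (M i)) hcard
    refine ⟨E0 0, fun c => if h : ρ c = i then (ω ⟨c, h⟩ : Derivation ℂ (M i) (M i) →ₗ[M i] M i)
      (E0 0) else 0, fun _ => ⟨hE, fun c => ?_, ?_⟩⟩
    · by_cases hc : ρ c = i
      · simp only [dif_pos hc]
        exact regF_of_form (hWc i hi 1 rfl) hE (ω ⟨c, hc⟩).2 hi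
      · simp only [dif_neg hc]
        exact RegF.zero _ _
    · have h1 := indep_forms (hWc i hi 1 rfl) hE hω
      have h2 : (fun c : {c : Fin r // ρ c = i} => if h : ρ (c : Fin r) = i then
          (ω ⟨c, h⟩ : Derivation ℂ (M i) (M i) →ₗ[M i] M i) (E0 0) else 0) =
          fun s => (ω s : Derivation ℂ (M i) (M i) →ₗ[M i] M i) (E0 0) := by
        funext c
        simp only [dif_pos c.2]
      rw [h2]
      exact h1
  choose E F hEF using hforms
  -- coordinates and coefficients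
  let y : ∀ i, Fin (a i) → M i := fun i => if a i = 1 then fun _ => T i (W (ρ i)) else y0 i
  have hy1 : ∀ i, a i = 1 → y i = fun _ => T i (W (ρ i)) := fun i hi => by simp only [y, if_pos hi]
  have hy2 : ∀ i, a i ≠ 1 → y i = y0 i := fun i hi => by simp only [y, if_neg hi]
  have hy : ∀ i, IsTranscendenceBasis ℂ (y i) := by
    intro i
    by_cases hi : a i = 1
    · rw [hy1 i hi]
      exact (T i).isTranscendenceBasis (hWc (ρ i) (haρ i hi) (a i) hi)
    · rw [hy2 i hi]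
      exact hy0 i
  let C : ∀ i : Cur a, Cur a → M i.1 := fun i c =>
    if ρ c.1 = ρ i.1 then T i.1 (F (ρ i.1) c.1) else 0
  have hC : ∀ i c, RegF (k := ℂ) (y i.1) 1 (C i c) := by
    intro i c
    rw [hy1 i.1 i.2]
    by_cases hc : ρ c.1 = ρ i.1
    · simp only [C, if_pos hc]
      have h1 := (hEF (ρ i.1) (haρ i.1 i.2)).2.1 c.1
      have h2 : RegF (k := ℂ) (fun _ : Fin (a i.1) => W (ρ i.1)) 1 (F (ρ i.1) c.1) := by
        have h3 : a (ρ i.1) = a i.1 := by rw [haρ i.1 i.2, i.2]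
        rw [← h3]
        exact h1
      exact h2.push (T i.1)
    · simp only [C, if_neg hc]
      exact RegF.zero _ _
  -- the other factors
  have hfex : ∀ i, ∃ (m : ℕ) (f : M i), 1 ≤ m ∧ f ≠ 0 ∧ (a i ≠ 1 → RegF (k := ℂ) (y i) m f) := by
    intro i
    by_cases hi : a i = 1
    · exact ⟨1, 1, le_rfl, one_ne_zero, fun h => absurd hi h⟩
    · have h1 := hbig i hi
      unfold KodairaNeg at h1
      push Not at h1
      obtain ⟨m, hm, ω, hω, hreg, D, hD⟩ := h1
      obtain ⟨E1, hE1⟩ := Pool.Agent.W636.PG.exists_duals ℂ (M i) (a i) (y i) (hy i)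
      have hform := fun D => Pool.Agent.W636.PG.form_eq ℂ (M i) (a i) m (y i) (hy i) E1 hE1 ω hω D
      refine ⟨m, ω E1, hm, fun h0 => hD (by rw [hform, h0, mul_zero]), fun _ u hu D hD => ?_⟩
      have h2 : PF (y i) m (ω E1) D = ω D := (hform D).symm
      rw [h2]
      exact hreg u hu D hD
  choose m f0 hm hf0 hfreg using hfex
  let μ : ℕ := ∏ i, m i
  have hμ : 1 ≤ μ := Nat.one_le_iff_ne_zero.2 (Finset.prod_ne_zero_iff.2 fun i _ => by
    have := hm i
    omega)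
  have hμi : ∀ i, ∃ N, μ = m i * N := fun i => Finset.dvd_prod_of_mem _ (Finset.mem_univ i)
  choose N hN using hμi
  let f : ∀ i, M i := fun i => if a i = 1 then 1 else f0 i ^ N i
  have hf1 : ∀ i, a i = 1 → f i = 1 := fun i hi => by simp only [f, if_pos hi]
  have hf : ∀ i, a i ≠ 1 → RegF (k := ℂ) (y i) μ (f i) := by
    intro i hi
    simp only [f, if_neg hi]
    rw [hN i]
    exact (hfreg i hi).pow (N i)
  have hfne : ∀ i, f i ≠ 0 := by
    intro i
    by_cases hi : a i = 1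
    · rw [hf1 i hi]; exact one_ne_zero
    · simp only [f, if_neg hi]
      exact pow_ne_zero _ (hf0 i)
  -- the determinant
  have hdet : (Matrix.of fun i c : Cur a => (C i c : L)).det ≠ 0 := by
    have htri : (Matrix.of fun i c : Cur a => (C i c : L)).BlockTriangular
        (fun i : Cur a => ρ i.1) := by
      intro i c hlt
      rw [Matrix.of_apply]
      simp only [C, if_neg (ne_of_lt hlt)]
      rfl
    rw [htri.det_fintype]
    refine Finset.prod_ne_zero_iff.2 fun b _ => ?_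
    let S : Type := {i : Cur a // ρ i.1 = b}
    rcases isEmpty_or_nonempty S with hS | ⟨⟨s0, hs0⟩⟩
    · rw [Matrix.det_isEmpty]
      exact one_ne_zero
    have hb1 : a b = 1 := by rw [← hs0]; exact haρ _ s0.2
    let φ : S → (M b →ₐ[ℂ] L) := fun s => ((t s.1.1 : L ≃ₐ[ℂ] L) : L →ₐ[ℂ] L).comp (M b).val
    have hφ : ∀ (s : S) x, φ s x ∈ M s.1.1 := by
      intro s x
      apply hT1 s.1.1
      rw [s.2]
      exact x.2
    have h1 := det_ne' φ (fun s => oth M s.1.1) (fun i j hij x => le_oth M (fun h0 => hij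
      (Subtype.ext (Subtype.ext h0))) (hφ j x)) (fun s p β hβ => by
        have h2 := ld_oth h.trdeg h.total h.sup s.1.1 (fun c => (⟨φ s (β c), hφ s _⟩ : M s.1.1))
          (by
            let ψ : M b →ₐ[ℂ] M s.1.1 := (φ s).codRestrict (M s.1.1).toSubalgebra (hφ s)
            have h3 := hβ.map' ψ.toLinearMap (LinearMap.ker_eq_bot.2 ψ.injective)
            exact h3)
        exact h2) (fun s => F b s.1.1) (by
        have h2 := (hEF b hb1).2.2
        exact h2.comp (fun s : S => (⟨s.1.1, s.2⟩ : {c : Fin r // ρ c = b})) (fun s s' hss => by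
          have h3 : s.1.1 = s'.1.1 :=
            congrArg (fun z : {c : Fin r // ρ c = b} => (z : Fin r)) hss
          exact Subtype.ext (Subtype.ext h3)))
    have h2 : (Matrix.of fun i c : Cur a => (C i c : L)).toSquareBlock (fun i : Cur a => ρ i.1) b =
        Matrix.of fun (i : S) (j : S) => φ i (F b j.1.1) := by
      ext i j
      change ((C i.1 j.1 : M i.1.1) : L) = t i.1.1 (F b j.1.1 : L)
      have hi : ρ i.1.1 = b := i.2
      have hj : ρ j.1.1 = b := j.2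
      have h3 : C i.1 j.1 = T i.1.1 (F (ρ i.1.1) j.1.1) := by
        simp only [C]
        rw [if_pos (hj.trans hi.symm)]
      rw [h3, hTc, hi]
    rw [h2]
    exact h1
  -- the group
  refine kod_form' h hμ hy hC hf1 hf hfne hdet ?_
  intro g hg1 hgw
  rcases hage g hg1 hgw with ⟨i, j, hij⟩ | h1
  swap
  · exact Or.inl h1
  right
  have hρij : ρ i = ρ j := (hblk i j).2 (Or.inr ⟨g, g.2, hij⟩)
  have hord : orderOf (g : L ≃ₐ[ℂ] L) = 2 := by
    refine orderOf_eq_prime (by ext z; exact hij.2 z) fun h0 => hg1 (Subtype.ext h0)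
  have hai := hij.1.2.1
  have haj := hij.1.2.2.1
  -- the relative twist
  have htinv : ∀ i z, t i (t i z) = z := by
    intro i z
    rcases hρt i with ⟨-, h1⟩ | h1
    · rw [h1]; rfl
    · exact h1.2 z
  let s : L ≃ₐ[ℂ] L := t j * g * t i
  have hsG : s ∈ G := G.mul_mem (G.mul_mem (ht j) g.2) (ht i)
  have hTj : ∀ z ∈ M j, t j z ∈ M (ρ j) := by
    intro z hz
    rcases hρt j with ⟨h1, h2⟩ | h1
    · rw [h2, h1]; exact hz
    · exact h1.1.2.2.2.2.1 z hz
  have hsM : ∀ z ∈ M (ρ i), s z ∈ M (ρ i) := by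
    intro z hz
    rw [hρij]
    exact hTj _ (hij.1.2.2.2.1 _ (hT1 i z hz))
  have hgs : ∀ z, (g : L ≃ₐ[ℂ] L) (t i z) = t j (s z) := by
    intro z
    change _ = t j (t j ((g : L ≃ₐ[ℂ] L) (t i z)))
    rw [htinv]
  obtain ⟨hsW, ε, hε, hsf⟩ := (hW (ρ i) (haρ i hai)).2 s hsG hsM
  have hWρ : ∀ i j, ρ i = ρ j → ((W (ρ i) : M (ρ i)) : L) = W (ρ j) := by
    intro i j h
    rw [h]
  have hFc : ∀ i j c, ρ i = ρ j → ((F (ρ i) c : M (ρ i)) : L) = F (ρ j) c := by
    intro i j c h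
    rw [h]
  have hgy : ∀ q q', (g : L ≃ₐ[ℂ] L) (y i q : L) = y j q' := by
    intro q q'
    rw [hy1 i hai, hy1 j haj]
    change (g : L ≃ₐ[ℂ] L) (t i (W (ρ i) : L)) = t j (W (ρ j) : L)
    rw [hgs, hsW, hWρ i j hρij]
  have hgC : ∀ c, (g : L ≃ₐ[ℂ] L) (C ⟨i, hai⟩ c : L) = algebraMap ℂ L ε * C ⟨j, haj⟩ c := by
    intro c
    by_cases hc : ρ c.1 = ρ i
    · have hc' : ρ c.1 = ρ j := hc.trans hρij
      simp only [C, if_pos hc, if_pos hc']
      change (g : L ≃ₐ[ℂ] L) (t i (F (ρ i) c.1 : L)) = algebraMap ℂ L ε * t j (F (ρ j) c.1 : L)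
      have hFR : F (ρ i) c.1 ∈ Rs (W (ρ i)) := by
        have h1 := (hEF (ρ i) (haρ i hai)).2.1 c.1
        have h2 : (fun _ : Fin (a (ρ i)) => W (ρ i)) = fun _ => W (ρ i) := rfl
        have h3 : ∀ n, n = 1 → RegF (k := ℂ) (fun _ : Fin n => W (ρ i)) 1 (F (ρ i) c.1) →
            RegF (k := ℂ) (fun _ : Fin 1 => W (ρ i)) 1 (F (ρ i) c.1) := by
          intro n hn h
          subst hn
          exact h
        exact h3 _ (haρ i hai) h1
      rw [hgs, hsf _ hFR, map_mul, AlgEquiv.commutes, hFc i j c.1 hρij]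
    · have hc' : ¬ ρ c.1 = ρ j := fun h => hc (h.trans hρij.symm)
      simp only [C, if_neg hc, if_neg hc']
      change (g : L ≃ₐ[ℂ] L) 0 = algebraMap ℂ L ε * 0
      rw [map_zero, mul_zero]
  have hε2 : (algebraMap ℂ L ε) * algebraMap ℂ L ε = 1 := by
    rw [← map_mul]
    rcases hε with h | h <;> rw [h] <;> norm_num
  refine ⟨hord, i, j, hai, haj, hij.1, hgy, fun q q' => ?_, ε, hε, hgC, fun c => ?_⟩
  · rw [← hgy q' q, hij.2]
  · have h1 := congrArg (fun z => algebraMap ℂ L ε * (g : L ≃ₐ[ℂ] L) z) (hgC c)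
    simp only [map_mul, hij.2, AlgEquiv.commutes] at h1
    rw [← mul_assoc, hε2, one_mul] at h1
    exact h1.symm

end

end Pool.Agent.H908.TA
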