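import Pool.Agent.H908.TA7
import Pool.Agent.H908.SC4

/-! Uniruledness: blocks which are larger than the genus, and reflections of one factor with rational
quotient. -/

set_option autoImplicit false
set_option linter.overlappingInstances false
set_option linter.unusedSectionVars false
set_option linter.unusedVariables false
set_option linter.style.haveILetI false

open FF IntermediateField Pool.Agent.W619.PQ Pool.Agent.W619.PL Pool.Agent.W619.TW
  Pool.Agent.W603.LV Pool.Agent.W619.Y Pool.Agent.W672.PG Pool.Agent.W824.PG Pool.Agent.Y174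
  Pool.Agent.K1H17.IS Pool.Agent.K1H6.PQ

namespace Pool.Agent.H908.TA

open Pool.Agent.H908.SB
open Pool.Agent.Helper11K9.OD (regularForms)
open Pool.Agent.Helper11K9.PC (RR)

section

variable {L : Type} [Field L] [Algebra ℂ L]
variable {r : ℕ} {M : Fin r → IntermediateField ℂ L} {a : Fin r → ℕ}
  {G : Subgroup (L ≃ₐ[ℂ] L)} {σ : G →* Equiv.Perm (Fin r)}

/-- Blocks of curves which are larger than the genus. -/
theorem uniruled_blk' [Finite G] (h : IsPermuted M a G σ) {i : Fin r}
    (hi : a i = 1) (hg : Module.finrank ℂ (regularForms (M i)) < (bl M a G i).ncard) :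
    IsUniruled ℂ (fixedField G) (∑ i, a i) := by
  classical
  have hff : IsFF ℂ (M i) := ⟨h.ess i, by rw [h.trdeg, hi, Nat.cast_one]⟩
  obtain ⟨D, hD⟩ : ∃ D : Derivation ℂ (M i) (M i), D ≠ 0 := by
    obtain ⟨x, hx⟩ := Pool.Agent.W636.PG.exists_basis ℂ (M i) (a i) (h.trdeg i)
    obtain ⟨E, hE⟩ := Pool.Agent.W636.PG.exists_duals ℂ (M i) (a i) x hx
    let q : Fin (a i) := ⟨0, by omega⟩
    refine ⟨E q, fun h0 => ?_⟩
    have := hE q q
    rw [h0, if_pos rfl] at this
    exact zero_ne_one this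
  have hex : ∀ j, ∃ t ∈ G, j ∈ bl M a G i → (j = i ∧ t = 1) ∨ TI M a t i j := by
    intro j
    by_cases hj : j ∈ bl M a G i
    · rcases hj with hj | ⟨g, hg, hj⟩
      · exact ⟨1, G.one_mem, fun _ => Or.inl ⟨hj, rfl⟩⟩
      · exact ⟨g, hg, fun _ => Or.inr hj⟩
    · exact ⟨1, G.one_mem, fun h => absurd h hj⟩
  choose t ht ht2 using hex
  let B : Finset (Fin r) := (bl M a G i).toFinset
  have hBm : ∀ j, j ∈ B ↔ j ∈ bl M a G i := fun j => Set.mem_toFinset
  refine Pool.Agent.H908.SA.uniruled_of_block' (F := M) h rfl i B (fun j hj => ?_)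
    (fun j => ((t j : L ≃ₐ[ℂ] L) : L →ₐ[ℂ] L).comp (M i).val) (fun j hj z => ?_)
    (fun j hj l hl hjl => ?_) hD ?_
  · rcases (hBm j).1 hj with h1 | ⟨g, -, h1⟩
    · rw [h1]; exact hi
    · exact h1.1.2.2.1
  · rcases ht2 j ((hBm j).1 hj) with ⟨h1, h2⟩ | h1
    · subst h1
      constructor
      · intro hz
        refine ⟨⟨z, hz⟩, ?_⟩
        change t j z = z
        rw [h2]; rfl
      · rintro ⟨f, rfl⟩
        change t j (f : L) ∈ M j
        rw [h2]; exact f.2
    · constructor
      · intro hz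
        refine ⟨⟨t j z, h1.1.2.2.2.2.1 z hz⟩, ?_⟩
        change t j (t j z) = z
        exact h1.2 z
      · rintro ⟨f, rfl⟩
        exact h1.1.2.2.2.1 _ f.2
  · have key : ∀ (z : L), ∀ j l, TI M a (t j) i j → TI M a (t l) i l → j ≠ l → z ∈ M i →
        (t j * t l * (t j)⁻¹) (t j z) = t l z := by
      intro z j l h1 h2 hjl hz
      change t j (t l ((t j)⁻¹ (t j z))) = t l z
      have e1 : (t j)⁻¹ (t j z) = z := (t j).symm_apply_apply z
      rw [e1, h1.1.2.2.2.2.2 l h2.1.1.symm hjl.symm _ (h2.1.2.2.2.1 z hz)]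
    have key2 : ∀ (z : L), ∀ j l, TI M a (t j) i j → TI M a (t l) i l → j ≠ l → z ∈ M i →
        (t j * t l * (t j)⁻¹) (t l z) = t j z := by
      intro z j l h1 h2 hjl hz
      change t j (t l ((t j)⁻¹ (t l z))) = t j z
      have e1 : (t j)⁻¹ (t l z) = t l z :=
        (h1.1.inv (finord (ht j))).2.2.2.2.2 l h2.1.1.symm hjl.symm _ (h2.1.2.2.2.1 z hz)
      rw [e1, h2.2]
    rcases ht2 j ((hBm j).1 hj) with ⟨h1, h2⟩ | h1
    · rcases ht2 l ((hBm l).1 hl) with ⟨h3, h4⟩ | h3
      · exact absurd (h1.trans h3.symm) hjl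
      · refine ⟨t l, ht l, fun f => ?_, fun f => ?_, fun m hm1 hm2 z hz => ?_⟩
        · change t l (t j (f : L)) = t l (f : L)
          rw [h2]; rfl
        · change t l (t l (f : L)) = t j (f : L)
          rw [h2, h3.2]; rfl
        · exact h3.1.2.2.2.2.2 m (by rw [← h1]; exact hm1) hm2 z hz
    · rcases ht2 l ((hBm l).1 hl) with ⟨h3, h4⟩ | h3
      · refine ⟨t j, ht j, fun f => ?_, fun f => ?_, fun m hm1 hm2 z hz => ?_⟩
        · change t j (t j (f : L)) = t l (f : L)
          rw [h4, h1.2]; rfl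
        · change t j (t l (f : L)) = t j (f : L)
          rw [h4]; rfl
        · exact h1.1.2.2.2.2.2 m (by rw [← h3]; exact hm2) hm1 z hz
      · refine ⟨t j * t l * (t j)⁻¹, G.mul_mem (G.mul_mem (ht j) (ht l)) (G.inv_mem (ht j)),
          fun f => key _ j l h1 h3 hjl f.2, fun f => key2 _ j l h1 h3 hjl f.2,
          fun m hm1 hm2 z hz => ?_⟩
        have h5 := Tr.conj (Tr.symm h1.1) h3.1 hjl (finord (ht j))
        exact h5.2.2.2.2.2 m hm1 hm2 z hz
  · refine lt_of_le_of_lt (rr_le hD) ?_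
    have h1 : B.card = (bl M a G i).ncard := (Set.ncard_eq_toFinset_card' _).symm
    rw [h1]
    exact hg

/-- **Reflections of one factor with rational quotient.** -/
theorem uniruled_refl [Finite G] (h : IsPermuted M a G σ) {i : Fin r} (hi : a i = 1)
    {g : L ≃ₐ[ℂ] L} (hg : g ∈ G) (hgM : ∀ z ∈ M i, g (g z) = z)
    (hgo : ∀ l, l ≠ i → ∀ z ∈ M l, g z = z) (hg1 : ∃ z ∈ M i, g z ∈ M i ∧ g z ≠ z)
    (t : M i) (ht : ∀ z : M i, g (z : L) = z ↔ z ∈ ℂ⟮t⟯) (hgi : ∀ z ∈ M i, g z ∈ M i) :
    IsUniruled ℂ (fixedField G) (∑ i, a i) := by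
  classical
  haveI : CharZero L := charZero_of_injective_algebraMap (algebraMap ℂ L).injective
  obtain ⟨z0, hz0, hgz0, hne⟩ := hg1
  obtain ⟨x, hx⟩ : ∃ x, x = z0 - g z0 := ⟨_, rfl⟩
  have hxM : x ∈ M i := hx ▸ (M i).sub_mem hz0 hgz0
  have hx0 : x ≠ 0 := by rw [hx]; exact sub_ne_zero.2 (Ne.symm hne)
  have hgx : g x = -x := by rw [hx, map_sub, hgM _ hz0]; ring
  obtain ⟨N, hN⟩ : ∃ N, N = oth M i := ⟨_, rfl⟩
  obtain ⟨hNtr, hNsup⟩ := oth_trdeg h.trdeg h.total h.sup i
  rw [← hN] at hNtr hNsup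
  have hgN : ∀ z ∈ N, g z = z := by
    intro z hz
    have hle : N ≤ fixedField (Subgroup.zpowers g) := by
      rw [hN]
      refine iSup_le fun j => ?_
      by_cases hj : j = i
      · rw [if_pos hj]; exact bot_le
      · rw [if_neg hj]
        rintro z hz ⟨g', hg'⟩
        change g' z = z
        have h1 : Subgroup.zpowers g ≤ MulAction.stabilizer (L ≃ₐ[ℂ] L) z :=
          (Subgroup.zpowers_le).2 (hgo j hj z hz)
        exact h1 hg'
    exact hle hz ⟨g, Subgroup.mem_zpowers g⟩
  let Nt : IntermediateField N L := N⟮(t : L)⟯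
  have hNNt : ∀ z ∈ N, z ∈ Nt := fun z hz => Nt.algebraMap_mem ⟨z, hz⟩
  have hgt : g (t : L) = t := (ht t).2 (mem_adjoin_simple_self ℂ t)
  have hgNt : ∀ z ∈ Nt, g z = z := by
    intro z hz
    let E : IntermediateField N L :=
      { carrier := {z | g z = z}
        mul_mem' := fun {a b} ha hb => by
          change g (a * b) = a * b
          rw [map_mul, ha, hb]
        one_mem' := map_one g
        add_mem' := fun {a b} ha hb => by
          change g (a + b) = a + b
          rw [map_add, ha, hb]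
        zero_mem' := map_zero g
        algebraMap_mem' := fun c => hgN _ c.2
        inv_mem' := fun a ha => by
          change g a⁻¹ = a⁻¹
          have ha' : g a = a := ha
          rw [map_inv₀, ha'] }
    have h1 : Nt ≤ E := by
      rw [IntermediateField.adjoin_simple_le_iff]
      exact hgt
    exact h1 hz
  have hCt : ∀ z : M i, z ∈ ℂ⟮t⟯ → (z : L) ∈ Nt := by
    intro z hz
    let E : IntermediateField ℂ (M i) := (Nt.restrictScalars ℂ).comap (M i).val
    have h1 : ℂ⟮t⟯ ≤ E := by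
      rw [IntermediateField.adjoin_simple_le_iff]
      exact mem_adjoin_simple_self N (t : L)
    exact h1 hz
  have hx2 : x * x ∈ Nt := by
    have h1 : g (((⟨x, hxM⟩ : M i) * ⟨x, hxM⟩ : M i) : L) = ((⟨x, hxM⟩ * ⟨x, hxM⟩ : M i) : L) := by
      change g (x * x) = x * x
      rw [map_mul, hgx]; ring
    exact hCt _ ((ht _).1 h1)
  -- every element is `a + b x`
  let A : IntermediateField ℂ L :=
    { carrier := {z | ∃ a ∈ Nt, ∃ b ∈ Nt, z = a + b * x}
      mul_mem' := by
        rintro _ _ ⟨a, ha, b, hb, rfl⟩ ⟨c, hc, d, hd, rfl⟩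
        exact ⟨a * c + b * d * (x * x), Nt.add_mem (Nt.mul_mem ha hc)
          (Nt.mul_mem (Nt.mul_mem hb hd) hx2), a * d + b * c,
          Nt.add_mem (Nt.mul_mem ha hd) (Nt.mul_mem hb hc), by ring⟩
      one_mem' := ⟨1, Nt.one_mem, 0, Nt.zero_mem, by ring⟩
      add_mem' := by
        rintro _ _ ⟨a, ha, b, hb, rfl⟩ ⟨c, hc, d, hd, rfl⟩
        exact ⟨a + c, Nt.add_mem ha hc, b + d, Nt.add_mem hb hd, by ring⟩
      zero_mem' := ⟨0, Nt.zero_mem, 0, Nt.zero_mem, by ring⟩
      algebraMap_mem' := fun c => ⟨algebraMap ℂ L c, hNNt _ (N.algebraMap_mem c), 0, Nt.zero_mem,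
        by ring⟩
      inv_mem' := by
        rintro _ ⟨a, ha, b, hb, rfl⟩
        by_cases h0 : a + b * x = 0
        · rw [h0, inv_zero]
          exact ⟨0, Nt.zero_mem, 0, Nt.zero_mem, by ring⟩
        · have h1 : a - b * x ≠ 0 := by
            intro h2
            apply h0
            have h3 : g (a + b * x) = a - b * x := by
              rw [map_add, map_mul, hgNt a ha, hgNt b hb, hgx]; ring
            rw [h2] at h3
            exact (map_eq_zero_iff g g.injective).1 h3
          have h4 : a * a - b * b * (x * x) ∈ Nt := Nt.sub_mem (Nt.mul_mem ha ha)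
            (Nt.mul_mem (Nt.mul_mem hb hb) hx2)
          have h5 : (a + b * x) * (a - b * x) = a * a - b * b * (x * x) := by ring
          have h6 : a * a - b * b * (x * x) ≠ 0 := by rw [← h5]; exact mul_ne_zero h0 h1
          refine ⟨a / (a * a - b * b * (x * x)), Nt.div_mem ha h4,
            -b / (a * a - b * b * (x * x)), Nt.div_mem (Nt.neg_mem hb) h4, ?_⟩
          rw [div_mul_eq_mul_div, ← add_div, inv_eq_iff_eq_inv, inv_div, eq_div_iff]
          · rw [← h5]; ring
          · intro h7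
            apply h1
            rw [← h7]; ring }
  have hMA : M i ≤ A := by
    intro z hz
    have h1 : (z + g z) * algebraMap ℂ L 2⁻¹ ∈ Nt := by
      have h2 : g (((⟨z, hz⟩ + ⟨g z, hgi z hz⟩ : M i) : L)) =
          ((⟨z, hz⟩ + ⟨g z, hgi z hz⟩ : M i) : L) := by
        change g (z + g z) = z + g z
        rw [map_add, hgM z hz, add_comm]
      exact Nt.mul_mem (hCt _ ((ht _).1 h2)) (hNNt _ (N.algebraMap_mem _))
    have h3 : (z - g z) / x * algebraMap ℂ L 2⁻¹ ∈ Nt := by
      have h2 : g (((⟨z, hz⟩ - ⟨g z, hgi z hz⟩) / ⟨x, hxM⟩ : M i) : L) =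
          (((⟨z, hz⟩ - ⟨g z, hgi z hz⟩) / ⟨x, hxM⟩ : M i) : L) := by
        change g ((z - g z) / x) = (z - g z) / x
        rw [map_div₀, map_sub, hgM z hz, hgx, div_neg, ← neg_div]
        congr 1
        ring
      exact Nt.mul_mem (hCt _ ((ht _).1 h2)) (hNNt _ (N.algebraMap_mem _))
    refine ⟨_, h1, _, h3, ?_⟩
    have h8 : (algebraMap ℂ L 2⁻¹) * 2 = 1 := by
      rw [← map_ofNat (algebraMap ℂ L) 2, ← map_mul]; norm_num
    have h9 : (z - g z) / x * algebraMap ℂ L 2⁻¹ * x = (z - g z) * algebraMap ℂ L 2⁻¹ := by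
      rw [mul_right_comm, div_mul_cancel₀ _ hx0]
    rw [h9]
    linear_combination (-z) * h8
  have hAtop : A = ⊤ := by
    rw [eq_top_iff, ← hNsup]
    exact sup_le (fun z hz => ⟨z, hNNt z hz, 0, Nt.zero_mem, by ring⟩) hMA
  have hfix : ∀ z ∈ fixedField G, z ∈ Nt := by
    intro z hz
    have h1 : z ∈ A := by rw [hAtop]; trivial
    obtain ⟨a, ha, b, hb, rfl⟩ := h1
    have h2 : g (a + b * x) = a + b * x := hz ⟨g, hg⟩
    rw [map_add, map_mul, hgNt a ha, hgNt b hb, hgx] at h2
    have h3 : b * x = 0 := by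
      have h4 : (2 : L) * (b * x) = 0 := by linear_combination -h2
      exact (mul_eq_zero.1 h4).resolve_left two_ne_zero
    rw [h3, add_zero]
    exact ha
  have hsum : ∑ j ∈ Finset.univ.erase i, a j + 1 = ∑ j, a j := by
    rw [← Finset.sum_erase_add _ _ (Finset.mem_univ i), hi]
  have htr : Transcendental N (t : L) := by
    intro halg
    have h1 : Algebra.IsAlgebraic N Nt :=
      IntermediateField.isAlgebraic_adjoin_simple halg.isIntegral
    have h2 : Algebra.IsAlgebraic Nt L := by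
      constructor
      intro z
      have h3 : z ∈ A := by rw [hAtop]; trivial
      obtain ⟨b, hb, c, hc, rfl⟩ := h3
      have h4 : IsAlgebraic Nt x := by
        refine IsAlgebraic.of_pow (n := 2) (by norm_num) ?_
        rw [sq]
        exact isAlgebraic_algebraMap (⟨x * x, hx2⟩ : Nt)
      exact (isAlgebraic_algebraMap (⟨b, hb⟩ : Nt)).add
        ((isAlgebraic_algebraMap (⟨c, hc⟩ : Nt)).mul h4)
    have h3 : Algebra.IsAlgebraic N L := Algebra.IsAlgebraic.trans N Nt L
    have h4 := trdeg_add_eq ℂ N (A := L)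
    have h5 : Algebra.trdeg N L = 0 := trdeg_eq_zero
    rw [h5, add_zero, hNtr, h.total, ← hsum] at h4
    have h6 := Nat.cast_injective h4
    omega
  refine ⟨N, inferInstance, inferInstance, ?_, ?_, ?_⟩
  · rw [essFiniteType_iff, hN]
    refine IntermediateField.fg_iSup fun j => ?_
    by_cases hj : j = i
    · rw [if_pos hj]
      exact IntermediateField.fg_bot
    · rw [if_neg hj]
      exact essFiniteType_iff.1 (h.ess j)
  · rw [hNtr, ← hsum]
    push_cast
    rfl
  · have e := (RatFunc.algEquivOfTranscendental (t : L) htr).symm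
    let e1 : fixedField G →ₐ[ℂ] Nt :=
      { toFun := fun z => ⟨z, hfix z z.2⟩
        map_one' := rfl
        map_mul' := fun _ _ => rfl
        map_zero' := rfl
        map_add' := fun _ _ => rfl
        commutes' := fun _ => rfl }
    exact ⟨((e : Nt →ₐ[N] RatFunc N).restrictScalars ℂ).comp e1⟩

end

end Pool.Agent.H908.TA
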