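import Pool.Agent.H908.TA8

/-! Quotients of products of general curves by arbitrary groups of birational automorphisms. -/

set_option autoImplicit false
set_option linter.overlappingInstances false
set_option linter.unusedSectionVars false
set_option linter.unusedVariables false
set_option linter.style.haveILetI false

open FF IntermediateField Pool.Agent.W619.PQ Pool.Agent.W619.PL Pool.Agent.W619.TW
  Pool.Agent.W603.LV Pool.Agent.W619.Y Pool.Agent.W672.PG Pool.Agent.W824.PG Pool.Agent.Y174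
  Pool.Agent.K1H17.IS Pool.Agent.K1H6.PQ

namespace Pool.Agent.H908.TA

open Pool.Agent.H908.SB
open Pool.Agent.Helper11K9.OD (regularForms)
open Pool.Agent.Helper11K9.PC (RR)

section

variable {L : Type} [Field L] [Algebra ℂ L]
variable {r : ℕ} {M : Fin r → IntermediateField ℂ L} {a : Fin r → ℕ}
  {G : Subgroup (L ≃ₐ[ℂ] L)} {σ : G →* Equiv.Perm (Fin r)}

/-- The automorphism of a factor. -/
theorem exists_res (N : IntermediateField ℂ L) (g : L ≃ₐ[ℂ] L) (h1 : ∀ z ∈ N, g z ∈ N)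
    (h2 : ∀ z ∈ N, g⁻¹ z ∈ N) : ∃ s : N ≃ₐ[ℂ] N, ∀ z : N, (s z : L) = g (z : L) :=
  ⟨resEquiv g (M := N) (M' := N) h1 h2, fun _ => rfl⟩

/-- Elements of the group which map a factor to itself. -/
theorem stab_cases (h : IsPermuted M a G σ)
    (hA : ∀ i (s : M i ≃ₐ[ℂ] M i), s ≠ 1 → IsHyp s) (g : G) {i : Fin r} (hi : σ g i = i) :
    (∀ z ∈ M i, (g : L ≃ₐ[ℂ] L) z = z) ∨ ((∃ z ∈ M i, (g : L ≃ₐ[ℂ] L) z ≠ z) ∧
      (∀ z ∈ M i, (g : L ≃ₐ[ℂ] L) ((g : L ≃ₐ[ℂ] L) z) = z) ∧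
      ∃ t : M i, ∀ z : M i, (g : L ≃ₐ[ℂ] L) (z : L) = z ↔ z ∈ ℂ⟮t⟯) := by
  have h1 : ∀ z ∈ M i, (g : L ≃ₐ[ℂ] L) z ∈ M i := by
    intro z hz
    have := h.perm g i z hz
    rwa [hi] at this
  have h2 : ∀ z ∈ M i, (g : L ≃ₐ[ℂ] L)⁻¹ z ∈ M i := by
    intro z hz
    have := h.perm g⁻¹ i z hz
    have h3 : σ g⁻¹ i = i := by
      rw [map_inv, Equiv.Perm.inv_eq_iff_eq, hi]
    rwa [h3] at this
  obtain ⟨s, hs⟩ := exists_res (M i) g h1 h2
  by_cases hs1 : s = 1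
  · left
    intro z hz
    have := hs ⟨z, hz⟩
    rw [hs1] at this
    exact this.symm
  · right
    obtain ⟨h3, h4, t, ht⟩ := hA i s hs1
    refine ⟨?_, fun z hz => ?_, t, fun z => ?_⟩
    · by_contra hcon
      push Not at hcon
      apply h3
      refine AlgEquiv.ext fun z => Subtype.ext ?_
      rw [hs]
      exact hcon z z.2
    · have h5 := congrArg Subtype.val (h4 ⟨z, hz⟩)
      rw [hs, hs] at h5
      exact h5
    · rw [← ht z, ← hs z]
      exact ⟨fun h => Subtype.ext h, fun h => congrArg Subtype.val h⟩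

theorem wgt_half {N : IntermediateField ℂ L} {g : L ≃ₐ[ℂ] L} (hfin : IsOfFinOrder g)
    (h1 : ∃ z ∈ N, g z ≠ z) (h2 : ∀ z ∈ N, g (g z) = z) : wgt N g 0 = 1 / 2 := by
  have h3 := ordOn_spec N hfin
  have h4 : Pool.Agent.K1H6.PQ.ordOn N g ≠ 1 := by
    intro h5
    rw [h5, pow_one] at h3
    obtain ⟨z, hz, hz'⟩ := h1
    exact hz' (h3.2 z hz)
  have h5 : Pool.Agent.K1H6.PQ.ordOn N g ≤ 2 := Nat.sInf_le ⟨two_pos, fun z hz => by
    rw [pow_two]
    exact h2 z hz⟩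
  have h6 : Pool.Agent.K1H6.PQ.ordOn N g = 2 := by omega
  unfold wgt
  rw [if_neg h4, h6]
  norm_num

/-- **The ages.** -/
theorem age_cases [Finite G] (h : IsPermuted M (fun _ => 1) G σ)
    (hA : ∀ i (s : M i ≃ₐ[ℂ] M i), s ≠ 1 → IsHyp s) (g : G) (hg : g ≠ 1)
    (hrefl : ¬ ∃ i, (∀ z ∈ M i, (g : L ≃ₐ[ℂ] L) z ∈ M i) ∧
      ∀ l, l ≠ i → ∀ z ∈ M l, (g : L ≃ₐ[ℂ] L) z = z) :
    (∃ i j, TI M (fun _ => 1) (g : L ≃ₐ[ℂ] L) i j) ∨
      1 ≤ age M (fun _ => 1) (σ g) (fun _ _ => 0) (g : L ≃ₐ[ℂ] L) := by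
  classical
  have hfin : IsOfFinOrder (g : L ≃ₐ[ℂ] L) := finord g.2
  set π := σ g with hπ
  let T : Fin r → ℝ := fun i => (1 / (Function.minimalPeriod π i : ℝ)) *
    (((fun _ => 1 : Fin r → ℕ) i : ℝ) * ((Function.minimalPeriod π i : ℝ) - 1) / 2 +
      wgt (M i) ((g : L ≃ₐ[ℂ] L) ^ Function.minimalPeriod π i) 0)
  have hage : age M (fun _ => 1) π (fun _ _ => 0) (g : L ≃ₐ[ℂ] L) = ∑ i, T i := rfl
  have hT0 : ∀ i, 0 ≤ T i := by
    intro i
    have h1 := perm_term_nonneg (fun _ => 1 : Fin r → ℕ) π i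
    have h2 : 0 ≤ (1 / (Function.minimalPeriod π i : ℝ)) *
        wgt (M i) ((g : L ≃ₐ[ℂ] L) ^ Function.minimalPeriod π i) 0 :=
      mul_nonneg (by positivity) (wgt_nonneg _ _ _)
    have h3 : T i = (1 / (Function.minimalPeriod π i : ℝ)) *
        (((fun _ => 1 : Fin r → ℕ) i : ℝ) * ((Function.minimalPeriod π i : ℝ) - 1) / 2) +
        (1 / (Function.minimalPeriod π i : ℝ)) *
        wgt (M i) ((g : L ≃ₐ[ℂ] L) ^ Function.minimalPeriod π i) 0 := mul_add _ _ _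
    rw [h3]
    exact add_nonneg h1 h2
  have hsub : ∀ S : Finset (Fin r), ∑ i ∈ S, T i ≤ ∑ i, T i := fun S =>
    Finset.sum_le_sum_of_subset_of_nonneg (Finset.subset_univ S) fun i _ _ => hT0 i
  -- fixed factors on which `g` is not trivial
  have hfixed : ∀ i, π i = i → (∃ z ∈ M i, (g : L ≃ₐ[ℂ] L) z ≠ z) → T i = 1 / 2 := by
    intro i hi hz
    have h1 : Function.minimalPeriod π i = 1 := Function.minimalPeriod_eq_one_iff_isFixedPt.2 hi
    have h2 : T i = (1 / ((1 : ℕ) : ℝ)) * (((fun _ => 1 : Fin r → ℕ) i : ℝ) * (((1 : ℕ) : ℝ) - 1) / 2 +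
        wgt (M i) ((g : L ≃ₐ[ℂ] L) ^ 1) 0) := by
      simp only [T]
      rw [h1]
    rcases stab_cases h hA g hi with h3 | ⟨-, h3, -⟩
    · obtain ⟨z, hz1, hz2⟩ := hz
      exact absurd (h3 z hz1) hz2
    · rw [h2, pow_one, wgt_half hfin hz h3]
      norm_num
  by_cases hex : ∃ i, π i ≠ i
  · obtain ⟨i, hi⟩ := hex
    by_cases hlt : permAge (fun _ => 1) π < 1
    swap
    · right
      push Not at hlt
      rw [age_eq]
      have := wsum_nonneg M π (fun _ _ => 0) (g : L ≃ₐ[ℂ] L)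
      linarith
    obtain ⟨-, hππ, hoth⟩ := perm_cases (fun _ => 1 : Fin r → ℕ) π (fun _ => rfl) hlt hi le_rfl
    have hoth' : ∀ m, m ≠ i → m ≠ π i → π m = m := fun m h1 h2 => hoth m h1 h2 le_rfl
    have hmp : ∀ j, π j ≠ j → π (π j) = j → Function.minimalPeriod π j = 2 := by
      intro j h1 h2
      have h3 : Function.minimalPeriod π j ∣ 2 := by
        apply Function.IsPeriodicPt.minimalPeriod_dvd
        exact h2
      rcases (Nat.dvd_prime Nat.prime_two).1 h3 with h4 | h4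
      · exact absurd (Function.minimalPeriod_eq_one_iff_isFixedPt.1 h4) h1
      · exact h4
    have hTm : ∀ j, π j ≠ j → π (π j) = j →
        T j = 1 / 4 + 1 / 2 * wgt (M j) ((g : L ≃ₐ[ℂ] L) ^ 2) 0 := by
      intro j h1 h2
      simp only [T]
      rw [hmp j h1 h2]
      push_cast
      ring
    have hπi : π (π i) ≠ π i := fun h0 => hi (π.injective h0)
    have hπππ : π (π (π i)) = π i := by rw [hππ]
    by_cases hm : ∃ m, m ≠ i ∧ m ≠ π i ∧ ∃ z ∈ M m, (g : L ≃ₐ[ℂ] L) z ≠ z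
    · obtain ⟨m, hm1, hm2, hm3⟩ := hm
      right
      have h1 := hfixed m (hoth' m hm1 hm2) hm3
      have h2 := hTm i hi hππ
      have h3 := hTm (π i) hπi hπππ
      have h4 := wgt_nonneg (M i) ((g : L ≃ₐ[ℂ] L) ^ 2) 0
      have h5 := wgt_nonneg (M (π i)) ((g : L ≃ₐ[ℂ] L) ^ 2) 0
      have h6 := hsub {i, π i, m}
      rw [Finset.sum_insert, Finset.sum_insert, Finset.sum_singleton] at h6
      · rw [hage]; linarith
      · rw [Finset.mem_singleton]; exact fun h0 => hm2 h0.symm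
      · rw [Finset.mem_insert, Finset.mem_singleton, not_or]
        exact ⟨fun h0 => hi h0.symm, fun h0 => hm1 h0.symm⟩
    push Not at hm
    by_cases hsq : ∀ z ∈ M i, (g : L ≃ₐ[ℂ] L) ((g : L ≃ₐ[ℂ] L) z) = z
    · left
      have hmap : ∀ z ∈ M i, (g : L ≃ₐ[ℂ] L) z ∈ M (π i) := h.perm g i
      have hmap' : ∀ z ∈ M (π i), (g : L ≃ₐ[ℂ] L) z ∈ M i := by
        intro z hz
        have := h.perm g (π i) z hz
        rw [← hπ, hππ] at this
        exact this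
      have hsq' : ∀ z ∈ M (π i), (g : L ≃ₐ[ℂ] L) ((g : L ≃ₐ[ℂ] L) z) = z := by
        intro z hz
        have h1 := hsq _ (hmap' z hz)
        exact (g : L ≃ₐ[ℂ] L).injective h1
      have h2 : (g : L ≃ₐ[ℂ] L) * (g : L ≃ₐ[ℂ] L) = 1 := by
        refine eq_one h fun l z hz => ?_
        change (g : L ≃ₐ[ℂ] L) ((g : L ≃ₐ[ℂ] L) z) = z
        by_cases hl1 : l = i
        · subst hl1; exact hsq z hz
        by_cases hl2 : l = π i
        · subst hl2; exact hsq' z hz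
        rw [hm l hl1 hl2 z hz, hm l hl1 hl2 z hz]
      refine ⟨i, π i, ⟨Ne.symm hi, rfl, rfl, hmap, hmap', fun l hl1 hl2 z hz => hm l hl1 hl2 z hz⟩,
        fun z => ?_⟩
      exact DFunLike.congr_fun h2 z
    · right
      push Not at hsq
      obtain ⟨z, hz, hz'⟩ := hsq
      have hg2 : σ (g ^ 2) i = i := by
        rw [map_pow, pow_two]
        exact hππ
      have hg2' : σ (g ^ 2) (π i) = π i := by
        rw [map_pow, pow_two]
        exact hπππ
      have hval : ∀ j, σ (g ^ 2) j = j → (∃ z ∈ M j, (g : L ≃ₐ[ℂ] L) ((g : L ≃ₐ[ℂ] L) z) ≠ z) →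
          wgt (M j) ((g : L ≃ₐ[ℂ] L) ^ 2) 0 = 1 / 2 := by
        intro j hj hz
        have hpow : ((g ^ 2 : G) : L ≃ₐ[ℂ] L) = (g : L ≃ₐ[ℂ] L) ^ 2 := rfl
        have e : ∀ z, ((g : L ≃ₐ[ℂ] L) ^ 2) z = (g : L ≃ₐ[ℂ] L) ((g : L ≃ₐ[ℂ] L) z) := by
          intro z
          rw [pow_two]; rfl
        rcases stab_cases h hA (g ^ 2) hj with h3 | ⟨-, h3, -⟩
        · obtain ⟨z, hz1, hz2⟩ := hz
          rw [hpow] at h3
          exact absurd (by rw [← e]; exact h3 z hz1) hz2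
        · rw [hpow] at h3
          refine wgt_half hfin.pow ?_ h3
          obtain ⟨z, hz1, hz2⟩ := hz
          exact ⟨z, hz1, by rw [e]; exact hz2⟩
      have h2 := hTm i hi hππ
      have h3 := hTm (π i) hπi hπππ
      rw [hval i hg2 ⟨z, hz, hz'⟩] at h2
      rw [hval (π i) hg2' ⟨(g : L ≃ₐ[ℂ] L) z, h.perm g i z hz, fun h0 => hz'
        ((g : L ≃ₐ[ℂ] L).injective h0)⟩] at h3
      have h6 := hsub {i, π i}
      rw [Finset.sum_insert, Finset.sum_singleton] at h6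
      · rw [hage]; linarith
      · rw [Finset.mem_singleton]; exact fun h0 => hi h0.symm
  · push Not at hex
    right
    obtain ⟨i, z, hz, hz'⟩ : ∃ i, ∃ z ∈ M i, (g : L ≃ₐ[ℂ] L) z ≠ z := by
      by_contra hcon
      push Not at hcon
      exact hg (Subtype.ext (eq_one h hcon))
    obtain ⟨j, hji, z', hz1, hz1'⟩ : ∃ j, j ≠ i ∧ ∃ z ∈ M j, (g : L ≃ₐ[ℂ] L) z ≠ z := by
      by_contra hcon
      push Not at hcon
      refine hrefl ⟨i, fun z hz => ?_, hcon⟩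
      have := h.perm g i z hz
      rwa [← hπ, hex i] at this
    have h1 := hfixed i (hex i) ⟨z, hz, hz'⟩
    have h2 := hfixed j (hex j) ⟨z', hz1, hz1'⟩
    have h6 := hsub {i, j}
    rw [Finset.sum_insert, Finset.sum_singleton] at h6
    · rw [hage]; linarith
    · rw [Finset.mem_singleton]; exact fun h0 => hji h0.symm

end

end Pool.Agent.H908.TA
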