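import Pool.Agent.H908.TA9

/-! Quotients of products of general curves by arbitrary groups of birational automorphisms. -/

set_option autoImplicit false
set_option linter.overlappingInstances false
set_option linter.unusedSectionVars false
set_option linter.unusedVariables false
set_option linter.style.haveILetI false

open FF IntermediateField Pool.Agent.W619.PQ Pool.Agent.W619.PL Pool.Agent.W619.TW
  Pool.Agent.W603.LV Pool.Agent.W619.Y Pool.Agent.W672.PG Pool.Agent.W824.PG Pool.Agent.Y174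
  Pool.Agent.K1H17.IS Pool.Agent.K1H6.PQ

namespace Pool.Agent.H908.TA

open Pool.Agent.H908.SB
open Pool.Agent.Helper11K9.OD (regularForms)
open Pool.Agent.Helper11K9.PC (RR)

section

variable {L : Type} [Field L] [Algebra ℂ L]
variable {r : ℕ}

/-- The action of a group on the factors. -/
theorem exists_sigma' (M : Fin r → IntermediateField ℂ L)
    (hess : ∀ i, Algebra.EssFiniteType ℂ (M i)) (htr : ∀ i, Algebra.trdeg ℂ (M i) = 1)
    (hL : Algebra.trdeg ℂ L = r) (hsup : (⨆ i, M i) = ⊤)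
    (hg : ∀ i, 2 ≤ Module.finrank ℂ (regularForms (M i))) (G : Subgroup (L ≃ₐ[ℂ] L)) :
    ∃ σ : G →* Equiv.Perm (Fin r), IsPermuted M (fun _ => 1) G σ := by
  choose y0 hy0 using fun i => Pool.Agent.W636.PG.exists_basis ℂ (M i) 1
    (by rw [htr, Nat.cast_one])
  have hy : ∀ i, IsTranscendenceBasis ℂ (fun _ : Fin 1 => y0 i 0) := by
    intro i
    have h1 : y0 i = fun _ : Fin 1 => y0 i 0 := by
      funext j; rw [Subsingleton.elim j 0]
    rw [← h1]
    exact hy0 i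
  exact exists_sigma M hess htr hL hsup (fun g i => perm_factor M hess htr hL hsup
    (fun i => y0 i 0) hy (fun i => Rs (y0 i 0)) (fun i f => Iff.rfl)
    (fun i => by haveI := hess i; exact fg_Rs (hy i) (le_trans one_le_two (hg i)))
    (fun i => by haveI := hess i; exact two_Rs (hy i) (hg i)) g i) G

/-- The group of all automorphisms is finite. -/
theorem aut_finite (M : Fin r → IntermediateField ℂ L)
    (hess : ∀ i, Algebra.EssFiniteType ℂ (M i)) (htr : ∀ i, Algebra.trdeg ℂ (M i) = 1)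
    (hL : Algebra.trdeg ℂ L = r) (hsup : (⨆ i, M i) = ⊤)
    (hg : ∀ i, 2 ≤ Module.finrank ℂ (regularForms (M i)))
    (hA : ∀ i (s : M i ≃ₐ[ℂ] M i), s ≠ 1 → IsHyp s) : Finite (L ≃ₐ[ℂ] L) := by
  classical
  obtain ⟨σ, h⟩ := exists_sigma' M hess htr hL hsup hg ⊤
  have hker : Finite σ.ker := by
    let φ : σ.ker → (Fin r → Prop) := fun g i =>
      ∀ z ∈ M i, ((g : (⊤ : Subgroup (L ≃ₐ[ℂ] L))) : L ≃ₐ[ℂ] L) z = z
    have hφ : Function.Injective φ := by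
      intro g g' hgg
      have hst : ∀ (g : σ.ker) i, σ (g : (⊤ : Subgroup (L ≃ₐ[ℂ] L))) i = i := by
        intro g i
        rw [MonoidHom.mem_ker.1 g.2]; rfl
      have hmap : ∀ (g : σ.ker) i, ∀ z ∈ M i,
          ((g : (⊤ : Subgroup (L ≃ₐ[ℂ] L))) : L ≃ₐ[ℂ] L) z ∈ M i := by
        intro g i z hz
        have := h.perm g i z hz
        rwa [hst] at this
      have hres : ∀ (g : σ.ker) i, ∃ s : M i ≃ₐ[ℂ] M i, ∀ z : M i,
          (s z : L) = ((g : (⊤ : Subgroup (L ≃ₐ[ℂ] L))) : L ≃ₐ[ℂ] L) (z : L) := fun g i =>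
        exists_res (M i) _ (hmap g i) (hmap g⁻¹ i)
      have heq : ∀ i, ∀ z ∈ M i, ((g : (⊤ : Subgroup (L ≃ₐ[ℂ] L))) : L ≃ₐ[ℂ] L) z =
          ((g' : (⊤ : Subgroup (L ≃ₐ[ℂ] L))) : L ≃ₐ[ℂ] L) z := by
        intro i z hz
        have h1 : φ g i ↔ φ g' i := by rw [hgg]
        by_cases h2 : φ g i
        · rw [h2 z hz, h1.1 h2 z hz]
        · have h3 : ¬ φ g' i := fun h4 => h2 (h1.2 h4)
          obtain ⟨s, hs⟩ := hres g i
          obtain ⟨s', hs'⟩ := hres g' i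
          have e1 : s ≠ 1 := fun h0 => h2 fun z hz => by
            have := hs ⟨z, hz⟩
            rw [h0] at this
            exact this.symm
          have e2 : s' ≠ 1 := fun h0 => h3 fun z hz => by
            have := hs' ⟨z, hz⟩
            rw [h0] at this
            exact this.symm
          haveI := hess i
          have e3 := hyp_unique (htr i) (le_trans one_le_two (hg i)) (hA i) e1 e2
          rw [← hs ⟨z, hz⟩, ← hs' ⟨z, hz⟩, e3]
      have h4 : ((g : (⊤ : Subgroup (L ≃ₐ[ℂ] L))) : L ≃ₐ[ℂ] L)⁻¹ *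
          ((g' : (⊤ : Subgroup (L ≃ₐ[ℂ] L))) : L ≃ₐ[ℂ] L) = 1 := by
        refine eq_one h fun i z hz => ?_
        change ((g : (⊤ : Subgroup (L ≃ₐ[ℂ] L))) : L ≃ₐ[ℂ] L).symm
          (((g' : (⊤ : Subgroup (L ≃ₐ[ℂ] L))) : L ≃ₐ[ℂ] L) z) = z
        rw [← heq i z hz, AlgEquiv.symm_apply_apply]
      exact Subtype.ext (Subtype.ext (inv_mul_eq_one.1 h4))
    exact Finite.of_injective φ hφ
  have h1 : Finite (⊤ : Subgroup (L ≃ₐ[ℂ] L)) :=
    σ.finite_iff_finite_ker_range.2 ⟨hker, inferInstance⟩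
  exact Finite.of_equiv _ Subgroup.topEquiv.toEquiv

/-- **The main theorem.** -/
theorem main (M : Fin r → IntermediateField ℂ L)
    (hess : ∀ i, Algebra.EssFiniteType ℂ (M i)) (htr : ∀ i, Algebra.trdeg ℂ (M i) = 1)
    (hL : Algebra.trdeg ℂ L = r) (hsup : (⨆ i, M i) = ⊤)
    (hg : ∀ i, 2 ≤ Module.finrank ℂ (regularForms (M i)))
    (hA : ∀ i (s : M i ≃ₐ[ℂ] M i), s ≠ 1 → IsHyp s) (G : Subgroup (L ≃ₐ[ℂ] L)) :
    [KodairaNeg ℂ (fixedField G) r,
      ¬ IsPsef ℂ (fixedField G) r (fun _ => False),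
      IsUniruled ℂ (fixedField G) r,
      (∃ g ∈ G, g ≠ 1 ∧ ∃ i, (∀ z ∈ M i, g z ∈ M i) ∧ ∀ l, l ≠ i → ∀ z ∈ M l, g z = z) ∨
        ∃ i, Module.finrank ℂ (regularForms (M i)) < (bl M (fun _ => 1) G i).ncard].TFAE := by
  classical
  haveI hfinL := aut_finite M hess htr hL hsup hg hA
  haveI : Finite G := inferInstance
  obtain ⟨σ, h⟩ := exists_sigma' M hess htr hL hsup hg G
  obtain ⟨n, hn⟩ : ∃ n : ℕ, n = ∑ i : Fin r, (fun _ => 1 : Fin r → ℕ) i := ⟨_, rfl⟩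
  have hnr : n = r := by rw [hn]; simp
  suffices hmain : [KodairaNeg ℂ (fixedField G) n,
      ¬ IsPsef ℂ (fixedField G) n (fun _ => False),
      IsUniruled ℂ (fixedField G) n,
      (∃ g ∈ G, g ≠ 1 ∧ ∃ i, (∀ z ∈ M i, g z ∈ M i) ∧ ∀ l, l ≠ i → ∀ z ∈ M l, g z = z) ∨
        ∃ i, Module.finrank ℂ (regularForms (M i)) < (bl M (fun _ => 1) G i).ncard].TFAE by
    rwa [hnr] at hmain
  rw [hn]
  obtain ⟨hnK, hessK⟩ := Pool.Agent.K1H97.PU.quot h
  have hinv : ∀ g ∈ G, ∀ i, (∀ z ∈ M i, g z ∈ M i) → ∀ z ∈ M i, g⁻¹ z ∈ M i := by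
    intro g hgG i hgi z hz
    have h1 := sigma_eq h ⟨g, hgG⟩ (i := i) (j := i) le_rfl hgi
    have h2 : σ (⟨g, hgG⟩ : G)⁻¹ i = i := by
      rw [map_inv, Equiv.Perm.inv_eq_iff_eq, h1]
    have h3 := h.perm (⟨g, hgG⟩ : G)⁻¹ i z hz
    rwa [h2] at h3
  have h43 : ((∃ g ∈ G, g ≠ 1 ∧ ∃ i, (∀ z ∈ M i, g z ∈ M i) ∧
      ∀ l, l ≠ i → ∀ z ∈ M l, g z = z) ∨
      ∃ i, Module.finrank ℂ (regularForms (M i)) < (bl M (fun _ => 1) G i).ncard) →
      IsUniruled ℂ (fixedField G) (∑ i : Fin r, (fun _ => 1 : Fin r → ℕ) i) := by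
    rintro (⟨g, hgG, hg1, i, hgi, hgo⟩ | ⟨i, hlt⟩)
    · have h1 := sigma_eq h ⟨g, hgG⟩ (i := i) (j := i) le_rfl hgi
      rcases stab_cases h hA ⟨g, hgG⟩ h1 with h2 | ⟨⟨z, hz, hz'⟩, h3, t, ht⟩
      · exfalso
        apply hg1
        refine eq_one h fun l z hz => ?_
        by_cases hl : l = i
        · subst hl; exact h2 z hz
        · exact hgo l hl z hz
      · exact uniruled_refl h rfl hgG h3 hgo ⟨z, hz, hgi z hz, hz'⟩ t ht hgi
    · exact uniruled_blk' h rfl hlt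
  have h32 : IsUniruled ℂ (fixedField G) (∑ i : Fin r, (fun _ => 1 : Fin r → ℕ) i) →
      ¬ IsPsef ℂ (fixedField G) (∑ i : Fin r, (fun _ => 1 : Fin r → ℕ) i) (fun _ => False) :=
    fun h1 => (uniruled_neg _ hnK h1).1
  have h21 : ¬ IsPsef ℂ (fixedField G) (∑ i : Fin r, (fun _ => 1 : Fin r → ℕ) i)
      (fun _ => False) → KodairaNeg ℂ (fixedField G) (∑ i : Fin r, (fun _ => 1 : Fin r → ℕ) i) :=
    fun h1 => kodairaNeg_of_not_eff.1 fun h3 => h1 (psef_of_eff h3)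
  have h14 : KodairaNeg ℂ (fixedField G) (∑ i : Fin r, (fun _ => 1 : Fin r → ℕ) i) →
      ((∃ g ∈ G, g ≠ 1 ∧ ∃ i, (∀ z ∈ M i, g z ∈ M i) ∧ ∀ l, l ≠ i → ∀ z ∈ M l, g z = z) ∨
      ∃ i, Module.finrank ℂ (regularForms (M i)) < (bl M (fun _ => 1) G i).ncard) := by
    intro h1
    by_contra hcon
    rw [not_or] at hcon
    obtain ⟨hc1, hc2⟩ := hcon
    push Not at hc2
    rw [← kod0_iff] at h1
    refine h1 (nonneg' h (fun i _ => ?_) (fun g hg1 _ => ?_) (fun i hi => absurd rfl hi)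
      (fun i _ => hc2 i))
    · haveI := hess i
      obtain ⟨W, hW, hW2⟩ := exists_W (htr i) (le_trans one_le_two (hg i)) (hA i)
      refine ⟨W, hW, fun g hgG hgi => ?_⟩
      obtain ⟨s, hs⟩ := exists_res (M i) g hgi (hinv g hgG i hgi)
      obtain ⟨h2, ε, hε, h3⟩ := hW2 s
      refine ⟨by rw [← hs, h2], ε, hε, fun f hf => ?_⟩
      rw [← hs, h3 f hf, Algebra.smul_def]
      rfl
    · refine age_cases h hA g hg1 ?_
      rintro ⟨i, hgi, hgo⟩
      exact hc1 ⟨g, g.2, fun h0 => hg1 (Subtype.ext h0), i, hgi, hgo⟩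
  tfae_have 1 → 4 := h14
  tfae_have 4 → 3 := h43
  tfae_have 3 → 2 := h32
  tfae_have 2 → 1 := h21
  tfae_finish

end

end Pool.Agent.H908.TA
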