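import Pool.Agent.H908.TB1

/-! Equivariant antisymmetric data on a product of curves. -/

set_option autoImplicit false
set_option linter.overlappingInstances false
set_option linter.unusedSectionVars false
set_option linter.unusedVariables false
set_option linter.style.haveILetI false

open FF IntermediateField Pool.Agent.W619.PQ Pool.Agent.W619.PL Pool.Agent.W619.TW
  Pool.Agent.W603.LV Pool.Agent.W619.Y Pool.Agent.W672.PG Pool.Agent.W824.PG Pool.Agent.Y174
  Pool.Agent.K1H17.IS Pool.Agent.K1H6.PQ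

namespace Pool.Agent.H908.UA

open Pool.Agent.H908.SB Pool.Agent.H908.TA
open Pool.Agent.Helper11K9.OD (regularForms)

section

variable {L : Type} [Field L] [Algebra ℂ L]
variable {r : ℕ} {M : Fin r → IntermediateField ℂ L} {a : Fin r → ℕ}
  {G : Subgroup (L ≃ₐ[ℂ] L)} {σ : G →* Equiv.Perm (Fin r)}

/-- Conjugates of transpositions. -/
theorem TI.conjG (h : IsPermuted M (fun _ => 1) G σ) (g : G) {g' : L ≃ₐ[ℂ] L} {i j : Fin r}
    (h' : TI M (fun _ => 1) g' i j) :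
    TI M (fun _ => 1) ((g : L ≃ₐ[ℂ] L) * g' * (g : L ≃ₐ[ℂ] L)⁻¹) (σ g i) (σ g j) := by
  have hinv : ∀ l z, z ∈ M (σ g l) → (g : L ≃ₐ[ℂ] L)⁻¹ z ∈ M l := by
    intro l z hz
    have h1 := h.perm g⁻¹ (σ g l) z hz
    have h2 : σ g⁻¹ (σ g l) = l := by
      rw [map_inv, Equiv.Perm.inv_eq_iff_eq]
    rwa [h2] at h1
  have hcan : ∀ z, (g : L ≃ₐ[ℂ] L) ((g : L ≃ₐ[ℂ] L)⁻¹ z) = z := fun z =>
    (g : L ≃ₐ[ℂ] L).apply_symm_apply z
  have hcan' : ∀ z, (g : L ≃ₐ[ℂ] L)⁻¹ ((g : L ≃ₐ[ℂ] L) z) = z := fun z =>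
    (g : L ≃ₐ[ℂ] L).symm_apply_apply z
  refine ⟨⟨fun h0 => h'.1.1 ((σ g).injective h0), rfl, rfl, fun z hz => ?_, fun z hz => ?_,
    fun l hl1 hl2 z hz => ?_⟩, fun z => ?_⟩
  · exact h.perm g j _ (h'.1.2.2.2.1 _ (hinv i z hz))
  · exact h.perm g i _ (h'.1.2.2.2.2.1 _ (hinv j z hz))
  · obtain ⟨l', rfl⟩ := (σ g).surjective l
    change (g : L ≃ₐ[ℂ] L) (g' ((g : L ≃ₐ[ℂ] L)⁻¹ z)) = z
    rw [h'.1.2.2.2.2.2 l' (fun h0 => hl1 (by rw [h0])) (fun h0 => hl2 (by rw [h0])) _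
      (hinv l' z hz), hcan]
  · change (g : L ≃ₐ[ℂ] L) (g' ((g : L ≃ₐ[ℂ] L)⁻¹ ((g : L ≃ₐ[ℂ] L) (g' ((g : L ≃ₐ[ℂ] L)⁻¹ z)))))
      = z
    rw [hcan', h'.2, hcan]

/-- Representatives of the orbits. -/
theorem exists_orb {r : ℕ} {G : Type} [Group G] (σ : G →* Equiv.Perm (Fin r)) :
    ∃ (rep : Fin r → Fin r) (t : Fin r → G), (∀ i, σ (t i) (rep i) = i) ∧
      ∀ (g : G) i, rep (σ g i) = rep i := by
  classical
  let S : Setoid (Fin r) :=
    { r := fun i j => ∃ g : G, σ g i = j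
      iseqv :=
        { refl := fun i => ⟨1, by rw [map_one]; rfl⟩
          symm := fun {i j} h => by
            obtain ⟨g, hg⟩ := h
            refine ⟨g⁻¹, ?_⟩
            rw [map_inv, Equiv.Perm.inv_eq_iff_eq, hg]
          trans := fun {i j l} h h' => by
            obtain ⟨g, hg⟩ := h
            obtain ⟨g', hg'⟩ := h'
            refine ⟨g' * g, ?_⟩
            rw [map_mul, Equiv.Perm.mul_apply, hg, hg'] } }
  have hρ : ∀ i, ∃ g : G, σ g (Quotient.mk S i).out = i := fun i => Quotient.mk_out i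
  choose t ht using hρ
  refine ⟨fun i => (Quotient.mk S i).out, t, ht, fun g i => ?_⟩
  have h1 : Quotient.mk S (σ g i) = Quotient.mk S i := Quotient.sound (S.symm ⟨g, rfl⟩)
  change (Quotient.mk S (σ g i)).out = (Quotient.mk S i).out
  rw [h1]

/-- the position of an element in its class -/
noncomputable def num {r : ℕ} (ρ : Fin r → Fin r) (c : Fin r) : ℕ :=
  {d : Fin r | ρ d = ρ c ∧ d < c}.ncard

theorem num_lt {r : ℕ} (ρ : Fin r → Fin r) (c : Fin r) :
    num ρ c < {d : Fin r | ρ d = ρ c}.ncard := by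
  refine Set.ncard_lt_ncard ⟨fun d hd => hd.1, fun hcon => ?_⟩ (Set.toFinite _)
  exact lt_irrefl c (hcon (show ρ c = ρ c from rfl)).2

theorem num_inj {r : ℕ} (ρ : Fin r → Fin r) {c d : Fin r} (h : ρ c = ρ d)
    (hn : num ρ c = num ρ d) : c = d := by
  have key : ∀ c d : Fin r, ρ c = ρ d → c < d → num ρ c < num ρ d := by
    intro c d h hlt
    refine Set.ncard_lt_ncard ⟨fun e he => ⟨he.1.trans h, he.2.trans hlt⟩, fun hcon => ?_⟩
      (Set.toFinite _)
    exact lt_irrefl c (hcon (show ρ c = ρ d ∧ c < d from ⟨h, hlt⟩)).2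
  rcases lt_trichotomy c d with h1 | h1 | h1
  · exact absurd hn (key c d h h1).ne
  · exact h1
  · exact absurd hn (key d c h.symm h1).ne'

theorem sum_num {r : ℕ} {A : Type} [AddCommMonoid A] (ρ : Fin r → Fin r) (i : Fin r)
    (f : ℕ → A) [∀ c, Decidable (ρ c = ρ i)] :
    ∑ c, (if ρ c = ρ i then f (num ρ c) else 0) =
      ∑ n ∈ Finset.range {d : Fin r | ρ d = ρ i}.ncard, f n := by
  classical
  have h1 : Set.ncard {d : Fin r | ρ d = ρ i} = (Finset.univ.filter fun d => ρ d = ρ i).card := by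
    rw [Set.ncard_eq_toFinset_card']
    congr 1
    ext d
    simp
  have hinj : ∀ c ∈ (Finset.univ.filter fun d => ρ d = ρ i), ∀ d ∈
      (Finset.univ.filter fun d => ρ d = ρ i), num ρ c = num ρ d → c = d := by
    intro c hc d hd hcd
    rw [Finset.mem_filter] at hc hd
    exact num_inj ρ (hc.2.trans hd.2.symm) hcd
  have h2 : Finset.image (num ρ) (Finset.univ.filter fun d => ρ d = ρ i) =
      Finset.range {d : Fin r | ρ d = ρ i}.ncard := by
    refine Finset.eq_of_subset_of_card_le (fun n hn => ?_) ?_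
    · obtain ⟨c, hc, rfl⟩ := Finset.mem_image.1 hn
      rw [Finset.mem_filter] at hc
      rw [Finset.mem_range]
      have := num_lt ρ c
      rwa [hc.2] at this
    · rw [Finset.card_range, h1, Finset.card_image_of_injOn hinj]
  rw [← Finset.sum_filter, ← h2, Finset.sum_image hinj]

/-- **Equivariant data.** -/
theorem exists_equiv [Finite G] (h : IsPermuted M (fun _ => 1) G σ) (V : ∀ i, M i → Set (M i))
    (hV0 : ∀ i W, 0 ∈ V i W)
    (hVt : ∀ (g : G) i (W f : M i) (W' f' : M (σ g i)), f ∈ V i W →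
      (W' : L) = (g : L ≃ₐ[ℂ] L) W → (f' : L) = (g : L ≃ₐ[ℂ] L) f → f' ∈ V (σ g i) W')
    (hS : ∀ i, ∃ W : M i, IsTranscendenceBasis ℂ (fun _ : Fin 1 => W) ∧
      (∃ F : Fin (bl M (fun _ => 1) G i).ncard → M i, (∀ n, F n ∈ V i W) ∧
        LinearIndependent ℂ F) ∧
      ∀ g ∈ G, (∀ z ∈ M i, g z ∈ M i) → g (W : L) = W ∧ ∃ ε : ℂ, (ε = 1 ∨ ε = -1) ∧
        ∀ f ∈ V i W, g (f : L) = algebraMap ℂ L ε * f) :
    ∃ (W : ∀ i, M i) (C : ∀ i, Fin r → M i),
      (∀ i, IsTranscendenceBasis ℂ (fun _ : Fin 1 => W i)) ∧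
      (∀ i c, C i c ∈ V i (W i)) ∧
      (∀ (g : G) i, (g : L ≃ₐ[ℂ] L) (W i : L) = W (σ g i)) ∧
      (∀ (g : G) i, σ g i ∈ bl M (fun _ => 1) G i → ∃ ε : ℂ, (ε = 1 ∨ ε = -1) ∧
        ∀ c, (g : L ≃ₐ[ℂ] L) (C i c : L) = algebraMap ℂ L ε * C (σ g i) c) ∧
      (Matrix.of fun i c : Fin r => (C i c : L)).det ≠ 0 ∧
      ∀ g : G, (g : L ≃ₐ[ℂ] L) ((Matrix.of fun i c => (C i c : L)).det ^ 2) =
        (Matrix.of fun i c => (C i c : L)).det ^ 2 := by
  classical
  obtain ⟨ρ, -, -, -, -, hblk⟩ := exists_t' (M := M) (a := fun _ => 1) (G := G)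
  obtain ⟨rep, t, ht, hrep⟩ := exists_orb σ
  -- the blocks
  have hbl : ∀ i, bl M (fun _ => 1) G i = {j | ρ j = ρ i} := by
    intro i
    ext j
    change (j = i ∨ _) ↔ ρ j = ρ i
    rw [eq_comm (a := ρ j), hblk, eq_comm (a := j)]
  have hρ1 : ∀ (g : G) i j, ρ i = ρ j → ρ (σ g i) = ρ (σ g j) := by
    intro g i j hij
    rw [hblk] at hij ⊢
    rcases hij with rfl | ⟨g', hg', h1⟩
    · exact Or.inl rfl
    · exact Or.inr ⟨(g : L ≃ₐ[ℂ] L) * g' * (g : L ≃ₐ[ℂ] L)⁻¹,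
        G.mul_mem (G.mul_mem g.2 hg') (G.inv_mem g.2), TI.conjG h g h1⟩
  have hσinv : ∀ (g : G) i, σ g⁻¹ (σ g i) = i := by
    intro g i
    rw [map_inv, Equiv.Perm.inv_eq_iff_eq]
  have hρ2 : ∀ (g : G) i j, ρ (σ g i) = ρ (σ g j) ↔ ρ i = ρ j := by
    intro g i j
    refine ⟨fun h1 => ?_, hρ1 g i j⟩
    have h2 := hρ1 g⁻¹ _ _ h1
    rwa [hσinv, hσinv] at h2
  have hcard : ∀ (g : G) i, {d | ρ d = ρ (σ g i)}.ncard = {d | ρ d = ρ i}.ncard := by
    intro g i
    have h1 : {d | ρ d = ρ (σ g i)} = (σ g) '' {d | ρ d = ρ i} := by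
      ext d
      constructor
      · intro hd
        obtain ⟨d', rfl⟩ := (σ g).surjective d
        exact ⟨d', (hρ2 g d' i).1 hd, rfl⟩
      · rintro ⟨d', hd', rfl⟩
        exact (hρ2 g d' i).2 hd'
    rw [h1, Set.ncard_image_of_injective _ (σ g).injective]
  have hcardrep : ∀ i, {d | ρ d = ρ (rep i)}.ncard = {d | ρ d = ρ i}.ncard := by
    intro i
    have h1 := hcard (t i) (rep i)
    rw [ht] at h1
    exact h1.symm
  -- the isomorphisms
  have hT1 : ∀ i, ∀ z ∈ M (rep i), (t i : L ≃ₐ[ℂ] L) z ∈ M i := by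
    intro i z hz
    have h1 := h.perm (t i) (rep i) z hz
    rwa [ht] at h1
  have hT2 : ∀ i, ∀ z ∈ M i, (t i : L ≃ₐ[ℂ] L).symm z ∈ M (rep i) := by
    intro i z hz
    have h1 := h.perm (t i)⁻¹ i z hz
    have h2 : σ (t i)⁻¹ i = rep i := by
      rw [map_inv, Equiv.Perm.inv_eq_iff_eq, ht]
    rw [h2] at h1
    exact h1
  let T : ∀ i, M (rep i) ≃ₐ[ℂ] M i := fun i => resEquiv (t i : L ≃ₐ[ℂ] L) (hT1 i) (hT2 i)
  have hTc : ∀ i (z : M (rep i)), (T i z : L) = (t i : L ≃ₐ[ℂ] L) (z : L) := fun i z => rfl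
  choose W0 hW0 hF0 hW0s using hS
  choose F0 hF0V hF0i using hF0
  let F : ∀ i, ℕ → M i := fun i n =>
    if hn : n < (bl M (fun _ => 1) G i).ncard then F0 i ⟨n, hn⟩ else 0
  have hFV : ∀ i n, F i n ∈ V i (W0 i) := by
    intro i n
    simp only [F]
    split_ifs with hn
    · exact hF0V _ _
    · exact hV0 _ _
  -- the data
  let W : ∀ i, M i := fun i => T i (W0 (rep i))
  let C : ∀ i, Fin r → M i := fun i c =>
    if ρ c = ρ i then T i (F (rep i) (num ρ c)) else 0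
  have hTV : ∀ i (f : M (rep i)), f ∈ V (rep i) (W0 (rep i)) → T i f ∈ V i (W i) := by
    intro i f hf
    have key : ∀ j (hj : σ (t i) (rep i) = j) (W' f' : M j), (W' : L) = (t i : L ≃ₐ[ℂ] L)
        (W0 (rep i)) → (f' : L) = (t i : L ≃ₐ[ℂ] L) f → f' ∈ V j W' := by
      rintro j rfl W' f' h1 h2
      exact hVt (t i) (rep i) _ _ _ _ hf h1 h2
    exact key i (ht i) (W i) (T i f) rfl rfl
  have hCV : ∀ i c, C i c ∈ V i (W i) := by
    intro i c
    simp only [C]
    split_ifs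
    · exact hTV i _ (hFV _ _)
    · exact hV0 _ _
  -- the relative twist
  have htw : ∀ (g : G) i, ∃ s ∈ G, (∀ z ∈ M (rep i), s z ∈ M (rep i)) ∧
      ∀ z, (g : L ≃ₐ[ℂ] L) ((t i : L ≃ₐ[ℂ] L) z) = (t (σ g i) : L ≃ₐ[ℂ] L) (s z) := by
    intro g i
    refine ⟨((t (σ g i))⁻¹ * g * t i : G), SetLike.coe_mem _, fun z hz => ?_, fun z => ?_⟩
    · have h1 := h.perm ((t (σ g i))⁻¹ * g * t i) (rep i) z hz
      have h2 : σ ((t (σ g i))⁻¹ * g * t i) (rep i) = rep i := by
        rw [map_mul, map_mul, Equiv.Perm.mul_apply, Equiv.Perm.mul_apply, ht, map_inv,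
          Equiv.Perm.inv_eq_iff_eq]
        have h3 := ht (σ g i)
        rw [hrep] at h3
        exact h3.symm
      rwa [h2] at h1
    · change _ = (t (σ g i) : L ≃ₐ[ℂ] L) ((t (σ g i) : L ≃ₐ[ℂ] L).symm
        ((g : L ≃ₐ[ℂ] L) ((t i : L ≃ₐ[ℂ] L) z)))
      rw [AlgEquiv.apply_symm_apply]
  have hWrep : ∀ (g : G) i, ((W0 (rep (σ g i)) : M (rep (σ g i))) : L) = W0 (rep i) := by
    intro g i
    rw [hrep]
  have hFrep : ∀ (g : G) i n, ((F (rep (σ g i)) n : M (rep (σ g i))) : L) = F (rep i) n := by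
    intro g i n
    rw [hrep]
  have htw2 : ∀ (g : G) i, (g : L ≃ₐ[ℂ] L) (W i : L) = W (σ g i) ∧ ∃ ε : ℂ, (ε = 1 ∨ ε = -1) ∧
      ∀ n, (g : L ≃ₐ[ℂ] L) (T i (F (rep i) n) : L) =
        algebraMap ℂ L ε * T (σ g i) (F (rep (σ g i)) n) := by
    intro g i
    obtain ⟨s, hsG, hsM, hs⟩ := htw g i
    obtain ⟨h1, ε, hε, h2⟩ := hW0s (rep i) s hsG hsM
    refine ⟨?_, ε, hε, fun n => ?_⟩
    · change (g : L ≃ₐ[ℂ] L) ((t i : L ≃ₐ[ℂ] L) (W0 (rep i))) =
        (t (σ g i) : L ≃ₐ[ℂ] L) (W0 (rep (σ g i)))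
      rw [hs, h1, hWrep]
    · change (g : L ≃ₐ[ℂ] L) ((t i : L ≃ₐ[ℂ] L) (F (rep i) n)) =
        algebraMap ℂ L ε * (t (σ g i) : L ≃ₐ[ℂ] L) (F (rep (σ g i)) n)
      rw [hs, h2 _ (hFV _ _), map_mul, AlgEquiv.commutes, hFrep]
  refine ⟨W, C, fun i => (T i).isTranscendenceBasis (hW0 (rep i)), hCV, fun g i => (htw2 g i).1,
    fun g i hi => ?_, ?_, fun g => ?_⟩
  · obtain ⟨-, ε, hε, h1⟩ := htw2 g i
    rw [hbl] at hi
    have hi' : ρ (σ g i) = ρ i := hi
    refine ⟨ε, hε, fun c => ?_⟩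
    by_cases hc : ρ c = ρ i
    · have hc' : ρ c = ρ (σ g i) := hc.trans hi'.symm
      simp only [C, if_pos hc, if_pos hc']
      exact h1 _
    · have hc' : ¬ ρ c = ρ (σ g i) := fun h0 => hc (h0.trans hi')
      simp only [C, if_neg hc, if_neg hc']
      change (g : L ≃ₐ[ℂ] L) 0 = algebraMap ℂ L ε * 0
      rw [map_zero, mul_zero]
  · -- the determinant
    have htri : (Matrix.of fun i c : Fin r => (C i c : L)).BlockTriangular ρ := by
      intro i c hlt
      rw [Matrix.of_apply]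
      simp only [C, if_neg (ne_of_lt hlt)]
      rfl
    rw [htri.det_fintype]
    refine Finset.prod_ne_zero_iff.2 fun b _ => ?_
    let S : Type := {i : Fin r // ρ i = b}
    rcases isEmpty_or_nonempty S with hS | ⟨⟨s0, hs0⟩⟩
    · rw [Matrix.det_isEmpty]
      exact one_ne_zero
    -- all representatives agree on a block
    have hrepS : ∀ s : S, rep s.1 = rep s0 := by
      intro s
      have h1 : ρ s.1 = ρ s0 := s.2.trans hs0.symm
      rcases (hblk _ _).1 h1 with h2 | ⟨g, hg, h2⟩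
      · rw [h2]
      · have h3 : σ ⟨g, hg⟩ s.1 = s0 := sigma_eq h ⟨g, hg⟩ le_rfl h2.1.2.2.2.1
        rw [← h3, hrep]
    obtain ⟨m, hm⟩ : ∃ m, m = rep s0 := ⟨_, rfl⟩
    have hrepm : ∀ s : S, rep s.1 = m := fun s => (hrepS s).trans hm.symm
    have hcm : (bl M (fun _ => 1) G m).ncard = {d | ρ d = b}.ncard := by
      rw [hbl, hm, hcardrep, hs0]
    let φ : S → (M m →ₐ[ℂ] L) := fun s => ((t s.1 : L ≃ₐ[ℂ] L) : L →ₐ[ℂ] L).comp (M m).val
    have hφ : ∀ (s : S) x, φ s x ∈ M s.1 := by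
      intro s x
      apply hT1 s.1
      rw [hrepm]
      exact x.2
    have hnum : ∀ s : S, num ρ s.1 < (bl M (fun _ => 1) G m).ncard := by
      intro s
      have h1 := num_lt ρ s.1
      rw [s.2] at h1
      rw [hcm]
      exact h1
    have h1 := det_ne' φ (fun s => oth M s.1) (fun i j hij x => le_oth M (fun h0 => hij
      (Subtype.ext h0)) (hφ j x)) (fun s p β hβ => by
        have h2 := ld_oth h.trdeg h.total h.sup s.1 (fun c => (⟨φ s (β c), hφ s _⟩ : M s.1))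
          (by
            let ψ : M m →ₐ[ℂ] M s.1 := (φ s).codRestrict (M s.1).toSubalgebra (hφ s)
            have h3 := hβ.map' ψ.toLinearMap (LinearMap.ker_eq_bot.2 ψ.injective)
            exact h3)
        exact h2) (fun s => F m (num ρ s.1)) (by
        have h2 : (fun s : S => F m (num ρ s.1)) = F0 m ∘ fun s : S => ⟨num ρ s.1, hnum s⟩ := by
          funext s
          simp only [F, Function.comp_apply, dif_pos (hnum s)]
        rw [h2]
        exact (hF0i m).comp _ fun s s' hss => Subtype.ext (num_inj ρ (s.2.trans s'.2.symm)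
          (congrArg Fin.val hss)))
    have h2 : (Matrix.of fun i c : Fin r => (C i c : L)).toSquareBlock ρ b =
        Matrix.of fun (i : S) (j : S) => φ i (F m (num ρ j.1)) := by
      ext i j
      change ((C i.1 j.1 : M i.1) : L) = (t i.1 : L ≃ₐ[ℂ] L) (F m (num ρ j.1) : L)
      have h3 : C i.1 j.1 = T i.1 (F (rep i.1) (num ρ j.1)) := by
        simp only [C]
        rw [if_pos (j.2.trans i.2.symm)]
      rw [h3, hTc, hrepm]
    rw [h2]
    exact h1
  · -- the invariance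
    choose ε hε hεF using fun i => (htw2 g i).2
    have hε2 : ∀ i, (algebraMap ℂ L (ε i)) * algebraMap ℂ L (ε i) = 1 := by
      intro i
      rw [← map_mul]
      rcases hε i with h1 | h1 <;> rw [h1] <;> norm_num
    let P : Matrix (Fin r) (Fin r) L := Matrix.of fun i c => (C i c : L)
    let Q : Matrix (Fin r) (Fin r) L := P * P.transpose
    have hQdet : P.det ^ 2 = Q.det := by
      rw [Matrix.det_mul, Matrix.det_transpose, sq]
    have hQ : ∀ i j, Q i j = if ρ j = ρ i then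
        ∑ n ∈ Finset.range {d | ρ d = ρ i}.ncard, (T i (F (rep i) n) : L) *
          (T j (F (rep j) n) : L) else 0 := by
      intro i j
      change (P * P.transpose) i j = _
      rw [Matrix.mul_apply]
      simp only [Matrix.transpose_apply]
      by_cases hij : ρ j = ρ i
      · rw [if_pos hij, ← sum_num]
        refine Finset.sum_congr rfl fun c _ => ?_
        change (C i c : L) * (C j c : L) = _
        by_cases hc : ρ c = ρ i
        · have hc' : ρ c = ρ j := hc.trans hij.symm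
          simp only [C, if_pos hc, if_pos hc']
        · simp only [C, if_neg hc]
          exact zero_mul _
      · rw [if_neg hij]
        refine Finset.sum_eq_zero fun c _ => ?_
        change (C i c : L) * (C j c : L) = 0
        by_cases hc : ρ c = ρ i
        · have hc' : ¬ ρ c = ρ j := fun h0 => hij (h0.symm.trans hc)
          simp only [C, if_neg hc']
          exact mul_zero _
        · simp only [C, if_neg hc]
          exact zero_mul _
    have hgQ : ∀ i j, (g : L ≃ₐ[ℂ] L) (Q i j) = algebraMap ℂ L (ε i) * Q (σ g i) (σ g j) *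
        algebraMap ℂ L (ε j) := by
      intro i j
      rw [hQ, hQ]
      by_cases hij : ρ j = ρ i
      · rw [if_pos hij, if_pos (hρ1 g _ _ hij), map_sum, hcard, Finset.mul_sum, Finset.sum_mul]
        refine Finset.sum_congr rfl fun n _ => ?_
        rw [map_mul, hεF, hεF]
        ring
      · rw [if_neg hij, if_neg fun h0 => hij ((hρ2 g _ _).1 h0), map_zero, mul_zero, zero_mul]
    change (g : L ≃ₐ[ℂ] L) (P.det ^ 2) = P.det ^ 2
    rw [hQdet, AlgEquiv.map_det]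
    have h1 : (g : L ≃ₐ[ℂ] L).mapMatrix Q = Matrix.diagonal (fun i => algebraMap ℂ L (ε i)) *
        Q.submatrix (σ g) (σ g) * Matrix.diagonal (fun i => algebraMap ℂ L (ε i)) := by
      ext i j
      rw [Matrix.mul_diagonal, Matrix.diagonal_mul]
      exact hgQ i j
    rw [h1, Matrix.det_mul, Matrix.det_mul, Matrix.det_submatrix_equiv_self, Matrix.det_diagonal]
    have h2 : (∏ i, algebraMap ℂ L (ε i)) * ∏ i, algebraMap ℂ L (ε i) = 1 := by
      rw [← Finset.prod_mul_distrib]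
      exact Finset.prod_eq_one fun i _ => hε2 i
    linear_combination (Q.det) * h2

end

end Pool.Agent.H908.UA
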