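import Pool.Agent.H908.UA2

/-! Groups which permute the factors, and whose stabilizers act on the factors trivially or by a
hyperelliptic involution. -/

set_option autoImplicit false
set_option linter.overlappingInstances false
set_option linter.unusedSectionVars false
set_option linter.unusedVariables false
set_option linter.style.haveILetI false

open FF IntermediateField Pool.Agent.W619.PQ Pool.Agent.W619.PL Pool.Agent.W619.TW
  Pool.Agent.W603.LV Pool.Agent.W619.Y Pool.Agent.W672.PG Pool.Agent.W824.PG Pool.Agent.Y174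
  Pool.Agent.K1H17.IS Pool.Agent.K1H6.PQ

namespace Pool.Agent.H908.UA

open Pool.Agent.H908.SB Pool.Agent.H908.TA
open Pool.Agent.Helper11K9.OD (regularForms)

section

variable {L : Type} [Field L] [Algebra ℂ L] {F : IntermediateField ℂ L}

/-- The hyperelliptic involution is unique. -/
theorem hyp_unique' [hess : Algebra.EssFiniteType ℂ F] (htr : Algebra.trdeg ℂ F = 1)
    (hg : 1 ≤ Module.finrank ℂ (regularForms F)) {s s' : F ≃ₐ[ℂ] F}
    (hs : IsHyp s) (hs' : IsHyp s') (hss : s * s' ≠ 1 → IsHyp (s * s')) : s = s' := by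
  by_contra hne
  have h1 : s * s' ≠ 1 := by
    intro h2
    apply hne
    ext z
    have h3 : s (s' (s' z)) = s' z := by
      have h4 := congrArg (fun g : F ≃ₐ[ℂ] F => g (s' z)) h2
      exact h4
    rw [hs'.2.1] at h3
    exact congrArg _ h3
  obtain ⟨f, hf⟩ : ∃ f : regularForms F, f ≠ 0 := by
    by_contra hcon
    push Not at hcon
    have h2 : Subsingleton (regularForms F) := ⟨fun a b => by rw [hcon a, hcon b]⟩
    have h3 : Module.finrank ℂ (regularForms F) = 0 := Module.finrank_zero_of_subsingleton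
    omega
  apply hf
  refine Subtype.ext (LinearMap.ext fun δ => ?_)
  let δ0 := cj (s * s').symm δ
  have e1 := hyp_neg htr hs' f.2 (δ := δ0) (δ' := cj s' δ0) (cj_apply s' δ0)
  have e2 := hyp_neg htr hs f.2 (δ := cj s' δ0) (δ' := cj s (cj s' δ0))
    (cj_apply s (cj s' δ0))
  have e3 := hyp_neg htr (hss h1) f.2 (δ := δ0) (δ' := cj s (cj s' δ0)) (fun z => by
    change cj s (cj s' δ0) (s (s' z)) = s (s' (δ0 z))
    rw [cj_apply, cj_apply])
  have e4 : cj s (cj s' δ0) = δ := by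
    refine Derivation.ext fun z => ?_
    obtain ⟨x, rfl⟩ := (s * s').surjective z
    change cj s (cj s' δ0) (s (s' x)) = _
    rw [cj_apply, cj_apply]
    have h5 : δ0 x = (s * s').symm (δ ((s * s') x)) := by
      have h6 := cj_apply (s * s').symm δ ((s * s') x)
      rw [AlgEquiv.symm_apply_apply] at h6
      exact h6
    rw [h5]
    exact (s * s').apply_symm_apply _
  rw [e4] at e2 e3
  have e5 : (s * s') ((f : Derivation ℂ F F →ₗ[F] F) δ0) = s (s' ((f : Derivation ℂ F F →ₗ[F] F) δ0)) :=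
    rfl
  rw [e5, e1, map_neg, e2, neg_neg] at e3
  have e6 : (2 : F) * (f : Derivation ℂ F F →ₗ[F] F) δ = 0 := by
    linear_combination e3
  rcases mul_eq_zero.1 e6 with h7 | h7
  · exact absurd h7 two_ne_zero
  · exact h7

end

section

variable {L : Type} [Field L] [Algebra ℂ L]
variable {r : ℕ} {M : Fin r → IntermediateField ℂ L}
  {G : Subgroup (L ≃ₐ[ℂ] L)} {σ : G →* Equiv.Perm (Fin r)}

/-- **The ages.** -/
theorem age_cases' [Finite G] (h : IsPermuted M (fun _ => 1) G σ)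
    (hst : ∀ (g : G) i, σ g i = i → (∀ z ∈ M i, (g : L ≃ₐ[ℂ] L) z = z) ∨
      ((∃ z ∈ M i, (g : L ≃ₐ[ℂ] L) z ≠ z) ∧
      (∀ z ∈ M i, (g : L ≃ₐ[ℂ] L) ((g : L ≃ₐ[ℂ] L) z) = z) ∧
      ∃ t : M i, ∀ z : M i, (g : L ≃ₐ[ℂ] L) (z : L) = z ↔ z ∈ ℂ⟮t⟯)) (g : G) (hg : g ≠ 1)
    (hrefl : ¬ ∃ i, (∀ z ∈ M i, (g : L ≃ₐ[ℂ] L) z ∈ M i) ∧
      ∀ l, l ≠ i → ∀ z ∈ M l, (g : L ≃ₐ[ℂ] L) z = z) :
    (∃ i j, TI M (fun _ => 1) (g : L ≃ₐ[ℂ] L) i j) ∨
      1 ≤ age M (fun _ => 1) (σ g) (fun _ _ => 0) (g : L ≃ₐ[ℂ] L) := by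
  classical
  have hfin : IsOfFinOrder (g : L ≃ₐ[ℂ] L) := finord g.2
  set π := σ g with hπ
  let T : Fin r → ℝ := fun i => (1 / (Function.minimalPeriod π i : ℝ)) *
    (((fun _ => 1 : Fin r → ℕ) i : ℝ) * ((Function.minimalPeriod π i : ℝ) - 1) / 2 +
      wgt (M i) ((g : L ≃ₐ[ℂ] L) ^ Function.minimalPeriod π i) 0)
  have hage : age M (fun _ => 1) π (fun _ _ => 0) (g : L ≃ₐ[ℂ] L) = ∑ i, T i := rfl
  have hT0 : ∀ i, 0 ≤ T i := by
    intro i
    have h1 := perm_term_nonneg (fun _ => 1 : Fin r → ℕ) π i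
    have h2 : 0 ≤ (1 / (Function.minimalPeriod π i : ℝ)) *
        wgt (M i) ((g : L ≃ₐ[ℂ] L) ^ Function.minimalPeriod π i) 0 :=
      mul_nonneg (by positivity) (wgt_nonneg _ _ _)
    have h3 : T i = (1 / (Function.minimalPeriod π i : ℝ)) *
        (((fun _ => 1 : Fin r → ℕ) i : ℝ) * ((Function.minimalPeriod π i : ℝ) - 1) / 2) +
        (1 / (Function.minimalPeriod π i : ℝ)) *
        wgt (M i) ((g : L ≃ₐ[ℂ] L) ^ Function.minimalPeriod π i) 0 := mul_add _ _ _
    rw [h3]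
    exact add_nonneg h1 h2
  have hsub : ∀ S : Finset (Fin r), ∑ i ∈ S, T i ≤ ∑ i, T i := fun S =>
    Finset.sum_le_sum_of_subset_of_nonneg (Finset.subset_univ S) fun i _ _ => hT0 i
  -- fixed factors on which `g` is not trivial
  have hfixed : ∀ i, π i = i → (∃ z ∈ M i, (g : L ≃ₐ[ℂ] L) z ≠ z) → T i = 1 / 2 := by
    intro i hi hz
    have h1 : Function.minimalPeriod π i = 1 := Function.minimalPeriod_eq_one_iff_isFixedPt.2 hi
    have h2 : T i = (1 / ((1 : ℕ) : ℝ)) * (((fun _ => 1 : Fin r → ℕ) i : ℝ) * (((1 : ℕ) : ℝ) - 1) / 2 +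
        wgt (M i) ((g : L ≃ₐ[ℂ] L) ^ 1) 0) := by
      simp only [T]
      rw [h1]
    rcases hst g _ hi with h3 | ⟨-, h3, -⟩
    · obtain ⟨z, hz1, hz2⟩ := hz
      exact absurd (h3 z hz1) hz2
    · rw [h2, pow_one, wgt_half hfin hz h3]
      norm_num
  by_cases hex : ∃ i, π i ≠ i
  · obtain ⟨i, hi⟩ := hex
    by_cases hlt : permAge (fun _ => 1) π < 1
    swap
    · right
      push Not at hlt
      rw [age_eq]
      have := wsum_nonneg M π (fun _ _ => 0) (g : L ≃ₐ[ℂ] L)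
      linarith
    obtain ⟨-, hππ, hoth⟩ := perm_cases (fun _ => 1 : Fin r → ℕ) π (fun _ => rfl) hlt hi le_rfl
    have hoth' : ∀ m, m ≠ i → m ≠ π i → π m = m := fun m h1 h2 => hoth m h1 h2 le_rfl
    have hmp : ∀ j, π j ≠ j → π (π j) = j → Function.minimalPeriod π j = 2 := by
      intro j h1 h2
      have h3 : Function.minimalPeriod π j ∣ 2 := by
        apply Function.IsPeriodicPt.minimalPeriod_dvd
        exact h2
      rcases (Nat.dvd_prime Nat.prime_two).1 h3 with h4 | h4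
      · exact absurd (Function.minimalPeriod_eq_one_iff_isFixedPt.1 h4) h1
      · exact h4
    have hTm : ∀ j, π j ≠ j → π (π j) = j →
        T j = 1 / 4 + 1 / 2 * wgt (M j) ((g : L ≃ₐ[ℂ] L) ^ 2) 0 := by
      intro j h1 h2
      simp only [T]
      rw [hmp j h1 h2]
      push_cast
      ring
    have hπi : π (π i) ≠ π i := fun h0 => hi (π.injective h0)
    have hπππ : π (π (π i)) = π i := by rw [hππ]
    by_cases hm : ∃ m, m ≠ i ∧ m ≠ π i ∧ ∃ z ∈ M m, (g : L ≃ₐ[ℂ] L) z ≠ z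
    · obtain ⟨m, hm1, hm2, hm3⟩ := hm
      right
      have h1 := hfixed m (hoth' m hm1 hm2) hm3
      have h2 := hTm i hi hππ
      have h3 := hTm (π i) hπi hπππ
      have h4 := wgt_nonneg (M i) ((g : L ≃ₐ[ℂ] L) ^ 2) 0
      have h5 := wgt_nonneg (M (π i)) ((g : L ≃ₐ[ℂ] L) ^ 2) 0
      have h6 := hsub {i, π i, m}
      rw [Finset.sum_insert, Finset.sum_insert, Finset.sum_singleton] at h6
      · rw [hage]; linarith
      · rw [Finset.mem_singleton]; exact fun h0 => hm2 h0.symm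
      · rw [Finset.mem_insert, Finset.mem_singleton, not_or]
        exact ⟨fun h0 => hi h0.symm, fun h0 => hm1 h0.symm⟩
    push Not at hm
    by_cases hsq : ∀ z ∈ M i, (g : L ≃ₐ[ℂ] L) ((g : L ≃ₐ[ℂ] L) z) = z
    · left
      have hmap : ∀ z ∈ M i, (g : L ≃ₐ[ℂ] L) z ∈ M (π i) := h.perm g i
      have hmap' : ∀ z ∈ M (π i), (g : L ≃ₐ[ℂ] L) z ∈ M i := by
        intro z hz
        have := h.perm g (π i) z hz
        rw [← hπ, hππ] at this
        exact this
      have hsq' : ∀ z ∈ M (π i), (g : L ≃ₐ[ℂ] L) ((g : L ≃ₐ[ℂ] L) z) = z := by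
        intro z hz
        have h1 := hsq _ (hmap' z hz)
        exact (g : L ≃ₐ[ℂ] L).injective h1
      have h2 : (g : L ≃ₐ[ℂ] L) * (g : L ≃ₐ[ℂ] L) = 1 := by
        refine eq_one h fun l z hz => ?_
        change (g : L ≃ₐ[ℂ] L) ((g : L ≃ₐ[ℂ] L) z) = z
        by_cases hl1 : l = i
        · subst hl1; exact hsq z hz
        by_cases hl2 : l = π i
        · subst hl2; exact hsq' z hz
        rw [hm l hl1 hl2 z hz, hm l hl1 hl2 z hz]
      refine ⟨i, π i, ⟨Ne.symm hi, rfl, rfl, hmap, hmap', fun l hl1 hl2 z hz => hm l hl1 hl2 z hz⟩,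
        fun z => ?_⟩
      exact DFunLike.congr_fun h2 z
    · right
      push Not at hsq
      obtain ⟨z, hz, hz'⟩ := hsq
      have hg2 : σ (g ^ 2) i = i := by
        rw [map_pow, pow_two]
        exact hππ
      have hg2' : σ (g ^ 2) (π i) = π i := by
        rw [map_pow, pow_two]
        exact hπππ
      have hval : ∀ j, σ (g ^ 2) j = j → (∃ z ∈ M j, (g : L ≃ₐ[ℂ] L) ((g : L ≃ₐ[ℂ] L) z) ≠ z) →
          wgt (M j) ((g : L ≃ₐ[ℂ] L) ^ 2) 0 = 1 / 2 := by
        intro j hj hz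
        have hpow : ((g ^ 2 : G) : L ≃ₐ[ℂ] L) = (g : L ≃ₐ[ℂ] L) ^ 2 := rfl
        have e : ∀ z, ((g : L ≃ₐ[ℂ] L) ^ 2) z = (g : L ≃ₐ[ℂ] L) ((g : L ≃ₐ[ℂ] L) z) := by
          intro z
          rw [pow_two]; rfl
        rcases hst (g ^ 2) _ hj with h3 | ⟨-, h3, -⟩
        · obtain ⟨z, hz1, hz2⟩ := hz
          rw [hpow] at h3
          exact absurd (by rw [← e]; exact h3 z hz1) hz2
        · rw [hpow] at h3
          refine wgt_half hfin.pow ?_ h3
          obtain ⟨z, hz1, hz2⟩ := hz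
          exact ⟨z, hz1, by rw [e]; exact hz2⟩
      have h2 := hTm i hi hππ
      have h3 := hTm (π i) hπi hπππ
      rw [hval i hg2 ⟨z, hz, hz'⟩] at h2
      rw [hval (π i) hg2' ⟨(g : L ≃ₐ[ℂ] L) z, h.perm g i z hz, fun h0 => hz'
        ((g : L ≃ₐ[ℂ] L).injective h0)⟩] at h3
      have h6 := hsub {i, π i}
      rw [Finset.sum_insert, Finset.sum_singleton] at h6
      · rw [hage]; linarith
      · rw [Finset.mem_singleton]; exact fun h0 => hi h0.symm
  · push Not at hex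
    right
    obtain ⟨i, z, hz, hz'⟩ : ∃ i, ∃ z ∈ M i, (g : L ≃ₐ[ℂ] L) z ≠ z := by
      by_contra hcon
      push Not at hcon
      exact hg (Subtype.ext (eq_one h hcon))
    obtain ⟨j, hji, z', hz1, hz1'⟩ : ∃ j, j ≠ i ∧ ∃ z ∈ M j, (g : L ≃ₐ[ℂ] L) z ≠ z := by
      by_contra hcon
      push Not at hcon
      refine hrefl ⟨i, fun z hz => ?_, hcon⟩
      have := h.perm g i z hz
      rwa [← hπ, hex i] at this
    have h1 := hfixed i (hex i) ⟨z, hz, hz'⟩
    have h2 := hfixed j (hex j) ⟨z', hz1, hz1'⟩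
    have h6 := hsub {i, j}
    rw [Finset.sum_insert, Finset.sum_singleton] at h6
    · rw [hage]; linarith
    · rw [Finset.mem_singleton]; exact fun h0 => hji h0.symm

end

end Pool.Agent.H908.UA
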