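import Pool.Agent.H908.UA3

/-! Quotients of products of curves, by groups whose stabilizers act on the factors trivially or by a
hyperelliptic involution. -/

set_option autoImplicit false
set_option linter.overlappingInstances false
set_option linter.unusedSectionVars false
set_option linter.unusedVariables false
set_option linter.style.haveILetI false

open FF IntermediateField Pool.Agent.W619.PQ Pool.Agent.W619.PL Pool.Agent.W619.TW
  Pool.Agent.W603.LV Pool.Agent.W619.Y Pool.Agent.W672.PG Pool.Agent.W824.PG Pool.Agent.Y174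
  Pool.Agent.K1H17.IS Pool.Agent.K1H6.PQ

namespace Pool.Agent.H908.UA

open Pool.Agent.H908.SB Pool.Agent.H908.TA
open Pool.Agent.Helper11K9.OD (regularForms)

section

variable {L : Type} [Field L] [Algebra ℂ L]
variable {r : ℕ} {M : Fin r → IntermediateField ℂ L}
  {G : Subgroup (L ≃ₐ[ℂ] L)} {σ : G →* Equiv.Perm (Fin r)}

/-- The permutation of the factors. -/
theorem exists_sigmaG (M : Fin r → IntermediateField ℂ L)
    (hess : ∀ i, Algebra.EssFiniteType ℂ (M i)) (htr : ∀ i, Algebra.trdeg ℂ (M i) = 1)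
    (hL : Algebra.trdeg ℂ L = r) (hsup : (⨆ i, M i) = ⊤) (G : Subgroup (L ≃ₐ[ℂ] L))
    (hperm : ∀ g ∈ G, ∀ i, ∃ j, ∀ z ∈ M i, g z ∈ M j) :
    ∃ σ : G →* Equiv.Perm (Fin r), IsPermuted M (fun _ => 1) G σ := by
  classical
  have hperm' : ∀ (g : G) i, ∃ j, ∀ z ∈ M i, (g : L ≃ₐ[ℂ] L) z ∈ M j := fun g i =>
    hperm g g.2 i
  choose p hp using hperm'
  have htrans : ∀ i, ∃ t : M i, Transcendental ℂ (t : L) := by
    intro i
    obtain ⟨x, hx⟩ := Pool.Agent.W636.PG.exists_basis ℂ (M i) 1 (by rw [htr, Nat.cast_one])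
    refine ⟨x 0, fun h => hx.1.transcendental 0 ?_⟩
    exact (isAlgebraic_algebraMap_iff (algebraMap (M i) L).injective).1 h
  have huniq : ∀ (g : G) i j, (∀ z ∈ M i, (g : L ≃ₐ[ℂ] L) z ∈ M j) → p g i = j := by
    intro g i j hj
    obtain ⟨t, ht⟩ := htrans i
    refine factor_inj M htr hL hsup (t := (g : L ≃ₐ[ℂ] L) t) ?_ (hp g i t t.2) (hj t t.2)
    intro h
    exact ht ((isAlgebraic_algHom_iff ((g : L ≃ₐ[ℂ] L) : L →ₐ[ℂ] L)
      (g : L ≃ₐ[ℂ] L).injective).1 h)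
  let act : MulAction G (Fin r) :=
    { smul := fun g i => p g i
      one_smul := fun i => huniq _ _ _ fun z hz => hz
      mul_smul := fun g g' i => huniq _ _ _ fun z hz => hp g _ _ (hp g' i z hz) }
  refine ⟨MulAction.toPermHom G (Fin r), hess, fun i => by rw [htr, Nat.cast_one], ?_, hsup,
    fun g i z hz => hp g i z hz⟩
  rw [hL]; simp

/-- The stabilizers of the factors act on the factors trivially or by a hyperelliptic involution. -/
def HypStab (M : Fin r → IntermediateField ℂ L) (G : Subgroup (L ≃ₐ[ℂ] L)) : Prop :=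
  ∀ g ∈ G, ∀ i, (∀ z ∈ M i, g z ∈ M i) → (∀ z ∈ M i, g z = z) ∨
    ((∀ z ∈ M i, g (g z) = z) ∧ ∃ t : M i, ∀ z : M i, g (z : L) = z ↔ z ∈ ℂ⟮t⟯)

theorem HypStab.hst (h : IsPermuted M (fun _ => 1) G σ) (hS : HypStab M G) (g : G) (i : Fin r)
    (hi : σ g i = i) : (∀ z ∈ M i, (g : L ≃ₐ[ℂ] L) z = z) ∨
      ((∃ z ∈ M i, (g : L ≃ₐ[ℂ] L) z ≠ z) ∧
      (∀ z ∈ M i, (g : L ≃ₐ[ℂ] L) ((g : L ≃ₐ[ℂ] L) z) = z) ∧
      ∃ t : M i, ∀ z : M i, (g : L ≃ₐ[ℂ] L) (z : L) = z ↔ z ∈ ℂ⟮t⟯) := by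
  have h1 : ∀ z ∈ M i, (g : L ≃ₐ[ℂ] L) z ∈ M i := by
    intro z hz
    have := h.perm g i z hz
    rwa [hi] at this
  rcases hS g g.2 i h1 with h2 | ⟨h2, h3⟩
  · exact Or.inl h2
  · by_cases h4 : ∃ z ∈ M i, (g : L ≃ₐ[ℂ] L) z ≠ z
    · exact Or.inr ⟨h4, h2, h3⟩
    · push Not at h4
      exact Or.inl h4

/-- Equivariant coordinates. -/
theorem exists_WG (h : IsPermuted M (fun _ => 1) G σ) (hS : HypStab M G) (i : Fin r)
    (hg : 1 ≤ Module.finrank ℂ (regularForms (M i))) :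
    ∃ W : M i, IsTranscendenceBasis ℂ (fun _ : Fin 1 => W) ∧
      ∀ g ∈ G, (∀ z ∈ M i, g z ∈ M i) → g (W : L) = W ∧ ∃ ε : ℂ, (ε = 1 ∨ ε = -1) ∧
        ∀ f ∈ Rs W, g (f : L) = algebraMap ℂ L ε * f := by
  haveI := h.ess i
  have htr : Algebra.trdeg ℂ (M i) = 1 := by rw [h.trdeg, Nat.cast_one]
  have hinv : ∀ g ∈ G, (∀ z ∈ M i, g z ∈ M i) → ∀ z ∈ M i, g⁻¹ z ∈ M i := by
    intro g hgG hgi z hz
    have h1 := sigma_eq h ⟨g, hgG⟩ (i := i) (j := i) le_rfl hgi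
    have h2 : σ (⟨g, hgG⟩ : G)⁻¹ i = i := by
      rw [map_inv, Equiv.Perm.inv_eq_iff_eq, h1]
    have h3 := h.perm (⟨g, hgG⟩ : G)⁻¹ i z hz
    rwa [h2] at h3
  have hhyp : ∀ g ∈ G, (∀ z ∈ M i, g z ∈ M i) → ∀ s : M i ≃ₐ[ℂ] M i,
      (∀ z : M i, (s z : L) = g (z : L)) → s ≠ 1 → IsHyp s := by
    intro g hgG hgi s hs hs1
    rcases hS g hgG i hgi with h2 | ⟨h2, t, h3⟩
    · exact absurd (AlgEquiv.ext fun z => Subtype.ext (by rw [hs]; exact h2 z z.2)) hs1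
    · refine ⟨hs1, fun z => Subtype.ext ?_, t, fun z => ?_⟩
      · rw [hs, hs]
        exact h2 z z.2
      · rw [← h3 z, ← hs z]
        exact ⟨fun h => congrArg Subtype.val h, fun h => Subtype.ext h⟩
  by_cases hex : ∃ g0 ∈ G, (∀ z ∈ M i, g0 z ∈ M i) ∧ ∃ z ∈ M i, g0 z ≠ z
  · obtain ⟨g0, hg0, hg0i, z0, hz0, hz0'⟩ := hex
    obtain ⟨s0, hs0⟩ := exists_res (M i) g0 hg0i (hinv g0 hg0 hg0i)
    have hs01 : s0 ≠ 1 := by
      intro h1
      apply hz0'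
      have := hs0 ⟨z0, hz0⟩
      rw [h1] at this
      exact this.symm
    have hh := hhyp g0 hg0 hg0i s0 hs0 hs01
    obtain ⟨-, hs2, t, ht⟩ := hh
    refine ⟨t, hyp_basis htr hs2 ht, fun g hgG hgi => ?_⟩
    obtain ⟨s, hs⟩ := exists_res (M i) g hgi (hinv g hgG hgi)
    by_cases hs1 : s = 1
    · have htriv : ∀ z : M i, g (z : L) = z := by
        intro z
        rw [← hs, hs1]; rfl
      exact ⟨htriv t, 1, Or.inl rfl, fun f _ => by rw [htriv, map_one, one_mul]⟩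
    · have h1 : s = s0 := by
        refine hyp_unique' htr hg (hhyp g hgG hgi s hs hs1) (hhyp g0 hg0 hg0i s0 hs0 hs01)
          (fun hne => ?_)
        refine hhyp (g * g0) (G.mul_mem hgG hg0) (fun z hz => hgi _ (hg0i z hz)) (s * s0)
          (fun z => ?_) hne
        change ((s (s0 z) : M i) : L) = g (g0 (z : L))
        rw [hs, hs0]
      refine ⟨by rw [← hs, h1, hyp_fix ht], -1, Or.inr rfl, fun f hf => ?_⟩
      rw [← hs, h1, hyp_coord htr hs2 ht hf, map_neg, map_one, neg_one_mul]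
      rfl
  · push Not at hex
    obtain ⟨x, hx⟩ := Pool.Agent.W636.PG.exists_basis ℂ (M i) 1 (by rw [htr, Nat.cast_one])
    have h1 : x = fun _ : Fin 1 => x 0 := by
      funext i; rw [Subsingleton.elim i 0]
    refine ⟨x 0, h1 ▸ hx, fun g hgG hgi => ?_⟩
    exact ⟨hex g hgG hgi _ (x 0).2, 1, Or.inl rfl, fun f _ => by
      rw [hex g hgG hgi _ f.2, map_one, one_mul]⟩

/-- **The main theorem.** -/
theorem main (M : Fin r → IntermediateField ℂ L)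
    (hess : ∀ i, Algebra.EssFiniteType ℂ (M i)) (htr : ∀ i, Algebra.trdeg ℂ (M i) = 1)
    (hL : Algebra.trdeg ℂ L = r) (hsup : (⨆ i, M i) = ⊤)
    (G : Subgroup (L ≃ₐ[ℂ] L)) [Finite G] (hperm : ∀ g ∈ G, ∀ i, ∃ j, ∀ z ∈ M i, g z ∈ M j)
    (hS : HypStab M G) :
    [BigenusZero (fixedField G) r,
      KodairaNeg ℂ (fixedField G) r,
      ¬ IsPsef ℂ (fixedField G) r (fun _ => False),
      IsUniruled ℂ (fixedField G) r,
      (∃ g ∈ G, g ≠ 1 ∧ ∃ i, (∀ z ∈ M i, g z ∈ M i) ∧ ∀ l, l ≠ i → ∀ z ∈ M l, g z = z) ∨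
        ∃ i, Module.finrank ℂ (regularForms (M i)) < (bl M (fun _ => 1) G i).ncard].TFAE := by
  classical
  obtain ⟨σ, h⟩ := exists_sigmaG M hess htr hL hsup G hperm
  obtain ⟨n, hn⟩ : ∃ n : ℕ, n = ∑ i : Fin r, (fun _ => 1 : Fin r → ℕ) i := ⟨_, rfl⟩
  have hnr : n = r := by rw [hn]; simp
  suffices hmain : [BigenusZero (fixedField G) n, KodairaNeg ℂ (fixedField G) n,
      ¬ IsPsef ℂ (fixedField G) n (fun _ => False),
      IsUniruled ℂ (fixedField G) n,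
      (∃ g ∈ G, g ≠ 1 ∧ ∃ i, (∀ z ∈ M i, g z ∈ M i) ∧ ∀ l, l ≠ i → ∀ z ∈ M l, g z = z) ∨
        ∃ i, Module.finrank ℂ (regularForms (M i)) < (bl M (fun _ => 1) G i).ncard].TFAE by
    rwa [hnr] at hmain
  rw [hn]
  obtain ⟨hnK, hessK⟩ := Pool.Agent.K1H97.PU.quot h
  have hst := HypStab.hst h hS
  have h54 : ((∃ g ∈ G, g ≠ 1 ∧ ∃ i, (∀ z ∈ M i, g z ∈ M i) ∧
      ∀ l, l ≠ i → ∀ z ∈ M l, g z = z) ∨
      ∃ i, Module.finrank ℂ (regularForms (M i)) < (bl M (fun _ => 1) G i).ncard) →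
      IsUniruled ℂ (fixedField G) (∑ i : Fin r, (fun _ => 1 : Fin r → ℕ) i) := by
    rintro (⟨g, hgG, hg1, i, hgi, hgo⟩ | ⟨i, hlt⟩)
    · have h1 := sigma_eq h ⟨g, hgG⟩ (i := i) (j := i) le_rfl hgi
      rcases hst ⟨g, hgG⟩ i h1 with h2 | ⟨⟨z, hz, hz'⟩, h3, t, ht⟩
      · exfalso
        apply hg1
        refine eq_one h fun l z hz => ?_
        by_cases hl : l = i
        · subst hl; exact h2 z hz
        · exact hgo l hl z hz
      · exact uniruled_refl h rfl hgG h3 hgo ⟨z, hz, hgi z hz, hz'⟩ t ht hgi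
    · exact uniruled_blk' h rfl hlt
  have h43 : IsUniruled ℂ (fixedField G) (∑ i : Fin r, (fun _ => 1 : Fin r → ℕ) i) →
      ¬ IsPsef ℂ (fixedField G) (∑ i : Fin r, (fun _ => 1 : Fin r → ℕ) i) (fun _ => False) :=
    fun h1 => (uniruled_neg _ hnK h1).1
  have h32 : ¬ IsPsef ℂ (fixedField G) (∑ i : Fin r, (fun _ => 1 : Fin r → ℕ) i)
      (fun _ => False) → KodairaNeg ℂ (fixedField G) (∑ i : Fin r, (fun _ => 1 : Fin r → ℕ) i) :=
    fun h1 => kodairaNeg_of_not_eff.1 fun h3 => h1 (psef_of_eff h3)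
  have h21 : KodairaNeg ℂ (fixedField G) (∑ i : Fin r, (fun _ => 1 : Fin r → ℕ) i) →
      BigenusZero (fixedField G) (∑ i : Fin r, (fun _ => 1 : Fin r → ℕ) i) :=
    fun h1 ω hω hr D => h1 2 (by norm_num) ω hω hr D
  have h15 : BigenusZero (fixedField G) (∑ i : Fin r, (fun _ => 1 : Fin r → ℕ) i) →
      ((∃ g ∈ G, g ≠ 1 ∧ ∃ i, (∀ z ∈ M i, g z ∈ M i) ∧ ∀ l, l ≠ i → ∀ z ∈ M l, g z = z) ∨
      ∃ i, Module.finrank ℂ (regularForms (M i)) < (bl M (fun _ => 1) G i).ncard) := by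
    intro h1
    by_contra hcon
    rw [not_or] at hcon
    obtain ⟨hc1, hc2⟩ := hcon
    push Not at hc2
    have hb1 : ∀ i, 1 ≤ (bl M (fun _ => 1) G i).ncard := by
      intro i
      exact (Set.ncard_pos (Set.toFinite _)).2 ⟨i, Or.inl rfl⟩
    obtain ⟨W, C, hW, hC, hgW, hgC, hdet, hinv⟩ := exists_equiv h
      (fun i W => {f | RegF (k := ℂ) (fun _ : Fin 1 => W) 1 f}) (fun i W => RegF.zero _ _)
      (fun g i W f W' f' hf hW' hf' => by
        have hT2 : ∀ z ∈ M (σ g i), (g : L ≃ₐ[ℂ] L).symm z ∈ M i := by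
          intro z hz
          have h1 := h.perm g⁻¹ (σ g i) z hz
          have h2 : σ g⁻¹ (σ g i) = i := by
            rw [map_inv, Equiv.Perm.inv_eq_iff_eq]
          rw [h2] at h1
          exact h1
        have h1 := RegF.push (resEquiv (g : L ≃ₐ[ℂ] L) (h.perm g i) hT2) hf
        have h2 : W' = resEquiv (g : L ≃ₐ[ℂ] L) (h.perm g i) hT2 W := Subtype.ext hW'
        have h3 : f' = resEquiv (g : L ≃ₐ[ℂ] L) (h.perm g i) hT2 f := Subtype.ext hf'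
        rw [h2, h3]
        exact h1)
      (fun i => by
        obtain ⟨W, hW, hW2⟩ := exists_WG h hS i ((hb1 i).trans (hc2 i))
        obtain ⟨E0, hE0⟩ := Pool.Agent.W636.PG.exists_duals ℂ (M i) 1 _ hW
        have hE : E0 0 W = 1 := by
          have := hE0 0 0
          rwa [if_pos rfl] at this
        obtain ⟨ω, hω⟩ := exists_indep (V := regularForms (M i))
          (S := Fin (bl M (fun _ => 1) G i).ncard) (by rw [Fintype.card_fin]; exact hc2 i)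
        refine ⟨W, hW, ⟨fun n => (ω n : Derivation ℂ (M i) (M i) →ₗ[M i] M i) (E0 0),
          fun n => ?_, indep_forms hW hE hω⟩, hW2⟩
        exact regF_of_form hW hE (ω n).2 rfl)
    refine bigenus_form h W C hW hC hgW hgC hdet hinv (fun g hg1 => age_cases' h hst g hg1 ?_) h1
    rintro ⟨i, hgi, hgo⟩
    exact hc1 ⟨g, g.2, fun h0 => hg1 (Subtype.ext h0), i, hgi, hgo⟩
  tfae_have 1 → 5 := h15
  tfae_have 5 → 4 := h54
  tfae_have 4 → 3 := h43
  tfae_have 3 → 2 := h32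
  tfae_have 2 → 1 := h21
  tfae_finish

/-- For general curves all groups satisfy the conditions. -/
theorem general_curves (M : Fin r → IntermediateField ℂ L)
    (hess : ∀ i, Algebra.EssFiniteType ℂ (M i)) (htr : ∀ i, Algebra.trdeg ℂ (M i) = 1)
    (hL : Algebra.trdeg ℂ L = r) (hsup : (⨆ i, M i) = ⊤)
    (hg : ∀ i, 2 ≤ Module.finrank ℂ (regularForms (M i)))
    (hA : ∀ i (s : M i ≃ₐ[ℂ] M i), s ≠ 1 → IsHyp s) (G : Subgroup (L ≃ₐ[ℂ] L)) :
    Finite G ∧ (∀ g ∈ G, ∀ i, ∃ j, ∀ z ∈ M i, g z ∈ M j) ∧ HypStab M G := by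
  haveI hfinL := aut_finite M hess htr hL hsup hg hA
  obtain ⟨σ, h⟩ := exists_sigma' M hess htr hL hsup hg G
  refine ⟨inferInstance, fun g hgG i => ⟨σ ⟨g, hgG⟩ i, h.perm ⟨g, hgG⟩ i⟩,
    fun g hgG i hgi => ?_⟩
  have h1 := sigma_eq h ⟨g, hgG⟩ (i := i) (j := i) le_rfl hgi
  rcases stab_cases h hA ⟨g, hgG⟩ h1 with h2 | ⟨-, h3, h4⟩
  · exact Or.inl h2
  · exact Or.inr ⟨h3, h4⟩

end

end Pool.Agent.H908.UA
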