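import Pool.Agent.H908.SA8

/-! Uniqueness of the extension of a place to a larger field of constants. -/

set_option autoImplicit false
set_option linter.overlappingInstances false
set_option linter.unusedSectionVars false
set_option linter.unusedVariables false

open FF IntermediateField

namespace Pool.Agent.H908.UB

open Pool.Agent.W603.LV Pool.Agent.W602.RG Pool.Agent.Helper11K9.PC Pool.Agent.Helper11K9.OD
open Pool.Agent.H908.SA

section

variable {k L Ω E : Type} [Field k] [Field L] [Field Ω] [Field E] [Algebra k L]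
    [Algebra k Ω] [Algebra k E] [Algebra L E] [Algebra Ω E]
variable [IsAlgClosed k] [CharZero k] [IsFF k L]

/-- The order of a sum with independent constants. -/
theorem ord_lin (bc : BC k L Ω E) {p : Place k L} {P : Place Ω E} {e : ℕ} (he : 0 < e)
    (hP : ∀ l : L, P.ord (algebraMap L E l) = e * p.ord l) {ι : Type} (s : Finset ι) (m : ι → Ω)
    (hm : LinearIndependent k m) (β : ι → L) (n : ℤ) (hβ : ∀ i ∈ s, Ge p n (β i))
    (hex : ∃ i ∈ s, β i ≠ 0 ∧ p.ord (β i) = n) :
    (∑ i ∈ s, algebraMap Ω E (m i) * algebraMap L E (β i)) ≠ 0 ∧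
      P.ord (∑ i ∈ s, algebraMap Ω E (m i) * algebraMap L E (β i)) = e * n := by
  classical
  have _ := bc.towerL
  have _ := bc.towerO
  obtain ⟨π, hπ0, hπ⟩ := p.surj
  have hz0 : π ^ (-n) ≠ 0 := zpow_ne_zero _ hπ0
  have hz : p.ord (π ^ (-n)) = -n := by rw [p.ord_zpow, hπ, mul_one]
  have hzE : algebraMap L E (π ^ (-n)) ≠ 0 := (_root_.map_ne_zero _).2 hz0
  have hc : ∀ i, ∃ c : k, i ∈ s → Ge p 1 (β i * π ^ (-n) - algebraMap k L c) := by
    intro i
    by_cases hi : i ∈ s
    · have h1 : Ge p 0 (β i * π ^ (-n)) := by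
        have h2 : Ge p (-n) (π ^ (-n)) := Or.inr hz.ge
        simpa using (hβ i hi).mul h2
      obtain ⟨c, hc⟩ := Pool.Agent.W603.LV.exists_const p h1
      exact ⟨c, fun _ => hc⟩
    · exact ⟨0, fun h => absurd h hi⟩
  choose c hc using hc
  obtain ⟨i0, hi0, hβ0, hn0⟩ := hex
  have hc0 : c i0 ≠ 0 := by
    intro h0
    have h1 := hc i0 hi0
    rw [h0, map_zero, sub_zero] at h1
    have h2 := h1.resolve_left (mul_ne_zero hβ0 hz0)
    rw [p.ord_mul hβ0 hz0, hn0, hz] at h2
    omega
  have hsum0 : ∑ i ∈ s, c i • m i ≠ 0 := by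
    intro h0
    exact hc0 ((linearIndependent_iff'.1 hm) s c h0 i0 hi0)
  obtain ⟨u, hu⟩ : ∃ u, u = ∑ i ∈ s, algebraMap Ω E (m i) * algebraMap L E (β i) := ⟨_, rfl⟩
  rw [← hu]
  have h1 : Ge P 1 (u * algebraMap L E (π ^ (-n)) - algebraMap Ω E (∑ i ∈ s, c i • m i)) := by
    have h2 : u * algebraMap L E (π ^ (-n)) - algebraMap Ω E (∑ i ∈ s, c i • m i) =
        ∑ i ∈ s, algebraMap Ω E (m i) * algebraMap L E (β i * π ^ (-n) - algebraMap k L (c i)) := by
      rw [hu, Finset.sum_mul, map_sum, ← Finset.sum_sub_distrib]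
      refine Finset.sum_congr rfl fun i _ => ?_
      rw [map_sub, map_mul, Algebra.smul_def, map_mul, ← IsScalarTower.algebraMap_apply k Ω E,
        ← IsScalarTower.algebraMap_apply k L E]
      ring
    rw [h2]
    refine Ge.sum s _ fun i hi => ?_
    have h3 : Ge P 1 (algebraMap L E (β i * π ^ (-n) - algebraMap k L (c i))) := by
      rcases hc i hi with h | h
      · left
        rw [h, map_zero]
      · right
        rw [hP]
        have : (1 : ℤ) ≤ e := by exact_mod_cast he
        nlinarith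
    have h4 := (Ge.const (P := P) (m i)).mul h3
    simpa using h4
  have h2 : u * algebraMap L E (π ^ (-n)) ≠ 0 ∧ P.ord (u * algebraMap L E (π ^ (-n))) = 0 := by
    obtain ⟨a, ha⟩ : ∃ a, a = ∑ i ∈ s, c i • m i := ⟨_, rfl⟩
    rw [← ha] at h1 hsum0
    have haE : algebraMap Ω E a ≠ 0 := (_root_.map_ne_zero _).2 hsum0
    have ha0 : P.ord (algebraMap Ω E a) = 0 := P.ord_const hsum0
    by_cases h3 : u * algebraMap L E (π ^ (-n)) - algebraMap Ω E a = 0
    · rw [sub_eq_zero.1 h3]
      exact ⟨haE, ha0⟩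
    · have h4 := h1.resolve_left h3
      have h5 := P.ord_add_eq (f := algebraMap Ω E a)
        (g := u * algebraMap L E (π ^ (-n)) - algebraMap Ω E a) haE h3 (by omega)
      rw [add_sub_cancel] at h5
      exact ⟨h5.1, by rw [h5.2, ha0]⟩
  have hu0 : u ≠ 0 := left_ne_zero_of_mul h2.1
  refine ⟨hu0, ?_⟩
  have h3 := h2.2
  rw [P.ord_mul hu0 hzE, hP, hz] at h3
  linarith

/-- Expansion of the elements of `Ω L`. -/
theorem expandU (bc : BC k L Ω E) {u : E}
    (hu : u ∈ Submodule.span Ω (Set.range (algebraMap L E))) :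
    ∃ (s : Finset (Module.Basis.ofVectorSpaceIndex k Ω)) (β : Module.Basis.ofVectorSpaceIndex k Ω → L),
      u = ∑ i ∈ s, algebraMap Ω E (Module.Basis.ofVectorSpace k Ω i) * algebraMap L E (β i) := by
  classical
  have _ := bc.towerL
  have _ := bc.towerO
  let b := Module.Basis.ofVectorSpace k Ω
  -- with finitely supported coefficients
  suffices h : ∃ β : Module.Basis.ofVectorSpaceIndex k Ω →₀ L,
      u = β.sum fun i l => algebraMap Ω E (b i) * algebraMap L E l by
    obtain ⟨β, hβ⟩ := h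
    exact ⟨β.support, β, hβ⟩
  have hadd : ∀ β β' : Module.Basis.ofVectorSpaceIndex k Ω →₀ L,
      (β + β').sum (fun i l => algebraMap Ω E (b i) * algebraMap L E l) =
      β.sum (fun i l => algebraMap Ω E (b i) * algebraMap L E l) +
      β'.sum (fun i l => algebraMap Ω E (b i) * algebraMap L E l) := fun β β' =>
    Finsupp.sum_add_index' (fun i => by rw [map_zero, mul_zero])
      (fun i l l' => by rw [map_add, mul_add])
  have hone : ∀ (ω : Ω) (l : L), ∃ β : Module.Basis.ofVectorSpaceIndex k Ω →₀ L,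
      algebraMap Ω E ω * algebraMap L E l =
        β.sum fun i l => algebraMap Ω E (b i) * algebraMap L E l := by
    intro ω l
    refine ⟨(b.repr ω).mapRange (fun c => algebraMap k L c * l) (by rw [map_zero, zero_mul]), ?_⟩
    rw [Finsupp.sum_mapRange_index (fun i => by rw [map_zero, mul_zero])]
    have h1 : ω = (b.repr ω).sum fun i c => c • b i := (b.linearCombination_repr ω).symm
    conv_lhs => rw [h1]
    rw [Finsupp.sum, map_sum, Finset.sum_mul, Finsupp.sum]
    refine Finset.sum_congr rfl fun i _ => ?_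
    rw [Algebra.smul_def, map_mul, ← IsScalarTower.algebraMap_apply k Ω E, map_mul,
      ← IsScalarTower.algebraMap_apply k L E]
    ring
  have key : ∀ v ∈ Submodule.span Ω (Set.range (algebraMap L E)), ∀ ω : Ω,
      ∃ β : Module.Basis.ofVectorSpaceIndex k Ω →₀ L,
      algebraMap Ω E ω * v = β.sum fun i l => algebraMap Ω E (b i) * algebraMap L E l := by
    intro v hv
    induction hv using Submodule.span_induction with
    | mem v hv =>
      obtain ⟨l, rfl⟩ := hv
      exact fun ω => hone ω l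
    | zero => exact fun ω => ⟨0, by rw [mul_zero, Finsupp.sum_zero_index]⟩
    | add v v' _ _ ih ih' =>
      intro ω
      obtain ⟨β, hβ⟩ := ih ω
      obtain ⟨β', hβ'⟩ := ih' ω
      exact ⟨β + β', by rw [mul_add, hβ, hβ', hadd]⟩
    | smul c v _ ih =>
      intro ω
      obtain ⟨β, hβ⟩ := ih (ω * c)
      refine ⟨β, ?_⟩
      rw [← hβ, Algebra.smul_def, map_mul]
      ring
  obtain ⟨β, hβ⟩ := key u hu 1
  exact ⟨β, by rw [← hβ, map_one, one_mul]⟩

/-- The orders at two places over the same place are proportional. -/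
theorem ord_prop (bc : BC k L Ω E) {p : Place k L} {P Q : Place Ω E} {e e' : ℕ} (he : 0 < e)
    (he' : 0 < e') (hP : ∀ l : L, P.ord (algebraMap L E l) = e * p.ord l)
    (hQ : ∀ l : L, Q.ord (algebraMap L E l) = e' * p.ord l) (f : E) (hf : f ≠ 0) :
    e' * P.ord f = e * Q.ord f := by
  classical
  have hU : ∀ u ∈ Submodule.span Ω (Set.range (algebraMap L E)), u ≠ 0 →
      e' * P.ord u = e * Q.ord u := by
    intro u hu hu0
    obtain ⟨s, β, hs⟩ := expandU bc hu
    let T := s.filter fun i => β i ≠ 0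
    have hT : T.Nonempty := by
      by_contra hcon
      rw [Finset.not_nonempty_iff_eq_empty] at hcon
      apply hu0
      rw [hs]
      refine Finset.sum_eq_zero fun i hi => ?_
      have h1 : β i = 0 := by
        by_contra h
        have h2 : i ∈ T := Finset.mem_filter.2 ⟨hi, h⟩
        rw [hcon] at h2
        exact absurd h2 (Finset.notMem_empty i)
      rw [h1, map_zero, mul_zero]
    obtain ⟨i0, hi0, hmin⟩ := Finset.exists_min_image T (fun i => p.ord (β i)) hT
    have hi0' := Finset.mem_filter.1 hi0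
    have hge : ∀ i ∈ s, Ge p (p.ord (β i0)) (β i) := by
      intro i hi
      by_cases h : β i = 0
      · exact Or.inl h
      · exact Or.inr (hmin i (Finset.mem_filter.2 ⟨hi, h⟩))
    have hb := (Module.Basis.ofVectorSpace k Ω).linearIndependent
    have h1 := ord_lin bc he hP s _ hb β _ hge ⟨i0, hi0'.1, hi0'.2, rfl⟩
    have h2 := ord_lin bc he' hQ s _ hb β _ hge ⟨i0, hi0'.1, hi0'.2, rfl⟩
    rw [← hs] at h1 h2
    rw [h1.2, h2.2]
    ring
  obtain ⟨a, ha, b, hb, hb0, rfl⟩ := bc.gen f
  have ha0 : a ≠ 0 := by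
    rintro rfl
    rw [zero_div] at hf
    exact hf rfl
  rw [P.ord_div ha0 hb0, Q.ord_div ha0 hb0, mul_sub, mul_sub, hU a ha ha0, hU b hb hb0]

/-- **Uniqueness.** -/
theorem unique_over (bc : BC k L Ω E) {p : Place k L} {P Q : Place Ω E} {e e' : ℕ} (he : 0 < e)
    (he' : 0 < e') (hP : ∀ l : L, P.ord (algebraMap L E l) = e * p.ord l)
    (hQ : ∀ l : L, Q.ord (algebraMap L E l) = e' * p.ord l) : P = Q := by
  refine P.eq_of_le Q fun f hf hf0 => ?_
  have h1 := ord_prop bc he he' hP hQ f hf
  have h2 : (0 : ℤ) < e := by exact_mod_cast he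
  have h3 : (0 : ℤ) ≤ e' * P.ord f := by positivity
  rw [h1] at h3
  by_contra hcon
  push Not at hcon
  have := mul_neg_of_pos_of_neg h2 hcon
  omega

end

end Pool.Agent.H908.UB
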