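import Pool.Agent.H908.UB1

/-! A pencil on a curve over a large field, which has simple poles at a set of generic points and
vanishes at given constant points. -/

set_option autoImplicit false
set_option linter.overlappingInstances false
set_option linter.unusedSectionVars false
set_option linter.unusedVariables false

open FF IntermediateField

namespace Pool.Agent.H908.UB

open Pool.Agent.W603.LV Pool.Agent.W602.RG Pool.Agent.Helper11K9.PC Pool.Agent.Helper11K9.OD
open Pool.Agent.H908.SA

section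

variable {k L Ω E : Type} [Field k] [Field L] [Field Ω] [Field E] [Algebra k L]
    [Algebra k Ω] [Algebra k E] [Algebra L E] [Algebra Ω E]
variable [IsAlgClosed k] [CharZero k] [IsFF k L] [IsAlgClosed Ω] [CharZero Ω] [IsFF Ω E]

theorem ddeg_ES (S : Finset (Place Ω E)) : ddeg (ES S) = S.card := by
  classical
  induction S using Finset.induction_on with
  | empty =>
    rw [ES, Finset.sum_empty, ddeg_zero, Finset.card_empty, Nat.cast_zero]
  | insert P S hP ih =>
    have h1 : ES (insert P S) = Finsupp.single P (1 : ℤ) + ES S := by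
      rw [ES, Finset.sum_insert hP]
      rfl
    rw [h1, ddeg_add, ddeg_single, ih, Pool.Agent.W603.LV.deg_one, Finset.card_insert_of_notMem hP]
    push_cast
    ring

/-- **A minimal pencil which vanishes at given constant points.** -/
theorem exists_pencilB (bc : BC k L Ω E) {D0 : Derivation k L L} (hD0 : D0 ≠ 0) {ι : Type}
    [Fintype ι] (x : ι → (L →ₐ[k] Ω)) (hx : Function.Injective x) (P : ι → Place Ω E)
    (hP : ∀ i, Ats (P i) (x i)) (B : Finset (Place k L)) (hB : B.Nonempty)
    (hg : Module.finrank k (RR D0 hD0) + B.card ≤ Fintype.card ι) :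
    ∃ (S : Finset ι) (h : E) (b : ℕ), 1 ≤ b ∧ (∀ a : Ω, h ≠ algebraMap Ω E a) ∧
      (∀ i ∈ S, (P i).ord h = -1) ∧
      (∀ Q : Place Ω E, Q.ord h < 0 → ∃ i ∈ S, Q = P i) ∧
      (∀ p ∈ B, ∀ (Q : Place Ω E) (e : ℕ), 0 < e →
        (∀ l : L, Q.ord (algebraMap L E l) = e * p.ord l) → 0 < Q.ord h) ∧
      (∀ Z : Place Ω E →₀ ℤ, (∀ Q, Z Q = max 0 (Q.ord h)) → Module.finrank Ω (LL Z) ≤ b + 1) ∧
      ∃ (r : ℕ) (z : Fin r → (L →ₐ[k] Ω)), r + b ≤ S.card ∧ ∀ Q : Place Ω E, 0 < Q.ord h →
        (∃ l : L, Q.ord (algebraMap L E l) ≠ 0) ∨ ∃ j, Ats Q (z j) := by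
  classical
  have _ := bc.towerL
  have _ := bc.towerO
  have hPinj : Function.Injective P := by
    intro i j hij
    apply hx
    exact (hP i).unique (by rw [hij]; exact hP j)
  choose Qo eo heo hQo using fun p : Place k L => exists_place_over bc p
  let BE : Finset (Place Ω E) := B.image Qo
  have hbB : BE.card ≤ B.card := Finset.card_image_le
  have hb1 : 1 ≤ BE.card := Finset.card_pos.2 (hB.image _)
  have hQnt : ∀ p, ∃ l : L, (Qo p).ord (algebraMap L E l) ≠ 0 := by
    intro p
    obtain ⟨l, -, hl⟩ := p.surj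
    refine ⟨l, ?_⟩
    rw [hQo, hl, mul_one]
    have := heo p
    omega
  have hBEnt : ∀ Q ∈ BE, ∃ l : L, Q.ord (algebraMap L E l) ≠ 0 := by
    intro Q hQ
    obtain ⟨p, -, rfl⟩ := Finset.mem_image.1 hQ
    exact hQnt p
  have hPBE : ∀ i, P i ∉ BE := by
    intro i hi
    obtain ⟨l, hl⟩ := hBEnt _ hi
    exact hl ((hP i).ord l)
  let DV : Finset ι → (Place Ω E →₀ ℤ) := fun S => ES (S.image P) - ES BE
  let V : Finset ι → Submodule Ω E := fun S => LL (k := Ω) (DV S)
  have hVf : ∀ S, FiniteDimensional Ω (V S) := fun S => finDim_LL _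
  have hDVm : ∀ (S : Finset ι) i, i ∈ S → DV S (P i) = 1 := by
    intro S i hi
    change ES (S.image P) (P i) - ES BE (P i) = 1
    rw [ES_mem (Finset.mem_image_of_mem P hi), ES_not_mem (hPBE i), sub_zero]
  have hDVb : ∀ (S : Finset ι) Q, Q ∈ BE → DV S Q = -1 := by
    intro S Q hQ
    change ES (S.image P) Q - ES BE Q = -1
    rw [ES_mem hQ, ES_not_mem, zero_sub]
    rw [Finset.mem_image]
    rintro ⟨i, -, rfl⟩
    exact hPBE i hQ
  have hDV0 : ∀ (S : Finset ι) Q, (∀ i ∈ S, Q ≠ P i) → DV S Q ≤ 0 := by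
    intro S Q hQ
    change ES (S.image P) Q - ES BE Q ≤ 0
    rw [ES_not_mem (by
      rw [Finset.mem_image]
      rintro ⟨i, hi, hi'⟩
      exact hQ i hi hi'.symm)]
    have := ES_nonneg BE Q
    omega
  have hDV0' : ∀ (S : Finset ι) Q, (∀ i ∈ S, Q ≠ P i) → Q ∉ BE → DV S Q = 0 := by
    intro S Q hQ hQB
    change ES (S.image P) Q - ES BE Q = 0
    rw [ES_not_mem (by
      rw [Finset.mem_image]
      rintro ⟨i, hi, hi'⟩
      exact hQ i hi hi'.symm), ES_not_mem hQB, sub_zero]
  have hcard : ∀ S : Finset ι, (S.image P).card = S.card := fun S =>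
    Finset.card_image_of_injective S hPinj
  have hle : ∀ S, DV S ≤ ES (S.image P) := by
    intro S Q
    change ES (S.image P) Q - ES BE Q ≤ ES (S.image P) Q
    have := ES_nonneg BE Q
    omega
  have hddeg : ∀ S, ddeg (ES (S.image P)) - ddeg (DV S) = BE.card := by
    intro S
    change ddeg (ES (S.image P)) - ddeg (ES (S.image P) - ES BE) = BE.card
    rw [ddeg_sub, ddeg_ES BE]
    ring
  have hellV : ∀ S, FF.ell (DV S) = Module.finrank Ω (V S) := fun S => rfl
  have huniv : 1 ≤ Module.finrank Ω (V Finset.univ) := by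
    obtain ⟨D, hDne, hD⟩ := exists_der_ext bc hD0
    have h1 := genus_bc bc hD0 hDne hD
    have hne : (Finset.univ.image P).Nonempty := by
      rw [← Finset.card_pos, hcard, Finset.card_univ]
      have := hB.card_pos
      omega
    have h2 := rr_ineq (D := D) (hD := hDne) (Finset.univ.image P) hne
    rw [hcard, Finset.card_univ] at h2
    have h3 := ell_le (hle Finset.univ)
    rw [hddeg, hellV] at h3
    have h4 : FF.ell (ES (Finset.univ.image P)) =
        Module.finrank Ω (LLS (k := Ω) (Finset.univ.image P)) := rfl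
    rw [h4] at h3
    omega
  obtain ⟨S, hS, hmin⟩ := Finset.exists_min_image
    (Finset.univ.filter fun S : Finset ι => 1 ≤ Module.finrank Ω (V S)) Finset.card
    ⟨Finset.univ, by rw [Finset.mem_filter]; exact ⟨Finset.mem_univ _, huniv⟩⟩
  rw [Finset.mem_filter] at hS
  have hless : ∀ i ∈ S, ∀ g ∈ V (S.erase i), g = 0 := by
    intro i hi g hg
    have h1 : ¬ 1 ≤ Module.finrank Ω (V (S.erase i)) := by
      intro h
      have h2 := hmin (S.erase i) (by rw [Finset.mem_filter]; exact ⟨Finset.mem_univ _, h⟩)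
      have h3 := Finset.card_erase_lt_of_mem hi
      omega
    have h2 : Module.finrank Ω (V (S.erase i)) = 0 := by omega
    have h3 := Submodule.finrank_eq_zero.1 h2
    rw [h3] at hg
    exact (Submodule.mem_bot Ω).1 hg
  obtain ⟨h, hhV, hh0⟩ : ∃ h ∈ V S, h ≠ 0 := by
    refine exists_ne_zero_of_ell_pos ?_
    rw [hellV]
    exact_mod_cast hS.2
  have hhS := (mem_LL.1 hhV).resolve_left hh0
  have hhB : ∀ Q ∈ BE, 1 ≤ Q.ord h := by
    intro Q hQ
    have h1 := hhS Q
    rw [hDVb S Q hQ] at h1
    omega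
  have hh : ∀ a : Ω, h ≠ algebraMap Ω E a := by
    intro a ha
    obtain ⟨Q, hQ⟩ := Finset.card_pos.1 hb1
    have h1 := hhB Q hQ
    have ha0 : a ≠ 0 := by
      rintro rfl
      rw [map_zero] at ha
      exact hh0 ha
    rw [ha, Q.ord_const ha0] at h1
    omega
  -- removing a pole
  have hrem : ∀ (i : ι) (g : E), i ∈ S → g ∈ V S → Ge (P i) 0 g → g = 0 := by
    intro i g hi hg hgi
    by_contra hg0
    apply hg0
    refine hless i hi g ?_
    refine mem_LL.2 (Or.inr fun Q => ?_)
    have h1 := (mem_LL.1 hg).resolve_left hg0 Q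
    by_cases hQi : Q = P i
    · have h2 := hgi.resolve_left hg0
      rw [hQi]
      have h3 : DV (S.erase i) (P i) = 0 := hDV0' _ _ (fun j hj hij => by
        rw [hPinj hij.symm] at hj
        exact absurd hj (Finset.notMem_erase i S)) (hPBE i)
      rw [h3]
      simpa using h2
    · by_cases hQ : ∃ j ∈ S, Q = P j
      · obtain ⟨j, hj, rfl⟩ := hQ
        have hji : j ≠ i := fun h0 => hQi (by rw [h0])
        rw [hDVm _ j (Finset.mem_erase.2 ⟨hji, hj⟩)]
        rw [hDVm _ j hj] at h1
        exact h1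
      · push Not at hQ
        by_cases hQB : Q ∈ BE
        · rw [hDVb _ Q hQB]
          rw [hDVb _ Q hQB] at h1
          exact h1
        · rw [hDV0' _ Q (fun j hj => hQ j (Finset.mem_of_mem_erase hj)) hQB]
          rw [hDV0' _ Q hQ hQB] at h1
          exact h1
  have hord : ∀ i ∈ S, (P i).ord h = -1 := by
    intro i hi
    have h1 := hhS (P i)
    rw [hDVm _ i hi] at h1
    by_contra hne
    exact hh0 (hrem i h hi hhV (Or.inr (by omega)))
  have hpol : ∀ Q : Place Ω E, Q.ord h < 0 → ∃ i ∈ S, Q = P i := by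
    intro Q hQ
    by_contra hcon
    push Not at hcon
    have h1 := hhS Q
    have h2 := hDV0 S Q hcon
    omega
  have hgt := transc_of_nonconst hh
  obtain ⟨Z, hZ, hZ1, hZ2⟩ := zeros (k := Ω) (K := E) hgt
  obtain ⟨Y, hY, hY2⟩ := poles (k := Ω) (K := E) hgt
  have hfin := IsFF.finite hgt
  have hSne : S.Nonempty := by
    by_contra hcon
    rw [Finset.not_nonempty_iff_eq_empty] at hcon
    have h3 : Y = ∅ := by
      rw [Finset.eq_empty_iff_forall_notMem]
      intro Q hQ
      obtain ⟨i, hi, -⟩ := hpol Q ((hY Q).1 hQ)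
      rw [hcon] at hi
      exact absurd hi (Finset.notMem_empty i)
    rw [h3, Finset.sum_empty] at hY2
    exact Module.finrank_pos.ne hY2
  have hVle : Module.finrank Ω (V S) ≤ 1 := by
    have h1 : V S ≤ Submodule.span Ω {h} := by
      intro g hgV
      obtain ⟨i, hi⟩ := hSne
      by_cases hg0 : g = 0
      · rw [hg0]; exact Submodule.zero_mem _
      have hgi := (mem_LL.1 hgV).resolve_left hg0 (P i)
      rw [hDVm _ i hi] at hgi
      have h1 : Ge (P i) 0 (g / h) := by
        right
        rw [(P i).ord_div hg0 hh0, hord i hi]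
        omega
      obtain ⟨c, hc⟩ := Pool.Agent.W603.LV.exists_const (P i) h1
      have h2 : Ge (P i) 0 (g - algebraMap Ω E c * h) := by
        have h3 : Ge (P i) (-1) h := Or.inr (hord i hi).ge
        have h4 := hc.mul h3
        have h5 : (g / h - algebraMap Ω E c) * h = g - algebraMap Ω E c * h := by
          field_simp
        rw [h5] at h4
        simpa using h4
      have h3 : g - algebraMap Ω E c * h ∈ V S := by
        refine (V S).sub_mem hgV ?_
        rw [← Algebra.smul_def]
        exact (V S).smul_mem c hhV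
      have h4 := hrem i _ hi h3 h2
      rw [sub_eq_zero.1 h4, ← Algebra.smul_def]
      exact Submodule.smul_mem _ _ (Submodule.mem_span_singleton_self h)
    have hf : Module.Finite Ω (Submodule.span Ω {h}) :=
      Module.Finite.span_of_finite Ω (Set.finite_singleton _)
    have h2 := Submodule.finrank_mono h1
    rw [finrank_span_singleton hh0] at h2
    exact h2
  refine ⟨S, h, BE.card, hb1, hh, hord, hpol, fun p hp Q e he hQ => ?_, fun Zd hZd => ?_, ?_⟩
  · rw [unique_over bc he (heo p) hQ (hQo p)]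
    have := hhB (Qo p) (Finset.mem_image_of_mem Qo hp)
    omega
  · have h1 : Zd = ES (S.image P) + divisor Ω h := by
      ext Q
      rw [hZd, Finsupp.add_apply, divisor_apply]
      by_cases hQ : ∃ i ∈ S, Q = P i
      · obtain ⟨i, hi, rfl⟩ := hQ
        rw [ES_mem (Finset.mem_image_of_mem P hi), hord i hi]
        rfl
      · have h2 : 0 ≤ Q.ord h := by
          by_contra hcon
          exact hQ (hpol Q (not_le.1 hcon))
        rw [ES_not_mem (by
          rw [Finset.mem_image]
          rintro ⟨i, hi, hi'⟩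
          exact hQ ⟨i, hi, hi'.symm⟩), max_eq_right h2, zero_add]
    have h2 : FF.ell Zd = FF.ell (ES (S.image P)) := by
      rw [h1, ell_add_divisor _ hh0]
    have h3 := ell_le (hle S)
    rw [hddeg, hellV, ← h2] at h3
    have h4 : FF.ell Zd = Module.finrank Ω (LL Zd) := rfl
    rw [h4] at h3
    omega
  -- the zeros
  have hYS : Y = S.image P := by
    ext Q
    rw [hY, Finset.mem_image]
    constructor
    · intro hQ
      obtain ⟨i, hi, hQi⟩ := hpol Q hQ
      exact ⟨i, hi, hQi.symm⟩
    · rintro ⟨i, hi, rfl⟩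
      rw [hord i hi]
      omega
  have hYc : ∑ w ∈ Y, (- w.ord h).toNat * w.deg = S.card := by
    rw [hYS, Finset.sum_image (fun i _ j _ hij => hPinj hij)]
    have h1 : ∀ i ∈ S, (-(P i).ord h).toNat * (P i).deg = 1 := by
      intro i hi
      rw [hord i hi, Pool.Agent.W603.LV.deg_one]
      rfl
    rw [Finset.sum_congr rfl h1, Finset.sum_const, smul_eq_mul, mul_one]
  have hZc : Z.card ≤ S.card := by
    rw [← hYc, hY2, ← hZ2, Finset.card_eq_sum_ones]
    refine Finset.sum_le_sum fun w hw => ?_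
    have h1 := (hZ w).1 hw
    have h2 : 1 ≤ (w.ord h).toNat := by omega
    exact Nat.mul_le_mul h2 (hZ1 w hw)
  let T : Finset (Place Ω E) := Z.filter fun Q => ∀ l : L, Q.ord (algebraMap L E l) = 0
  have hTc : T.card + BE.card ≤ S.card := by
    have h1 : Disjoint T BE := by
      rw [Finset.disjoint_left]
      intro Q hQ hQB
      obtain ⟨l, hl⟩ := hBEnt Q hQB
      exact hl ((Finset.mem_filter.1 hQ).2 l)
    have h2 : T ∪ BE ⊆ Z := by
      intro Q hQ
      rcases Finset.mem_union.1 hQ with hQ | hQ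
      · exact (Finset.mem_filter.1 hQ).1
      · rw [hZ]
        have := hhB Q hQ
        omega
    have h3 := Finset.card_le_card h2
    rw [Finset.card_union_of_disjoint h1] at h3
    omega
  have hT : ∀ Q : T, ∃ y : L →ₐ[k] Ω, Ats (Q : Place Ω E) y := by
    rintro ⟨Q, hQ⟩
    rw [Finset.mem_filter] at hQ
    exact emb_at bc Q hQ.2
  choose y hy using hT
  refine ⟨T.card, fun j => y (T.equivFin.symm j), hTc, fun Q hQ => ?_⟩
  by_cases hQL : ∃ l : L, Q.ord (algebraMap L E l) ≠ 0
  · exact Or.inl hQL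
  · right
    push Not at hQL
    have hQT : Q ∈ T := by
      rw [Finset.mem_filter, hZ]
      exact ⟨hQ, hQL⟩
    refine ⟨T.equivFin ⟨Q, hQT⟩, ?_⟩
    beta_reduce
    rw [Equiv.symm_apply_apply]
    exact hy ⟨Q, hQT⟩

end

end Pool.Agent.H908.UB
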