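import Pool.Agent.H908.UB2

/-! The pencil is defined over a small field. -/

set_option autoImplicit false
set_option linter.overlappingInstances false
set_option linter.unusedSectionVars false
set_option linter.unusedVariables false

open FF IntermediateField

namespace Pool.Agent.H908.UB

open Pool.Agent.W603.LV Pool.Agent.W602.RG Pool.Agent.Helper11K9.PC Pool.Agent.Helper11K9.OD
open Pool.Agent.H908.SA

section

variable {k L Ω E : Type} [Field k] [Field L] [Field Ω] [Field E] [Algebra k L]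
    [Algebra k Ω] [Algebra k E] [Algebra L E] [Algebra Ω E]
variable [IsAlgClosed k] [CharZero k] [IsFF k L] [IsAlgClosed Ω] [CharZero Ω] [IsFF Ω E]

/-- The coefficients of the pencil. -/
theorem exists_coeff (bc : BC k L Ω E) {h : E} (hh : ∀ a : Ω, h ≠ algebraMap Ω E a) {b : ℕ}
    (hdim : ∀ Z : Place Ω E →₀ ℤ, (∀ Q, Z Q = max 0 (Q.ord h)) → Module.finrank Ω (LL Z) ≤ b + 1)
    (hz : ∀ Q : Place Ω E, 0 < Q.ord h → ∃ l : L, Q.ord (algebraMap L E l) ≠ 0) :
    ∃ (J : Type) (_ : Fintype J) (c : J → Ω) (l0 : L) (l : J → L) (a b' : Ω),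
      Fintype.card J + 1 ≤ b ∧ a ≠ 0 ∧
      algebraMap L E l0 + ∑ j, algebraMap Ω E (c j) * algebraMap L E (l j) =
        algebraMap Ω E b' + algebraMap Ω E a * h⁻¹ := by
  classical
  have _ := bc.towerL
  have _ := bc.towerO
  have hh0 : h ≠ 0 := fun h0 => hh 0 (by rw [h0, map_zero])
  obtain ⟨Z0, hZ0, hZ1, hZ2⟩ := zeros (k := Ω) (K := E) (transc_of_nonconst hh)
  let Z : Place Ω E →₀ ℤ := Finsupp.onFinset Z0 (fun Q => max 0 (Q.ord h)) (by
    intro Q hQ
    rw [hZ0]
    by_contra hcon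
    exact hQ (max_eq_left (not_lt.1 hcon)))
  have hZa : ∀ Q, Z Q = max 0 (Q.ord h) := fun Q => rfl
  have hZdim := hdim Z hZa
  have hfinZ : FiniteDimensional Ω (LL Z) := finDim_LL _
  have hinv : h⁻¹ ∈ LL Z := by
    rw [mem_LL]
    right
    intro Q
    rw [hZa, Q.ord_inv]
    have := le_max_right 0 (Q.ord h)
    omega
  have hdesc := descent_LL bc Z (fun Q hQ => by
    refine hz Q ?_
    by_contra hcon
    exact hQ (by rw [hZa]; exact max_eq_left (not_lt.1 hcon)))
  have hone : (1 : E) ∈ LL Z := by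
    rw [mem_LL]
    right
    intro Q
    rw [hZa, Q.ord_one]
    have := le_max_left 0 (Q.ord h)
    omega
  let T : Set E := {f | ∃ l, algebraMap L E l = f ∧ f ∈ LL Z}
  have h1T : ({1} : Set E) ⊆ T := by
    rintro _ rfl
    exact ⟨1, map_one _, hone⟩
  obtain ⟨B, hBT, h1B, hTB, hBi⟩ := exists_linearIndepOn_id_extension (K := Ω) (s := {(1 : E)})
    (t := T) (by
      exact (linearIndepOn_singleton_iff Ω).2 one_ne_zero) h1T
  have hB1 : (1 : E) ∈ B := h1B rfl
  -- the basis is finite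
  have hBLL : ∀ v ∈ B, v ∈ LL Z := fun v hv => by
    obtain ⟨l, -, h2⟩ := hBT hv
    exact h2
  have hBi' : LinearIndependent Ω (fun v : B => (⟨v, hBLL v v.2⟩ : LL Z)) := by
    refine LinearIndependent.of_comp (LL Z).subtype ?_
    exact hBi
  have hBfin : Finite B := hBi'.finite
  have := Fintype.ofFinite B
  have hBcard : Fintype.card B ≤ b + 1 := (hBi'.fintype_card_le_finrank).trans hZdim
  have hspan : h⁻¹ ∈ Submodule.span Ω (Set.range fun v : B => (v : E)) := by
    have h1 : Submodule.span Ω T ≤ Submodule.span Ω B := Submodule.span_le.2 hTB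
    have h2 := h1 (hdesc hinv)
    rwa [Subtype.range_coe]
  obtain ⟨c, hc⟩ := (Submodule.mem_span_range_iff_exists_fun Ω).1 hspan
  let v0 : B := ⟨1, hB1⟩
  obtain ⟨v1, hv1, hc1⟩ : ∃ v1 : B, v1 ≠ v0 ∧ c v1 ≠ 0 := by
    by_contra hcon
    push Not at hcon
    rw [Finset.sum_eq_single v0 (fun v _ hv => by rw [hcon v hv, zero_smul])
      (fun h => absurd (Finset.mem_univ _) h)] at hc
    have h1 : h⁻¹ = algebraMap Ω E (c v0) := by
      rw [← hc, Algebra.smul_def]
      exact mul_one _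
    refine hh (c v0)⁻¹ ?_
    rw [map_inv₀, ← h1, inv_inv]
  choose lf hlf hlf2 using fun v : B => hBT v.2
  let J : Finset B := (Finset.univ.erase v0).erase v1
  have hJ : J.card + 1 ≤ b := by
    have h1 : v1 ∈ Finset.univ.erase v0 := Finset.mem_erase.2 ⟨hv1, Finset.mem_univ _⟩
    have h2 := Finset.card_erase_add_one h1
    have h3 := Finset.card_erase_add_one (Finset.mem_univ v0)
    rw [Finset.card_univ] at h3
    change J.card + 1 = _ at h2
    omega
  refine ⟨J, inferInstance, fun v => c v / c v1, lf v1, fun v => lf v, (c v1)⁻¹,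
    -(c v0 / c v1), by rw [Fintype.card_coe]; exact hJ, inv_ne_zero hc1, ?_⟩
  have hcE : algebraMap Ω E (c v1) ≠ 0 := (_root_.map_ne_zero _).2 hc1
  have h1 : h⁻¹ = algebraMap Ω E (c v0) + (algebraMap Ω E (c v1) * (v1 : E) +
      ∑ v ∈ J, algebraMap Ω E (c v) * (v : E)) := by
    rw [← hc, ← Finset.add_sum_erase _ _ (Finset.mem_univ v0),
      ← Finset.add_sum_erase _ _ (Finset.mem_erase.2 ⟨hv1, Finset.mem_univ v1⟩)]
    simp only [Algebra.smul_def]
    have h2 : (v0 : E) = 1 := rfl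
    rw [h2, mul_one]
  have h2 : ∑ v : J, algebraMap Ω E (c v / c v1) * algebraMap L E (lf v) =
      algebraMap Ω E (c v1)⁻¹ * ∑ v ∈ J, algebraMap Ω E (c v) * (v : E) := by
    rw [Finset.mul_sum, ← Finset.sum_coe_sort J fun v => algebraMap Ω E (c v1)⁻¹ *
      (algebraMap Ω E (c v) * (v : E))]
    refine Finset.sum_congr rfl fun v _ => ?_
    rw [hlf, map_div₀, map_inv₀]
    ring
  rw [h2, hlf, h1, map_neg, map_div₀, map_inv₀]
  field_simp
  ring

/-- **The conjugates of the members of the pencil.** The function `l` is a coordinate of the pencil. -/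
theorem pencil_coreB (bc : BC k L Ω E) {ι : Type} (P : ι → Place Ω E) (S : Finset ι)
    {h : E} (hh : ∀ a : Ω, h ≠ algebraMap Ω E a) (hord : ∀ i ∈ S, (P i).ord h = -1)
    (hpol : ∀ Q : Place Ω E, Q.ord h < 0 → ∃ i ∈ S, Q = P i) {l : L} {a b : Ω} (ha0 : a ≠ 0)
    (hab : algebraMap L E l = algebraMap Ω E b + algebraMap Ω E a * h⁻¹)
    (hxM : ∃ i ∈ S, ∃ f : L, Ge (P i) 0 (algebraMap L E f) ∧
      ∀ m : k, ¬ Ge (P i) 1 (algebraMap L E f - algebraMap Ω E (algebraMap k Ω m))) :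
    Transcendental k b ∧ ∀ i ∈ S, ∃ ρ : L →ₐ[k] Ω, Ats (P i) ρ ∧ ρ l = b ∧
      (∀ f, IsAlgebraic k⟮b⟯ (ρ f)) ∧
      ∀ τ : Ω ≃ₐ[k] Ω, τ b = b → ∃ j ∈ S, Ats (P j) ((τ : Ω →ₐ[k] Ω).comp ρ) := by
  classical
  have _ := bc.towerL
  have _ := bc.towerO
  have hh0 : h ≠ 0 := fun h0 => hh 0 (by rw [h0, map_zero])
  have hsub : algebraMap L E l - algebraMap Ω E b = algebraMap Ω E a * h⁻¹ := by
    rw [hab]; ring
  have hlc : ∀ c : Ω, algebraMap L E l ≠ algebraMap Ω E c := by
    intro c hc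
    rw [hc, ← map_sub] at hsub
    refine hh ((c - b) / a)⁻¹ ?_
    have haE : algebraMap Ω E a ≠ 0 := (_root_.map_ne_zero _).2 ha0
    rw [map_inv₀, map_div₀, hsub, mul_div_cancel_left₀ _ haE, inv_inv]
  have hone : ∀ Q : Place Ω E, Q.ord h < 0 → Ge Q 1 (algebraMap L E l - algebraMap Ω E b) := by
    intro Q hQ
    rw [hsub]
    right
    rw [Q.ord_mul ((_root_.map_ne_zero _).2 ha0) (inv_ne_zero hh0), Q.ord_const ha0, Q.ord_inv]
    omega
  have hone' : ∀ Q : Place Ω E, Ge Q 1 (algebraMap L E l - algebraMap Ω E b) → Q.ord h < 0 := by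
    intro Q hQ
    rw [hsub] at hQ
    have h1 := hQ.resolve_left (mul_ne_zero ((_root_.map_ne_zero _).2 ha0) (inv_ne_zero hh0))
    rw [Q.ord_mul ((_root_.map_ne_zero _).2 ha0) (inv_ne_zero hh0), Q.ord_const ha0, Q.ord_inv] at h1
    omega
  have hval : ∀ i ∈ S, Ge (P i) 1 (algebraMap L E l - algebraMap Ω E b) := fun i hi =>
    hone _ (by rw [hord i hi]; omega)
  have hreg : ∀ i ∈ S, Ge (P i) 0 (algebraMap L E l) := by
    intro i hi
    have h1 := ((hval i hi).mono (show (0 : ℤ) ≤ 1 by omega)).add (Ge.const (P := P i) b)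
    rwa [sub_add_cancel] at h1
  -- the value is transcendental
  have hbM : ∀ m : k, algebraMap k Ω m ≠ b := by
    intro m hm
    obtain ⟨i, hi, f, hf, hfm⟩ := hxM
    have h1 : algebraMap L E (l - algebraMap k L m) = algebraMap L E l - algebraMap Ω E b := by
      rw [map_sub, ← IsScalarTower.algebraMap_apply k L E, IsScalarTower.algebraMap_apply k Ω E, hm]
    have h2 : ∃ l : L, (P i).ord (algebraMap L E l) ≠ 0 := by
      refine ⟨l - algebraMap k L m, ?_⟩
      rw [h1]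
      have h3 := (hval i hi).resolve_left (fun h0 => hlc b (sub_eq_zero.1 h0))
      omega
    obtain ⟨c, hc⟩ := const_below bc h2 hf
    exact hfm c hc
  have hbt : Transcendental k b := by
    intro hb
    obtain ⟨m, hm⟩ := alg_const hb
    exact hbM m hm
  refine ⟨hbt, fun i hi => ?_⟩
  have htriv : ∀ g : L, (P i).ord (algebraMap L E g) = 0 := by
    by_contra hcon
    push Not at hcon
    obtain ⟨c, hc⟩ := const_below bc hcon (hreg i hi)
    exact hbM c (val_unique hc (hval i hi))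
  obtain ⟨ρ, hρ⟩ := emb_at bc (P i) htriv
  have hρl : ρ l = b := val_unique (hρ l) (hval i hi)
  refine ⟨ρ, hρ, hρl, ?_, ?_⟩
  · intro f
    have hlt : Transcendental k l := by
      intro hl
      obtain ⟨m, hm⟩ := alg_const hl
      refine hlc (algebraMap k Ω m) ?_
      rw [← hm, ← IsScalarTower.algebraMap_apply k L E, IsScalarTower.algebraMap_apply k Ω E]
    have halg : Algebra.IsAlgebraic k⟮l⟯ L := IsFF.isAlgebraic hlt
    have hmem : ∀ y : k⟮l⟯, ρ y ∈ k⟮b⟯ := by
      have h1 : k⟮l⟯ ≤ (k⟮b⟯).comap ρ := by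
        rw [IntermediateField.adjoin_simple_le_iff]
        change ρ l ∈ k⟮b⟯
        rw [hρl]
        exact mem_adjoin_simple_self k b
      exact fun y => h1 y.2
    let i1 : Algebra k⟮l⟯ k⟮b⟯ :=
      (((ρ : L →+* Ω).comp (algebraMap k⟮l⟯ L)).codRestrict k⟮b⟯.toSubring hmem).toAlgebra
    let i2 : Algebra L Ω := (ρ : L →+* Ω).toAlgebra
    have t2 : IsScalarTower k⟮l⟯ k⟮b⟯ Ω := IsScalarTower.of_algebraMap_eq fun _ => rfl
    have h2 : IsAlgebraic k⟮l⟯ (algebraMap L Ω f) := (halg.isAlgebraic f).algebraMap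
    exact h2.tower_top k⟮b⟯
  · intro τ hτ
    obtain ⟨P', hP'⟩ := exists_at bc ((τ : Ω →ₐ[k] Ω).comp ρ)
    have h1 := hP' l
    have h2 : ((τ : Ω →ₐ[k] Ω).comp ρ) l = b := by
      change τ (ρ l) = b
      rw [hρl, hτ]
    rw [h2] at h1
    obtain ⟨j, hj, hPj⟩ := hpol P' (hone' P' h1)
    refine ⟨j, hj, ?_⟩
    rw [← hPj]
    exact hP'

end

end Pool.Agent.H908.UB
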