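import Pool.Agent.H908.UB3
import Pool.Graph.R_pool_sql_team_seeded_620a6dc7.Helper320.PCL.A1
import Pool.Graph.R_pool_sql_team_seeded_620a6dc7.Helper320.PCL.Ext
import Pool.Graph.R_pool_sql_team_seeded_620a6dc7.Helper320.PCL.P1

/-! Places of the small field and the boundary. -/

set_option autoImplicit false
set_option linter.overlappingInstances false
set_option linter.unusedSectionVars false
set_option linter.unusedVariables false

open FF IntermediateField Cardinal

namespace Pool.Agent.H908.UB

open Pool.Agent.W603.LV Pool.Agent.W602.RG Pool.Agent.Helper11K9.PC Pool.Agent.Helper11K9.OD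
open Pool.Agent.H908.SA

section

variable {k K : Type} [Field k] [Field K] [Algebra k K]

/-- Places with proportional orders are equal. -/
theorem place_eq {p q : Place k K} {a b : ℤ} (ha : 0 < a) (hb : 0 < b)
    (h : ∀ f, a * p.ord f = b * q.ord f) : p = q := by
  refine p.eq_of_le q fun f hf hf0 => ?_
  have h1 := h f
  have h2 : (0 : ℤ) ≤ b * q.ord f := by rw [← h1]; positivity
  by_contra hcon
  push Not at hcon
  have := mul_neg_of_pos_of_neg hb hcon
  omega

/-- The restriction of a place to a subfield with the same constants. -/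
theorem restr0 {L : Type} [Field L] [Algebra k L] (ψ : L →ₐ[k] K) (P : Place k K)
    (hP : ∃ l : L, P.ord (ψ l) ≠ 0) :
    ∃ (p : Place k L) (e : ℕ), 0 < e ∧ ∀ l : L, P.ord (ψ l) = e * p.ord l := by
  let iA : Algebra L K := (ψ : L →+* K).toAlgebra
  have tA : IsScalarTower k L K := IsScalarTower.of_algebraMap_eq fun c => (ψ.commutes c).symm
  obtain ⟨e, p, h1, h2⟩ := FF.exists_over (K := L) P hP
  exact ⟨p, e, h1, h2⟩

/-- The restriction of a place to a subfield with smaller constants. -/
theorem restr1 {k' L : Type} [Field k'] [Field L] [Algebra k' k] [Algebra k' K]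
    [IsScalarTower k' k K] [Algebra k' L] (ψ : L →ₐ[k'] K) (P : Place k K)
    (hP : ∃ l : L, P.ord (ψ l) ≠ 0) :
    ∃ (p : Place k' L) (e : ℕ), 0 < e ∧ ∀ l : L, P.ord (ψ l) = e * p.ord l :=
  restr0 ψ (toK (k := k') P) hP

end

section

variable {M A : Type} [Field M] [Field A] [Algebra M A] [CharZero M] [IsAlgClosed M]

/-- A generator of a field of rational functions has at most one pole. -/
theorem one_pole (hff : IsFF M A) {s : A} (hs : IntermediateField.adjoin M {s} = ⊤)
    {w1 w2 : Place M A} (h1 : w1.ord s < 0) (h2 : w2.ord s < 0) : w1 = w2 := by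
  classical
  have hst : Transcendental M s := w1.transcendental_of_ord_ne (by omega)
  obtain ⟨T, hT, hsum⟩ := poles (k := M) (K := A) hst
  have hone : Module.finrank M⟮s⟯ A = 1 := by
    have : M⟮s⟯ = ⊤ := hs
    rw [this]
    exact IntermediateField.finrank_top
  rw [hone] at hsum
  by_contra hne
  have h3 : ∑ w ∈ {w1, w2}, (-w.ord s).toNat * w.deg ≤ ∑ w ∈ T, (-w.ord s).toNat * w.deg := by
    refine Finset.sum_le_sum_of_subset fun w hw => ?_
    rw [Finset.mem_insert, Finset.mem_singleton] at hw
    rw [hT]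
    rcases hw with rfl | rfl
    · exact h1
    · exact h2
  rw [Finset.sum_pair hne, hsum, Pool.Agent.W603.LV.deg_one, Pool.Agent.W603.LV.deg_one] at h3
  omega

end

section

variable {Ω : Type} [Field Ω] [Algebra ℂ Ω] [CharZero Ω] {K : Type} [Field K] [Algebra ℂ K]

/-- **Extension of a place of the small field.** -/
theorem exists_W (ι : K →ₐ[ℂ] Ω) (hess : Algebra.EssFiniteType ℂ K) (M : IntermediateField ℂ Ω)
    [IsAlgClosed M] (hMΩ : Algebra.trdeg M Ω = 1) {t0 : Ω} (ht0 : Transcendental M t0)
    (w : Place M M⟮t0⟯) :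
    ∃ (A : IntermediateField M Ω) (hle : M⟮t0⟯ ≤ A) (W : Place M A) (e : ℕ), 0 < e ∧
      (∀ z : K, ι z ∈ A) ∧ ∀ f : M⟮t0⟯, W.ord ⟨f, hle f.2⟩ = e * w.ord f := by
  classical
  have hM0 : CharZero M := charZero_of_injective_algebraMap (algebraMap ℂ M).injective
  obtain ⟨T, hT⟩ := IntermediateField.fg_top ℂ K
  let A : IntermediateField M Ω := IntermediateField.adjoin M (insert t0 (ι '' (T : Set K)))
  have hle : M⟮t0⟯ ≤ A := by
    rw [adjoin_simple_le_iff]
    exact subset_adjoin _ _ (Set.mem_insert _ _)
  have hιA : ∀ z : K, ι z ∈ A := by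
    have h1 : (⊤ : IntermediateField ℂ K) ≤ (A.restrictScalars ℂ).comap ι := by
      rw [← hT, IntermediateField.adjoin_le_iff]
      intro z hz
      exact subset_adjoin _ _ (Set.mem_insert_of_mem _ ⟨z, hz, rfl⟩)
    exact fun z => h1 (x := z) trivial
  have hessA : Algebra.EssFiniteType M A :=
    IntermediateField.essFiniteType_iff.2 (IntermediateField.fg_adjoin_of_finite
      ((T.finite_toSet.image ι).insert t0))
  have htr : Algebra.trdeg M A = 1 := by
    refine le_antisymm ?_ ?_
    · rw [← hMΩ]
      exact trdeg_le_of_injective A.val A.val.injective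
    · have h1 : AlgebraicIndependent M (fun _ : Unit => (⟨t0, hle (mem_adjoin_simple_self M t0)⟩ : A)) := by
        rw [algebraicIndependent_unique_type_iff]
        intro h2
        exact ht0 (h2.algebraMap (A := Ω))
      have h2 := h1.lift_cardinalMk_le_trdeg
      simpa using h2
  have hff : IsFF M A := ⟨hessA, htr⟩
  obtain ⟨W, e, he, hW⟩ := Pool.Agent.Helper320.PCL.t_EXT hff (RingHom.id M)
    (IntermediateField.inclusion hle : M⟮t0⟯ →+* A) (fun m => rfl)
    (fun c => ⟨Polynomial.X - Polynomial.C c, Polynomial.monic_X_sub_C c, by simp⟩) w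
  exact ⟨A, hle, W, e, he, hιA, hW⟩

end

end Pool.Agent.H908.UB
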