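import Pool.Agent.H908.UB4

/-! **`A¹`-uniruledness**: quotients of products of open curves by groups which contain the
transpositions of many curves. -/

set_option autoImplicit false
set_option linter.overlappingInstances false
set_option linter.unusedSectionVars false
set_option linter.unusedVariables false

open FF IntermediateField Cardinal

namespace Pool.Agent.H908.UB

open Pool.Agent.W603.LV Pool.Agent.W602.RG Pool.Agent.Helper11K9.PC Pool.Agent.Helper11K9.OD
open Pool.Agent.H908.SA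
open Pool.Agent.W619.PL (IsA1Uniruled)

section

variable {K : Type} [Field K] [Algebra ℂ K] {n : ℕ} (F : Fin n → IntermediateField ℂ K)

/-- **Large blocks give `A¹`-uniruled quotients.** -/
theorem a1_of_block [∀ i, IsFF ℂ (F i)] (hsup : ⨆ i, F i = ⊤) (hn : Algebra.trdeg ℂ K = n)
    (G : Subgroup (K ≃ₐ[ℂ] K)) [Finite G] (i0 : Fin n) (B : Finset (Fin n))
    (φ : Fin n → (F i0 →ₐ[ℂ] K)) (hφ : ∀ i ∈ B, ∀ z, z ∈ F i ↔ ∃ f, φ i f = z)
    (hsw : ∀ i ∈ B, ∀ j ∈ B, i ≠ j → ∃ g ∈ G, (∀ f, g (φ i f) = φ j f) ∧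
      (∀ f, g (φ j f) = φ i f) ∧ ∀ l, l ≠ i → l ≠ j → ∀ z ∈ F l, g z = z)
    {D0 : Derivation ℂ (F i0) (F i0)} (hD0 : D0 ≠ 0)
    (BB : ∀ i, Finset (Place ℂ (F i))) (B1 : Finset (Place ℂ (F i0))) (hB1 : B1.Nonempty)
    (hcomp : ∀ i ∈ B, ∀ p ∈ BB i, ∃ q ∈ B1, ∀ (f : F i0) (z : F i), φ i f = z →
      p.ord z = q.ord f)
    (hg : Module.finrank ℂ (RR D0 hD0) + B1.card ≤ B.card) (Bd : Place ℂ (fixedField G) → Prop)
    (hBd : ∀ (v : Place ℂ (fixedField G)) (Q : Place ℂ K) (e : ℕ), Over Q v e → Bd v →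
      ∃ i, ∃ p ∈ BB i, ∃ e' : ℕ, Over Q p e') : IsA1Uniruled ℂ (fixedField G) n Bd := by
  classical
  let Ω := AlgebraicClosure K
  have hΩ0 : CharZero Ω := charZero_of_injective_algebraMap (algebraMap ℂ Ω).injective
  let ι : K →ₐ[ℂ] Ω := IsScalarTower.toAlgHom ℂ K Ω
  -- the generic points
  choose ξ hξ using fun i => IsFF.exists_transcendental (k := ℂ) (K := F i)
  have hind := Pool.Agent.W619.PQ.basis_of_iSup F hsup hn ξ hξ
  have hdisj : ∀ i j : Fin n, i ≠ j → ∀ z ∈ F i, z ∈ F j → IsAlgebraic ℂ z := by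
    intro i j hij z hzi hzj
    by_contra hz
    have hz' : ∀ l (h : z ∈ F l), Transcendental ℂ (⟨z, h⟩ : F l) := fun l h h1 =>
      hz (h1.algebraMap (A := K))
    let ξ' : ∀ l, F l := fun l => if h : z ∈ F l then ⟨z, h⟩ else ξ l
    have hξ' : ∀ l, Transcendental ℂ (ξ' l) := by
      intro l
      by_cases h : z ∈ F l
      · simp only [ξ', dif_pos h]
        exact hz' l h
      · simp only [ξ', dif_neg h]
        exact hξ l
    have h1 := (Pool.Agent.W619.PQ.basis_of_iSup F hsup hn ξ' hξ').1.injective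
    apply hij
    apply h1
    simp only [ξ', dif_pos hzi, dif_pos hzj]
  let x : B → (F i0 →ₐ[ℂ] Ω) := fun i => ι.comp (φ i)
  have hx : Function.Injective x := by
    intro i j hij
    by_contra hne
    have hne' : (i : Fin n) ≠ j := fun h => hne (Subtype.ext h)
    have h1 : φ i (ξ i0) = φ j (ξ i0) := by
      have := DFunLike.congr_fun hij (ξ i0)
      exact ι.injective this
    have h2 := hdisj i j hne' (φ i (ξ i0)) ((hφ i i.2 _).2 ⟨_, rfl⟩)
      ((hφ j j.2 _).2 ⟨ξ i0, h1.symm⟩)
    exact hξ i0 ((isAlgebraic_algHom_iff (φ i) (φ i).injective).1 h2)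
  obtain ⟨E, iE, ikE, iLE, iΩE, tL, tΩ, hff, bc, hgen⟩ := exists_bc ℂ (F i0) Ω
  choose P hP using fun i : B => exists_at bc (x i)
  obtain ⟨S, h, b, hb1, hh, hord, hpol, hBpos, hdim, r, z, hr, hz⟩ := exists_pencilB bc hD0 x hx P
    hP B1 hB1 (by rw [Fintype.card_coe]; exact hg)
  -- the small field
  let A0 : Finset Ω := (Finset.univ.image fun j : Fin r => z j (ξ i0)) ∪
    ((Finset.univ.filter fun l : Fin n => ∀ i ∈ S, (i : Fin n) ≠ l).image fun l => ι (ξ l : K))
  have hA0 : A0.card + b ≤ n := by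
    have h1 : (Finset.univ.filter fun l : Fin n => ∀ i ∈ S, (i : Fin n) ≠ l) =
        (S.map ⟨Subtype.val, Subtype.val_injective⟩)ᶜ := by
      ext l
      rw [Finset.mem_filter, Finset.mem_compl, Finset.mem_map]
      constructor
      · rintro ⟨-, h2⟩ ⟨i, hi, hil⟩
        exact h2 i hi hil
      · intro h2
        exact ⟨Finset.mem_univ _, fun i hi hil => h2 ⟨i, hi, hil⟩⟩
    have h2 := Finset.card_union_le (Finset.univ.image fun j : Fin r => z j (ξ i0))
      ((Finset.univ.filter fun l : Fin n => ∀ i ∈ S, (i : Fin n) ≠ l).image fun l => ι (ξ l : K))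
    have h3 : (Finset.univ.image fun j : Fin r => z j (ξ i0)).card ≤ r := by
      refine Finset.card_image_le.trans ?_
      rw [Finset.card_univ, Fintype.card_fin]
    have h4 : ((Finset.univ.filter fun l : Fin n => ∀ i ∈ S, (i : Fin n) ≠ l).image
        fun l => ι (ξ l : K)).card ≤ n - S.card := by
      refine Finset.card_image_le.trans ?_
      rw [h1, Finset.card_compl, Finset.card_map, Fintype.card_fin]
    have h5 : S.card ≤ n := by
      have := Finset.card_le_univ (S.map ⟨Subtype.val, Subtype.val_injective⟩ : Finset (Fin n))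
      rwa [Finset.card_map, Fintype.card_fin] at this
    change (_ ∪ _ : Finset Ω).card + b ≤ n
    omega
  -- the coefficients
  let M0 : IntermediateField ℂ Ω := clo (A0 : Set Ω)
  have hzM0 : ∀ j f, z j f ∈ M0 := fun j f => range_clo (hξ i0) (z j) (subset_clo (by
    rw [Finset.mem_coe, Finset.mem_union]
    left
    exact Finset.mem_image_of_mem _ (Finset.mem_univ j))) f
  have hM0c : IsAlgClosed M0 := clo_closed _
  have hM00 : CharZero M0 := charZero_of_injective_algebraMap (algebraMap ℂ M0).injective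
  have tM01 : IsScalarTower M0 Ω E := inferInstance
  have tM02 : IsScalarTower ℂ M0 E := IsScalarTower.of_algebraMap_eq fun c => by
    rw [IsScalarTower.algebraMap_apply ℂ Ω E]; rfl
  obtain ⟨hffM0, bcM0⟩ := bc_M (M := M0) bc hgen
  let N0 : IntermediateField M0 E := IntermediateField.adjoin M0 (Set.range (algebraMap (F i0) E))
  obtain ⟨J, fJ, cJ, l0, lJ, a1, b1, hJ, ha10, hab⟩ := exists_coeff bcM0 hh hdim (fun Q hQ => by
      rcases hz Q hQ with ⟨l, hl⟩ | ⟨j, hj⟩
      · exact ⟨⟨algebraMap (F i0) E l, subset_adjoin _ _ ⟨l, rfl⟩⟩, hl⟩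
      · refine ⟨(⟨algebraMap (F i0) E (ξ i0), subset_adjoin _ _ ⟨ξ i0, rfl⟩⟩ : N0) -
          algebraMap M0 N0 ⟨z j (ξ i0), hzM0 j _⟩, ?_⟩
        have h1 : algebraMap N0 E ((⟨algebraMap (F i0) E (ξ i0), subset_adjoin _ _ ⟨ξ i0, rfl⟩⟩ : N0) -
            algebraMap M0 N0 ⟨z j (ξ i0), hzM0 j _⟩) =
            algebraMap (F i0) E (ξ i0) - algebraMap Ω E (z j (ξ i0)) := by
          rw [map_sub]
          rfl
        rw [h1]
        have h2 := (hj (ξ i0)).resolve_left (fun h0 => by
          apply bc_transc bc (hξ i0)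
          rw [sub_eq_zero.1 h0]
          exact isAlgebraic_algebraMap _)
        omega)
  let A1 : Finset Ω := A0 ∪ Finset.univ.image cJ
  have hA1 : A1.card < n := by
    have h1 := Finset.card_union_le A0 (Finset.univ.image cJ)
    have h2 : (Finset.univ.image cJ).card ≤ Fintype.card J := Finset.card_image_le
    change (A0 ∪ Finset.univ.image cJ).card < n
    omega
  let M : IntermediateField ℂ Ω := clo (A1 : Set Ω)
  have hM0M : M0 ≤ M := by
    intro y hy
    change y ∈ clo (A1 : Set Ω)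
    have h1 : y ∈ clo (A0 : Set Ω) := hy
    rw [mem_clo] at h1 ⊢
    have h2 : IntermediateField.adjoin ℂ (A0 : Set Ω) ≤ IntermediateField.adjoin ℂ (A1 : Set Ω) :=
      IntermediateField.adjoin.mono _ _ _ (by
        intro y hy
        exact Finset.mem_coe.2 (Finset.mem_union_left _ (Finset.mem_coe.1 hy)))
    exact h1.ringHom_of_comp_eq (IntermediateField.inclusion h2 :
      IntermediateField.adjoin ℂ (A0 : Set Ω) →+* IntermediateField.adjoin ℂ (A1 : Set Ω))
      (RingHom.id Ω) (IntermediateField.inclusion h2).injective (by ext y; rfl)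
  have hcM : ∀ j, cJ j ∈ M := fun j => subset_clo (by
    rw [Finset.mem_coe, Finset.mem_union]
    right
    exact Finset.mem_image_of_mem _ (Finset.mem_univ j))
  have hMtr : Algebra.trdeg ℂ M < n := by
    refine lt_of_le_of_lt (clo_trdeg A1) ?_
    exact_mod_cast hA1
  have hFM : ∀ l : Fin n, (∀ i ∈ S, (i : Fin n) ≠ l) → ∀ y ∈ F l, ι y ∈ M := by
    intro l hl y hy
    exact hM0M (range_clo (hξ l) (ι.comp (F l).val) (subset_clo (by
      rw [Finset.mem_coe, Finset.mem_union]
      right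
      exact Finset.mem_image_of_mem (fun l => ι (ξ l : K)) (Finset.mem_filter.2 ⟨Finset.mem_univ l, hl⟩))) ⟨y, hy⟩)
  have hMc : IsAlgClosed M := clo_closed _
  have hM0 : CharZero M := charZero_of_injective_algebraMap (algebraMap ℂ M).injective
  have tM1 : IsScalarTower M Ω E := inferInstance
  have tM2 : IsScalarTower ℂ M E := IsScalarTower.of_algebraMap_eq fun c => by
    rw [IsScalarTower.algebraMap_apply ℂ Ω E]; rfl
  obtain ⟨hffM, bcM⟩ := bc_M (M := M) bc hgen
  -- not all points are defined over the small field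
  have hnot : ∃ i ∈ S, ∃ f : F i0, x i f ∉ M := by
    by_contra hcon
    push Not at hcon
    have h1 : (⊤ : IntermediateField ℂ K) ≤ M.comap ι := by
      rw [← hsup, iSup_le_iff]
      intro l y hy
      change ι y ∈ M
      by_cases hl : ∀ i ∈ S, (i : Fin n) ≠ l
      · exact hFM l hl y hy
      · push Not at hl
        obtain ⟨i, hi, rfl⟩ := hl
        obtain ⟨f, hf⟩ := (hφ i i.2 y).1 hy
        rw [← hf]
        exact hcon i hi f
    let ι' : K →ₐ[ℂ] M := ι.codRestrict M.toSubalgebra fun y => h1 (x := y) trivial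
    have h2 := trdeg_le_of_injective ι' ι'.injective
    rw [hn] at h2
    exact absurd h2 (not_le.2 hMtr)
  let N : IntermediateField M E := IntermediateField.adjoin M (Set.range (algebraMap (F i0) E))
  let inc : F i0 → N := fun f => ⟨algebraMap (F i0) E f, subset_adjoin _ _ ⟨f, rfl⟩⟩
  have hinc : ∀ f, algebraMap N E (inc f) = algebraMap (F i0) E f := fun f => rfl
  have hN0 : ∀ y ∈ N0, y ∈ N := by
    intro y hy
    refine IntermediateField.adjoin_induction M0 (p := fun y _ => y ∈ N) ?_ ?_ ?_ ?_ ?_ hy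
    · rintro _ ⟨f, rfl⟩
      exact subset_adjoin _ _ ⟨f, rfl⟩
    · intro c
      exact N.algebraMap_mem ⟨c, hM0M c.2⟩
    · intro a b _ _ ha hb
      exact add_mem ha hb
    · intro a _ ha
      exact inv_mem ha
    · intro a b _ _ ha hb
      exact mul_mem ha hb
  have hlN : algebraMap N0 E l0 + ∑ j, algebraMap Ω E (cJ j) * algebraMap N0 E (lJ j) ∈ N := by
    refine add_mem (hN0 _ l0.2) (sum_mem fun j _ => mul_mem ?_ (hN0 _ (lJ j).2))
    exact N.algebraMap_mem ⟨cJ j, hcM j⟩
  let lN : N := ⟨_, hlN⟩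
  have habN : algebraMap N E lN = algebraMap Ω E b1 + algebraMap Ω E a1 * h⁻¹ := hab
  obtain ⟨ht0, hcore⟩ := pencil_coreB bcM P S hh hord hpol ha10 habN (by
      obtain ⟨i, hi, f, hf⟩ := hnot
      refine ⟨i, hi, inc f, Or.inr (Ats.ord (hP i) f).ge, fun m hm => hf ?_⟩
      have h1 := val_unique (hP i f) hm
      rw [h1]
      exact m.2)
  obtain ⟨t0, ht0e⟩ : ∃ t0, t0 = b1 := ⟨_, rfl⟩
  rw [← ht0e] at ht0 hcore
  have hρx : ∀ (i : B) (ρ : N →ₐ[M] Ω), Ats (P i) ρ → ∀ f, ρ (inc f) = x i f := fun i ρ hρ f =>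
    val_unique (hρ (inc f)) (hP i f)
  -- algebraicity
  have hKalg : ∀ y : K, IsAlgebraic M⟮t0⟯ (ι y) := by
    have h1 : (⊤ : IntermediateField ℂ K) ≤
        (((algebraicClosure M⟮t0⟯ Ω).restrictScalars M).restrictScalars ℂ).comap ι := by
      rw [← hsup, iSup_le_iff]
      intro l y hy
      change ι y ∈ algebraicClosure M⟮t0⟯ Ω
      rw [mem_algebraicClosure_iff]
      by_cases hl : ∀ i ∈ S, (i : Fin n) ≠ l
      · exact isAlgebraic_algebraMap
          (⟨ι y, (M⟮t0⟯).algebraMap_mem ⟨ι y, hFM l hl y hy⟩⟩ : M⟮t0⟯)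
      · push Not at hl
        obtain ⟨i, hi, rfl⟩ := hl
        obtain ⟨f, hf⟩ := (hφ i i.2 y).1 hy
        obtain ⟨ρ, hρ, -, hρalg, -⟩ := hcore i hi
        have h2 := hρalg (inc f)
        rw [hρx i ρ hρ f] at h2
        rw [← hf]
        exact h2
    intro y
    exact mem_algebraicClosure_iff.1 (h1 (x := y) trivial)
  have hΩalg : Algebra.IsAlgebraic M⟮t0⟯ Ω := by
    refine ⟨fun w => ?_⟩
    have h1 : IsAlgebraic K w := Algebra.IsAlgebraic.isAlgebraic w
    let N' := algebraicClosure M⟮t0⟯ Ω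
    let g : K →+* N' := (ι : K →+* Ω).codRestrict N' fun y => mem_algebraicClosure_iff.2 (hKalg y)
    have h2 : IsAlgebraic N' w := h1.ringHom_of_comp_eq g (RingHom.id Ω) g.injective (by
      ext y; rfl)
    have h3 : Algebra.IsAlgebraic M⟮t0⟯ N' := inferInstance
    exact h2.restrictScalars M⟮t0⟯
  -- transcendence degrees
  have hnΩ : Algebra.trdeg ℂ Ω = n := by
    have h1 := trdeg_add_eq ℂ K (A := Ω)
    have h2 : Algebra.trdeg K Ω = 0 := by
      rw [trdeg_eq_zero_iff]
      infer_instance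
    rw [h2, add_zero, hn] at h1
    exact h1.symm
  have hMΩ : Algebra.trdeg M Ω = 1 := by
    have h1 : AlgebraicIndependent M (fun _ : Unit => t0) := by
      rw [algebraicIndependent_unique_type_iff]
      exact ht0
    have h3 : Set.range (fun _ : Unit => t0) = {t0} := by simp
    have h2 : IsTranscendenceBasis M (fun _ : Unit => t0) := by
      rw [isTranscendenceBasis_iff_algebraicIndependent_isAlgebraic]
      refine ⟨h1, ?_⟩
      rw [h3]
      exact Pool.Agent.W619.PQ.alg_adjoin (k := M) fun z => hΩalg.isAlgebraic z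
    have := h2.lift_cardinalMk_eq_trdeg
    simpa using this.symm
  obtain ⟨m, hm⟩ := Cardinal.lt_aleph0.1 (hMtr.trans (Cardinal.natCast_lt_aleph0 (n := n)))
  have hmn : n = m + 1 := by
    have h3 := trdeg_add_eq ℂ M (A := Ω)
    rw [hMΩ, hnΩ, hm] at h3
    exact_mod_cast h3.symm
  -- the fixed field is contained in `M (t0)`
  have hmem : ∀ e : fixedField G, ι (e : K) ∈ M⟮t0⟯ := by
    intro e
    obtain ⟨y, hy⟩ := fixed_mem (R := M⟮t0⟯) (Ω := Ω) (w := ι (e : K)) (by
      intro τ'
      let τ : Ω ≃ₐ[M] Ω := τ'.restrictScalars M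
      have hτ0 : τ t0 = t0 := τ'.commutes ⟨t0, mem_adjoin_simple_self M t0⟩
      choose ρ hρ _ _ hρτ using hcore
      have hσ : ∀ i : S, ∃ j : S, Ats (P j) ((τ : Ω →ₐ[M] Ω).comp (ρ i.1 i.2)) := by
        intro i
        obtain ⟨j, hj, hj'⟩ := hρτ i.1 i.2 τ hτ0
        exact ⟨⟨j, hj⟩, hj'⟩
      choose σ hσ using hσ
      have hσx : ∀ (i : S) (f : F i0), τ (x i f) = x (σ i) f := by
        intro i f
        have h2 := hρx (σ i) _ (hσ i) f
        rw [← h2, ← hρx i _ (hρ i.1 i.2) f]
        rfl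
      have hσi : Function.Injective σ := by
        intro i j hij
        have h2 : x i = x j := by
          ext f
          apply τ.injective
          rw [hσx, hσx, hij]
        exact Subtype.ext (hx h2)
      let π : Equiv.Perm S := Equiv.ofBijective σ (Finite.injective_iff_bijective.1 hσi)
      obtain ⟨g, hgG, hg1, hg2⟩ := exists_perm F G B φ (fun i hi f => (hφ i hi _).2 ⟨f, rfl⟩)
        hsw S π
      have hall : ∀ y : K, τ (ι y) = ι (g y) := by
        have h2 : (⊤ : IntermediateField ℂ K) ≤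
            eqF (((τ : Ω →ₐ[M] Ω).restrictScalars ℂ).comp ι) (ι.comp (g : K →ₐ[ℂ] K)) := by
          rw [← hsup, iSup_le_iff]
          intro l y hy
          rw [mem_eqF]
          change τ (ι y) = ι (g y)
          by_cases hl : ∀ i ∈ S, (i : Fin n) ≠ l
          · rw [hg2 l (fun i => hl i.1 i.2) y hy]
            exact τ.commutes ⟨ι y, hFM l hl y hy⟩
          · push Not at hl
            obtain ⟨i, hi, rfl⟩ := hl
            obtain ⟨f, hf⟩ := (hφ i i.2 y).1 hy
            rw [← hf]
            have h3 := hg1 ⟨i, hi⟩ f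
            change g (φ i f) = φ (σ ⟨i, hi⟩) f at h3
            rw [h3]
            exact hσx ⟨i, hi⟩ f
        exact fun y => h2 (x := y) trivial
      have h2 := hall e
      have h3 : g (e : K) = e := e.2 ⟨g, hgG⟩
      rw [h3] at h2
      exact h2)
    rw [← hy]
    exact y.2
  have hfin : FiniteDimensional (fixedField G) K := Pool.Agent.W619.PQ.fixed_finite G
  have hessK : Algebra.EssFiniteType ℂ K := ess_top F hsup
  have hessG : Algebra.EssFiniteType ℂ (fixedField G) := Pool.Agent.TH466.QG.ess_below (K := K)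
  have hnG : Algebra.trdeg ℂ (fixedField G) = n := Pool.Agent.Y184.NT.trdeg_below (K := K) hn
  -- the application of the criterion
  subst hmn
  have hessM1 : Algebra.EssFiniteType M M⟮t0⟯ := IntermediateField.essFiniteType_iff.2
    (IntermediateField.fg_adjoin_of_finite (Set.finite_singleton t0))
  have htrM1 : Algebra.trdeg M M⟮t0⟯ = 1 := by
    refine le_antisymm ?_ ?_
    · rw [← hMΩ]
      exact trdeg_le_of_injective (M⟮t0⟯).val (M⟮t0⟯).val.injective
    · have h1 : AlgebraicIndependent M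
          (fun _ : Unit => (⟨t0, mem_adjoin_simple_self M t0⟩ : M⟮t0⟯)) := by
        rw [algebraicIndependent_unique_type_iff]
        intro h2
        exact ht0 (h2.algebraMap (A := Ω))
      have h2 := h1.lift_cardinalMk_le_trdeg
      simpa using h2
  have hff1 : IsFF M M⟮t0⟯ := ⟨hessM1, htrM1⟩
  let s1 : M⟮t0⟯ := ⟨t0, mem_adjoin_simple_self M t0⟩
  have hs1 : IntermediateField.adjoin M {s1} = ⊤ := by
    rw [eq_top_iff]
    rintro ⟨y, hy⟩ -
    have h1 : (IntermediateField.adjoin M {s1}).map (M⟮t0⟯).val = M⟮t0⟯ := by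
      rw [IntermediateField.adjoin_map, Set.image_singleton]
      rfl
    have h2 : y ∈ (IntermediateField.adjoin M {s1}).map (M⟮t0⟯).val := by
      rw [h1]; exact hy
    obtain ⟨y', hy', hyy⟩ := h2
    have h3 : y' = ⟨y, hy⟩ := Subtype.ext hyy
    rwa [← h3]
  have tM1' : IsScalarTower ℂ M M⟮t0⟯ := IsScalarTower.of_algebraMap_eq fun _ => rfl
  let ψ1 : fixedField G →ₐ[ℂ] M⟮t0⟯ :=
    { toFun := fun e => ⟨ι (e : K), hmem e⟩
      map_one' := Subtype.ext (map_one ι)
      map_mul' := fun a b => Subtype.ext (map_mul ι _ _)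
      map_zero' := Subtype.ext (map_zero ι)
      map_add' := fun a b => Subtype.ext (map_add ι _ _)
      commutes' := fun c => Subtype.ext (ι.commutes c) }
  have hpole : ∀ (w : Place M M⟮t0⟯) (v : Place ℂ (fixedField G)) (e : ℕ), 0 < e →
      (∀ f, w.ord (ψ1 f) = e * v.ord f) → Bd v → w.ord s1 < 0 := by
    intro w v e he hw hv
    obtain ⟨A, hle, W, e1, he1, hιA, hW⟩ := exists_W ι hessK M hMΩ ht0 w
    have he1' : (0 : ℤ) < e1 := by exact_mod_cast he1
    have he' : (0 : ℤ) < e := by exact_mod_cast he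
    have tA1 : IsScalarTower ℂ M A := IsScalarTower.of_algebraMap_eq fun _ => rfl
    let ιA : K →ₐ[ℂ] A :=
      { toFun := fun e => ⟨ι (e : K), hιA e⟩
        map_one' := Subtype.ext (map_one ι)
        map_mul' := fun a b => Subtype.ext (map_mul ι _ _)
        map_zero' := Subtype.ext (map_zero ι)
        map_add' := fun a b => Subtype.ext (map_add ι _ _)
        commutes' := fun c => Subtype.ext (ι.commutes c) }
    have hWv : ∀ f : fixedField G, W.ord (ιA (f : K)) = (e1 * e : ℤ) * v.ord f := by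
      intro f
      have h1 := hW (ψ1 f)
      rw [hw f, ← mul_assoc] at h1
      exact h1
    -- the place of `K`
    obtain ⟨f0, hf00, hf0⟩ := v.surj
    obtain ⟨Q, c, hc, hQ⟩ := restr1 (k := M) (k' := ℂ) ιA W ⟨(f0 : K), by
      rw [hWv, hf0, mul_one]; positivity⟩
    have hc' : (0 : ℤ) < c := by exact_mod_cast hc
    obtain ⟨v', e2, he2, hQv⟩ := restr0 (k := ℂ) (fixedField G).val Q ⟨f0, by
      intro h0
      have h1 := hWv f0
      rw [hQ] at h1
      have h2 : Q.ord (f0 : K) = 0 := h0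
      rw [h2, hf0] at h1
      have : (0 : ℤ) < e1 * e := by positivity
      omega⟩
    have he2' : (0 : ℤ) < e2 := by exact_mod_cast he2
    have hvv : v' = v := by
      refine place_eq (a := c * e2) (b := e1 * e) (by positivity) (by positivity) fun f => ?_
      rw [← hWv f, hQ]
      have h1 : Q.ord (f : K) = e2 * v'.ord f := hQv f
      rw [h1]
      ring
    subst hvv
    obtain ⟨i, p, hp, e3, he3, hQp⟩ := hBd v' Q e2 ⟨he2, hQv⟩ hv
    have he3' : (0 : ℤ) < e3 := by exact_mod_cast he3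
    have hWp : ∀ z : F i, W.ord (ιA (z : K)) = (c * e3 : ℤ) * p.ord z := by
      intro z
      have h1 : Q.ord (z : K) = e3 * p.ord z := hQp z
      rw [hQ, h1]
      ring
    obtain ⟨z0, hz00, hz0⟩ := p.surj
    have hiS : ∃ i' ∈ S, (i' : Fin (m + 1)) = i := by
      by_contra hcon
      push Not at hcon
      have h1 := hFM i (fun i' hi' h => hcon i' hi' h) z0 z0.2
      have h2 : W.ord (ιA (z0 : K)) = 0 := by
        have h3 : ιA (z0 : K) = algebraMap M A ⟨ι (z0 : K), h1⟩ := Subtype.ext rfl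
        rw [h3]
        refine W.ord_const fun h0 => hz00 ?_
        have h4 : ι (z0 : K) = 0 := congrArg Subtype.val h0
        exact Subtype.ext ((map_eq_zero ι).1 h4)
      rw [hWp, hz0, mul_one] at h2
      have : (0 : ℤ) < c * e3 := by positivity
      omega
    obtain ⟨i', hi'S, rfl⟩ := hiS
    obtain ⟨p1, hp1, hp1e⟩ := hcomp i' i'.2 p hp
    obtain ⟨ρ, hρ, hρl, -, -⟩ := hcore i' hi'S
    have hρA : ∀ y : N, ρ y ∈ A := by
      rintro ⟨y, hy⟩
      refine IntermediateField.adjoin_induction M (p := fun y hy => ρ ⟨y, hy⟩ ∈ A) ?_ ?_ ?_ ?_ ?_ hy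
      · rintro _ ⟨f, rfl⟩
        have h1 := hρx i' ρ hρ f
        change ρ (inc f) ∈ A
        rw [h1]
        exact hιA _
      · intro c
        have h1 : ρ (algebraMap M N c) ∈ A := by
          rw [ρ.commutes]
          exact A.algebraMap_mem c
        exact h1
      · intro a b ha hb h1 h2
        have h3 : ρ (⟨a, ha⟩ + ⟨b, hb⟩) ∈ A := by
          rw [map_add]
          exact add_mem h1 h2
        exact h3
      · intro a ha h1
        have h3 : ρ (⟨a, ha⟩)⁻¹ ∈ A := by
          rw [map_inv₀]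
          exact inv_mem h1
        exact h3
      · intro a b ha hb h1 h2
        have h3 : ρ (⟨a, ha⟩ * ⟨b, hb⟩) ∈ A := by
          rw [map_mul]
          exact mul_mem h1 h2
        exact h3
    let ρA : N →ₐ[M] A :=
      { toFun := fun y => ⟨ρ y, hρA y⟩
        map_one' := Subtype.ext (map_one ρ)
        map_mul' := fun a b => Subtype.ext (map_mul ρ _ _)
        map_zero' := Subtype.ext (map_zero ρ)
        map_add' := fun a b => Subtype.ext (map_add ρ _ _)
        commutes' := fun c => Subtype.ext (ρ.commutes c) }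
    have hρAx : ∀ f : F i0, ρA (inc f) = ιA (φ i' f) := fun f => Subtype.ext (hρx i' ρ hρ f)
    obtain ⟨f1, hf1⟩ := (hφ i' i'.2 (z0 : K)).1 z0.2
    have hWf : ∀ f : F i0, W.ord (ρA (inc f)) = (c * e3 : ℤ) * p1.ord f := by
      intro f
      have h1 : φ i' f ∈ F i' := (hφ i' i'.2 _).2 ⟨f, rfl⟩
      rw [hρAx, hWp ⟨φ i' f, h1⟩, hp1e f ⟨φ i' f, h1⟩ rfl]
    obtain ⟨q, e4, he4, hq⟩ := restr0 (k := M) ρA W ⟨inc f1, by
      rw [hρAx, hf1, hWp, hz0, mul_one]
      positivity⟩
    have he4' : (0 : ℤ) < e4 := by exact_mod_cast he4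
    obtain ⟨QE, e5, he5, hQE⟩ := exists_place_over bcM q
    have he5' : (0 : ℤ) < e5 := by exact_mod_cast he5
    have hQEf : ∀ f : F i0, e4 * QE.ord (algebraMap (F i0) E f) =
        (e5 * (c * e3) : ℤ) * p1.ord f := by
      intro f
      have h1 : QE.ord (algebraMap (F i0) E f) = e5 * q.ord (inc f) := hQE (inc f)
      rw [h1]
      have h2 := hq (inc f)
      rw [hWf] at h2
      linear_combination (-(e5 : ℤ)) * h2
    obtain ⟨f2, hf20, hf2⟩ := p1.surj
    obtain ⟨p2, e6, he6, hp2⟩ := restr' (k := ℂ) (L := F i0) QE ⟨f2, by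
      intro h0
      have h1 := hQEf f2
      rw [h0, hf2, mul_zero, mul_one] at h1
      have : (0 : ℤ) < e5 * (c * e3) := by positivity
      omega⟩
    have he6' : (0 : ℤ) < e6 := by exact_mod_cast he6
    have hpp : p2 = p1 := by
      refine place_eq (a := e4 * e6) (b := e5 * (c * e3)) (by positivity) (by positivity)
        fun f => ?_
      rw [← hQEf f, hp2]
      ring
    subst hpp
    have hhpos := hBpos p2 hp1 QE e6 he6 hp2
    -- the pole
    have hh0 : h ≠ 0 := fun h0 => hh 0 (by rw [h0, map_zero])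
    have ha1E : algebraMap Ω E a1 ≠ 0 := (_root_.map_ne_zero _).2 ha10
    have hmul : QE.ord (algebraMap Ω E a1 * h⁻¹) = -QE.ord h := by
      rw [QE.ord_mul ha1E (inv_ne_zero hh0), QE.ord_const ha10, QE.ord_inv, zero_add]
    have hlneg : QE.ord (algebraMap N E lN) < 0 := by
      by_contra hcon
      push Not at hcon
      have h1 : Ge QE 0 (algebraMap N E lN - algebraMap Ω E b1) :=
        (show Ge QE 0 (algebraMap N E lN) from Or.inr hcon).sub (Ge.const b1)
      rw [habN, add_sub_cancel_left] at h1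
      have h2 := h1.resolve_left (mul_ne_zero ha1E (inv_ne_zero hh0))
      omega
    have hqneg : q.ord lN < 0 := by
      rw [hQE] at hlneg
      by_contra hcon
      push Not at hcon
      have : (0 : ℤ) ≤ e5 * q.ord lN := by positivity
      omega
    have hWneg : W.ord (ρA lN) < 0 := by
      rw [hq]
      exact mul_neg_of_pos_of_neg he4' hqneg
    have hfin : W.ord (ρA lN) = e1 * w.ord s1 := by
      rw [← hW s1]
      congr 1
      exact Subtype.ext hρl
    rw [hfin] at hWneg
    by_contra hcon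
    push Not at hcon
    have : (0 : ℤ) ≤ e1 * w.ord s1 := by positivity
    omega
  exact Pool.Agent.Helper320.PCL.t_A1 Pool.Agent.Helper320.PCL.t_EXT Pool.Agent.Helper320.PCL.t_P1
    hff1 hnG hm ψ1 s1 hs1 Bd (fun w1 w2 v1 v2 e1 e2 he1 he2 hw1 hw2 hv1 hv2 =>
      one_pole hff1 hs1 (hpole w1 v1 e1 he1 hw1 hv1) (hpole w2 v2 e2 he2 hw2 hv2))

end

end Pool.Agent.H908.UB
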