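import Pool.Agent.H908.UA4
import Pool.Graph.R_pool_sql_team_seeded_620a6dc7.Helper320.PCL.Stm

/-! Products of forms which are regular at the places below a given place. -/

set_option autoImplicit false
set_option linter.overlappingInstances false
set_option linter.unusedSectionVars false
set_option linter.unusedVariables false
set_option linter.style.haveILetI false

open FF IntermediateField Pool.Agent.W619.PQ Pool.Agent.W619.PL Pool.Agent.W619.TW
  Pool.Agent.W603.LV Pool.Agent.W619.Y Pool.Agent.W672.PG Pool.Agent.W824.PG Pool.Agent.Y174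
  Pool.Agent.K1H17.IS Pool.Agent.K1H6.PQ

namespace Pool.Agent.H908.UC

open Pool.Agent.H908.SB Pool.Agent.H908.TA

section

variable {L : Type} [Field L] [Algebra ℂ L]

/-- `f (dy) ^ μ` is regular at the place below `w`. -/
def RegW (w : Place ℂ L) (M : IntermediateField ℂ L) {a : ℕ} (y : Fin a → M) (μ : ℕ) (f : M) :
    Prop :=
  ∀ (u : Place ℂ M) (c : ℕ), Over w u c → IsDivisorial u a → RegularAt u a (PF (k := ℂ) y μ f)

theorem RegW.mul {w : Place ℂ L} {M : IntermediateField ℂ L} {a : ℕ} {y : Fin a → M} {μ ν : ℕ}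
    {f g : M} (h1 : RegW w M y μ f) (h2 : RegW w M y ν g) : RegW w M y (μ + ν) (f * g) := by
  intro u c hu hd D hD
  have h3 : Ge u 0 (PF y μ f D) := h1 u c hu hd D hD
  have h4 : Ge u 0 (PF y ν g D) := h2 u c hu hd D hD
  have h5 : PF y (μ + ν) (f * g) D = PF y μ f D * PF y ν g D := by
    unfold PF
    ring
  change Ge u 0 _
  rw [h5]
  simpa using h3.mul h4

theorem RegW.one {w : Place ℂ L} {M : IntermediateField ℂ L} {a : ℕ} {y : Fin a → M} :
    RegW w M y 0 1 := by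
  intro u _ _ _ D _
  unfold PF
  rw [pow_zero, one_mul]
  exact u.reg_one

theorem RegW.prod {w : Place ℂ L} {M : IntermediateField ℂ L} {a : ℕ} {y : Fin a → M} {ι : Type}
    (s : Finset ι) {f : ι → M} (h : ∀ i ∈ s, RegW w M y 1 (f i)) :
    RegW w M y s.card (∏ i ∈ s, f i) := by
  classical
  induction s using Finset.induction_on with
  | empty => rw [Finset.card_empty, Finset.prod_empty]; exact RegW.one
  | insert j s hj ih =>
    rw [Finset.card_insert_of_notMem hj, Finset.prod_insert hj, add_comm]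
    exact (h j (Finset.mem_insert_self _ _)).mul (ih fun i hi => h i (Finset.mem_insert_of_mem hi))

/-- Good coordinates at one place. -/
theorem good_frameW {w : Place ℂ L} {N : ℕ} (hw : IsDivisorial w N) (hn : Algebra.trdeg ℂ L = N)
    (M : IntermediateField ℂ L) {a : ℕ} (ha : Algebra.trdeg ℂ M = a)
    (hess : Algebra.EssFiniteType ℂ M) :
    ∃ (X : Fin a → M) (E : Fin a → Derivation ℂ M M), IsTranscendenceBasis ℂ X ∧
      (∀ p q, E p (X q) = if p = q then 1 else 0) ∧ (∀ q, Ge w 0 (X q : L)) ∧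
      ∀ s : (Fin a → Derivation ℂ M M) → M,
        (∀ (u : Place ℂ M) (c : ℕ), Over w u c → IsDivisorial u a → RegularAt u a s) →
          Ge w 0 (s E : L) := by
  classical
  by_cases hT : ∃ f : M, w.ord (algebraMap M L f) ≠ 0
  · obtain ⟨c, u, hu⟩ := exists_over (K := M) w hT
    have hdiv : IsDivisorial u a := Pool.Agent.Y174.pDIVR ℂ M L a N u w c ha hn hu hw
    obtain ⟨y, F, i0, hy, hF, ht, hyr, hpres⟩ := Pool.Agent.Y174.pFRAME ℂ M a ha
      (fun y hy => fin_adj hess y hy) u hdiv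
    refine ⟨y, F, hy, hF, fun q => hu.reg.2 (hyr q), fun s hs => ?_⟩
    exact hu.reg.2 (hs u c hu hdiv F hpres)
  · push Not at hT
    obtain ⟨X, hX⟩ := Pool.Agent.W636.PG.exists_basis ℂ M a ha
    obtain ⟨E, hE⟩ := Pool.Agent.W636.PG.exists_duals ℂ M a X hX
    have h0 : ∀ f : M, w.ord (f : L) = 0 := hT
    exact ⟨X, E, hX, hE, fun q => Or.inr (h0 _).ge, fun s _ => Or.inr (h0 _).ge⟩

/-- The logarithmic order of a regular form along an inert place. -/
theorem wlog_regW (M : IntermediateField ℂ L) {a : ℕ} (hM : Algebra.trdeg ℂ M = a)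
    (hessM : Algebra.EssFiniteType ℂ M) {N : ℕ} {w : Place ℂ L} (hn : Algebra.trdeg ℂ L = N)
    (hw : IsDivisorial w N) {g : L ≃ₐ[ℂ] L} (hgM : ∀ z ∈ M, g z ∈ M) (hfin : IsOfFinOrder g)
    (hI : Inert w g) {μ : ℕ} {y : Fin a → M} {f : M} (hf : RegW w M y μ f) :
    WLog w M a (PF y μ f) (μ * (orderOf g * wgt M g 0)) := by
  refine ⟨fun u c hu => ?_, fun h0 => ?_⟩
  · have hdiv : IsDivisorial u a := Pool.Agent.Y174.pDIVR ℂ M L a N u w c hM hn hu hw
    have h1 : LogGe a u (PF (k := ℂ) y μ f) (μ + 0) := by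
      refine logGe_of_reg hM hessM hdiv _ (pf_pluri y μ f) fun D hD => ?_
      have h3 : Ge u 0 (PF y μ f D) := hf u c hu hdiv D hD
      simpa using Ge.toR h3
    refine h1.mono ?_
    have hc1 : 0 < c := hu.1
    have hc : (0 : ℝ) < c := by exact_mod_cast hc1
    have hidx := index_ge M hI hfin hu
    rw [div_le_iff₀ hc, add_zero]
    exact mul_le_mul_of_nonneg_left hidx (Nat.cast_nonneg μ)
  · rw [triv_of_place M hI hgM h0]
    simp

variable {r : ℕ} {M : Fin r → IntermediateField ℂ L} {a : Fin r → ℕ}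
  {G : Subgroup (L ≃ₐ[ℂ] L)} {σ : G →* Equiv.Perm (Fin r)}

/-- The order of a product of regular forms along an inert place. -/
theorem prod_ramW [Finite G] (h : IsPermuted M a G σ) {w : Place ℂ L}
    (hw : IsDivisorial w (∑ i, a i)) (g : G) (hI : Inert w (g : L ≃ₐ[ℂ] L)) {μ : ℕ}
    {y : ∀ i, Fin (a i) → M i} (hy : ∀ i, IsTranscendenceBasis ℂ (y i)) {f : ∀ i, M i}
    (hf : ∀ i, RegW w (M i) (y i) μ (f i))
    (D : (Σ i, Fin (a i)) → Derivation ℂ L L) (hD : ∀ j, Pres w (D j))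
    (hlD : ∀ j z, w.Reg (D j z / z)) :
    GeR w (μ * (orderOf (g : L ≃ₐ[ℂ] L) * age M a (σ g) (fun _ _ => 0) (g : L ≃ₐ[ℂ] L)))
      ((Matrix.of fun i j : (Σ i, Fin (a i)) => D i (y j.1 j.2 : L)).det ^ μ *
        ∏ i, ((f i : M i) : L)) := by
  classical
  have halg : Algebra.IsAlgebraic ↥(⨆ i, M i) L := by
    rw [h.sup]
    exact ⟨fun z => isAlgebraic_algebraMap (⟨z, trivial⟩ : (⊤ : IntermediateField ℂ L))⟩
  choose E hE using fun i => Pool.Agent.W636.PG.exists_duals ℂ (M i) (a i) (y i) (hy i)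
  have hfin : IsOfFinOrder (g : L ≃ₐ[ℂ] L) := by
    have h3 : IsOfFinOrder g := isOfFinOrder_of_finite _
    exact (Submonoid.isOfFinOrder_coe (H := G.toSubmonoid) (x := g)).2 h3
  set e := orderOf (g : L ≃ₐ[ℂ] L) with he
  set π : Equiv.Perm (Fin r) := σ g with hπ
  have hge : g ^ e = 1 := by
    apply Subtype.ext
    have : ((g ^ e : G) : L ≃ₐ[ℂ] L) = (g : L ≃ₐ[ℂ] L) ^ e := rfl
    rw [this, he, pow_orderOf_eq_one]
    rfl
  have hπe : π ^ e = 1 := by rw [hπ, ← map_pow, hge, map_one]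
  let l : Fin r → ℕ := fun i => Function.minimalPeriod π i
  have hl0 : ∀ i, 0 < l i := fun i => mp_pos π i
  have hordl : ∀ i, (orderOf ((g : L ≃ₐ[ℂ] L) ^ l i) : ℝ) = e * (1 / (l i : ℝ)) := by
    intro i
    have h2 : orderOf ((g : L ≃ₐ[ℂ] L) ^ l i) = e / l i :=
      orderOf_pow_of_dvd (hl0 i).ne' (mp_dvd π i hπe)
    have h3 : e = e / l i * l i := (Nat.div_mul_cancel (mp_dvd π i hπe)).symm
    have h4 : (l i : ℝ) ≠ 0 := by exact_mod_cast (hl0 i).ne'
    rw [h2, mul_one_div, eq_div_iff h4]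
    exact_mod_cast h3.symm
  have hst : ∀ i, ∀ z ∈ M i, ((g : L ≃ₐ[ℂ] L) ^ l i) z ∈ M i := by
    intro i z hz
    have h1 := h.perm (g ^ l i) i z hz
    rw [map_pow] at h1
    rwa [show (σ g ^ l i) i = i from pow_mp π i] at h1
  have h3 := ram M halg h.total h.trdeg h.ess σ h.perm hw g hI (μ := μ) y hy E hE
    (fun i => PF (y i) μ (f i)) (fun i => pf_pluri _ _ _) _
    (fun i => wlog_regW (M i) (h.trdeg i) (h.ess i) h.total hw (hst i) hfin.pow (inert_pow hI _)
      (hf i)) D hD hlD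
  have h5 : ∀ i, PF (y i) μ (f i) (E i) = f i := fun i => pf_eval (hE i) μ (f i)
  simp only [h5] at h3
  refine h3.mono ?_
  apply le_of_eq
  rw [age_eq]
  simp only [hordl]
  rw [mul_add, mul_add, Finset.mul_sum, Finset.mul_sum, add_comm]
  congr 1
  refine Finset.sum_congr rfl fun i _ => ?_
  ring

/-- The product of regular forms is regular. -/
theorem prod_regW (h : IsPermuted M a G σ) {w : Place ℂ L}
    (hw : IsDivisorial w (∑ i, a i)) {μ : ℕ}
    {y : ∀ i, Fin (a i) → M i} (hy : ∀ i, IsTranscendenceBasis ℂ (y i)) {f : ∀ i, M i}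
    (hf : ∀ i, RegW w (M i) (y i) μ (f i))
    (D : (Σ i, Fin (a i)) → Derivation ℂ L L) (hD : ∀ j, Pres w (D j)) :
    Ge w 0 ((Matrix.of fun i j : (Σ i, Fin (a i)) => D i (y j.1 j.2 : L)).det ^ μ *
        ∏ i, ((f i : M i) : L)) := by
  classical
  choose X E hX hE hXr hEr using fun i => good_frameW hw h.total (M i) (h.trdeg i) (h.ess i)
  have h1 : Ge w 0 (Matrix.of fun i j : (Σ i, Fin (a i)) => D i (X j.1 j.2 : L)).det :=
    Pool.Agent.W619.PQ.ge_det w _ fun i j => hD i _ (hXr j.1 j.2)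
  have h2 : ∀ s : Finset (Fin r), Ge w 0 (∏ i ∈ s, ((PF (y i) μ (f i) (E i) : M i) : L)) := by
    intro s
    induction s using Finset.induction_on with
    | empty => rw [Finset.prod_empty]; exact Ge.one
    | insert i s hi ih =>
      rw [Finset.prod_insert hi]
      simpa using (hEr i _ (hf i)).mul ih
  have h3 : (Matrix.of fun i j : (Σ i, Fin (a i)) => D i (y j.1 j.2 : L)).det ^ μ *
      ∏ i, ((f i : M i) : L) =
      (Matrix.of fun i j : (Σ i, Fin (a i)) => D i (X j.1 j.2 : L)).det ^ μ *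
        ∏ i, ((PF (y i) μ (f i) (E i) : M i) : L) := by
    rw [det_change y X hX E hE]
    have e1 : ∀ i, ((PF (y i) μ (f i) (E i) : M i) : L) =
        (((Matrix.of fun p q => E i p (y i q)).det : M i) : L) ^ μ * (f i : L) := by
      intro i
      unfold PF
      push_cast
      rfl
    simp only [e1]
    rw [Finset.prod_mul_distrib, Finset.prod_pow]
    ring
  rw [h3]
  simpa using (h1.pow μ).mul (h2 Finset.univ)

theorem cf_regW {w : Place ℂ L} {μ : ℕ} {y : ∀ i, Fin (a i) → M i}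
    {C : ∀ i : Cur a, Cur a → M i.1}
    (hC : ∀ i c, RegW w (M i.1) (y i.1) 1 (C i c)) {f : ∀ i, M i}
    (hf : ∀ i, a i ≠ 1 → RegW w (M i) (y i) μ (f i))
    (p : Fin μ → Equiv.Perm (Cur a)) (i : Fin r) : RegW w (M i) (y i) μ (SB.cf C f p i) := by
  unfold SB.cf
  split_ifs with h
  · have h1 := RegW.prod (w := w) (y := y i) (Finset.univ : Finset (Fin μ))
      (f := fun t => C ⟨i, h⟩ (p t ⟨i, h⟩)) fun t _ => hC ⟨i, h⟩ _
    rwa [Finset.card_univ, Fintype.card_fin] at h1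
  · exact hf i h

/-- The order at the ramification divisors of elements of age at least one. -/
theorem sf_ramW [Finite G] (h : IsPermuted M a G σ) {w : Place ℂ L}
    (hw : IsDivisorial w (∑ i, a i)) (g : G) (hI : Inert w (g : L ≃ₐ[ℂ] L))
    (hage : 1 ≤ age M a (σ g) (fun _ _ => 0) (g : L ≃ₐ[ℂ] L)) {μ : ℕ}
    {y : ∀ i, Fin (a i) → M i} (hy : ∀ i, IsTranscendenceBasis ℂ (y i))
    {C : ∀ i : Cur a, Cur a → M i.1} (hC : ∀ i c, RegW w (M i.1) (y i.1) 1 (C i c))
    {f : ∀ i, M i} (hf1 : ∀ i, a i = 1 → f i = 1)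
    (hf : ∀ i, a i ≠ 1 → RegW w (M i) (y i) μ (f i))
    (D : (Σ i, Fin (a i)) → Derivation ℂ L L) (hD : ∀ j, Pres w (D j))
    (hlD : ∀ j z, w.Reg (D j z / z)) :
    GeR w (μ * orderOf (g : L ≃ₐ[ℂ] L)) (SF y μ C f D) := by
  rw [sf_expand y μ C f hf1 D]
  refine GeR.sum _ _ _ fun p _ => ?_
  have h1 := prod_ramW h hw g hI hy (μ := μ) (fun i => cf_regW hC hf p i) D hD hlD
  have h2 := (Ge.toR (ge_sign w fun t => Equiv.Perm.sign (p t))).mul h1
  refine h2.mono ?_
  have h3 : (0 : ℝ) ≤ (μ : ℝ) * orderOf (g : L ≃ₐ[ℂ] L) := by positivity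
  have h4 := mul_le_mul_of_nonneg_left hage h3
  push_cast
  rw [zero_add, ← mul_assoc]
  linarith

/-- The order at the places which are not ramified. -/
theorem sf_regW (h : IsPermuted M a G σ) {w : Place ℂ L}
    (hw : IsDivisorial w (∑ i, a i)) {μ : ℕ}
    {y : ∀ i, Fin (a i) → M i} (hy : ∀ i, IsTranscendenceBasis ℂ (y i))
    {C : ∀ i : Cur a, Cur a → M i.1} (hC : ∀ i c, RegW w (M i.1) (y i.1) 1 (C i c))
    {f : ∀ i, M i} (hf1 : ∀ i, a i = 1 → f i = 1)
    (hf : ∀ i, a i ≠ 1 → RegW w (M i) (y i) μ (f i))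
    (D : (Σ i, Fin (a i)) → Derivation ℂ L L) (hD : ∀ j, Pres w (D j)) :
    Ge w 0 (SF y μ C f D) := by
  have h0 : GeR w ((0 : ℤ) : ℝ) (SF y μ C f D) := by
    rw [sf_expand y μ C f hf1 D]
    refine GeR.sum _ _ _ fun p _ => ?_
    have h1 := prod_regW h hw hy (μ := μ) (fun i => cf_regW hC hf p i) D hD
    have h2 := (ge_sign w fun t => Equiv.Perm.sign (p t)).mul h1
    rw [zero_add] at h2
    exact Ge.toR h2
  exact h0.toInt

end

end Pool.Agent.H908.UC
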