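import Pool.Agent.H908.UC1

/-! Logarithmic forms on products of curves: local estimates. -/

set_option autoImplicit false
set_option linter.overlappingInstances false
set_option linter.unusedSectionVars false
set_option linter.unusedVariables false
set_option linter.style.haveILetI false

open FF IntermediateField Pool.Agent.W619.PQ Pool.Agent.W619.PL Pool.Agent.W619.TW
  Pool.Agent.W603.LV Pool.Agent.W619.Y Pool.Agent.W672.PG Pool.Agent.W824.PG Pool.Agent.Y174
  Pool.Agent.K1H17.IS Pool.Agent.K1H6.PQ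

namespace Pool.Agent.H908.UC

open Pool.Agent.H908.SB Pool.Agent.H908.TA
open Pool.Agent.Helper320.PCL (IsLogD bt)

section

variable {L : Type} [Field L] [Algebra ℂ L]

/-- `f dW` is a logarithmic form with poles in `B`. -/
def LG (M : IntermediateField ℂ L) (B : Finset (Place ℂ M)) (W f : M) : Prop :=
  ∀ D : Derivation ℂ M M, D W = 1 → IsLogD B D f

theorem exists_dual1 {K : Type} [Field K] [Algebra ℂ K] {W : K}
    (hW : IsTranscendenceBasis ℂ (fun _ : Fin 1 => W)) : ∃ E : Derivation ℂ K K, E W = 1 := by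
  have htr : Algebra.trdeg ℂ K = (1 : ℕ) := by
    have := hW.lift_cardinalMk_eq_trdeg
    simpa using this.symm
  obtain ⟨E0, hE0⟩ := Pool.Agent.W636.PG.exists_duals ℂ K 1 _ hW
  exact ⟨E0 0, by have := hE0 0 0; rwa [if_pos rfl] at this⟩

theorem bt_le {k F : Type} [Field k] [Field F] [Algebra k F] (B : Finset (Place k F))
    (P : Place k F) : 0 ≤ bt B P ∧ bt B P ≤ 1 := by
  unfold bt
  split_ifs <;> norm_num

theorem LG.regW {w : Place ℂ L} {M : IntermediateField ℂ L} [IsFF ℂ M] {B : Finset (Place ℂ M)} {W f : M}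
    (hW : IsTranscendenceBasis ℂ (fun _ : Fin 1 => W))
    (hB : ∀ (u : Place ℂ M) (c : ℕ), Over w u c → u ∉ B) (h : LG M B W f) :
    RegW w M (fun _ : Fin 1 => W) 1 f := by
  intro u c hu hd D hD
  obtain ⟨E, hE⟩ := exists_dual1 hW
  have hE0 : E ≠ 0 := by
    rintro rfl
    exact zero_ne_one hE
  have h1 : (D 0) (unif u) = D 0 W * E (unif u) := by
    have h2 := der_eq hW hE (D 0)
    conv_lhs => rw [h2]
    rfl
  have hξ : u.ord (unif u) = 1 := ord_unif u
  have h2 : Ge u 0 ((D 0) (unif u)) := hD 0 _ (Or.inr (by rw [hξ]; norm_num))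
  obtain ⟨h3, h4⟩ := ord_der u hE0 (f := unif u) (by rw [hξ]; norm_num)
  have h5 := h E hE u
  have h6 : bt B u = 0 := by
    unfold bt
    rw [if_neg (hB u c hu)]
  rw [h6, sub_zero] at h5
  have h7 : PF (k := ℂ) (fun _ : Fin 1 => W) 1 f D = D 0 W * f := by
    unfold PF
    rw [Matrix.det_fin_one, pow_one]
    rfl
  change Ge u 0 _
  rw [h7]
  by_cases hf : f = 0
  · left; rw [hf, mul_zero]
  by_cases hD0 : D 0 W = 0
  · left; rw [hD0, zero_mul]
  right
  rw [u.ord_mul hD0 hf]
  have h8 := h5.resolve_left hf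
  rw [h1] at h2
  have h9 := h2.resolve_left (mul_ne_zero hD0 h3)
  rw [u.ord_mul hD0 h3, h4, hξ] at h9
  omega

theorem LG.log {w : Place ℂ L} {M : IntermediateField ℂ L} [IsFF ℂ M] {B : Finset (Place ℂ M)} {W f : M}
    (hW : IsTranscendenceBasis ℂ (fun _ : Fin 1 => W)) (h : LG M B W f)
    (D : Derivation ℂ L L) (hD : ∀ z, w.Reg (D z / z)) : Ge w 0 (D (W : L) * (f : L)) := by
  by_cases hf : f = 0
  · left; rw [hf]; exact mul_zero _
  have hfL : (f : L) ≠ 0 := fun h0 => hf (Subtype.ext h0)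
  by_cases hDW : D (W : L) = 0
  · left; rw [hDW, zero_mul]
  right
  rw [w.ord_mul hDW hfL]
  by_cases hT : ∃ z : M, w.ord (algebraMap M L z) ≠ 0
  · obtain ⟨c, u, hu⟩ := exists_over (K := M) w hT
    obtain ⟨E, hE⟩ := exists_dual1 hW
    have hE0 : E ≠ 0 := by
      rintro rfl
      exact zero_ne_one hE
    have hξ : u.ord (unif u) = 1 := ord_unif u
    have hξ0 : unif u ≠ 0 := by
      intro h0
      rw [h0, u.ord_zero] at hξ
      exact zero_ne_one hξ
    obtain ⟨h3, h4⟩ := ord_der u hE0 (f := unif u) (by rw [hξ]; norm_num)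
    have h1 := Pool.Agent.W308.PG.YLOC.expand (fun _ : Fin 1 => W) (fun _ : Fin 1 => E) hW
      (fun i j => by rw [Subsingleton.elim i j, if_pos rfl]; exact hE) D (unif u)
    rw [Finset.univ_unique, Finset.sum_singleton] at h1
    have h1' : D ((unif u : M) : L) = (E (unif u) : L) * D (W : L) := h1
    have hEL : ((E (unif u) : M) : L) ≠ 0 := fun h0 => h3 (Subtype.ext h0)
    have hξL : ((unif u : M) : L) ≠ 0 := fun h0 => hξ0 (Subtype.ext h0)
    have hDξ : D ((unif u : M) : L) ≠ 0 := by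
      rw [h1']
      exact mul_ne_zero hEL hDW
    have h2 := (hD ((unif u : M) : L)).resolve_left (div_ne_zero hDξ hξL)
    rw [w.ord_div hDξ hξL, h1', w.ord_mul hEL hDW] at h2
    have o1 : w.ord ((E (unif u) : M) : L) = c * u.ord (E (unif u)) := hu.2 _
    have o2 : w.ord ((unif u : M) : L) = c * u.ord (unif u) := hu.2 _
    have o3 : w.ord (f : L) = c * u.ord f := hu.2 _
    rw [o1, o2, h4, hξ] at h2
    rw [o3]
    have h5 := (h E hE u).resolve_left hf
    have h6 := (bt_le B u).2
    have hc : (0 : ℤ) < c := by exact_mod_cast hu.1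
    have h7 : (c : ℤ) * (vo u E - 1) ≤ c * u.ord f :=
      mul_le_mul_of_nonneg_left (by omega) hc.le
    nlinarith
  · push Not at hT
    have hW0 : W ≠ 0 := by
      rintro rfl
      have h1 : Transcendental ℂ (0 : M) := hW.1.transcendental 0
      exact h1 isAlgebraic_zero
    have hWL : (W : L) ≠ 0 := fun h0 => hW0 (Subtype.ext h0)
    have h2 := (hD (W : L)).resolve_left (div_ne_zero hDW hWL)
    rw [w.ord_div hDW hWL] at h2
    have o1 : w.ord (W : L) = 0 := hT W
    have o2 : w.ord (f : L) = 0 := hT f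
    omega

theorem LG.zero {M : IntermediateField ℂ L} {B : Finset (Place ℂ M)} {W : M} : LG M B W 0 :=
  fun _ _ _ => Or.inl rfl

variable {r : ℕ} {M : Fin r → IntermediateField ℂ L}

/-- the form with index set `Fin r` -/
theorem sdet (W : ∀ i, M i) (C : ∀ i, Fin r → M i)
    (D : (Σ i : Fin r, Fin ((fun _ => 1 : Fin r → ℕ) i)) → Derivation ℂ L L) :
    SF (a := fun _ => 1) (fun i _ => W i) 1 (fun i c => C i.1 c.1) (fun _ => 1) D =
      (Matrix.of fun i j : Fin r => D ⟨i, (0 : Fin 1)⟩ (W j : L)).det *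
        (Matrix.of fun i c : Fin r => (C i c : L)).det := by
  classical
  unfold SF
  have h1 : ∏ i : Fin r, (((1 : M i) : M i) : L) = 1 := Finset.prod_eq_one fun i _ => rfl
  let eC : Cur (fun _ => 1 : Fin r → ℕ) ≃ Fin r := Equiv.subtypeUnivEquiv (fun _ => rfl)
  have hdet' : (Matrix.of fun i c : Cur (fun _ => 1 : Fin r → ℕ) => ((C i.1 c.1 : M i.1) : L)).det =
      (Matrix.of fun i c : Fin r => (C i c : L)).det := by
    rw [← Matrix.det_submatrix_equiv_self eC]
    rfl
  let eS : Fin r ≃ (Σ i : Fin r, Fin ((fun _ => 1 : Fin r → ℕ) i)) :=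
    { toFun := fun i => ⟨i, (0 : Fin 1)⟩
      invFun := fun p => p.1
      left_inv := fun i => rfl
      right_inv := fun p => by
        obtain ⟨i, q⟩ := p
        have h2 : q = (0 : Fin 1) := Subsingleton.elim (α := Fin 1) q 0
        rw [h2] }
  have hdet2 : (Matrix.of fun i j : (Σ i : Fin r, Fin ((fun _ => 1 : Fin r → ℕ) i)) =>
      D i (W j.1 : L)).det = (Matrix.of fun i j : Fin r => D ⟨i, (0 : Fin 1)⟩ (W j : L)).det := by
    rw [← Matrix.det_submatrix_equiv_self eS]
    rfl
  rw [pow_one, pow_one, hdet', hdet2, h1, mul_one]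

/-- **The values on logarithmic vector fields.** -/
theorem sdet_log [∀ i, IsFF ℂ (M i)] {w : Place ℂ L} {B : ∀ i, Finset (Place ℂ (M i))} {W : ∀ i, M i}
    {C : ∀ i, Fin r → M i} (hW : ∀ i, IsTranscendenceBasis ℂ (fun _ : Fin 1 => W i))
    (hC : ∀ i c, LG (M i) (B i) (W i) (C i c)) (D : Fin r → Derivation ℂ L L)
    (hD : ∀ j z, w.Reg (D j z / z)) :
    Ge w 0 ((Matrix.of fun i j : Fin r => D i (W j : L)).det *
      (Matrix.of fun i c : Fin r => (C i c : L)).det) := by
  classical
  have h1 : (Matrix.of fun i c : Fin r => (C i c : L)).det =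
      ∑ π : Equiv.Perm (Fin r), ((Equiv.Perm.sign π : ℤ) : L) * ∏ i, (C i (π i) : L) := by
    rw [← Matrix.det_transpose, Matrix.det_apply']
    rfl
  rw [h1, Finset.mul_sum]
  refine Ge.sum _ _ fun π _ => ?_
  have h2 : (Matrix.of fun i j : Fin r => D i (W j : L)).det *
      (((Equiv.Perm.sign π : ℤ) : L) * ∏ i, (C i (π i) : L)) =
      ((Equiv.Perm.sign π : ℤ) : L) *
        (Matrix.of fun i j : Fin r => D i (W j : L) * (C j (π j) : L)).det := by
    have h3 := Matrix.det_mul_row (fun j => (C j (π j) : L))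
      (Matrix.of fun i j : Fin r => D i (W j : L))
    have h4 : (Matrix.of fun i j : Fin r => D i (W j : L) * (C j (π j) : L)) =
        Matrix.of fun i j => (C j (π j) : L) * (Matrix.of fun i j : Fin r => D i (W j : L)) i j := by
      ext i j
      rw [Matrix.of_apply, Matrix.of_apply, Matrix.of_apply, mul_comm]
    rw [h4, h3]
    ring
  rw [h2]
  have h5 : Ge w 0 (Matrix.of fun i j : Fin r => D i (W j : L) * (C j (π j) : L)).det :=
    Pool.Agent.W619.PQ.ge_det w _ fun i j => (hC j (π j)).log (hW j) (D i) (hD i)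
  have h6 := ge_sign w (fun _ : Unit => Equiv.Perm.sign π)
  rw [Finset.prod_const, Finset.card_univ, Fintype.card_unit, pow_one] at h6
  simpa using h6.mul h5

/-- **Invariance.** -/
theorem sdet_inv {g : L ≃ₐ[ℂ] L} {s : Equiv.Perm (Fin r)} {W : ∀ i, M i} {C : ∀ i, Fin r → M i}
    (hgW : ∀ i, g (W i : L) = W (s i)) {δ : Fin r → L}
    (hgC : ∀ i c, g (C i c : L) = δ i * C (s i) c) (hδ : ∏ i, δ i = 1)
    (D : Fin r → Derivation ℂ L L) (hD : ∀ j z, g (D j z) = D j (g z)) :
    g ((Matrix.of fun i j : Fin r => D i (W j : L)).det *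
      (Matrix.of fun i c : Fin r => (C i c : L)).det) =
    (Matrix.of fun i j : Fin r => D i (W j : L)).det *
      (Matrix.of fun i c : Fin r => (C i c : L)).det := by
  classical
  have e1 : g (Matrix.of fun i j : Fin r => D i (W j : L)).det =
      ((Equiv.Perm.sign s : ℤ) : L) * (Matrix.of fun i j : Fin r => D i (W j : L)).det := by
    rw [AlgEquiv.map_det, ← Matrix.det_permute']
    congr 1
    ext i j
    change g (D i (W j : L)) = D i (W (s j) : L)
    rw [hD, hgW]
  have e2 : g (Matrix.of fun i c : Fin r => (C i c : L)).det =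
      ((Equiv.Perm.sign s : ℤ) : L) * (Matrix.of fun i c : Fin r => (C i c : L)).det := by
    rw [AlgEquiv.map_det]
    have h1 : g.mapMatrix (Matrix.of fun i c : Fin r => (C i c : L)) =
        Matrix.diagonal δ * ((Matrix.of fun i c : Fin r => (C i c : L)).submatrix s id) := by
      ext i c
      rw [Matrix.diagonal_mul]
      exact hgC i c
    rw [h1, Matrix.det_mul, Matrix.det_diagonal, hδ, one_mul, Matrix.det_permute]
  have e3 : ((Equiv.Perm.sign s : ℤ) : L) * ((Equiv.Perm.sign s : ℤ) : L) = 1 := by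
    rcases Int.units_eq_one_or (Equiv.Perm.sign s) with h | h <;> rw [h] <;> simp
  rw [map_mul, e1, e2]
  linear_combination ((Matrix.of fun i j : Fin r => D i (W j : L)).det *
      (Matrix.of fun i c : Fin r => (C i c : L)).det) * e3

end

end Pool.Agent.H908.UC
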