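import Pool.Graph.R_pool_sql_team_seeded_620a6dc7.Helper320.PCL.Rrl
import Pool.Agent.H908.SC2

/-! Existence of logarithmic differentials on a curve. -/

set_option autoImplicit false
set_option linter.overlappingInstances false
set_option linter.unusedSectionVars false
set_option linter.unusedVariables false

open Polynomial FF IsDedekindDomain IntermediateField

namespace Pool.Agent.H908.UC

open Pool.Agent.W603.LV Pool.Agent.W619.PQ Pool.Agent.W619.TW Pool.Agent.Helper320.PC
open Pool.Agent.Helper320.PCL Pool.Agent.Helper320.PCL.RRL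
open Pool.Agent.Helper11K9.PC (RR mem_RR alg_const)

section

variable {k F : Type} [Field k] [Field F] [Algebra k F] [CharZero k] [IsFF k F] [IsAlgClosed k]

theorem no_poles {b : F} (h : ∀ w : Place k F, Ge w 0 b) : ∃ c : k, algebraMap k F c = b := by
  classical
  by_cases hb : Transcendental k b
  · exfalso
    obtain ⟨S, hS, hS2⟩ := poles (k := k) (K := F) hb
    have hfin := IsFF.finite hb
    have h1 : 0 < Module.finrank k⟮b⟯ F := Module.finrank_pos
    have h2 : S = ∅ := by
      rw [Finset.eq_empty_iff_forall_notMem]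
      intro w hw
      have h3 := (hS w).1 hw
      rcases h w with h4 | h4
      · rw [h4, w.ord_zero] at h3
        omega
      · omega
    rw [h2, Finset.sum_empty] at hS2
    omega
  · exact alg_const (not_not.1 hb)

theorem log_core {x : F} {B : Finset (Place k F)} {P P0 : Place k F} (hPB : P ∈ B)
    (hP0 : P0 ∈ B) (hne : P0 ≠ P) (hBx : ∀ Q ∈ B, Q.ord x < 0)
    {D : Derivation k F F} (hD : D x = 1) :
    ∃ f : F, f ≠ 0 ∧ (∀ Q : Place k F, vo Q D - bt B Q ≤ Q.ord f) ∧ P.ord f = vo P D - 1 := by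
  classical
  have hPx := hBx P hPB
  have hD0 : D ≠ 0 := by
    rintro rfl
    simp at hD
  have hx : Transcendental k x := P.transcendental_of_ord_ne (by omega)
  have hx0 : x ≠ 0 := by
    rintro rfl
    exact hx isAlgebraic_zero
  have hfin := IsFF.finite hx
  have hsF : IsScalarTower k k⟮x⟯ F := inferInstance
  have hbtr : ∀ Q, 0 ≤ bt B Q ∧ bt B Q ≤ 1 := by
    intro Q
    unfold bt
    split_ifs <;> norm_num
  have hbt1 : ∀ Q ∈ B, bt B Q = 1 := by
    intro Q hQ
    unfold bt
    rw [if_pos hQ]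
  set Zi : Place k F → ℤ := fun Q => - bt B Q with hZi
  have hZ1 : ∀ w, -1 ≤ Zi w := by
    intro w
    have := hbtr w
    simp only [hZi]
    omega
  obtain ⟨y, hy0, hyP, hy2⟩ := exists_pole hx P 0
  have hnot : y ∉ BB (k := k) x ⊔ BT x Zi := by
    intro hy
    obtain ⟨b, hb, c, hc, hbc⟩ := Submodule.mem_sup.1 hy
    have e : b = y - c := by rw [← hbc]; ring
    have hcw : ∀ w : Place k F, w.ord x < 0 → Ge w (bt B w) c := by
      intro w hw
      have h1 := hc w hw
      have h2 : -Zi w = bt B w := by simp only [hZi, neg_neg]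
      rwa [h2] at h1
    have hreg : ∀ w : Place k F, Ge w 0 b := by
      intro w
      rcases lt_or_ge (w.ord x) 0 with hw | hw
      · rw [e]
        have h1 : Ge w 0 y := by
          by_cases hwP : w = P
          · rw [hwP]
            exact Or.inr hyP.ge
          · exact (hy2 w hw hwP).mono (by norm_num)
        exact h1.sub ((hcw w hw).mono (hbtr w).1)
      · exact hb w hw
    obtain ⟨m, hm⟩ := no_poles hreg
    have hP0x := hBx P0 hP0
    have h1 : Ge P0 1 b := by
      rw [e]
      have h2 := hcw P0 hP0x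
      rw [hbt1 P0 hP0] at h2
      exact (hy2 P0 hP0x hne).sub h2
    have hm0 : m = 0 := by
      by_contra hm0
      rw [← hm] at h1
      have h2 := h1.resolve_left ((_root_.map_ne_zero _).2 hm0)
      rw [P0.ord_const hm0] at h2
      omega
    have hb0 : b = 0 := by rw [← hm, hm0, map_zero]
    have hyc : y = c := by
      rw [hb0] at e
      exact (sub_eq_zero.1 e.symm)
    have h2 := hcw P hPx
    rw [hbt1 P hPB, ← hyc] at h2
    have h3 := h2.resolve_left hy0
    omega
  obtain ⟨lam, hlam, hle⟩ := Submodule.exists_le_ker_of_notMem hnot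
  have hB : ∀ z ∈ BB (k := k) x, lam z = 0 := fun z hz => hle (Submodule.mem_sup_left hz)
  have hTT : ∀ z ∈ BT (k := k) x Zi, lam z = 0 := fun z hz => hle (Submodule.mem_sup_right hz)
  have hI : ∀ z ∈ BV (k := k) x, lam z = 0 := fun z hz => hTT z (BV_le_BT x Zi hZ1 hz)
  have hlam0 : lam ≠ 0 := by
    rintro rfl
    exact hlam rfl
  obtain ⟨f, hf0, hf⟩ := exists_multV lam hI hx hB hlam0
  have hvo : ∀ Q : Place k F, Q.ord x < 0 → Q.ord x = 1 - vo Q D := by
    intro Q hQ
    have h := (ord_der Q hD0 (f := x) (by omega)).2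
    rw [hD, Q.ord_one] at h
    omega
  have hfs := finite_support (k := k) x
  have hmemZ : ∀ w : Place k F, w.ord x < 0 → w ∈ hfs.toFinset.filter fun w => w.ord x < 0 := by
    intro w hw
    rw [Finset.mem_filter, hfs.mem_toFinset]
    refine ⟨?_, hw⟩
    show w.ord x ≠ 0
    omega
  -- the order at all places
  have hall : ∀ Q : Place k F, vo Q D + Zi Q ≤ Q.ord f := by
    intro Q
    rcases lt_or_ge (Q.ord x) 0 with hQx | hQx
    swap
    · have h1 := mult_regularV hx D hD lam hI hB hf0 hf Q hQx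
      have h3 := hbtr Q
      simp only [hZi]
      omega
    by_contra hcon
    obtain ⟨e0, q, hq, hover⟩ := RRS.exists_under hx hQx
    obtain ⟨t, ht0, htQ, ht2⟩ := exists_pole hx Q (-Zi Q)
    have h3 := hvo Q hQx
    obtain ⟨b, hb1, hb2⟩ := exists_contra q Q e0 hq (hfs.toFinset.filter fun w => w.ord x < 0)
      (fun w e hw => hmemZ w (hover w e hw))
      (x * f * t) (mul_ne_zero (mul_ne_zero hx0 hf0) ht0) (by
        rw [Q.ord_mul (mul_ne_zero hx0 hf0) ht0, Q.ord_mul hx0 hf0]
        omega)
    apply hb2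
    have hbT : t * b ∈ BT (k := k) x Zi := by
      intro w hw
      have h4 : Ge w 0 b := hb1 w (hmemZ w hw)
      by_cases hwQ : w = Q
      · subst hwQ
        have h5 : Ge w (-Zi w) t := Or.inr htQ.ge
        exact (h5.mul h4).mono (by omega)
      · have h5 := (ht2 w hw hwQ).mul h4
        exact h5.mono (by have := hZ1 w; omega)
    have h5 : Algebra.trace k⟮x⟯ F (x * f * t * b) =
        (⟨x, mem_adjoin_simple_self k x⟩ : k⟮x⟯) * Algebra.trace k⟮x⟯ F (f * (t * b)) := by
      have e1 : x * f * t * b = x * (f * (t * b)) := by ring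
      rw [e1]
      exact trace_mul_left (⟨x, mem_adjoin_simple_self k x⟩ : k⟮x⟯) (f * (t * b))
    rw [h5]
    refine RRS.ge_of_coeff hx hQx _ hq fun j hj => ?_
    rw [hf (t * b), SV_coeff]
    exact hTT _ (zpow_mul_BT hbT (by omega))
  refine ⟨f, hf0, fun Q => ?_, ?_⟩
  · have := hall Q
    simp only [hZi] at this
    omega
  -- the order at `P`
  by_contra hcon
  have h1 : vo P D ≤ P.ord f := by
    have := hall P
    simp only [hZi, hbt1 P hPB] at this
    omega
  apply hlam
  obtain ⟨e0, q, hq, hover⟩ := RRS.exists_under hx hPx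
  have h2 : ∀ w : Place k F, w.ord x < 0 → Ge w 1 (x * f * y) := by
    intro w hw
    have h3 := hvo w hw
    have h4 : Ge w (1 - vo w D) x := Or.inr h3.ge
    by_cases hwP : w = P
    · subst hwP
      have h5 : Ge w (vo w D) f := Or.inr h1
      have h6 : Ge w 0 y := Or.inr hyP.ge
      refine ((h4.mul h5).mul h6).mono (by omega)
    · have h5 : Ge w (vo w D + Zi w) f := Or.inr (hall w)
      refine ((h4.mul h5).mul (hy2 w hw hwP)).mono (by have := hZ1 w; omega)
  obtain ⟨t, ht0, ht⟩ := q.surj
  set Z' := hfs.toFinset.filter fun w => w.ord x < 0 with hZ'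
  have h3 : Ge q 1 (Algebra.trace k⟮x⟯ F (x * f * y)) := by
    refine RRS.trace_ge q (x * f * y) (∑ w ∈ Z', (w.ord (algebraMap k⟮x⟯ F t)).natAbs) ?_ ?_
    · intro w e hw
      have h4 := hmemZ w (hover w e hw)
      have h5 := Finset.single_le_sum (f := fun w : Place k F => (w.ord (algebraMap k⟮x⟯ F t)).natAbs)
        (fun _ _ => Nat.zero_le _) h4
      refine le_trans ?_ h5
      change e ≤ (w.ord (algebraMap k⟮x⟯ F t)).natAbs
      rw [hw.2, ht]
      omega
    · intro w e hw
      exact h2 w (hover w e hw)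
  have h5 : Algebra.trace k⟮x⟯ F (x * f * y) =
      (⟨x, mem_adjoin_simple_self k x⟩ : k⟮x⟯) * Algebra.trace k⟮x⟯ F (f * y) := by
    rw [mul_assoc]
    exact trace_mul_left (⟨x, mem_adjoin_simple_self k x⟩ : k⟮x⟯) (f * y)
  rw [h5] at h3
  have h6 := RRS.coeff_of_ge hx hPx _ hq h3
  rw [hf y, SV_coeff, sub_self, zpow_zero, one_mul] at h6
  exact h6

/-- **Logarithmic differentials with two poles.** -/
theorem log_two {P P0 : Place k F} (hne : P0 ≠ P) {D : Derivation k F F} (hD : D ≠ 0) :
    ∃ f : F, f ≠ 0 ∧ (∀ Q : Place k F, Q ≠ P0 → Q ≠ P → vo Q D ≤ Q.ord f) ∧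
      vo P0 D - 1 ≤ P0.ord f ∧ P.ord f = vo P D - 1 := by
  classical
  obtain ⟨x, hxT⟩ := exists_poles_at ({P0, P} : Finset (Place k F))
  have hPx := hxT P (by simp)
  have hx : Transcendental k x := P.transcendental_of_ord_ne (by omega)
  have hDx := der_ne_zero hD hx
  obtain ⟨f, hf0, hf1, hf2⟩ := log_core (B := {P0, P}) (P := P) (P0 := P0) (by simp) (by simp) hne
    hxT (D := (D x)⁻¹ • D) (by simp [hDx])
  have hvo : ∀ Q : Place k F, vo Q ((D x)⁻¹ • D) = -Q.ord (D x) + vo Q D := fun Q => by
    rw [vo_smul Q hD (inv_ne_zero hDx), Q.ord_inv]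
  have hmul : ∀ Q : Place k F, Q.ord (f * D x) = Q.ord f + Q.ord (D x) := fun Q =>
    Q.ord_mul hf0 hDx
  refine ⟨f * D x, mul_ne_zero hf0 hDx, fun Q h1 h2 => ?_, ?_, ?_⟩
  · have h3 := hf1 Q
    have h4 : bt ({P0, P} : Finset (Place k F)) Q = 0 := by
      unfold bt
      rw [if_neg]
      simp [h1, h2]
    rw [hvo, h4] at h3
    rw [hmul]
    omega
  · have h3 := hf1 P0
    have h4 : bt ({P0, P} : Finset (Place k F)) P0 = 1 := by
      unfold bt
      rw [if_pos (by simp)]
    rw [hvo, h4] at h3
    rw [hmul]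
    omega
  · rw [hvo] at hf2
    rw [hmul]
    omega

/-- **Many independent logarithmic differentials.** -/
theorem exists_logs (B : Finset (Place k F)) {D : Derivation k F F} (hD : D ≠ 0) {N : ℕ}
    (hN : N ≤ Module.finrank k (RR D hD) + (B.card - 1)) :
    ∃ f : Fin N → F, (∀ n, IsLogD B D (f n)) ∧ LinearIndependent k f := by
  classical
  have hfinR : FiniteDimensional k (RR D hD) := FF.finDim_LL _
  obtain ⟨g, hg⟩ : ∃ g, g = Module.finrank k (RR D hD) := ⟨_, rfl⟩
  let bR := Module.finBasis k (RR D hD)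
  have hregR : ∀ (j : Fin (Module.finrank k (RR D hD))) (P : Place k F), Ge P (vo P D) (bR j : F) := by
    intro j P
    rcases (mem_RR.1 (bR j).2) with h | h
    · exact Or.inl h
    · exact Or.inr (h P)
  have hliR : LinearIndependent k (fun j => (bR j : F)) :=
    bR.linearIndependent.map' (RR D hD).subtype (LinearMap.ker_eq_bot.2 Subtype.val_injective)
  rcases B.eq_empty_or_nonempty with hB | ⟨P0, hP0⟩
  · subst hB
    rw [Finset.card_empty] at hN
    refine ⟨fun n => bR ⟨n, by omega⟩, fun n P => ?_, ?_⟩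
    · refine (hregR _ P).mono ?_
      have : bt (∅ : Finset (Place k F)) P = 0 := by
        unfold bt
        rw [if_neg (Finset.notMem_empty P)]
      omega
    · exact hliR.comp _ fun a b hab => by
        have := congrArg Fin.val hab
        exact Fin.ext this
  choose fl hfl0 hfl1 hfl2 hfl3 using fun P : {P // P ∈ B.erase P0} =>
    log_two (k := k) (P := P.1) (P0 := P0) (fun h => (Finset.mem_erase.1 P.2).1 h.symm) hD
  let fam : Fin (Module.finrank k (RR D hD)) ⊕ {P // P ∈ B.erase P0} → F :=
    Sum.elim (fun j => (bR j : F)) fl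
  have hfam : LinearIndependent k fam := by
    rw [Fintype.linearIndependent_iff]
    intro c hc
    rw [Fintype.sum_sum_type] at hc
    simp only [fam, Sum.elim_inl, Sum.elim_inr] at hc
    have h1 : ∀ P : {P // P ∈ B.erase P0}, c (Sum.inr P) = 0 := by
      intro P
      by_contra hcP
      have h2 : Ge P.1 (vo P.1 D) (c (Sum.inr P) • fl P) := by
        rw [← Finset.add_sum_erase _ _ (Finset.mem_univ P)] at hc
        have e : c (Sum.inr P) • fl P = -(∑ j, c (Sum.inl j) • (bR j : F) +
            ∑ Q ∈ Finset.univ.erase P, c (Sum.inr Q) • fl Q) := by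
          linear_combination hc
        rw [e]
        refine Ge.neg (Ge.add (Ge.sum _ _ fun j _ => ?_) (Ge.sum _ _ fun Q hQ => ?_))
        · rw [Algebra.smul_def]
          simpa using (Ge.const (P := P.1) (c (Sum.inl j))).mul (hregR j P.1)
        · rw [Algebra.smul_def]
          have hQP : Q ≠ P := Finset.ne_of_mem_erase hQ
          have h3 : Ge P.1 (vo P.1 D) (fl Q) := Or.inr (hfl1 Q P.1
            (Finset.mem_erase.1 P.2).1 (fun h => hQP (Subtype.ext h.symm)))
          simpa using (Ge.const (P := P.1) (c (Sum.inr Q))).mul h3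
      have hcE : algebraMap k F (c (Sum.inr P)) ≠ 0 := (_root_.map_ne_zero _).2 hcP
      rw [Algebra.smul_def] at h2
      have h3 := h2.resolve_left (mul_ne_zero hcE (hfl0 P))
      rw [P.1.ord_mul hcE (hfl0 P), P.1.ord_const hcP, hfl3] at h3
      omega
    have h2 : ∑ j, c (Sum.inl j) • (bR j : F) = 0 := by
      rw [← hc]
      have h3 : ∑ x, c (Sum.inr x) • fl x = 0 := Finset.sum_eq_zero fun P _ => by
        rw [h1 P, zero_smul]
      rw [h3, add_zero]
    have h3 := Fintype.linearIndependent_iff.1 hliR (fun j => c (Sum.inl j)) h2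
    rintro (j | P)
    · exact h3 j
    · exact h1 P
  have hcard : N ≤ Fintype.card (Fin (Module.finrank k (RR D hD)) ⊕ {P // P ∈ B.erase P0}) := by
    rw [Fintype.card_sum, Fintype.card_fin, Fintype.card_coe, Finset.card_erase_of_mem hP0]
    exact hN
  obtain ⟨emb⟩ := Function.Embedding.nonempty_of_card_le (α := Fin N)
    (β := Fin (Module.finrank k (RR D hD)) ⊕ {P // P ∈ B.erase P0}) (by rwa [Fintype.card_fin])
  refine ⟨fam ∘ emb, fun n Q => ?_, hfam.comp emb emb.injective⟩
  have hbtr : 0 ≤ bt B Q := by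
    unfold bt
    split_ifs <;> norm_num
  rcases hen : emb n with j | P
  · simp only [fam, Function.comp_apply, hen, Sum.elim_inl]
    exact (hregR j Q).mono (by omega)
  · simp only [fam, Function.comp_apply, hen, Sum.elim_inr]
    have hPB : P.1 ∈ B := Finset.mem_of_mem_erase P.2
    by_cases hQ0 : Q = P0
    · subst hQ0
      have : bt B Q = 1 := by unfold bt; rw [if_pos hP0]
      rw [this]
      exact Or.inr (hfl2 P)
    by_cases hQP : Q = P.1
    · subst hQP
      have : bt B P.1 = 1 := by unfold bt; rw [if_pos hPB]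
      rw [this]
      exact Or.inr (hfl3 P).ge
    · exact Or.inr ((by omega : vo Q D - bt B Q ≤ vo Q D).trans (hfl1 P Q hQ0 hQP))

end

end Pool.Agent.H908.UC
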