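import Pool.Agent.H908.UC2
import Pool.Agent.H908.UC3

/-! Logarithmic quadratic differentials on quotients of products of open curves. -/

set_option autoImplicit false
set_option linter.overlappingInstances false
set_option linter.unusedSectionVars false
set_option linter.unusedVariables false
set_option linter.style.haveILetI false

open FF IntermediateField Pool.Agent.W619.PQ Pool.Agent.W619.PL Pool.Agent.W619.TW
  Pool.Agent.W603.LV Pool.Agent.W619.Y Pool.Agent.W672.PG Pool.Agent.W824.PG Pool.Agent.Y174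
  Pool.Agent.K1H17.IS Pool.Agent.K1H6.PQ

namespace Pool.Agent.H908.UC

open Pool.Agent.H908.SB Pool.Agent.H908.TA
open Pool.Agent.Helper11K9.OD (regularForms)

/-- The logarithmic bigenus vanishes: there is no nonzero form of weight two, regular outside the
boundary and with logarithmic poles along the boundary. -/
def LogBigenusZero (K : Type) [Field K] [Algebra ℂ K] (n : ℕ) (Bd : Place ℂ K → Prop) : Prop :=
  ∀ ω : (Fin n → Derivation ℂ K K) → K, IsPluriForm ℂ K n 2 ω →
    (∀ v : Place ℂ K, IsDivisorial v n → ¬ Bd v → RegularAt v n ω) →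
    (∀ v : Place ℂ K, IsDivisorial v n → Bd v → LogRegularAt v n ω) → ∀ D, ω D = 0

/-- The boundary of a product of open curves. -/
def Bdy {L : Type} [Field L] [Algebra ℂ L] {r : ℕ} (M : Fin r → IntermediateField ℂ L)
    (B : ∀ i, Finset (Place ℂ (M i))) (Q : Place ℂ L) : Prop :=
  ∃ i, ∃ p ∈ B i, ∃ e : ℕ, Over Q p e

section

variable {L : Type} [Field L] [Algebra ℂ L]
variable {r : ℕ} {M : Fin r → IntermediateField ℂ L}
  {G : Subgroup (L ≃ₐ[ℂ] L)} {σ : G →* Equiv.Perm (Fin r)}

/-- The place below a place is unique. -/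
theorem under_unique {K : Type} [Field K] [Algebra ℂ K] {F : IntermediateField ℂ K}
    {w : Place ℂ K} {p q : Place ℂ F} {a b : ℕ} (h1 : Over w p a) (h2 : Over w q b) : p = q := by
  refine p.eq_of_le q fun f hf hf0 => ?_
  have h3 := h1.2 f
  rw [h2.2 f] at h3
  have ha : (0 : ℤ) < a := by exact_mod_cast h1.1
  have hb : (0 : ℤ) < b := by exact_mod_cast h2.1
  have h4 : (0 : ℤ) ≤ b * q.ord f := by rw [h3]; positivity
  by_contra hcon
  push Not at hcon
  have := mul_neg_of_pos_of_neg hb hcon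
  omega

/-- **A logarithmic form of weight two.** -/
theorem log_bigenus_form [Finite G] [∀ i, IsFF ℂ (M i)] (h : IsPermuted M (fun _ => 1) G σ) (W : ∀ i, M i)
    (C : ∀ i, Fin r → M i) (hW : ∀ i, IsTranscendenceBasis ℂ (fun _ : Fin 1 => W i))
    (B : ∀ i, Finset (Place ℂ (M i))) (hCr : ∀ i c, LG (M i) (B i) (W i) (C i c))
    (hgW : ∀ (g : G) i, (g : L ≃ₐ[ℂ] L) (W i : L) = W (σ g i))
    (hgC : ∀ (g : G) i, σ g i ∈ bl M (fun _ => 1) G i → ∃ ε : ℂ, (ε = 1 ∨ ε = -1) ∧
        ∀ c, (g : L ≃ₐ[ℂ] L) (C i c : L) = algebraMap ℂ L ε * C (σ g i) c)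
    (hdet : (Matrix.of fun i c : Fin r => (C i c : L)).det ≠ 0)
    (hinv : ∀ g : G, (g : L ≃ₐ[ℂ] L) ((Matrix.of fun i c => (C i c : L)).det ^ 2) =
        (Matrix.of fun i c => (C i c : L)).det ^ 2)
    (hage : ∀ g : G, g ≠ 1 → (∃ i j, TI M (fun _ => 1) (g : L ≃ₐ[ℂ] L) i j) ∨
      1 ≤ age M (fun _ => 1) (σ g) (fun _ _ => 0) (g : L ≃ₐ[ℂ] L))
    (Bd : Place ℂ (fixedField G) → Prop)
    (hBd : ∀ (v : Place ℂ (fixedField G)) (Q : Place ℂ L) (e : ℕ), Over Q v e →
      (Bd v ↔ Bdy M B Q)) :
    ¬ LogBigenusZero (fixedField G) (∑ i : Fin r, (fun _ => 1 : Fin r → ℕ) i) Bd := by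
  classical
  obtain ⟨n, hn⟩ : ∃ n, n = ∑ i : Fin r, (fun _ => 1 : Fin r → ℕ) i := ⟨_, rfl⟩
  rw [← hn]
  have hnL : Algebra.trdeg ℂ L = n := by rw [hn]; exact h.total
  obtain ⟨τ⟩ : Nonempty ((Σ i : Fin r, Fin ((fun _ => 1 : Fin r → ℕ) i)) ≃ Fin n) := by
    rw [hn]; exact ⟨finSigmaFinEquiv⟩
  let y : ∀ i : Fin r, Fin ((fun _ => 1 : Fin r → ℕ) i) → M i := fun i _ => W i
  have hy : ∀ i, IsTranscendenceBasis ℂ (y i) := hW
  let C' : ∀ i : Cur (fun _ => 1 : Fin r → ℕ), Cur (fun _ => 1 : Fin r → ℕ) → M i.1 :=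
    fun i c => C i.1 c.1
  let f : ∀ i : Fin r, M i := fun _ => 1
  let eC : Cur (fun _ => 1 : Fin r → ℕ) ≃ Fin r := Equiv.subtypeUnivEquiv (fun _ => rfl)
  have hdet' : (Matrix.of fun i c : Cur (fun _ => 1 : Fin r → ℕ) => (C' i c : L)).det =
      (Matrix.of fun i c : Fin r => (C i c : L)).det := by
    rw [← Matrix.det_submatrix_equiv_self eC]
    rfl
  -- coordinates
  have halg : Algebra.IsAlgebraic ↥(⨆ i, M i) L := by
    rw [h.sup]
    exact ⟨fun z => isAlgebraic_algebraMap (⟨z, trivial⟩ : (⊤ : IntermediateField ℂ L))⟩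
  have hbasis := basis_sigma (ι := fun i => Fin ((fun _ => 1 : Fin r → ℕ) i)) M halg h.total
    (fun i => (Fintype.card_fin _).trans rfl) y hy
  set Y : (Σ i : Fin r, Fin ((fun _ => 1 : Fin r → ℕ) i)) → L := fun p => (y p.1 p.2 : L) with hY
  have hbasis' : IsTranscendenceBasis ℂ (Y ∘ τ.symm) :=
    (isTranscendenceBasis_equiv (R := ℂ) (f := Y) τ.symm).2 hbasis
  obtain ⟨D0, hD0⟩ := Pool.Agent.W636.PG.exists_duals ℂ L n (Y ∘ τ.symm) hbasis'
  have hdet1 : (Matrix.of fun i j => D0 (τ i) (Y j)).det = 1 := by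
    have h1 : (Matrix.of fun i j => D0 (τ i) (Y j)) = 1 := by
      ext i j
      have h2 := hD0 (τ i) (τ j)
      rw [Function.comp_apply, τ.symm_apply_apply] at h2
      rw [Matrix.of_apply, Matrix.one_apply, h2]
      simp only [τ.injective.eq_iff]
    rw [h1, Matrix.det_one]
  have halgK := Pool.Agent.W721.PG.EFF2.alg_fixed G
  have hfin := fixed_finite G
  have hessL := h.essL
  obtain ⟨hnK, z, hz⟩ := Pool.Agent.W721.PG.EFF2.exists_basis (fixedField G) n hnL
  have hessK : Algebra.EssFiniteType ℂ (fixedField G) := ess_down hessL z hz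
  choose ext hext hext2 hext3 using Pool.Agent.Y174.pEXT ℂ (fixedField G) L n hnK
  -- the form
  let c0 : L := (Matrix.of fun i c : Cur (fun _ => 1 : Fin r → ℕ) => (C' i c : L)).det ^ 1 *
    ∏ i, (f i : L)
  have hc0 : c0 = (Matrix.of fun i c : Fin r => (C i c : L)).det := by
    simp only [c0, hdet', pow_one]
    have h1 : ∏ i : Fin r, ((f i : M i) : L) = 1 := Finset.prod_eq_one fun i _ => rfl
    rw [h1, mul_one]
  let s : (Fin n → Derivation ℂ L L) → L := fun D => SF y 1 C' f (fun i => D (τ i))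
  have hs : IsPluriForm ℂ L n 1 s := pluri_sigma τ Y 1 c0
  have hs0 : s D0 ≠ 0 := by
    change (Matrix.of fun i j => D0 (τ i) (Y j)).det ^ 1 * c0 ≠ 0
    rw [hdet1, one_pow, one_mul, hc0]
    exact hdet
  let S : (Fin n → Derivation ℂ (fixedField G) (fixedField G)) → L := fun D =>
    s (fun j => ext (D j))
  -- the invariance of the square
  have hSinv : ∀ D (g : G), (g : L ≃ₐ[ℂ] L) (S D ^ 2) = S D ^ 2 := by
    intro D g
    have e0 : S D = (Matrix.of fun i j => ext (D (τ i)) (Y j)).det * c0 := by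
      change (Matrix.of fun i j => ext (D (τ i)) (Y j)).det ^ 1 * c0 = _
      rw [pow_one]
    let ŝ : Equiv.Perm (Σ i : Fin r, Fin ((fun _ => 1 : Fin r → ℕ) i)) :=
      Equiv.sigmaCongrLeft (β := fun _ : Fin r => Fin 1) (σ g)
    have e1 : (g : L ≃ₐ[ℂ] L).mapMatrix (Matrix.of fun i j => ext (D (τ i)) (Y j)) =
        (Matrix.of fun i j => ext (D (τ i)) (Y j)).submatrix id ŝ := by
      ext i j
      change (g : L ≃ₐ[ℂ] L) (ext (D (τ i)) (Y j)) = ext (D (τ i)) (W (σ g j.1) : L)
      rw [hext3 (D (τ i)) (g : L ≃ₐ[ℂ] L) (fun f => f.2 g), ← hgW]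
    have e2 : (g : L ≃ₐ[ℂ] L) (Matrix.of fun i j => ext (D (τ i)) (Y j)).det =
        ((Equiv.Perm.sign ŝ : ℤ) : L) * (Matrix.of fun i j => ext (D (τ i)) (Y j)).det := by
      rw [AlgEquiv.map_det, e1, Matrix.det_permute']
    rw [e0, mul_pow, map_mul, map_pow, e2, hc0, hinv, mul_pow]
    have e3 : ((Equiv.Perm.sign ŝ : ℤ) : L) ^ 2 = 1 := by
      rcases Int.units_eq_one_or (Equiv.Perm.sign ŝ) with h1 | h1 <;> rw [h1] <;> simp
    rw [e3, one_mul]
  -- the estimate
  have hSdet : ∀ D, S D = (Matrix.of fun i j : Fin r => ext (D (τ ⟨i, (0 : Fin 1)⟩)) (W j : L)).det *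
      (Matrix.of fun i c : Fin r => (C i c : L)).det := fun D =>
    sdet W C (fun i => ext (D (τ i)))
  have hVreg : ∀ v : Place ℂ (fixedField G), IsDivisorial v n → ¬ Bd v → ∀ w e, Over w v e →
      (2 ≤ e → ∃ h ∈ G, h ≠ 1 ∧ orderOf h = e ∧ Inert w h) →
      ∀ (D : Fin n → Derivation ℂ (fixedField G) (fixedField G)), (∀ j, Pres v (D j)) →
      Ge w 0 (S D) := by
    intro v hv hvB w e hwv hin D hD
    subst hn
    have hw := divisorial_up hwv hv
    have hwB : ¬ Bdy M B w := fun h0 => hvB ((hBd v w e hwv).2 h0)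
    have hC' : ∀ (i : Cur (fun _ => 1 : Fin r → ℕ)) (c : Cur (fun _ => 1 : Fin r → ℕ)),
        RegW w (M i.1) (y i.1) 1 (C' i c) := fun i c =>
      (hCr i.1 c.1).regW (hW i.1) fun u c hu hB => hwB ⟨i.1, u, hB, c, hu⟩
    have hregs : ∀ D : Fin (∑ i : Fin r, (fun _ => 1 : Fin r → ℕ) i) → Derivation ℂ L L,
        (∀ j, Pres w (D j)) → GeR w ((0 : ℤ) : ℝ) (s D) := fun D hD =>
      Ge.toR (sf_regW h hw hy hC' (fun _ _ => rfl) (fun i hi => absurd rfl hi)
        (fun i => D (τ i)) (fun j => hD (τ j)))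
    rcases Nat.lt_or_ge e 2 with he | he
    · have he1 : e = 1 := by have := hwv.1; omega
      have h1 := ge_lift h.total hessL hnK hessK hwv hv s hs hregs D hD (fun j => ext (D j))
        (fun j f => hext _ f)
      have h2 : GeR w ((0 : ℤ) : ℝ) (s (fun j => ext (D j))) := by
        refine h1.mono ?_
        rw [he1]
        push_cast
        norm_num
      exact h2.toInt
    · obtain ⟨g, hgG, hg1, hord, hI⟩ := hin he
      rcases hage ⟨g, hgG⟩ (fun h0 => hg1 (congrArg Subtype.val h0)) with ⟨i, j, hij⟩ | h1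
      · have hord2 : orderOf g = 2 :=
          orderOf_eq_prime (by ext z; exact hij.2 z) hg1
        have he2 : e = 2 := by rw [← hord]; exact hord2
        subst he2
        have hσ : σ ⟨g, hgG⟩ i = j := sigma_eq h ⟨g, hgG⟩ le_rfl hij.1.2.2.2.1
        have hσ' : σ ⟨g, hgG⟩ j = i := sigma_eq h ⟨g, hgG⟩ le_rfl hij.1.2.2.2.2.1
        have hjbl : σ ⟨g, hgG⟩ i ∈ bl M (fun _ => 1) G i := by
          rw [hσ]
          exact Or.inr ⟨g, hgG, hij⟩
        obtain ⟨ε, hε, hε1⟩ := hgC ⟨g, hgG⟩ i hjbl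
        rw [hσ] at hε1
        have hε2 : (algebraMap ℂ L ε) * algebraMap ℂ L ε = 1 := by
          rw [← map_mul]
          rcases hε with h | h <;> rw [h] <;> norm_num
        have hgCj : ∀ c, g (C j c : L) = algebraMap ℂ L ε * C i c := by
          intro c
          have h1 := congrArg (fun z => algebraMap ℂ L ε * g z) (hε1 c)
          simp only [map_mul, AlgEquiv.commutes] at h1
          rw [← mul_assoc, hε2, one_mul] at h1
          have h2 : g (g (C i c : L)) = C i c := hij.2 _
          rw [h2] at h1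
          exact h1.symm
        have hσo : ∀ l, l ≠ i → l ≠ j → σ ⟨g, hgG⟩ l = l := by
          intro l hl1 hl2
          refine sigma_eq h ⟨g, hgG⟩ le_rfl fun z hz => ?_
          change g z ∈ M l
          rw [hij.1.2.2.2.2.2 l hl1 hl2 z hz]
          exact hz
        -- the order is at least `-1`
        have hη1 : GeR w ((-1 : ℤ) : ℝ) (s (fun j => ext (D j))) := by
          have h1 := ge_lift h.total hessL hnK hessK hwv hv s hs hregs D hD (fun j => ext (D j))
            (fun j f => hext _ f)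
          refine h1.mono ?_
          push_cast
          norm_num
        have hη2 : Ge w (-1) (S D) := hη1.toInt
        -- the invariance
        have hinvS : g (S D) = S D := by
          rw [hSdet]
          refine sdet_inv (s := σ ⟨g, hgG⟩) (fun l => hgW ⟨g, hgG⟩ l)
            (δ := fun l => if l = i ∨ l = j then algebraMap ℂ L ε else 1) (fun l c => ?_) ?_ _
            (fun l z => ?_)
          · by_cases hl1 : l = i
            · subst hl1
              rw [if_pos (Or.inl rfl), hσ]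
              exact hε1 c
            by_cases hl2 : l = j
            · subst hl2
              rw [if_pos (Or.inr rfl), hσ']
              exact hgCj c
            rw [if_neg (by tauto), hσo l hl1 hl2, one_mul]
            exact hij.1.2.2.2.2.2 l hl1 hl2 _ (C l c).2
          · rw [Fintype.prod_eq_mul i j hij.1.1 (fun l hl => by
              rw [if_neg (by tauto)]), if_pos (Or.inl rfl), if_pos (Or.inr rfl), hε2]
          · exact hext3 (D (τ ⟨l, (0 : Fin 1)⟩)) g (fun f => f.2 ⟨g, hgG⟩) z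
        by_cases h0 : S D = 0
        · exact Or.inl h0
        right
        have h1 := hη2.resolve_left h0
        have hfing : IsOfFinOrder g := by
          rw [← orderOf_pos_iff, hord2]
          exact two_pos
        have h2 := dvd_ord hI hfing h0 hinvS
        rw [hord2] at h2
        obtain ⟨c, hc⟩ := h2
        push_cast at hc
        omega
      · have hlog : LogGe (∑ i : Fin r, (fun _ => 1 : Fin r → ℕ) i) w s (((1 : ℕ) : ℝ) * e) := by
          intro D hD hl
          have h2 := sf_ramW (μ := 1) h hw ⟨g, hgG⟩ hI h1 hy hC' (fun _ _ => rfl)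
            (fun i hi => absurd rfl hi) (fun i => D (τ i)) (fun j => hD (τ j))
            (fun j => hl (τ j))
          change GeR w _ (SF y 1 C' f (fun i => D (τ i)))
          rw [← hord]
          exact h2
        have h2 := reg_of_log h.total hessL hw s hs hlog
        have h3 := ge_lift h.total hessL hnK hessK hwv hv s hs h2 D hD (fun j => ext (D j))
          (fun j f => hext _ f)
        have h4 : GeR w ((0 : ℤ) : ℝ) (s (fun j => ext (D j))) := by
          refine h3.mono ?_
          push_cast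
          apply le_of_eq
          ring
        exact h4.toInt
  -- the boundary
  have hVlog : ∀ (v : Place ℂ (fixedField G)) (w : Place ℂ L) (e : ℕ), Over w v e →
      ∀ (D : Fin n → Derivation ℂ (fixedField G) (fixedField G)),
      (∀ j f, v.Reg (D j f / f)) → Ge w 0 (S D) := by
    intro v w e hwv D hD
    rw [hSdet]
    refine sdet_log hW hCr _ fun j z => ?_
    refine Pool.Agent.W619.Y.LogP.main Pool.Agent.W762.PG.main ℂ (fixedField G) L v w e hwv
      (ext (D (τ ⟨j, (0 : Fin 1)⟩))) (fun x => ?_) z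
    rw [hext, ← map_div₀]
    exact hwv.reg.2 (hD _ x)
  -- the frame
  obtain ⟨E, hE⟩ := Pool.Agent.W636.PG.exists_duals ℂ (fixedField G) n z hz
  have hzL : IsTranscendenceBasis ℂ (algebraMap (fixedField G) L ∘ z) := hz.algebraMap_comp
  have hE' : ∀ i j, ext (E i) ((algebraMap (fixedField G) L ∘ z) j) = if i = j then 1 else 0 := by
    intro i j
    rw [Function.comp_apply, hext, hE]
    split_ifs <;> simp
  have hval := Pool.Agent.W636.PG.form_eq ℂ L n 1 _ hzL _ hE' s hs D0
  have hSE : S E ≠ 0 := by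
    intro h0
    apply hs0
    rw [hval]
    change _ * S E = 0
    rw [h0, mul_zero]
  -- the conclusion
  intro hcon
  apply hSE
  have hfinal := hcon (fun D => ⟨S D ^ 2, hSinv D⟩) ?_ ?_ ?_ E
  · have h1 : S E ^ 2 = 0 := congrArg (fun z : fixedField G => (z : L)) hfinal
    exact pow_eq_zero_iff two_ne_zero |>.1 h1
  · intro X D
    apply Subtype.ext
    have e1 : (fun j => ext (∑ l, X j l • D l)) = fun j => ∑ l,
        (X.map (algebraMap (fixedField G) L)) j l • ext (D l) := by
      funext j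
      symm
      apply hext2
      intro f
      rw [Pool.Agent.W721.PG.EFF2.der_sum, Pool.Agent.W721.PG.EFF2.der_sum, map_sum]
      refine Finset.sum_congr rfl fun l _ => ?_
      rw [hext, map_mul]
      rfl
    have e3 : (X.map (algebraMap (fixedField G) L)).det = algebraMap (fixedField G) L X.det := by
      rw [RingHom.map_det]
      rfl
    change S (fun i => ∑ j, X i j • D j) ^ 2 = algebraMap (fixedField G) L (X.det ^ 2) * S D ^ 2
    have e4 : S (fun i => ∑ j, X i j • D j) = algebraMap (fixedField G) L X.det * S D := by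
      change s (fun j => ext (∑ l, X j l • D l)) = _ * s (fun j => ext (D j))
      rw [e1, hs, e3, pow_one]
    rw [e4, mul_pow, map_pow]
  · intro v hv hvB D hD
    obtain ⟨w, e, I, hwv, hcard, hI⟩ := exists_inertia G v
    have h1 := hVreg v hv hvB w e hwv (fun he2 => by
      obtain ⟨h, hh, hord, -⟩ := exists_generator w I hI
      rw [hcard] at hord
      refine ⟨h, h.2, fun h1 => ?_, hord, hI h hh⟩
      rw [h1, orderOf_one] at hord
      omega) D hD
    exact (hwv.reg (f := (⟨S D ^ 2, hSinv D⟩ : fixedField G))).1 (ge_pow0 h1 _)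
  · intro v hv hvB D hD
    obtain ⟨w, e, I, hwv, hcard, hI⟩ := exists_inertia G v
    have h1 := hVlog v w e hwv D hD
    exact (hwv.reg (f := (⟨S D ^ 2, hSinv D⟩ : fixedField G))).1 (ge_pow0 h1 _)

end

end Pool.Agent.H908.UC
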