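import Pool.Agent.H908.UC4
import Pool.Agent.H908.UB5

/-! Involutions of open curves whose quotient is the line or the affine line. -/

set_option autoImplicit false
set_option linter.overlappingInstances false
set_option linter.unusedSectionVars false
set_option linter.unusedVariables false
set_option linter.style.haveILetI false

open FF IntermediateField Pool.Agent.W619.PQ Pool.Agent.W619.PL Pool.Agent.W619.TW
  Pool.Agent.W603.LV Pool.Agent.W619.Y Pool.Agent.W672.PG Pool.Agent.W824.PG Pool.Agent.Y174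
  Pool.Agent.K1H17.IS Pool.Agent.K1H6.PQ

namespace Pool.Agent.H908.UC

open Pool.Agent.H908.SB Pool.Agent.H908.TA
open Pool.Agent.Helper11K9.OD (regularForms)
open Pool.Agent.Helper320.PCL (IsLogD bt)

section

variable {K : Type} [Field K] [Algebra ℂ K] [IsFF ℂ K]

theorem ord_gen {τ : K} (hτ : ℂ⟮τ⟯ = ⊤) {q : Place ℂ K} {c : ℂ}
    (h : 0 < q.ord (τ - algebraMap ℂ K c)) : q.ord (τ - algebraMap ℂ K c) = 1 := by
  classical
  obtain ⟨u, hu⟩ : ∃ u, u = (τ - algebraMap ℂ K c)⁻¹ := ⟨_, rfl⟩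
  have hqu : q.ord u = -q.ord (τ - algebraMap ℂ K c) := by rw [hu, q.ord_inv]
  have hut : Transcendental ℂ u := q.transcendental_of_ord_ne (by omega)
  obtain ⟨S, hS, hsum⟩ := poles (k := ℂ) (K := K) hut
  have htop : ℂ⟮u⟯ = ⊤ := by
    rw [eq_top_iff, ← hτ, adjoin_simple_le_iff]
    have h1 : τ = u⁻¹ + algebraMap ℂ K c := by rw [hu, inv_inv]; ring
    rw [h1]
    exact add_mem (inv_mem (mem_adjoin_simple_self ℂ u)) ((ℂ⟮u⟯).algebraMap_mem c)
  have hone : Module.finrank ℂ⟮u⟯ K = 1 := by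
    rw [htop]
    exact IntermediateField.finrank_top
  rw [hone] at hsum
  have hq : q ∈ S := (hS q).2 (by omega)
  have h1 : (-q.ord u).toNat * q.deg ≤ ∑ w ∈ S, (-w.ord u).toNat * w.deg :=
    Finset.single_le_sum (f := fun w : Place ℂ K => (-w.ord u).toNat * w.deg)
    (fun _ _ => Nat.zero_le _) hq
  rw [hsum, Pool.Agent.W603.LV.deg_one, mul_one] at h1
  omega

end

section

variable {L : Type} [Field L] [Algebra ℂ L] {K : IntermediateField ℂ L} [IsFF ℂ K]

/-- Logarithmic forms change their sign under the involution. -/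
theorem log_sign {B : Finset (Place ℂ K)} {s : K ≃ₐ[ℂ] K} (hs2 : ∀ z, s (s z) = z) {t : K}
    (ht : ∀ z, s z = z ↔ z ∈ ℂ⟮t⟯) (hB : ∀ p ∈ B, p.ord t < 0) {f : K} {D : Derivation ℂ K K}
    (hD : D t = 1) (hf : IsLogD B D f) : s f = -f := by
  classical
  have htr1 : Algebra.trdeg ℂ K = 1 := IsFF.trdeg
  have htb := hyp_basis htr1 hs2 ht
  have htt : Transcendental ℂ t := htb.1.transcendental 0
  have hst : s t = t := (ht t).2 (mem_adjoin_simple_self ℂ t)
  have hD0 : D ≠ 0 := by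
    rintro rfl
    exact zero_ne_one hD
  have hcj : cj s D = D := by
    have h1 : cj s D t = 1 := by
      conv_lhs => rw [← hst]
      rw [cj_apply, hD, map_one]
    rw [der_eq htb hD (cj s D), h1, one_smul]
  have hDs : ∀ z, D (s z) = s (D z) := by
    intro z
    have := cj_apply s D z
    rwa [hcj] at this
  have hvo : ∀ P : Place ℂ K, vo (P.comp s) D = vo P D := by
    intro P
    have h1 : P.ord (s (unif (P.comp s))) = 1 := ord_unif (P.comp s)
    have h2 := (ord_der P hD0 (f := s (unif (P.comp s))) (by rw [h1]; norm_num)).2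
    rw [h1, hDs] at h2
    have h3 := (ord_der (P.comp s) hD0 (f := unif (P.comp s)) (by
      rw [ord_unif]; norm_num)).2
    rw [ord_unif] at h3
    have h4 : (P.comp s).ord (D (unif (P.comp s))) = P.ord (s (D (unif (P.comp s)))) := rfl
    rw [h4] at h3
    omega
  have hfA : ∀ P : Place ℂ K, (0 ≤ P.ord t → Ge P (vo P D) f) ∧ Ge P (vo P D - 1) f := by
    intro P
    have h1 := hf P
    refine ⟨fun h2 => ?_, h1.mono (by have := (bt_le B P).2; omega)⟩
    have h3 : bt B P = 0 := by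
      unfold bt
      rw [if_neg fun h => ?_]
      have := hB P h
      omega
    rwa [h3, sub_zero] at h1
  have hcomp : ∀ (P : Place ℂ K) (m : ℤ), Ge (P.comp s) m f → Ge P m (s f) := by
    intro P m h
    rcases h with h | h
    · left; rw [h, map_zero]
    · right; exact h
  have hsfA : ∀ P : Place ℂ K, (0 ≤ P.ord t → Ge P (vo P D) (s f)) ∧ Ge P (vo P D - 1) (s f) := by
    intro P
    have h1 := hfA (P.comp s)
    have h2 : (P.comp s).ord t = P.ord t := by
      change P.ord (s t) = P.ord t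
      rw [hst]
    rw [h2, hvo] at h1
    exact ⟨fun h => hcomp P _ (h1.1 h), hcomp P _ h1.2⟩
  obtain ⟨h, hh⟩ : ∃ h, h = f + s f := ⟨_, rfl⟩
  have hhA : ∀ P : Place ℂ K, (0 ≤ P.ord t → Ge P (vo P D) h) ∧ Ge P (vo P D - 1) h := by
    intro P
    rw [hh]
    exact ⟨fun h => ((hfA P).1 h).add ((hsfA P).1 h), (hfA P).2.add (hsfA P).2⟩
  have hhC : h ∈ ℂ⟮t⟯ := by
    rw [← ht, hh, map_add, hs2, add_comm]
  have hneg : ∀ P : Place ℂ K, P.ord t < 0 → Ge P 1 h := by
    intro P hP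
    have h1 := (ord_der P hD0 (f := t) (by omega)).2
    rw [hD, P.ord_one] at h1
    exact (hhA P).2.mono (by omega)
  have hess : Algebra.EssFiniteType ℂ ℂ⟮t⟯ := IntermediateField.essFiniteType_iff.2
    (IntermediateField.fg_adjoin_of_finite (Set.finite_singleton t))
  have hffC : IsFF ℂ ℂ⟮t⟯ := by
    refine ⟨hess, ?_⟩
    have h1 : IsTranscendenceBasis ℂ (fun _ : Unit => (⟨t, mem_adjoin_simple_self ℂ t⟩ : ℂ⟮t⟯)) := by
      have h2 : AlgebraicIndependent ℂ
          (fun _ : Unit => (⟨t, mem_adjoin_simple_self ℂ t⟩ : ℂ⟮t⟯)) := by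
        rw [algebraicIndependent_unique_type_iff]
        intro h3
        exact htt (h3.algebraMap (A := K))
      refine h2.isTranscendenceBasis_of_lift_trdeg_le_of_finite ?_
      have h3 : Algebra.trdeg ℂ ℂ⟮t⟯ ≤ Algebra.trdeg ℂ K :=
        trdeg_le_of_injective (ℂ⟮t⟯).val (ℂ⟮t⟯).val.injective
      rw [htr1] at h3
      simpa using h3
    have h2 := h1.lift_cardinalMk_eq_trdeg
    simpa using h2.symm
  have hgen : ℂ⟮(⟨t, mem_adjoin_simple_self ℂ t⟩ : ℂ⟮t⟯)⟯ = ⊤ := by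
    rw [eq_top_iff]
    rintro ⟨y, hy⟩ -
    have h1 : (ℂ⟮(⟨t, mem_adjoin_simple_self ℂ t⟩ : ℂ⟮t⟯)⟯).map (ℂ⟮t⟯).val = ℂ⟮t⟯ := by
      rw [IntermediateField.adjoin_map, Set.image_singleton]
      rfl
    have h2 : y ∈ (ℂ⟮(⟨t, mem_adjoin_simple_self ℂ t⟩ : ℂ⟮t⟯)⟯).map (ℂ⟮t⟯).val := by
      rw [h1]; exact hy
    obtain ⟨y', hy', hyy⟩ := h2
    have h3 : y' = ⟨y, hy⟩ := Subtype.ext hyy
    rwa [← h3]
  have hreg : ∀ P : Place ℂ K, Ge P 0 h := by
    intro P
    rcases lt_or_ge (P.ord t) 0 with hP | hP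
    · exact (hneg P hP).mono (by norm_num)
    by_cases hh0 : h = 0
    · exact Or.inl hh0
    right
    obtain ⟨c, hc⟩ := Pool.Agent.W603.LV.exists_const P (f := t) (Or.inr hP)
    have hc0 : t - algebraMap ℂ K c ≠ 0 := by
      intro h0
      apply htt
      rw [sub_eq_zero.1 h0]
      exact isAlgebraic_algebraMap c
    have hc1 := hc.resolve_left hc0
    have h1 := (ord_der P hD0 (f := t - algebraMap ℂ K c) (by omega)).2
    rw [map_sub, hD, Derivation.map_algebraMap, sub_zero, P.ord_one] at h1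
    obtain ⟨e, q, hq⟩ := FF.exists_over (K := ℂ⟮t⟯) P
      ⟨⟨t, mem_adjoin_simple_self ℂ t⟩ - algebraMap ℂ ℂ⟮t⟯ c, by
        change P.ord (t - algebraMap ℂ K c) ≠ 0
        omega⟩
    have he : (0 : ℤ) < e := by exact_mod_cast hq.1
    have h2 : P.ord (t - algebraMap ℂ K c) =
        e * q.ord ((⟨t, mem_adjoin_simple_self ℂ t⟩ : ℂ⟮t⟯) - algebraMap ℂ ℂ⟮t⟯ c) :=
      hq.2 ((⟨t, mem_adjoin_simple_self ℂ t⟩ : ℂ⟮t⟯) - algebraMap ℂ ℂ⟮t⟯ c)
    have h3 : 0 < q.ord ((⟨t, mem_adjoin_simple_self ℂ t⟩ : ℂ⟮t⟯) - algebraMap ℂ ℂ⟮t⟯ c) := by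
      by_contra hcon
      have : (e : ℤ) * q.ord ((⟨t, mem_adjoin_simple_self ℂ t⟩ : ℂ⟮t⟯) - algebraMap ℂ ℂ⟮t⟯ c) ≤ 0 :=
        mul_nonpos_of_nonneg_of_nonpos he.le (not_lt.1 hcon)
      omega
    rw [ord_gen hgen h3, mul_one] at h2
    have h4 : P.ord h = e * q.ord (⟨h, hhC⟩ : ℂ⟮t⟯) := hq.2 (⟨h, hhC⟩ : ℂ⟮t⟯)
    have h5 := ((hhA P).1 hP).resolve_left hh0
    rw [h4] at h5 ⊢
    by_contra hcon
    have h6 : q.ord (⟨h, hhC⟩ : ℂ⟮t⟯) ≤ -1 := by
      by_contra h7
      apply hcon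
      have : 0 ≤ q.ord (⟨h, hhC⟩ : ℂ⟮t⟯) := by omega
      positivity
    have h7 : (e : ℤ) * q.ord (⟨h, hhC⟩ : ℂ⟮t⟯) ≤ e * (-1) := mul_le_mul_of_nonneg_left h6 he.le
    omega
  obtain ⟨c, hc⟩ := no_poles hreg
  obtain ⟨S, hS, hsum⟩ := poles (k := ℂ) (K := K) htt
  have hfin := IsFF.finite htt
  have hpos : 0 < Module.finrank ℂ⟮t⟯ K := Module.finrank_pos
  obtain ⟨P, hP⟩ : S.Nonempty := by
    rw [Finset.nonempty_iff_ne_empty]
    rintro rfl
    rw [Finset.sum_empty] at hsum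
    omega
  have h1 := hneg P ((hS P).1 hP)
  have hc0 : c = 0 := by
    by_contra hc0
    rw [← hc] at h1
    have h2 := h1.resolve_left ((_root_.map_ne_zero _).2 hc0)
    rw [P.ord_const hc0] at h2
    omega
  have h0 : f + s f = 0 := by rw [← hh, ← hc, hc0, map_zero]
  exact (neg_eq_of_add_eq_zero_right h0).symm

/-- The involution `s` of the open curve has the line or the affine line as its quotient. -/
def IsHypL (B : Finset (Place ℂ K)) (s : K ≃ₐ[ℂ] K) : Prop :=
  (∀ z, s (s z) = z) ∧ ∃ t : K, (∀ z, s z = z ↔ z ∈ ℂ⟮t⟯) ∧ ∀ p ∈ B, p.ord t < 0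

theorem log_neg {B : Finset (Place ℂ K)} {s : K ≃ₐ[ℂ] K} (hs : IsHypL B s)
    {ω : Derivation ℂ K K →ₗ[K] K} (hω : ∀ D, D ≠ 0 → IsLogD B D (ω D))
    {δ δ' : Derivation ℂ K K} (hδ : ∀ z, δ' (s z) = s (δ z)) : s (ω δ) = -ω δ' := by
  obtain ⟨hs2, t, ht, hB⟩ := hs
  have hw := hyp_basis IsFF.trdeg hs2 ht
  obtain ⟨E, hE⟩ := exists_E hw
  have hE0 : E ≠ 0 := by
    rintro rfl
    exact zero_ne_one hE
  have h1 := log_sign hs2 ht hB hE (hω E hE0)
  have h2 : δ' t = s (δ t) := by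
    rw [← hδ, hyp_fix ht]
  rw [der_eq hw hE δ, der_eq hw hE δ', ω.map_smul, ω.map_smul, smul_eq_mul, smul_eq_mul, map_mul,
    h1, h2]
  ring

/-- The involution is unique. -/
theorem log_unique {B : Finset (Place ℂ K)} {s s' : K ≃ₐ[ℂ] K} (hs : IsHypL B s)
    (hs' : IsHypL B s') (hss : s * s' ≠ 1 → IsHypL B (s * s')) {D : Derivation ℂ K K}
    (hD : D ≠ 0) {f : K} (hf : IsLogD B D f) (hf0 : f ≠ 0) : s = s' := by
  by_contra hne
  have h1 : s * s' ≠ 1 := by
    intro h2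
    apply hne
    ext z
    have h3 : s (s' (s' z)) = s' z := by
      have h4 := congrArg (fun g : K ≃ₐ[ℂ] K => g (s' z)) h2
      exact h4
    rw [hs'.1] at h3
    exact congrArg _ h3
  obtain ⟨w, hw⟩ := IsFF.exists_transcendental (k := ℂ) (K := K)
  have hDw : D w ≠ 0 := der_ne_zero hD hw
  have hval : ∀ δ : Derivation ℂ K K, δ = (δ w / D w) • D := by
    intro δ
    obtain ⟨h, hh⟩ := der_smul (D' := δ) hD
    have h1 : δ w / D w = h := by
      rw [hh, Derivation.smul_apply, smul_eq_mul, mul_div_assoc, div_self hDw, mul_one]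
    rw [h1]
    exact hh
  let ω : Derivation ℂ K K →ₗ[K] K :=
    { toFun := fun δ => (f / D w) * δ w
      map_add' := fun a b => by rw [Derivation.add_apply]; ring
      map_smul' := fun c a => by
        rw [Derivation.smul_apply, smul_eq_mul, RingHom.id_apply, smul_eq_mul]; ring }
  have hωD : ω D = f := div_mul_cancel₀ _ hDw
  have hω : ∀ δ, δ ≠ 0 → IsLogD B δ (ω δ) := by
    intro δ hδ P
    have h2 : δ w / D w ≠ 0 := by
      intro h0
      apply hδ
      rw [hval δ, h0, zero_smul]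
    have h3 : vo P δ = P.ord (δ w / D w) + vo P D := by
      conv_lhs => rw [hval δ]
      exact vo_smul P hD h2
    have h4 : ω δ = (δ w / D w) * f := by
      change (f / D w) * δ w = _
      ring
    rw [h4, h3]
    have h5 : Ge P (P.ord (δ w / D w)) (δ w / D w) := Or.inr le_rfl
    exact (h5.mul (hf P)).mono (by omega)
  apply hf0
  rw [← hωD]
  have key : ∀ δ, ω δ = 0 := by
    intro δ
    let δ0 := cj (s * s').symm δ
    have e1 := log_neg hs' hω (δ := δ0) (δ' := cj s' δ0) (cj_apply s' δ0)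
    have e2 := log_neg hs hω (δ := cj s' δ0) (δ' := cj s (cj s' δ0))
      (cj_apply s (cj s' δ0))
    have e3 := log_neg (hss h1) hω (δ := δ0) (δ' := cj s (cj s' δ0)) (fun z => by
      change cj s (cj s' δ0) (s (s' z)) = s (s' (δ0 z))
      rw [cj_apply, cj_apply])
    have e4 : cj s (cj s' δ0) = δ := by
      refine Derivation.ext fun z => ?_
      obtain ⟨x, rfl⟩ := (s * s').surjective z
      change cj s (cj s' δ0) (s (s' x)) = _
      rw [cj_apply, cj_apply]
      have h5 : δ0 x = (s * s').symm (δ ((s * s') x)) := by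
        have h6 := cj_apply (s * s').symm δ ((s * s') x)
        rw [AlgEquiv.symm_apply_apply] at h6
        exact h6
      rw [h5]
      exact (s * s').apply_symm_apply _
    rw [e4] at e2 e3
    have e5 : (s * s') (ω δ0) = s (s' (ω δ0)) := rfl
    rw [e5, e1, map_neg, e2, neg_neg] at e3
    have e6 : (2 : K) * ω δ = 0 := by
      linear_combination e3
    haveI : CharZero K := charZero_of_injective_algebraMap (algebraMap ℂ K).injective
    rcases mul_eq_zero.1 e6 with h7 | h7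
    · exact absurd h7 two_ne_zero
    · exact h7
  exact key D

end

end Pool.Agent.H908.UC
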