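import Pool.Agent.H908.UC6
import Pool.Graph.R_pool_sql_team_seeded_620a6dc7.Helper320.PCL.Nps
import Pool.Graph.R_seed8.W314.PG.CONJ

/-! **The main theorem**: quotients of products of open curves by groups which permute the factors. -/

set_option autoImplicit false
set_option linter.overlappingInstances false
set_option linter.unusedSectionVars false
set_option linter.unusedVariables false
set_option linter.style.haveILetI false

open FF IntermediateField Pool.Agent.W619.PQ Pool.Agent.W619.PL Pool.Agent.W619.TW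
  Pool.Agent.W603.LV Pool.Agent.W619.Y Pool.Agent.W672.PG Pool.Agent.W824.PG Pool.Agent.Y174
  Pool.Agent.K1H17.IS Pool.Agent.K1H6.PQ

namespace Pool.Agent.H908.UC

open Pool.Agent.H908.SB Pool.Agent.H908.TA Pool.Agent.H908.UA
open Pool.Agent.Helper11K9.OD (regularForms)
open Pool.Agent.Helper11K9.PC (RR)
open Pool.Agent.Helper320.PCL (IsLogD bt)
open Pool.Agent.H908.UB (place_eq)

section

variable {L : Type} [Field L] [Algebra ℂ L]
variable {r : ℕ} {M : Fin r → IntermediateField ℂ L}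
  {G : Subgroup (L ≃ₐ[ℂ] L)} {σ : G →* Equiv.Perm (Fin r)}

/-- The stabilizers of the factors act on the open curves trivially or by an involution whose quotient
is the line or the affine line. -/
def StabL (M : Fin r → IntermediateField ℂ L) (B : ∀ i, Finset (Place ℂ (M i)))
    (G : Subgroup (L ≃ₐ[ℂ] L)) : Prop :=
  ∀ g ∈ G, ∀ i, (∀ z ∈ M i, g z ∈ M i) → (∀ z ∈ M i, g z = z) ∨
    ((∀ z ∈ M i, g (g z) = z) ∧ ∃ t : M i, (∀ z : M i, g (z : L) = z ↔ z ∈ ℂ⟮t⟯) ∧
      ∀ p ∈ B i, p.ord t < 0)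

theorem StabL.hyp {B : ∀ i, Finset (Place ℂ (M i))} (h : StabL M B G) : HypStab M G := by
  intro g hg i hgi
  rcases h g hg i hgi with h1 | ⟨h1, t, h2, -⟩
  · exact Or.inl h1
  · exact Or.inr ⟨h1, t, h2⟩

/-- Equivariant coordinates. -/
theorem exists_WL [∀ i, IsFF ℂ (M i)] (h : IsPermuted M (fun _ => 1) G σ)
    {B : ∀ i, Finset (Place ℂ (M i))} (hS : StabL M B G) (i : Fin r)
    {D0 : Derivation ℂ (M i) (M i)} (hD0 : D0 ≠ 0) {f0 : M i} (hf0 : IsLogD (B i) D0 f0)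
    (hf00 : f0 ≠ 0) :
    ∃ W : M i, IsTranscendenceBasis ℂ (fun _ : Fin 1 => W) ∧
      ∀ g ∈ G, (∀ z ∈ M i, g z ∈ M i) → g (W : L) = W ∧ ∃ ε : ℂ, (ε = 1 ∨ ε = -1) ∧
        ∀ f : M i, LG (M i) (B i) W f → g (f : L) = algebraMap ℂ L ε * f := by
  have htr : Algebra.trdeg ℂ (M i) = 1 := by rw [h.trdeg, Nat.cast_one]
  have hinv : ∀ g ∈ G, (∀ z ∈ M i, g z ∈ M i) → ∀ z ∈ M i, g⁻¹ z ∈ M i := by
    intro g hgG hgi z hz
    have h1 := sigma_eq h ⟨g, hgG⟩ (i := i) (j := i) le_rfl hgi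
    have h2 : σ (⟨g, hgG⟩ : G)⁻¹ i = i := by
      rw [map_inv, Equiv.Perm.inv_eq_iff_eq, h1]
    have h3 := h.perm (⟨g, hgG⟩ : G)⁻¹ i z hz
    rwa [h2] at h3
  have hhyp : ∀ g ∈ G, (∀ z ∈ M i, g z ∈ M i) → ∀ s : M i ≃ₐ[ℂ] M i,
      (∀ z : M i, (s z : L) = g (z : L)) → s ≠ 1 → IsHypL (B i) s := by
    intro g hgG hgi s hs hs1
    rcases hS g hgG i hgi with h2 | ⟨h2, t, h3, h4⟩
    · exact absurd (AlgEquiv.ext fun z => Subtype.ext (by rw [hs]; exact h2 z z.2)) hs1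
    · refine ⟨fun z => Subtype.ext ?_, t, fun z => ?_, h4⟩
      · rw [hs, hs]
        exact h2 z z.2
      · rw [← h3 z, ← hs z]
        exact ⟨fun h => congrArg Subtype.val h, fun h => Subtype.ext h⟩
  by_cases hex : ∃ g0 ∈ G, (∀ z ∈ M i, g0 z ∈ M i) ∧ ∃ z ∈ M i, g0 z ≠ z
  · obtain ⟨g0, hg0, hg0i, z0, hz0, hz0'⟩ := hex
    obtain ⟨s0, hs0⟩ := exists_res (M i) g0 hg0i (hinv g0 hg0 hg0i)
    have hs01 : s0 ≠ 1 := by
      intro h1
      apply hz0'
      have := hs0 ⟨z0, hz0⟩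
      rw [h1] at this
      exact this.symm
    have hh := hhyp g0 hg0 hg0i s0 hs0 hs01
    obtain ⟨hs2, t, ht, htB⟩ := hh
    have htb := hyp_basis htr hs2 ht
    obtain ⟨E, hE⟩ := exists_dual1 htb
    refine ⟨t, htb, fun g hgG hgi => ?_⟩
    obtain ⟨s, hs⟩ := exists_res (M i) g hgi (hinv g hgG hgi)
    by_cases hs1 : s = 1
    · have htriv : ∀ z : M i, g (z : L) = z := by
        intro z
        rw [← hs, hs1]; rfl
      exact ⟨htriv t, 1, Or.inl rfl, fun f _ => by rw [htriv, map_one, one_mul]⟩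
    · have h1 : s = s0 := by
        refine log_unique (B := B i) (hhyp g hgG hgi s hs hs1) (hhyp g0 hg0 hg0i s0 hs0 hs01)
          (fun hne => ?_) hD0 hf0 hf00
        refine hhyp (g * g0) (G.mul_mem hgG hg0) (fun z hz => hgi _ (hg0i z hz)) (s * s0)
          (fun z => ?_) hne
        change ((s (s0 z) : M i) : L) = g (g0 (z : L))
        rw [hs, hs0]
      refine ⟨by rw [← hs, h1, hyp_fix ht], -1, Or.inr rfl, fun f hf => ?_⟩
      rw [← hs, h1, log_sign hs2 ht htB hE (hf E hE), map_neg, map_one, neg_one_mul]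
      rfl
  · push Not at hex
    obtain ⟨x, hx⟩ := Pool.Agent.W636.PG.exists_basis ℂ (M i) 1 (by rw [htr, Nat.cast_one])
    have h1 : x = fun _ : Fin 1 => x 0 := by
      funext i; rw [Subsingleton.elim i 0]
    refine ⟨x 0, h1 ▸ hx, fun g hgG hgi => ?_⟩
    exact ⟨hex g hgG hgi _ (x 0).2, 1, Or.inl rfl, fun f _ => by
      rw [hex g hgG hgi _ f.2, map_one, one_mul]⟩

/-- Transport of logarithmic forms. -/
theorem LG.push {F F' : IntermediateField ℂ L} [IsFF ℂ F] [IsFF ℂ F'] (e : F ≃ₐ[ℂ] F')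
    {B : Finset (Place ℂ F)} {B' : Finset (Place ℂ F')} {W f : F} (h : LG F B W f)
    (hB : ∀ p : Place ℂ F', ∀ q ∈ B, (∀ z, q.ord z = p.ord (e z)) → p ∈ B') :
    LG F' B' (e W) (e f) := by
  intro D' hD' p
  have hD1 : (pushDer e.symm D') W = 1 := by
    change e.symm (D' (e W)) = 1
    rw [hD', map_one]
  have hD0 : pushDer e.symm D' ≠ 0 := by
    intro h0
    rw [h0] at hD1
    exact zero_ne_one hD1
  have hD0' : D' ≠ 0 := by
    rintro rfl
    exact zero_ne_one hD'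
  have h1 := h (pushDer e.symm D') hD1 (pullPlace e p)
  have hord : ∀ z, (pullPlace e p).ord z = p.ord (e z) := fun z => rfl
  have hvo : vo (pullPlace e p) (pushDer e.symm D') = vo p D' := by
    have h2 := (ord_der (pullPlace e p) hD0 (f := unif (pullPlace e p)) (by
      rw [ord_unif]; norm_num)).2
    have h3 : p.ord (e (unif (pullPlace e p))) = 1 := ord_unif (pullPlace e p)
    have h4 := (ord_der p hD0' (f := e (unif (pullPlace e p))) (by rw [h3]; norm_num)).2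
    rw [ord_unif] at h2
    rw [h3] at h4
    have h5 : (pullPlace e p).ord ((pushDer e.symm D') (unif (pullPlace e p))) =
        p.ord (D' (e (unif (pullPlace e p)))) := by
      change p.ord (e (e.symm (D' (e (unif (pullPlace e p)))))) = _
      rw [AlgEquiv.apply_symm_apply]
    rw [h5] at h2
    omega
  have hbt : bt B (pullPlace e p) ≤ bt B' p := by
    unfold bt
    by_cases h2 : pullPlace e p ∈ B
    · rw [if_pos h2, if_pos (hB p _ h2 fun z => rfl)]
    · rw [if_neg h2]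
      split_ifs <;> norm_num
  rw [hvo] at h1
  have h2 : Ge p (vo p D' - bt B (pullPlace e p)) (e f) := by
    rcases h1 with h1 | h1
    · left; rw [h1, map_zero]
    · right; exact h1
  exact h2.mono (by omega)

/-- **The main theorem.** -/
theorem main (M : Fin r → IntermediateField ℂ L)
    (hess : ∀ i, Algebra.EssFiniteType ℂ (M i)) (htr : ∀ i, Algebra.trdeg ℂ (M i) = 1)
    (hL : Algebra.trdeg ℂ L = r) (hsup : (⨆ i, M i) = ⊤) (B : ∀ i, Finset (Place ℂ (M i)))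
    (G : Subgroup (L ≃ₐ[ℂ] L)) [Finite G] (hperm : ∀ g ∈ G, ∀ i, ∃ j, ∀ z ∈ M i, g z ∈ M j)
    (hBG : StableB M B G) (hS : StabL M B G) (Bd : Place ℂ (fixedField G) → Prop)
    (hBd : ∀ v, Bd v ↔ ∃ (Q : Place ℂ L) (e : ℕ), Over Q v e ∧ Bdy M B Q) :
    [LogBigenusZero (fixedField G) r Bd,
      LogKodairaNeg ℂ (fixedField G) r Bd,
      ¬ IsPsef ℂ (fixedField G) r Bd,
      IsA1Uniruled ℂ (fixedField G) r Bd,
      (∃ g ∈ G, g ≠ 1 ∧ ∃ i, (∀ z ∈ M i, g z ∈ M i) ∧ ∀ l, l ≠ i → ∀ z ∈ M l, g z = z) ∨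
        ∃ i, Module.finrank ℂ (regularForms (M i)) + ((B i).card - 1) <
          (bl M (fun _ => 1) G i).ncard].TFAE := by
  classical
  haveI hff : ∀ i, IsFF ℂ (M i) := fun i => ⟨hess i, htr i⟩
  obtain ⟨σ, h⟩ := exists_sigmaG M hess htr hL hsup G hperm
  obtain ⟨n, hn⟩ : ∃ n : ℕ, n = ∑ i : Fin r, (fun _ => 1 : Fin r → ℕ) i := ⟨_, rfl⟩
  have hnr : n = r := by rw [hn]; simp
  obtain ⟨hnK, hessK⟩ := Pool.Agent.K1H97.PU.quot h
  have hnK' : Algebra.trdeg ℂ (fixedField G) = r := by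
    rw [hnK, ← hn, hnr]
  have hst := HypStab.hst h hS.hyp
  -- the boundary
  have hBd1 : ∀ (v : Place ℂ (fixedField G)) (Q : Place ℂ L) (e : ℕ), Over Q v e →
      (Bd v ↔ Bdy M B Q) := by
    intro v Q e hQ
    rw [hBd]
    refine ⟨?_, fun h1 => ⟨Q, e, hQ, h1⟩⟩
    rintro ⟨Q', e', hQ', l, p, hp, e5, hQp⟩
    obtain ⟨g, hg⟩ := Pool.Agent.W314.PG.CONJ.main ℂ L G v Q' Q e' e hQ' hQ
    have h1 : σ g (σ g⁻¹ l) = l := by
      rw [map_inv]
      exact (σ g).apply_symm_apply l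
    have hgM : ∀ z ∈ M (σ g⁻¹ l), (g : L ≃ₐ[ℂ] L) z ∈ M l := by
      intro z hz
      have h2 := h.perm g (σ g⁻¹ l) z hz
      rwa [h1] at h2
    obtain ⟨q, hq, hqe⟩ := hBG g g.2 (σ g⁻¹ l) l hgM p hp
    refine ⟨σ g⁻¹ l, q, hq, e5, hQp.1, fun z => ?_⟩
    change Q.ord (z : L) = e5 * q.ord z
    rw [hg, hqe z ⟨(g : L ≃ₐ[ℂ] L) z, hgM z z.2⟩ rfl]
    exact hQp.2 ⟨(g : L ≃ₐ[ℂ] L) z, hgM z z.2⟩
  have hBd2 : ∀ (v : Place ℂ (fixedField G)) (Q : Place ℂ L) (e : ℕ), Over Q v e → Bd v →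
      Bdy M B Q := fun v Q e h1 h2 => (hBd1 v Q e h1).1 h2
  have h54 : ((∃ g ∈ G, g ≠ 1 ∧ ∃ i, (∀ z ∈ M i, g z ∈ M i) ∧
      ∀ l, l ≠ i → ∀ z ∈ M l, g z = z) ∨
      ∃ i, Module.finrank ℂ (regularForms (M i)) + ((B i).card - 1) <
        (bl M (fun _ => 1) G i).ncard) →
      IsA1Uniruled ℂ (fixedField G) r Bd := by
    rintro (⟨g, hgG, hg1, i, hgi, hgo⟩ | ⟨i, hlt⟩)
    · rcases hS g hgG i hgi with h2 | ⟨h3, t, ht, htB⟩
      · exfalso
        apply hg1
        refine eq_one h fun l z hz => ?_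
        by_cases hl : l = i
        · subst hl; exact h2 z hz
        · exact hgo l hl z hz
      · obtain ⟨z, hz, hz'⟩ : ∃ z ∈ M i, g z ≠ z := by
          by_contra hcon
          push Not at hcon
          apply hg1
          refine eq_one h fun l z hz => ?_
          by_cases hl : l = i
          · subst hl; exact hcon z hz
          · exact hgo l hl z hz
        exact a1_refl h B hgG h3 hgo ⟨z, hz, hgi z hz, hz'⟩ t ht hgi htB Bd hBd2
    · exact a1_blk h B hBG hlt Bd hBd2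
  have h43 : IsA1Uniruled ℂ (fixedField G) r Bd → ¬ IsPsef ℂ (fixedField G) r Bd := by
    intro h1 h2
    exact Pool.Agent.Helper320.PCL.t_NPS hnK' Bd h1 ((Pool.Agent.R882.LT.psef_iff' r Bd).2 h2)
  have h32 : ¬ IsPsef ℂ (fixedField G) r Bd → LogKodairaNeg ℂ (fixedField G) r Bd := by
    intro h1 m hm ω hω hr hl D
    by_contra hD
    exact h1 (psef_of_eff ⟨m, hm, ω, ⟨hω, fun v hv hB D hD => dom_of_reg (hr v hv hB D hD),
      fun v hv hB D hD => dom_of_reg (hl v hv hB D hD)⟩, D, hD⟩)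
  have h21 : LogKodairaNeg ℂ (fixedField G) r Bd → LogBigenusZero (fixedField G) r Bd :=
    fun h1 ω hω hr hl D => h1 2 (by norm_num) ω hω hr hl D
  have h15 : LogBigenusZero (fixedField G) r Bd →
      ((∃ g ∈ G, g ≠ 1 ∧ ∃ i, (∀ z ∈ M i, g z ∈ M i) ∧ ∀ l, l ≠ i → ∀ z ∈ M l, g z = z) ∨
      ∃ i, Module.finrank ℂ (regularForms (M i)) + ((B i).card - 1) <
        (bl M (fun _ => 1) G i).ncard) := by
    intro h1
    by_contra hcon
    rw [not_or] at hcon
    obtain ⟨hc1, hc2⟩ := hcon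
    push Not at hc2
    have hb1 : ∀ i, 1 ≤ (bl M (fun _ => 1) G i).ncard := by
      intro i
      exact (Set.ncard_pos (Set.toFinite _)).2 ⟨i, Or.inl rfl⟩
    have hT2 : ∀ (g : G) i, ∀ z ∈ M (σ g i), (g : L ≃ₐ[ℂ] L).symm z ∈ M i := by
      intro g i z hz
      have h1 := h.perm g⁻¹ (σ g i) z hz
      have h2 : σ g⁻¹ (σ g i) = i := by
        rw [map_inv, Equiv.Perm.inv_eq_iff_eq]
      rw [h2] at h1
      exact h1
    obtain ⟨W, C, hW, hC, hgW, hgC, hdet, hinv⟩ := exists_equiv h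
      (fun i W => {f | LG (M i) (B i) W f}) (fun i W => LG.zero)
      (fun g i W f W' f' hf hW' hf' => by
        have h1 := LG.push (resEquiv (g : L ≃ₐ[ℂ] L) (h.perm g i) (hT2 g i)) hf
          (B' := B (σ g i)) (fun p q hq hqp => by
            obtain ⟨q', hq', hqe'⟩ := hBG (g⁻¹ : L ≃ₐ[ℂ] L) (G.inv_mem g.2) (σ g i) i
              (hT2 g i) q hq
            have h3 : p = q' := by
              refine place_eq (a := 1) (b := 1) one_pos one_pos fun z => ?_
              rw [one_mul, one_mul]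
              have h4 := hqe' z ⟨(g : L ≃ₐ[ℂ] L).symm z, hT2 g i z z.2⟩ rfl
              rw [h4, hqp]
              congr 1
              apply Subtype.ext
              change (z : L) = (g : L ≃ₐ[ℂ] L) ((g : L ≃ₐ[ℂ] L).symm z)
              rw [AlgEquiv.apply_symm_apply]
            rw [h3]
            exact hq')
        have h2 : W' = resEquiv (g : L ≃ₐ[ℂ] L) (h.perm g i) (hT2 g i) W := Subtype.ext hW'
        have h3 : f' = resEquiv (g : L ≃ₐ[ℂ] L) (h.perm g i) (hT2 g i) f := Subtype.ext hf'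
        rw [h2, h3]
        exact h1)
      (fun i => by
        obtain ⟨x, hx⟩ := Pool.Agent.W636.PG.exists_basis ℂ (M i) 1 (h.trdeg i)
        obtain ⟨E1, hE1⟩ := Pool.Agent.W636.PG.exists_duals ℂ (M i) 1 x hx
        have hE10 : E1 0 ≠ 0 := by
          intro h0
          have := hE1 0 0
          rw [h0, if_pos rfl] at this
          exact zero_ne_one this
        have hN1 : 1 ≤ Module.finrank ℂ (RR (E1 0) hE10) + ((B i).card - 1) :=
          ((hb1 i).trans (hc2 i)).trans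
            (Nat.add_le_add_right (Pool.Agent.Helper11K9.OD.forms_le hE10) _)
        obtain ⟨f1, hf1, hf1i⟩ := exists_logs (B i) hE10 hN1
        obtain ⟨W, hW, hW2⟩ := exists_WL h hS i hE10 (hf1 0) (hf1i.ne_zero 0)
        obtain ⟨E, hE⟩ := exists_dual1 hW
        have hE0 : E ≠ 0 := by
          rintro rfl
          exact zero_ne_one hE
        obtain ⟨F, hF1, hF2⟩ := exists_logs (B i) hE0 (N := (bl M (fun _ => 1) G i).ncard)
          ((hc2 i).trans (Nat.add_le_add_right (Pool.Agent.Helper11K9.OD.forms_le hE0) _))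
        refine ⟨W, hW, ⟨F, fun n D hD => ?_, hF2⟩, hW2⟩
        have h2 : D = E := by rw [der_eq hW hE D, hD, one_smul]
        rw [h2]
        exact hF1 n)
    have h2 := log_bigenus_form h W C hW B hC hgW hgC hdet hinv
      (fun g hg1 => age_cases' h hst g hg1 (by
        rintro ⟨i, hgi, hgo⟩
        exact hc1 ⟨g, g.2, fun h0 => hg1 (Subtype.ext h0), i, hgi, hgo⟩)) Bd hBd1
    rw [← hn, hnr] at h2
    exact h2 h1
  tfae_have 1 → 5 := h15
  tfae_have 5 → 4 := h54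
  tfae_have 4 → 3 := h43
  tfae_have 3 → 2 := h32
  tfae_have 2 → 1 := h21
  tfae_finish

end

end Pool.Agent.H908.UC
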