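import Pool.Agent.H908.UC7

/-! Products of general open curves: all groups which preserve the boundary. -/

set_option autoImplicit false
set_option linter.overlappingInstances false
set_option linter.unusedSectionVars false
set_option linter.unusedVariables false
set_option linter.style.haveILetI false

open FF IntermediateField Pool.Agent.W619.PQ Pool.Agent.W619.PL Pool.Agent.W619.TW
  Pool.Agent.W603.LV Pool.Agent.W619.Y Pool.Agent.W672.PG Pool.Agent.W824.PG Pool.Agent.Y174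
  Pool.Agent.K1H17.IS Pool.Agent.K1H6.PQ

namespace Pool.Agent.H908.UC

open Pool.Agent.H908.SB Pool.Agent.H908.TA Pool.Agent.H908.UA
open Pool.Agent.Helper11K9.OD (regularForms)
open Pool.Agent.Helper11K9.PC (RR)
open Pool.Agent.Helper320.PCL (IsLogD bt)

section

variable {L : Type} [Field L] [Algebra ℂ L]
variable {r : ℕ} {M : Fin r → IntermediateField ℂ L}
  {G : Subgroup (L ≃ₐ[ℂ] L)} {σ : G →* Equiv.Perm (Fin r)}

/-- The restriction of an element of the group to a factor, in the log setting. -/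
theorem restr_cases (h : IsPermuted M (fun _ => 1) G σ) (B : ∀ i, Finset (Place ℂ (M i)))
    (hA : ∀ i (s : M i ≃ₐ[ℂ] M i), s ≠ 1 →
      (∀ p ∈ B i, ∃ q ∈ B i, ∀ z, q.ord z = p.ord (s z)) →
      (∀ z, s (s z) = z) ∧ ∃ t : M i, (∀ z, s z = z ↔ z ∈ ℂ⟮t⟯) ∧ ∀ p ∈ B i, p.ord t < 0)
    (hBG : StableB M B G) (g : G) (i : Fin r) (hi : σ g i = i) :
    ∃ s : M i ≃ₐ[ℂ] M i, (∀ z : M i, (s z : L) = (g : L ≃ₐ[ℂ] L) (z : L)) ∧
      (s = 1 ∨ (s ≠ 1 ∧ IsHypL (B i) s)) := by
  have h1 : ∀ z ∈ M i, (g : L ≃ₐ[ℂ] L) z ∈ M i := by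
    intro z hz
    have := h.perm g i z hz
    rwa [hi] at this
  have h2 : ∀ z ∈ M i, (g : L ≃ₐ[ℂ] L)⁻¹ z ∈ M i := by
    intro z hz
    have := h.perm g⁻¹ i z hz
    have h3 : σ g⁻¹ i = i := by
      rw [map_inv, Equiv.Perm.inv_eq_iff_eq, hi]
    rwa [h3] at this
  obtain ⟨s, hs⟩ := exists_res (M i) g h1 h2
  refine ⟨s, hs, ?_⟩
  by_cases hs1 : s = 1
  · exact Or.inl hs1
  · refine Or.inr ⟨hs1, hA i s hs1 fun p hp => ?_⟩
    obtain ⟨q, hq, hqp⟩ := hBG g g.2 i i h1 p hp
    exact ⟨q, hq, fun z => hqp z (s z) (hs z)⟩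

/-- For general pairs all groups satisfy the conditions. -/
theorem general_pairs (M : Fin r → IntermediateField ℂ L)
    (hess : ∀ i, Algebra.EssFiniteType ℂ (M i)) (htr : ∀ i, Algebra.trdeg ℂ (M i) = 1)
    (hL : Algebra.trdeg ℂ L = r) (hsup : (⨆ i, M i) = ⊤)
    (hg : ∀ i, 2 ≤ Module.finrank ℂ (regularForms (M i))) (B : ∀ i, Finset (Place ℂ (M i)))
    (hA : ∀ i (s : M i ≃ₐ[ℂ] M i), s ≠ 1 →
      (∀ p ∈ B i, ∃ q ∈ B i, ∀ z, q.ord z = p.ord (s z)) →
      (∀ z, s (s z) = z) ∧ ∃ t : M i, (∀ z, s z = z ↔ z ∈ ℂ⟮t⟯) ∧ ∀ p ∈ B i, p.ord t < 0)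
    (G : Subgroup (L ≃ₐ[ℂ] L)) (hBG : StableB M B G) :
    Finite G ∧ (∀ g ∈ G, ∀ i, ∃ j, ∀ z ∈ M i, g z ∈ M j) ∧ StabL M B G := by
  classical
  haveI hff : ∀ i, IsFF ℂ (M i) := fun i => ⟨hess i, htr i⟩
  obtain ⟨σ, h⟩ := exists_sigma' M hess htr hL hsup hg G
  have hcase := restr_cases h B hA hBG
  refine ⟨?_, fun g hgG i => ⟨σ ⟨g, hgG⟩ i, h.perm ⟨g, hgG⟩ i⟩, fun g hgG i hgi => ?_⟩
  · have hker : Finite σ.ker := by
      let φ : σ.ker → (Fin r → Prop) := fun g i =>
        ∀ z ∈ M i, ((g : G) : L ≃ₐ[ℂ] L) z = z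
      have hφ : Function.Injective φ := by
        intro g g' hgg
        have hst : ∀ (g : σ.ker) i, σ (g : G) i = i := by
          intro g i
          rw [MonoidHom.mem_ker.1 g.2]; rfl
        have heq : ∀ i, ∀ z ∈ M i, ((g : G) : L ≃ₐ[ℂ] L) z = ((g' : G) : L ≃ₐ[ℂ] L) z := by
          intro i z hz
          have h1 : φ g i ↔ φ g' i := by rw [hgg]
          by_cases h2 : φ g i
          · rw [h2 z hz, h1.1 h2 z hz]
          · have h3 : ¬ φ g' i := fun h4 => h2 (h1.2 h4)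
            obtain ⟨s, hs, hs'⟩ := hcase (g : G) i (hst g i)
            obtain ⟨s', ht, ht'⟩ := hcase (g' : G) i (hst g' i)
            obtain ⟨s'', hu, hu'⟩ := hcase ((g * g' : σ.ker) : G) i (hst (g * g') i)
            have e1 : s ≠ 1 := fun h0 => h2 fun z hz => by
              have := hs ⟨z, hz⟩
              rw [h0] at this
              exact this.symm
            have e2 : s' ≠ 1 := fun h0 => h3 fun z hz => by
              have := ht ⟨z, hz⟩
              rw [h0] at this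
              exact this.symm
            have e3 : s * s' = s'' := by
              refine AlgEquiv.ext fun z => Subtype.ext ?_
              rw [hu]
              change ((s (s' z) : M i) : L) = _
              rw [hs, ht]
              rfl
            have toHyp : ∀ u : M i ≃ₐ[ℂ] M i, u ≠ 1 → (u = 1 ∨ (u ≠ 1 ∧ IsHypL (B i) u)) →
                IsHyp u := by
              intro u hu1 hu2
              rcases hu2 with hu2 | ⟨-, hu3, t, hu4, -⟩
              · exact absurd hu2 hu1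
              · exact ⟨hu1, hu3, t, hu4⟩
            have e4 := hyp_unique' (htr i) (le_trans one_le_two (hg i)) (toHyp s e1 hs')
              (toHyp s' e2 ht') (fun h0 => toHyp _ h0 (by rw [e3]; exact hu'))
            rw [← hs ⟨z, hz⟩, ← ht ⟨z, hz⟩, e4]
        have h4 : ((g : G) : L ≃ₐ[ℂ] L)⁻¹ * ((g' : G) : L ≃ₐ[ℂ] L) = 1 := by
          refine eq_one h fun i z hz => ?_
          change ((g : G) : L ≃ₐ[ℂ] L).symm (((g' : G) : L ≃ₐ[ℂ] L) z) = z
          rw [← heq i z hz, AlgEquiv.symm_apply_apply]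
        exact Subtype.ext (Subtype.ext (inv_mul_eq_one.1 h4))
      exact Finite.of_injective φ hφ
    exact σ.finite_iff_finite_ker_range.2 ⟨hker, inferInstance⟩
  · have h1 := sigma_eq h ⟨g, hgG⟩ (i := i) (j := i) le_rfl hgi
    obtain ⟨s, hs, hs1 | ⟨hs1, h2, t, h3, h4⟩⟩ := hcase ⟨g, hgG⟩ i h1
    · left
      intro z hz
      have := hs ⟨z, hz⟩
      rw [hs1] at this
      exact this.symm
    · right
      refine ⟨fun z hz => ?_, t, fun z => ?_, h4⟩
      · have h5 := congrArg Subtype.val (h2 ⟨z, hz⟩)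
        rw [hs, hs] at h5
        exact h5
      · rw [← h3 z]
        have h5 : (s z : L) = g (z : L) := hs z
        rw [← h5]
        exact ⟨fun h => Subtype.ext h, fun h => congrArg Subtype.val h⟩

end

end Pool.Agent.H908.UC
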