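import Pool.Agent.H908.VA2
import Pool.Agent.H908.UC7

/-! Equivariant logarithmic forms, with one more form for each curve. -/

set_option autoImplicit false
set_option linter.overlappingInstances false
set_option linter.unusedSectionVars false
set_option linter.unusedVariables false
set_option linter.style.haveILetI false

open FF IntermediateField Pool.Agent.W619.PQ Pool.Agent.W619.PL Pool.Agent.W619.TW
  Pool.Agent.W603.LV Pool.Agent.W619.Y Pool.Agent.W672.PG Pool.Agent.W824.PG Pool.Agent.Y174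
  Pool.Agent.K1H17.IS Pool.Agent.K1H6.PQ

namespace Pool.Agent.H908.VA

open Pool.Agent.H908.SB Pool.Agent.H908.TA Pool.Agent.H908.UC Pool.Agent.H908.UA
open Pool.Agent.Helper11K9.OD (regularForms)

section

variable {L : Type} [Field L] [Algebra ℂ L]
variable {r : ℕ} {M : Fin r → IntermediateField ℂ L}
  {G : Subgroup (L ≃ₐ[ℂ] L)} {σ : G →* Equiv.Perm (Fin r)}

/-- **Equivariant data**: forms on representatives of the orbits of the factors, and their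
images. -/
theorem exists_equivF [Finite G] (h : IsPermuted M (fun _ => 1) G σ) (N : Fin r → ℕ)
    (V : ∀ i, M i → Set (M i)) (hV0 : ∀ i W, 0 ∈ V i W)
    (hVt : ∀ (g : G) i (W f : M i) (W' f' : M (σ g i)), f ∈ V i W →
      (W' : L) = (g : L ≃ₐ[ℂ] L) W → (f' : L) = (g : L ≃ₐ[ℂ] L) f → f' ∈ V (σ g i) W')
    (hS : ∀ i, ∃ W : M i, IsTranscendenceBasis ℂ (fun _ : Fin 1 => W) ∧
      (∃ F : Fin (N i) → M i, (∀ n, F n ∈ V i W) ∧ LinearIndependent ℂ F) ∧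
      ∀ g ∈ G, (∀ z ∈ M i, g z ∈ M i) → g (W : L) = W ∧ ∃ ε : ℂ, (ε = 1 ∨ ε = -1) ∧
        ∀ f ∈ V i W, g (f : L) = algebraMap ℂ L ε * f) :
    ∃ (W : ∀ i, M i) (F : ∀ i, ℕ → M i) (rep : Fin r → Fin r) (φ : ∀ i, M (rep i) →ₐ[ℂ] L)
      (F0 : ∀ i, ℕ → M i),
      (∀ i, IsTranscendenceBasis ℂ (fun _ : Fin 1 => W i)) ∧
      (∀ i n, F i n ∈ V i (W i)) ∧
      (∀ (g : G) i, (g : L ≃ₐ[ℂ] L) (W i : L) = W (σ g i)) ∧
      (∀ (g : G) i, ∃ ε : ℂ, (ε = 1 ∨ ε = -1) ∧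
        ∀ n, (g : L ≃ₐ[ℂ] L) (F i n : L) = algebraMap ℂ L ε * F (σ g i) n) ∧
      (∀ (g : G) i, rep (σ g i) = rep i) ∧ (∀ i, ∃ g : G, σ g (rep i) = i) ∧
      (∀ i z, φ i z ∈ M i) ∧
      (∀ i n, (F i n : L) = φ i (F0 (rep i) n)) ∧
      ∀ i, LinearIndependent ℂ (fun n : Fin (N i) => F0 i n) := by
  classical
  obtain ⟨rep, t, ht, hrep⟩ := exists_orb σ
  -- the isomorphisms
  have hT1 : ∀ i, ∀ z ∈ M (rep i), (t i : L ≃ₐ[ℂ] L) z ∈ M i := by
    intro i z hz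
    have h1 := h.perm (t i) (rep i) z hz
    rwa [ht] at h1
  have hT2 : ∀ i, ∀ z ∈ M i, (t i : L ≃ₐ[ℂ] L).symm z ∈ M (rep i) := by
    intro i z hz
    have h1 := h.perm (t i)⁻¹ i z hz
    have h2 : σ (t i)⁻¹ i = rep i := by
      rw [map_inv, Equiv.Perm.inv_eq_iff_eq, ht]
    rw [h2] at h1
    exact h1
  let T : ∀ i, M (rep i) ≃ₐ[ℂ] M i := fun i => resEquiv (t i : L ≃ₐ[ℂ] L) (hT1 i) (hT2 i)
  have hTc : ∀ i (z : M (rep i)), (T i z : L) = (t i : L ≃ₐ[ℂ] L) (z : L) := fun i z => rfl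
  choose W0 hW0 hF0 hW0s using hS
  choose F0 hF0V hF0i using hF0
  let F : ∀ i, ℕ → M i := fun i n => if hn : n < N i then F0 i ⟨n, hn⟩ else 0
  have hFV : ∀ i n, F i n ∈ V i (W0 i) := by
    intro i n
    simp only [F]
    split_ifs with hn
    · exact hF0V _ _
    · exact hV0 _ _
  -- the data
  let W : ∀ i, M i := fun i => T i (W0 (rep i))
  have hTV : ∀ i (f : M (rep i)), f ∈ V (rep i) (W0 (rep i)) → T i f ∈ V i (W i) := by
    intro i f hf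
    have key : ∀ j (hj : σ (t i) (rep i) = j) (W' f' : M j), (W' : L) = (t i : L ≃ₐ[ℂ] L)
        (W0 (rep i)) → (f' : L) = (t i : L ≃ₐ[ℂ] L) f → f' ∈ V j W' := by
      rintro j rfl W' f' h1 h2
      exact hVt (t i) (rep i) _ _ _ _ hf h1 h2
    exact key i (ht i) (W i) (T i f) rfl rfl
  -- the relative twist
  have htw : ∀ (g : G) i, ∃ s ∈ G, (∀ z ∈ M (rep i), s z ∈ M (rep i)) ∧
      ∀ z, (g : L ≃ₐ[ℂ] L) ((t i : L ≃ₐ[ℂ] L) z) = (t (σ g i) : L ≃ₐ[ℂ] L) (s z) := by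
    intro g i
    refine ⟨((t (σ g i))⁻¹ * g * t i : G), SetLike.coe_mem _, fun z hz => ?_, fun z => ?_⟩
    · have h1 := h.perm ((t (σ g i))⁻¹ * g * t i) (rep i) z hz
      have h2 : σ ((t (σ g i))⁻¹ * g * t i) (rep i) = rep i := by
        rw [map_mul, map_mul, Equiv.Perm.mul_apply, Equiv.Perm.mul_apply, ht, map_inv,
          Equiv.Perm.inv_eq_iff_eq]
        have h3 := ht (σ g i)
        rw [hrep] at h3
        exact h3.symm
      rwa [h2] at h1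
    · change _ = (t (σ g i) : L ≃ₐ[ℂ] L) ((t (σ g i) : L ≃ₐ[ℂ] L).symm
        ((g : L ≃ₐ[ℂ] L) ((t i : L ≃ₐ[ℂ] L) z)))
      rw [AlgEquiv.apply_symm_apply]
  have hWrep : ∀ (g : G) i, ((W0 (rep (σ g i)) : M (rep (σ g i))) : L) = W0 (rep i) := by
    intro g i
    rw [hrep]
  have hFrep : ∀ (g : G) i n, ((F (rep (σ g i)) n : M (rep (σ g i))) : L) = F (rep i) n := by
    intro g i n
    rw [hrep]
  refine ⟨W, fun i n => T i (F (rep i) n), rep,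
    fun i => ((t i : L ≃ₐ[ℂ] L) : L →ₐ[ℂ] L).comp (M (rep i)).val, F,
    fun i => (T i).isTranscendenceBasis (hW0 (rep i)), fun i n => hTV i _ (hFV _ _),
    fun g i => ?_, fun g i => ?_, hrep, fun i => ⟨t i, ht i⟩, fun i z => hT1 i z z.2,
    fun i n => rfl, fun i => ?_⟩
  · obtain ⟨s, hsG, hsM, hs⟩ := htw g i
    obtain ⟨h1, -⟩ := hW0s (rep i) s hsG hsM
    change (g : L ≃ₐ[ℂ] L) ((t i : L ≃ₐ[ℂ] L) (W0 (rep i))) =
        (t (σ g i) : L ≃ₐ[ℂ] L) (W0 (rep (σ g i)))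
    rw [hs, h1, hWrep]
  · obtain ⟨s, hsG, hsM, hs⟩ := htw g i
    obtain ⟨h1, ε, hε, h2⟩ := hW0s (rep i) s hsG hsM
    refine ⟨ε, hε, fun n => ?_⟩
    change (g : L ≃ₐ[ℂ] L) ((t i : L ≃ₐ[ℂ] L) (F (rep i) n)) =
        algebraMap ℂ L ε * (t (σ g i) : L ≃ₐ[ℂ] L) (F (rep (σ g i)) n)
    rw [hs, h2 _ (hFV _ _), map_mul, AlgEquiv.commutes, hFrep]
  · have h1 : (fun n : Fin (N i) => F i n) = F0 i := by
      funext n
      simp only [F]
      rw [dif_pos n.2]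
    rw [h1]
    exact hF0i i

end

end Pool.Agent.H908.VA
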