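import Pool.Agent.H908.VA3
import Pool.Agent.H908.SD2

/-! Algebraically independent ratios of antisymmetric logarithmic forms. -/

set_option autoImplicit false
set_option linter.overlappingInstances false
set_option linter.unusedSectionVars false
set_option linter.unusedVariables false
set_option linter.style.haveILetI false

open FF IntermediateField Pool.Agent.W619.PQ Pool.Agent.W619.PL Pool.Agent.W619.TW
  Pool.Agent.W603.LV Pool.Agent.W619.Y Pool.Agent.W672.PG Pool.Agent.W824.PG Pool.Agent.Y174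
  Pool.Agent.K1H17.IS Pool.Agent.K1H6.PQ

namespace Pool.Agent.H908.VA

open Pool.Agent.H908.SB Pool.Agent.H908.TA Pool.Agent.H908.UC Pool.Agent.H908.UA
open Pool.Agent.Helper11K9.OD (regularForms)

section

variable {L : Type} [Field L] [Algebra ℂ L]
variable {r : ℕ} {M : Fin r → IntermediateField ℂ L}
  {G : Subgroup (L ≃ₐ[ℂ] L)} {σ : G →* Equiv.Perm (Fin r)}

open Classical in
/-- the matrix with the columns `F i (ι c)` -/
noncomputable def Ci (ρ : Fin r → Fin r) (F : ∀ i, ℕ → M i) (ι : Fin r → ℕ) (i c : Fin r) : M i :=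
  if ρ c = ρ i then F i (ι c) else 0

/-- The determinants. -/
theorem det_blocks [Finite G] (h : IsPermuted M (fun _ => 1) G σ) {ρ : Fin r → Fin r}
    (hblk : ∀ i j, ρ i = ρ j ↔ (i = j ∨ ∃ g ∈ G, TI M (fun _ => 1) g i j))
    {F : ∀ i, ℕ → M i} {rep : Fin r → Fin r} {φ : ∀ i, M (rep i) →ₐ[ℂ] L} {F0 : ∀ i, ℕ → M i}
    (hrep : ∀ (g : G) i, rep (σ g i) = rep i) (hφ : ∀ i z, φ i z ∈ M i)
    (hFφ : ∀ i n, (F i n : L) = φ i (F0 (rep i) n)) {N : Fin r → ℕ}
    (hind : ∀ i, LinearIndependent ℂ (fun n : Fin (N i) => F0 i n)) {ι : Fin r → ℕ}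
    (hι : ∀ i j, ρ i = ρ j → ι i = ι j → i = j) (hιN : ∀ i, ι i < N (rep i)) :
    (Matrix.of fun i c : Fin r => (Ci ρ F ι i c : L)).det ≠ 0 := by
  classical
  have htri : (Matrix.of fun i c : Fin r => (Ci ρ F ι i c : L)).BlockTriangular ρ := by
    intro i c hlt
    rw [Matrix.of_apply]
    simp only [Ci, if_neg (ne_of_lt hlt)]
    rfl
  rw [htri.det_fintype]
  refine Finset.prod_ne_zero_iff.2 fun b _ => ?_
  let S : Type := {i : Fin r // ρ i = b}
  rcases isEmpty_or_nonempty S with hS | ⟨⟨s0, hs0⟩⟩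
  · rw [Matrix.det_isEmpty]
    exact one_ne_zero
  -- all representatives agree on a block
  have hrepS : ∀ s : S, rep s.1 = rep s0 := by
    intro s
    have h1 : ρ s.1 = ρ s0 := s.2.trans hs0.symm
    rcases (hblk _ _).1 h1 with h2 | ⟨g, hg, h2⟩
    · rw [h2]
    · have h3 : σ ⟨g, hg⟩ s.1 = s0 := sigma_eq h ⟨g, hg⟩ le_rfl h2.1.2.2.2.1
      rw [← h3, hrep]
  obtain ⟨m, hm⟩ : ∃ m, m = rep s0 := ⟨_, rfl⟩
  have hrepm : ∀ s : S, rep s.1 = m := fun s => (hrepS s).trans hm.symm
  have hex : ∀ s : S, ∃ ψ : M m →ₐ[ℂ] L, (∀ x, ψ x ∈ M s.1) ∧ ∀ n, (F s.1 n : L) = ψ (F0 m n) := by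
    intro s
    have h1 := hrepm s
    have key : ∀ m', rep s.1 = m' → ∃ ψ : M m' →ₐ[ℂ] L, (∀ x, ψ x ∈ M s.1) ∧
        ∀ n, (F s.1 n : L) = ψ (F0 m' n) := by
      rintro m' rfl
      exact ⟨φ s.1, hφ s.1, hFφ s.1⟩
    exact key m h1
  choose ψ hψ hFψ using hex
  have hlt : ∀ s : S, ι s.1 < N m := by
    intro s
    have := hιN s.1
    rwa [hrepm s] at this
  have h1 := det_ne' ψ (fun s => oth M s.1) (fun i j hij x => le_oth M (fun h0 => hij
    (Subtype.ext h0)) (hψ j x)) (fun s p β hβ => by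
      have h2 := ld_oth h.trdeg h.total h.sup s.1 (fun c => (⟨ψ s (β c), hψ s _⟩ : M s.1))
        (by
          let ψ' : M m →ₐ[ℂ] M s.1 := (ψ s).codRestrict (M s.1).toSubalgebra (hψ s)
          have h3 := hβ.map' ψ'.toLinearMap (LinearMap.ker_eq_bot.2 ψ'.injective)
          exact h3)
      exact h2) (fun s => F0 m (ι s.1)) (by
      have h2 : (fun s : S => F0 m (ι s.1)) = (fun n : Fin (N m) => F0 m n) ∘
          fun s : S => ⟨ι s.1, hlt s⟩ := rfl
      rw [h2]
      exact (hind m).comp _ fun s s' hss => Subtype.ext (hι _ _ (s.2.trans s'.2.symm)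
        (congrArg Fin.val hss)))
  have h2 : (Matrix.of fun i c : Fin r => (Ci ρ F ι i c : L)).toSquareBlock ρ b =
      Matrix.of fun (i : S) (j : S) => ψ i (F0 m (ι j.1)) := by
    ext i j
    change ((Ci ρ F ι i.1 j.1 : M i.1) : L) = ψ i (F0 m (ι j.1))
    have h3 : Ci ρ F ι i.1 j.1 = F i.1 (ι j.1) := by
      simp only [Ci]
      rw [if_pos (j.2.trans i.2.symm)]
    rw [h3, hFψ]
  rw [h2]
  exact h1

open Classical in
/-- **Algebraically independent ratios.** -/
theorem kod_core {G' : Subgroup (L ≃ₐ[ℂ] L)} {σ' : G' →* Equiv.Perm (Fin r)} [Finite G]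
    [Finite G'] [∀ i, IsFF ℂ (M i)] (h : IsPermuted M (fun _ => 1) G σ)
    (h' : IsPermuted M (fun _ => 1) G' σ')
    (hT : ∀ g ∈ G', ∀ i j, TI M (fun _ => 1) g i j → g ∈ G)
    (W : ∀ i, M i) (F : ∀ i, ℕ → M i) (rep : Fin r → Fin r) (φ : ∀ i, M (rep i) →ₐ[ℂ] L)
    (F0 : ∀ i, ℕ → M i) (B : ∀ i, Finset (Place ℂ (M i))) (P : Fin r → Prop)
    (hPσ : ∀ (g : G) i, P i → P (σ g i))
    (hW : ∀ i, IsTranscendenceBasis ℂ (fun _ : Fin 1 => W i))
    (hF : ∀ i n, LG (M i) (B i) (W i) (F i n))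
    (hgW : ∀ (g : G) i, (g : L ≃ₐ[ℂ] L) (W i : L) = W (σ g i))
    (hgF : ∀ (g : G) i, ∃ ε : ℂ, (ε = 1 ∨ ε = -1) ∧
        ∀ n, (g : L ≃ₐ[ℂ] L) (F i n : L) = algebraMap ℂ L ε * F (σ g i) n)
    (hrep : ∀ (g : G) i, rep (σ g i) = rep i) (hrep2 : ∀ i, ∃ g : G, σ g (rep i) = i)
    (hφ : ∀ i z, φ i z ∈ M i) (hFφ : ∀ i n, (F i n : L) = φ i (F0 (rep i) n))
    (hind : ∀ i, LinearIndependent ℂ (fun n : Fin (if P i then
      (bl M (fun _ => 1) G i).ncard + 1 else (bl M (fun _ => 1) G i).ncard) => F0 i n))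
    (hage : ∀ g : G', g ≠ 1 → (∃ w : Place ℂ L, IsDivisorial w r ∧ ¬ Bdy M B w ∧
      Inert w (g : L ≃ₐ[ℂ] L)) → (∃ i j, TI M (fun _ => 1) (g : L ≃ₐ[ℂ] L) i j) ∨
      1 ≤ age M (fun _ => 1) (σ' g) (fun _ _ => 0) (g : L ≃ₐ[ℂ] L))
    (Bd : Place ℂ (fixedField G') → Prop)
    (hBd : ∀ (v : Place ℂ (fixedField G')) (Q : Place ℂ L) (e : ℕ), Over Q v e →
      (Bd v ↔ Bdy M B Q)) :
    KodTrB ℂ (fixedField G') (∑ i : Fin r, (fun _ => 1 : Fin r → ℕ) i) Bd {i | P i}.ncard := by
  obtain ⟨ρ, -, -, -, -, hblk⟩ := exists_t' (M := M) (a := fun _ => 1) (G := G)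
  have hbl : ∀ i, bl M (fun _ => 1) G i = {j | ρ j = ρ i} := by
    intro i
    ext j
    change (j = i ∨ _) ↔ ρ j = ρ i
    rw [eq_comm (a := ρ j), hblk, eq_comm (a := j)]
  have hρ1 : ∀ (g : G) i j, ρ i = ρ j → ρ (σ g i) = ρ (σ g j) := by
    intro g i j hij
    rw [hblk] at hij ⊢
    rcases hij with rfl | ⟨g', hg', h1⟩
    · exact Or.inl rfl
    · exact Or.inr ⟨(g : L ≃ₐ[ℂ] L) * g' * (g : L ≃ₐ[ℂ] L)⁻¹,
        G.mul_mem (G.mul_mem g.2 hg') (G.inv_mem g.2), TI.conjG h g h1⟩
  have hσinv : ∀ (g : G) i, σ g⁻¹ (σ g i) = i := by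
    intro g i
    rw [map_inv, Equiv.Perm.inv_eq_iff_eq]
  have hρ2 : ∀ (g : G) i j, ρ (σ g i) = ρ (σ g j) ↔ ρ i = ρ j := by
    intro g i j
    refine ⟨fun h1 => ?_, hρ1 g i j⟩
    have h2 := hρ1 g⁻¹ _ _ h1
    rwa [hσinv, hσinv] at h2
  have hcard : ∀ (g : G) i, {d | ρ d = ρ (σ g i)}.ncard = {d | ρ d = ρ i}.ncard := by
    intro g i
    have h1 : {d | ρ d = ρ (σ g i)} = (σ g) '' {d | ρ d = ρ i} := by
      ext d
      constructor
      · intro hd
        obtain ⟨d', rfl⟩ := (σ g).surjective d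
        exact ⟨d', (hρ2 g d' i).1 hd, rfl⟩
      · rintro ⟨d', hd', rfl⟩
        exact (hρ2 g d' i).2 hd'
    rw [h1, Set.ncard_image_of_injective _ (σ g).injective]
  have hcardrep : ∀ i, {d | ρ d = ρ (rep i)}.ncard = {d | ρ d = ρ i}.ncard := by
    intro i
    obtain ⟨g, hg⟩ := hrep2 i
    have h1 := hcard g (rep i)
    rw [hg] at h1
    exact h1.symm
  have hPrep : ∀ i, P i → P (rep i) := by
    intro i hi
    obtain ⟨g, hg⟩ := hrep2 i
    have h1 := hPσ g⁻¹ i hi
    have h2 : σ g⁻¹ i = rep i := by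
      rw [map_inv, Equiv.Perm.inv_eq_iff_eq, hg]
    rwa [h2] at h1
  have hPblk : ∀ i c, P i → ρ c = ρ i → P c := by
    intro i c hi hc
    rcases (hblk i c).1 hc.symm with h1 | ⟨g, hg, h1⟩
    · rw [← h1]; exact hi
    · have h3 : σ ⟨g, hg⟩ i = c := sigma_eq h ⟨g, hg⟩ le_rfl h1.1.2.2.2.1
      rw [← h3]
      exact hPσ _ _ hi
  -- the sizes of the blocks
  let b : Fin r → ℕ := fun i => {d | ρ d = ρ i}.ncard
  have hbρ : ∀ i j, ρ i = ρ j → b i = b j := by
    intro i j hij
    simp only [b]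
    rw [hij]
  have hbrep : ∀ i, b (rep i) = b i := hcardrep
  let N : Fin r → ℕ := fun i => if P i then b i + 1 else b i
  have hbN : ∀ i, b i ≤ N i := by
    intro i
    simp only [N]
    split_ifs <;> omega
  have hNP : ∀ i, P i → N i = b i + 1 := by
    intro i hi
    simp only [N, if_pos hi]
  have hindN : ∀ i, LinearIndependent ℂ (fun n : Fin (N i) => F0 i n) := by
    intro i
    have h1 := hind i
    have h2 : (bl M (fun _ => 1) G i).ncard = b i := by rw [hbl]
    rw [h2] at h1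
    exact h1
  have hnumb : ∀ c, num ρ c < b c := fun c => num_lt ρ c
  -- the two kinds of columns
  let ι : Fin r → Fin r → ℕ := fun c0 => Function.update (num ρ) c0 (b c0)
  have hι0 : ∀ i j, ρ i = ρ j → num ρ i = num ρ j → i = j := fun i j h1 h2 => num_inj ρ h1 h2
  have hι1 : ∀ c0 i j, ρ i = ρ j → ι c0 i = ι c0 j → i = j := by
    intro c0 i j h1 h2
    simp only [ι] at h2
    by_cases hi : i = c0
    · by_cases hj : j = c0
      · rw [hi, hj]
      · exfalso
        subst hi
        rw [Function.update_self, Function.update_of_ne hj] at h2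
        have h3 := hnumb j
        rw [← h2, hbρ i j h1] at h3
        exact lt_irrefl _ h3
    · by_cases hj : j = c0
      · exfalso
        subst hj
        rw [Function.update_self, Function.update_of_ne hi] at h2
        have h3 := hnumb i
        rw [h2, hbρ i j h1] at h3
        exact lt_irrefl _ h3
      · rw [Function.update_of_ne hi, Function.update_of_ne hj] at h2
        exact num_inj ρ h1 h2
  have hN0 : ∀ i, num ρ i < N (rep i) := by
    intro i
    have h1 := hnumb i
    have h2 := hbN (rep i)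
    rw [hbrep] at h2
    omega
  have hN1 : ∀ c0, P c0 → ∀ i, ι c0 i < N (rep i) := by
    intro c0 hc0 i
    simp only [ι]
    by_cases hi : i = c0
    · subst hi
      rw [Function.update_self, hNP _ (hPrep i hc0), hbrep]
      omega
    · rw [Function.update_of_ne hi]
      exact hN0 i
  let d0 : L := (Matrix.of fun i c : Fin r => (Ci ρ F (num ρ) i c : L)).det
  let dx : Fin r → L := fun c0 => (Matrix.of fun i c : Fin r => (Ci ρ F (ι c0) i c : L)).det
  have hd0 : d0 ≠ 0 := det_blocks h hblk hrep hφ hFφ hindN hι0 hN0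
  have hdx : ∀ c0, P c0 → dx c0 ≠ 0 := fun c0 hc0 =>
    det_blocks h hblk hrep hφ hFφ hindN (hι1 c0) (hN1 c0 hc0)
  let v : Fin r → L := fun c => dx c / d0
  -- the rule of Cramer
  have hcramer : ∀ i : Fin r, (F i (b i) : L) =
      ∑ c : Fin r, if ρ c = ρ i then v c * (F i (num ρ c) : L) else 0 := by
    intro i
    let Mt : Matrix (Fin r) (Fin r) L := Matrix.of fun i c : Fin r => (Ci ρ F (num ρ) i c : L)
    let bv : Fin r → L := fun j => if ρ j = ρ i then (F j (b j) : L) else 0
    have h1 := congrFun (Matrix.mulVec_cramer Mt bv) i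
    have h2 : (Mt.det • bv) i = d0 * (F i (b i) : L) := by
      rw [Pi.smul_apply, smul_eq_mul]
      simp only [bv, if_true]
      rfl
    rw [h2] at h1
    have h3 : (F i (b i) : L) = (Mt.mulVec (Mt.cramer bv)) i / d0 := by
      rw [h1, mul_div_cancel_left₀ _ hd0]
    rw [h3, Matrix.mulVec_eq_sum, Finset.sum_apply, Finset.sum_div]
    refine Finset.sum_congr rfl fun c _ => ?_
    change Mt i c * Mt.cramer bv c / d0 = _
    rw [mul_comm, Matrix.cramer_apply]
    by_cases hc : ρ c = ρ i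
    · rw [if_pos hc]
      have h4 : (Mt.updateCol c bv) = Matrix.of fun j c' : Fin r =>
          (Ci ρ F (ι c) j c' : L) := by
        ext j c'
        rw [Matrix.updateCol_apply]
        by_cases hcc : c' = c
        · subst hcc
          rw [if_pos rfl, Matrix.of_apply]
          by_cases hj : ρ j = ρ i
          · simp only [bv, if_pos hj, Ci, ι]
            rw [if_pos (hc.trans hj.symm), Function.update_self,
              hbρ j c' (hj.trans hc.symm)]
          · simp only [bv, if_neg hj, Ci]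
            rw [if_neg (fun h => hj (h.symm.trans hc))]
            rfl
        · rw [if_neg hcc]
          change (Ci ρ F (num ρ) j c' : L) = Ci ρ F (ι c) j c'
          simp only [Ci, ι]
          rw [Function.update_of_ne hcc]
      rw [h4]
      change dx c * (Ci ρ F (num ρ) i c : L) / d0 = dx c / d0 * _
      simp only [Ci]
      rw [if_pos hc]
      ring
    · rw [if_neg hc]
      change _ * (Ci ρ F (num ρ) i c : L) / d0 = 0
      simp only [Ci]
      rw [if_neg hc]
      change _ * (0 : L) / d0 = 0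
      rw [mul_zero, zero_div]
  -- the fields
  let M' : Fin r → IntermediateField ℂ L := fun i => if P i then ℂ⟮v i⟯ else M i
  have hM'1 : ∀ i, P i → M' i = ℂ⟮v i⟯ := fun i hi => by simp only [M', if_pos hi]
  have hM'2 : ∀ i, ¬ P i → M' i = M i := fun i hi => by simp only [M', if_neg hi]
  obtain ⟨V, hV⟩ : ∃ V, V = ⨆ i, M' i := ⟨_, rfl⟩
  have hM'V : ∀ i, M' i ≤ V := fun i => by rw [hV]; exact le_iSup M' i
  have hMV : ∀ i, ∀ z ∈ M i, IsAlgebraic V z := by
    intro i z hz
    by_cases hi : P i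
    swap
    · have h1 : z ∈ V := hM'V i (by rw [hM'2 i hi]; exact hz)
      exact isAlgebraic_algebraMap (⟨z, h1⟩ : V)
    have hw : Transcendental ℂ (W i) := (hW i).1.transcendental 0
    have hwV : IsAlgebraic V (W i : L) := by
      by_contra hcon
      -- the forms on the factor `i`
      have h0 : LinearIndependent ℂ (fun n : Fin (b i + 1) => F i n) := by
        have h1 := hindN (rep i)
        rw [hNP _ (hPrep i hi), hbrep] at h1
        let ψ' : M (rep i) →ₐ[ℂ] M i := (φ i).codRestrict (M i).toSubalgebra (hφ i)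
        have h2 := h1.map' ψ'.toLinearMap (LinearMap.ker_eq_bot.2 ψ'.injective)
        have h3 : (fun n : Fin (b i + 1) => F i n) =
            ψ'.toLinearMap ∘ fun n : Fin (b i + 1) => F0 (rep i) n := by
          funext n
          apply Subtype.ext
          exact hFφ i n
        rw [h3]
        exact h2
      let e : Option {c : Fin r // ρ c = ρ i} → Fin (b i + 1) := fun o =>
        o.elim (Fin.last (b i)) fun c => ⟨num ρ c.1, by
          have h1 := hnumb c.1
          rw [hbρ c.1 i c.2] at h1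
          omega⟩
      have he : Function.Injective e := by
        intro o o' hoo
        have h1 := congrArg Fin.val hoo
        rcases o with - | c <;> rcases o' with - | c'
        · rfl
        · exfalso
          have h2 := hnumb c'.1
          rw [hbρ c'.1 i c'.2] at h2
          have h3 : b i = num ρ c'.1 := h1
          omega
        · exfalso
          have h2 := hnumb c.1
          rw [hbρ c.1 i c.2] at h2
          have h3 : num ρ c.1 = b i := h1
          omega
        · have h2 : num ρ c.1 = num ρ c'.1 := h1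
          exact congrArg some (Subtype.ext (num_inj ρ (c.2.trans c'.2.symm) h2))
      have h1 := h0.comp e he
      have h2 := ld_transc V (M i) hw hcon _ h1
      rw [Fintype.linearIndependent_iff] at h2
      have hvV : ∀ c : {c : Fin r // ρ c = ρ i}, v c.1 ∈ V := fun c => hM'V c.1 (by
        rw [hM'1 _ (hPblk i c.1 hi c.2)]
        exact mem_adjoin_simple_self ℂ _)
      have h3 := h2 (fun o => o.elim (-1) fun c => ⟨v c.1, hvV c⟩) (by
        rw [Fintype.sum_option]
        have h4 := hcramer i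
        rw [← Finset.sum_filter, ← Finset.sum_subtype_eq_sum_filter] at h4
        change (-1 : V) • (F i (b i) : L) + _ = 0
        rw [neg_smul, one_smul]
        rw [h4, neg_add_eq_zero]
        refine Finset.sum_bij' (fun c hc => (⟨c.1, c.2⟩ : {c : Fin r // ρ c = ρ i}))
          (fun c hc => ⟨c.1, c.2⟩) ?_ ?_ ?_ ?_ ?_
        · intro c hc; exact Finset.mem_univ _
        · intro c hc; simp
        · intro c hc; rfl
        · intro c hc; rfl
        · intro c hc; rfl) none
      have h4 : (-1 : V) = 0 := h3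
      exact neg_ne_zero.2 one_ne_zero h4
    have h2 := alg_of_mem (M i) hw ((algebraicClosure V L).restrictScalars ℂ) (by
      rw [mem_restrictScalars, mem_algebraicClosure_iff]
      exact hwV) ⟨z, hz⟩
    have h3 : IsAlgebraic (algebraicClosure V L) z := h2
    exact h3.restrictScalars V
  have halg' : Algebra.IsAlgebraic ↥(⨆ i, M' i) L := by
    rw [← hV]
    refine ⟨fun z => ?_⟩
    have h1 : (⊤ : IntermediateField ℂ L) ≤ (algebraicClosure V L).restrictScalars ℂ := by
      rw [← h.sup, iSup_le_iff]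
      intro i z hz
      rw [mem_restrictScalars, mem_algebraicClosure_iff]
      exact hMV i z hz
    exact mem_algebraicClosure_iff.1 (h1 (x := z) trivial)
  have hdeg : ∀ i, ∃ d : ℕ, d ≤ 1 ∧ Algebra.trdeg ℂ (M' i) = d := by
    intro i
    by_cases hi : P i
    · rw [hM'1 i hi]
      obtain ⟨d, h1, h2, -⟩ := trdeg_simple (k := ℂ) (v i)
      exact ⟨d, h1, h2⟩
    · rw [hM'2 i hi]
      exact ⟨1, le_rfl, h.trdeg i⟩
  choose d hda hd using hdeg
  have hsum : ∀ i, d i = 1 := by
    have h1 := trdeg_le_alg M' hd halg'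
    rw [h.total] at h1
    have h2 : ∑ i : Fin r, (fun _ => 1 : Fin r → ℕ) i ≤ ∑ i, d i := by exact_mod_cast h1
    have h3 : ∑ i, d i ≤ ∑ i : Fin r, (fun _ => 1 : Fin r → ℕ) i :=
      Finset.sum_le_sum fun i _ => hda i
    intro i
    exact (Finset.sum_eq_sum_iff_of_le (fun i _ => hda i)).1 (le_antisymm h3 h2) i
      (Finset.mem_univ i)
  have hM'deg : ∀ i, Algebra.trdeg ℂ (M' i) = (fun _ => 1 : Fin r → ℕ) i := fun i => by
    rw [hd, hsum]
  -- the family
  let A' : Fin r → ℕ := fun i => if P i then 1 else 0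
  have hA' : ∑ i, A' i = {i | P i}.ncard := by
    rw [Set.ncard_eq_toFinset_card', Finset.sum_boole]
    simp
  rw [← hA']
  obtain ⟨τ⟩ : Nonempty (Fin (∑ i, A' i) ≃ (Σ i, Fin (A' i))) := ⟨finSigmaFinEquiv.symm⟩
  have hPτ : ∀ p, P (τ p).1 := by
    intro p
    by_contra hcon
    have h1 := (τ p).2.2
    simp only [A', if_neg hcon] at h1
    omega
  let ιl : Fin (∑ i, A' i + 1) → Fin r → ℕ := Fin.cases (num ρ) fun p => ι (τ p).1
  have hindep : AlgebraicIndependent ℂ (fun p : Fin (∑ i, A' i) => v (τ p).1) := by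
    have hex : ∀ i, ∃ s : Fin (A' i) → M' i, AlgebraicIndependent ℂ s ∧ ∀ q, (s q : L) = v i := by
      intro i
      by_cases hi : P i
      · have hA1 : A' i = 1 := by simp only [A', if_pos hi]
        obtain ⟨d', hd1, hd2, hd3⟩ := trdeg_simple (k := ℂ) (v i)
        have hd4 : d' = 1 := by
          have h3 := hM'deg i
          rw [hM'1 i hi, hd2] at h3
          exact_mod_cast h3
        have htr := hd3 hd4
        have hvM : v i ∈ M' i := by
          rw [hM'1 i hi]
          exact mem_adjoin_simple_self ℂ _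
        have hvt : Transcendental ℂ (⟨v i, hvM⟩ : M' i) := by
          intro h3
          apply htr
          have h4 : IsAlgebraic ℂ (v i) := h3.algebraMap (A := L)
          exact (isAlgebraic_algebraMap_iff (algebraMap ℂ⟮v i⟯ L).injective).1 h4
        have hu : Unique (Fin (A' i)) := by rw [hA1]; infer_instance
        have h5 : AlgebraicIndependent ℂ (fun _ : Fin (A' i) => (⟨v i, hvM⟩ : M' i)) :=
          algebraicIndependent_unique_type_iff.2 hvt
        exact ⟨fun _ => (⟨v i, hvM⟩ : M' i), h5, fun q => rfl⟩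
      · have hemp : IsEmpty (Fin (A' i)) := by
          simp only [A', if_neg hi]
          infer_instance
        exact ⟨fun q => isEmptyElim q, (algebraicIndependent_empty_type_iff.2
          (algebraMap ℂ (M' i)).injective), fun q => isEmptyElim q⟩
    choose s hs1 hs2 using hex
    have h1 := indep_sigma M' halg' h.total hM'deg s hs1
    have h2 := h1.comp τ τ.injective
    have h3 : (fun p : Fin (∑ i, A' i) => v (τ p).1) =
        (fun p : Σ i, Fin (A' i) => (s p.1 p.2 : L)) ∘ τ := by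
      funext p
      rw [Function.comp_apply, hs2]
    rw [h3]
    exact h2
  refine kodL h' W (fun l => Ci ρ F (ιl l)) hW B (fun l i c => ?_) (fun g hg i j hij => ?_)
    (fun l => ?_) ?_ hage Bd hBd
  · simp only [Ci]
    split_ifs
    · exact hF i _
    · exact LG.zero
  · have hgG := hT g hg i j hij
    have hσg : σ ⟨g, hgG⟩ i = j := sigma_eq h ⟨g, hgG⟩ le_rfl hij.1.2.2.2.1
    have hWg := hgW ⟨g, hgG⟩ i
    rw [hσg] at hWg
    refine ⟨hWg, ?_⟩
    obtain ⟨ε, hε, h1⟩ := hgF ⟨g, hgG⟩ i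
    rw [hσg] at h1
    have hi' : ρ i = ρ j := (hblk i j).2 (Or.inr ⟨g, hgG, hij⟩)
    refine ⟨ε, hε, fun l c => ?_⟩
    by_cases hc : ρ c = ρ i
    · have hc' : ρ c = ρ j := hc.trans hi'
      simp only [Ci, if_pos hc, if_pos hc']
      exact h1 _
    · have hc' : ¬ ρ c = ρ j := fun h0 => hc (h0.trans hi'.symm)
      simp only [Ci, if_neg hc, if_neg hc']
      change g 0 = algebraMap ℂ L ε * 0
      rw [map_zero, mul_zero]
  · refine Fin.cases ?_ (fun p => ?_) l
    · exact hd0
    · exact hdx _ (hPτ p)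
  · exact hindep

end

end Pool.Agent.H908.VA
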