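import Pool.Agent.H908.VA4
import Pool.Agent.H908.SD4
import Pool.Graph.R_pool_sql_team_seeded_3997aac3.Q36.GV.Nu
import Pool.Graph.R_seed8.W327.PG.TRGE3

/-! **Logarithmic abundance** for quotients of products of open curves. -/

set_option autoImplicit false
set_option linter.overlappingInstances false
set_option linter.unusedSectionVars false
set_option linter.unusedVariables false
set_option linter.style.haveILetI false

open FF IntermediateField Pool.Agent.W619.PQ Pool.Agent.W619.PL Pool.Agent.W619.TW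
  Pool.Agent.W603.LV Pool.Agent.W619.Y Pool.Agent.W672.PG Pool.Agent.W824.PG Pool.Agent.Y174
  Pool.Agent.K1H17.IS Pool.Agent.K1H6.PQ

namespace Pool.Agent.H908.VA

open Pool.Agent.H908.SB Pool.Agent.H908.TA Pool.Agent.H908.UC Pool.Agent.H908.UA
open Pool.Agent.Helper11K9.OD (regularForms)
open Pool.Agent.Helper11K9.PC (RR)
open Pool.Agent.Helper320.PCL (IsLogD bt)
open Pool.Agent.H908.UB (place_eq)

section

variable {F : Type} [Field F] [Algebra ℂ F] [IsFF ℂ F]

theorem canDeg_gt_zero (h : 2 ≤ Module.finrank ℂ (regularForms F)) : 0 < canDeg ℂ F := by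
  classical
  have hD := der_ne (k := ℂ) (K := F)
  obtain ⟨P, -⟩ := exists_place (k := ℂ) (K := F)
  have h1 := Pool.Agent.Helper11K9.OD.finrank_card (D := der ℂ F) (hD := hD) {P}
  rw [Finset.card_singleton] at h1
  have h2 := Pool.Agent.Helper11K9.OD.forms_le hD
  have h3 : 0 < Module.finrank ℂ (Pool.Agent.Helper11K9.OD.RRS (der ℂ F) hD {P}) := by omega
  have hnt : Nontrivial (Pool.Agent.Helper11K9.OD.RRS (der ℂ F) hD {P}) :=
    Module.nontrivial_of_finrank_pos h3
  obtain ⟨⟨f, hf⟩, hfne⟩ := exists_ne (0 : Pool.Agent.Helper11K9.OD.RRS (der ℂ F) hD {P})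
  have hf0 : f ≠ 0 := fun h0 => hfne (Subtype.ext h0)
  rw [Pool.Agent.Helper11K9.OD.mem_RRS] at hf
  have hf1 : ∀ Q : Place ℂ F, vo Q (der ℂ F) ≤ Q.ord f := fun Q => (hf.1 Q).resolve_left hf0
  have hf2 : vo P (der ℂ F) + 1 ≤ P.ord f :=
    (hf.2 P (Finset.mem_singleton_self P)).resolve_left hf0
  have h4 := sum_ord (k := ℂ) f
  have h5 : (∑ᶠ Q : Place ℂ F, vo Q (der ℂ F)) < ∑ᶠ Q : Place ℂ F, Q.ord f := by
    let T : Finset (Place ℂ F) := insert P
      ((vo_finite hD).toFinset ∪ (finite_support (k := ℂ) f).toFinset)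
    rw [finsum_eq_sum_of_support_subset (s := T), finsum_eq_sum_of_support_subset (s := T)]
    · refine Finset.sum_lt_sum (fun Q _ => hf1 Q) ⟨P, Finset.mem_insert_self _ _, ?_⟩
      omega
    · intro Q hQ
      rw [Finset.mem_coe, Finset.mem_insert, Finset.mem_union, Set.Finite.mem_toFinset,
        Set.Finite.mem_toFinset]
      exact Or.inr (Or.inr hQ)
    · intro Q hQ
      rw [Finset.mem_coe, Finset.mem_insert, Finset.mem_union, Set.Finite.mem_toFinset,
        Set.Finite.mem_toFinset]
      exact Or.inr (Or.inl hQ)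
  unfold canDeg
  linarith

theorem canDeg_ge_neg : -2 ≤ canDeg ℂ F := by
  by_cases h : ∃ t : F, ℂ⟮t⟯ = ⊤
  · obtain ⟨t, ht⟩ := h
    exact (canDeg_rational ht).ge
  · have := canDeg_nonneg h
    omega

theorem deg_facts (B : Finset (Place ℂ F)) :
    (1 ≤ Module.finrank ℂ (regularForms F) + (B.card - 1) → 0 ≤ canDeg ℂ F + B.card) ∧
    (2 ≤ Module.finrank ℂ (regularForms F) + (B.card - 1) → 0 < canDeg ℂ F + B.card) := by
  have h0 := canDeg_ge_neg (F := F)
  rcases Nat.lt_or_ge (Module.finrank ℂ (regularForms F)) 1 with h | h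
  · constructor
    · intro h1
      have h2 : 2 ≤ B.card := by omega
      omega
    · intro h1
      have h2 : 3 ≤ B.card := by omega
      omega
  rcases Nat.lt_or_ge (Module.finrank ℂ (regularForms F)) 2 with h' | h'
  · have h3 := canDeg_eq_zero (F := F) (by omega)
    rw [h3]
    constructor
    · intro h1
      omega
    · intro h1
      have h2 : 2 ≤ B.card := by omega
      omega
  · have h3 := canDeg_gt_zero h'
    constructor <;> intro h1 <;> omega

end

section

variable {L : Type} [Field L] [Algebra ℂ L]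
variable {r : ℕ} {M : Fin r → IntermediateField ℂ L}
  {G : Subgroup (L ≃ₐ[ℂ] L)} {σ : G →* Equiv.Perm (Fin r)}

/-- The number of boundary points is the same for the curves in an orbit. -/
theorem card_le (B : ∀ i, Finset (Place ℂ (M i))) (hBG : StableB M B G) {g : L ≃ₐ[ℂ] L}
    (hg : g ∈ G) {i j : Fin r} (h1 : ∀ z ∈ M i, g z ∈ M j) (h2 : ∀ z ∈ M j, g.symm z ∈ M i) :
    (B j).card ≤ (B i).card := by
  classical
  have h3 := hBG g hg i j h1
  choose f hf1 hf2 using h3
  have hinj : Function.Injective (fun p : {p // p ∈ B j} => (⟨f p.1 p.2, hf1 p.1 p.2⟩ :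
      {q // q ∈ B i})) := by
    rintro ⟨p, hp⟩ ⟨p', hp'⟩ hpp
    have h4 : f p hp = f p' hp' := congrArg Subtype.val hpp
    apply Subtype.ext
    change p = p'
    refine place_eq (a := 1) (b := 1) one_pos one_pos fun z => ?_
    rw [one_mul, one_mul]
    have h5 : (z : L) = g ((⟨g.symm z, h2 z z.2⟩ : M i) : L) := (g.apply_symm_apply _).symm
    rw [← hf2 p hp _ _ h5, ← hf2 p' hp' _ _ h5, h4]
  have h4 := Fintype.card_le_of_injective _ hinj
  rwa [Fintype.card_coe, Fintype.card_coe] at h4

end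

end Pool.Agent.H908.VA
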