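import Pool.Agent.H908.VA5

/-! **Logarithmic abundance** for quotients of products of open curves. -/

set_option autoImplicit false
set_option linter.overlappingInstances false
set_option linter.unusedSectionVars false
set_option linter.unusedVariables false
set_option linter.style.haveILetI false

open FF IntermediateField Pool.Agent.W619.PQ Pool.Agent.W619.PL Pool.Agent.W619.TW
  Pool.Agent.W603.LV Pool.Agent.W619.Y Pool.Agent.W672.PG Pool.Agent.W824.PG Pool.Agent.Y174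
  Pool.Agent.K1H17.IS Pool.Agent.K1H6.PQ

namespace Pool.Agent.H908.VA

open Pool.Agent.H908.SB Pool.Agent.H908.TA Pool.Agent.H908.UC Pool.Agent.H908.UA
open Pool.Agent.Helper11K9.OD (regularForms)
open Pool.Agent.Helper11K9.PC (RR)
open Pool.Agent.Helper320.PCL (IsLogD bt)
open Pool.Agent.H908.UB (place_eq)

section

variable {L : Type} [Field L] [Algebra ℂ L]
variable {r : ℕ}

/-- the group generated by the involutive transpositions in `G` -/
def TG (M : Fin r → IntermediateField ℂ L) (G : Subgroup (L ≃ₐ[ℂ] L)) : Subgroup (L ≃ₐ[ℂ] L) :=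
  Subgroup.closure {g | g ∈ G ∧ ∃ i j, TI M (fun _ => 1) g i j}

theorem TG_le (M : Fin r → IntermediateField ℂ L) (G : Subgroup (L ≃ₐ[ℂ] L)) : TG M G ≤ G :=
  (Subgroup.closure_le G).2 fun _ hg => hg.1

theorem mem_TG {M : Fin r → IntermediateField ℂ L} {G : Subgroup (L ≃ₐ[ℂ] L)} {g : L ≃ₐ[ℂ] L}
    (hg : g ∈ G) {i j : Fin r} (h : TI M (fun _ => 1) g i j) : g ∈ TG M G :=
  Subgroup.subset_closure ⟨hg, i, j, h⟩

theorem bl_TG (M : Fin r → IntermediateField ℂ L) (G : Subgroup (L ≃ₐ[ℂ] L)) (i : Fin r) :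
    bl M (fun _ => 1) (TG M G) i = bl M (fun _ => 1) G i := by
  ext j
  constructor
  · rintro (h | ⟨g, hg, h⟩)
    · exact Or.inl h
    · exact Or.inr ⟨g, TG_le M G hg, h⟩
  · rintro (h | ⟨g, hg, h⟩)
    · exact Or.inl h
    · exact Or.inr ⟨g, mem_TG hg h, h⟩

/-- The boundary of the quotient. -/
theorem bdy_iff {M : Fin r → IntermediateField ℂ L} {G : Subgroup (L ≃ₐ[ℂ] L)} [Finite G]
    {σ : G →* Equiv.Perm (Fin r)} (h : IsPermuted M (fun _ => 1) G σ)
    {B : ∀ i, Finset (Place ℂ (M i))} (hBG : StableB M B G) {Bd : Place ℂ (fixedField G) → Prop}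
    (hBd : ∀ v, Bd v ↔ ∃ (Q : Place ℂ L) (e : ℕ), Over Q v e ∧ Bdy M B Q)
    (v : Place ℂ (fixedField G)) (Q : Place ℂ L) (e : ℕ) (hQ : Over Q v e) :
    Bd v ↔ Bdy M B Q := by
  rw [hBd]
  refine ⟨?_, fun h1 => ⟨Q, e, hQ, h1⟩⟩
  rintro ⟨Q', e', hQ', l, p, hp, e5, hQp⟩
  obtain ⟨g, hg⟩ := Pool.Agent.W314.PG.CONJ.main ℂ L G v Q' Q e' e hQ' hQ
  have h1 : σ g (σ g⁻¹ l) = l := by
    rw [map_inv]
    exact (σ g).apply_symm_apply l
  have hgM : ∀ z ∈ M (σ g⁻¹ l), (g : L ≃ₐ[ℂ] L) z ∈ M l := by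
    intro z hz
    have h2 := h.perm g (σ g⁻¹ l) z hz
    rwa [h1] at h2
  obtain ⟨q, hq, hqe⟩ := hBG g g.2 (σ g⁻¹ l) l hgM p hp
  refine ⟨σ g⁻¹ l, q, hq, e5, hQp.1, fun z => ?_⟩
  change Q.ord (z : L) = e5 * q.ord z
  rw [hg, hqe z ⟨(g : L ≃ₐ[ℂ] L) z, hgM z z.2⟩ rfl]
  exact hQp.2 ⟨(g : L ≃ₐ[ℂ] L) z, hgM z z.2⟩

/-- **Logarithmic abundance.** -/
theorem abundanceL (M : Fin r → IntermediateField ℂ L)
    (hess : ∀ i, Algebra.EssFiniteType ℂ (M i)) (htr : ∀ i, Algebra.trdeg ℂ (M i) = 1)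
    (hL : Algebra.trdeg ℂ L = r) (hsup : (⨆ i, M i) = ⊤) (B : ∀ i, Finset (Place ℂ (M i)))
    (G : Subgroup (L ≃ₐ[ℂ] L)) [Finite G] (hperm : ∀ g ∈ G, ∀ i, ∃ j, ∀ z ∈ M i, g z ∈ M j)
    (hBG : StableB M B G) (hS : StabL M B (TG M G))
    (hage : ∀ g ∈ G, g ≠ 1 → (∃ w : Place ℂ L, IsDivisorial w r ∧ ¬ Bdy M B w ∧ Inert w g) →
      (∃ i j, TI M (fun _ => 1) g i j) ∨ ∀ π : Equiv.Perm (Fin r),
        (∀ i, ∀ z ∈ M i, g z ∈ M (π i)) → 1 ≤ age M (fun _ => 1) π (fun _ _ => 0) g)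
    (Bd : Place ℂ (fixedField G) → Prop)
    (hBd : ∀ v, Bd v ↔ ∃ (Q : Place ℂ L) (e : ℕ), Over Q v e ∧ Bdy M B Q)
    (hc2 : ∀ i, (bl M (fun _ => 1) G i).ncard ≤
      Module.finrank ℂ (regularForms (M i)) + ((B i).card - 1))
    (hne : ∀ i, 0 < canDeg ℂ (M i) + (B i).card →
      (bl M (fun _ => 1) G i).ncard ≠ Module.finrank ℂ (regularForms (M i)) + ((B i).card - 1)) :
    KodGe ℂ (fixedField G) r Bd {i | 0 < canDeg ℂ (M i) + (B i).card}.ncard ∧
      NumLe ℂ (fixedField G) r Bd {i | 0 < canDeg ℂ (M i) + (B i).card}.ncard := by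
  classical
  haveI hff : ∀ i, IsFF ℂ (M i) := fun i => ⟨hess i, htr i⟩
  obtain ⟨σ', h'⟩ := exists_sigmaG M hess htr hL hsup G hperm
  obtain ⟨T, hT⟩ : ∃ T, T = TG M G := ⟨_, rfl⟩
  have hTG : T ≤ G := by rw [hT]; exact TG_le M G
  haveI hfinT : Finite T := Finite.of_injective (Subgroup.inclusion hTG)
    (Subgroup.inclusion_injective hTG)
  obtain ⟨σ, h⟩ := exists_sigmaG M hess htr hL hsup T fun g hg i => hperm g (hTG hg) i
  have hBT : StableB M B T := fun g hg i j => hBG g (hTG hg) i j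
  have hblT : ∀ i, bl M (fun _ => 1) T i = bl M (fun _ => 1) G i := fun i => by
    rw [hT]; exact bl_TG M G i
  rw [← hT] at hS
  obtain ⟨n, hn⟩ : ∃ n : ℕ, n = ∑ i : Fin r, (fun _ => 1 : Fin r → ℕ) i := ⟨_, rfl⟩
  have hnr : n = r := by rw [hn]; simp
  obtain ⟨hnK, hessK⟩ := Pool.Agent.K1H97.PU.quot h'
  have hnK' : Algebra.trdeg ℂ (fixedField G) = r := by
    rw [hnK, ← hn, hnr]
  -- the boundary
  have hBd1 := bdy_iff h' hBG hBd
  have hb1 : ∀ i, 1 ≤ (bl M (fun _ => 1) G i).ncard := by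
    intro i
    exact (Set.ncard_pos (Set.toFinite _)).2 ⟨i, Or.inl rfl⟩
  have hT2 : ∀ (g : T) i, ∀ z ∈ M (σ g i), (g : L ≃ₐ[ℂ] L).symm z ∈ M i := by
    intro g i z hz
    have h1 := h.perm g⁻¹ (σ g i) z hz
    have h2 : σ g⁻¹ (σ g i) = i := by
      rw [map_inv, Equiv.Perm.inv_eq_iff_eq]
    rw [h2] at h1
    exact h1
  -- the condition
  obtain ⟨P, hP⟩ : ∃ P : Fin r → Prop, ∀ i, P i ↔ ∀ g : T,
      (bl M (fun _ => 1) G (σ g i)).ncard <
        Module.finrank ℂ (regularForms (M (σ g i))) + ((B (σ g i)).card - 1) :=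
    ⟨_, fun i => Iff.rfl⟩
  have hPlt : ∀ i, P i → (bl M (fun _ => 1) G i).ncard <
      Module.finrank ℂ (regularForms (M i)) + ((B i).card - 1) := by
    intro i hi
    have h1 := (hP i).1 hi 1
    have h2 : σ 1 i = i := by rw [map_one]; rfl
    rwa [h2] at h1
  have hPσ : ∀ (g : T) i, P i → P (σ g i) := by
    intro g i hi
    rw [hP]
    intro g'
    have h1 := (hP i).1 hi (g' * g)
    have h2 : σ (g' * g) i = σ g' (σ g i) := by rw [map_mul]; rfl
    rwa [h2] at h1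
  have hPdeg : ∀ i, P i ↔ 0 < canDeg ℂ (M i) + (B i).card := by
    intro i
    constructor
    · intro hi
      have h1 := hPlt i hi
      have h2 := hb1 i
      exact (deg_facts (B i)).2 (by omega)
    · intro hi
      rw [hP]
      intro g
      have h1 : canDeg ℂ (M i) = canDeg ℂ (M (σ g i)) :=
        canDeg_equiv (resEquiv (g : L ≃ₐ[ℂ] L) (h.perm g i) (hT2 g i))
      have h2 : (B i).card ≤ (B (σ g i)).card := by
        refine card_le B hBT (g := (g : L ≃ₐ[ℂ] L)⁻¹) (T.inv_mem g.2) (hT2 g i) (fun z hz => ?_)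
        exact h.perm g i z hz
      have h3 : 0 < canDeg ℂ (M (σ g i)) + (B (σ g i)).card := by
        rw [← h1]
        omega
      exact lt_of_le_of_ne (hc2 _) (hne _ h3)
  have hset : {i | P i} = {i | 0 < canDeg ℂ (M i) + (B i).card} := by
    ext i
    exact hPdeg i
  constructor
  · -- the lower bound
    let N : Fin r → ℕ := fun i => if P i then (bl M (fun _ => 1) T i).ncard + 1 else
      (bl M (fun _ => 1) T i).ncard
    have hNq : ∀ i, N i ≤ Module.finrank ℂ (regularForms (M i)) + ((B i).card - 1) := by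
      intro i
      simp only [N]
      rw [hblT]
      split_ifs with hi
      · exact hPlt i hi
      · exact hc2 i
    obtain ⟨W, F, rep, φ, F0, hW, hF, hgW, hgF, hrep, hrep2, hφ, hFφ, hind⟩ :=
      exists_equivF h N (fun i W => {f | LG (M i) (B i) W f}) (fun i W => LG.zero)
      (fun g i W f W' f' hf hW' hf' => by
        have h1 := LG.push (resEquiv (g : L ≃ₐ[ℂ] L) (h.perm g i) (hT2 g i)) hf
          (B' := B (σ g i)) (fun p q hq hqp => by
            obtain ⟨q', hq', hqe'⟩ := hBT (g⁻¹ : L ≃ₐ[ℂ] L) (T.inv_mem g.2) (σ g i) i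
              (hT2 g i) q hq
            have h3 : p = q' := by
              refine place_eq (a := 1) (b := 1) one_pos one_pos fun z => ?_
              rw [one_mul, one_mul]
              have h4 := hqe' z ⟨(g : L ≃ₐ[ℂ] L).symm z, hT2 g i z z.2⟩ rfl
              rw [h4, hqp]
              congr 1
              apply Subtype.ext
              change (z : L) = (g : L ≃ₐ[ℂ] L) ((g : L ≃ₐ[ℂ] L).symm z)
              rw [AlgEquiv.apply_symm_apply]
            rw [h3]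
            exact hq')
        have h2 : W' = resEquiv (g : L ≃ₐ[ℂ] L) (h.perm g i) (hT2 g i) W := Subtype.ext hW'
        have h3 : f' = resEquiv (g : L ≃ₐ[ℂ] L) (h.perm g i) (hT2 g i) f := Subtype.ext hf'
        rw [h2, h3]
        exact h1)
      (fun i => by
        obtain ⟨x, hx⟩ := Pool.Agent.W636.PG.exists_basis ℂ (M i) 1 (h.trdeg i)
        obtain ⟨E1, hE1⟩ := Pool.Agent.W636.PG.exists_duals ℂ (M i) 1 x hx
        have hE10 : E1 0 ≠ 0 := by
          intro h0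
          have := hE1 0 0
          rw [h0, if_pos rfl] at this
          exact zero_ne_one this
        have hN1 : 1 ≤ Module.finrank ℂ (RR (E1 0) hE10) + ((B i).card - 1) :=
          ((hb1 i).trans (hc2 i)).trans
            (Nat.add_le_add_right (Pool.Agent.Helper11K9.OD.forms_le hE10) _)
        obtain ⟨f1, hf1, hf1i⟩ := exists_logs (B i) hE10 hN1
        obtain ⟨W, hW, hW2⟩ := exists_WL h hS i hE10 (hf1 0) (hf1i.ne_zero 0)
        obtain ⟨E, hE⟩ := exists_dual1 hW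
        have hE0 : E ≠ 0 := by
          rintro rfl
          exact zero_ne_one hE
        obtain ⟨F, hF1, hF2⟩ := exists_logs (B i) hE0 (N := N i)
          ((hNq i).trans (Nat.add_le_add_right (Pool.Agent.Helper11K9.OD.forms_le hE0) _))
        refine ⟨W, hW, ⟨F, fun n D hD => ?_, hF2⟩, hW2⟩
        have h2 : D = E := by rw [der_eq hW hE D, hD, one_smul]
        rw [h2]
        exact hF1 n)
    have h1 := kod_core h h' (fun g hg i j hij => by rw [hT]; exact mem_TG hg hij)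
      W F rep φ F0 B P hPσ hW hF hgW hgF hrep hrep2 hφ hFφ
      (fun i => by
        have h2 := hind i
        convert h2)
      (fun g hg1 hw => by
        rcases hage g g.2 (fun h0 => hg1 (Subtype.ext h0)) hw with h2 | h2
        · exact Or.inl h2
        · exact Or.inr (h2 (σ' g) (h'.perm g))) Bd hBd1
    rw [← hn, hnr, hset] at h1
    exact Pool.Agent.W327.PG.TRGE3.main ℂ (fixedField G) r _ Bd hnK' h1
  · -- the upper bound
    have hfin := fixed_finite G
    have hess0 := Q36.PT.ess_bot ℂ L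
    have h1 := Q36.GV.num_domV (k := ℂ) (L := fixedField G) (M := L) (d := 0) (n := r)
      (⊥ : IntermediateField ℂ L) M (Q36.PT.trdeg_bot ℂ L) (by rw [hL, zero_add])
      (by rw [bot_sup_eq, hsup]) (fun _ => False) B (fun i => (deg_facts (B i)).1
        ((hb1 i).trans (hc2 i))) Bd (fun w v e _ hwv hv => by
          obtain ⟨i, p, hp, e', he'⟩ := (hBd1 v w e hwv).1 hv
          exact Or.inr ⟨i, p, e', he', hp⟩) (Q36.PT.numLe_bot ℂ L)
    rw [zero_add, zero_add] at h1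
    have h2 : {i | 0 < canDeg ℂ (M i) + ((B i).card : ℤ)}.ncard =
        (Finset.univ.filter fun i => 0 < canDeg ℂ (M i) + ((B i).card : ℤ)).card := by
      rw [← Set.ncard_coe_finset]
      congr 1
      ext i
      simp
    rw [h2]
    convert h1

/-- Large blocks. -/
theorem large_block (M : Fin r → IntermediateField ℂ L)
    (hess : ∀ i, Algebra.EssFiniteType ℂ (M i)) (htr : ∀ i, Algebra.trdeg ℂ (M i) = 1)
    (hL : Algebra.trdeg ℂ L = r) (hsup : (⨆ i, M i) = ⊤) (B : ∀ i, Finset (Place ℂ (M i)))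
    (G : Subgroup (L ≃ₐ[ℂ] L)) [Finite G] (hperm : ∀ g ∈ G, ∀ i, ∃ j, ∀ z ∈ M i, g z ∈ M j)
    (hBG : StableB M B G) (Bd : Place ℂ (fixedField G) → Prop)
    (hBd : ∀ v, Bd v ↔ ∃ (Q : Place ℂ L) (e : ℕ), Over Q v e ∧ Bdy M B Q) {i : Fin r}
    (hi : Module.finrank ℂ (regularForms (M i)) + ((B i).card - 1) <
      (bl M (fun _ => 1) G i).ncard) :
    IsA1Uniruled ℂ (fixedField G) r Bd ∧ ¬ IsPsef ℂ (fixedField G) r Bd := by
  haveI hff : ∀ i, IsFF ℂ (M i) := fun i => ⟨hess i, htr i⟩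
  obtain ⟨σ, h⟩ := exists_sigmaG M hess htr hL hsup G hperm
  obtain ⟨n, hn⟩ : ∃ n : ℕ, n = ∑ i : Fin r, (fun _ => 1 : Fin r → ℕ) i := ⟨_, rfl⟩
  have hnr : n = r := by rw [hn]; simp
  obtain ⟨hnK, hessK⟩ := Pool.Agent.K1H97.PU.quot h
  have hnK' : Algebra.trdeg ℂ (fixedField G) = r := by
    rw [hnK, ← hn, hnr]
  have hBd1 := bdy_iff h hBG hBd
  have h1 := a1_blk h B hBG hi Bd fun v Q e h1 h2 => (hBd1 v Q e h1).1 h2
  exact ⟨h1, fun h2 => Pool.Agent.Helper320.PCL.t_NPS hnK' Bd h1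
    ((Pool.Agent.R882.LT.psef_iff' r Bd).2 h2)⟩

end

end Pool.Agent.H908.VA
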