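import Pool.Agent.H908.VA6
import Pool.Agent.H908.UC8

/-! **Logarithmic abundance** for quotients of products of open curves: the final form. -/

set_option autoImplicit false
set_option linter.overlappingInstances false
set_option linter.unusedSectionVars false
set_option linter.unusedVariables false
set_option linter.style.haveILetI false

open FF IntermediateField Pool.Agent.W619.PQ Pool.Agent.W619.PL Pool.Agent.W619.TW
  Pool.Agent.W603.LV Pool.Agent.W619.Y Pool.Agent.W672.PG Pool.Agent.W824.PG Pool.Agent.Y174
  Pool.Agent.K1H17.IS Pool.Agent.K1H6.PQ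

namespace Pool.Agent.H908.VA

open Pool.Agent.H908.SB Pool.Agent.H908.TA Pool.Agent.H908.UC Pool.Agent.H908.UA
open Pool.Agent.Helper11K9.OD (regularForms)
open Pool.Agent.Helper11K9.PC (RR mem_RR)

section

variable {F : Type} [Field F] [Algebra ℂ F] [IsFF ℂ F]

theorem canDeg_neg_two (h : Module.finrank ℂ (regularForms F) = 0) : canDeg ℂ F = -2 := by
  by_cases hr : ∃ t : F, ℂ⟮t⟯ = ⊤
  · obtain ⟨t, ht⟩ := hr
    exact canDeg_rational ht
  · exfalso
    have hD := der_ne (k := ℂ) (K := F)
    obtain ⟨f, hf0, hf⟩ := exists_regular hr hD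
    have h1 : f ∈ RR (der ℂ F) hD := mem_RR.2 (Or.inr hf)
    have h2 := rr_le (F := F) hD
    rw [h] at h2
    have hfin : Module.Finite ℂ (RR (der ℂ F) hD) := FF.finDim_LL _
    have h3 : RR (der ℂ F) hD = ⊥ := by
      rw [← Submodule.finrank_eq_zero (R := ℂ)]
      omega
    rw [h3, Submodule.mem_bot] at h1
    exact hf0 h1

/-- The sign of the logarithmic degree. -/
theorem hyp_iff (B : Finset (Place ℂ F)) :
    0 < canDeg ℂ F + B.card ↔ 2 < 2 * Module.finrank ℂ (regularForms F) + B.card := by
  rcases Nat.lt_or_ge (Module.finrank ℂ (regularForms F)) 1 with h | h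
  · have h1 := canDeg_neg_two (F := F) (by omega)
    omega
  rcases Nat.lt_or_ge (Module.finrank ℂ (regularForms F)) 2 with h' | h'
  · have h1 := canDeg_eq_zero (F := F) (by omega)
    omega
  · have h1 := canDeg_gt_zero h'
    omega

end

end Pool.Agent.H908.VA
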