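import Pool.Agent.H908.VA7

/-! **Logarithmic abundance** for quotients of products of open curves: groups whose stabilizers act
by involutions. -/

set_option autoImplicit false
set_option linter.overlappingInstances false
set_option linter.unusedSectionVars false
set_option linter.unusedVariables false
set_option linter.style.haveILetI false

open FF IntermediateField Pool.Agent.W619.PQ Pool.Agent.W619.PL Pool.Agent.W619.TW
  Pool.Agent.W603.LV Pool.Agent.W619.Y Pool.Agent.W672.PG Pool.Agent.W824.PG Pool.Agent.Y174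
  Pool.Agent.K1H17.IS Pool.Agent.K1H6.PQ

namespace Pool.Agent.H908.VA

open Pool.Agent.H908.SB Pool.Agent.H908.TA Pool.Agent.H908.UC Pool.Agent.H908.UA
open Pool.Agent.Helper11K9.OD (regularForms)

section

variable {L : Type} [Field L] [Algebra ℂ L]
variable {r : ℕ}

theorem stabL_TG {M : Fin r → IntermediateField ℂ L} {B : ∀ i, Finset (Place ℂ (M i))}
    {G : Subgroup (L ≃ₐ[ℂ] L)} (hS : StabL M B G) : StabL M B (TG M G) :=
  fun g hg i h => hS g (TG_le M G hg) i h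

theorem age_of_stab (M : Fin r → IntermediateField ℂ L)
    (hess : ∀ i, Algebra.EssFiniteType ℂ (M i)) (htr : ∀ i, Algebra.trdeg ℂ (M i) = 1)
    (hL : Algebra.trdeg ℂ L = r) (hsup : (⨆ i, M i) = ⊤) (B : ∀ i, Finset (Place ℂ (M i)))
    (G : Subgroup (L ≃ₐ[ℂ] L)) [Finite G] (hperm : ∀ g ∈ G, ∀ i, ∃ j, ∀ z ∈ M i, g z ∈ M j)
    (hS : StabL M B G)
    (hrefl : ¬ ∃ g ∈ G, g ≠ 1 ∧ ∃ i, (∀ z ∈ M i, g z ∈ M i) ∧ ∀ l, l ≠ i → ∀ z ∈ M l, g z = z)
    (g : L ≃ₐ[ℂ] L) (hg : g ∈ G) (hg1 : g ≠ 1) :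
    (∃ i j, TI M (fun _ => 1) g i j) ∨ ∀ π : Equiv.Perm (Fin r),
        (∀ i, ∀ z ∈ M i, g z ∈ M (π i)) → 1 ≤ age M (fun _ => 1) π (fun _ _ => 0) g := by
  haveI hff : ∀ i, IsFF ℂ (M i) := fun i => ⟨hess i, htr i⟩
  obtain ⟨σ, h⟩ := exists_sigmaG M hess htr hL hsup G hperm
  have hst := HypStab.hst h hS.hyp
  rcases age_cases' h hst ⟨g, hg⟩ (fun h0 => hg1 (congrArg Subtype.val h0))
    (fun ⟨i, h1, h2⟩ => hrefl ⟨g, hg, hg1, i, h1, h2⟩) with h1 | h1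
  · exact Or.inl h1
  · right
    intro π hπ
    have h2 : σ ⟨g, hg⟩ = π := by
      refine Equiv.ext fun i => ?_
      exact sigma_eq h ⟨g, hg⟩ (i := i) (j := π i) le_rfl (hπ i)
    rw [← h2]
    exact h1

/-- **The main theorem.** -/
theorem mainL (M : Fin r → IntermediateField ℂ L)
    (hess : ∀ i, Algebra.EssFiniteType ℂ (M i)) (htr : ∀ i, Algebra.trdeg ℂ (M i) = 1)
    (hL : Algebra.trdeg ℂ L = r) (hsup : (⨆ i, M i) = ⊤) (B : ∀ i, Finset (Place ℂ (M i)))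
    (G : Subgroup (L ≃ₐ[ℂ] L)) [Finite G] (hperm : ∀ g ∈ G, ∀ i, ∃ j, ∀ z ∈ M i, g z ∈ M j)
    (hBG : StableB M B G)
    (hG : (StabL M B (TG M G) ∧
      ∀ g ∈ G, g ≠ 1 → (∃ w : Place ℂ L, IsDivisorial w r ∧ ¬ Bdy M B w ∧ Inert w g) →
      (∃ i j, TI M (fun _ => 1) g i j) ∨ ∀ π : Equiv.Perm (Fin r),
        (∀ i, ∀ z ∈ M i, g z ∈ M (π i)) → 1 ≤ age M (fun _ => 1) π (fun _ _ => 0) g) ∨
      StabL M B G)
    (Bd : Place ℂ (fixedField G) → Prop)
    (hBd : ∀ v, Bd v ↔ ∃ (Q : Place ℂ L) (e : ℕ), Over Q v e ∧ Bdy M B Q) :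
    (((∃ i, Module.finrank ℂ (regularForms (M i)) + ((B i).card - 1) <
        (bl M (fun _ => 1) G i).ncard) ∨
      (StabL M B G ∧
        ∃ g ∈ G, g ≠ 1 ∧ ∃ i, (∀ z ∈ M i, g z ∈ M i) ∧ ∀ l, l ≠ i → ∀ z ∈ M l, g z = z)) →
      IsA1Uniruled ℂ (fixedField G) r Bd ∧ ¬ IsPsef ℂ (fixedField G) r Bd) ∧
    ((¬ ((∃ i, Module.finrank ℂ (regularForms (M i)) + ((B i).card - 1) <
        (bl M (fun _ => 1) G i).ncard) ∨
      (StabL M B G ∧
        ∃ g ∈ G, g ≠ 1 ∧ ∃ i, (∀ z ∈ M i, g z ∈ M i) ∧ ∀ l, l ≠ i → ∀ z ∈ M l, g z = z))) →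
      (∀ i, 2 < 2 * Module.finrank ℂ (regularForms (M i)) + (B i).card →
        (bl M (fun _ => 1) G i).ncard ≠ Module.finrank ℂ (regularForms (M i)) + ((B i).card - 1)) →
      KodGe ℂ (fixedField G) r Bd
        {i | 2 < 2 * Module.finrank ℂ (regularForms (M i)) + (B i).card}.ncard ∧
      NumLe ℂ (fixedField G) r Bd
        {i | 2 < 2 * Module.finrank ℂ (regularForms (M i)) + (B i).card}.ncard) := by
  haveI hff : ∀ i, IsFF ℂ (M i) := fun i => ⟨hess i, htr i⟩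
  constructor
  · rintro (⟨i, hi⟩ | ⟨hS, hrefl⟩)
    · exact large_block M hess htr hL hsup B G hperm hBG Bd hBd hi
    · have h1 := UC.main M hess htr hL hsup B G hperm hBG hS Bd hBd
      exact ⟨(h1.out 4 3).1 (Or.inl hrefl), (h1.out 4 2).1 (Or.inl hrefl)⟩
  · intro hn hne
    have h1 : ∀ i, (bl M (fun _ => 1) G i).ncard ≤
        Module.finrank ℂ (regularForms (M i)) + ((B i).card - 1) := by
      intro i
      by_contra hcon
      exact hn (Or.inl ⟨i, not_le.1 hcon⟩)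
    have h3 : {i | 2 < 2 * Module.finrank ℂ (regularForms (M i)) + (B i).card} =
        {i | 0 < canDeg ℂ (M i) + (B i).card} := by
      ext i
      exact (hyp_iff (B i)).symm
    rw [h3]
    have h4 : ∀ i, 0 < canDeg ℂ (M i) + (B i).card → (bl M (fun _ => 1) G i).ncard ≠
        Module.finrank ℂ (regularForms (M i)) + ((B i).card - 1) :=
      fun i hi => hne i ((hyp_iff (B i)).1 hi)
    rcases hG with ⟨hS, hage⟩ | hS
    · exact abundanceL M hess htr hL hsup B G hperm hBG hS hage Bd hBd h1 h4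
    · have h5 : ¬ ∃ g ∈ G, g ≠ 1 ∧ ∃ i, (∀ z ∈ M i, g z ∈ M i) ∧
          ∀ l, l ≠ i → ∀ z ∈ M l, g z = z := fun h => hn (Or.inr ⟨hS, h⟩)
      exact abundanceL M hess htr hL hsup B G hperm hBG (stabL_TG hS)
        (fun g hg hg1 _ => age_of_stab M hess htr hL hsup B G hperm hS h5 g hg hg1) Bd hBd h1 h4

end

end Pool.Agent.H908.VA
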