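import Pool.Agent.H908.VA8

/-! Families of antisymmetric logarithmic forms, multiplied by functions with poles at the boundary. -/

set_option autoImplicit false
set_option linter.overlappingInstances false
set_option linter.unusedSectionVars false
set_option linter.unusedVariables false
set_option linter.style.haveILetI false

open FF IntermediateField Pool.Agent.W619.PQ Pool.Agent.W619.PL Pool.Agent.W619.TW
  Pool.Agent.W603.LV Pool.Agent.W619.Y Pool.Agent.W672.PG Pool.Agent.W824.PG Pool.Agent.Y174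
  Pool.Agent.K1H17.IS Pool.Agent.K1H6.PQ

namespace Pool.Agent.H908.VA

open Pool.Agent.H908.SB Pool.Agent.H908.TA Pool.Agent.H908.UC
open Pool.Agent.Helper11K9.OD (regularForms)
open Pool.Agent.Helper320.PCL (IsLogD bt)

section

variable {L : Type} [Field L] [Algebra ℂ L]

/-- A form which is regular at a place: the value on a logarithmic vector field vanishes. -/
theorem lg_log1 {w : Place ℂ L} {M : IntermediateField ℂ L} [IsFF ℂ M] {B : Finset (Place ℂ M)}
    {W f : M} (hW : IsTranscendenceBasis ℂ (fun _ : Fin 1 => W)) (h : LG M B W f)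
    {u : Place ℂ M} {c : ℕ} (hu : Over w u c) (hB : u ∉ B)
    (D : Derivation ℂ L L) (hD : ∀ z, w.Reg (D z / z)) : Ge w c (D (W : L) * (f : L)) := by
  by_cases hf : f = 0
  · left; rw [hf]; exact mul_zero _
  have hfL : (f : L) ≠ 0 := fun h0 => hf (Subtype.ext h0)
  by_cases hDW : D (W : L) = 0
  · left; rw [hDW, zero_mul]
  right
  rw [w.ord_mul hDW hfL]
  obtain ⟨E, hE⟩ := exists_dual1 hW
  have hE0 : E ≠ 0 := by
    rintro rfl
    exact zero_ne_one hE
  have hξ : u.ord (unif u) = 1 := ord_unif u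
  have hξ0 : unif u ≠ 0 := by
    intro h0
    rw [h0, u.ord_zero] at hξ
    exact zero_ne_one hξ
  obtain ⟨h3, h4⟩ := ord_der u hE0 (f := unif u) (by rw [hξ]; norm_num)
  have h1 := Pool.Agent.W308.PG.YLOC.expand (fun _ : Fin 1 => W) (fun _ : Fin 1 => E) hW
    (fun i j => by rw [Subsingleton.elim i j, if_pos rfl]; exact hE) D (unif u)
  rw [Finset.univ_unique, Finset.sum_singleton] at h1
  have h1' : D ((unif u : M) : L) = (E (unif u) : L) * D (W : L) := h1
  have hEL : ((E (unif u) : M) : L) ≠ 0 := fun h0 => h3 (Subtype.ext h0)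
  have hξL : ((unif u : M) : L) ≠ 0 := fun h0 => hξ0 (Subtype.ext h0)
  have hDξ : D ((unif u : M) : L) ≠ 0 := by
    rw [h1']
    exact mul_ne_zero hEL hDW
  have h2 := (hD ((unif u : M) : L)).resolve_left (div_ne_zero hDξ hξL)
  rw [w.ord_div hDξ hξL, h1', w.ord_mul hEL hDW] at h2
  have o1 : w.ord ((E (unif u) : M) : L) = c * u.ord (E (unif u)) := hu.2 _
  have o2 : w.ord ((unif u : M) : L) = c * u.ord (unif u) := hu.2 _
  have o3 : w.ord (f : L) = c * u.ord f := hu.2 _
  rw [o1, o2, h4, hξ] at h2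
  rw [o3]
  have h5 := (h E hE u).resolve_left hf
  have h6 : bt B u = 0 := by
    unfold bt
    rw [if_neg hB]
  rw [h6] at h5
  have hc : (0 : ℤ) < c := by exact_mod_cast hu.1
  have h7 : (c : ℤ) * (vo u E) ≤ c * u.ord f :=
    mul_le_mul_of_nonneg_left (by omega) hc.le
  nlinarith

variable {r : ℕ} {M : Fin r → IntermediateField ℂ L}
  {G : Subgroup (L ≃ₐ[ℂ] L)} {σ : G →* Equiv.Perm (Fin r)}

/-- **The values on logarithmic vector fields**, for forms which are regular on a factor. -/
theorem sdet_log1 [∀ i, IsFF ℂ (M i)] {w : Place ℂ L} {B : ∀ i, Finset (Place ℂ (M i))}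
    {W : ∀ i, M i} {C : ∀ i, Fin r → M i} (hW : ∀ i, IsTranscendenceBasis ℂ (fun _ : Fin 1 => W i))
    (hC : ∀ i c, LG (M i) (B i) (W i) (C i c)) {i0 : Fin r} {u : Place ℂ (M i0)} {e : ℕ}
    (hu : Over w u e) (hB : u ∉ B i0) (D : Fin r → Derivation ℂ L L)
    (hD : ∀ j z, w.Reg (D j z / z)) :
    Ge w e ((Matrix.of fun i j : Fin r => D i (W j : L)).det *
      (Matrix.of fun i c : Fin r => (C i c : L)).det) := by
  classical
  have h1 : (Matrix.of fun i c : Fin r => (C i c : L)).det =
      ∑ π : Equiv.Perm (Fin r), ((Equiv.Perm.sign π : ℤ) : L) * ∏ i, (C i (π i) : L) := by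
    rw [← Matrix.det_transpose, Matrix.det_apply']
    rfl
  rw [h1, Finset.mul_sum]
  refine Ge.sum _ _ fun π _ => ?_
  have h2 : (Matrix.of fun i j : Fin r => D i (W j : L)).det *
      (((Equiv.Perm.sign π : ℤ) : L) * ∏ i, (C i (π i) : L)) =
      ((Equiv.Perm.sign π : ℤ) : L) *
        (Matrix.of fun i j : Fin r => D i (W j : L) * (C j (π j) : L)).det := by
    have h3 := Matrix.det_mul_row (fun j => (C j (π j) : L))
      (Matrix.of fun i j : Fin r => D i (W j : L))
    have h4 : (Matrix.of fun i j : Fin r => D i (W j : L) * (C j (π j) : L)) =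
        Matrix.of fun i j => (C j (π j) : L) * (Matrix.of fun i j : Fin r => D i (W j : L)) i j := by
      ext i j
      rw [Matrix.of_apply, Matrix.of_apply, Matrix.of_apply, mul_comm]
    rw [h4, h3]
    ring
  rw [h2]
  -- the uniformizer
  have hξ : u.ord (unif u) = 1 := ord_unif u
  have hξ0 : unif u ≠ 0 := by
    intro h0
    rw [h0, u.ord_zero] at hξ
    exact zero_ne_one hξ
  obtain ⟨z, hz⟩ : ∃ z, z = ((unif u : M i0) : L) := ⟨_, rfl⟩
  have hz0 : z ≠ 0 := by rw [hz]; exact fun h0 => hξ0 (Subtype.ext h0)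
  have hzo : w.ord z = e := by
    rw [hz]
    have o2 : w.ord ((unif u : M i0) : L) = e * u.ord (unif u) := hu.2 _
    rw [o2, hξ, mul_one]
  have h5 : Ge w e (Matrix.of fun i j : Fin r => D i (W j : L) * (C j (π j) : L)).det := by
    have h6 := Matrix.det_mul_row (fun j => if j = i0 then z else 1)
      (Matrix.of fun i j : Fin r => D i (W j : L) * (C j (π j) : L) / (if j = i0 then z else 1))
    have h7 : (Matrix.of fun i j : Fin r => D i (W j : L) * (C j (π j) : L)) =
        Matrix.of fun i j => (if j = i0 then z else 1) * (Matrix.of fun i j : Fin r =>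
          D i (W j : L) * (C j (π j) : L) / (if j = i0 then z else 1)) i j := by
      ext i j
      rw [Matrix.of_apply, Matrix.of_apply, Matrix.of_apply]
      have h8 : (if j = i0 then z else 1) ≠ 0 := by
        split_ifs
        · exact hz0
        · exact one_ne_zero
      rw [mul_div_cancel₀ _ h8]
    rw [h7, h6]
    have h9 : ∏ j : Fin r, (if j = i0 then z else 1) = z := by
      rw [Finset.prod_ite_eq' Finset.univ i0 (fun _ => z), if_pos (Finset.mem_univ _)]
    rw [h9]
    have h10 : Ge w 0 (Matrix.of fun i j : Fin r =>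
        D i (W j : L) * (C j (π j) : L) / (if j = i0 then z else 1)).det := by
      refine Pool.Agent.W619.PQ.ge_det w _ fun i j => ?_
      rw [Matrix.of_apply]
      by_cases hj : j = i0
      · rw [if_pos hj]
        subst hj
        have h11 := lg_log1 (hW j) (hC j (π j)) hu hB (D i) (hD i)
        by_cases h0 : D i (W j : L) * (C j (π j) : L) = 0
        · left; rw [h0, zero_div]
        · right
          have h12 := h11.resolve_left h0
          rw [w.ord_div h0 hz0, hzo]
          omega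
      · rw [if_neg hj, _root_.div_one]
        exact (hC j (π j)).log (hW j) (D i) (hD i)
    have h11 : Ge w e z := Or.inr (by rw [hzo])
    have h12 := h11.mul h10
    rw [add_zero] at h12
    exact h12
  have h6 := ge_sign w (fun _ : Unit => Equiv.Perm.sign π)
  rw [Finset.prod_const, Finset.card_univ, Fintype.card_unit, pow_one] at h6
  simpa using h6.mul h5

/-- The form multiplied by a function of a factor. -/
theorem y_log [∀ i, IsFF ℂ (M i)] {w : Place ℂ L} {B : ∀ i, Finset (Place ℂ (M i))}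
    {W : ∀ i, M i} {C : ∀ i, Fin r → M i} (hW : ∀ i, IsTranscendenceBasis ℂ (fun _ : Fin 1 => W i))
    (hC : ∀ i c, LG (M i) (B i) (W i) (C i c)) {i0 : Fin r} (hB : B i0 = ∅) {y : M i0} {μ : ℕ}
    (hy : ∀ u : Place ℂ (M i0), Ge u (-(μ : ℤ)) y) (D : Fin r → Derivation ℂ L L)
    (hD : ∀ j z, w.Reg (D j z / z)) :
    Ge w 0 (((Matrix.of fun i j : Fin r => D i (W j : L)).det *
      (Matrix.of fun i c : Fin r => (C i c : L)).det) ^ μ * (y : L)) := by
  obtain ⟨S, hS⟩ : ∃ S, S = (Matrix.of fun i j : Fin r => D i (W j : L)).det *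
      (Matrix.of fun i c : Fin r => (C i c : L)).det := ⟨_, rfl⟩
  rw [← hS]
  by_cases hT : ∃ z : M i0, w.ord (algebraMap (M i0) L z) ≠ 0
  · obtain ⟨c, u, hu⟩ := exists_over (K := M i0) w hT
    have h1 := sdet_log1 hW hC hu (by rw [hB]; exact Finset.notMem_empty _) D hD
    rw [← hS] at h1
    rcases hy u with h2 | h2
    · left; rw [h2]; exact mul_zero _
    by_cases hy0 : (y : L) = 0
    · left; rw [hy0, mul_zero]
    rcases h1 with h1 | h1
    · rcases Nat.eq_zero_or_pos μ with hμ | hμ
      · right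
        rw [hμ, pow_zero, one_mul]
        have o3 : w.ord (y : L) = c * u.ord y := hu.2 _
        rw [o3]
        rw [hμ] at h2
        push_cast at h2
        have : (0 : ℤ) ≤ c := by positivity
        nlinarith
      · left
        rw [h1, zero_pow hμ.ne', zero_mul]
    · by_cases hS0 : S ^ μ = 0
      · left; rw [hS0, zero_mul]
      right
      rw [w.ord_mul hS0 hy0]
      have o3 : w.ord (y : L) = c * u.ord y := hu.2 _
      have o4 : w.ord (S ^ μ) = μ * w.ord S := w.ord_pow S μ
      rw [o3, o4]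
      have h3 : (μ : ℤ) * c ≤ μ * w.ord S := mul_le_mul_of_nonneg_left h1 (by positivity)
      have h4 : (c : ℤ) * (-(μ : ℤ)) ≤ c * u.ord y := mul_le_mul_of_nonneg_left h2 (by positivity)
      nlinarith
  · push Not at hT
    have h1 := sdet_log hW hC D hD
    rw [← hS] at h1
    have h2 : Ge w 0 (y : L) := Or.inr (hT y).ge
    have h3 := (ge_pow0 h1 μ).mul h2
    rwa [add_zero] at h3

/-- **Families of logarithmic forms**, multiplied by functions. -/
theorem kodL2 [Finite G] [∀ i, IsFF ℂ (M i)] (h : IsPermuted M (fun _ => 1) G σ) (W : ∀ i, M i)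
    {A : ℕ} (C : Fin (A + 1) → ∀ i, Fin r → M i)
    (hW : ∀ i, IsTranscendenceBasis ℂ (fun _ : Fin 1 => W i))
    (B : ∀ i, Finset (Place ℂ (M i))) (hCr : ∀ l i c, LG (M i) (B i) (W i) (C l i c))
    (hTI : ∀ g ∈ G, ∀ i j, TI M (fun _ => 1) g i j → g (W i : L) = W j ∧
      ∃ ε : ℂ, (ε = 1 ∨ ε = -1) ∧ ∀ l c, g (C l i c : L) = algebraMap ℂ L ε * C l j c)
    (hdet : ∀ l, (Matrix.of fun i c : Fin r => (C l i c : L)).det ≠ 0)
    (hh : Fin (A + 1) → L) (μ : ℕ) (hh0 : hh 0 = 1) (hh1 : ∀ l, hh l ≠ 0)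
    (hind : AlgebraicIndependent ℂ (fun l : Fin A =>
      (Matrix.of fun i c : Fin r => (C l.succ i c : L)).det /
        (Matrix.of fun i c : Fin r => (C 0 i c : L)).det * hh l.succ))
    (hreg : ∀ w : Place ℂ L, ¬ Bdy M B w → ∀ l, Ge w 0 (hh l))
    (hlog : ∀ (w : Place ℂ L) (D : Fin r → Derivation ℂ L L), (∀ j z, w.Reg (D j z / z)) →
      ∀ l, Ge w 0 (((Matrix.of fun i j : Fin r => D i (W j : L)).det *
        (Matrix.of fun i c : Fin r => (C 0 i c : L)).det) ^ μ * hh l))
    (hage : ∀ g : G, g ≠ 1 → (∃ w : Place ℂ L, IsDivisorial w r ∧ ¬ Bdy M B w ∧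
      Inert w (g : L ≃ₐ[ℂ] L)) → (∃ i j, TI M (fun _ => 1) (g : L ≃ₐ[ℂ] L) i j) ∨
      1 ≤ age M (fun _ => 1) (σ g) (fun _ _ => 0) (g : L ≃ₐ[ℂ] L))
    (Bd : Place ℂ (fixedField G) → Prop)
    (hBd : ∀ (v : Place ℂ (fixedField G)) (Q : Place ℂ L) (e : ℕ), Over Q v e →
      (Bd v ↔ Bdy M B Q)) :
    KodTrB ℂ (fixedField G) (∑ i : Fin r, (fun _ => 1 : Fin r → ℕ) i) Bd A := by
  classical
  obtain ⟨n, hn⟩ : ∃ n, n = ∑ i : Fin r, (fun _ => 1 : Fin r → ℕ) i := ⟨_, rfl⟩
  have hage : ∀ g : G, g ≠ 1 → (∃ w : Place ℂ L, IsDivisorial w n ∧ ¬ Bdy M B w ∧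
      Inert w (g : L ≃ₐ[ℂ] L)) → (∃ i j, TI M (fun _ => 1) (g : L ≃ₐ[ℂ] L) i j) ∨
      1 ≤ age M (fun _ => 1) (σ g) (fun _ _ => 0) (g : L ≃ₐ[ℂ] L) := by
    have hnr : n = r := by rw [hn]; simp
    rw [hnr]
    exact hage
  rw [← hn]
  have hnL : Algebra.trdeg ℂ L = n := by rw [hn]; exact h.total
  obtain ⟨τ⟩ : Nonempty ((Σ i : Fin r, Fin ((fun _ => 1 : Fin r → ℕ) i)) ≃ Fin n) := by
    rw [hn]; exact ⟨finSigmaFinEquiv⟩
  let y : ∀ i : Fin r, Fin ((fun _ => 1 : Fin r → ℕ) i) → M i := fun i _ => W i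
  have hy : ∀ i, IsTranscendenceBasis ℂ (y i) := hW
  let C' : Fin (A + 1) → ∀ i : Cur (fun _ => 1 : Fin r → ℕ), Cur (fun _ => 1 : Fin r → ℕ) → M i.1 :=
    fun l i c => C l i.1 c.1
  let f : ∀ i : Fin r, M i := fun _ => 1
  let eC : Cur (fun _ => 1 : Fin r → ℕ) ≃ Fin r := Equiv.subtypeUnivEquiv (fun _ => rfl)
  have hdet' : ∀ l, (Matrix.of fun i c : Cur (fun _ => 1 : Fin r → ℕ) => (C' l i c : L)).det =
      (Matrix.of fun i c : Fin r => (C l i c : L)).det := by
    intro l
    rw [← Matrix.det_submatrix_equiv_self eC]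
    rfl
  -- coordinates
  have halg : Algebra.IsAlgebraic ↥(⨆ i, M i) L := by
    rw [h.sup]
    exact ⟨fun z => isAlgebraic_algebraMap (⟨z, trivial⟩ : (⊤ : IntermediateField ℂ L))⟩
  have hbasis := basis_sigma (ι := fun i => Fin ((fun _ => 1 : Fin r → ℕ) i)) M halg h.total
    (fun i => (Fintype.card_fin _).trans rfl) y hy
  set Y : (Σ i : Fin r, Fin ((fun _ => 1 : Fin r → ℕ) i)) → L := fun p => (y p.1 p.2 : L) with hY
  have hbasis' : IsTranscendenceBasis ℂ (Y ∘ τ.symm) :=
    (isTranscendenceBasis_equiv (R := ℂ) (f := Y) τ.symm).2 hbasis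
  obtain ⟨D0, hD0⟩ := Pool.Agent.W636.PG.exists_duals ℂ L n (Y ∘ τ.symm) hbasis'
  have hdet1 : (Matrix.of fun i j => D0 (τ i) (Y j)).det = 1 := by
    have h1 : (Matrix.of fun i j => D0 (τ i) (Y j)) = 1 := by
      ext i j
      have h2 := hD0 (τ i) (τ j)
      rw [Function.comp_apply, τ.symm_apply_apply] at h2
      rw [Matrix.of_apply, Matrix.one_apply, h2]
      simp only [τ.injective.eq_iff]
    rw [h1, Matrix.det_one]
  have halgK := Pool.Agent.W721.PG.EFF2.alg_fixed G
  have hfin := fixed_finite G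
  have hessL := h.essL
  obtain ⟨hnK, z, hz⟩ := Pool.Agent.W721.PG.EFF2.exists_basis (fixedField G) n hnL
  have hessK : Algebra.EssFiniteType ℂ (fixedField G) := ess_down hessL z hz
  choose ext hext hext2 hext3 using Pool.Agent.Y174.pEXT ℂ (fixedField G) L n hnK
  -- the forms
  let c0 : Fin (A + 1) → L := fun l =>
    (Matrix.of fun i c : Cur (fun _ => 1 : Fin r → ℕ) => (C' l i c : L)).det ^ 1 *
      ∏ i, (f i : L)
  have hc0 : ∀ l, c0 l = (Matrix.of fun i c : Fin r => (C l i c : L)).det := by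
    intro l
    simp only [c0, hdet', pow_one]
    have h1 : ∏ i : Fin r, ((f i : M i) : L) = 1 := Finset.prod_eq_one fun i _ => rfl
    rw [h1, mul_one]
  let s : Fin (A + 1) → (Fin n → Derivation ℂ L L) → L := fun l D =>
    SF y 1 (C' l) f (fun i => D (τ i))
  have hs : ∀ l, IsPluriForm ℂ L n 1 (s l) := fun l => pluri_sigma τ Y 1 (c0 l)
  have hval : ∀ l, s l D0 = (Matrix.of fun i c : Fin r => (C l i c : L)).det := by
    intro l
    change (Matrix.of fun i j => D0 (τ i) (Y j)).det ^ 1 * c0 l = _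
    rw [hdet1, one_pow, one_mul, hc0]
  have hSdet : ∀ l (D : Fin n → Derivation ℂ L L), s l D =
      (Matrix.of fun i j : Fin r => D (τ ⟨i, (0 : Fin 1)⟩) (W j : L)).det *
      (Matrix.of fun i c : Fin r => (C l i c : L)).det := fun l D =>
    sdet W (C l) (fun i => D (τ i))
  let s' : Fin (A + 1) → (Fin n → Derivation ℂ L L) → L := fun l D => s l D * (s 0 D ^ μ * hh l)
  have hs' : ∀ l, IsPluriForm ℂ L n (μ + 1) (s' l) := by
    intro l X D
    change s l (fun i => ∑ j, X i j • D j) * (s 0 (fun i => ∑ j, X i j • D j) ^ μ * hh l) =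
      X.det ^ (μ + 1) * (s l D * (s 0 D ^ μ * hh l))
    rw [hs l X D, hs 0 X D]
    ring
  have hval' : ∀ l, s' l D0 = (Matrix.of fun i c : Fin r => (C l i c : L)).det *
      ((Matrix.of fun i c : Fin r => (C 0 i c : L)).det ^ μ * hh l) := by
    intro l
    change s l D0 * (s 0 D0 ^ μ * hh l) = _
    rw [hval, hval]
  refine desc4 (m := μ + 1) (by omega) hnL hessL G s' hs' D0 (fun l => by
      rw [hval']
      exact mul_ne_zero (hdet l) (mul_ne_zero (pow_ne_zero _ (hdet 0)) (hh1 l)))
    (by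
      have e1 : (fun l : Fin A => s' l.succ D0 / s' 0 D0) = fun l : Fin A =>
          (Matrix.of fun i c : Fin r => (C l.succ i c : L)).det /
            (Matrix.of fun i c : Fin r => (C 0 i c : L)).det * hh l.succ := by
        funext l
        rw [hval', hval', hh0]
        have h1 := hdet 0
        field_simp
      rw [e1]
      exact hind) Bd ?_ ?_
  · intro v hv hvB w e hwv hin D D' hD hD' l
    have hwB0 : ¬ Bdy M B w := fun h0 => hvB ((hBd v w e hwv).2 h0)
    suffices hall : ∀ l, Ge w 0 (s l D') by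
      have h1 := (hall l).mul ((ge_pow0 (hall 0) μ).mul (hreg w hwB0 l))
      simpa using h1
    clear l
    intro l
    have hD'e : D' = fun j => ext (D j) := funext fun j => hext2 _ _ (hD' j)
    subst hD'e
    subst hn
    have eS := hSdet l (fun j => ext (D j))
    change Ge w 0 (s l (fun j => ext (D j)))
    have hw := divisorial_up hwv hv
    have hwB : ¬ Bdy M B w := fun h0 => hvB ((hBd v w e hwv).2 h0)
    have hC' : ∀ (i : Cur (fun _ => 1 : Fin r → ℕ)) (c : Cur (fun _ => 1 : Fin r → ℕ)),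
        RegW w (M i.1) (y i.1) 1 (C' l i c) := fun i c =>
      (hCr l i.1 c.1).regW (hW i.1) fun u c hu hB => hwB ⟨i.1, u, hB, c, hu⟩
    have hregs : ∀ D : Fin (∑ i : Fin r, (fun _ => 1 : Fin r → ℕ) i) → Derivation ℂ L L,
        (∀ j, Pres w (D j)) → GeR w ((0 : ℤ) : ℝ) (s l D) := fun D hD =>
      Ge.toR (sf_regW h hw hy hC' (fun _ _ => rfl) (fun i hi => absurd rfl hi)
        (fun i => D (τ i)) (fun j => hD (τ j)))
    rcases Nat.lt_or_ge e 2 with he | he
    · have he1 : e = 1 := by have := hwv.1; omega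
      have h1 := ge_lift h.total hessL hnK hessK hwv hv (s l) (hs l) hregs D hD
        (fun j => ext (D j)) (fun j f => hext _ f)
      have h2 : GeR w ((0 : ℤ) : ℝ) (s l (fun j => ext (D j))) := by
        refine h1.mono ?_
        rw [he1]
        push_cast
        norm_num
      exact h2.toInt
    · obtain ⟨g, hgG, hg1, hord, hI⟩ := hin he
      rcases hage ⟨g, hgG⟩ (fun h0 => hg1 (congrArg Subtype.val h0)) ⟨w, hw, hwB, hI⟩ with
        ⟨i, j, hij⟩ | h1
      · have hord2 : orderOf g = 2 :=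
          orderOf_eq_prime (by ext z; exact hij.2 z) hg1
        have he2 : e = 2 := by rw [← hord]; exact hord2
        subst he2
        have hσ : σ ⟨g, hgG⟩ i = j := sigma_eq h ⟨g, hgG⟩ le_rfl hij.1.2.2.2.1
        have hσ' : σ ⟨g, hgG⟩ j = i := sigma_eq h ⟨g, hgG⟩ le_rfl hij.1.2.2.2.2.1
        obtain ⟨hgWi, ε, hε, hε1⟩ := hTI g hgG i j hij
        obtain ⟨hgWj, -⟩ := hTI g hgG j i (TI.symm hij)
        have hε2 : (algebraMap ℂ L ε) * algebraMap ℂ L ε = 1 := by
          rw [← map_mul]
          rcases hε with h | h <;> rw [h] <;> norm_num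
        have hgCj : ∀ c, g (C l j c : L) = algebraMap ℂ L ε * C l i c := by
          intro c
          have h1 := congrArg (fun z => algebraMap ℂ L ε * g z) (hε1 l c)
          simp only [map_mul, AlgEquiv.commutes] at h1
          rw [← mul_assoc, hε2, one_mul] at h1
          have h2 : g (g (C l i c : L)) = C l i c := hij.2 _
          rw [h2] at h1
          exact h1.symm
        have hσo : ∀ l, l ≠ i → l ≠ j → σ ⟨g, hgG⟩ l = l := by
          intro l hl1 hl2
          refine sigma_eq h ⟨g, hgG⟩ le_rfl fun z hz => ?_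
          change g z ∈ M l
          rw [hij.1.2.2.2.2.2 l hl1 hl2 z hz]
          exact hz
        -- the order is at least `-1`
        have hη1 : GeR w ((-1 : ℤ) : ℝ) (s l (fun j => ext (D j))) := by
          have h1 := ge_lift h.total hessL hnK hessK hwv hv (s l) (hs l) hregs D hD
            (fun j => ext (D j)) (fun j f => hext _ f)
          refine h1.mono ?_
          push_cast
          norm_num
        have hη2 : Ge w (-1) (s l (fun j => ext (D j))) := hη1.toInt
        -- the invariance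
        have hinvS : g (s l (fun j => ext (D j))) = s l (fun j => ext (D j)) := by
          rw [eS]
          refine sdet_inv (s := σ ⟨g, hgG⟩) (fun q => by
            by_cases hl1 : q = i
            · rw [hl1, hσ]; exact hgWi
            by_cases hl2 : q = j
            · rw [hl2, hσ']; exact hgWj
            rw [hσo q hl1 hl2]
            exact hij.1.2.2.2.2.2 q hl1 hl2 _ (W q).2)
            (δ := fun l => if l = i ∨ l = j then algebraMap ℂ L ε else 1) (fun q c => ?_) ?_ _
            (fun q z => ?_)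
          · by_cases hl1 : q = i
            · subst hl1
              rw [if_pos (Or.inl rfl), hσ]
              exact hε1 l c
            by_cases hl2 : q = j
            · subst hl2
              rw [if_pos (Or.inr rfl), hσ']
              exact hgCj c
            rw [if_neg (by tauto), hσo q hl1 hl2, one_mul]
            exact hij.1.2.2.2.2.2 q hl1 hl2 _ (C l q c).2
          · rw [Fintype.prod_eq_mul i j hij.1.1 (fun l hl => by
              rw [if_neg (by tauto)]), if_pos (Or.inl rfl), if_pos (Or.inr rfl), hε2]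
          · exact hext3 (D (τ ⟨q, (0 : Fin 1)⟩)) g (fun f => f.2 ⟨g, hgG⟩) z
        obtain ⟨Sv, hSv⟩ : ∃ Sv : L, Sv = s l (fun j => ext (D j)) := ⟨_, rfl⟩
        suffices hsuff : Ge w 0 Sv by rw [hSv] at hsuff; exact hsuff
        rw [← hSv] at hη2 hinvS
        by_cases h0 : Sv = 0
        · exact Or.inl h0
        right
        have h1 := hη2.resolve_left h0
        have hfing : IsOfFinOrder g := by
          rw [← orderOf_pos_iff, hord2]
          exact two_pos
        have h2 := dvd_ord hI hfing h0 hinvS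
        rw [hord2] at h2
        obtain ⟨c, hc⟩ := h2
        push_cast at hc
        omega
      · have hlog : LogGe (∑ i : Fin r, (fun _ => 1 : Fin r → ℕ) i) w (s l)
            (((1 : ℕ) : ℝ) * e) := by
          intro D hD hl
          have h2 := sf_ramW (μ := 1) h hw ⟨g, hgG⟩ hI h1 hy hC' (fun _ _ => rfl)
            (fun i hi => absurd rfl hi) (fun i => D (τ i)) (fun j => hD (τ j))
            (fun j => hl (τ j))
          change GeR w _ (SF y 1 (C' l) f (fun i => D (τ i)))
          rw [← hord]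
          exact h2
        have h2 := reg_of_log h.total hessL hw (s l) (hs l) hlog
        have h3 := ge_lift h.total hessL hnK hessK hwv hv (s l) (hs l) h2 D hD
          (fun j => ext (D j)) (fun j f => hext _ f)
        have h4 : GeR w ((0 : ℤ) : ℝ) (s l (fun j => ext (D j))) := by
          refine h3.mono ?_
          push_cast
          apply le_of_eq
          ring
        exact h4.toInt
  · intro v hv hvB w e hwv D D' hD hD' l
    have hD'e : D' = fun j => ext (D j) := funext fun j => hext2 _ _ (hD' j)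
    subst hD'e
    have eS := hSdet l (fun j => ext (D j))
    have eS0 := hSdet 0 (fun j => ext (D j))
    change Ge w 0 (s l (fun j => ext (D j)) * (s 0 (fun j => ext (D j)) ^ μ * hh l))
    rw [eS, eS0]
    have hDl : ∀ (j : Fin r) z, w.Reg (ext (D (τ ⟨j, (0 : Fin 1)⟩)) z / z) := by
      intro j z
      refine Pool.Agent.W619.Y.LogP.main Pool.Agent.W762.PG.main ℂ (fixedField G) L v w e hwv
        (ext (D (τ ⟨j, (0 : Fin 1)⟩))) (fun x => ?_) z
      rw [hext, ← map_div₀]
      exact hwv.reg.2 (hD _ x)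
    have h1 := (sdet_log hW (hCr l) (fun j => ext (D (τ ⟨j, (0 : Fin 1)⟩))) hDl).mul
      (hlog w (fun j => ext (D (τ ⟨j, (0 : Fin 1)⟩))) hDl l)
    rw [add_zero] at h1
    exact h1

end

end Pool.Agent.H908.VA
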