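import Pool.Agent.H908.VB1

/-! **Logarithmic abundance** for quotients of products of open curves, with curves with one
point at infinity. -/

set_option autoImplicit false
set_option linter.overlappingInstances false
set_option linter.unusedSectionVars false
set_option linter.unusedVariables false
set_option linter.style.haveILetI false

open FF IntermediateField Pool.Agent.W619.PQ Pool.Agent.W619.PL Pool.Agent.W619.TW
  Pool.Agent.W603.LV Pool.Agent.W619.Y Pool.Agent.W672.PG Pool.Agent.W824.PG Pool.Agent.Y174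
  Pool.Agent.K1H17.IS Pool.Agent.K1H6.PQ

namespace Pool.Agent.H908.VA

open Pool.Agent.H908.SB Pool.Agent.H908.TA Pool.Agent.H908.UC Pool.Agent.H908.UA
open Pool.Agent.Helper11K9.OD (regularForms)
open Pool.Agent.Helper11K9.PC (RR)
open Pool.Agent.Helper320.PCL (IsLogD bt)
open Pool.Agent.H908.UB (place_eq)

section

variable {L : Type} [Field L] [Algebra ℂ L]
variable {r : ℕ}

/-- A function with a single pole. -/
theorem exists_y {F : Type} [Field F] [Algebra ℂ F] [IsFF ℂ F] (p : Place ℂ F) :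
    ∃ y : F, Transcendental ℂ y ∧ (∀ u : Place ℂ F, u ≠ p → Ge u 0 y) ∧
      ∃ n : ℕ, ∀ u : Place ℂ F, Ge u (-(n : ℤ)) y := by
  classical
  obtain ⟨x, h1, h2⟩ := exists_unique_pole p
  refine ⟨x, ?_, fun u hu => Or.inr (h2 u hu), (-(p.ord x)).toNat, fun u => ?_⟩
  · exact p.transcendental_of_ord_ne h1.ne
  · by_cases hu : u = p
    · subst hu
      right
      have := Int.self_le_toNat (-(u.ord x))
      omega
    · right
      have := h2 u hu
      omega

/-- The genus of isomorphic curves. -/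
theorem genus_le {F F' : IntermediateField ℂ L} [IsFF ℂ F] [IsFF ℂ F']
    (htr : Algebra.trdeg ℂ F = (1 : ℕ)) (e : F ≃ₐ[ℂ] F') :
    Module.finrank ℂ (regularForms F) ≤ Module.finrank ℂ (regularForms F') := by
  classical
  obtain ⟨x, hx⟩ := Pool.Agent.W636.PG.exists_basis ℂ F 1 htr
  obtain ⟨W, hWx⟩ : ∃ W, W = x 0 := ⟨_, rfl⟩
  have hW : IsTranscendenceBasis ℂ (fun _ : Fin 1 => W) := by
    have h1 : (fun _ : Fin 1 => W) = x := by
      funext j
      rw [hWx, Subsingleton.elim j 0]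
    rw [h1]
    exact hx
  obtain ⟨E, hE⟩ := exists_dual1 hW
  have hE0 : E ≠ 0 := by
    rintro rfl
    exact zero_ne_one hE
  obtain ⟨f, hf1, hf2⟩ := exists_logs (∅ : Finset (Place ℂ F)) hE0
    (N := Module.finrank ℂ (regularForms F))
    ((Pool.Agent.Helper11K9.OD.forms_le hE0).trans (Nat.le_add_right _ _))
  have hW' : IsTranscendenceBasis ℂ (fun _ : Fin 1 => e W) := e.isTranscendenceBasis hW
  obtain ⟨E', hE'⟩ := exists_dual1 hW'
  have hE0' : E' ≠ 0 := by
    rintro rfl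
    exact zero_ne_one hE'
  have hfin : Module.Finite ℂ (RR E' hE0') := FF.finDim_LL _
  have hmem : ∀ n, e (f n) ∈ RR E' hE0' := by
    intro n
    have h1 : LG F ∅ W (f n) := by
      intro D hD
      have h2 : D = E := by rw [der_eq hW hE D, hD, one_smul]
      rw [h2]
      exact hf1 n
    have h2 := LG.push e h1 (B' := ∅) (fun p q hq _ => absurd hq (Finset.notMem_empty _)) E' hE'
    rw [Pool.Agent.Helper11K9.PC.mem_RR]
    by_cases h0 : e (f n) = 0
    · exact Or.inl h0
    · right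
      intro p
      have h3 := (h2 p).resolve_left h0
      have h4 : bt (∅ : Finset (Place ℂ F')) p = 0 := by
        unfold bt
        rw [if_neg (Finset.notMem_empty _)]
      rw [h4, sub_zero] at h3
      exact h3
  have hli : LinearIndependent ℂ (fun n => (⟨e (f n), hmem n⟩ : RR E' hE0')) := by
    have h1 : LinearIndependent ℂ (fun n => e (f n)) :=
      hf2.map' e.toLinearMap (LinearMap.ker_eq_bot.2 e.injective)
    exact LinearIndependent.of_comp (RR E' hE0').subtype h1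
  have h1 := hli.fintype_card_le_finrank
  rw [Fintype.card_fin] at h1
  exact h1.trans (rr_le hE0')

theorem bl_ncard_le {M : Fin r → IntermediateField ℂ L} {T : Subgroup (L ≃ₐ[ℂ] L)} [Finite T]
    {σ : T →* Equiv.Perm (Fin r)} (h : IsPermuted M (fun _ => 1) T σ) (g : T) (i : Fin r) :
    (bl M (fun _ => 1) T i).ncard ≤ (bl M (fun _ => 1) T (σ g i)).ncard := by
  have h1 : (σ g) '' (bl M (fun _ => 1) T i) ⊆ bl M (fun _ => 1) T (σ g i) := by
    rintro _ ⟨j, hj, rfl⟩
    rcases hj with rfl | ⟨g', hg', h1⟩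
    · exact Or.inl rfl
    · exact Or.inr ⟨(g : L ≃ₐ[ℂ] L) * g' * (g : L ≃ₐ[ℂ] L)⁻¹,
        T.mul_mem (T.mul_mem g.2 hg') (T.inv_mem g.2), TI.conjG h g h1⟩
  rw [← Set.ncard_image_of_injective _ (σ g).injective]
  exact Set.ncard_le_ncard h1 (Set.toFinite _)

/-- **Logarithmic abundance.** -/
theorem abundanceL2 (M : Fin r → IntermediateField ℂ L)
    (hess : ∀ i, Algebra.EssFiniteType ℂ (M i)) (htr : ∀ i, Algebra.trdeg ℂ (M i) = 1)
    (hL : Algebra.trdeg ℂ L = r) (hsup : (⨆ i, M i) = ⊤) (B : ∀ i, Finset (Place ℂ (M i)))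
    (G : Subgroup (L ≃ₐ[ℂ] L)) [Finite G] (hperm : ∀ g ∈ G, ∀ i, ∃ j, ∀ z ∈ M i, g z ∈ M j)
    (hBG : StableB M B G) (hS : StabL M B (TG M G))
    (hage : ∀ g ∈ G, g ≠ 1 → (∃ w : Place ℂ L, IsDivisorial w r ∧ ¬ Bdy M B w ∧ Inert w g) →
      (∃ i j, TI M (fun _ => 1) g i j) ∨ ∀ π : Equiv.Perm (Fin r),
        (∀ i, ∀ z ∈ M i, g z ∈ M (π i)) → 1 ≤ age M (fun _ => 1) π (fun _ _ => 0) g)
    (Bd : Place ℂ (fixedField G) → Prop)
    (hBd : ∀ v, Bd v ↔ ∃ (Q : Place ℂ L) (e : ℕ), Over Q v e ∧ Bdy M B Q)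
    (hc2 : ∀ i, (bl M (fun _ => 1) G i).ncard ≤
      Module.finrank ℂ (regularForms (M i)) + ((B i).card - 1))
    :
    KodGe ℂ (fixedField G) r Bd {i | 0 < canDeg ℂ (M i) + (B i).card ∧ ((B i).card = 1 ∨
      (bl M (fun _ => 1) G i).ncard ≠ Module.finrank ℂ (regularForms (M i)) +
        ((B i).card - 1))}.ncard ∧
      NumLe ℂ (fixedField G) r Bd {i | 0 < canDeg ℂ (M i) + (B i).card}.ncard := by
  classical
  haveI hff : ∀ i, IsFF ℂ (M i) := fun i => ⟨hess i, htr i⟩
  obtain ⟨σ', h'⟩ := exists_sigmaG M hess htr hL hsup G hperm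
  obtain ⟨T, hT⟩ : ∃ T, T = TG M G := ⟨_, rfl⟩
  have hTG : T ≤ G := by rw [hT]; exact TG_le M G
  haveI hfinT : Finite T := Finite.of_injective (Subgroup.inclusion hTG)
    (Subgroup.inclusion_injective hTG)
  obtain ⟨σ, h⟩ := exists_sigmaG M hess htr hL hsup T fun g hg i => hperm g (hTG hg) i
  have hBT : StableB M B T := fun g hg i j => hBG g (hTG hg) i j
  have hblT : ∀ i, bl M (fun _ => 1) T i = bl M (fun _ => 1) G i := fun i => by
    rw [hT]; exact bl_TG M G i
  rw [← hT] at hS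
  obtain ⟨n, hn⟩ : ∃ n : ℕ, n = ∑ i : Fin r, (fun _ => 1 : Fin r → ℕ) i := ⟨_, rfl⟩
  have hnr : n = r := by rw [hn]; simp
  obtain ⟨hnK, hessK⟩ := Pool.Agent.K1H97.PU.quot h'
  have hnK' : Algebra.trdeg ℂ (fixedField G) = r := by
    rw [hnK, ← hn, hnr]
  -- the boundary
  have hBd1 := bdy_iff h' hBG hBd
  have hb1 : ∀ i, 1 ≤ (bl M (fun _ => 1) G i).ncard := by
    intro i
    exact (Set.ncard_pos (Set.toFinite _)).2 ⟨i, Or.inl rfl⟩
  have hT2 : ∀ (g : T) i, ∀ z ∈ M (σ g i), (g : L ≃ₐ[ℂ] L).symm z ∈ M i := by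
    intro g i z hz
    have h1 := h.perm g⁻¹ (σ g i) z hz
    have h2 : σ g⁻¹ (σ g i) = i := by
      rw [map_inv, Equiv.Perm.inv_eq_iff_eq]
    rw [h2] at h1
    exact h1
  -- the condition
  have hσinv : ∀ (g : T) i, σ g⁻¹ (σ g i) = i := by
    intro g i
    rw [map_inv, Equiv.Perm.inv_eq_iff_eq]
  have hcardle : ∀ (g : T) i, (B (σ g i)).card ≤ (B i).card := by
    intro g i
    exact card_le B hBT (g := (g : L ≃ₐ[ℂ] L)) g.2 (h.perm g i) (hT2 g i)
  have hcardeq : ∀ (g : T) i, (B (σ g i)).card = (B i).card := by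
    intro g i
    refine le_antisymm (hcardle g i) ?_
    have h1 := hcardle g⁻¹ (σ g i)
    rwa [hσinv] at h1
  have hcan : ∀ (g : T) i, canDeg ℂ (M (σ g i)) = canDeg ℂ (M i) := fun g i =>
    (canDeg_equiv (resEquiv (g : L ≃ₐ[ℂ] L) (h.perm g i) (hT2 g i))).symm
  have hgenle : ∀ (g : T) i, Module.finrank ℂ (regularForms (M i)) ≤
      Module.finrank ℂ (regularForms (M (σ g i))) := fun g i =>
    genus_le (by rw [htr i, Nat.cast_one]) (resEquiv (g : L ≃ₐ[ℂ] L) (h.perm g i) (hT2 g i))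
  have hgen : ∀ (g : T) i, Module.finrank ℂ (regularForms (M (σ g i))) =
      Module.finrank ℂ (regularForms (M i)) := by
    intro g i
    refine le_antisymm ?_ (hgenle g i)
    have h1 := hgenle g⁻¹ (σ g i)
    rwa [hσinv] at h1
  have hbl : ∀ (g : T) i, (bl M (fun _ => 1) G (σ g i)).ncard =
      (bl M (fun _ => 1) G i).ncard := by
    intro g i
    rw [← hblT, ← hblT]
    refine le_antisymm ?_ (bl_ncard_le h g i)
    have h1 := bl_ncard_le h g⁻¹ (σ g i)
    rwa [hσinv] at h1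
  obtain ⟨P, hP⟩ : ∃ P : Fin r → Prop, ∀ i, P i ↔ (0 < canDeg ℂ (M i) + (B i).card ∧
      (bl M (fun _ => 1) G i).ncard ≠ Module.finrank ℂ (regularForms (M i)) + ((B i).card - 1)) :=
    ⟨_, fun i => Iff.rfl⟩
  obtain ⟨E, hE⟩ : ∃ E : Fin r → Prop, ∀ i, E i ↔ ((B i).card = 1 ∧
      0 < canDeg ℂ (M i) + (B i).card ∧ ¬ P i) := ⟨_, fun i => Iff.rfl⟩
  have hPiff : ∀ (g : T) i, P (σ g i) ↔ P i := by
    intro g i
    rw [hP, hP, hcan, hcardeq, hgen, hbl]
  have hEiff : ∀ (g : T) i, E (σ g i) ↔ E i := by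
    intro g i
    rw [hE, hE, hcan, hcardeq, hPiff]
  have hPlt : ∀ i, P i → (bl M (fun _ => 1) G i).ncard <
      Module.finrank ℂ (regularForms (M i)) + ((B i).card - 1) := fun i hi =>
    lt_of_le_of_ne (hc2 i) ((hP i).1 hi).2
  have hPσ : ∀ (g : T) i, P i → P (σ g i) := fun g i hi => (hPiff g i).2 hi
  have hEσ : ∀ (g : T) i, E (σ g i) → E i := fun g i hi => (hEiff g i).1 hi
  have hE1 : ∀ i, E i → (B i).card = 1 := fun i hi => ((hE i).1 hi).1
  have hPE : ∀ i, P i → ¬ E i := fun i hi hi' => ((hE i).1 hi').2.2 hi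
  have hset : {i | P i ∨ E i} = {i | 0 < canDeg ℂ (M i) + (B i).card ∧ ((B i).card = 1 ∨
      (bl M (fun _ => 1) G i).ncard ≠ Module.finrank ℂ (regularForms (M i)) +
        ((B i).card - 1))} := by
    ext i
    change (P i ∨ E i) ↔ (_ ∧ (_ ∨ _))
    rw [hE, hP]
    tauto
  -- the functions with poles at the boundary
  obtain ⟨B', hB'1, hB'2⟩ : ∃ B' : ∀ i, Finset (Place ℂ (M i)), (∀ i, E i → B' i = ∅) ∧
      ∀ i, ¬ E i → B' i = B i :=
    ⟨fun i => if E i then ∅ else B i, fun i hi => if_pos hi, fun i hi => if_neg hi⟩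
  have hB'B : ∀ i, B' i ⊆ B i := by
    intro i
    by_cases hi : E i
    · rw [hB'1 i hi]; exact Finset.empty_subset _
    · rw [hB'2 i hi]
  have hyex : ∀ i, ∃ y : M i, E i → Transcendental ℂ y ∧ (∀ u : Place ℂ (M i), u ∉ B i → Ge u 0 y) ∧
      ∃ n : ℕ, ∀ u : Place ℂ (M i), Ge u (-(n : ℤ)) y := by
    intro i
    by_cases hi : E i
    · obtain ⟨p, hp⟩ := Finset.card_eq_one.1 (hE1 i hi)
      obtain ⟨y, h1, h2, h3⟩ := exists_y p
      exact ⟨y, fun _ => ⟨h1, fun u hu => h2 u (fun h0 => hu (by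
        rw [hp, h0]; exact Finset.mem_singleton_self p)), h3⟩⟩
    · exact ⟨0, fun h0 => absurd h0 hi⟩
  choose y hy using hyex
  obtain ⟨μ, hμ⟩ : ∃ μ : ℕ, ∀ i, E i → ∀ u : Place ℂ (M i), Ge u (-(μ : ℤ)) (y i) := by
    have h1 : ∀ i, ∃ n : ℕ, E i → ∀ u : Place ℂ (M i), Ge u (-(n : ℤ)) (y i) := by
      intro i
      by_cases hi : E i
      · obtain ⟨-, -, n, hn⟩ := hy i hi
        exact ⟨n, fun _ => hn⟩
      · exact ⟨0, fun h0 => absurd h0 hi⟩
    choose n hn using h1
    refine ⟨∑ i, n i, fun i hi u => (hn i hi u).imp id fun h2 => ?_⟩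
    have h3 : n i ≤ ∑ i, n i := Finset.single_le_sum (fun i _ => Nat.zero_le (n i))
      (Finset.mem_univ i)
    have h4 : (n i : ℤ) ≤ ((∑ i, n i : ℕ) : ℤ) := by exact_mod_cast h3
    omega
  constructor
  · -- the lower bound
    let N : Fin r → ℕ := fun i => if P i then (bl M (fun _ => 1) T i).ncard + 1 else
      (bl M (fun _ => 1) T i).ncard
    have hNq : ∀ i, N i ≤ Module.finrank ℂ (regularForms (M i)) + ((B' i).card - 1) := by
      intro i
      simp only [N]
      rw [hblT]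
      split_ifs with hi
      · rw [hB'2 i (hPE i hi)]
        exact hPlt i hi
      · have h1 := hc2 i
        by_cases hi' : E i
        · rw [hE1 i hi'] at h1
          rw [hB'1 i hi', Finset.card_empty]
          exact h1
        · rw [hB'2 i hi']
          exact h1
    obtain ⟨W, F, rep, φ, F0, hW, hF, hgW, hgF, hrep, hrep2, hφ, hFφ, hind⟩ :=
      exists_equivF h N (fun i W => {f | LG (M i) (B' i) W f}) (fun i W => LG.zero)
      (fun g i W f W' f' hf hW' hf' => by
        have h1 := LG.push (resEquiv (g : L ≃ₐ[ℂ] L) (h.perm g i) (hT2 g i)) hf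
          (B' := B' (σ g i)) (fun p q hq hqp => by
            have hEi : ¬ E i := fun h0 => by
              rw [hB'1 i h0] at hq
              exact absurd hq (Finset.notMem_empty _)
            rw [hB'2 i hEi] at hq
            rw [hB'2 _ (fun h0 => hEi (hEσ g i h0))]
            obtain ⟨q', hq', hqe'⟩ := hBT (g⁻¹ : L ≃ₐ[ℂ] L) (T.inv_mem g.2) (σ g i) i
              (hT2 g i) q hq
            have h3 : p = q' := by
              refine place_eq (a := 1) (b := 1) one_pos one_pos fun z => ?_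
              rw [one_mul, one_mul]
              have h4 := hqe' z ⟨(g : L ≃ₐ[ℂ] L).symm z, hT2 g i z z.2⟩ rfl
              rw [h4, hqp]
              congr 1
              apply Subtype.ext
              change (z : L) = (g : L ≃ₐ[ℂ] L) ((g : L ≃ₐ[ℂ] L).symm z)
              rw [AlgEquiv.apply_symm_apply]
            rw [h3]
            exact hq')
        have h2 : W' = resEquiv (g : L ≃ₐ[ℂ] L) (h.perm g i) (hT2 g i) W := Subtype.ext hW'
        have h3 : f' = resEquiv (g : L ≃ₐ[ℂ] L) (h.perm g i) (hT2 g i) f := Subtype.ext hf'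
        rw [h2, h3]
        exact h1)
      (fun i => by
        obtain ⟨x, hx⟩ := Pool.Agent.W636.PG.exists_basis ℂ (M i) 1 (h.trdeg i)
        obtain ⟨E1, hE1⟩ := Pool.Agent.W636.PG.exists_duals ℂ (M i) 1 x hx
        have hE10 : E1 0 ≠ 0 := by
          intro h0
          have := hE1 0 0
          rw [h0, if_pos rfl] at this
          exact zero_ne_one this
        have hN1 : 1 ≤ Module.finrank ℂ (RR (E1 0) hE10) + ((B i).card - 1) :=
          ((hb1 i).trans (hc2 i)).trans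
            (Nat.add_le_add_right (Pool.Agent.Helper11K9.OD.forms_le hE10) _)
        obtain ⟨f1, hf1, hf1i⟩ := exists_logs (B i) hE10 hN1
        obtain ⟨W, hW, hW2⟩ := exists_WL h hS i hE10 (hf1 0) (hf1i.ne_zero 0)
        obtain ⟨E, hE⟩ := exists_dual1 hW
        have hE0 : E ≠ 0 := by
          rintro rfl
          exact zero_ne_one hE
        obtain ⟨F, hF1, hF2⟩ := exists_logs (B' i) hE0 (N := N i)
          ((hNq i).trans (Nat.add_le_add_right (Pool.Agent.Helper11K9.OD.forms_le hE0) _))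
        refine ⟨W, hW, ⟨F, fun n D hD => ?_, hF2⟩, fun g hg hgi => by
          obtain ⟨h3, ε, hε, h4⟩ := hW2 g hg hgi
          exact ⟨h3, ε, hε, fun f hf => h4 f (lg_mono (hB'B i) hf)⟩⟩
        have h2 : D = E := by rw [der_eq hW hE D, hD, one_smul]
        rw [h2]
        exact hF1 n)
    have h1 := kod_core2 h h' (fun g hg i j hij => by rw [hT]; exact mem_TG hg hij)
      W F rep φ F0 B B' hB'B P E hB'1 y μ (fun i hi => (hy i hi).1) (fun i hi => (hy i hi).2.1)
      hμ hPE hPσ hW hF hgW hgF hrep hrep2 hφ hFφ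
      (fun i => by
        have h2 := hind i
        convert h2)
      (fun g hg1 hw => by
        rcases hage g g.2 (fun h0 => hg1 (Subtype.ext h0)) hw with h2 | h2
        · exact Or.inl h2
        · exact Or.inr (h2 (σ' g) (h'.perm g))) Bd hBd1
    rw [← hn, hnr, hset] at h1
    exact Pool.Agent.W327.PG.TRGE3.main ℂ (fixedField G) r _ Bd hnK' h1
  · -- the upper bound
    have hfin := fixed_finite G
    have hess0 := Q36.PT.ess_bot ℂ L
    have h1 := Q36.GV.num_domV (k := ℂ) (L := fixedField G) (M := L) (d := 0) (n := r)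
      (⊥ : IntermediateField ℂ L) M (Q36.PT.trdeg_bot ℂ L) (by rw [hL, zero_add])
      (by rw [bot_sup_eq, hsup]) (fun _ => False) B (fun i => (deg_facts (B i)).1
        ((hb1 i).trans (hc2 i))) Bd (fun w v e _ hwv hv => by
          obtain ⟨i, p, hp, e', he'⟩ := (hBd1 v w e hwv).1 hv
          exact Or.inr ⟨i, p, e', he', hp⟩) (Q36.PT.numLe_bot ℂ L)
    rw [zero_add, zero_add] at h1
    have h2 : {i | 0 < canDeg ℂ (M i) + ((B i).card : ℤ)}.ncard =
        (Finset.univ.filter fun i => 0 < canDeg ℂ (M i) + ((B i).card : ℤ)).card := by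
      rw [← Set.ncard_coe_finset]
      congr 1
      ext i
      simp
    rw [h2]
    convert h1

end

end Pool.Agent.H908.VA
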