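import Pool.Agent.H908.SE6

/-! The Kuenneth decomposition of the sections on a product of two varieties, with boundary. -/

set_option autoImplicit false
set_option linter.overlappingInstances false
set_option linter.unusedSectionVars false
set_option linter.unusedVariables false

open FF IntermediateField Pool.Agent.W619.PQ Pool.Agent.W619.PL Pool.Agent.W619.TW
  Pool.Agent.W603.LV Pool.Agent.W619.Y Pool.Agent.W672.PG Pool.Agent.W824.PG Pool.Agent.Y174
  Pool.Agent.K1H17.IS Pool.Agent.K1H6.PQ Pool.Agent.W460.PG.ONE Pool.Agent.W735.PG.DESCJ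

namespace Pool.Agent.H908.WA

open Pool.Agent.H908.SB (PF pf_pluri pf_eval)
open Pool.Agent.H908.SE

section

variable {k : Type} {K : Type} [Field k] [CharZero k] [Field K] [Algebra k K]

theorem mem_vvB {Bd : Place k K → Prop} {n : ℕ} {S : Finset K} {m j : ℕ} {y : Fin n → K} {f : K} :
    f ∈ VV k Bd S m j y ↔ IsSec k K n Bd S m j (PF y m f) := by
  have e : PF (k := k) y m f = fun D : Fin n → Derivation k K K =>
      f * (Matrix.of fun a b => D a (y b)).det ^ m := by
    funext D
    exact mul_comm _ _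
  rw [e]
  rfl

/-- Pull-back of the spaces of sections. -/
theorem vv_mapB {L : Type} [Field L] [Algebra k L] [Algebra K L] [IsScalarTower k K L]
    [FiniteDimensional K L] [dec : DecidableEq L] (hess : Algebra.EssFiniteType k K) {n : ℕ}
    (hn : Algebra.trdeg k K = n) {Bd : Place k K → Prop} {S : Finset K} {m j : ℕ} {y : Fin n → K}
    (hy : IsTranscendenceBasis k y) {f : K} (h : f ∈ VV k Bd S m j y) :
    algebraMap K L f ∈ VV k (BdUp (L := L) Bd) (S.image (algebraMap K L)) m j
      (fun q => algebraMap K L (y q)) := by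
  have hdec : dec = Classical.decEq L := Subsingleton.elim _ _
  subst hdec
  obtain ⟨E, hE⟩ := Pool.Agent.W636.PG.exists_duals k K n y hy
  rw [mem_vvB] at h ⊢
  have h1 := Pool.Agent.Y174.pPULL k K L n hn (fun y hy => fin_adj hess y hy) Bd S m j
    y E hy hE _ h
  rw [pf_eval hE] at h1
  exact h1

end

section

variable {k : Type} {L : Type} [Field k] [CharZero k] [IsAlgClosed k] [Field L] [Algebra k L]
  {M F : IntermediateField k L} {a b : ℕ} {y : Fin a → M} {x : Fin b → F}
  {E : Fin (a + b) → Derivation k L L}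

/-- logarithmic vector fields at the extension of a place -/
theorem UU_log (h : Dj M F) (u : Place k M) (D : Derivation k L L)
    (hM : ∀ μ : M, ∃ μ' : M, D (μ : L) = (μ' : L) ∧ u.Reg (μ' / μ))
    (hF : ∀ β : F, ∃ β' : F, D (β : L) = (β' : L)) (z : L) : (UU h u).Reg (D z / z) := by
  have hp : Pres (UU h u) D := by
    refine UU_pres h u D (fun μ hμ => ?_) hF
    obtain ⟨μ', h1, h2⟩ := hM μ
    refine ⟨μ', h1, ?_⟩
    by_cases h0 : μ = 0
    · subst h0
      have h3 : (μ' : L) = 0 := by
        rw [← h1]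
        change D 0 = 0
        exact map_zero D
      left
      exact Subtype.ext h3
    · have h3 : μ' = μ * (μ' / μ) := by field_simp
      rw [h3]
      exact u.reg_mul hμ h2
  obtain ⟨t, ht0, ht⟩ := u.surj
  have htL : (t : L) ≠ 0 := fun h0 => ht0 (Subtype.ext h0)
  have ht1 : (UU h u).ord (t : L) = 1 := by rw [UU_M, ht]
  refine log_of_pres (UU h u) D hp htL ht1 ?_ z
  obtain ⟨μ', h1, h2⟩ := hM t
  rw [h1]
  have h3 : (μ' : L) / (t : L) = ((μ' / t : M) : L) := rfl
  rw [h3]
  rcases h2 with h2 | h2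
  · left
    rw [h2]
    rfl
  · right
    rw [UU_M]
    exact h2

theorem descJB (h : Dj M F) (hM : Algebra.trdeg k M = a)
    (hy : IsTranscendenceBasis k y) (hx : IsTranscendenceBasis k x)
    (hE : ∀ i j, E i (app y x j) = if i = j then 1 else 0) {Bd : Place k L → Prop}
    {BM : Place k M → Prop} (hB : ∀ u, Bd (UU h u) ↔ BM u) (S : Finset L) (b0 : L)
    (hb0 : b0 ≠ 0) : ∃ S' : Finset M, ∀ (m j : ℕ)
      (ω : (Fin (a + b) → Derivation k L L) → L), IsSec k L (a + b) Bd S m j ω →
      ∀ (r : ℕ) (β : Fin r → F) (μ : Fin r → M), LinearIndependent k β →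
        b0 ^ j * ω E = ∑ i, (β i : L) * (μ i : L) →
        ∀ i, IsSec k M a BM S' m j
          (fun D => μ i * (Matrix.of fun a b => D a (y b)).det ^ m) := by
  classical
  have hT : ∀ s : L, s ≠ 0 → ∃ T : Finset M, ∀ (u : Place k M) (U : Place k L),
      (∀ μ : M, U.ord (μ : L) = u.ord μ) → (∀ β : F, U.ord (β : L) = 0) →
      (∀ (r : ℕ) (β : Fin r → F) (μ : Fin r → M) (c : ℤ), LinearIndependent k β →
        Ge U c (∑ i, (β i : L) * (μ i : L)) → ∀ i, Ge u c (μ i)) →
      ∃ s' ∈ T, s' ≠ 0 ∧ u.ord s' ≤ U.ord (b0 * s) :=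
    fun s hs => exists_low h.sup (mul_ne_zero hb0 hs)
  choose! T hT using hT
  refine ⟨S.biUnion T, ?_⟩
  intro m j ω hω r β μ hβ hsum i
  -- the two cases together
  have key : ∀ (u : Place k M), IsDivisorial u a → ∀ D : Fin a → Derivation k M M,
      (∀ D' : Fin (a + b) → Derivation k L L,
        (∀ l (z : M), D' (Fin.castAdd b l) (z : L) = ((D l z : M) : L)) →
        (∀ l (z : F), D' (Fin.castAdd b l) (z : L) = 0) →
        (∀ l (z : M), D' (Fin.natAdd a l) (z : L) = 0) →
        (∀ l (z : F), ∃ z' : F, D' (Fin.natAdd a l) (z : L) = (z' : L)) →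
        Dom (UU h u) S j (ω D')) →
      Dom u (S.biUnion T) j (μ i * (Matrix.of fun a b => D a (y b)).det ^ m) := by
    intro u hu D hD
    have hU1 := UU_M h u
    have hU2 := UU_F h u
    have hU3 := fun r β μ c => UU_fam h u r β μ c
    -- the derivations of `L`
    let D' : Fin (a + b) → Derivation k L L := fun i =>
      Fin.addCases (motive := fun _ => Derivation k L L)
        (fun l : Fin a => ∑ c, ((D l (y c) : M) : L) • E (Fin.castAdd b c))
        (fun l : Fin b => E (Fin.natAdd a l)) i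
    let P : Matrix (Fin a) (Fin a) L := Matrix.of fun l c => ((D l (y c) : M) : L)
    let A : Matrix (Fin (a + b)) (Fin (a + b)) L :=
      Matrix.reindex finSumFinEquiv finSumFinEquiv (Matrix.fromBlocks P 0 0 1)
    have hA11 : ∀ i j, A (Fin.castAdd b i) (Fin.castAdd b j) = ((D i (y j) : M) : L) := by
      intro i j
      simp [A, P]
    have hA12 : ∀ i j, A (Fin.castAdd b i) (Fin.natAdd a j) = 0 := by
      intro i j
      simp [A]
    have hA21 : ∀ i j, A (Fin.natAdd a i) (Fin.castAdd b j) = 0 := by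
      intro i j
      simp [A]
    have hA22 : ∀ i j, A (Fin.natAdd a i) (Fin.natAdd a j) = if i = j then 1 else 0 := by
      intro i j
      simp [A, Matrix.one_apply]
    have hA : (fun a => ∑ c, A a c • E c) = D' := by
      funext i
      refine Fin.addCases (fun l => ?_) (fun l => ?_) i
      · rw [Fin.sum_univ_add]
        simp only [hA11, hA12, zero_smul, Finset.sum_const_zero, add_zero]
        simp [D']
      · rw [Fin.sum_univ_add]
        simp only [hA21, hA22, zero_smul, Finset.sum_const_zero, zero_add, ite_smul, one_smul]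
        simp [D']
    have hdet : A.det = (((Matrix.of fun a b => D a (y b)).det : M) : L) := by
      have h5 : A.det = P.det * (1 : Matrix (Fin b) (Fin b) L).det := det_blk P 1
      rw [h5, Matrix.det_one, mul_one]
      have h6 := (algebraMap M L).map_det (Matrix.of fun a b => D a (y b))
      have h7 : P = (algebraMap M L).mapMatrix (Matrix.of fun a b => D a (y b)) := by
        ext a b
        rfl
      rw [h7, ← h6]
      rfl
    have hωD : ω D' = (((Matrix.of fun a b => D a (y b)).det : M) : L) ^ m * ω E := by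
      rw [← hdet, ← hω.1 A E, hA]
    have hD'1 : ∀ l, D' (Fin.castAdd b l) = ∑ c, ((D l (y c) : M) : L) • E (Fin.castAdd b c) := by
      intro l
      simp [D']
    have hD'2 : ∀ l, D' (Fin.natAdd a l) = E (Fin.natAdd a l) := by
      intro l
      simp [D']
    have hyM : ∀ (l : Fin a) (z : M), D' (Fin.castAdd b l) (z : L) = ((D l z : M) : L) := by
      intro l z
      refine der_comp (K := M) (L := L) (D l) (D' (Fin.castAdd b l)) y hy (fun c => ?_) z
      rw [hD'1]
      show (∑ b', ((D l (y b') : M) : L) • E (Fin.castAdd b b')) ((y c : M) : L) =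
        ((D l (y c) : M) : L)
      rw [Pool.Agent.W735.PG.DESCJ.der_sum]
      simp only [dual_left_M hE]
      simp
    obtain ⟨E2, hE2⟩ := Pool.Agent.W636.PG.exists_duals k F b x hx
    have hdom := hD D' hyM (fun l z => by rw [hD'1, Pool.Agent.W735.PG.DESCJ.der_sum]; simp [dual_left_F hE hx])
      (fun l z => by rw [hD'2, dual_right_M hE hy]) (fun l z => ⟨E2 l z, by
        rw [hD'2]
        refine der_comp (K := F) (L := L) (E2 l) (E (Fin.natAdd a l)) x hx (fun c => ?_) z
        change E (Fin.natAdd a l) (x c : L) = ((E2 l (x c) : F) : L)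
        rw [dual_right_F hE, hE2]
        split_ifs <;> rfl⟩)
    set U := UU h u with hU
    -- multiply by `b0 ^ j`
    set δ : M := (Matrix.of fun a b => D a (y b)).det with hδ
    have hexp : b0 ^ j * ω D' = ∑ i, (β i : L) * ((μ i * δ ^ m : M) : L) := by
      rw [hωD]
      calc b0 ^ j * ((δ : L) ^ m * ω E) = (δ : L) ^ m * (b0 ^ j * ω E) := by ring
        _ = _ := by
          rw [hsum, Finset.mul_sum]
          refine Finset.sum_congr rfl fun i _ => ?_
          push_cast; ring
    rcases hdom with h0 | ⟨s, hs, hs0, hsU⟩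
    · left
      by_contra hne
      have h9 := hU3 r β (fun i => μ i * δ ^ m) (u.ord (μ i * δ ^ m) + 1) hβ
        (by rw [← hexp, h0, mul_zero]; exact Ge.zero) i
      have := h9.resolve_left hne
      omega
    · obtain ⟨s', hs', hs'0, hle⟩ := hT s hs0 u U hU1 hU2 hU3
      have h9 : Ge U ((j : ℤ) * u.ord s') (b0 ^ j * ω D') := by
        have h10 : Ge U ((j : ℤ) * U.ord s) (ω D') := Or.inr hsU
        have h11 : Ge U ((j : ℤ) * U.ord b0) (b0 ^ j) := Or.inr (by rw [U.ord_pow])
        refine (h11.mul h10).mono ?_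
        rw [U.ord_mul hb0 hs0] at hle
        rw [← mul_add]
        exact mul_le_mul_of_nonneg_left hle (by positivity)
      rw [hexp] at h9
      rcases hU3 r β (fun i => μ i * δ ^ m) _ hβ h9 i with h12 | h12
      · left; exact h12
      · right
        exact ⟨s', Finset.mem_biUnion.2 ⟨s, hs, hs'⟩, hs'0, h12⟩
  refine ⟨?_, ?_, ?_⟩
  · intro A D
    have h2 : (Matrix.of fun a b => (∑ c, A a c • D c) (y b)) =
        A * Matrix.of fun a b => D a (y b) := by
      ext a b
      rw [Matrix.of_apply, Matrix.mul_apply]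
      simp only [Matrix.of_apply]
      congr 1
      exact Pool.Agent.W735.PG.DESCJ.der_sum (L := M) _ _ _ _
    show μ i * (Matrix.of fun a b => (∑ c, A a c • D c) (y b)).det ^ m = _
    rw [h2, Matrix.det_mul]
    ring
  · intro u hu hBu D hD
    refine key u hu D fun D' h1 h2 h3 h4 => ?_
    refine hω.2.1 _ (UU_div' h u a b hM x hx.1 hu) (fun h => hBu ((hB u).1 h)) D' ?_
    intro i
    refine Fin.addCases (fun l => ?_) (fun l => ?_) i
    · exact UU_pres h u _ (fun z hz => ⟨D l z, h1 l z, hD l z hz⟩)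
        (fun β => ⟨0, by rw [h2]; rfl⟩)
    · exact UU_pres h u _ (fun z _ => ⟨0, by rw [h3]; rfl, u.reg_zero⟩) (h4 l)
  · intro u hu hBu D hD
    refine key u hu D fun D' h1 h2 h3 h4 => ?_
    refine hω.2.2 _ (UU_div' h u a b hM x hx.1 hu) ((hB u).2 hBu) D' ?_
    intro i
    refine Fin.addCases (fun l => ?_) (fun l => ?_) i
    · exact UU_log h u _ (fun z => ⟨D l z, h1 l z, hD l z⟩) (fun β => ⟨0, by rw [h2]; rfl⟩)
    · exact UU_log h u _ (fun z => ⟨0, by rw [h3]; rfl, by rw [zero_div]; exact u.reg_zero⟩) (h4 l)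

/-- The coefficients of the sections belong, up to a denominator, to the ring generated by `M` and
`F`. -/
theorem sec_RRB (h : Dj M F) (halg : Algebra.trdeg k L = (a + b : ℕ))
    (hM : Algebra.trdeg k M = a) (hF : Algebra.trdeg k F = b)
    (hess : Algebra.EssFiniteType k L) (hy : IsTranscendenceBasis k y)
    (hx : IsTranscendenceBasis k x) (hE : ∀ i j, E i (app y x j) = if i = j then 1 else 0)
    {Bd : Place k L → Prop}
    (hB : ∀ w, (∀ z : M, w.ord (z : L) = 0) → (∀ z : F, w.ord (z : L) = 0) → ¬ Bd w)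
    (S : Finset L) : ∃ b0 : L, b0 ≠ 0 ∧ ∀ (m j : ℕ) (ω : (Fin (a + b) → Derivation k L L) → L),
      IsSec k L (a + b) Bd S m j ω → b0 ^ j * ω E ∈ RR M F := by
  obtain ⟨b0, hb0, hbS⟩ := exists_den h S
  refine ⟨b0, hb0, fun m j ω hω => ?_⟩
  refine mem_RR_of_reg h halg hM hF hess _ fun w hwM hwF hwd hwP => ?_
  have h1 := hω.2.1 w hwd (hB w hwM hwF) E fun l f hf =>
    hwP (E l) (frame_M hE hy l) (frame_F hE hx l) f hf
  rcases h1 with h0 | ⟨s, hs, hs0, hsw⟩
  · left
    rw [h0, mul_zero]
  · by_cases hω0 : ω E = 0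
    · left
      rw [hω0, mul_zero]
    right
    rw [w.ord_mul (pow_ne_zero _ hb0) hω0, w.ord_pow]
    have h2 := (reg_RR w hwM hwF (hbS s hs)).resolve_left (mul_ne_zero hb0 hs0)
    rw [w.ord_mul hb0 hs0] at h2
    have h3 : (0 : ℤ) ≤ (j : ℤ) * (w.ord b0 + w.ord s) :=
      mul_nonneg (Int.natCast_nonneg _) h2
    rw [mul_add] at h3
    omega

/-- Two factors. -/
theorem two_expandB (h : Dj M F)
    (halg : Algebra.trdeg k L = (a + b : ℕ))
    (hM : Algebra.trdeg k M = a) (hF : Algebra.trdeg k F = b)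
    (hess : Algebra.EssFiniteType k L)
    (hy : IsTranscendenceBasis k y) (hx : IsTranscendenceBasis k x)
    (hE : ∀ i j, E i (app y x j) = if i = j then 1 else 0)
    {Bd : Place k L → Prop} {BM : Place k M → Prop} {BF : Place k F → Prop}
    (hB : ∀ w, (∀ z : M, w.ord (z : L) = 0) → (∀ z : F, w.ord (z : L) = 0) → ¬ Bd w)
    (hBM : ∀ u, Bd (UU h u) ↔ BM u) (hBF : ∀ u, Bd (UU h.symm u) ↔ BF u)
    (S : Finset L) :
    ∃ (b0 : L) (S1 : Finset M) (S2 : Finset F), b0 ≠ 0 ∧
      ∀ (m j : ℕ) (ω : (Fin (a + b) → Derivation k L L) → L),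
        IsSec k L (a + b) Bd S m j ω → ∃ (R : ℕ) (p : Fin R → M) (q : Fin R → F),
          (∀ l, p l ∈ VV k BM S1 m j y) ∧
          (∀ l, q l ∈ VV k BF S2 m j x) ∧
          b0 ^ j * ω E = ∑ l, ((p l : M) : L) * ((q l : F) : L) := by
  classical
  obtain ⟨b0, hb0, hRR⟩ := sec_RRB h halg hM hF hess hy hx hE hB S
  obtain ⟨S1, hS1⟩ := descJB h hM hy hx hE hBM S b0 hb0
  obtain ⟨S2, hS2⟩ := descJB h.symm hF hx hy (dual_flip hE) hBF S b0 hb0
  refine ⟨b0, S1, S2, hb0, fun m j ω hω => ?_⟩
  obtain ⟨r, β, p, hβ, hz⟩ := Pool.Agent.W735.PG.DESCJ.expandFin (RR_comm (hRR m j ω hω))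
  have hp := hS1 m j ω hω r β p hβ hz
  let V0 : Submodule k M := Submodule.span k (Set.range p)
  have hV0 : FiniteDimensional k V0 := FiniteDimensional.span_of_finite k (Set.finite_range p)
  have hV0le : V0 ≤ VV k BM S1 m j y := Submodule.span_le.2 (by
    rintro _ ⟨i, rfl⟩
    exact hp i)
  have hpV0 : ∀ i, p i ∈ V0 := fun i => Submodule.subset_span ⟨i, rfl⟩
  let e := Module.finBasis k V0
  let β' : Fin (Module.finrank k V0) → F := fun l => ∑ i, (e.repr ⟨p i, hpV0 i⟩ l) • β i
  have hpi : ∀ i, ((p i : M) : L) = ∑ l, (e.repr ⟨p i, hpV0 i⟩ l) • (((e l : V0) : M) : L) := by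
    intro i
    have h3 := congrArg (fun z : V0 => ((z : M) : L)) (e.sum_repr ⟨p i, hpV0 i⟩)
    change (((∑ l, e.repr ⟨p i, hpV0 i⟩ l • e l : V0) : M) : L) = ((p i : M) : L) at h3
    rw [← h3, AddSubmonoidClass.coe_finsetSum, AddSubmonoidClass.coe_finsetSum]
    rfl
  have hz' : b0 ^ j * ω E = ∑ l, (((e l : V0) : M) : L) * ((β' l : F) : L) := by
    rw [hz]
    have h4 : ∀ l, ((β' l : F) : L) = ∑ i, (e.repr ⟨p i, hpV0 i⟩ l) • ((β i : F) : L) := by
      intro l
      rw [AddSubmonoidClass.coe_finsetSum]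
      rfl
    simp only [h4, hpi, Finset.mul_sum]
    rw [Finset.sum_comm]
    refine Finset.sum_congr rfl fun l _ => Finset.sum_congr rfl fun i _ => ?_
    rw [mul_smul_comm, mul_smul_comm, mul_comm]
  have hq := hS2 m j _ (sec_flip hω) _ (fun l => ((e l : V0) : M)) β'
    (e.linearIndependent.map' V0.subtype (Submodule.ker_subtype V0)) (by
      rw [← hz']
      simp only [Pool.Agent.K1H17.IS.flip_flip])
  exact ⟨_, fun l => ((e l : V0) : M), β', fun l => hV0le (e l).2, hq, hz'⟩

end

end Pool.Agent.H908.WA
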