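import Pool.Agent.H908.WA1

/-! The Kuenneth decomposition of the sections on a product of several varieties, with boundary. -/

set_option autoImplicit false
set_option linter.overlappingInstances false
set_option linter.unusedSectionVars false
set_option linter.unusedVariables false

open FF IntermediateField Pool.Agent.W619.PQ Pool.Agent.W619.PL Pool.Agent.W619.TW
  Pool.Agent.W603.LV Pool.Agent.W619.Y Pool.Agent.W672.PG Pool.Agent.W824.PG Pool.Agent.Y174
  Pool.Agent.K1H17.IS Pool.Agent.K1H6.PQ Pool.Agent.W460.PG.ONE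

namespace Pool.Agent.H908.WA

open Pool.Agent.H908.SB (PF pf_pluri pf_eval)
open Pool.Agent.H908.SE

section

variable {k : Type} {K : Type} {K' : Type} [Field k] [CharZero k] [Field K] [Algebra k K] [Field K']
  [Algebra k K']

/-- transport of places -/
noncomputable def trP (s : K ≃ₐ[k] K') (w : Place k K') : Place k K where
  ord f := w.ord (s f)
  ord_zero := by rw [map_zero, w.ord_zero]
  ord_mul := by
    intro f g hf hg
    rw [map_mul, w.ord_mul (by simpa using hf) (by simpa using hg)]
  ord_add := by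
    intro f g hf hg hfg
    rw [map_add]
    exact w.ord_add (by simpa using hf) (by simpa using hg)
      (by rw [← map_add]; exact (map_ne_zero_iff _ s.injective).2 hfg)
  ord_const := by intro c hc; rw [AlgEquiv.commutes, w.ord_const hc]
  surj := by
    obtain ⟨t, h0, ht⟩ := w.surj
    exact ⟨s.symm t, by simpa using h0, by simpa using ht⟩

theorem trP_ord (s : K ≃ₐ[k] K') (w : Place k K') (z : K) : (trP s w).ord z = w.ord (s z) := rfl

theorem trP_trP (s : K ≃ₐ[k] K') (w : Place k K) : trP s (trP s.symm w) = w := by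
  ext z
  rw [trP_ord, trP_ord, AlgEquiv.symm_apply_apply]

theorem vv_equivB (e : K ≃ₐ[k] K') [DecidableEq K']
    (hess : Algebra.EssFiniteType k K) {n : ℕ} (hn : Algebra.trdeg k K = n)
    {Bd' : Place k K' → Prop} {S : Finset K} {m j : ℕ} {y : Fin n → K}
    (hy : IsTranscendenceBasis k y) {f : K}
    (h : f ∈ VV k (fun v => Bd' (trP e.symm v)) S m j y) :
    e f ∈ VV k Bd' (S.image e) m j (fun q => e (y q)) := by
  let iA : Algebra K K' := e.toRingEquiv.toRingHom.toAlgebra
  have t1 : IsScalarTower k K K' := IsScalarTower.of_algebraMap_eq fun c => (e.commutes c).symm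
  have f1 : FiniteDimensional K K' :=
    Module.Finite.of_surjective (Algebra.linearMap K K') e.surjective
  have h1 := vv_mapB (L := K') hess hn hy h
  have h2 : BdUp (L := K') (fun v : Place k K => Bd' (trP e.symm v)) = Bd' := by
    funext w
    apply propext
    constructor
    · rintro ⟨v, c, hwv, hv⟩
      have hc : c = 1 := by
        obtain ⟨s, -, hs⟩ := w.surj
        have h3 := hwv.2 (e.symm s)
        have h4 : algebraMap K K' (e.symm s) = s := e.apply_symm_apply s
        rw [h4, hs] at h3
        have h5 : (c : ℤ) ∣ 1 := ⟨_, h3⟩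
        have h6 : c ∣ 1 := by exact_mod_cast h5
        exact Nat.dvd_one.1 h6
      have h3 : trP e.symm v = w := by
        ext z
        have h4 := hwv.2 (e.symm z)
        have h5 : algebraMap K K' (e.symm z) = z := e.apply_symm_apply z
        rw [h5, hc] at h4
        rw [trP_ord, h4]
        simp
      rwa [h3] at hv
    · intro hw
      refine ⟨trP e w, 1, ⟨one_pos, fun z => ?_⟩, ?_⟩
      · rw [trP_ord]
        simp
        rfl
      · have h3 := trP_trP e.symm w
        rw [AlgEquiv.symm_symm] at h3
        change Bd' (trP e.symm (trP e w))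
        rw [h3]
        exact hw
  rw [h2] at h1
  exact h1

end

section

variable {k : Type} {L : Type} [Field k] [CharZero k] [IsAlgClosed k] [Field L] [Algebra k L]

/-- The boundary of a product of varieties with boundaries: the places which induce a place of the
boundary of some factor. -/
def Bdr {r : ℕ} (M : Fin r → IntermediateField k L) (Bm : ∀ i, Place k (M i) → Prop)
    (w : Place k L) : Prop :=
  ∃ (i : Fin r) (p : Place k (M i)) (c : ℕ), Over w p c ∧ Bm i p

variable {r : ℕ} {M : Fin (r + 1) → IntermediateField k L} {Bm : ∀ i, Place k (M i) → Prop}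
  {N : IntermediateField k L}

theorem over_ne {F : IntermediateField k L} {w : Place k L} {p : Place k F} {c : ℕ}
    (h : Over w p c) : ¬ ∀ z : F, w.ord (z : L) = 0 := by
  intro h0
  obtain ⟨s, -, hs⟩ := p.surj
  have h1 : w.ord (s : L) = c * p.ord s := h.2 s
  rw [h0, hs, mul_one] at h1
  have := h.1
  omega

theorem bdr_triv (hMN : ∀ i : Fin r, M i.castSucc ≤ N) (w : Place k L)
    (h1 : ∀ z : N, w.ord (z : L) = 0) (h2 : ∀ z : M (Fin.last r), w.ord (z : L) = 0) :
    ¬ Bdr M Bm w := by
  rintro ⟨i, p, c, hp, -⟩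
  revert p
  refine Fin.lastCases (fun p hp => ?_) (fun j p hp => ?_) i
  · exact over_ne hp h2
  · exact over_ne hp fun z => h1 ⟨z, hMN j z.2⟩

theorem bdr_left (hMN : ∀ i : Fin r, M i.castSucc ≤ N) (h : Dj N (M (Fin.last r)))
    (u : Place k N) : Bdr M Bm (UU h u) ↔ Bdr (fun i : Fin r => restrict (hMN i))
      (fun i v => Bm i.castSucc (trP (restrictAlgEquiv (hMN i)).symm.symm v)) u := by
  constructor
  · rintro ⟨i, p, c, hp, hb⟩
    revert p
    refine Fin.lastCases (fun p hp hb => ?_) (fun j p hp hb => ?_) i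
    · exact absurd (fun z => UU_F h u z) (over_ne hp)
    · refine ⟨j, trP (restrictAlgEquiv (hMN j)).symm p, c, ⟨hp.1, fun f => ?_⟩, ?_⟩
      · have h1 := hp.2 ((restrictAlgEquiv (hMN j)).symm f)
        have h2 : (algebraMap (M j.castSucc) L ((restrictAlgEquiv (hMN j)).symm f)) =
            ((f : N) : L) := by
          have h3 : ∀ z : M j.castSucc, (((restrictAlgEquiv (hMN j) z : restrict (hMN j)) : N) : L)
            = (z : L) := fun z => rfl
          rw [← (restrictAlgEquiv (hMN j)).apply_symm_apply f, h3]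
          rw [(restrictAlgEquiv (hMN j)).apply_symm_apply f]
          rfl
        rw [h2, UU_M] at h1
        exact h1
      · have h3 := trP_trP (restrictAlgEquiv (hMN j)) p
        change Bm j.castSucc (trP (restrictAlgEquiv (hMN j)).symm.symm
          (trP (restrictAlgEquiv (hMN j)).symm p))
        rw [AlgEquiv.symm_symm, h3]
        exact hb
  · rintro ⟨j, p, c, hp, hb⟩
    refine ⟨j.castSucc, _, c, ⟨hp.1, fun f => ?_⟩, hb⟩
    rw [trP_ord, AlgEquiv.symm_symm]
    have h1 := hp.2 (restrictAlgEquiv (hMN j) f)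
    rw [← h1]
    exact UU_M h u ((restrictAlgEquiv (hMN j) f : restrict (hMN j)) : N)

theorem bdr_right (hMN : ∀ i : Fin r, M i.castSucc ≤ N) (h : Dj N (M (Fin.last r)))
    (u : Place k (M (Fin.last r))) : Bdr M Bm (UU h.symm u) ↔ Bm (Fin.last r) u := by
  constructor
  · rintro ⟨i, p, c, hp, hb⟩
    revert p
    refine Fin.lastCases (fun p hp hb => ?_) (fun j p hp hb => ?_) i
    · have h1 : ∀ z : M (Fin.last r), u.ord z = c * p.ord z := by
        intro z
        have h2 := hp.2 z
        have h3 : (UU h.symm u).ord (algebraMap (M (Fin.last r)) L z) = u.ord z :=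
          UU_M h.symm u z
        rwa [h3] at h2
      have hc : c = 1 := by
        obtain ⟨s, -, hs⟩ := u.surj
        have h3 := h1 s
        rw [hs] at h3
        have h5 : (c : ℤ) ∣ 1 := ⟨_, h3⟩
        have h6 : c ∣ 1 := by exact_mod_cast h5
        exact Nat.dvd_one.1 h6
      have h2 : p = u := by
        ext z
        rw [h1, hc]
        simp
      rwa [h2] at hb
    · exact absurd (fun z : M j.castSucc => UU_F h.symm u ⟨z, hMN j z.2⟩) (over_ne hp)
  · intro hb
    exact ⟨Fin.last r, u, 1, ⟨one_pos, fun f => by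
      have h3 : (UU h.symm u).ord (algebraMap (M (Fin.last r)) L f) = u.ord f :=
        UU_M h.symm u f
      rw [h3]
      simp⟩, hb⟩

end

section

variable {k : Type} [Field k] [CharZero k] [IsAlgClosed k]

/-- **Kuenneth.** -/
theorem kunB (r : ℕ) : ∀ (L : Type) [Field L] [Algebra k L] (M : Fin r → IntermediateField k L)
    (Bm : ∀ i, Place k (M i) → Prop) (a : Fin r → ℕ), (∀ i, Algebra.EssFiniteType k (M i)) → (∀ i, Algebra.trdeg k (M i) = a i) →
    Algebra.trdeg k L = (∑ i, a i : ℕ) → (⨆ i, M i) = ⊤ →
    ∀ (y : ∀ i, Fin (a i) → M i), (∀ i, IsTranscendenceBasis k (y i)) →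
    ∀ (n : ℕ) (τ : (Σ i, Fin (a i)) ≃ Fin n) (S : Finset L),
      ∃ (b0 : L) (T : ∀ i, Finset (M i)), b0 ≠ 0 ∧ ∀ (m j : ℕ) (f : L),
        f ∈ VV k (Bdr M Bm) S m j (YY y τ) →
        ∃ (ι : Type) (_ : Fintype ι) (c : ι → k) (p : ι → ∀ i, M i),
          (∀ l i, p l i ∈ VV k (Bm i) (T i) m j (y i)) ∧
          b0 ^ j * f = ∑ l, algebraMap k L (c l) * ∏ i, ((p l i : M i) : L) := by
  classical
  induction r with
  | zero =>
    intro L _ _ M Bm a hess hM hL hsup y hy n τ S
    refine ⟨1, fun i => i.elim0, one_ne_zero, fun m j f hf => ?_⟩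
    have h1 : f ∈ (⊤ : IntermediateField k L) := trivial
    rw [← hsup, iSup_of_empty] at h1
    obtain ⟨c, hc⟩ := IntermediateField.mem_bot.1 h1
    refine ⟨Unit, inferInstance, fun _ => c, fun _ i => i.elim0, fun _ i => i.elim0, ?_⟩
    rw [one_pow, one_mul, Fintype.sum_unique, Finset.univ_eq_empty, Finset.prod_empty, mul_one, hc]
  | succ r ih =>
    intro L _ _ M Bm a hess hM hL hsup y hy n τ S
    let N : IntermediateField k L := ⨆ i : Fin r, M i.castSucc
    have hMN : ∀ i : Fin r, M i.castSucc ≤ N := fun i =>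
      le_iSup (fun i : Fin r => M i.castSucc) i
    let M0 : Fin r → IntermediateField k N := fun i => restrict (hMN i)
    have hess0 : ∀ i, Algebra.EssFiniteType k (M0 i) := fun i =>
      (Algebra.EssFiniteType.iff_of_algEquiv (restrictAlgEquiv (hMN i))).1 (hess _)
    have hM0 : ∀ i, Algebra.trdeg k (M0 i) = a i.castSucc := fun i => by
      rw [← hM]; exact (restrictAlgEquiv (hMN i)).symm.trdeg_eq
    have hsup0 : (⨆ i, M0 i) = ⊤ := by
      apply lift_injective N
      rw [lift_top]
      rw [IntermediateField.lift, IntermediateField.map_iSup]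
      exact iSup_congr fun i => lift_restrict (hMN i)
    have hN1 : Algebra.trdeg k N ≤ (∑ i : Fin r, a i.castSucc : ℕ) := trdeg_le_iSup M0 hM0 hsup0
    have hsupN : N ⊔ M (Fin.last r) = ⊤ := by
      rw [eq_top_iff, ← hsup]
      refine iSup_le fun i => ?_
      refine Fin.lastCases ?_ (fun j => ?_) i
      · exact le_sup_right
      · exact (hMN j).trans le_sup_left
    obtain ⟨c, hc⟩ : ∃ c : ℕ, Algebra.trdeg k N = c :=
      Cardinal.lt_aleph0.1 (hN1.trans_lt (Cardinal.natCast_lt_aleph0))
    have hL1 : Algebra.trdeg k L ≤ (c + a (Fin.last r) : ℕ) := by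
      have h1 := trdeg_le_iSup (a := ![c, a (Fin.last r)]) ![N, M (Fin.last r)] (fun i => by
        fin_cases i
        · exact hc
        · exact hM _) (by
        rw [← hsupN]
        apply le_antisymm
        · refine iSup_le fun i => ?_
          fin_cases i
          · exact le_sup_left
          · exact le_sup_right
        · exact sup_le (le_iSup (fun i => ![N, M (Fin.last r)] i) 0)
            (le_iSup (fun i => ![N, M (Fin.last r)] i) 1))
      simpa using h1
    have hcN : c = ∑ i : Fin r, a i.castSucc := by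
      rw [hL, Fin.sum_univ_castSucc] at hL1
      rw [hc] at hN1
      have h5 : ∑ i : Fin r, a i.castSucc + a (Fin.last r) ≤ c + a (Fin.last r) := by
        exact_mod_cast hL1
      have h6 : c ≤ ∑ i : Fin r, a i.castSucc := by exact_mod_cast hN1
      omega
    rw [hcN] at hc
    have hessN : Algebra.EssFiniteType k N :=
      essFiniteType_iff.2 (fg_iSup fun j : Fin r => essFiniteType_iff.1 (hess j.castSucc))
    have hessL : Algebra.EssFiniteType k L := by
      have h1 : Algebra.EssFiniteType k ↥(N ⊔ M (Fin.last r)) :=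
        essFiniteType_iff.2 (fg_sup (essFiniteType_iff.1 hessN)
          (essFiniteType_iff.1 (hess (Fin.last r))))
      rw [hsupN] at h1
      exact (Algebra.EssFiniteType.iff_of_algEquiv
        (IntermediateField.topEquiv (F := k) (E := L))).1 h1
    have hLs : Algebra.trdeg k L = (∑ i : Fin r, a i.castSucc + a (Fin.last r) : ℕ) := by
      rw [hL, Fin.sum_univ_castSucc]
    -- the coordinates of `N`
    let τ' : (Σ i : Fin r, Fin (a i.castSucc)) ≃ Fin (∑ i : Fin r, a i.castSucc) := finSigmaFinEquiv
    let e : ∀ i : Fin r, M i.castSucc ≃ₐ[k] M0 i := fun i => restrictAlgEquiv (hMN i)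
    let y0 : ∀ i : Fin r, Fin (a i.castSucc) → M0 i := fun i q => e i (y i.castSucc q)
    let Bm0 : ∀ i : Fin r, Place k (M0 i) → Prop := fun i v => Bm i.castSucc (trP (e i).symm.symm v)
    have hy0 : ∀ i, IsTranscendenceBasis k (y0 i) := fun i => (e i).isTranscendenceBasis (hy _)
    let y' : Fin (∑ i : Fin r, a i.castSucc) → N := YY y0 τ'
    have hy' : IsTranscendenceBasis k y' := yy_basis hsup0 hc hy0 τ'
    -- the coordinates of `L`
    let g : Fin (∑ i : Fin r, a i.castSucc + a (Fin.last r)) → Σ i, Fin (a i) :=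
      Fin.addCases (fun q => ⟨(τ'.symm q).1.castSucc, (τ'.symm q).2⟩) (fun q => ⟨Fin.last r, q⟩)
    have hg : Function.Bijective g := by
      rw [Fintype.bijective_iff_surjective_and_card]
      constructor
      · rintro ⟨i, q⟩
        revert q
        refine Fin.lastCases (fun q => ?_) (fun i q => ?_) i
        · exact ⟨Fin.natAdd _ q, by simp only [g, Fin.addCases_right]⟩
        · refine ⟨Fin.castAdd _ (τ' ⟨i, q⟩), ?_⟩
          simp only [g, Fin.addCases_left]
          rw [τ'.symm_apply_apply]
      · rw [Fintype.card_fin, Fintype.card_sigma]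
        simp only [Fintype.card_fin]
        rw [Fin.sum_univ_castSucc]
    let ψ : Fin (∑ i : Fin r, a i.castSucc + a (Fin.last r)) ≃ Σ i, Fin (a i) :=
      Equiv.ofBijective g hg
    have hn : n = ∑ i : Fin r, a i.castSucc + a (Fin.last r) := by
      have h1 := Fintype.card_congr τ
      have h2 := Fintype.card_congr ψ
      rw [Fintype.card_fin] at h1 h2
      omega
    subst hn
    let π : Equiv.Perm (Fin (∑ i : Fin r, a i.castSucc + a (Fin.last r))) := τ.symm.trans ψ.symm
    have happ : ∀ q, (y (ψ q).1 (ψ q).2 : L) = app y' (y (Fin.last r)) q := by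
      intro q
      refine Fin.addCases (fun q => ?_) (fun q => ?_) q
      · rw [app_left]
        have h1 : ψ (Fin.castAdd _ q) = ⟨(τ'.symm q).1.castSucc, (τ'.symm q).2⟩ := by
          change g _ = _
          simp only [g, Fin.addCases_left]
        rw [h1]
        rfl
      · rw [app_right]
        have h1 : ψ (Fin.natAdd _ q) = ⟨Fin.last r, q⟩ := by
          change g _ = _
          simp only [g, Fin.addCases_right]
        rw [h1]
    have hYY : YY y τ = fun q => app y' (y (Fin.last r)) (π q) := by
      funext q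
      rw [← happ]
      change _ = (y (ψ (ψ.symm (τ.symm q))).1 (ψ (ψ.symm (τ.symm q))).2 : L)
      rw [ψ.apply_symm_apply]
      rfl
    have halg : Algebra.IsAlgebraic ↥(⨆ i, M i) L := by
      rw [hsup]
      exact ⟨fun z => isAlgebraic_algebraMap (⟨z, trivial⟩ : (⊤ : IntermediateField k L))⟩
    have hbasis : IsTranscendenceBasis k (app y' (y (Fin.last r))) := by
      have h1 := basis_sigma (ι := fun i => Fin (a i)) M halg hL
        (fun i => (Fintype.card_fin _).trans rfl) y hy
      have h2 := (isTranscendenceBasis_equiv (R := k) ψ).2 h1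
      convert h2 using 1
      funext q
      exact (happ q).symm
    obtain ⟨E, hE⟩ := Pool.Agent.W636.PG.exists_duals k L _ _ hbasis
    have hdj : Dj N (M (Fin.last r)) := dj_of hsupN hLs hc (hM _)
    obtain ⟨b0, S1, S2, hb0, hexp⟩ := two_expandB hdj hLs hc (hM _) hessL
      hy' (hy _) hE (Bd := Bdr M Bm) (BM := Bdr M0 Bm0) (BF := Bm (Fin.last r))
      (bdr_triv hMN) (bdr_left hMN hdj) (bdr_right hMN hdj) S
    obtain ⟨b1, T0, hb1, hih⟩ := ih N M0 Bm0 (fun i => a i.castSucc) hess0 hM0 hc hsup0 y0 hy0 _ τ' S1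
    let T : ∀ i : Fin (r + 1), Finset (M i) := fun i =>
      Fin.lastCases (motive := fun i => Finset (M i)) S2 (fun i => (T0 i).image (e i).symm) i
    have hTl : T (Fin.last r) = S2 := Fin.lastCases_last
    have hTc : ∀ i : Fin r, T i.castSucc = (T0 i).image (e i).symm := fun i =>
      Fin.lastCases_castSucc _
    refine ⟨b0 * (b1 : L), T, mul_ne_zero hb0 (fun h => hb1 (Subtype.ext h)), fun m j f hf => ?_⟩
    rw [hYY, mem_vvB] at hf
    obtain ⟨R, p, q, hp, hq, hpq⟩ := hexp m j _ hf
    rw [pf_perm hE π f] at hpq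
    choose ι hι c p0 hp0 hsum using fun l => hih m j (p l) (hp l)
    have hsgn : (((Equiv.Perm.sign π : ℤ) : L)) ^ m * ((Equiv.Perm.sign π : ℤ) : L) ^ m = 1 := by
      rw [← mul_pow]
      have h1 : (((Equiv.Perm.sign π : ℤ) : L)) * ((Equiv.Perm.sign π : ℤ) : L) = 1 := by
        have h2 : ((Equiv.Perm.sign π : ℤ)) * (Equiv.Perm.sign π : ℤ) = 1 := by
          rw [← Units.val_mul, Int.units_mul_self, Units.val_one]
        have h3 := congrArg (Int.cast : ℤ → L) h2
        push_cast at h3
        exact_mod_cast h3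
      rw [h1, one_pow]
    let P : (Σ l, ι l) → ∀ i : Fin (r + 1), M i := fun s i =>
      Fin.lastCases (motive := fun i => M i) (q s.1) (fun i => (e i).symm (p0 s.1 s.2 i)) i
    have hPl : ∀ s, P s (Fin.last r) = q s.1 := fun s => Fin.lastCases_last
    have hPc : ∀ s (i : Fin r), P s i.castSucc = (e i).symm (p0 s.1 s.2 i) := fun s i =>
      Fin.lastCases_castSucc _
    refine ⟨Σ l, ι l, inferInstance, fun s => ((Equiv.Perm.sign π : ℤ) : k) ^ m * c s.1 s.2, P,
      fun s i => ?_, ?_⟩
    · refine Fin.lastCases ?_ (fun i => ?_) i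
      · rw [hPl, hTl]
        exact hq _
      · rw [hPc, hTc]
        have h1 := vv_equivB (e i).symm (hess0 i) (hM0 i) (hy0 i) (hp0 s.1 s.2 i)
        have h2 : (fun q => (e i).symm (y0 i q)) = y i.castSucc := by
          funext q
          exact (e i).symm_apply_apply _
        rw [h2] at h1
        exact h1
    · have h1 : (b0 * (b1 : L)) ^ j * f = ((Equiv.Perm.sign π : ℤ) : L) ^ m *
          ((b1 : L) ^ j * (b0 ^ j * (((Equiv.Perm.sign π : ℤ) : L) ^ m * f))) := by
        rw [mul_pow]
        linear_combination (-(b0 ^ j * (b1 : L) ^ j * f)) * hsgn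
      rw [h1, hpq, Finset.mul_sum, Finset.mul_sum, Fintype.sum_sigma]
      refine Finset.sum_congr rfl fun l _ => ?_
      have h2 : (b1 : L) ^ j * ((p l : N) : L) =
          ∑ s, algebraMap k L (c l s) * ∏ i, (((p0 l s i : M0 i) : N) : L) := by
        have h3 := congrArg (algebraMap N L) (hsum l)
        rw [map_mul, map_pow, map_sum] at h3
        change (b1 : L) ^ j * ((p l : N) : L) = _ at h3
        rw [h3]
        refine Finset.sum_congr rfl fun s _ => ?_
        rw [map_mul, map_prod]
        rfl
      rw [← mul_assoc ((b1 : L) ^ j), h2, Finset.sum_mul, Finset.mul_sum]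
      refine Finset.sum_congr rfl fun s _ => ?_
      rw [Fin.prod_univ_castSucc, hPl]
      have h4 : ∀ i : Fin r, ((P ⟨l, s⟩ i.castSucc : M i.castSucc) : L) =
          (((p0 l s i : M0 i) : N) : L) := by
        intro i
        rw [hPc]
        have h5 : ∀ z : M i.castSucc, (((e i z : M0 i) : N) : L) = (z : L) := fun z => rfl
        rw [← h5, AlgEquiv.apply_symm_apply]
      simp only [h4]
      rw [map_mul, map_pow, map_intCast]
      ring

end

end Pool.Agent.H908.WA
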