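import Pool.Agent.H908.WA3
import Pool.Agent.H908.SE7
import Pool.Graph.R_seed8.W314.PG.CONJ

/-! Sections with boundary on a quotient by a subgroup which contains the elements of age less than
one outside the boundary: their order along the divisors of the product. -/

set_option autoImplicit false
set_option linter.overlappingInstances false
set_option linter.unusedSectionVars false
set_option linter.unusedVariables false

open FF IntermediateField Pool.Agent.W619.PQ Pool.Agent.W619.PL Pool.Agent.W619.TW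
  Pool.Agent.W603.LV Pool.Agent.W619.Y Pool.Agent.W672.PG Pool.Agent.W824.PG Pool.Agent.Y174
  Pool.Agent.K1H17.IS Pool.Agent.K1H6.PQ Pool.Agent.W460.PG.ONE

namespace Pool.Agent.H908.WA

open Pool.Agent.H908.SB (PF pf_pluri pf_eval ge_lift)
open Pool.Agent.H908.SE

section

variable {k : Type} {K : Type} [Field k] [CharZero k] [Field K] [Algebra k K]

theorem vv_changeB {Bd : Place k K → Prop} {n : ℕ} {y y' : Fin n → K}
    (hy' : IsTranscendenceBasis k y')
    {E' : Fin n → Derivation k K K} (hE' : ∀ i j, E' i (y' j) = if i = j then 1 else 0)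
    {S : Finset K} {m j : ℕ} {f : K} (hf : f ∈ VV k Bd S m j y) :
    PF y m f E' ∈ VV k Bd S m j y' := by
  rw [mem_vvB] at hf ⊢
  have h1 : PF (k := k) y' m (PF y m f E') = PF y m f := funext fun D =>
    pf_change hy' hE' m f D
  rw [h1]
  exact hf

end

section

variable {k : Type} {L : Type} [Field k] [CharZero k] [Field L] [Algebra k L]

/-- Sections of an intermediate field at a place outside the boundary which is not ramified over the
ground field. -/
theorem dom_unramB {K F : IntermediateField k L} (hKF : K ≤ F) [FiniteDimensional K L] {n : ℕ}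
    (hn : Algebra.trdeg k L = n) (hnK : Algebra.trdeg k K = n) {v : Place k K}
    (hv : IsDivisorial v n) {w : Place k L} {e : ℕ} (hwv : Over w v e)
    (hdvd : ∀ s : F, s ≠ 0 → (e : ℤ) ∣ w.ord (s : L)) [DecidableEq L] {S : Finset F} {m j : ℕ}
    {z : Fin n → K} {f : F} {BF : Place k F → Prop} (hBF : ∀ u c, Over w u c → ¬ BF u)
    (hf : f ∈ VV k BF S m j (fun q => inclusion hKF (z q)))
    (D : Fin n → Derivation k K K) (D' : Fin n → Derivation k L L) (hD : ∀ j, Pres v (D j))
    (hD' : ∀ j f, D' j (algebraMap K L f) = algebraMap K L (D j f)) :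
    Dom w (S.image (algebraMap F L)) j (PF (fun q => (z q : L)) m (f : L) D') := by
  classical
  let iA : Algebra K F := (inclusion hKF).toRingHom.toAlgebra
  have t1 : IsScalarTower k K F := IsScalarTower.of_algebraMap_eq fun c =>
    ((inclusion hKF).commutes c).symm
  have t2 : IsScalarTower K F L := IsScalarTower.of_algebraMap_eq fun c => rfl
  have f1 : FiniteDimensional K F := FiniteDimensional.left K F L
  have f2 : FiniteDimensional F L := FiniteDimensional.right K F L
  have hnF : Algebra.trdeg k F = n := (Pool.Agent.W721.PG.EFF2.exists_basis F n hn).1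
  have he0 : 0 < e := hwv.1
  have hez : (0 : ℤ) < e := by exact_mod_cast he0
  obtain ⟨t, ht0, ht⟩ := v.surj
  have hwt : w.ord (t : L) = e := by
    have := hwv.2 t
    rw [ht, mul_one] at this
    exact this
  obtain ⟨c, u, hu⟩ := exists_over (K := F) w ⟨inclusion hKF t, by
    change w.ord (t : L) ≠ 0
    rw [hwt]
    exact hez.ne'⟩
  have hu2 : ∀ s : F, w.ord (s : L) = c * u.ord s := fun s => hu.2 s
  have huB := hBF u c hu
  have hce : c = e := by
    apply Nat.dvd_antisymm
    · have h1 := hu2 (inclusion hKF t)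
      change w.ord (t : L) = _ at h1
      rw [hwt] at h1
      exact Int.natCast_dvd_natCast.1 ⟨_, h1⟩
    · obtain ⟨s, hs0, hs⟩ := u.surj
      have h1 := hdvd s hs0
      rw [hu2, hs, mul_one] at h1
      exact Int.natCast_dvd_natCast.1 h1
  subst hce
  have huv : Over u v 1 := by
    refine ⟨one_pos, fun s => ?_⟩
    have h1 : w.ord (s : L) = c * v.ord s := hwv.2 s
    have h2 := hu2 (algebraMap K F s)
    change w.ord (s : L) = _ at h2
    rw [h1] at h2
    have h3 := mul_left_cancel₀ hez.ne' h2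
    rw [← h3]
    simp
  have hdu : IsDivisorial u n := divisorial_up huv hv
  choose extF hextF hextF2 hextF3 using Pool.Agent.Y174.pEXT k K F n hnK
  choose extL hextL hextL2 hextL3 using Pool.Agent.Y174.pEXT k F L n hnF
  choose ext hext hext2 hext3 using Pool.Agent.Y174.pEXT k K L n hnK
  have hDF : ∀ b (s : F), D' b (s : L) = ((extF (D b) s : F) : L) := by
    intro b s
    have h1 : D' b = ext (D b) := hext2 _ _ (hD' b)
    have h2 : extL (extF (D b)) = ext (D b) := by
      apply hext2
      intro s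
      have h3 := hextL (extF (D b)) (algebraMap K F s)
      rw [hextF] at h3
      exact h3
    rw [h1, ← h2]
    exact hextL (extF (D b)) s
  have hpres : ∀ b, Pres u (extF (D b)) := by
    intro b
    refine Pool.Agent.Y174.pPRES k K F v u 1 huv (extF (D b)) (fun x hx => ?_) (Or.inl rfl)
    rw [hextF]
    have h1 : Ge u 0 (algebraMap K F (D b x)) := huv.reg.2 (hD b x hx)
    exact h1
  rw [mem_vvB] at hf
  have h1 := hf.2.1 u hdu huB (fun b => extF (D b)) hpres
  have h2 : PF (fun q => (z q : L)) m (f : L) D' =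
      ((PF (fun q => inclusion hKF (z q)) m f (fun b => extF (D b)) : F) : L) := by
    unfold PF
    change _ = algebraMap F L (_ ^ m * f)
    rw [map_mul, map_pow, RingHom.map_det]
    change (Matrix.of fun p q => D' p (z q : L)).det ^ m * (f : L) = _
    congr 3
    ext p q
    change D' p ((inclusion hKF (z q) : F) : L) = _
    rw [hDF]
    rfl
  rw [h2]
  rcases h1 with h1 | ⟨s, hs, hs0, h1⟩
  · left
    rw [h1]
    rfl
  · right
    refine ⟨_, Finset.mem_image_of_mem _ hs, fun h0 => hs0 (Subtype.ext h0), ?_⟩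
    change (j : ℤ) * w.ord (s : L) ≤ w.ord _
    rw [hu2, hu2, mul_left_comm]
    exact mul_le_mul_of_nonneg_left h1 hez.le

end

section

variable {k : Type} {L : Type} [Field k] [CharZero k] [IsAlgClosed k] [Field L] [Algebra k L]
variable {r : ℕ} {M : Fin r → IntermediateField k L} {a : Fin r → ℕ}
  {G : Subgroup (L ≃ₐ[k] L)} {σ : G →* Equiv.Perm (Fin r)}

/-- The boundary of the quotient by `H`. -/
def QB (M : Fin r → IntermediateField k L) (Bm : ∀ i, Place k (M i) → Prop)
    (H : Subgroup (L ≃ₐ[k] L)) (v : Place k (fixedField H)) : Prop :=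
  ∃ (w : Place k L) (e : ℕ), Over w v e ∧ Bdr M Bm w

theorem qb_iff {Bm : ∀ i, Place k (M i) → Prop} {H : Subgroup (L ≃ₐ[k] L)} [Finite H]
    (hinv : ∀ g ∈ H, ∀ w : Place k L, Bdr M Bm w → Bdr M Bm (w.comp g))
    {v : Place k (fixedField H)} {w : Place k L} {e : ℕ} (hwv : Over w v e) :
    QB M Bm H v ↔ Bdr M Bm w := by
  refine ⟨?_, fun h1 => ⟨w, e, hwv, h1⟩⟩
  rintro ⟨w', e', hw', hb⟩
  obtain ⟨g, hg⟩ := Pool.Agent.W314.PG.CONJ.main k L H v w' w e' e hw' hwv
  have h1 : w = w'.comp (g : L ≃ₐ[k] L) := by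
    ext z
    rw [hg, Place.comp_ord]
  rw [h1]
  exact hinv g g.2 w' hb

theorem bdUp_qb {Bm : ∀ i, Place k (M i) → Prop} {H : Subgroup (L ≃ₐ[k] L)} [Finite H]
    (hinv : ∀ g ∈ H, ∀ w : Place k L, Bdr M Bm w → Bdr M Bm (w.comp g)) :
    BdUp (L := L) (QB M Bm H) = Bdr M Bm := by
  have halgF := Pool.Agent.W721.PG.EFF2.alg_fixed H
  funext w
  apply propext
  constructor
  · rintro ⟨v, e, hwv, hv⟩
    exact (qb_iff hinv hwv).1 hv
  · intro hw
    obtain ⟨e, v, hwv⟩ := Pool.Agent.W73.PG.PULL.exists_over' (K := fixedField H) w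
    exact ⟨v, e, hwv, (qb_iff hinv hwv).2 hw⟩

/-- `H` contains the elements of `G` which generate the inertia group of a divisor over the product,
outside the boundary, and have age less than one there. -/
def SeniorB (M : Fin r → IntermediateField k L) (a : Fin r → ℕ) (Bm : ∀ i, Place k (M i) → Prop)
    (G : Subgroup (L ≃ₐ[k] L)) (σ : G →* Equiv.Perm (Fin r)) (H : Subgroup (L ≃ₐ[k] L)) : Prop :=
  ∀ g : G, (g : L ≃ₐ[k] L) ∉ H → ∀ w : Place k L, IsDivisorial w (∑ i, a i) → ¬ Bdr M Bm w →
    Inert w (g : L ≃ₐ[k] L) → orderOf (g : L ≃ₐ[k] L) = idx w (fixedField G) →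
    (orderOf (g : L ≃ₐ[k] L) : ℝ) ≤ ∑ i, (idx w (M i) : ℝ) +
      orderOf (g : L ≃ₐ[k] L) * permAge a (σ g)

/-- the vector fields which are used at the place `v` -/
def Vf {K : Type} [Field K] [Algebra k K] (Bd : Place k K → Prop) (v : Place k K) {n : ℕ}
    (D : Fin n → Derivation k K K) : Prop :=
  (¬ Bd v ∧ ∀ j, Pres v (D j)) ∨ (Bd v ∧ ∀ j f, v.Reg (D j f / f))

/-- **The local estimate.** -/
theorem locB [Finite G] (h : IsPermuted M a G σ) {H : Subgroup (L ≃ₐ[k] L)} (hHG : H ≤ G)
    {Bm : ∀ i, Place k (M i) → Prop}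
    (hinv : ∀ g ∈ G, ∀ w : Place k L, Bdr M Bm w → Bdr M Bm (w.comp g))
    (hage : SeniorB M a Bm G σ H) {z : Fin (∑ i, a i) → fixedField G}
    (hz : IsTranscendenceBasis k z)
    (S : Finset (fixedField H)) : ∃ S' : Finset L, ∀ (m j : ℕ) (f : fixedField H),
      f ∈ VV k (QB M Bm H) S m j (fun q => inclusion (fixed_mono hHG) (z q)) →
      ∀ v : Place k (fixedField G), IsDivisorial v (∑ i, a i) → ∀ (w : Place k L) (e : ℕ),
      Over w v e → (2 ≤ e → ∃ g ∈ G, g ≠ 1 ∧ orderOf g = e ∧ Inert w g) →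
      ∀ (D : Fin (∑ i, a i) → Derivation k (fixedField G) (fixedField G))
        (D' : Fin (∑ i, a i) → Derivation k L L), Vf (QB M Bm G) v D →
        (∀ j f, D' j (algebraMap (fixedField G) L f) = algebraMap (fixedField G) L (D j f)) →
        Dom w S' j (PF (fun q => (z q : L)) m (f : L) D') := by
  classical
  have halgK := Pool.Agent.W721.PG.EFF2.alg_fixed G
  have hfin := fixed_finite G
  have hessL := h.essL
  obtain ⟨hnK, z0, hz0⟩ := Pool.Agent.W721.PG.EFF2.exists_basis (fixedField G) (∑ i, a i) h.total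
  have hfinH : Finite H := fin_of_le hHG
  have halgF := Pool.Agent.W721.PG.EFF2.alg_fixed H
  have hfinF := fixed_finite H
  obtain ⟨hnF, z1, hz1⟩ := Pool.Agent.W721.PG.EFF2.exists_basis (fixedField H) (∑ i, a i) h.total
  have hessF : Algebra.EssFiniteType k (fixedField H) := ess_down hessL z1 hz1
  have hinvH : ∀ g ∈ H, ∀ w : Place k L, Bdr M Bm w → Bdr M Bm (w.comp g) :=
    fun g hg => hinv g (hHG hg)
  obtain ⟨τ⟩ : Nonempty ((Σ i, Fin (a i)) ≃ Fin (∑ i, a i)) := ⟨finSigmaFinEquiv⟩
  choose y hy using fun i => Pool.Agent.W636.PG.exists_basis k (M i) (a i) (h.trdeg i)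
  have hYY := yy_basis h.sup h.total hy τ
  obtain ⟨E, hE⟩ := Pool.Agent.W636.PG.exists_duals k L _ _ hYY
  have hzF := basis_incl hHG hz
  obtain ⟨S1, hS1⟩ := klB h Bm hy τ (S.image (algebraMap (fixedField H) L))
  refine ⟨S.image (algebraMap (fixedField H) L) ∪ S1, ?_⟩
  intro m j f hf v hv w e hwv hin D D' hD hD'
  have h2 := vv_mapB (L := L) hessF hnF hzF hf
  rw [bdUp_qb hinvH] at h2
  rcases hD with ⟨hvB, hD⟩ | ⟨hvB, hD⟩
  · have hwB : ¬ Bdr M Bm w := fun h0 => hvB ((qb_iff hinv hwv).2 h0)
    by_cases hcase : ∀ s : fixedField H, s ≠ 0 → (e : ℤ) ∣ w.ord (s : L)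
    · exact dom_mono Finset.subset_union_left
        (dom_unramB (fixed_mono hHG) h.total hnK hv hwv hcase
          (fun u c hu hb => hwB ((qb_iff hinvH hu).1 hb)) hf D D' hD hD')
    · have he : 2 ≤ e := by
        by_contra hlt
        have he1 : e = 1 := by have := hwv.1; omega
        exact hcase fun s _ => by rw [he1]; simp
      obtain ⟨g, hgG, hg1, hord, hI⟩ := hin he
      have hfing : IsOfFinOrder g := by
        rw [← orderOf_pos_iff, hord]
        omega
      have hgH : g ∉ H := by
        intro hgH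
        apply hcase
        intro s hs
        have h1 := dvd_ord hI hfing (z := (s : L)) (fun h0 => hs (Subtype.ext h0)) (s.2 ⟨g, hgH⟩)
        rwa [hord] at h1
      have h1 := hage ⟨g, hgG⟩ hgH w (divisorial_up hwv hv) hwB hI
        (by rw [idx_over hwv, ← hord])
      simp only [hord] at h1
      have h3 := vv_changeB hYY hE h2
      have h4 := hS1 m j _ h3 v hv w e hwv hwB ⟨g, hgG⟩ hord hI h1 D D' hD hD'
      rw [pf_change hYY hE] at h4
      exact dom_mono Finset.subset_union_right h4
  · have hwB : Bdr M Bm w := (qb_iff hinv hwv).1 hvB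
    rw [mem_vvB] at h2
    have h3 := h2.2.2 w (divisorial_up hwv hv) hwB D' (fun l => by
      refine Pool.Agent.Y174.pLOG k (fixedField G) L v w e hwv (D' l) fun x => ?_
      rw [hD', ← map_div₀]
      exact hwv.reg.2 (hD l x))
    exact dom_mono Finset.subset_union_left h3

end

end Pool.Agent.H908.WA
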