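import Pool.Agent.H908.WA4

/-! Traces of sections with boundary. -/

set_option autoImplicit false
set_option linter.overlappingInstances false
set_option linter.unusedSectionVars false
set_option linter.unusedVariables false
set_option linter.style.haveILetI false

open FF IntermediateField Pool.Agent.W619.PQ Pool.Agent.W619.PL Pool.Agent.W619.TW
  Pool.Agent.W603.LV Pool.Agent.W619.Y Pool.Agent.W672.PG Pool.Agent.W824.PG Pool.Agent.Y174
  Pool.Agent.K1H17.IS Pool.Agent.K1H6.PQ Pool.Agent.W460.PG.ONE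

namespace Pool.Agent.H908.WA

open Pool.Agent.H908.SB (PF pf_pluri pf_eval ge_lift)
open Pool.Agent.H908.SE

section

variable {k : Type} [Field k] [CharZero k] {K L : Type} [Field K] [Field L] [Algebra k K]
  [Algebra k L] [Algebra K L] [IsScalarTower k K L]

/-- Pull-back of pluricanonical forms, with boundary. -/
theorem kodB_up [FiniteDimensional K L] (hess : Algebra.EssFiniteType k K) {n A : ℕ}
    (hn : Algebra.trdeg k K = n) {Bd : Place k K → Prop} (h : KodTrB k K n Bd A) :
    KodTrB k L n (BdUp Bd) A := by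
  classical
  obtain ⟨m, hm, ω, hω, D, hD0, hDi⟩ := h
  obtain ⟨y, hy⟩ := Pool.Agent.W636.PG.exists_basis k K n hn
  obtain ⟨E, hE⟩ := Pool.Agent.W636.PG.exists_duals k K n y hy
  have hyL : IsTranscendenceBasis k (algebraMap K L ∘ y) := hy.algebraMap_comp
  obtain ⟨E', hE'⟩ := Pool.Agent.W636.PG.exists_duals k L n _ hyL
  have hval : ∀ l, ω l D = (Matrix.of fun i j => D i (y j)).det ^ m * ω l E := fun l =>
    Pool.Agent.W636.PG.form_eq k K n m y hy E hE (ω l) (hω l).1 D
  have hdet0 : (Matrix.of fun i j => D i (y j)).det ^ m ≠ 0 := by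
    intro h0
    apply hD0 0
    rw [hval, h0, zero_mul]
  have hE0 : ∀ l, ω l E ≠ 0 := by
    intro l h0
    apply hD0 l
    rw [hval, h0, mul_zero]
  have hdet : (Matrix.of fun a b => E' a (algebraMap K L (y b))).det = 1 := by
    have h1 : (Matrix.of fun a b => E' a (algebraMap K L (y b))) = 1 := by
      ext a b
      rw [Matrix.of_apply, Matrix.one_apply]
      exact hE' a b
    rw [h1, Matrix.det_one]
  refine ⟨m, hm, fun l D => (Matrix.of fun a b => D a (algebraMap K L (y b))).det ^ m *
    algebraMap K L (ω l E), fun l => ?_, E', fun l => ?_, ?_⟩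
  · have h1 := Pool.Agent.Y174.pPULL k K L n hn (fun y hy => fin_adj hess y hy) Bd {1} m 0 y E hy hE
      (ω l) (hω l)
    rw [Finset.image_singleton, map_one] at h1
    exact h1
  · change (Matrix.of fun a b => E' a (algebraMap K L (y b))).det ^ m *
      algebraMap K L (ω l E) ≠ 0
    rw [hdet, one_pow, one_mul]
    exact (map_ne_zero_iff _ (algebraMap K L).injective).2 (hE0 l)
  · have h1 : (fun l : Fin A => (Matrix.of fun a b => E' a (algebraMap K L (y b))).det ^ m *
        algebraMap K L (ω l.succ E) / ((Matrix.of fun a b => E' a (algebraMap K L (y b))).det ^ m *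
        algebraMap K L (ω 0 E))) = fun l : Fin A =>
          IsScalarTower.toAlgHom k K L (ω l.succ D / ω 0 D) := by
      funext l
      rw [hdet, one_pow, one_mul, one_mul, hval, hval, mul_div_mul_left _ _ hdet0]
      change _ = algebraMap K L _
      rw [map_div₀]
    rw [h1]
    exact (AlgHom.algebraicIndependent_iff (IsScalarTower.toAlgHom k K L)
      (algebraMap K L).injective).2 hDi

end

section

variable {k : Type} {L : Type} [Field k] [CharZero k] [IsAlgClosed k] [Field L] [Algebra k L]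
variable {r : ℕ} {M : Fin r → IntermediateField k L} {a : Fin r → ℕ}
  {G : Subgroup (L ≃ₐ[k] L)} {σ : G →* Equiv.Perm (Fin r)}

theorem bdUp_GH [Finite G] {Bm : ∀ i, Place k (M i) → Prop} {H : Subgroup (L ≃ₐ[k] L)}
    (hHG : H ≤ G) (hinv : ∀ g ∈ G, ∀ w : Place k L, Bdr M Bm w → Bdr M Bm (w.comp g)) :
    letI := algGH hHG
    BdUp (k := k) (K := fixedField G) (L := fixedField H) (QB M Bm G) = QB M Bm H := by
  have hfin := fixed_finite G
  have hfinH : Finite H := fin_of_le hHG
  letI := algGH hHG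
  haveI := tower1 hHG
  haveI := tower2 hHG
  have f1 : FiniteDimensional (fixedField G) (fixedField H) :=
    FiniteDimensional.left (fixedField G) (fixedField H) L
  have hov : ∀ {w : Place k L} {u : Place k (fixedField H)} {v : Place k (fixedField G)} {e e' : ℕ},
      Over w u e → Over u v e' → Over w v (e * e') := by
    intro w u v e e' h1 h2
    refine ⟨Nat.mul_pos h1.1 h2.1, fun x => ?_⟩
    have h3 := h1.2 (algebraMap (fixedField G) (fixedField H) x)
    have h4 := h2.2 x
    rw [h4] at h3
    have h5 : w.ord (algebraMap (fixedField G) L x) = e * (e' * v.ord x) := h3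
    rw [h5]
    push_cast
    ring
  funext u
  apply propext
  constructor
  · rintro ⟨v, e', huv, hv⟩
    obtain ⟨w, e, I, hwu, -, -⟩ := exists_inertia H u
    exact ⟨w, e, hwu, (qb_iff hinv (hov hwu huv)).1 hv⟩
  · rintro ⟨w, e, hwu, hb⟩
    obtain ⟨e', v, huv⟩ := Pool.Agent.W73.PG.PULL.exists_over' (K := fixedField G) u
    exact ⟨v, e', huv, ⟨w, e * e', hov hwu huv, hb⟩⟩

/-- The easy directions. -/
theorem easyB [Finite G] {Bm : ∀ i, Place k (M i) → Prop} {H : Subgroup (L ≃ₐ[k] L)}
    (hHG : H ≤ G) (hinv : ∀ g ∈ G, ∀ w : Place k L, Bdr M Bm w → Bdr M Bm (w.comp g)) {n : ℕ}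
    (hn : Algebra.trdeg k L = n) (hess : Algebra.EssFiniteType k L) :
    (IsPsef k (fixedField G) n (QB M Bm G) → IsPsef k (fixedField H) n (QB M Bm H)) ∧
    (NumNeg k (fixedField H) n (QB M Bm H) → NumNeg k (fixedField G) n (QB M Bm G)) ∧
    (∀ h, NumLe k (fixedField H) n (QB M Bm H) h →
      NumLe k (fixedField G) n (QB M Bm G) h) ∧
    ∀ h, KodTrB k (fixedField G) n (QB M Bm G) h → KodTrB k (fixedField H) n (QB M Bm H) h := by
  have hfin := fixed_finite G
  have halgK := Pool.Agent.W721.PG.EFF2.alg_fixed G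
  obtain ⟨hnK, z0, hz0⟩ := Pool.Agent.W721.PG.EFF2.exists_basis (fixedField G) n hn
  have hessK : Algebra.EssFiniteType k (fixedField G) := ess_down hess z0 hz0
  letI := algGH hHG
  haveI := tower1 hHG
  haveI := tower2 hHG
  have f1 : FiniteDimensional (fixedField G) (fixedField H) :=
    FiniteDimensional.left (fixedField G) (fixedField H) L
  have h1 := Pool.Agent.Y174.pTRANS k (fixedField G) (fixedField H) n hnK
    (fun y hy => fin_adj hessK y hy) (QB M Bm G)
  have h3 := bdUp_GH hHG hinv
  have h2 : ∀ h, KodTrB k (fixedField G) n (QB M Bm G) h →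
      KodTrB k (fixedField H) n (BdUp (k := k) (K := fixedField G) (L := fixedField H)
        (QB M Bm G)) h := fun h h2 => kodB_up hessK hnK h2
  rw [h3] at h1
  simp only [h3] at h2
  exact ⟨h1.1, h1.2.1, h1.2.2, h2⟩

/-- **Traces of sections are sections.** -/
theorem tr_vvB [Fintype G] (h : IsPermuted M a G σ) {H : Subgroup (L ≃ₐ[k] L)} (hHG : H ≤ G)
    {Bm : ∀ i, Place k (M i) → Prop}
    (hinv : ∀ g ∈ G, ∀ w : Place k L, Bdr M Bm w → Bdr M Bm (w.comp g))
    (hage : SeniorB M a Bm G σ H) {z : Fin (∑ i, a i) → fixedField G} (hz : IsTranscendenceBasis k z)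
    (S : Finset (fixedField H)) {c : L} (hc : c ≠ 0) : ∃ T : Finset (fixedField G), ∀ (m j : ℕ),
      1 ≤ j → ∀ f : fixedField H,
      f ∈ VV k (QB M Bm H) S m j (fun q => inclusion (fixed_mono hHG) (z q)) →
      trG G (c * (f : L)) ∈ VV k (QB M Bm G) T m j z := by
  classical
  have halgK := Pool.Agent.W721.PG.EFF2.alg_fixed G
  have hfin := fixed_finite G
  have hessL := h.essL
  obtain ⟨hnK, z0, hz0⟩ := Pool.Agent.W721.PG.EFF2.exists_basis (fixedField G) (∑ i, a i) h.total
  obtain ⟨S1, hS1⟩ := locB h hHG hinv hage hz S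
  let S2 : Finset L := (Finset.univ : Finset G).biUnion fun g =>
    (S1 ∪ S1.image (fun s => s * c)).image (g : L ≃ₐ[k] L)
  obtain ⟨T, hT⟩ := exists_desc (fixedField G) S2
  refine ⟨T, fun m j hj f hf => ?_⟩
  rw [mem_vvB]
  suffices hsuff : ∀ v : Place k (fixedField G), IsDivisorial v (∑ i, a i) →
      ∀ D : Fin (∑ i, a i) → Derivation k (fixedField G) (fixedField G), Vf (QB M Bm G) v D →
      Dom v T j (PF z m (trG G (c * (f : L))) D) from
    ⟨pf_pluri _ _ _, fun v hv hb D hD => hsuff v hv D (Or.inl ⟨hb, hD⟩),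
      fun v hv hb D hD => hsuff v hv D (Or.inr ⟨hb, hD⟩)⟩
  intro v hv D hD
  obtain ⟨w, e, I, hwv, hcard, hI⟩ := exists_inertia G v
  choose ext hext hext2 hext3 using Pool.Agent.Y174.pEXT k (fixedField G) L (∑ i, a i) hnK
  have hval : ((PF z m (trG G (c * (f : L))) D : fixedField G) : L) =
      ∑ g : G, (g : L ≃ₐ[k] L) (c * PF (fun q => (z q : L)) m (f : L) (fun b => ext (D b))) := by
    have h1 : ((PF z m (trG G (c * (f : L))) D : fixedField G) : L) =
        ((Matrix.of fun p q => D p (z q)).det : L) ^ m * ∑ g : G, (g : L ≃ₐ[k] L) (c * (f : L)) := rfl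
    rw [h1, Finset.mul_sum]
    refine Finset.sum_congr rfl fun g _ => ?_
    have h2 : PF (fun q => (z q : L)) m (f : L) (fun b => ext (D b)) =
        ((Matrix.of fun p q => D p (z q)).det : L) ^ m * (f : L) := by
      unfold PF
      congr 2
      change _ = algebraMap (fixedField G) L _
      rw [RingHom.map_det]
      congr 1
      ext p q
      exact hext (D p) (z q)
    rw [h2, map_mul, map_mul, map_mul, map_pow]
    have h3 : (g : L ≃ₐ[k] L) (((Matrix.of fun p q => D p (z q)).det : fixedField G) : L) =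
        ((Matrix.of fun p q => D p (z q)).det : fixedField G) :=
      ((Matrix.of fun p q => D p (z q)).det : fixedField G).2 g
    rw [h3]
    ring
  refine hT w v e hwv j _ ?_
  rw [hval]
  refine dom_sum _ fun g _ => ?_
  have hov := over_comp hwv (g : L ≃ₐ[k] L) (fun z => z.2 g)
  have h1 := hS1 m j f hf v hv (w.comp (g : L ≃ₐ[k] L)) e hov (hin_comp hcard hI g) D
    (fun b => ext (D b)) hD (fun j f => hext _ f)
  have h2 := dom_comp (dom_mul hj hc h1)
  exact dom_mono (fun s hs => Finset.mem_biUnion.2 ⟨g, Finset.mem_univ _, hs⟩) h2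

end

end Pool.Agent.H908.WA
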