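import Pool.Agent.H908.WA5
import Pool.Agent.H908.VA1

/-! Kodaira dimension, numerical dimension and pseudo-effectivity, with boundary, of the quotients by
`G` and by a subgroup which contains the elements of age less than one outside the boundary. -/

set_option autoImplicit false
set_option linter.overlappingInstances false
set_option linter.unusedSectionVars false
set_option linter.unusedVariables false
set_option linter.style.haveILetI false

open FF IntermediateField Pool.Agent.W619.PQ Pool.Agent.W619.PL Pool.Agent.W619.TW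
  Pool.Agent.W603.LV Pool.Agent.W619.Y Pool.Agent.W672.PG Pool.Agent.W824.PG Pool.Agent.Y174
  Pool.Agent.K1H17.IS Pool.Agent.K1H6.PQ Pool.Agent.W460.PG.ONE

namespace Pool.Agent.H908.WA

open Pool.Agent.H908.SB (PF pf_pluri pf_eval ge_lift)
open Pool.Agent.H908.SE

section

variable {k : Type} {K : Type} [Field k] [CharZero k] [Field K] [Algebra k K]

theorem sec_coeffB {Bd : Place k K → Prop} {n : ℕ} {y : Fin n → K}
    (hy : IsTranscendenceBasis k y)
    {E : Fin n → Derivation k K K} (hE : ∀ i j, E i (y j) = if i = j then 1 else 0)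
    {S : Finset K} {m j : ℕ} {ω : (Fin n → Derivation k K K) → K}
    (hω : IsSec k K n Bd S m j ω) :
    ω E ∈ VV k Bd S m j y ∧ ω = PF y m (ω E) := by
  have h1 : ω = PF y m (ω E) := funext fun D =>
    Pool.Agent.W636.PG.form_eq k K n m y hy E hE ω hω.1 D
  refine ⟨?_, h1⟩
  rw [mem_vvB, ← h1]
  exact hω

end

section

variable {k : Type} {L : Type} [Field k] [CharZero k] [IsAlgClosed k] [Field L] [Algebra k L]
variable {r : ℕ} {M : Fin r → IntermediateField k L} {a : Fin r → ℕ}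
  {G : Subgroup (L ≃ₐ[k] L)} {σ : G →* Equiv.Perm (Fin r)}

/-- The estimate at the divisors of the boundary. -/
theorem log_dom [Finite G] (h : IsPermuted M a G σ) {H : Subgroup (L ≃ₐ[k] L)} (hHG : H ≤ G)
    {Bm : ∀ i, Place k (M i) → Prop}
    (hinv : ∀ g ∈ G, ∀ w : Place k L, Bdr M Bm w → Bdr M Bm (w.comp g))
    {z : Fin (∑ i, a i) → fixedField G} (hz : IsTranscendenceBasis k z)
    {S : Finset (fixedField H)} [DecidableEq L] {m j : ℕ} {f : fixedField H}
    (hf : f ∈ VV k (QB M Bm H) S m j (fun q => inclusion (fixed_mono hHG) (z q)))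
    {v : Place k (fixedField G)} (hv : IsDivisorial v (∑ i, a i)) (hvB : QB M Bm G v)
    {w : Place k L} {e : ℕ} (hwv : Over w v e)
    (D : Fin (∑ i, a i) → Derivation k (fixedField G) (fixedField G))
    (D' : Fin (∑ i, a i) → Derivation k L L) (hD : ∀ j f, v.Reg (D j f / f))
    (hD' : ∀ j f, D' j (algebraMap (fixedField G) L f) = algebraMap (fixedField G) L (D j f)) :
    Dom w (S.image (algebraMap (fixedField H) L)) j (PF (fun q => (z q : L)) m (f : L) D') := by
  classical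
  have halgK := Pool.Agent.W721.PG.EFF2.alg_fixed G
  have hfin := fixed_finite G
  have hessL := h.essL
  have hfinH : Finite H := fin_of_le hHG
  have halgF := Pool.Agent.W721.PG.EFF2.alg_fixed H
  have hfinF := fixed_finite H
  obtain ⟨hnF, z1, hz1⟩ := Pool.Agent.W721.PG.EFF2.exists_basis (fixedField H) (∑ i, a i) h.total
  have hessF : Algebra.EssFiniteType k (fixedField H) := ess_down hessL z1 hz1
  have hinvH : ∀ g ∈ H, ∀ w : Place k L, Bdr M Bm w → Bdr M Bm (w.comp g) :=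
    fun g hg => hinv g (hHG hg)
  have hzF := basis_incl hHG hz
  have h2 := vv_mapB (L := L) hessF hnF hzF hf
  rw [bdUp_qb hinvH] at h2
  have hwB : Bdr M Bm w := (qb_iff hinv hwv).1 hvB
  rw [mem_vvB] at h2
  exact h2.2.2 w (divisorial_up hwv hv) hwB D' (fun l => by
    refine Pool.Agent.Y174.pLOG k (fixedField G) L v w e hwv (D' l) fun x => ?_
    rw [hD', ← map_div₀]
    exact hwv.reg.2 (hD l x))

/-- The traces of the sections, together. -/
theorem tr_allB [Fintype G] (h : IsPermuted M a G σ) {H : Subgroup (L ≃ₐ[k] L)} (hHG : H ≤ G)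
    {Bm : ∀ i, Place k (M i) → Prop}
    (hinv : ∀ g ∈ G, ∀ w : Place k L, Bdr M Bm w → Bdr M Bm (w.comp g))
    (hage : SeniorB M a Bm G σ H) {z : Fin (∑ i, a i) → fixedField G} (hz : IsTranscendenceBasis k z)
    (S : Finset (fixedField H)) : ∃ (d : ℕ) (b : Module.Basis (Fin d) (fixedField G) L)
      (T : Finset (fixedField G)), ∀ (m j : ℕ), 1 ≤ j → ∀ f : fixedField H,
      f ∈ VV k (QB M Bm H) S m j (fun q => inclusion (fixed_mono hHG) (z q)) →
      ∀ i, trG G (b i * (f : L)) ∈ VV k (QB M Bm G) T m j z := by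
  classical
  have hfin := fixed_finite G
  let b := Module.finBasis (fixedField G) L
  choose T hT using fun i => tr_vvB h hHG hinv hage hz S (b.ne_zero i)
  exact ⟨_, b, Finset.univ.biUnion T, fun m j hj f hf i =>
    vv_monoB (fun s hs => Finset.mem_biUnion.2 ⟨i, Finset.mem_univ _, hs⟩) (hT i m j hj f hf)⟩

/-- Pseudo-effectivity descends. -/
theorem psef_downB [Finite G] (h : IsPermuted M a G σ) {H : Subgroup (L ≃ₐ[k] L)} (hHG : H ≤ G)
    {Bm : ∀ i, Place k (M i) → Prop}
    (hinv : ∀ g ∈ G, ∀ w : Place k L, Bdr M Bm w → Bdr M Bm (w.comp g))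
    (hage : SeniorB M a Bm G σ H) (hp : IsPsef k (fixedField H) (∑ i, a i) (QB M Bm H)) :
    IsPsef k (fixedField G) (∑ i, a i) (QB M Bm G) := by
  classical
  have := Fintype.ofFinite G
  have halgK := Pool.Agent.W721.PG.EFF2.alg_fixed G
  obtain ⟨hnK, z, hz⟩ := Pool.Agent.W721.PG.EFF2.exists_basis (fixedField G) (∑ i, a i) h.total
  obtain ⟨EF, hEF⟩ := Pool.Agent.W636.PG.exists_duals k (fixedField H) _ _ (basis_incl hHG hz)
  obtain ⟨EK, hEK⟩ := Pool.Agent.W636.PG.exists_duals k (fixedField G) _ _ hz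
  obtain ⟨S, hS⟩ := hp
  obtain ⟨d, b, T, hT⟩ := tr_allB h hHG hinv hage hz S
  refine ⟨T, fun N => ?_⟩
  obtain ⟨j, hj, ω, hω, D, hD⟩ := hS N
  obtain ⟨h1, h2⟩ := sec_coeffB (basis_incl hHG hz) hEF hω
  have hf0 : ((ω EF : fixedField H) : L) ≠ 0 := by
    intro h0
    have h3 : ω EF = 0 := Subtype.ext h0
    apply hD
    rw [h2, h3]
    exact mul_zero _
  obtain ⟨i, hi⟩ := exists_tr G b hf0
  have h3 := hT (j * N) j hj _ h1 i
  rw [mem_vvB] at h3
  refine ⟨j, hj, _, h3, EK, ?_⟩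
  rw [pf_eval hEK]
  exact hi

/-- `ν = -∞` ascends. -/
theorem numNeg_upB [Finite G] (h : IsPermuted M a G σ) {H : Subgroup (L ≃ₐ[k] L)} (hHG : H ≤ G)
    {Bm : ∀ i, Place k (M i) → Prop}
    (hinv : ∀ g ∈ G, ∀ w : Place k L, Bdr M Bm w → Bdr M Bm (w.comp g))
    (hage : SeniorB M a Bm G σ H) (hp : NumNeg k (fixedField G) (∑ i, a i) (QB M Bm G)) :
    NumNeg k (fixedField H) (∑ i, a i) (QB M Bm H) := by
  classical
  have := Fintype.ofFinite G
  have halgK := Pool.Agent.W721.PG.EFF2.alg_fixed G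
  obtain ⟨hnK, z, hz⟩ := Pool.Agent.W721.PG.EFF2.exists_basis (fixedField G) (∑ i, a i) h.total
  obtain ⟨EF, hEF⟩ := Pool.Agent.W636.PG.exists_duals k (fixedField H) _ _ (basis_incl hHG hz)
  obtain ⟨EK, hEK⟩ := Pool.Agent.W636.PG.exists_duals k (fixedField G) _ _ hz
  intro S
  obtain ⟨d, b, T, hT⟩ := tr_allB h hHG hinv hage hz S
  obtain ⟨m0, hm0⟩ := hp T
  refine ⟨m0, fun m hm hcon => hm0 m hm ?_⟩
  rw [Pool.Agent.K1H17.IS.hasIndep_one] at hcon ⊢
  obtain ⟨ω, hω, D, hD⟩ := hcon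
  obtain ⟨h1, h2⟩ := sec_coeffB (basis_incl hHG hz) hEF hω
  have hf0 : ((ω EF : fixedField H) : L) ≠ 0 := by
    intro h0
    have h3 : ω EF = 0 := Subtype.ext h0
    apply hD
    rw [h2, h3]
    exact mul_zero _
  obtain ⟨i, hi⟩ := exists_tr G b hf0
  have h3 := hT m 1 le_rfl _ h1 i
  rw [mem_vvB] at h3
  refine ⟨_, h3, EK, ?_⟩
  rw [pf_eval hEK]
  exact hi

/-- Upper bounds of `ν` ascend. -/
theorem numLe_upB [Finite G] (h : IsPermuted M a G σ) {H : Subgroup (L ≃ₐ[k] L)} (hHG : H ≤ G)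
    {Bm : ∀ i, Place k (M i) → Prop}
    (hinv : ∀ g ∈ G, ∀ w : Place k L, Bdr M Bm w → Bdr M Bm (w.comp g))
    (hage : SeniorB M a Bm G σ H) {ν : ℕ}
    (hp : NumLe k (fixedField G) (∑ i, a i) (QB M Bm G) ν) :
    NumLe k (fixedField H) (∑ i, a i) (QB M Bm H) ν := by
  classical
  have := Fintype.ofFinite G
  have halgK := Pool.Agent.W721.PG.EFF2.alg_fixed G
  obtain ⟨hnK, z, hz⟩ := Pool.Agent.W721.PG.EFF2.exists_basis (fixedField G) (∑ i, a i) h.total
  obtain ⟨EF, hEF⟩ := Pool.Agent.W636.PG.exists_duals k (fixedField H) _ _ (basis_incl hHG hz)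
  obtain ⟨EK, hEK⟩ := Pool.Agent.W636.PG.exists_duals k (fixedField G) _ _ hz
  intro S
  obtain ⟨d, b, T, hT⟩ := tr_allB h hHG hinv hage hz S
  obtain ⟨C, hC⟩ := hp T
  refine ⟨d * C, fun m N hm hN => ?_⟩
  obtain ⟨hfinV, hrank⟩ := finrank_VV (QB M Bm G) T m 1 z hz (C * m ^ ν)
    (fun N hN => hC m N hm hN)
  obtain ⟨ω, hω, hsec⟩ := hN
  let V := VV k (QB M Bm G) T m 1 z
  have hc := fun l => sec_coeffB (basis_incl hHG hz) hEF (hsec l)
  let Φ : fixedField H →ₗ[k] (Fin d → fixedField G) :=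
    LinearMap.pi fun i => (trG G).comp ((LinearMap.mulLeft k (b i)).comp
      (fixedField H).val.toLinearMap)
  have hΦ : ∀ f i, Φ f i = trG G (b i * (f : L)) := fun f i => rfl
  have hΦinj : Function.Injective Φ := by
    rw [injective_iff_map_eq_zero]
    intro f hf
    by_contra hf0
    obtain ⟨i, hi⟩ := exists_tr G b (x := (f : L)) (fun h0 => hf0 (Subtype.ext h0))
    apply hi
    rw [← hΦ, hf]
    rfl
  -- independence of the coefficients
  have hind : LinearIndependent k (fun l => ω l EF) := by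
    rw [Fintype.linearIndependent_iff] at hω ⊢
    intro g hg
    refine hω g ?_
    funext D
    rw [Finset.sum_apply]
    simp only [Pi.smul_apply, Pi.zero_apply]
    have h1 : ∀ l, ω l D = (Matrix.of fun p q => D p (inclusion (fixed_mono hHG) (z q))).det ^ m *
        ω l EF := fun l => by
      conv_lhs => rw [(hc l).2]
      rfl
    simp only [h1]
    have h2 : ∀ l, g l • ((Matrix.of fun p q =>
        D p (inclusion (fixed_mono hHG) (z q))).det ^ m * ω l EF) =
        (Matrix.of fun p q => D p (inclusion (fixed_mono hHG) (z q))).det ^ m *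
          (g l • ω l EF) := fun l => (mul_smul_comm _ _ _).symm
    simp only [h2]
    rw [← Finset.mul_sum, hg, mul_zero]
  have hind2 := hind.map' Φ (LinearMap.ker_eq_bot.2 hΦinj)
  let u : Fin N → (Fin d → V) := fun l i => ⟨trG G (b i * ((ω l EF : fixedField H) : L)),
    hT m 1 le_rfl _ (hc l).1 i⟩
  let Ψ : (Fin d → V) →ₗ[k] (Fin d → fixedField G) :=
    LinearMap.pi fun i => V.subtype.comp (LinearMap.proj i)
  have hu : LinearIndependent k u := by
    refine LinearIndependent.of_comp Ψ ?_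
    exact hind2
  have h3 := hu.fintype_card_le_finrank
  rw [Fintype.card_fin, Module.finrank_pi_fintype, Finset.sum_const, Finset.card_univ,
    Fintype.card_fin, smul_eq_mul] at h3
  calc N ≤ d * Module.finrank k V := h3
    _ ≤ d * (C * m ^ ν) := Nat.mul_le_mul_left _ hrank
    _ = d * C * m ^ ν := (mul_assoc _ _ _).symm

/-- The Kodaira dimension descends. -/
theorem kod_downB [Finite G] (h : IsPermuted M a G σ) {H : Subgroup (L ≃ₐ[k] L)} (hHG : H ≤ G)
    {Bm : ∀ i, Place k (M i) → Prop}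
    (hinv : ∀ g ∈ G, ∀ w : Place k L, Bdr M Bm w → Bdr M Bm (w.comp g))
    (hage : SeniorB M a Bm G σ H) {A : ℕ} (hp : KodTrB k (fixedField H) (∑ i, a i) (QB M Bm H) A) :
    KodTrB k (fixedField G) (∑ i, a i) (QB M Bm G) A := by
  classical
  have halgK := Pool.Agent.W721.PG.EFF2.alg_fixed G
  have hfin := fixed_finite G
  have hessL := h.essL
  obtain ⟨hnK, z, hz⟩ := Pool.Agent.W721.PG.EFF2.exists_basis (fixedField G) (∑ i, a i) h.total
  obtain ⟨EF, hEF⟩ := Pool.Agent.W636.PG.exists_duals k (fixedField H) _ _ (basis_incl hHG hz)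
  have hzL : IsTranscendenceBasis k (algebraMap (fixedField G) L ∘ z) := hz.algebraMap_comp
  obtain ⟨EL, hEL⟩ := Pool.Agent.W636.PG.exists_duals k L _ _ hzL
  obtain ⟨m, hm, ω, hω, D, hD0, hDi⟩ := hp
  have hc := fun l => sec_coeffB (basis_incl hHG hz) hEF (hω l)
  have hval : ∀ l, ω l D = (Matrix.of fun p q => D p (inclusion (fixed_mono hHG) (z q))).det ^ m *
      ω l EF := fun l => by
    conv_lhs => rw [(hc l).2]
    rfl
  have hdet0 : (Matrix.of fun p q => D p (inclusion (fixed_mono hHG) (z q))).det ^ m ≠ 0 := by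
    intro h0
    apply hD0 0
    rw [hval, h0, zero_mul]
  have hE0 : ∀ l, ω l EF ≠ 0 := by
    intro l h0
    apply hD0 l
    rw [hval, h0, mul_zero]
  obtain ⟨S', hS'⟩ := locB h hHG hinv hage hz {1}
  have hev : ∀ l, PF (fun q => (z q : L)) m ((ω l EF : fixedField H) : L) EL =
      ((ω l EF : fixedField H) : L) := fun l => pf_eval hEL m _
  refine Pool.Agent.H908.VA.desc4 (n := ∑ i, a i) (A := A) (m := m) hm h.total hessL G
    (fun l => PF (fun q => (z q : L)) m ((ω l EF : fixedField H) : L)) (fun l => pf_pluri _ _ _)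
    EL (fun l => ?_) ?_ (QB M Bm G) ?_ ?_
  · rw [hev]
    exact fun h0 => hE0 l (Subtype.ext h0)
  · simp only [hev]
    have h1 : (fun l : Fin A => ((ω l.succ EF : fixedField H) : L) / ((ω 0 EF : fixedField H) : L)) =
        fun l : Fin A => (fixedField H).val (ω l.succ D / ω 0 D) := by
      funext l
      rw [hval, hval, mul_div_mul_left _ _ hdet0]
      rfl
    rw [h1]
    exact (AlgHom.algebraicIndependent_iff (fixedField H).val (Subtype.val_injective)).2 hDi
  · intro v hv hvB w e hwv hin D1 D' hD hD' l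
    exact dom_ge (hS' m 0 _ (hc l).1 v hv w e hwv hin D1 D' (Or.inl ⟨hvB, hD⟩) hD')
  · intro v hv hvB w e hwv D1 D' hD hD' l
    exact dom_ge (log_dom h hHG hinv hz (hc l).1 hv hvB hwv D1 D' hD hD')

/-- **The quotients by `G` and by `H`.** -/
theorem main_iffB [Finite G] (h : IsPermuted M a G σ) {H : Subgroup (L ≃ₐ[k] L)} (hHG : H ≤ G)
    {Bm : ∀ i, Place k (M i) → Prop}
    (hinv : ∀ g ∈ G, ∀ w : Place k L, Bdr M Bm w → Bdr M Bm (w.comp g))
    (hage : SeniorB M a Bm G σ H) :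
    (∀ A, KodTrB k (fixedField G) (∑ i, a i) (QB M Bm G) A ↔ KodTrB k (fixedField H) (∑ i, a i) (QB M Bm H) A) ∧
    (IsPsef k (fixedField G) (∑ i, a i) (QB M Bm G) ↔
      IsPsef k (fixedField H) (∑ i, a i) (QB M Bm H)) ∧
    (NumNeg k (fixedField G) (∑ i, a i) (QB M Bm G) ↔
      NumNeg k (fixedField H) (∑ i, a i) (QB M Bm H)) ∧
    (∀ A, NumLe k (fixedField G) (∑ i, a i) (QB M Bm G) A ↔
      NumLe k (fixedField H) (∑ i, a i) (QB M Bm H) A) := by
  obtain ⟨h1, h2, h3, h4⟩ := easyB hHG hinv h.total h.essL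
  exact ⟨fun A => ⟨h4 A, kod_downB h hHG hinv hage⟩, ⟨h1, psef_downB h hHG hinv hage⟩,
    ⟨numNeg_upB h hHG hinv hage, h2⟩, fun A => ⟨numLe_upB h hHG hinv hage, h3 A⟩⟩

end

end Pool.Agent.H908.WA
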