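import Pool.Agent.H908.WA6
import Pool.Graph.R_seed8.W619.Y.LRes

/-! The logarithmic pluricanonical forms on the quotients by `G` and by a subgroup which contains the
elements of age less than one outside the boundary. -/

set_option autoImplicit false
set_option linter.overlappingInstances false
set_option linter.unusedSectionVars false
set_option linter.unusedVariables false
set_option linter.style.haveILetI false

open FF IntermediateField Pool.Agent.W619.PQ Pool.Agent.W619.PL Pool.Agent.W619.TW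
  Pool.Agent.W603.LV Pool.Agent.W619.Y Pool.Agent.W672.PG Pool.Agent.W824.PG Pool.Agent.Y174
  Pool.Agent.K1H17.IS Pool.Agent.K1H6.PQ Pool.Agent.W460.PG.ONE

namespace Pool.Agent.H908.WA

open Pool.Agent.H908.SB (PF pf_pluri pf_eval ge_lift)
open Pool.Agent.H908.SE

section

variable {k : Type} {K : Type} [Field k] [CharZero k] [Field K] [Algebra k K]

theorem sec_iff_regB {Bd : Place k K → Prop} {n m : ℕ} {ω : (Fin n → Derivation k K K) → K} :
    IsSec k K n Bd {1} m 0 ω ↔ IsPluriForm k K n m ω ∧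
      (∀ v : Place k K, IsDivisorial v n → ¬ Bd v → RegularAt v n ω) ∧
      (∀ v : Place k K, IsDivisorial v n → Bd v → LogRegularAt v n ω) := by
  constructor
  · intro h
    exact ⟨h.1, fun v hv hb D hD => dom_one.1 (h.2.1 v hv hb D hD),
      fun v hv hb D hD => dom_one.1 (h.2.2 v hv hb D hD)⟩
  · intro h
    exact ⟨h.1, fun v hv hb D hD => dom_one.2 (h.2.1 v hv hb D hD),
      fun v hv hb D hD => dom_one.2 (h.2.2 v hv hb D hD)⟩

theorem kodB0_iff {Bd : Place k K → Prop} {n : ℕ} :
    ¬ KodTrB k K n Bd 0 ↔ LogKodairaNeg k K n Bd := by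
  constructor
  · intro h m hm ω hω h1 h2 D
    by_contra hD
    apply h
    refine ⟨m, hm, fun _ => ω, fun _ => sec_iff_regB.2 ⟨hω, h1, h2⟩, D, fun _ => hD, ?_⟩
    exact (algebraicIndependent_empty_type_iff).2 (algebraMap k K).injective
  · rintro h ⟨m, hm, ω, hω, D, hD, -⟩
    obtain ⟨h1, h2, h3⟩ := sec_iff_regB.1 (hω 0)
    exact hD 0 (h m hm (ω 0) h1 h2 h3 D)

end

section

variable {k : Type} {L : Type} [Field k] [CharZero k] [IsAlgClosed k] [Field L] [Algebra k L]
variable {r : ℕ} {M : Fin r → IntermediateField k L} {a : Fin r → ℕ}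
  {G : Subgroup (L ≃ₐ[k] L)} {σ : G →* Equiv.Perm (Fin r)}

/-- **Logarithmic pluricanonical forms.** -/
theorem regular_iffB [Finite G] (h : IsPermuted M a G σ) {H : Subgroup (L ≃ₐ[k] L)} (hHG : H ≤ G)
    {Bm : ∀ i, Place k (M i) → Prop}
    (hinv : ∀ g ∈ G, ∀ w : Place k L, Bdr M Bm w → Bdr M Bm (w.comp g))
    (hage : SeniorB M a Bm G σ H) {m : ℕ}
    {ω : (Fin (∑ i, a i) → Derivation k (fixedField G) (fixedField G)) → fixedField G}
    {ω' : (Fin (∑ i, a i) → Derivation k (fixedField H) (fixedField H)) → fixedField H}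
    (hω : IsPluriForm k (fixedField G) (∑ i, a i) m ω)
    (hω' : IsPluriForm k (fixedField H) (∑ i, a i) m ω') (hpull : IsPullback hHG ω ω') :
    IsSec k (fixedField G) (∑ i, a i) (QB M Bm G) {1} m 0 ω ↔
      IsSec k (fixedField H) (∑ i, a i) (QB M Bm H) {1} m 0 ω' := by
  classical
  have halgK := Pool.Agent.W721.PG.EFF2.alg_fixed G
  have hfin := fixed_finite G
  have hessL := h.essL
  obtain ⟨hnK, z, hz⟩ := Pool.Agent.W721.PG.EFF2.exists_basis (fixedField G) (∑ i, a i) h.total
  have hessK : Algebra.EssFiniteType k (fixedField G) := ess_down hessL z hz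
  letI := algGH hHG
  haveI := tower1 hHG
  haveI := tower2 hHG
  have f1 : FiniteDimensional (fixedField G) (fixedField H) :=
    FiniteDimensional.left (fixedField G) (fixedField H) L
  obtain ⟨EK, hEK⟩ := Pool.Agent.W636.PG.exists_duals k (fixedField G) _ _ hz
  choose extF hextF hextF2 hextF3 using
    Pool.Agent.Y174.pEXT k (fixedField G) (fixedField H) (∑ i, a i) hnK
  have hzF := basis_incl hHG hz
  have hEF : ∀ i j, extF (EK i) (inclusion (fixed_mono hHG) (z j)) = if i = j then 1 else 0 := by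
    intro i j
    have h1 := hextF (EK i) (z j)
    rw [hEK] at h1
    rw [show inclusion (fixed_mono hHG) (z j) = algebraMap (fixedField G) (fixedField H) (z j)
      from rfl, h1]
    split_ifs <;> simp
  have hf' : ω' (fun j => extF (EK j)) = inclusion (fixed_mono hHG) (ω EK) :=
    hpull EK _ fun j f => hextF (EK j) f
  constructor
  · intro hs
    obtain ⟨h1, h2⟩ := sec_coeffB hz hEK hs
    have h3 := vv_mapB (L := fixedField H) hessK hnK hz h1
    rw [bdUp_GH hHG hinv, Finset.image_singleton, map_one, mem_vvB] at h3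
    have h4 : ω' = PF (fun q => algebraMap (fixedField G) (fixedField H) (z q)) m
        (algebraMap (fixedField G) (fixedField H) (ω EK)) := by
      funext D
      rw [Pool.Agent.W636.PG.form_eq k (fixedField H) _ m _ hzF _ hEF ω' hω' D, hf']
      rfl
    rw [h4]
    exact h3
  · intro hs
    obtain ⟨h1, h2⟩ := sec_coeffB hzF hEF hs
    rw [hf'] at h1
    obtain ⟨S', hS'⟩ := locB h hHG hinv hage hz {1}
    suffices hsuff : ∀ v : Place k (fixedField G), IsDivisorial v (∑ i, a i) →
        ∀ D : Fin (∑ i, a i) → Derivation k (fixedField G) (fixedField G), Vf (QB M Bm G) v D →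
        Dom v {1} 0 (ω D) from
      ⟨hω, fun v hv hb D hD => hsuff v hv D (Or.inl ⟨hb, hD⟩),
        fun v hv hb D hD => hsuff v hv D (Or.inr ⟨hb, hD⟩)⟩
    intro v hv D hD
    obtain ⟨w, e, I, hwv, hcard, hI⟩ := exists_inertia G v
    choose ext hext hext2 hext3 using Pool.Agent.Y174.pEXT k (fixedField G) L (∑ i, a i) hnK
    have hin : 2 ≤ e → ∃ g ∈ G, g ≠ 1 ∧ orderOf g = e ∧ Inert w g := by
      intro he
      obtain ⟨g, hg, hord, -⟩ := exists_generator w I hI
      refine ⟨g, g.2, fun h0 => ?_, hord.trans hcard, hI g hg⟩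
      rw [h0, orderOf_one, hcard] at hord
      omega
    have h6 := hS' m 0 _ h1 v hv w e hwv hin D (fun j => ext (D j)) hD (fun j f => hext _ f)
    have h7 := dom_ge h6
    have h8 : PF (fun q => (z q : L)) m ((inclusion (fixed_mono hHG) (ω EK) : fixedField H) : L)
        (fun j => ext (D j)) = ((ω D : fixedField G) : L) := by
      rw [Pool.Agent.W636.PG.form_eq k (fixedField G) _ m z hz EK hEK ω hω D]
      unfold PF
      change _ = algebraMap (fixedField G) L ((Matrix.of fun p q => D p (z q)).det ^ m * ω EK)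
      rw [map_mul, map_pow, RingHom.map_det]
      refine congrArg₂ (· * ·) (congrArg (fun X : Matrix _ _ L => X.det ^ m) ?_) rfl
      ext p q
      exact hext (D p) (z q)
    rw [h8] at h7
    rw [dom_one, ← hwv.reg]
    exact h7

theorem neg_iffB [Finite G] (h : IsPermuted M a G σ) {H : Subgroup (L ≃ₐ[k] L)} (hHG : H ≤ G)
    {Bm : ∀ i, Place k (M i) → Prop}
    (hinv : ∀ g ∈ G, ∀ w : Place k L, Bdr M Bm w → Bdr M Bm (w.comp g))
    (hage : SeniorB M a Bm G σ H) :
    LogKodairaNeg k (fixedField G) (∑ i, a i) (QB M Bm G) ↔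
      LogKodairaNeg k (fixedField H) (∑ i, a i) (QB M Bm H) := by
  rw [← kodB0_iff, ← kodB0_iff, (main_iffB h hHG hinv hage).1]

/-- `A¹`-uniruledness descends. -/
theorem a1_down [Finite G] {Bm : ∀ i, Place k (M i) → Prop} {H : Subgroup (L ≃ₐ[k] L)}
    (hHG : H ≤ G) (hinv : ∀ g ∈ G, ∀ w : Place k L, Bdr M Bm w → Bdr M Bm (w.comp g)) {n : ℕ}
    (h : IsA1Uniruled k (fixedField H) n (QB M Bm H)) :
    IsA1Uniruled k (fixedField G) n (QB M Bm G) := by
  obtain ⟨F, i1, i2, φ, h1, h2, h3⟩ := h
  refine ⟨F, i1, i2, φ.comp (inclusion (fixed_mono hHG)), h1, h2, ?_⟩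
  intro w hw v e he hv hvB
  obtain ⟨t, ht0, ht⟩ := v.surj
  have hwt : w.ord (φ (inclusion (fixed_mono hHG) t)) = e := by
    have h4 := hv t
    rw [ht, mul_one] at h4
    exact h4
  obtain ⟨u, c, hc, hu⟩ := exists_restrict w (φ : fixedField H →+* RatFunc F)
    (fun c hc => by
      have h4 : (φ : fixedField H →+* RatFunc F) (algebraMap k (fixedField H) c) =
          algebraMap F (RatFunc F) (algebraMap k F c) := by
        change φ (algebraMap k (fixedField H) c) = _
        rw [AlgHom.commutes]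
        exact (IsScalarTower.algebraMap_apply k F (RatFunc F) c)
      rw [h4]
      exact w.ord_const ((map_ne_zero_iff _ (algebraMap k F).injective).2 hc))
    (f0 := inclusion (fixed_mono hHG) t) (by
      change w.ord (φ (inclusion (fixed_mono hHG) t)) ≠ 0
      rw [hwt]
      omega)
  refine h3 w hw u c hc hu ?_
  letI := algGH hHG
  have h5 : (e : ℤ) = c * u.ord (inclusion (fixed_mono hHG) t) := by
    rw [← hwt]
    exact hu _
  obtain ⟨q, hq⟩ : c ∣ e := Int.natCast_dvd_natCast.1 ⟨_, h5⟩
  have hq0 : 0 < q := by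
    rcases Nat.eq_zero_or_pos q with h0 | h0
    · rw [h0, mul_zero] at hq; omega
    · exact h0
  have huv : Over u v q := by
    refine ⟨hq0, fun f => ?_⟩
    have h6 : w.ord (φ (inclusion (fixed_mono hHG) f)) = e * v.ord f := hv f
    have h7 : w.ord (φ (inclusion (fixed_mono hHG) f)) = c * u.ord (inclusion (fixed_mono hHG) f) :=
      hu _
    rw [h6, hq] at h7
    push_cast at h7
    rw [mul_assoc] at h7
    have hcz : (c : ℤ) ≠ 0 := by exact_mod_cast hc.ne'
    exact (mul_left_cancel₀ hcz h7).symm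
  rw [← bdUp_GH hHG hinv]
  exact ⟨v, q, huv, hvB⟩

end

end Pool.Agent.H908.WA
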