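import Pool.Agent.H908.WA7
import Pool.Agent.H908.SF4

/-! Products of sections on the factors of a product, with boundary. -/

set_option autoImplicit false
set_option linter.overlappingInstances false
set_option linter.unusedSectionVars false
set_option linter.unusedVariables false

open FF IntermediateField Pool.Agent.W619.PQ Pool.Agent.W619.PL Pool.Agent.W619.TW
  Pool.Agent.W603.LV Pool.Agent.W619.Y Pool.Agent.W672.PG Pool.Agent.W824.PG Pool.Agent.Y174
  Pool.Agent.K1H17.IS Pool.Agent.K1H6.PQ Pool.Agent.W460.PG.ONE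

namespace Pool.Agent.H908.WA

open Pool.Agent.H908.SB (PF pf_pluri pf_eval ge_lift desc3 det_change)
open Pool.Agent.H908.SE

section

variable {k : Type} {L : Type} [Field k] [CharZero k] [IsAlgClosed k] [Field L] [Algebra k L]

theorem pres_of_log {w : Place k L} {D : Derivation k L L} (hD : ∀ z, w.Reg (D z / z)) :
    Pres w D := by
  intro z hz
  by_cases h0 : z = 0
  · rw [h0, map_zero]
    exact w.reg_zero
  · have h1 : D z = z * (D z / z) := by field_simp
    rw [h1]
    exact w.reg_mul hz (hD z)

/-- Good coordinates for sections, with boundary. -/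
theorem good_frameB {w : Place k L} {N : ℕ} (hw : IsDivisorial w N) (hn : Algebra.trdeg k L = N)
    (M : IntermediateField k L) {a : ℕ} (ha : Algebra.trdeg k M = a)
    (hess : Algebra.EssFiniteType k M) (BM : Place k M → Prop) :
    ∃ (X : Fin a → M) (E : Fin a → Derivation k M M) (s : Fin a → M), IsTranscendenceBasis k X ∧
      (∀ p q, E p (X q) = if p = q then 1 else 0) ∧ (∀ q, s q ≠ 0) ∧
      (∀ D : Derivation k L L, (∀ z, w.Reg (D z / z)) → ∀ q, Ge w 0 (D (X q : L) / (s q : L))) ∧
      ((∀ u c, Over w u c → ¬ BM u) → ∀ D : Derivation k L L, Pres w D →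
        ∀ q, Ge w 0 (D (X q : L) / (s q : L))) ∧
      ∀ (T : Finset M) (m j : ℕ) (y : Fin a → M) (f : M), (1 : M) ∈ T →
        f ∈ VV k BM T m j y → (∏ q, s q) ^ m * PF y m f E = 0 ∨
          ∃ t ∈ T, t ≠ 0 ∧
            (j : ℤ) * w.ord (t : L) ≤ w.ord (((∏ q, s q) ^ m * PF y m f E : M) : L) := by
  classical
  by_cases hT : ∃ f : M, w.ord (algebraMap M L f) ≠ 0
  · obtain ⟨c, u, hu⟩ := exists_over (K := M) w hT
    have hdiv : IsDivisorial u a := Pool.Agent.Y174.pDIVR k M L a N u w c ha hn hu hw
    obtain ⟨y, F, i0, hy, hF, ht, hyr, hpres⟩ := Pool.Agent.Y174.pFRAME k M a ha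
      (fun y hy => fin_adj hess y hy) u hdiv
    have ht0 : y i0 ≠ 0 := by
      intro h0
      rw [h0, u.ord_zero] at ht
      omega
    by_cases hB : BM u
    · let s : Fin a → M := fun q => if q = i0 then y i0 else 1
      have hs0 : ∀ q, s q ≠ 0 := by
        intro q
        change (if q = i0 then y i0 else 1) ≠ 0
        split_ifs
        · exact ht0
        · exact one_ne_zero
      have hprod : ∏ q, s q = y i0 := by
        change ∏ q, (if q = i0 then y i0 else 1) = _
        rw [Finset.prod_ite_eq' Finset.univ i0, if_pos (Finset.mem_univ _)]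
      refine ⟨y, F, s, hy, hF, hs0, fun D hD q => ?_, fun h => absurd hB (h u c hu),
        fun T m j y' f h1 hf => ?_⟩
      · by_cases hq : q = i0
        · subst hq
          have h2 : s q = y q := if_pos rfl
          rw [h2]
          exact hD _
        · have h2 : s q = 1 := if_neg hq
          have h3 : ((s q : M) : L) = 1 := by rw [h2]; rfl
          rw [h3, div_one]
          exact pres_of_log hD _ (hu.reg.2 (hyr q))
      · rw [mem_vvB] at hf
        have hlog : ∀ l z, u.Reg ((s l • F l) z / z) := by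
          intro l z
          have hp : Pres u (s l • F l) := by
            intro x hx
            have h3 : (s l • F l) x = s l * F l x := by
              rw [Derivation.smul_apply, smul_eq_mul]
            rw [h3]
            refine u.reg_mul ?_ (hpres l x hx)
            change u.Reg (if l = i0 then y i0 else 1)
            split_ifs
            · exact hyr _
            · right
              rw [u.ord_one]
          refine log_of_pres u (s l • F l) hp ht0 ht ?_ z
          have h3 : (s l • F l) (y i0) = s l * F l (y i0) := by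
            rw [Derivation.smul_apply, smul_eq_mul]
          rw [h3, hF]
          by_cases hl : l = i0
          · have h4 : s l = y i0 := if_pos hl
            rw [if_pos hl, h4, mul_one, div_self ht0]
            right
            rw [u.ord_one]
          · rw [if_neg hl, mul_zero, zero_div]
            exact u.reg_zero
        have h2 : PF y' m f (fun l => s l • F l) = (∏ q, s q) ^ m * PF y' m f F := by
          have h3 := (pf_pluri (k := k) y' m f) (Matrix.diagonal s) F
          rw [Matrix.det_diagonal] at h3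
          rw [← h3]
          congr 1
          funext i
          rw [Finset.sum_eq_single i]
          · rw [Matrix.diagonal_apply_eq]
          · intro b _ hb
            rw [Matrix.diagonal_apply_ne _ hb.symm, zero_smul]
          · intro h
            exact absurd (Finset.mem_univ _) h
        rcases hf.2.2 u hdiv hB (fun l => s l • F l) hlog with h3 | ⟨t, ht, ht0, h3⟩
        · left
          rw [← h2]
          exact h3
        · right
          refine ⟨t, ht, ht0, ?_⟩
          rw [← h2]
          have e1 : w.ord (t : L) = c * u.ord t := hu.2 t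
          have e2 : w.ord ((PF y' m f (fun l => s l • F l) : M) : L) =
            c * u.ord (PF y' m f (fun l => s l • F l)) :=
              hu.2 (PF y' m f (fun l => s l • F l))
          rw [e1, e2, mul_left_comm]
          exact mul_le_mul_of_nonneg_left h3 (Int.natCast_nonneg c)
    · refine ⟨y, F, fun _ => 1, hy, hF, fun q => one_ne_zero, fun D hD q => ?_,
        fun _ D hD q => ?_, fun T m j y' f h1 hf => ?_⟩
      · change Ge w 0 (D (y q : L) / 1)
        rw [div_one]
        exact pres_of_log hD _ (hu.reg.2 (hyr q))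
      · change Ge w 0 (D (y q : L) / 1)
        rw [div_one]
        exact hD _ (hu.reg.2 (hyr q))
      · rw [mem_vvB] at hf
        rw [Finset.prod_const_one, one_pow, one_mul]
        rcases hf.2.1 u hdiv hB F hpres with h2 | ⟨t, ht, ht0, h2⟩
        · exact Or.inl h2
        · right
          refine ⟨t, ht, ht0, ?_⟩
          have e1 : w.ord (t : L) = c * u.ord t := hu.2 t
          have e2 : w.ord ((PF y' m f F : M) : L) = c * u.ord (PF y' m f F) :=
            hu.2 (PF y' m f F)
          rw [e1, e2, mul_left_comm]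
          exact mul_le_mul_of_nonneg_left h2 (Int.natCast_nonneg c)
  · push Not at hT
    obtain ⟨X, hX⟩ := Pool.Agent.W636.PG.exists_basis k M a ha
    obtain ⟨E, hE⟩ := Pool.Agent.W636.PG.exists_duals k M a X hX
    have h0 : ∀ f : M, w.ord (f : L) = 0 := hT
    refine ⟨X, E, fun _ => 1, hX, hE, fun q => one_ne_zero, fun D hD q => ?_,
      fun _ D hD q => ?_, fun T m j y f h1 hf => Or.inr ?_⟩
    · change Ge w 0 (D (X q : L) / 1)
      rw [div_one]
      exact pres_of_log hD _ (Or.inr (h0 _).ge)
    · change Ge w 0 (D (X q : L) / 1)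
      rw [div_one]
      exact hD _ (Or.inr (h0 _).ge)
    · exact ⟨1, h1, one_ne_zero, by rw [h0, h0, mul_zero]⟩

variable {r : ℕ} {M : Fin r → IntermediateField k L} {a : Fin r → ℕ}

/-- **Products of sections.** -/
theorem prod_secB (hess : ∀ i, Algebra.EssFiniteType k (M i))
    (hM : ∀ i, Algebra.trdeg k (M i) = a i)
    (hn : Algebra.trdeg k L = (∑ i, a i : ℕ)) (Bm : ∀ i, Place k (M i) → Prop)
    {y : ∀ i, Fin (a i) → M i} (τ : (Σ i, Fin (a i)) ≃ Fin (∑ i, a i))
    {T : ∀ i, Finset (M i)} (h1 : ∀ i, (1 : M i) ∈ T i) : ∃ T' : Finset L, ∀ (m j : ℕ)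
      (f : ∀ i, M i), (∀ i, f i ∈ VV k (Bm i) (T i) m j (y i)) →
      (∏ i, (f i : L)) ∈ VV k (Bdr M Bm) T' m j (YY y τ) := by
  classical
  refine ⟨(Fintype.piFinset T).image (fun s => ∏ i, (s i : L)), fun m j f hf => ?_⟩
  rw [mem_vvB]
  suffices hsuff : ∀ w : Place k L, IsDivisorial w (∑ i, a i) →
      ∀ D : Fin (∑ i, a i) → Derivation k L L, Vf (Bdr M Bm) w D →
      Dom w ((Fintype.piFinset T).image (fun s => ∏ i, (s i : L))) j
        (PF (YY y τ) m (∏ i, (f i : L)) D) from
    ⟨pf_pluri _ _ _, fun v hv hb D hD => hsuff v hv D (Or.inl ⟨hb, hD⟩),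
      fun v hv hb D hD => hsuff v hv D (Or.inr ⟨hb, hD⟩)⟩
  intro w hw D hD
  choose X E' s hX hE' hs0 hlogr hpresr hgood using fun i =>
    good_frameB hw hn (M i) (hM i) (hess i) (Bm i)
  have hreg : ∀ l (j : Σ i, Fin (a i)), Ge w 0 (D l (X j.1 j.2 : L) / (s j.1 j.2 : L)) := by
    intro l j
    rcases hD with ⟨hb, hD⟩ | ⟨hb, hD⟩
    · exact hpresr j.1 (fun u c hu hB => hb ⟨j.1, u, c, hu, hB⟩) (D l) (hD l) j.2
    · exact hlogr j.1 (D l) (hD l) j.2
  have hsL : ∀ j : (Σ i, Fin (a i)), (s j.1 j.2 : L) ≠ 0 := fun j h0 =>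
    hs0 j.1 j.2 (Subtype.ext h0)
  let Q : Matrix (Σ i, Fin (a i)) (Σ i, Fin (a i)) L :=
    Matrix.of fun i j => D (τ i) (X j.1 j.2 : L) / (s j.1 j.2 : L)
  have hdet : (Matrix.of fun i j : (Σ i, Fin (a i)) => D (τ i) (X j.1 j.2 : L)).det =
      (∏ i, ∏ q, (s i q : L)) * Q.det := by
    have h3 := Matrix.det_mul_row (fun j : (Σ i, Fin (a i)) => (s j.1 j.2 : L)) Q
    rw [Fintype.prod_sigma] at h3
    rw [← h3]
    congr 1
    ext i j
    change D (τ i) (X j.1 j.2 : L) = (s j.1 j.2 : L) *
      (D (τ i) (X j.1 j.2 : L) / (s j.1 j.2 : L))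
    rw [← mul_div_assoc, mul_div_cancel_left₀ _ (hsL j)]
  have e1 : PF (YY y τ) m (∏ i, (f i : L)) D =
      Q.det ^ m * ∏ i, (((∏ q, s i q) ^ m * PF (y i) m (f i) (E' i) : M i) : L) := by
    rw [pf_sigma, det_change y X hX E' hE' (fun i => D (τ i)), hdet]
    have h4 : ∀ i, (((∏ q, s i q) ^ m * PF (y i) m (f i) (E' i) : M i) : L) =
        (∏ q, (s i q : L)) ^ m * ((PF (y i) m (f i) (E' i) : M i) : L) := by
      intro i
      push_cast
      rfl
    simp only [h4]
    rw [Finset.prod_mul_distrib, Finset.prod_pow, mul_pow, mul_pow]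
    have h5 : (∏ i, ((PF (y i) m (f i) (E' i) : M i) : L)) =
        (∏ i, (((Matrix.of fun p q => E' i p (y i q)).det : M i) : L)) ^ m *
          ∏ i, ((f i : M i) : L) := by
      rw [← Finset.prod_pow, ← Finset.prod_mul_distrib]
      refine Finset.prod_congr rfl fun i _ => ?_
      rfl
    rw [h5]
    ring
  rw [e1]
  have h2 : Ge w 0 (Q.det ^ m) := by
    have h3 : Ge w 0 Q.det := ge_det w _ fun i j => hreg _ _
    have h4 := h3.pow m
    simpa using h4
  set P : ∀ i, M i := fun i => (∏ q, s i q) ^ m * PF (y i) m (f i) (E' i) with hP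
  change Dom w _ j (Q.det ^ m * ∏ i, ((P i : M i) : L))
  by_cases h0 : ∃ i, P i = 0
  · obtain ⟨i, hi⟩ := h0
    left
    rw [Finset.prod_eq_zero (Finset.mem_univ i) (by rw [hi]; rfl), mul_zero]
  push Not at h0
  have h0' : ∀ i, ((P i : M i) : L) ≠ 0 := fun i h => h0 i (Subtype.ext h)
  choose t ht ht0 hle using fun i => (hgood i (T i) m j (y i) (f i) (h1 i) (hf i)).resolve_left (h0 i)
  have ht0' : ∀ i, (t i : L) ≠ 0 := fun i h => ht0 i (Subtype.ext h)
  rcases h2 with h2 | h2
  · left; rw [h2, zero_mul]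
  by_cases hd : Q.det ^ m = 0
  · left; rw [hd, zero_mul]
  right
  refine ⟨∏ i, (t i : L), Finset.mem_image.2 ⟨t, Fintype.mem_piFinset.2 ht, rfl⟩,
    Finset.prod_ne_zero_iff.2 fun i _ => ht0' i, ?_⟩
  rw [w.ord_mul hd (Finset.prod_ne_zero_iff.2 fun i _ => h0' i), ord_prod ht0', ord_prod h0',
    Finset.mul_sum]
  have h5 : ∑ i, (j : ℤ) * w.ord (t i : L) ≤ ∑ i, w.ord ((P i : M i) : L) :=
    Finset.sum_le_sum fun i _ => hle i
  omega

end

end Pool.Agent.H908.WA
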