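import Pool.Agent.H908.WB1

/-! Kodaira dimension of a product, with boundary. -/

set_option autoImplicit false
set_option linter.overlappingInstances false
set_option linter.unusedSectionVars false
set_option linter.unusedVariables false

open FF IntermediateField Pool.Agent.W619.PQ Pool.Agent.W619.PL Pool.Agent.W619.TW
  Pool.Agent.W603.LV Pool.Agent.W619.Y Pool.Agent.W672.PG Pool.Agent.W824.PG Pool.Agent.Y174
  Pool.Agent.K1H17.IS Pool.Agent.K1H6.PQ Pool.Agent.W460.PG.ONE

namespace Pool.Agent.H908.WA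

open Pool.Agent.H908.SB (PF pf_pluri pf_eval ge_lift desc3 det_change)
open Pool.Agent.H908.SE

section

variable {k : Type} {K : Type} [Field k] [CharZero k] [Field K] [Algebra k K]

/-- Powers of sections. -/
theorem vv_powB {Bd : Place k K → Prop} {n : ℕ} {y : Fin n → K} {m : ℕ} {f : K}
    (hf : f ∈ VV k Bd {1} m 0 y) (p : ℕ) : f ^ p ∈ VV k Bd {1} (m * p) 0 y := by
  rw [mem_vvB] at hf ⊢
  have h1 : ∀ D, PF (k := k) y (m * p) (f ^ p) D = PF y m f D ^ p := by
    intro D
    unfold PF
    rw [mul_pow, pow_mul]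
  refine ⟨pf_pluri _ _ _, fun v hv hb D hD => ?_, fun v hv hb D hD => ?_⟩
  · rw [h1, dom_one]
    have h2 : Ge v 0 (PF y m f D) := dom_one.1 (hf.2.1 v hv hb D hD)
    exact ge_pow0 h2 p
  · rw [h1, dom_one]
    have h2 : Ge v 0 (PF y m f D) := dom_one.1 (hf.2.2 v hv hb D hD)
    exact ge_pow0 h2 p

theorem vv_oneB {Bd : Place k K → Prop} {n : ℕ} {y : Fin n → K} {m : ℕ} {f : K} {S : Finset K}
    (hf : f ∈ VV k Bd S m 0 y) : f ∈ VV k Bd {1} m 0 y := by
  rw [mem_vvB] at hf ⊢
  exact ⟨pf_pluri _ _ _, fun v hv h1 D hD => dom_one.2 (dom_ge (hf.2.1 v hv h1 D hD)),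
    fun v hv h1 D hD => dom_one.2 (dom_ge (hf.2.2 v hv h1 D hD))⟩

end

section

variable {k : Type} {L : Type} [Field k] [CharZero k] [IsAlgClosed k] [Field L] [Algebra k L]
variable {r : ℕ} {M : Fin r → IntermediateField k L} {a : Fin r → ℕ}

/-- **Upper bound of the Kodaira dimension of a product.** -/
theorem kod_leB (Bm : ∀ i, Place k (M i) → Prop)
    (hess : ∀ i, Algebra.EssFiniteType k (M i)) (hM : ∀ i, Algebra.trdeg k (M i) = a i)
    (hn : Algebra.trdeg k L = (∑ i, a i : ℕ)) (hsup : (⨆ i, M i) = ⊤) {h : ℕ}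
    (hk : KodTrB k L (∑ i, a i) (Bdr M Bm) h) :
    ∃ α : Fin r → ℕ, (∀ i, KodTrB k (M i) (a i) (Bm i) (α i)) ∧ h ≤ ∑ i, α i := by
  classical
  obtain ⟨τ⟩ : Nonempty ((Σ i, Fin (a i)) ≃ Fin (∑ i, a i)) := ⟨finSigmaFinEquiv⟩
  choose y hy using fun i => Pool.Agent.W636.PG.exists_basis k (M i) (a i) (hM i)
  choose Ei hEi using fun i => Pool.Agent.W636.PG.exists_duals k (M i) (a i) (y i) (hy i)
  have hYY := yy_basis hsup hn hy τ
  obtain ⟨E, hE⟩ := Pool.Agent.W636.PG.exists_duals k L _ _ hYY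
  obtain ⟨m, hm, ω, hω, D, hD0, hDi⟩ := hk
  have hc := fun l => sec_coeffB hYY hE (hω l)
  have hval : ∀ l, ω l D = (Matrix.of fun p q => D p (YY y τ q)).det ^ m * ω l E := fun l => by
    conv_lhs => rw [(hc l).2]
    rfl
  have hdet0 : (Matrix.of fun p q => D p (YY y τ q)).det ^ m ≠ 0 := by
    intro h0
    apply hD0 0
    rw [hval, h0, zero_mul]
  have hE0 : ∀ l, ω l E ≠ 0 := by
    intro l h0
    apply hD0 l
    rw [hval, h0, mul_zero]
  have hind : AlgebraicIndependent k (fun l : Fin h => ω l.succ E / ω 0 E) := by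
    have e1 : (fun l : Fin h => ω l.succ E / ω 0 E) = fun l : Fin h => ω l.succ D / ω 0 D := by
      funext l
      rw [hval, hval, mul_div_mul_left _ _ hdet0]
    rw [e1]
    exact hDi
  obtain ⟨b0, T, hb0, hkun⟩ := kunB (k := k) r L M Bm a hess hM hn hsup y hy _ τ {1}
  choose ι hι c p hp hsum using fun l => hkun m 0 (ω l E) (hc l).1
  simp only [pow_zero, one_mul] at hsum
  -- a nonzero product
  obtain ⟨s0, hs0⟩ : ∃ s0 : ι 0, ∀ i, p 0 s0 i ≠ 0 := by
    obtain ⟨s0, -, hs0⟩ := Finset.exists_ne_zero_of_sum_ne_zero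
      (by rw [← hsum 0]; exact hE0 0 :
        ∑ l, algebraMap k L (c 0 l) * ∏ i, ((p 0 l i : M i) : L) ≠ 0)
    refine ⟨s0, fun i hi => hs0 ?_⟩
    rw [Finset.prod_eq_zero (Finset.mem_univ i) (by rw [hi]; rfl), mul_zero]
  let q : ∀ i, M i := fun i => p 0 s0 i
  have hq0 : ∀ i, (q i : L) ≠ 0 := fun i h0 => hs0 i (Subtype.ext h0)
  let G : ∀ i, Set (M i) := fun i => Set.range fun x : (Σ l, ι l) => p x.1 x.2 i / q i
  have hGfin : ∀ i, (G i).Finite := fun i => Set.finite_range _
  choose t htG htind htalg using fun i => exists_sub (k := k) (G i)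
  have htfin : ∀ i, (t i).Finite := fun i => (hGfin i).subset (htG i)
  -- the forms on the factors
  have hreg : ∀ (i : Fin r) (f : M i), f ∈ VV k (Bm i) (T i) m 0 (y i) →
      IsSec k (M i) (a i) (Bm i) {1} m 0 (PF (y i) m f) := by
    intro i f hf
    rw [mem_vvB] at hf
    exact ⟨pf_pluri _ _ _, fun v hv h1 D hD => dom_one.2 (dom_ge (hf.2.1 v hv h1 D hD)),
      fun v hv h1 D hD => dom_one.2 (dom_ge (hf.2.2 v hv h1 D hD))⟩
  refine ⟨fun i => (t i).ncard, fun i => ?_, ?_⟩
  · obtain ⟨e⟩ : Nonempty (Fin (t i).ncard ≃ t i) := by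
      have := (htfin i).to_subtype
      exact ⟨(Finite.equivFinOfCardEq (Nat.card_coe_set_eq _)).symm⟩
    choose x hx using fun z : t i => htG i z.2
    refine ⟨m, hm, Fin.cons (PF (y i) m (q i)) (fun l => PF (y i) m (p (x (e l)).1 (x (e l)).2 i)),
      fun l => ?_, Ei i, fun l => ?_, ?_⟩
    · refine Fin.cases ?_ (fun l => ?_) l
      · exact hreg i _ (hp _ _ _)
      · exact hreg i _ (hp _ _ _)
    · refine Fin.cases ?_ (fun l => ?_) l
      · change PF (y i) m (q i) (Ei i) ≠ 0
        rw [pf_eval (hEi i)]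
        exact hs0 i
      · change PF (y i) m (p (x (e l)).1 (x (e l)).2 i) (Ei i) ≠ 0
        rw [pf_eval (hEi i)]
        intro h0
        have h1 := hx (e l)
        simp only [h0, zero_div] at h1
        exact (htind i).ne_zero (e l) h1.symm
    · have e1 : (fun l : Fin (t i).ncard =>
          (Fin.cons (PF (y i) m (q i)) (fun l => PF (y i) m (p (x (e l)).1 (x (e l)).2 i)) :
            Fin ((t i).ncard + 1) → (Fin (a i) → Derivation k (M i) (M i)) → M i) l.succ (Ei i) /
          (Fin.cons (PF (y i) m (q i)) (fun l => PF (y i) m (p (x (e l)).1 (x (e l)).2 i)) :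
            Fin ((t i).ncard + 1) → (Fin (a i) → Derivation k (M i) (M i)) → M i) 0 (Ei i)) =
          (fun z : t i => (z : M i)) ∘ e := by
        funext l
        rw [Fin.cons_succ, Fin.cons_zero, pf_eval (hEi i), pf_eval (hEi i)]
        exact hx (e l)
      rw [e1]
      exact (htind i).comp e e.injective
  · -- the upper bound
    let U : Finset L := Finset.univ.biUnion fun i => (htfin i).toFinset.image (algebraMap (M i) L)
    have hUsub : ∀ i, ∀ z ∈ t i, (z : L) ∈ U := fun i z hz =>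
      Finset.mem_biUnion.2 ⟨i, Finset.mem_univ _,
        Finset.mem_image_of_mem _ ((htfin i).mem_toFinset.2 hz)⟩
    have hcard : U.card ≤ ∑ i, (t i).ncard := by
      refine Finset.card_biUnion_le.trans (Finset.sum_le_sum fun i _ => ?_)
      refine Finset.card_image_le.trans (le_of_eq ?_)
      exact (Set.ncard_eq_toFinset_card _ (htfin i)).symm
    refine le_trans (indep_le hind (U := U) fun l => ?_) hcard
    -- the algebraic closure
    let A : IntermediateField k L := adjoin k (U : Set L)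
    have hA : ∀ z : L, IsAlgebraic A z ↔ IsAlgebraic (Algebra.adjoin k (U : Set L)) z := by
      intro z
      exact isAlgebraic_adjoin_iff
    rw [← hA]
    have hG : ∀ i, ∀ z ∈ G i, IsAlgebraic A (z : L) := by
      intro i z hz
      rw [hA]
      have h1 := htalg i z hz
      let φ : Algebra.adjoin k (t i) →ₐ[k] Algebra.adjoin k (U : Set L) :=
        ((M i).val.comp (Algebra.adjoin k (t i)).val).codRestrict _ (fun x => by
          have h2 : (Algebra.adjoin k (t i)).map (M i).val ≤ Algebra.adjoin k (U : Set L) := by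
            rw [AlgHom.map_adjoin]
            refine Algebra.adjoin_mono ?_
            rintro _ ⟨z, hz, rfl⟩
            exact hUsub i z hz
          exact h2 ⟨x, x.2, rfl⟩)
      have hφinj : Function.Injective φ := by
        intro x x' hxx
        have h3 := congrArg (fun w : Algebra.adjoin k (U : Set L) => (w : L)) hxx
        exact Subtype.ext (Subtype.ext h3)
      obtain ⟨P, hP0, hP⟩ := h1
      refine ⟨P.map φ.toRingHom, (Polynomial.map_ne_zero_iff hφinj).2 hP0, ?_⟩
      rw [Polynomial.aeval_def, Polynomial.eval₂_map]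
      have h4 := congrArg (algebraMap (M i) L) hP
      rw [map_zero, Polynomial.aeval_def, Polynomial.hom_eval₂] at h4
      exact h4
    let C := algebraicClosure A L
    have memC : ∀ z : L, z ∈ C ↔ IsAlgebraic A z := fun z => mem_algebraicClosure_iff
    have hk : ∀ l (s : ι l), (algebraMap k L (c l s) *
        ∏ i, ((p l s i : M i) : L) / (q i : L)) ∈ C := by
      intro l s
      refine mul_mem ?_ (prod_mem fun i _ => ?_)
      · rw [memC]
        exact isAlgebraic_algebraMap (algebraMap k A (c l s))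
      · rw [memC]
        have h1 := hG i (p l s i / q i) ⟨⟨l, s⟩, rfl⟩
        exact h1
    have hf : ∀ l, ω l E / ∏ i, (q i : L) ∈ C := by
      intro l
      rw [hsum l, Finset.sum_div]
      refine sum_mem fun s _ => ?_
      have h1 := hk l s
      rwa [Finset.prod_div_distrib, ← mul_div_assoc] at h1
    have h5 : ω l.succ E / ω 0 E = (ω l.succ E / ∏ i, (q i : L)) * (ω 0 E / ∏ i, (q i : L))⁻¹ := by
      rw [inv_div, div_mul_div_cancel₀ (Finset.prod_ne_zero_iff.2 fun i _ => hq0 i)]
    rw [h5, ← memC]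
    exact mul_mem (hf _) (inv_mem (hf _))


/-- **Lower bound of the Kodaira dimension of a product.** -/
theorem kod_geB (Bm : ∀ i, Place k (M i) → Prop)
    (hess : ∀ i, Algebra.EssFiniteType k (M i)) (hM : ∀ i, Algebra.trdeg k (M i) = a i)
    (hn : Algebra.trdeg k L = (∑ i, a i : ℕ)) (hsup : (⨆ i, M i) = ⊤) {α : Fin r → ℕ}
    (hα : ∀ i, KodTrB k (M i) (a i) (Bm i) (α i)) :
    KodTrB k L (∑ i, a i) (Bdr M Bm) (∑ i, α i) := by
  classical
  have halg : Algebra.IsAlgebraic ↥(⨆ i, M i) L := by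
    rw [hsup]
    exact ⟨fun z => isAlgebraic_algebraMap (⟨z, trivial⟩ : (⊤ : IntermediateField k L))⟩
  obtain ⟨τ⟩ : Nonempty ((Σ i, Fin (a i)) ≃ Fin (∑ i, a i)) := ⟨finSigmaFinEquiv⟩
  choose y hy using fun i => Pool.Agent.W636.PG.exists_basis k (M i) (a i) (hM i)
  choose Ei hEi using fun i => Pool.Agent.W636.PG.exists_duals k (M i) (a i) (y i) (hy i)
  have hYY := yy_basis hsup hn hy τ
  obtain ⟨E, hE⟩ := Pool.Agent.W636.PG.exists_duals k L _ _ hYY
  choose m hm ω hω D hD0 hDi using hα
  have hc := fun i l => sec_coeffB (hy i) (hEi i) (hω i l)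
  have hval : ∀ i l, ω i l (D i) = (Matrix.of fun p q => D i p (y i q)).det ^ m i * ω i l (Ei i) :=
    fun i l => by
      conv_lhs => rw [(hc i l).2]
      rfl
  have hdet0 : ∀ i, (Matrix.of fun p q => D i p (y i q)).det ^ m i ≠ 0 := by
    intro i h0
    apply hD0 i 0
    rw [hval, h0, zero_mul]
  have hE0 : ∀ i l, ω i l (Ei i) ≠ 0 := by
    intro i l h0
    apply hD0 i l
    rw [hval, h0, mul_zero]
  have hind : ∀ i, AlgebraicIndependent k
      (fun l : Fin (α i) => ω i l.succ (Ei i) / ω i 0 (Ei i)) := by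
    intro i
    have e1 : (fun l : Fin (α i) => ω i l.succ (Ei i) / ω i 0 (Ei i)) =
        fun l : Fin (α i) => ω i l.succ (D i) / ω i 0 (D i) := by
      funext l
      rw [hval, hval, mul_div_mul_left _ _ (hdet0 i)]
    rw [e1]
    exact hDi i
  let N : ℕ := ∏ i, m i
  have hN : 1 ≤ N := Nat.one_le_iff_ne_zero.2 (Finset.prod_ne_zero_iff.2 fun i _ => by
    have := hm i
    omega)
  choose c hcN using fun i : Fin r => Finset.dvd_prod_of_mem m (Finset.mem_univ i)
  have hc1 : ∀ i, 1 ≤ c i := by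
    intro i
    rcases Nat.eq_zero_or_pos (c i) with h0 | h0
    · have h1 : N = m i * c i := hcN i
      rw [h0, mul_zero] at h1
      omega
    · exact h0
  let g : ∀ i, Fin (α i + 1) → M i := fun i l => ω i l (Ei i) ^ c i
  have hg0 : ∀ i l, g i l ≠ 0 := fun i l => pow_ne_zero _ (hE0 i l)
  have hgV : ∀ i l, g i l ∈ VV k (Bm i) {1} N 0 (y i) := by
    intro i l
    have h1 := vv_powB (hc i l).1 (c i)
    have h2 : m i * c i = N := (hcN i).symm
    rwa [h2] at h1
  obtain ⟨T', hT'⟩ := prod_secB hess hM hn Bm (y := y) τ (T := fun i => {1})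
    (fun i => Finset.mem_singleton_self _)
  let τ2 : Fin (∑ i, α i) ≃ Σ i, Fin (α i) := finSigmaFinEquiv.symm
  let fl : Fin (∑ i, α i + 1) → ∀ i, M i := Fin.cons (fun i => g i 0)
    (fun p => Function.update (fun i => g i 0) (τ2 p).1 (g (τ2 p).1 (τ2 p).2.succ))
  have hfl0 : ∀ l i, fl l i ≠ 0 := by
    intro l i
    refine Fin.cases ?_ (fun p => ?_) l
    · exact hg0 i 0
    · change Function.update (fun i => g i 0) (τ2 p).1 (g (τ2 p).1 (τ2 p).2.succ) i ≠ 0
      by_cases hi : i = (τ2 p).1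
      · subst hi
        rw [Function.update_self]
        exact hg0 _ _
      · rw [Function.update_of_ne hi]
        exact hg0 _ _
  have hflV : ∀ l i, fl l i ∈ VV k (Bm i) {1} N 0 (y i) := by
    intro l i
    refine Fin.cases ?_ (fun p => ?_) l
    · exact hgV i 0
    · change Function.update (fun i => g i 0) (τ2 p).1 (g (τ2 p).1 (τ2 p).2.succ) i ∈ _
      by_cases hi : i = (τ2 p).1
      · subst hi
        rw [Function.update_self]
        exact hgV _ _
      · rw [Function.update_of_ne hi]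
        exact hgV _ _
  have hflL : ∀ l, (∏ i, ((fl l i : M i) : L)) ≠ 0 := fun l =>
    Finset.prod_ne_zero_iff.2 fun i _ h0 => hfl0 l i (Subtype.ext h0)
  refine ⟨N, hN, fun l => PF (YY y τ) N (∏ i, ((fl l i : M i) : L)), fun l => ?_, E, fun l => ?_,
    ?_⟩
  · exact mem_vvB.1 (vv_oneB (hT' N 0 (fl l) (hflV l)))
  · change PF (YY y τ) N (∏ i, ((fl l i : M i) : L)) E ≠ 0
    rw [pf_eval hE]
    exact hflL l
  · have hs : ∀ i, AlgebraicIndependent k (fun q : Fin (α i) => g i q.succ / g i 0) := by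
      intro i
      have h1 := indep_pow _ (hind i) (c i) (hc1 i)
      have h2 : (fun q : Fin (α i) => g i q.succ / g i 0) =
          fun q : Fin (α i) => (ω i q.succ (Ei i) / ω i 0 (Ei i)) ^ c i := by
        funext q
        rw [div_pow]
      rw [h2]
      exact h1
    have h1 := indep_sigma M halg hn hM (fun i q => g i q.succ / g i 0) hs
    have h2 := h1.comp τ2 τ2.injective
    have h3 : (fun l : Fin (∑ i, α i) => PF (YY y τ) N (∏ i, ((fl l.succ i : M i) : L)) E /
        PF (YY y τ) N (∏ i, ((fl 0 i : M i) : L)) E) =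
        (fun p : Σ i, Fin (α i) => ((g p.1 p.2.succ / g p.1 0 : M p.1) : L)) ∘ τ2 := by
      funext p
      rw [pf_eval hE, pf_eval hE, Function.comp_apply, ← Finset.prod_div_distrib,
        Finset.prod_eq_single (τ2 p).1]
      · change ((Function.update (fun i => g i 0) (τ2 p).1 (g (τ2 p).1 (τ2 p).2.succ) (τ2 p).1 :
          M (τ2 p).1) : L) / ((g (τ2 p).1 0 : M (τ2 p).1) : L) = _
        rw [Function.update_self]
        rfl
      · intro i _ hi
        change ((Function.update (fun i => g i 0) (τ2 p).1 (g (τ2 p).1 (τ2 p).2.succ) i :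
          M i) : L) / ((g i 0 : M i) : L) = 1
        rw [Function.update_of_ne hi]
        exact div_self fun h0 => hg0 i 0 (Subtype.ext h0)
      · intro h
        exact absurd (Finset.mem_univ _) h
    rw [h3]
    exact h2

end

end Pool.Agent.H908.WA
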