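import Pool.Agent.H908.WB2
import Pool.Graph.R_seed8.W327.PG.TRGE3

/-! Growth of the number of sections, with boundary. -/

set_option autoImplicit false
set_option linter.overlappingInstances false
set_option linter.unusedSectionVars false
set_option linter.unusedVariables false

open FF IntermediateField Pool.Agent.W619.PQ Pool.Agent.W619.PL Pool.Agent.W619.TW
  Pool.Agent.W603.LV Pool.Agent.W619.Y Pool.Agent.W672.PG Pool.Agent.W824.PG Pool.Agent.Y174
  Pool.Agent.K1H17.IS Pool.Agent.K1H6.PQ Pool.Agent.W460.PG.ONE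

namespace Pool.Agent.H908.WA

open Pool.Agent.H908.SB (PF pf_pluri pf_eval ge_lift desc3 det_change)
open Pool.Agent.H908.SE

section

variable {k : Type} {K : Type} [Field k] [CharZero k] [Field K] [Algebra k K]

theorem mem_vvC {Bd : Place k K → Prop} {n : ℕ} {S : Finset K} {m j : ℕ} {y : Fin n → K} {f : K} :
    f ∈ VV k Bd S m j y ↔ ∀ v : Place k K, IsDivisorial v n → ∀ D : Fin n → Derivation k K K,
      Vf Bd v D → Dom v S j (PF y m f D) := by
  rw [mem_vvB]
  constructor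
  · rintro ⟨-, h1, h2⟩ v hv D (⟨hb, hD⟩ | ⟨hb, hD⟩)
    · exact h1 v hv hb D hD
    · exact h2 v hv hb D hD
  · intro h
    exact ⟨pf_pluri _ _ _, fun v hv hb D hD => h v hv D (Or.inl ⟨hb, hD⟩),
      fun v hv hb D hD => h v hv D (Or.inr ⟨hb, hD⟩)⟩

theorem vf_pres {Bd : Place k K → Prop} {n : ℕ} {v : Place k K} {D : Fin n → Derivation k K K}
    (h : Vf Bd v D) (p : Fin n) : Pres v (D p) := by
  rcases h with ⟨-, h⟩ | ⟨-, h⟩
  · exact h p
  · intro z hz
    by_cases h0 : z = 0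
    · rw [h0, map_zero]
      exact v.reg_zero
    · have h1 : D p z = z * (D p z / z) := by field_simp
      rw [h1]
      exact v.reg_mul hz (h p z)

/-- The poles of `dy 1 ∧ ... ∧ dy n`. -/
theorem exists_oneB (Bd : Place k K → Prop) {n : ℕ} (y : Fin n → K) (hy : ∀ q, y q ≠ 0) : ∃ S : Finset K, (1 : K) ∈ S ∧
    (1 : K) ∈ VV k Bd S 1 1 y := by
  classical
  let c : Finset (Fin n) → K := fun J => ∏ q ∈ J, y q ^ 2
  have hc : ∀ J, c J ≠ 0 := fun J => Finset.prod_ne_zero_iff.2 fun q _ => pow_ne_zero _ (hy q)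
  refine ⟨Finset.univ.image c, Finset.mem_image.2 ⟨∅, Finset.mem_univ _, Finset.prod_empty⟩, ?_⟩
  rw [mem_vvC]
  intro v hv D hD'
  have hD := fun p => vf_pres hD' p
  let J : Finset (Fin n) := Finset.univ.filter fun q => v.ord (y q) < 0
  let u : Fin n → K := fun q => if q ∈ J then y q ^ 2 else 1
  have hu : ∏ q, u q = c J := by
    change ∏ q, (if q ∈ J then y q ^ 2 else 1) = ∏ q ∈ J, y q ^ 2
    rw [Finset.prod_ite_mem, Finset.univ_inter]
  have hu0 : ∀ q, u q ≠ 0 := fun q => by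
    change (if q ∈ J then y q ^ 2 else 1) ≠ 0
    split_ifs
    · exact pow_ne_zero _ (hy q)
    · exact one_ne_zero
  have h1 : (Matrix.of fun p q => D p (y q)).det =
      c J * (Matrix.of fun p q => D p (y q) / u q).det := by
    rw [← hu, ← Matrix.det_mul_row]
    congr 1
    ext p q
    rw [Matrix.of_apply, Matrix.of_apply, Matrix.of_apply, mul_div_cancel₀ _ (hu0 q)]
  have h2 : Ge v 0 (Matrix.of fun p q => D p (y q) / u q).det := by
    refine ge_det v _ fun p q => ?_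
    rw [Matrix.of_apply]
    by_cases hq : q ∈ J
    · have e1 : u q = y q ^ 2 := if_pos hq
      rw [e1]
      exact der_pole (hD p) (Finset.mem_filter.1 hq).2
    · have e1 : u q = 1 := if_neg hq
      rw [e1, div_one]
      refine hD p _ ?_
      right
      by_contra hcon
      exact hq (Finset.mem_filter.2 ⟨Finset.mem_univ _, not_le.1 hcon⟩)
  have h3 : PF y 1 1 D = c J * (Matrix.of fun p q => D p (y q) / u q).det := by
    unfold PF
    rw [pow_one, mul_one, h1]
  rw [h3]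
  rcases h2 with h2 | h2
  · left
    rw [h2, mul_zero]
  · by_cases h0 : (Matrix.of fun p q => D p (y q) / u q).det = 0
    · left
      rw [h0, mul_zero]
    · right
      refine ⟨c J, Finset.mem_image.2 ⟨J, Finset.mem_univ _, rfl⟩, hc J, ?_⟩
      rw [v.ord_mul (hc J) h0]
      push_cast
      omega

/-- Powers of sections. -/
theorem vv_powS [DecidableEq K] {Bd : Place k K → Prop} {n : ℕ} {y : Fin n → K} {S : Finset K} {m j : ℕ} {f : K}
    (hf : f ∈ VV k Bd S m j y) (p : ℕ) :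
    f ^ p ∈ VV k Bd (insert 1 S) (m * p) (j * p) y := by
  rw [mem_vvC] at hf ⊢
  intro v hv D hD
  have h1 : PF y (m * p) (f ^ p) D = PF y m f D ^ p := by
    unfold PF
    rw [mul_pow, pow_mul]
  rw [h1]
  rcases Nat.eq_zero_or_pos p with hp | hp
  · right
    refine ⟨1, Finset.mem_insert_self _ _, one_ne_zero, ?_⟩
    rw [hp, pow_zero, v.ord_one, mul_zero]
  rcases hf v hv D hD with h2 | ⟨s, hs, hs0, h2⟩
  · left
    rw [h2, zero_pow hp.ne']
  · right
    refine ⟨s, Finset.mem_insert_of_mem hs, hs0, ?_⟩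
    rw [v.ord_pow]
    push_cast
    have h3 : (0 : ℤ) ≤ p := Int.natCast_nonneg p
    nlinarith

/-- Products of sections of multiples of the canonical divisor. -/
theorem vv_mulB {Bd : Place k K → Prop} {n : ℕ} {y : Fin n → K} {S S' : Finset K} {m m' j' : ℕ} {f f' : K}
    (hf : f ∈ VV k Bd S m 0 y) (hf' : f' ∈ VV k Bd S' m' j' y) :
    f * f' ∈ VV k Bd S' (m + m') j' y := by
  rw [mem_vvC] at hf hf' ⊢
  intro v hv D hD
  have h1 : PF y (m + m') (f * f') D = PF y m f D * PF y m' f' D := by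
    unfold PF
    rw [pow_add]
    ring
  rw [h1]
  by_cases h0 : PF y m f D = 0
  · left
    rw [h0, zero_mul]
  by_cases h0' : PF y m' f' D = 0
  · left
    rw [h0', mul_zero]
  obtain ⟨s, hs, hs0, h2⟩ := (hf v hv D hD).resolve_left h0
  obtain ⟨s', hs', hs0', h2'⟩ := (hf' v hv D hD).resolve_left h0'
  right
  refine ⟨s', hs', hs0', ?_⟩
  rw [v.ord_mul h0 h0']
  push_cast at h2
  omega

theorem indep_coeffB {Bd : Place k K → Prop} {n : ℕ} {y : Fin n → K} (hy : IsTranscendenceBasis k y) {N : ℕ} {S : Finset K}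
    {m j : ℕ} (h : HasIndep k K n N (IsSec k K n Bd S m j)) :
    ∃ f : Fin N → K, LinearIndependent k f ∧ ∀ l, f l ∈ VV k Bd S m j y := by
  obtain ⟨E, hE⟩ := Pool.Agent.W636.PG.exists_duals k K n y hy
  obtain ⟨ω, hω, hsec⟩ := h
  have hc := fun l => sec_coeffB hy hE (hsec l)
  refine ⟨fun l => ω l E, ?_, fun l => (hc l).1⟩
  rw [Fintype.linearIndependent_iff] at hω ⊢
  intro g hg
  refine hω g ?_
  funext D
  rw [Finset.sum_apply]
  simp only [Pi.smul_apply, Pi.zero_apply]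
  have h1 : ∀ l, ω l D = (Matrix.of fun p q => D p (y q)).det ^ m * ω l E := fun l => by
    conv_lhs => rw [(hc l).2]
    rfl
  simp only [h1]
  have h2 : ∀ l, g l • ((Matrix.of fun p q => D p (y q)).det ^ m * ω l E) =
      (Matrix.of fun p q => D p (y q)).det ^ m * (g l • ω l E) := fun l =>
    (mul_smul_comm _ _ _).symm
  simp only [h2]
  rw [← Finset.mul_sum, hg, mul_zero]

theorem indep_of_coeffB {Bd : Place k K → Prop} {n : ℕ} {y : Fin n → K} (hy : IsTranscendenceBasis k y) {N : ℕ}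
    {S : Finset K} {m j : ℕ} {f : Fin N → K} (hf : LinearIndependent k f)
    (hsec : ∀ l, f l ∈ VV k Bd S m j y) :
    HasIndep k K n N (IsSec k K n Bd S m j) := by
  obtain ⟨E, hE⟩ := Pool.Agent.W636.PG.exists_duals k K n y hy
  refine ⟨fun l => PF y m (f l), ?_, fun l => mem_vvB.1 (hsec l)⟩
  rw [Fintype.linearIndependent_iff] at hf ⊢
  intro g hg
  refine hf g ?_
  have h1 := congrFun hg E
  rw [Finset.sum_apply] at h1
  simp only [Pi.smul_apply, Pi.zero_apply, pf_eval hE] at h1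
  exact h1

/-- The number of sections of `m K + A`, for a suitable divisor `A`. -/
theorem growthB {Bd : Place k K → Prop} {n α : ℕ} (hn : Algebra.trdeg k K = n) (hk : KodTrB k K n Bd α) :
    ∃ (S : Finset K) (C : ℕ), (1 : K) ∈ S ∧ 1 ≤ C ∧ ∀ m : ℕ, 1 ≤ m → ∃ N : ℕ, m ^ α ≤ C * N ∧
      HasIndep k K n N (IsSec k K n Bd S m 1) := by
  classical
  obtain ⟨y, hy⟩ := Pool.Agent.W636.PG.exists_basis k K n hn
  obtain ⟨m0, hm0, hj⟩ := Pool.Agent.W327.PG.TRGE3.main k K n α Bd hn hk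
  have hy0 : ∀ q, y q ≠ 0 := fun q h0 => by
    have h1 := hy.1.transcendental q
    rw [h0] at h1
    exact h1 isAlgebraic_zero
  obtain ⟨S1, hS1, h1⟩ := exists_oneB (k := k) Bd y hy0
  -- the divisors of the powers
  have hpow : ∀ s : ℕ, (1 : K) ∈ VV k Bd (S1.image (· ^ s)) s 1 y := by
    intro s
    have h2 := vv_powS h1 s
    rw [one_pow, one_mul, Finset.insert_eq_of_mem hS1, mem_vvC] at h2
    rw [mem_vvC]
    intro v hv D hD
    rcases h2 v hv D hD with h3 | ⟨t, ht, ht0, h3⟩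
    · exact Or.inl h3
    · right
      refine ⟨t ^ s, Finset.mem_image_of_mem _ ht, pow_ne_zero _ ht0, ?_⟩
      rw [v.ord_pow]
      push_cast
      omega
  let S : Finset K := insert 1 ((Finset.range m0).biUnion fun s => S1.image (· ^ s))
  have hS : ∀ s, s < m0 → (1 : K) ∈ VV k Bd S s 1 y := fun s hs =>
    vv_monoB (fun z hz => Finset.mem_insert_of_mem
      (Finset.mem_biUnion.2 ⟨s, Finset.mem_range.2 hs, hz⟩)) (hpow s)
  refine ⟨S, (2 * m0) ^ α, Finset.mem_insert_self _ _, Nat.one_le_pow _ _ (by omega),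
    fun m hm => ?_⟩
  have hs : m % m0 < m0 := Nat.mod_lt _ hm0
  rcases Nat.eq_zero_or_pos (m / m0) with h0 | h0
  · -- small multiples
    have hmm : m < m0 := by
      rcases Nat.lt_or_ge m m0 with h | h
      · exact h
      · exact absurd h0 (Nat.div_pos h hm0).ne'
    refine ⟨1, ?_, ?_⟩
    · rw [mul_one]
      exact Nat.pow_le_pow_left (by omega) _
    · exact indep_of_coeffB hy (f := fun _ => (1 : K))
        (LinearIndependent.of_subsingleton 0 one_ne_zero) (fun _ => hS m hmm)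
  · refine ⟨(m / m0) ^ α, ?_, ?_⟩
    · rw [← mul_pow]
      refine Nat.pow_le_pow_left ?_ _
      have h2 := Nat.div_add_mod m m0
      nlinarith
    · obtain ⟨f, hf, hsec⟩ := indep_coeffB hy (hj (m / m0) h0)
      refine indep_of_coeffB hy hf fun l => ?_
      have h3 := vv_mulB (hsec l) (hS (m % m0) hs)
      rw [mul_one] at h3
      have h4 : m / m0 * m0 + m % m0 = m := Nat.div_add_mod' m m0
      rwa [h4] at h3

theorem le_of_kod_numB {Bd : Place k K → Prop} {n a h : ℕ} (hn : Algebra.trdeg k K = n)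
    (hk : KodTrB k K n Bd a) (hnum : NumLe k K n Bd h) : a ≤ h := by
  obtain ⟨m, hm, hj⟩ := Pool.Agent.W327.PG.TRGE3.main k K n a Bd hn hk
  obtain ⟨C, hC⟩ := hnum {1}
  by_contra hlt
  push Not at hlt
  have key : ∀ j : ℕ, 1 ≤ j → j ^ a ≤ C * (j * m) ^ h := by
    intro j hj1
    obtain ⟨ω, hω1, hω2⟩ := hj j hj1
    refine hC (j * m) (j ^ a) (Nat.mul_pos hj1 hm) ⟨ω, hω1, fun l => ?_⟩
    obtain ⟨h1, h2, h3⟩ := hω2 l
    have hd : ∀ (v : Place k K) (f : K), Dom v {1} 0 f → Dom v {1} 1 f := by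
      intro v f hf
      rcases hf with hf | ⟨s, hs, hs0, hf⟩
      · exact Or.inl hf
      · right
        refine ⟨s, hs, hs0, ?_⟩
        rw [Finset.mem_singleton] at hs
        subst hs
        rw [v.ord_one] at hf ⊢
        simpa using hf
    exact ⟨h1, fun v hv hb D hD => hd _ _ (h2 v hv hb D hD),
      fun v hv hb D hD => hd _ _ (h3 v hv hb D hD)⟩
  have h1 := key (C * m ^ h + 1) (by omega)
  have h2 : (C * m ^ h + 1) ^ (h + 1) ≤ (C * m ^ h + 1) ^ a :=
    Nat.pow_le_pow_right (by omega) (by omega)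
  have h3 : C * ((C * m ^ h + 1) * m) ^ h = (C * m ^ h) * (C * m ^ h + 1) ^ h := by
    rw [mul_pow]
    ring
  rw [h3] at h1
  have h4 : (C * m ^ h + 1) ^ (h + 1) = (C * m ^ h + 1) * (C * m ^ h + 1) ^ h := by
    rw [pow_succ]
    ring
  rw [h4] at h2
  have h5 : 0 < (C * m ^ h + 1) ^ h := Nat.pow_pos (by omega)
  nlinarith

theorem psef_iff_vvB {Bd : Place k K → Prop} {n : ℕ} {y : Fin n → K} (hy : IsTranscendenceBasis k y) :
    IsPsef k K n Bd ↔ ∃ S : Finset K, ∀ N : ℕ, ∃ j : ℕ, 1 ≤ j ∧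
      ∃ f : K, f ≠ 0 ∧ f ∈ VV k Bd S (j * N) j y := by
  obtain ⟨E, hE⟩ := Pool.Agent.W636.PG.exists_duals k K n y hy
  constructor
  · rintro ⟨S, h⟩
    refine ⟨S, fun N => ?_⟩
    obtain ⟨j, hj, ω, hω, D, hD⟩ := h N
    obtain ⟨h1, h2⟩ := sec_coeffB hy hE hω
    refine ⟨j, hj, ω E, fun h0 => hD ?_, h1⟩
    rw [h2]
    unfold PF
    rw [h0, mul_zero]
  · rintro ⟨S, h⟩
    refine ⟨S, fun N => ?_⟩
    obtain ⟨j, hj, f, hf0, hf⟩ := h N
    refine ⟨j, hj, PF y (j * N) f, mem_vvB.1 hf, E, ?_⟩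
    rw [pf_eval hE]
    exact hf0

end

end Pool.Agent.H908.WA
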