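import Pool.Agent.H908.WB3

/-! Products of log pairs: pseudo-effectivity, Kodaira dimension and numerical dimension. -/

set_option autoImplicit false
set_option linter.overlappingInstances false
set_option linter.unusedSectionVars false
set_option linter.unusedVariables false

open FF IntermediateField Pool.Agent.W619.PQ Pool.Agent.W619.PL Pool.Agent.W619.TW
  Pool.Agent.W603.LV Pool.Agent.W619.Y Pool.Agent.W672.PG Pool.Agent.W824.PG Pool.Agent.Y174
  Pool.Agent.K1H17.IS Pool.Agent.K1H6.PQ Pool.Agent.W460.PG.ONE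

namespace Pool.Agent.H908.WA

open Pool.Agent.H908.SB (PF pf_pluri pf_eval ge_lift desc3 det_change)
open Pool.Agent.H908.SE

section

variable {k : Type} {L : Type} [Field k] [CharZero k] [IsAlgClosed k] [Field L] [Algebra k L]
variable {r : ℕ} {M : Fin r → IntermediateField k L} {a : Fin r → ℕ}

/-- Products of independent sections. -/
theorem hasIndep_prodB (Bm : ∀ i, Place k (M i) → Prop) (hess : ∀ i, Algebra.EssFiniteType k (M i))
    (hM : ∀ i, Algebra.trdeg k (M i) = a i) (hn : Algebra.trdeg k L = (∑ i, a i : ℕ))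
    (hsup : (⨆ i, M i) = ⊤) {T : ∀ i, Finset (M i)} (h1 : ∀ i, (1 : M i) ∈ T i) :
    ∃ T' : Finset L, ∀ (m j : ℕ) (N : Fin r → ℕ),
      (∀ i, HasIndep k (M i) (a i) (N i) (IsSec k (M i) (a i) (Bm i) (T i) m j)) →
      HasIndep k L (∑ i, a i) (∏ i, N i) (IsSec k L (∑ i, a i) (Bdr M Bm) T' m j) := by
  classical
  obtain ⟨τ⟩ : Nonempty ((Σ i, Fin (a i)) ≃ Fin (∑ i, a i)) := ⟨finSigmaFinEquiv⟩
  choose y hy using fun i => Pool.Agent.W636.PG.exists_basis k (M i) (a i) (hM i)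
  have hYY := yy_basis hsup hn hy τ
  obtain ⟨T', hT'⟩ := prod_secB hess hM hn Bm (y := y) τ h1
  refine ⟨T', fun m j N hN => ?_⟩
  choose f hf hsec using fun i => indep_coeffB (hy i) (hN i)
  have h2 := tens_indep r L M a hM hn hsup N f hf
  obtain ⟨e⟩ : Nonempty (Fin (∏ i, N i) ≃ (∀ i, Fin (N i))) := ⟨finPiFinEquiv.symm⟩
  exact indep_of_coeffB hYY (h2.comp e e.injective) fun l =>
    hT' m j (fun i => f i (e l i)) fun i => hsec i _

/-- **Pseudo-effectivity of products.** -/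
theorem psef_prodB (Bm : ∀ i, Place k (M i) → Prop) (hess : ∀ i, Algebra.EssFiniteType k (M i))
    (hM : ∀ i, Algebra.trdeg k (M i) = a i) (hn : Algebra.trdeg k L = (∑ i, a i : ℕ))
    (hsup : (⨆ i, M i) = ⊤) : IsPsef k L (∑ i, a i) (Bdr M Bm) ↔
      ∀ i, IsPsef k (M i) (a i) (Bm i) := by
  classical
  obtain ⟨τ⟩ : Nonempty ((Σ i, Fin (a i)) ≃ Fin (∑ i, a i)) := ⟨finSigmaFinEquiv⟩
  choose y hy using fun i => Pool.Agent.W636.PG.exists_basis k (M i) (a i) (hM i)
  have hYY := yy_basis hsup hn hy τ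
  rw [psef_iff_vvB hYY]
  constructor
  · rintro ⟨S, hS⟩ i
    rw [psef_iff_vvB (hy i)]
    obtain ⟨b0, T, hb0, hT⟩ := kunB r L M Bm a hess hM hn hsup y hy _ τ S
    refine ⟨T i, fun N => ?_⟩
    obtain ⟨j, hj, f, hf0, hf⟩ := hS N
    obtain ⟨ι, _, c, p, hp, hsum⟩ := hT (j * N) j f hf
    have h1 : ∑ l, algebraMap k L (c l) * ∏ i, ((p l i : M i) : L) ≠ 0 := by
      rw [← hsum]
      exact mul_ne_zero (pow_ne_zero _ hb0) hf0
    obtain ⟨l, -, hl⟩ := Finset.exists_ne_zero_of_sum_ne_zero h1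
    refine ⟨j, hj, p l i, fun h0 => hl ?_, hp l i⟩
    rw [Finset.prod_eq_zero (Finset.mem_univ i) (by rw [h0]; rfl), mul_zero]
  · intro h
    have h' := fun i => (psef_iff_vvB (hy i)).1 (h i)
    choose S hS using h'
    obtain ⟨T', hT'⟩ := prod_secB hess hM hn Bm (y := y) τ (T := fun i => insert 1 (S i))
      (fun i => Finset.mem_insert_self _ _)
    refine ⟨T', fun N => ?_⟩
    choose j hj f hf0 hf using fun i => hS i N
    refine ⟨∏ i, j i, Finset.one_le_prod' fun i _ => hj i,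
      ∏ i, ((f i ^ (∏ q ∈ Finset.univ.erase i, j q) : M i) : L),
      Finset.prod_ne_zero_iff.2 fun i _ h0 => ?_, hT' _ _ _ fun i => ?_⟩
    · exact pow_ne_zero _ (hf0 i) (Subtype.ext h0)
    · have h1 := vv_powS (hf i) (∏ q ∈ Finset.univ.erase i, j q)
      have h2 : j i * ∏ q ∈ Finset.univ.erase i, j q = ∏ q, j q :=
        Finset.mul_prod_erase _ _ (Finset.mem_univ i)
      have h3 : j i * N * ∏ q ∈ Finset.univ.erase i, j q = (∏ q, j q) * N := by
        rw [← h2]
        ring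
      rwa [h2, h3] at h1

/-- **The numerical dimension of the factors.** -/
theorem num_factorB (Bm : ∀ i, Place k (M i) → Prop) (hess : ∀ i, Algebra.EssFiniteType k (M i))
    (hM : ∀ i, Algebra.trdeg k (M i) = a i) (hn : Algebra.trdeg k L = (∑ i, a i : ℕ))
    (hsup : (⨆ i, M i) = ⊤) {α : Fin r → ℕ} (hα : ∀ i, KodTrB k (M i) (a i) (Bm i) (α i))
    (hL : NumLe k L (∑ i, a i) (Bdr M Bm) (∑ i, α i)) (i0 : Fin r) :
    NumLe k (M i0) (a i0) (Bm i0) (α i0) := by
  classical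
  choose S C hS1 hC1 hgr using fun i => growthB (hM i) (hα i)
  intro S0
  let T : ∀ i, Finset (M i) := Function.update S i0 (insert 1 S0)
  have hT0 : T i0 = insert 1 S0 := Function.update_self _ _ _
  have hT1 : ∀ i, i ≠ i0 → T i = S i := fun i hi => Function.update_of_ne hi _ _
  obtain ⟨T', hT'⟩ := hasIndep_prodB Bm hess hM hn hsup (T := T) (fun i => by
    by_cases hi : i = i0
    · subst hi
      rw [hT0]
      exact Finset.mem_insert_self _ _
    · rw [hT1 i hi]
      exact hS1 i)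
  obtain ⟨C', hC'⟩ := hL T'
  refine ⟨C' * ∏ i ∈ Finset.univ.erase i0, C i, fun m N hm hN => ?_⟩
  choose N1 hN1 hind using fun i => hgr i m hm
  let N2 : Fin r → ℕ := Function.update N1 i0 N
  have hN20 : N2 i0 = N := Function.update_self _ _ _
  have hN21 : ∀ i, i ≠ i0 → N2 i = N1 i := fun i hi => Function.update_of_ne hi _ _
  have h1 := hC' m (∏ i, N2 i) hm (hT' m 1 N2 fun i => by
    by_cases hi : i = i0
    · subst hi
      rw [hN20, hT0]
      obtain ⟨ω, h2, h3⟩ := hN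
      exact ⟨ω, h2, fun l => ⟨(h3 l).1, fun v hv hv' D hD =>
        dom_mono (Finset.subset_insert _ _) ((h3 l).2.1 v hv hv' D hD), fun v hv hv' D hD =>
        dom_mono (Finset.subset_insert _ _) ((h3 l).2.2 v hv hv' D hD)⟩⟩
    · rw [hN21 i hi, hT1 i hi]
      exact hind i)
  rw [← Finset.mul_prod_erase _ N2 (Finset.mem_univ i0), hN20,
    ← Finset.add_sum_erase _ α (Finset.mem_univ i0), pow_add] at h1
  have h2 : ∏ i ∈ Finset.univ.erase i0, N2 i = ∏ i ∈ Finset.univ.erase i0, N1 i :=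
    Finset.prod_congr rfl fun i hi => hN21 i (Finset.ne_of_mem_erase hi)
  rw [h2] at h1
  have h3 : m ^ (∑ i ∈ Finset.univ.erase i0, α i) ≤
      (∏ i ∈ Finset.univ.erase i0, C i) * ∏ i ∈ Finset.univ.erase i0, N1 i := by
    rw [← Finset.prod_pow_eq_pow_sum, ← Finset.prod_mul_distrib]
    exact Finset.prod_le_prod' fun i _ => hN1 i
  have h4 : 0 < m ^ (∑ i ∈ Finset.univ.erase i0, α i) := Nat.pow_pos hm
  refine Nat.le_of_mul_le_mul_right (c := m ^ (∑ i ∈ Finset.univ.erase i0, α i)) ?_ h4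
  calc N * m ^ (∑ i ∈ Finset.univ.erase i0, α i)
      ≤ N * ((∏ i ∈ Finset.univ.erase i0, C i) * ∏ i ∈ Finset.univ.erase i0, N1 i) :=
        Nat.mul_le_mul_left _ h3
    _ = (∏ i ∈ Finset.univ.erase i0, C i) * (N * ∏ i ∈ Finset.univ.erase i0, N1 i) := by ring
    _ ≤ (∏ i ∈ Finset.univ.erase i0, C i) *
        (C' * (m ^ α i0 * m ^ (∑ i ∈ Finset.univ.erase i0, α i))) := Nat.mul_le_mul_left _ h1
    _ = C' * (∏ i ∈ Finset.univ.erase i0, C i) * m ^ α i0 *
        m ^ (∑ i ∈ Finset.univ.erase i0, α i) := by ring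

/-- **The numerical dimension of a product.** -/
theorem num_prodB (Bm : ∀ i, Place k (M i) → Prop) (hess : ∀ i, Algebra.EssFiniteType k (M i))
    (hM : ∀ i, Algebra.trdeg k (M i) = a i) (hn : Algebra.trdeg k L = (∑ i, a i : ℕ))
    (hsup : (⨆ i, M i) = ⊤) {ν : Fin r → ℕ} (hν : ∀ i, NumLe k (M i) (a i) (Bm i) (ν i)) :
    NumLe k L (∑ i, a i) (Bdr M Bm) (∑ i, ν i) := by
  classical
  obtain ⟨τ⟩ : Nonempty ((Σ i, Fin (a i)) ≃ Fin (∑ i, a i)) := ⟨finSigmaFinEquiv⟩
  choose y hy using fun i => Pool.Agent.W636.PG.exists_basis k (M i) (a i) (hM i)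
  have hYY := yy_basis hsup hn hy τ
  intro S
  obtain ⟨b0, T, hb0, hkun⟩ := kunB (k := k) r L M Bm a hess hM hn hsup y hy _ τ S
  choose C hC using fun i => hν i (T i)
  refine ⟨∏ i, C i, fun m N hm hN => ?_⟩
  have hV := fun i => finrank_VV (Bm i) (T i) m 1 (y i) (hy i) (C i * m ^ ν i)
    (fun N hN => hC i m N hm hN)
  have hfinV : ∀ i, Module.Finite k (VV k (Bm i) (T i) m 1 (y i)) := fun i => (hV i).1
  let d : Fin r → ℕ := fun i => Module.finrank k (VV k (Bm i) (T i) m 1 (y i))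
  let e : ∀ i, Module.Basis (Fin (d i)) k (VV k (Bm i) (T i) m 1 (y i)) := fun i =>
    Module.finBasis k _
  let b : (∀ i, Fin (d i)) → L := fun l => ∏ i, (((e i (l i) :
    VV k (Bm i) (T i) m 1 (y i)) : M i) : L)
  let W : Submodule k L := Submodule.span k (Set.range b)
  have hfinW : FiniteDimensional k W := FiniteDimensional.span_of_finite k (Set.finite_range b)
  have hW : Module.finrank k W ≤ ∏ i, d i := by
    have h1 := finrank_range_le_card (R := k) b
    rw [Fintype.card_pi] at h1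
    simp only [Fintype.card_fin] at h1
    exact h1
  have hmem : ∀ f : L, f ∈ VV k (Bdr M Bm) S m 1 (YY y τ) → b0 * f ∈ W := by
    intro f hf
    obtain ⟨ι, _, c, p, hp, hsum⟩ := hkun m 1 f hf
    rw [pow_one] at hsum
    rw [hsum]
    refine Submodule.sum_mem _ fun l _ => ?_
    rw [← Algebra.smul_def]
    refine Submodule.smul_mem _ _ ?_
    have h1 : ∀ i, ((p l i : M i) : L) = ∑ q : Fin (d i),
        algebraMap k L ((e i).repr ⟨p l i, hp l i⟩ q) * (((e i q :
          VV k (Bm i) (T i) m 1 (y i)) : M i) : L) := by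
      intro i
      have h3 := congrArg (fun z : VV k (Bm i) (T i) m 1 (y i) => ((z : M i) : L))
        ((e i).sum_repr ⟨p l i, hp l i⟩)
      change (((∑ q, (e i).repr ⟨p l i, hp l i⟩ q • e i q : VV k (Bm i) (T i) m 1 (y i)) :
        M i) : L) = ((p l i : M i) : L) at h3
      rw [← h3, AddSubmonoidClass.coe_finsetSum, AddSubmonoidClass.coe_finsetSum]
      refine Finset.sum_congr rfl fun q _ => ?_
      rw [← Algebra.smul_def]
      rfl
    simp only [h1]
    rw [Finset.prod_univ_sum]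
    refine Submodule.sum_mem _ fun x _ => ?_
    rw [Finset.prod_mul_distrib, ← map_prod, ← Algebra.smul_def]
    exact Submodule.smul_mem _ _ (Submodule.subset_span ⟨x, rfl⟩)
  obtain ⟨f, hf, hfV⟩ := indep_coeffB hYY hN
  let g : Fin N → W := fun l => ⟨b0 * f l, hmem _ (hfV l)⟩
  have hg : LinearIndependent k g := by
    refine LinearIndependent.of_comp W.subtype ?_
    have h1 := hf.map' (LinearMap.mulLeft k b0) (LinearMap.ker_eq_bot.2 fun x x' hxx =>
      mul_left_cancel₀ hb0 hxx)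
    exact h1
  have h3 := hg.fintype_card_le_finrank
  rw [Fintype.card_fin] at h3
  calc N ≤ ∏ i, d i := h3.trans hW
    _ ≤ ∏ i, (C i * m ^ ν i) := Finset.prod_le_prod' fun i _ => (hV i).2
    _ = (∏ i, C i) * m ^ (∑ i, ν i) := by
      rw [Finset.prod_mul_distrib, Finset.prod_pow_eq_pow_sum]

/-- **`κ = ν ≥ 0` for a product and for the factors.** -/
theorem good_prodB (Bm : ∀ i, Place k (M i) → Prop) (hess : ∀ i, Algebra.EssFiniteType k (M i))
    (hM : ∀ i, Algebra.trdeg k (M i) = a i) (hn : Algebra.trdeg k L = (∑ i, a i : ℕ))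
    (hsup : (⨆ i, M i) = ⊤) :
    (∃ b, KodTrB k L (∑ i, a i) (Bdr M Bm) b ∧ NumLe k L (∑ i, a i) (Bdr M Bm) b) ↔
      ∀ i, ∃ b, KodTrB k (M i) (a i) (Bm i) b ∧ NumLe k (M i) (a i) (Bm i) b := by
  constructor
  · rintro ⟨b, h1, h2⟩
    obtain ⟨α, hα, hb1⟩ := kod_leB Bm hess hM hn hsup h1
    have h3 : ∑ i, α i ≤ b := le_of_kod_numB hn (kod_geB Bm hess hM hn hsup hα) h2
    have h4 : b = ∑ i, α i := le_antisymm hb1 h3
    rw [h4] at h2
    exact fun i => ⟨α i, hα i, num_factorB Bm hess hM hn hsup hα h2 i⟩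
  · intro h1
    choose α hα hnum using h1
    exact ⟨_, kod_geB Bm hess hM hn hsup hα, num_prodB Bm hess hM hn hsup hnum⟩

end

section

variable {k : Type} [Field k] [CharZero k] {K K' : Type} [Field K] [Field K'] [Algebra k K]
  [Algebra k K']

theorem bdUp_equiv (e : K ≃ₐ[k] K') (Bd' : Place k K' → Prop) :
    letI : Algebra K K' := e.toRingEquiv.toRingHom.toAlgebra
    BdUp (k := k) (K := K) (L := K') (fun v : Place k K => Bd' (trP e.symm v)) = Bd' := by
  letI iA : Algebra K K' := e.toRingEquiv.toRingHom.toAlgebra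
  funext w
  apply propext
  constructor
  · rintro ⟨v, c, hwv, hv⟩
    have hc : c = 1 := by
      obtain ⟨s, -, hs⟩ := w.surj
      have h3 := hwv.2 (e.symm s)
      have h4 : algebraMap K K' (e.symm s) = s := e.apply_symm_apply s
      rw [h4, hs] at h3
      have h5 : (c : ℤ) ∣ 1 := ⟨_, h3⟩
      have h6 : c ∣ 1 := by exact_mod_cast h5
      exact Nat.dvd_one.1 h6
    have h3 : trP e.symm v = w := by
      ext z
      have h4 := hwv.2 (e.symm z)
      have h5 : algebraMap K K' (e.symm z) = z := e.apply_symm_apply z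
      rw [h5, hc] at h4
      rw [trP_ord, h4]
      simp
    rwa [h3] at hv
  · intro hw
    refine ⟨trP e w, 1, ⟨one_pos, fun z => ?_⟩, ?_⟩
    · rw [trP_ord]
      simp
      rfl
    · have h3 := trP_trP e.symm w
      rw [AlgEquiv.symm_symm] at h3
      change Bd' (trP e.symm (trP e w))
      rw [h3]
      exact hw

theorem transportB (e : K ≃ₐ[k] K') (hess : Algebra.EssFiniteType k K) {n : ℕ}
    (hn : Algebra.trdeg k K = n) (Bd' : Place k K' → Prop) :
    (IsPsef k K n (fun v : Place k K => Bd' (trP e.symm v)) → IsPsef k K' n Bd') ∧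
    (∀ h, NumLe k K' n Bd' h → NumLe k K n (fun v : Place k K => Bd' (trP e.symm v)) h) ∧
    ∀ h, KodTrB k K n (fun v : Place k K => Bd' (trP e.symm v)) h → KodTrB k K' n Bd' h := by
  letI iA : Algebra K K' := e.toRingEquiv.toRingHom.toAlgebra
  have t1 : IsScalarTower k K K' := IsScalarTower.of_algebraMap_eq fun c => (e.commutes c).symm
  have f1 : FiniteDimensional K K' :=
    Module.Finite.of_surjective (Algebra.linearMap K K') e.surjective
  have h1 := Pool.Agent.Y174.pTRANS k K K' n hn (fun y hy => fin_adj hess y hy)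
    (fun v : Place k K => Bd' (trP e.symm v))
  have h2 := bdUp_equiv e Bd'
  have h3 : ∀ h, KodTrB k K n (fun v : Place k K => Bd' (trP e.symm v)) h →
      KodTrB k K' n (BdUp (k := k) (K := K) (L := K')
        (fun v : Place k K => Bd' (trP e.symm v))) h := fun h h4 => kodB_up hess hn h4
  rw [h2] at h1
  simp only [h2] at h3
  exact ⟨h1.1, h1.2.2, h3⟩

end

section

variable {k : Type} {L : Type} [Field k] [CharZero k] [IsAlgClosed k] [Field L] [Algebra k L]
variable {r : ℕ} {M : Fin r → IntermediateField k L} {a : Fin r → ℕ}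
  {G : Subgroup (L ≃ₐ[k] L)} {σ : G →* Equiv.Perm (Fin r)}

theorem qb_bot (Bm : ∀ i, Place k (M i) → Prop) :
    QB M Bm (⊥ : Subgroup (L ≃ₐ[k] L)) =
      fun v => Bdr M Bm (trP (botEquiv (k := k) (L := L)).symm v) := by
  have hfin : Finite (⊥ : Subgroup (L ≃ₐ[k] L)) := inferInstance
  have hinv : ∀ g ∈ (⊥ : Subgroup (L ≃ₐ[k] L)), ∀ w : Place k L, Bdr M Bm w →
      Bdr M Bm (w.comp g) := by
    intro g hg w hw
    rw [Subgroup.mem_bot] at hg
    subst hg
    exact hw
  funext v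
  apply propext
  refine qb_iff (e := 1) hinv ⟨one_pos, fun z => ?_⟩
  rw [trP_ord]
  have h1 : (botEquiv (k := k) (L := L)).symm (algebraMap (fixedField (⊥ : Subgroup (L ≃ₐ[k] L))) L z)
      = z := by
    rw [AlgEquiv.symm_apply_eq]
    rfl
  rw [h1]
  simp

/-- **Quotients by groups without junior elements outside the boundary.** -/
theorem main_bot [Finite G] (h : IsPermuted M a G σ) {Bm : ∀ i, Place k (M i) → Prop}
    (hinv : ∀ g ∈ G, ∀ w : Place k L, Bdr M Bm w → Bdr M Bm (w.comp g))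
    (hage : SeniorB M a Bm G σ ⊥) :
    (IsPsef k (fixedField G) (∑ i, a i) (QB M Bm G) ↔ ∀ i, IsPsef k (M i) (a i) (Bm i)) ∧
    (∀ b, KodTrB k (fixedField G) (∑ i, a i) (QB M Bm G) b ↔
      ∃ α : Fin r → ℕ, (∀ i, KodTrB k (M i) (a i) (Bm i) (α i)) ∧ b ≤ ∑ i, α i) ∧
    ((∃ b, KodTrB k (fixedField G) (∑ i, a i) (QB M Bm G) b ∧
        NumLe k (fixedField G) (∑ i, a i) (QB M Bm G) b) ↔
      ∀ i, ∃ b, KodTrB k (M i) (a i) (Bm i) b ∧ NumLe k (M i) (a i) (Bm i) b) := by
  classical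
  obtain ⟨t1, t2, -, t4⟩ := main_iffB h bot_le hinv hage
  have hbn : Algebra.trdeg k (fixedField (⊥ : Subgroup (L ≃ₐ[k] L))) = (∑ i, a i : ℕ) := by
    rw [← h.total]; exact botEquiv.trdeg_eq
  have hbess : Algebra.EssFiniteType k (fixedField (⊥ : Subgroup (L ≃ₐ[k] L))) :=
    (Algebra.EssFiniteType.iff_of_algEquiv botEquiv).2 h.essL
  obtain ⟨u1, u2, u3⟩ := transportB (botEquiv (k := k) (L := L)) hbess hbn (Bdr M Bm)
  obtain ⟨w1, w2, w3⟩ := transportB (botEquiv (k := k) (L := L)).symm h.essL h.total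
    (fun v => Bdr M Bm (trP (botEquiv (k := k) (L := L)).symm v))
  have hB : (fun w : Place k L => Bdr M Bm (trP (botEquiv (k := k) (L := L)).symm
      (trP (botEquiv (k := k) (L := L)).symm.symm w))) = Bdr M Bm := by
    funext w
    rw [trP_trP]
  simp only [hB] at w1 w2 w3
  rw [← qb_bot] at u1 u2 u3 w1 w2 w3
  have v1 : IsPsef k (fixedField (⊥ : Subgroup (L ≃ₐ[k] L))) (∑ i, a i) (QB M Bm ⊥) ↔
      IsPsef k L (∑ i, a i) (Bdr M Bm) := ⟨u1, w1⟩
  have v2 : ∀ b, NumLe k (fixedField (⊥ : Subgroup (L ≃ₐ[k] L))) (∑ i, a i) (QB M Bm ⊥) b ↔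
      NumLe k L (∑ i, a i) (Bdr M Bm) b := fun b => ⟨w2 b, u2 b⟩
  have v3 : ∀ b, KodTrB k (fixedField (⊥ : Subgroup (L ≃ₐ[k] L))) (∑ i, a i) (QB M Bm ⊥) b ↔
      KodTrB k L (∑ i, a i) (Bdr M Bm) b := fun b => ⟨u3 b, w3 b⟩
  refine ⟨?_, fun b => ?_, ?_⟩
  · rw [t2, v1]
    exact psef_prodB Bm h.ess h.trdeg h.total h.sup
  · rw [t1, v3]
    constructor
    · intro h1
      exact kod_leB Bm h.ess h.trdeg h.total h.sup h1
    · rintro ⟨α, h1, h2⟩
      obtain ⟨m, hm, ω, hω, D, hD0, hDi⟩ := kod_geB Bm h.ess h.trdeg h.total h.sup h1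
      have h2' : b + 1 ≤ (∑ i, α i) + 1 := Nat.succ_le_succ h2
      refine ⟨m, hm, fun l => ω (Fin.castLE h2' l), fun l => hω _, D, fun l => hD0 _, ?_⟩
      have e1 : (fun l : Fin b => ω (Fin.castLE h2' l.succ) D /
          ω (Fin.castLE h2' 0) D) =
          (fun l : Fin (∑ i, α i) => ω l.succ D / ω 0 D) ∘ Fin.castLE h2 := by
        funext l
        rfl
      rw [e1]
      exact hDi.comp _ (Fin.castLE_injective h2)
  · simp only [t1, t4, v2, v3]
    exact good_prodB Bm h.ess h.trdeg h.total h.sup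

end

end Pool.Agent.H908.WA
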